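import Pool.Agent.H891WLC.Defs

set_option autoImplicit false

namespace Pool.Agent.H891WLC

namespace W_tri_conn3

/-- steps inside `A` -/
def St {V : Type} (T : Tri V) (A : Set V) (a b : V) : Prop := a ∈ A ∧ b ∈ A ∧ T.G.Adj a b

theorem St.symm {V : Type} {T : Tri V} {A : Set V} {a b : V} (h : St T A a b) : St T A b a :=
  ⟨h.2.1, h.1, h.2.2.symm⟩

theorem rsymm {V : Type} {T : Tri V} {A : Set V} {a b : V}
    (h : Relation.ReflTransGen (St T A) a b) : Relation.ReflTransGen (St T A) b a := by
  induction h with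
  | refl => exact Relation.ReflTransGen.refl
  | tail _ h2 ih => exact Relation.ReflTransGen.head h2.symm ih

theorem adj12 {V : Type} {T : Tri V} {a b c : V} (h : T.F a b c) : T.G.Adj a b := ⟨c, h⟩

theorem adj23 {V : Type} {T : Tri V} {a b c : V} (h : T.F a b c) : T.G.Adj b c :=
  ⟨a, T.rot _ _ _ h⟩

theorem ne23 {V : Type} {T : Tri V} {a b c : V} (h : T.F a b c) : b ≠ c :=
  T.ne _ _ _ (T.rot _ _ _ h)

theorem ne31 {V : Type} {T : Tri V} {a b c : V} (h : T.F a b c) : c ≠ a :=
  ne23 (T.rot _ _ _ h)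

theorem link_lemma {V : Type} (T : Tri V) (A : Set V) (p q : V)
    (hA : ∀ a, a ∈ A ↔ a ≠ p ∧ a ≠ q) {a b : V} (ha : a ∈ A) (hb : b ∈ A)
    (hap : T.G.Adj p a) (hbp : T.G.Adj p b) : Relation.ReflTransGen (St T A) a b := by
  obtain ⟨c, hc⟩ := hap
  obtain ⟨d, hd⟩ := hbp
  by_cases hq : T.G.Adj p q
  · obtain ⟨s, hs⟩ := hq
    have key : ∀ z, Relation.ReflTransGen (fun x y => T.F p x y) q z →
        z = q ∨ (z ∈ A ∧ Relation.ReflTransGen (St T A) s z) := by
      intro z hz
      induction hz with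
      | refl => exact Or.inl rfl
      | @tail y z _ h2 ih =>
        have hzp : z ≠ p := ne31 h2
        rcases ih with h | ⟨h3, h4⟩
        · right
          subst h
          have : z = s := T.uniq _ _ _ _ h2 hs
          subst this
          exact ⟨(hA z).2 ⟨hzp, (ne23 h2).symm⟩, Relation.ReflTransGen.refl⟩
        · by_cases hzq : z = q
          · exact Or.inl hzq
          · right
            have hzA : z ∈ A := (hA z).2 ⟨hzp, hzq⟩
            exact ⟨hzA, h4.tail ⟨h3, hzA, adj23 h2⟩⟩
    have h1 := key a (T.link p q s a c hs hc)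
    have h2 := key b (T.link p q s b d hs hd)
    have h1' := (h1.resolve_left ((hA a).1 ha).2).2
    have h2' := (h2.resolve_left ((hA b).1 hb).2).2
    exact (rsymm h1').trans h2'
  · have key : ∀ z, Relation.ReflTransGen (fun x y => T.F p x y) a z →
        z ∈ A ∧ Relation.ReflTransGen (St T A) a z := by
      intro z hz
      induction hz with
      | refl => exact ⟨ha, Relation.ReflTransGen.refl⟩
      | @tail y z _ h2 ih =>
        have hzp : z ≠ p := ne31 h2
        have hzq : z ≠ q := by
          intro h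
          apply hq
          rw [← h]
          exact (adj12 (T.rot _ _ _ (T.rot _ _ _ h2))).symm
        have hzA : z ∈ A := (hA z).2 ⟨hzp, hzq⟩
        exact ⟨hzA, ih.2.tail ⟨ih.1, hzA, adj23 h2⟩⟩
    exact (key b (T.link p a c b d hc hd)).2

theorem main {V : Type} (T : Tri V) (A : Set V) (x y : V)
    (hA : ∀ a, a ∈ A ↔ a ≠ x ∧ a ≠ y) {u v : V} (hu : u ∈ A) (hv : v ∈ A) :
    Relation.ReflTransGen (St T A) u v := by
  have hA' : ∀ a, a ∈ A ↔ a ≠ y ∧ a ≠ x := fun a => (hA a).trans and_comm
  have lk : ∀ w, w ∉ A → ∀ a b, a ∈ A → b ∈ A → T.G.Adj w a → T.G.Adj w b →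
      Relation.ReflTransGen (St T A) a b := by
    intro w hw a b ha hb hwa hwb
    rw [hA, not_and_or, not_not, not_not] at hw
    rcases hw with h | h
    · subst h
      exact link_lemma T A w y hA ha hb hwa hwb
    · subst h
      exact link_lemma T A w x hA' ha hb hwa hwb
  have key : ∀ w, Relation.ReflTransGen (fun x y => ∃ z, T.F x y z) u w →
      (w ∈ A → Relation.ReflTransGen (St T A) u w) ∧
      (w ∉ A → ∀ a, a ∈ A → T.G.Adj w a → Relation.ReflTransGen (St T A) u a) := by
    intro w hw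
    induction hw with
    | refl => exact ⟨fun _ => Relation.ReflTransGen.refl, fun h => absurd hu h⟩
    | @tail w w' _ h2 ih =>
      obtain ⟨z, hz⟩ := h2
      have hadj : T.G.Adj w w' := ⟨z, hz⟩
      by_cases hwA : w ∈ A
      · refine ⟨fun hw'A => (ih.1 hwA).tail ⟨hwA, hw'A, hadj⟩, fun hw'A a ha hwa => ?_⟩
        exact (ih.1 hwA).trans (lk w' hw'A w a hwA ha hadj.symm hwa)
      · refine ⟨fun hw'A => ih.2 hwA w' hw'A hadj, fun hw'A a ha hwa => ?_⟩
        have hzA : z ∈ A := by
          rw [hA]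
          have h1 : z ≠ w := ne31 hz
          have h2 : w' ≠ z := ne23 hz
          have h3 : w ≠ w' := T.ne _ _ _ hz
          rw [hA, not_and_or, not_not, not_not] at hwA hw'A
          rcases hwA with h | h <;> rcases hw'A with h' | h'
          · exact absurd (h.trans h'.symm) h3
          · subst h; subst h'; exact ⟨h1, h2.symm⟩
          · subst h; subst h'; exact ⟨h2.symm, h1⟩
          · exact absurd (h.trans h'.symm) h3
        have hwz : T.G.Adj w z := (adj12 (T.rot _ _ _ (T.rot _ _ _ hz))).symm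
        have hw'z : T.G.Adj w' z := adj23 hz
        exact (ih.2 hwA z hzA hwz).trans (lk w' hw'A z a hzA ha hw'z hwa)
  exact (key v (T.conn u v)).1 hv

theorem card_ge {V : Type} [Finite V] (T : Tri V) : 3 ≤ Nat.card V := by
  have he := T.euler
  by_contra hcon
  push Not at hcon
  have h2 : Nat.card V = 2 := by omega
  have hF0 : Nat.card {t : V × V × V // T.F t.1 t.2.1 t.2.2} = 0 := by omega
  haveI : Finite {t : V × V × V // T.F t.1 t.2.1 t.2.2} := Subtype.finite
  have hemp : IsEmpty {t : V × V × V // T.F t.1 t.2.1 t.2.2} := by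
    rcases Nat.card_eq_zero.1 hF0 with h | h
    · exact h
    · exact absurd ‹Finite {t : V × V × V // T.F t.1 t.2.1 t.2.2}› (not_finite_iff_infinite.2 h)
  have hnt : Nontrivial V := by
    rw [← Finite.one_lt_card_iff_nontrivial]; omega
  obtain ⟨a, b, hab⟩ := exists_pair_ne V
  have h3 := T.conn a b
  rcases Relation.ReflTransGen.cases_head h3 with h | ⟨c, ⟨z, hz⟩, _⟩
  · exact hab h
  · exact hemp.false ⟨(a, c, z), hz⟩

end W_tri_conn3

open W_tri_conn3 in
theorem tri_conn3 {V : Type} [Finite V] (T : Tri V) (x y : V) : Conn T.G ({x, y}ᶜ : Set V) := by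
  have hA : ∀ a, a ∈ ({x, y}ᶜ : Set V) ↔ a ≠ x ∧ a ≠ y := by
    intro a
    simp
  refine ⟨?_, ?_⟩
  · by_contra hcon
    rw [Set.not_nonempty_iff_eq_empty, Set.compl_empty_iff] at hcon
    have h1 := card_ge T
    have h2 : Nat.card V = (Set.univ : Set V).ncard := (Set.ncard_univ V).symm
    rw [← hcon] at h2
    have h3 : ({x, y} : Set V).ncard ≤ 2 := by
      have := Set.ncard_insert_le x ({y} : Set V)
      rw [Set.ncard_singleton] at this
      exact this
    omega
  · intro u hu v hv
    have h := main T ({x, y}ᶜ : Set V) x y hA hu hv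
    induction h with
    | refl => exact Relation.ReflTransGen.refl
    | tail _ h2 ih => exact (ih h2.1).tail ⟨h2.2.2, h2.2.1⟩


end Pool.Agent.H891WLC
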