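import Pool.Agent.H891WLC.Defs

set_option autoImplicit false

namespace Pool.Agent.H891WLC

namespace W_CL

theorem path_cross {V : Type} (r : V → V → Prop) (P : V → Prop) {a c : V}
    (hp : Relation.ReflTransGen r a c) (ha : P a) (hc : ¬ P c) :
    ∃ x y, r x y ∧ P x ∧ ¬ P y := by
  induction hp with
  | refl => exact absurd ha hc
  | @tail x y hab hbc ih =>
    by_cases hx : P x
    · exact ⟨x, y, hbc, hx, hc⟩
    · exact ih hx

theorem face_ne {V : Type} (T : Tri V) {a b c : V} (hF : T.F a b c) : a ≠ b ∧ b ≠ c ∧ c ≠ a :=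
  ⟨T.ne _ _ _ hF, T.ne _ _ _ (T.rot _ _ _ hF), T.ne _ _ _ (T.rot _ _ _ (T.rot _ _ _ hF))⟩

open Classical in
noncomputable def US {V : Type} [Fintype V] (T : Tri V) (h : V → ℝ) (v : V) :
    Finset (V × V × V) :=
  Finset.univ.filter fun t => T.F t.1 t.2.1 t.2.2 ∧ t.1 = v ∧ h t.2.1 < h v ∧ h v < h t.2.2

open Classical in
noncomputable def DS {V : Type} [Fintype V] (T : Tri V) (h : V → ℝ) (v : V) :
    Finset (V × V × V) :=
  Finset.univ.filter fun t => T.F t.1 t.2.1 t.2.2 ∧ t.1 = v ∧ h t.2.2 < h v ∧ h v < h t.2.1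

open Classical in
theorem mem_US {V : Type} [Fintype V] (T : Tri V) (h : V → ℝ) (v : V) (t : V × V × V) :
    t ∈ US T h v ↔ T.F t.1 t.2.1 t.2.2 ∧ t.1 = v ∧ h t.2.1 < h v ∧ h v < h t.2.2 := by
  unfold US
  rw [Finset.mem_filter]
  exact ⟨fun h => h.2, fun h => ⟨Finset.mem_univ _, h⟩⟩

open Classical in
theorem mem_DS {V : Type} [Fintype V] (T : Tri V) (h : V → ℝ) (v : V) (t : V × V × V) :
    t ∈ DS T h v ↔ T.F t.1 t.2.1 t.2.2 ∧ t.1 = v ∧ h t.2.2 < h v ∧ h v < h t.2.1 := by
  unfold DS
  rw [Finset.mem_filter]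
  exact ⟨fun h => h.2, fun h => ⟨Finset.mem_univ _, h⟩⟩

/-- `a` has the middle height -/
def mid {V : Type} (h : V → ℝ) (a b c : V) : Prop :=
  (h b < h a ∧ h a < h c) ∨ (h c < h a ∧ h a < h b)

open Classical in
theorem count {V : Type} [Fintype V] (T : Tri V) (h : V → ℝ) (hinj : Function.Injective h) :
    3 * (∑ v : V, ((US T h v).card + (DS T h v).card)) + 12 = 6 * Fintype.card V := by
  obtain ⟨S, hS⟩ : ∃ S : Finset (V × V × V),
      S = Finset.univ.filter (fun t => T.F t.1 t.2.1 t.2.2) := ⟨_, rfl⟩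
  have hmem : ∀ t, t ∈ S ↔ T.F t.1 t.2.1 t.2.2 := by
    intro t
    rw [hS, Finset.mem_filter]
    exact ⟨fun h => h.2, fun h => ⟨Finset.mem_univ _, h⟩⟩
  have hcard : S.card + 12 = 6 * Fintype.card V := by
    have h1 := T.euler
    rw [Nat.card_eq_fintype_card, Nat.card_eq_fintype_card, Fintype.card_subtype] at h1
    rw [hS]
    exact h1
  have h1 : S.card = (S.filter (fun t => mid h t.1 t.2.1 t.2.2)).card +
      (S.filter (fun t => mid h t.2.1 t.2.2 t.1)).card +
      (S.filter (fun t => mid h t.2.2 t.1 t.2.1)).card := by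
    rw [Finset.card_filter, Finset.card_filter, Finset.card_filter, ← Finset.sum_add_distrib,
      ← Finset.sum_add_distrib, Finset.card_eq_sum_ones]
    apply Finset.sum_congr rfl
    rintro ⟨a, b, c⟩ ht
    obtain ⟨hab, hbc, hca⟩ := face_ne T ((hmem _).mp ht)
    have hab' : h a ≠ h b := fun e => hab (hinj e)
    have hbc' : h b ≠ h c := fun e => hbc (hinj e)
    have hca' : h c ≠ h a := fun e => hca (hinj e)
    rcases lt_or_gt_of_ne hab' with h1 | h1 <;> rcases lt_or_gt_of_ne hbc' with h2 | h2 <;>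
      rcases lt_or_gt_of_ne hca' with h3 | h3 <;>
      first
      | (exfalso; linarith)
      | simp [mid, h1, h2, h3, not_lt.mpr h1.le, not_lt.mpr h2.le, not_lt.mpr h3.le]
  have h2 : (S.filter (fun t => mid h t.2.1 t.2.2 t.1)).card =
      (S.filter (fun t => mid h t.1 t.2.1 t.2.2)).card := by
    apply Finset.card_nbij' (fun t => (t.2.1, t.2.2, t.1)) (fun t => (t.2.2, t.1, t.2.1))
    · intro t ht
      have ht' := Finset.mem_filter.mp ht
      refine Finset.mem_filter.mpr ⟨(hmem _).mpr (T.rot _ _ _ ((hmem _).mp ht'.1)), ht'.2⟩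
    · intro t ht
      have ht' := Finset.mem_filter.mp ht
      refine Finset.mem_filter.mpr
        ⟨(hmem _).mpr (T.rot _ _ _ (T.rot _ _ _ ((hmem _).mp ht'.1))), ht'.2⟩
    · intro t _; rfl
    · intro t _; rfl
  have h3 : (S.filter (fun t => mid h t.2.2 t.1 t.2.1)).card =
      (S.filter (fun t => mid h t.1 t.2.1 t.2.2)).card := by
    apply Finset.card_nbij' (fun t => (t.2.2, t.1, t.2.1)) (fun t => (t.2.1, t.2.2, t.1))
    · intro t ht
      have ht' := Finset.mem_filter.mp ht
      refine Finset.mem_filter.mpr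
        ⟨(hmem _).mpr (T.rot _ _ _ (T.rot _ _ _ ((hmem _).mp ht'.1))), ht'.2⟩
    · intro t ht
      have ht' := Finset.mem_filter.mp ht
      refine Finset.mem_filter.mpr ⟨(hmem _).mpr (T.rot _ _ _ ((hmem _).mp ht'.1)), ht'.2⟩
    · intro t _; rfl
    · intro t _; rfl
  have h4 : (S.filter (fun t => mid h t.1 t.2.1 t.2.2)).card =
      ∑ v : V, ((US T h v).card + (DS T h v).card) := by
    rw [Finset.card_eq_sum_card_fiberwise (f := fun t => t.1) (t := Finset.univ)
      (fun _ _ => Finset.mem_univ _)]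
    apply Finset.sum_congr rfl
    intro v _
    rw [← Finset.card_union_of_disjoint]
    · congr 1
      ext t
      rw [Finset.mem_filter, Finset.mem_filter, Finset.mem_union, mem_US, mem_DS, hmem]
      constructor
      · rintro ⟨⟨h5, h6⟩, h7⟩
        rcases h6 with h6 | h6
        · left
          rw [h7] at h6
          exact ⟨h5, h7, h6.1, h6.2⟩
        · right
          rw [h7] at h6
          exact ⟨h5, h7, h6.1, h6.2⟩
      · rintro (⟨h5, h7, h6⟩ | ⟨h5, h7, h6⟩)
        · refine ⟨⟨h5, Or.inl ?_⟩, h7⟩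
          rw [h7]; exact h6
        · refine ⟨⟨h5, Or.inr ?_⟩, h7⟩
          rw [h7]; exact h6
    · rw [Finset.disjoint_left]
      intro t h5 h6
      rw [mem_US] at h5
      rw [mem_DS] at h6
      exact lt_asymm h5.2.2.1 h6.2.2.2
  rw [h2, h3, h4] at h1
  omega

open Classical in
theorem main_bd {V : Type} [Fintype V] (T : Tri V) (h : V → ℝ) (hinj : Function.Injective h)
    (b t : V)
    (hact : ∀ v, v ≠ b → v ≠ t → (∃ u, T.G.Adj v u ∧ h u < h v) ∧
      (∃ u, T.G.Adj v u ∧ h v < h u)) (v0 : V) :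
    (US T h v0).card ≤ 1 ∧ (DS T h v0).card ≤ 1 := by
  have hc := count T h hinj
  haveI : Nonempty V := ⟨b⟩
  obtain ⟨vmin, hmin⟩ := Finite.exists_min h
  obtain ⟨vmax, hmax⟩ := Finite.exists_max h
  have hne : vmin ≠ vmax := by
    intro e
    have hsub : ∀ x y : V, x = y := by
      intro x y
      apply hinj
      have h1 := hmin x
      have h2 := hmin y
      have h3 := hmax x
      have h4 := hmax y
      rw [e] at h1 h2
      linarith
    have h1 : Fintype.card V ≤ 1 := Fintype.card_le_one_iff.mpr hsub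
    omega
  have h1 : vmin = b ∨ vmin = t := by
    by_contra hcon
    push Not at hcon
    obtain ⟨u, _, hu⟩ := (hact vmin hcon.1 hcon.2).1
    exact absurd (hmin u) (not_le.mpr hu)
  have h2 : vmax = b ∨ vmax = t := by
    by_contra hcon
    push Not at hcon
    obtain ⟨u, _, hu⟩ := (hact vmax hcon.1 hcon.2).2
    exact absurd (hmax u) (not_le.mpr hu)
  have hbt : b ≠ t := by
    intro e
    rw [← e] at h1 h2
    apply hne
    rcases h1 with h1 | h1 <;> rcases h2 with h2 | h2 <;> rw [h1, h2]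
  have hext : ∀ v, (v = b ∨ v = t) → (v = vmin ∨ v = vmax) := by
    rintro v (rfl | rfl)
    · rcases h1 with h1 | h1
      · exact Or.inl h1.symm
      · rcases h2 with h2 | h2
        · exact Or.inr h2.symm
        · exact absurd (h1.trans h2.symm) hne
    · rcases h1 with h1 | h1
      · rcases h2 with h2 | h2
        · exact absurd (h1.trans h2.symm) hne
        · exact Or.inr h2.symm
      · exact Or.inl h1.symm
  have hzero : ∀ v, (v = b ∨ v = t) → (US T h v).card = 0 ∧ (DS T h v).card = 0 := by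
    intro v hv
    rw [Finset.card_eq_zero, Finset.card_eq_zero]
    rcases hext v hv with rfl | rfl
    · constructor
      · apply Finset.eq_empty_of_forall_notMem
        intro s hs
        rw [mem_US] at hs
        exact absurd (hmin _) (not_le.mpr hs.2.2.1)
      · apply Finset.eq_empty_of_forall_notMem
        intro s hs
        rw [mem_DS] at hs
        exact absurd (hmin _) (not_le.mpr hs.2.2.1)
    · constructor
      · apply Finset.eq_empty_of_forall_notMem
        intro s hs
        rw [mem_US] at hs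
        exact absurd (hmax _) (not_le.mpr hs.2.2.2)
      · apply Finset.eq_empty_of_forall_notMem
        intro s hs
        rw [mem_DS] at hs
        exact absurd (hmax _) (not_le.mpr hs.2.2.2)
  have hpos : ∀ v, v ≠ b → v ≠ t → 1 ≤ (US T h v).card ∧ 1 ≤ (DS T h v).card := by
    intro v hvb hvt
    obtain ⟨⟨u, ⟨c, hu⟩, hu2⟩, ⟨u', ⟨c', hu'⟩, hu2'⟩⟩ := hact v hvb hvt
    constructor
    · obtain ⟨x, y, h5, h6, h7⟩ := path_cross (fun x y => T.F v x y) (fun x => h x < h v)
        (T.link v u c u' c' hu hu') hu2 (not_lt.mpr hu2'.le)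
      have h8 : h v < h y := lt_of_le_of_ne (not_lt.mp h7)
        (fun e => (face_ne T h5).2.2 (hinj e).symm)
      exact Finset.card_pos.mpr ⟨(v, x, y), (mem_US T h v _).mpr ⟨h5, rfl, h6, h8⟩⟩
    · obtain ⟨x, y, h5, h6, h7⟩ := path_cross (fun x y => T.F v x y) (fun x => h v < h x)
        (T.link v u' c' u c hu' hu) hu2' (not_lt.mpr hu2.le)
      have h8 : h y < h v := lt_of_le_of_ne (not_lt.mp h7)
        (fun e => (face_ne T h5).2.2 (hinj e))
      exact Finset.card_pos.mpr ⟨(v, x, y), (mem_DS T h v _).mpr ⟨h5, rfl, h8, h6⟩⟩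
  by_contra hcon
  have hv0b : v0 ≠ b := by
    rintro rfl
    have := hzero v0 (Or.inl rfl)
    apply hcon
    omega
  have hv0t : v0 ≠ t := by
    rintro rfl
    have := hzero v0 (Or.inr rfl)
    apply hcon
    omega
  have hv3 : 3 ≤ (US T h v0).card + (DS T h v0).card := by
    have := hpos v0 hv0b hv0t
    by_contra hlt
    apply hcon
    omega
  have hle : ∀ v ∈ (Finset.univ : Finset V),
      (2:ℤ) + (if v = v0 then 1 else 0) - (if v = b then 2 else 0) -
      (if v = t then 2 else 0) ≤ (((US T h v).card + (DS T h v).card : ℕ) : ℤ) := by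
    intro v _
    by_cases hb : v = b
    · subst hb
      rw [if_neg (fun e => hv0b e.symm), if_pos rfl, if_neg hbt]
      omega
    · by_cases ht : v = t
      · subst ht
        rw [if_neg (fun e => hv0t e.symm), if_neg hb, if_pos rfl]
        omega
      · rw [if_neg hb, if_neg ht]
        by_cases h0 : v = v0
        · rw [if_pos h0, h0]
          omega
        · rw [if_neg h0]
          have := hpos v hb ht
          omega
  have hsum := Finset.sum_le_sum hle
  rw [Finset.sum_sub_distrib, Finset.sum_sub_distrib, Finset.sum_add_distrib,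
    Finset.sum_ite_eq', Finset.sum_ite_eq', Finset.sum_ite_eq', if_pos (Finset.mem_univ _),
    if_pos (Finset.mem_univ _), if_pos (Finset.mem_univ _), Finset.sum_const,
    Finset.card_univ, ← Nat.cast_sum, nsmul_eq_mul] at hsum
  omega

end W_CL

open W_CL in
theorem CL {V : Type} [Finite V] (T : Tri V) (h : V → ℝ) (hinj : Function.Injective h) (b t : V)
    (hact : ∀ v, v ≠ b → v ≠ t → (∃ u, T.G.Adj v u ∧ h u < h v) ∧ (∃ u, T.G.Adj v u ∧ h v < h u)) :
    (∀ v x y x' y', T.F v x y → h x < h v → h v < h y → T.F v x' y' → h x' < h v → h v < h y' → x = x') ∧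
    (∀ v x y x' y', T.F v x y → h v < h x → h y < h v → T.F v x' y' → h v < h x' → h y' < h v → x = x') := by
  haveI : Fintype V := Fintype.ofFinite V
  constructor
  · intro v x y x' y' h1 h2 h3 h4 h5 h6
    have h7 := Finset.card_le_one.mp (main_bd T h hinj b t hact v).1 (v, x, y)
      ((mem_US T h v _).mpr ⟨h1, rfl, h2, h3⟩) (v, x', y')
      ((mem_US T h v _).mpr ⟨h4, rfl, h5, h6⟩)
    exact congrArg (fun t => t.2.1) h7
  · intro v x y x' y' h1 h2 h3 h4 h5 h6
    have h7 := Finset.card_le_one.mp (main_bd T h hinj b t hact v).2 (v, x, y)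
      ((mem_DS T h v _).mpr ⟨h1, rfl, h3, h2⟩) (v, x', y')
      ((mem_DS T h v _).mpr ⟨h4, rfl, h6, h5⟩)
    exact congrArg (fun t => t.2.1) h7


end Pool.Agent.H891WLC
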