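import Pool.Agent.H891WLC.Defs

set_option autoImplicit false

namespace Pool.Agent.H891WLC

namespace W_EE

/-- exit lemma -/
theorem exit_lemma {V : Type} (G : SimpleGraph V) (Q : V → Prop) (C : Set V) (r u : V)
    (h : Relation.ReflTransGen (fun x y => G.Adj x y ∧ Q y) r u) (hr : r ∈ C) (hu : u ∉ C) :
    ∃ x ∈ C, ∃ c, c ∉ C ∧ G.Adj x c ∧ Q c := by
  induction h with
  | refl => exact absurd hr hu
  | @tail b c _ hbc ih =>
    by_cases hb : b ∈ C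
    · exact ⟨b, hb, c, hu, hbc.1, hbc.2⟩
    · exact ih hb

/-- a gap in which the new values are placed -/
theorem gap_lemma {V : Type} [Finite V] (P : Set V) (h : V → ℝ) (A B : Prop)
    (a b : V → Prop) 
    (hlow : A ∨ ∃ p ∈ P, a p) (hup : B ∨ ∃ p ∈ P, b p)
    (hab : A ∨ B ∨ ∃ p ∈ P, ∃ q ∈ P, a p ∧ b q ∧ h p < h q) :
    ∃ lo hi : ℝ, lo < hi ∧ (∀ p ∈ P, h p ≤ lo ∨ hi ≤ h p) ∧
      (A ∨ ∃ p ∈ P, a p ∧ h p ≤ lo) ∧ (B ∨ ∃ p ∈ P, b p ∧ hi ≤ h p) := by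
  by_cases hA : A
  · -- below everything
    obtain ⟨m, hm⟩ : ∃ m : ℝ, ∀ p ∈ P, m ≤ h p := by
      obtain ⟨m, hm⟩ := (Set.toFinite (h '' P)).bddBelow
      exact ⟨m, fun p hp => hm ⟨p, hp, rfl⟩⟩
    refine ⟨m - 1, m, by linarith, fun p hp => Or.inr (hm p hp), Or.inl hA, ?_⟩
    rcases hup with hB | ⟨p, hp, hbp⟩
    · exact Or.inl hB
    · exact Or.inr ⟨p, hp, hbp, hm p hp⟩
  · by_cases hB : B
    · obtain ⟨m, hm⟩ : ∃ m : ℝ, ∀ p ∈ P, h p ≤ m := by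
        obtain ⟨m, hm⟩ := (Set.toFinite (h '' P)).bddAbove
        exact ⟨m, fun p hp => hm ⟨p, hp, rfl⟩⟩
      refine ⟨m, m + 1, by linarith, fun p hp => Or.inl (hm p hp), ?_, Or.inl hB⟩
      rcases hlow with hA' | ⟨p, hp, hap⟩
      · exact Or.inl hA'
      · exact Or.inr ⟨p, hp, hap, hm p hp⟩
    · rcases hab with hA' | hB' | ⟨p, hp, q, hq, hap, hbq, hpq⟩
      · exact absurd hA' hA
      · exact absurd hB' hB
      · obtain ⟨m, hm, hmin⟩ := Set.exists_min_image {z | z ∈ P ∧ h p < h z} h (Set.toFinite _)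
          ⟨q, hq, hpq⟩
        refine ⟨h p, h m, hm.2, ?_, Or.inr ⟨p, hp, hap, le_rfl⟩,
          Or.inr ⟨q, hq, hbq, hmin q ⟨hq, hpq⟩⟩⟩
        intro z hz
        by_cases hz1 : h z ≤ h p
        · exact Or.inl hz1
        · exact Or.inr (hmin z ⟨hz, not_le.1 hz1⟩)

/-- placing an ear -/
theorem ear_place {V : Type} (G : SimpleGraph V) (S U P : Set V)
    (h : V → ℝ) (hinj : Set.InjOn h P) (hP : Valid G S U P h)
    (k : ℕ) (q : ℕ → V) (hqP : ∀ i ≤ k, q i ∉ P) (hqinj : Set.InjOn q {i | i ≤ k})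
    (hadj : ∀ i < k, G.Adj (q i) (q (i + 1)))
    (lo hi : ℝ) (hlh : lo < hi) (hgap : ∀ p ∈ P, h p ≤ lo ∨ hi ≤ h p)
    (hlo : ∃ u, G.Adj (q 0) u ∧ (u ∈ S ∨ (u ∈ P ∧ h u ≤ lo)))
    (hhi : ∃ u, G.Adj (q k) u ∧ (u ∈ U ∨ (u ∈ P ∧ hi ≤ h u))) :
    ∃ h' : V → ℝ, Set.InjOn h' (P ∪ q '' {i | i ≤ k}) ∧ (∀ u ∈ P, h' u = h u) ∧
      Valid G S U (P ∪ q '' {i | i ≤ k}) h' := by
  classical
  let nv : ℕ → ℝ := fun i => lo + (hi - lo) * ((i + 1 : ℝ) / (k + 2))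
  have hk2 : (0 : ℝ) < (k : ℝ) + 2 := by positivity
  have hnv_mono : ∀ i j : ℕ, i < j → nv i < nv j := by
    intro i j hij
    have h1 : (i : ℝ) < j := by exact_mod_cast hij
    have h2 : ((i : ℝ) + 1) / (k + 2) < ((j : ℝ) + 1) / (k + 2) := by
      apply div_lt_div_of_pos_right _ hk2
      linarith
    have h3 : 0 < hi - lo := by linarith
    show lo + (hi - lo) * _ < lo + (hi - lo) * _
    nlinarith
  have hnv_lo : ∀ i : ℕ, lo < nv i := by
    intro i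
    have h2 : (0 : ℝ) < ((i : ℝ) + 1) / (k + 2) := by positivity
    have h3 : 0 < hi - lo := by linarith
    show lo < lo + (hi - lo) * _
    nlinarith
  have hnv_hi : ∀ i : ℕ, i ≤ k → nv i < hi := by
    intro i hik
    have h1 : (i : ℝ) ≤ k := by exact_mod_cast hik
    have h2 : ((i : ℝ) + 1) / (k + 2) < 1 := by
      rw [div_lt_one hk2]
      linarith
    have h3 : 0 < hi - lo := by linarith
    show lo + (hi - lo) * _ < hi
    nlinarith
  let h' : V → ℝ := fun v => if hv : ∃ i, i ≤ k ∧ q i = v then nv hv.choose else h v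
  have hq' : ∀ i, i ≤ k → h' (q i) = nv i := by
    intro i hik
    have hex : ∃ j, j ≤ k ∧ q j = q i := ⟨i, hik, rfl⟩
    show (if hv : ∃ j, j ≤ k ∧ q j = q i then nv hv.choose else h (q i)) = nv i
    rw [dif_pos hex]
    have h1 := hex.choose_spec
    have h2 : hex.choose = i := hqinj h1.1 hik h1.2
    rw [h2]
  have hP' : ∀ v, v ∈ P → h' v = h v := by
    intro v hv
    have hex : ¬ ∃ j, j ≤ k ∧ q j = v := by
      rintro ⟨j, hj, rfl⟩
      exact hqP j hj hv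
    show (if hv : ∃ j, j ≤ k ∧ q j = v then nv hv.choose else h v) = h v
    rw [dif_neg hex]
  refine ⟨h', ?_, hP', ?_⟩
  · rintro a (ha | ⟨i, hi', rfl⟩) b (hb | ⟨j, hj, rfl⟩) hab
    · rw [hP' a ha, hP' b hb] at hab
      exact hinj ha hb hab
    · exfalso
      rw [hP' a ha, hq' j hj] at hab
      have h1 := hnv_lo j
      have h2 := hnv_hi j hj
      rcases hgap a ha with h3 | h3 <;> linarith
    · exfalso
      rw [hP' b hb, hq' i hi'] at hab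
      have h1 := hnv_lo i
      have h2 := hnv_hi i hi'
      rcases hgap b hb with h3 | h3 <;> linarith
    · rw [hq' i hi', hq' j hj] at hab
      rcases lt_trichotomy i j with h1 | h1 | h1
      · exact absurd hab (hnv_mono i j h1).ne
      · rw [h1]
      · exact absurd hab (hnv_mono j i h1).ne'
  · rintro v (hv | ⟨i, hi', rfl⟩)
    · obtain ⟨⟨u, hu1, hu2⟩, ⟨w, hw1, hw2⟩⟩ := hP v hv
      refine ⟨⟨u, hu1, ?_⟩, ⟨w, hw1, ?_⟩⟩
      · rcases hu2 with hu2 | ⟨hu2, hu3⟩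
        · exact Or.inl hu2
        · exact Or.inr ⟨Or.inl hu2, by rw [hP' u hu2, hP' v hv]; exact hu3⟩
      · rcases hw2 with hw2 | ⟨hw2, hw3⟩
        · exact Or.inl hw2
        · exact Or.inr ⟨Or.inl hw2, by rw [hP' w hw2, hP' v hv]; exact hw3⟩
    · have hik : i ≤ k := hi'
      rw [hq' i hik]
      constructor
      · rcases Nat.eq_zero_or_pos i with h0 | h0
        · subst h0
          obtain ⟨u, hu1, hu2⟩ := hlo
          refine ⟨u, hu1, ?_⟩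
          rcases hu2 with hu2 | ⟨hu2, hu3⟩
          · exact Or.inl hu2
          · refine Or.inr ⟨Or.inl hu2, ?_⟩
            rw [hP' u hu2]
            exact lt_of_le_of_lt hu3 (hnv_lo 0)
        · obtain ⟨j, rfl⟩ : ∃ j, i = j + 1 := ⟨i - 1, by omega⟩
          refine ⟨q j, (hadj j (by omega)).symm, Or.inr ⟨Or.inr ⟨j, ?_, rfl⟩, ?_⟩⟩
          · show j ≤ k
            omega
          · rw [hq' j (by omega)]
            exact hnv_mono j (j + 1) (by omega)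
      · rcases Nat.lt_or_ge i k with h0 | h0
        · refine ⟨q (i + 1), hadj i h0, Or.inr ⟨Or.inr ⟨i + 1, ?_, rfl⟩, ?_⟩⟩
          · show i + 1 ≤ k
            omega
          · rw [hq' (i + 1) (by omega)]
            exact hnv_mono i (i + 1) (by omega)
        · have : i = k := le_antisymm hik h0
          subst this
          obtain ⟨u, hu1, hu2⟩ := hhi
          refine ⟨u, hu1, ?_⟩
          rcases hu2 with hu2 | ⟨hu2, hu3⟩
          · exact Or.inl hu2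
          · refine Or.inr ⟨Or.inl hu2, ?_⟩
            rw [hP' u hu2]
            exact lt_of_lt_of_le (hnv_hi i hik) hu3

/-- one ear step -/
theorem ear_step {V : Type} [Finite V] (G : SimpleGraph V) (h2 : ∀ x : V, Conn G ({x}ᶜ : Set V))
    (S U P : Set V) (hSU : Disjoint S U) (hPS : Disjoint P S) (hPU : Disjoint P U)
    (hSne : S.Nonempty) (hUne : U.Nonempty)
    (hK1 : ∀ v, v ∉ S → v ∉ U → ∃ u ∈ U, Relation.ReflTransGen (fun x y => G.Adj x y ∧ y ∉ S) v u)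
    (hK2 : ∀ v, v ∉ S → v ∉ U → ∃ u ∈ S, Relation.ReflTransGen (fun x y => G.Adj x y ∧ y ∉ U) v u)
    (h : V → ℝ) (hinj : Set.InjOn h P) (hP : Valid G S U P h)
    (r : V) (hrS : r ∉ S) (hrU : r ∉ U) (hrP : r ∉ P) :
    ∃ (P' : Set V) (h' : V → ℝ), P ⊆ P' ∧ P ≠ P' ∧ Disjoint P' S ∧ Disjoint P' U ∧
      Set.InjOn h' P' ∧ (∀ u ∈ P, h' u = h u) ∧ Valid G S U P' h' := by
  classical
  let R : Set V := {v | v ∉ S ∧ v ∉ U ∧ v ∉ P}
  have hr : r ∈ R := ⟨hrS, hrU, hrP⟩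
  let C : Set V := {z | ∃ hz : z ∈ R, (G.induce R).Reachable ⟨r, hr⟩ ⟨z, hz⟩}
  have hrC : r ∈ C := ⟨hr, SimpleGraph.Reachable.refl _⟩
  have hCR : ∀ z ∈ C, z ∈ R := fun z hz => hz.1
  have hexit : ∀ x ∈ C, ∀ c, c ∉ C → G.Adj x c → c ∈ S ∨ c ∈ U ∨ c ∈ P := by
    intro x hx c hc hadj
    by_contra hcon
    push Not at hcon
    apply hc
    obtain ⟨hxR, hxr⟩ := hx
    have hcR : c ∈ R := hcon
    refine ⟨hcR, hxr.trans ?_⟩
    apply SimpleGraph.Adj.reachable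
    exact hadj
  -- claims
  have claimA : ∃ x ∈ C, ∃ c, G.Adj x c ∧ (c ∈ U ∨ c ∈ P) := by
    obtain ⟨u, hu, hw⟩ := hK1 r hrS hrU
    obtain ⟨x, hx, c, hc, hadj, hcS⟩ := exit_lemma G (fun y => y ∉ S) C r u hw hrC
      (fun huC => (hCR u huC).2.1 hu)
    refine ⟨x, hx, c, hadj, ?_⟩
    rcases hexit x hx c hc hadj with h1 | h1 | h1
    · exact absurd h1 hcS
    · exact Or.inl h1
    · exact Or.inr h1
  have claimB : ∃ x ∈ C, ∃ c, G.Adj x c ∧ (c ∈ S ∨ c ∈ P) := by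
    obtain ⟨u, hu, hw⟩ := hK2 r hrS hrU
    obtain ⟨x, hx, c, hc, hadj, hcS⟩ := exit_lemma G (fun y => y ∉ U) C r u hw hrC
      (fun huC => (hCR u huC).1 hu)
    refine ⟨x, hx, c, hadj, ?_⟩
    rcases hexit x hx c hc hadj with h1 | h1 | h1
    · exact Or.inl h1
    · exact absurd h1 hcS
    · exact Or.inr h1
  have claimC : ∀ p ∈ P, ∃ x ∈ C, ∃ c, G.Adj x c ∧ c ≠ p ∧ (c ∈ S ∨ c ∈ U ∨ c ∈ P) := by
    intro p hp
    obtain ⟨s, hs⟩ := hSne
    have hrp : r ∈ ({p}ᶜ : Set V) := fun h1 => hrP (by rw [Set.mem_singleton_iff.1 h1]; exact hp)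
    have hsp : s ∈ ({p}ᶜ : Set V) := fun h1 =>
      Set.disjoint_left.1 hPS hp (by rw [← Set.mem_singleton_iff.1 h1]; exact hs)
    have hw := (h2 p).2 r hrp s hsp
    obtain ⟨x, hx, c, hc, hadj, hcS⟩ := exit_lemma G (fun y => y ∈ ({p}ᶜ : Set V)) C r s hw hrC
      (fun huC => (hCR s huC).1 hs)
    exact ⟨x, hx, c, hadj, hcS, hexit x hx c hc hadj⟩
  -- the two attachments
  have key : ∃ x ∈ C, ∃ y ∈ C, ((∃ s ∈ S, G.Adj x s) ∨ ∃ p ∈ P, G.Adj x p) ∧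
      ((∃ u ∈ U, G.Adj y u) ∨ ∃ p ∈ P, G.Adj y p) ∧
      ((∃ s ∈ S, G.Adj x s) ∨ (∃ u ∈ U, G.Adj y u) ∨
        ∃ p ∈ P, ∃ q ∈ P, G.Adj x p ∧ G.Adj y q ∧ h p < h q) := by
    by_cases hS : ∃ x ∈ C, ∃ s ∈ S, G.Adj x s
    · obtain ⟨x, hx, s, hs, hxs⟩ := hS
      obtain ⟨y, hy, c, hyc, hc⟩ := claimA
      refine ⟨x, hx, y, hy, Or.inl ⟨s, hs, hxs⟩, ?_, Or.inl ⟨s, hs, hxs⟩⟩
      rcases hc with hc | hc
      · exact Or.inl ⟨c, hc, hyc⟩
      · exact Or.inr ⟨c, hc, hyc⟩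
    · by_cases hU : ∃ x ∈ C, ∃ u ∈ U, G.Adj x u
      · obtain ⟨y, hy, u, hu, hyu⟩ := hU
        obtain ⟨x, hx, c, hxc, hc⟩ := claimB
        refine ⟨x, hx, y, hy, ?_, Or.inl ⟨u, hu, hyu⟩, Or.inr (Or.inl ⟨u, hu, hyu⟩)⟩
        rcases hc with hc | hc
        · exact Or.inl ⟨c, hc, hxc⟩
        · exact Or.inr ⟨c, hc, hxc⟩
      · obtain ⟨x, hx, d, hxd, hd⟩ := claimB
        have hdP : d ∈ P := by
          rcases hd with hd | hd
          · exact absurd ⟨x, hx, d, hd, hxd⟩ hS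
          · exact hd
        obtain ⟨z, hz, e, hze, hed, he⟩ := claimC d hdP
        have heP : e ∈ P := by
          rcases he with he | he | he
          · exact absurd ⟨z, hz, e, he, hze⟩ hS
          · exact absurd ⟨z, hz, e, he, hze⟩ hU
          · exact he
        have hne : h e ≠ h d := fun h1 => hed (hinj heP hdP h1)
        rcases lt_or_gt_of_ne hne with h1 | h1
        · exact ⟨z, hz, x, hx, Or.inr ⟨e, heP, hze⟩, Or.inr ⟨d, hdP, hxd⟩,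
            Or.inr (Or.inr ⟨e, heP, d, hdP, hze, hxd, h1⟩)⟩
        · exact ⟨x, hx, z, hz, Or.inr ⟨d, hdP, hxd⟩, Or.inr ⟨e, heP, hze⟩,
            Or.inr (Or.inr ⟨d, hdP, e, heP, hxd, hze, h1⟩)⟩
  obtain ⟨x, hx, y, hy, hlow, hup, hab⟩ := key
  obtain ⟨lo, hi, hlh, hgap, hlo, hhi⟩ := gap_lemma P h _ _ (fun p => G.Adj x p)
    (fun p => G.Adj y p) hlow hup hab
  obtain ⟨hxR, hxr⟩ := hx
  obtain ⟨hyR, hyr⟩ := hy
  obtain ⟨w, hw⟩ := (hxr.symm.trans hyr).exists_isPath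
  let q : ℕ → V := fun i => (w.getVert i : V)
  have hqR : ∀ i, q i ∈ R := fun i => (w.getVert i).2
  have hq0 : q 0 = x := by
    show ((w.getVert 0 : R) : V) = x
    rw [SimpleGraph.Walk.getVert_zero]
  have hqk : q w.length = y := by
    show ((w.getVert w.length : R) : V) = y
    rw [SimpleGraph.Walk.getVert_length]
  have hqinj : Set.InjOn q {i | i ≤ w.length} := by
    intro i hi j hj hij
    exact hw.getVert_injOn hi hj (Subtype.ext hij)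
  obtain ⟨h', h1, h2', h3⟩ := ear_place G S U P h hinj hP w.length q (fun i _ => (hqR i).2.2) hqinj
    (fun i hi => w.adj_getVert_succ hi) lo hi hlh hgap
    (by
      rw [hq0]
      rcases hlo with ⟨s, hs, hxs⟩ | ⟨p, hp, hxp, hpl⟩
      · exact ⟨s, hxs, Or.inl hs⟩
      · exact ⟨p, hxp, Or.inr ⟨hp, hpl⟩⟩)
    (by
      rw [hqk]
      rcases hhi with ⟨s, hs, hxs⟩ | ⟨p, hp, hxp, hpl⟩
      · exact ⟨s, hxs, Or.inl hs⟩
      · exact ⟨p, hxp, Or.inr ⟨hp, hpl⟩⟩)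
  refine ⟨_, h', Set.subset_union_left, ?_, ?_, ?_, h1, h2', h3⟩
  · intro heq
    have h4 : q 0 ∈ P ∪ q '' {i | i ≤ w.length} := Or.inr ⟨0, Nat.zero_le _, rfl⟩
    rw [← heq] at h4
    exact (hqR 0).2.2 h4
  · rw [Set.disjoint_union_left]
    refine ⟨hPS, ?_⟩
    rw [Set.disjoint_left]
    rintro _ ⟨i, _, rfl⟩
    exact (hqR i).1
  · rw [Set.disjoint_union_left]
    refine ⟨hPU, ?_⟩
    rw [Set.disjoint_left]
    rintro _ ⟨i, _, rfl⟩
    exact (hqR i).2.1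

theorem EE_aux {V : Type} [Finite V] (G : SimpleGraph V) (h2 : ∀ x : V, Conn G ({x}ᶜ : Set V))
    (S U : Set V) (hSU : Disjoint S U) 
    (hSne : S.Nonempty) (hUne : U.Nonempty)
    (hK1 : ∀ v, v ∉ S → v ∉ U → ∃ u ∈ U, Relation.ReflTransGen (fun x y => G.Adj x y ∧ y ∉ S) v u)
    (hK2 : ∀ v, v ∉ S → v ∉ U → ∃ u ∈ S, Relation.ReflTransGen (fun x y => G.Adj x y ∧ y ∉ U) v u)
    (n : ℕ) : ∀ (P : Set V) (hPS : Disjoint P S) (hPU : Disjoint P U) 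
    (h : V → ℝ) (hinj : Set.InjOn h P) (hP : Valid G S U P h) (hn : (Pᶜ).ncard ≤ n),
    ∃ h' : V → ℝ, Set.InjOn h' (S ∪ U)ᶜ ∧ (∀ u ∈ P, ∀ v ∈ P, h u < h v → h' u < h' v) ∧
      Valid G S U (S ∪ U)ᶜ h' := by
  induction n with
  | zero =>
    intro P hPS hPU h hinj hP hn
    exfalso
    obtain ⟨s, hs⟩ := hSne
    have h1 : (Pᶜ) = ∅ := (Set.ncard_eq_zero (Set.toFinite _)).1 (Nat.le_zero.1 hn)
    have h3 : s ∈ Pᶜ := fun h4 => Set.disjoint_left.1 hPS h4 hs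
    rw [h1] at h3
    exact h3
  | succ n ih =>
    intro P hPS hPU h hinj hP hn
    by_cases hR : ∃ r, r ∉ S ∧ r ∉ U ∧ r ∉ P
    · obtain ⟨r, hrS, hrU, hrP⟩ := hR
      obtain ⟨P', h', hsub, hne, hPS', hPU', hinj', hold, hP'⟩ :=
        ear_step G h2 S U P hSU hPS hPU hSne hUne hK1 hK2 h hinj hP r hrS hrU hrP
      have hcard : (P'ᶜ).ncard ≤ n := by
        have h1 : P'ᶜ ⊂ Pᶜ := by
          rw [Set.ssubset_iff_subset_ne]
          refine ⟨Set.compl_subset_compl.2 hsub, fun h3 => hne ?_⟩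
          exact (compl_injective h3).symm
        have := Set.ncard_lt_ncard h1 (Set.toFinite _)
        omega
      obtain ⟨h'', ha, hb, hc⟩ := ih P' hPS' hPU' h' hinj' hP' hcard
      refine ⟨h'', ha, ?_, hc⟩
      intro u hu v hv huv
      apply hb u (hsub hu) v (hsub hv)
      rw [hold u hu, hold v hv]
      exact huv
    · push Not at hR
      have hPeq : P = (S ∪ U)ᶜ := by
        ext v
        simp only [Set.mem_compl_iff, Set.mem_union, not_or]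
        constructor
        · intro hv
          exact ⟨fun h1 => Set.disjoint_left.1 hPS hv h1, fun h1 => Set.disjoint_left.1 hPU hv h1⟩
        · rintro ⟨h1, h3⟩
          exact hR v h1 h3
      refine ⟨h, ?_, fun u _ v _ huv => huv, ?_⟩
      · rw [← hPeq]; exact hinj
      · rw [← hPeq]; exact hP

end W_EE

open W_EE in
theorem EE {V : Type} [Finite V] (G : SimpleGraph V) (h2 : ∀ x : V, Conn G ({x}ᶜ : Set V))
    (S U P : Set V) (hSU : Disjoint S U) (hPS : Disjoint P S) (hPU : Disjoint P U)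
    (hSne : S.Nonempty) (hUne : U.Nonempty)
    (hK1 : ∀ v, v ∉ S → v ∉ U → ∃ u ∈ U, Relation.ReflTransGen (fun x y => G.Adj x y ∧ y ∉ S) v u)
    (hK2 : ∀ v, v ∉ S → v ∉ U → ∃ u ∈ S, Relation.ReflTransGen (fun x y => G.Adj x y ∧ y ∉ U) v u)
    (h : V → ℝ) (hinj : Set.InjOn h P) (hP : Valid G S U P h) :
    ∃ h' : V → ℝ, Set.InjOn h' (S ∪ U)ᶜ ∧ (∀ u ∈ P, ∀ v ∈ P, h u < h v → h' u < h' v) ∧
      Valid G S U (S ∪ U)ᶜ h' := by
  exact EE_aux G h2 S U hSU hSne hUne hK1 hK2 _ P hPS hPU h hinj hP le_rfl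


end Pool.Agent.H891WLC
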