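import Pool.Agent.H891WLC.Defs
import Pool.Agent.H891WLC.EE

set_option autoImplicit false

namespace Pool.Agent.H891WLC

namespace W_prefix_order

theorem rtg_mono {V : Type} {r p : V → V → Prop} (h : ∀ x y, r x y → p x y) {a b : V}
    (hab : Relation.ReflTransGen r a b) : Relation.ReflTransGen p a b := by
  induction hab with
  | refl => exact Relation.ReflTransGen.refl
  | tail _ h1 ih => exact ih.tail (h _ _ h1)

theorem at_lt (x : ℝ) : Real.arctan x < 2 := by
  have h1 := Real.arctan_lt_pi_div_two x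
  have h2 := Real.pi_le_four
  linarith

theorem lt_at (x : ℝ) : -2 < Real.arctan x := by
  have h1 := Real.neg_pi_div_two_lt_arctan x
  have h2 := Real.pi_le_four
  linarith

open Classical in
/-- the combined height -/
noncomputable def HH {V : Type} (A : Set V) (b t : V) (h1 h2 : V → ℝ) (v : V) : ℝ :=
  if v = b then -10 else if v ∈ A then Real.arctan (h1 v) - 3 else
    if v = t then 10 else Real.arctan (h2 v) + 3

end W_prefix_order

open W_prefix_order in
theorem prefix_order {V : Type} [Finite V] (G : SimpleGraph V) (h2 : ∀ x : V, Conn G ({x}ᶜ : Set V))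
    (A : Set V) (b t : V) (hb : b ∈ A) (ht : t ∉ A) (hA : Conn G A) (hAc : Conn G Aᶜ) :
    ∃ h : V → ℝ, Function.Injective h ∧ (∀ u ∈ A, ∀ v, v ∉ A → h u < h v) ∧
      (∀ v, v ≠ b → v ≠ t → (∃ u, G.Adj v u ∧ h u < h v) ∧ (∃ u, G.Adj v u ∧ h v < h u)) ∧
      (∀ v, v ≠ b → h b < h v) ∧ (∀ v, v ≠ t → h v < h t) := by
  have hbt : t ≠ b := fun h => ht (h ▸ hb)
  have hv0 : ∀ S U : Set V, Valid G S U ∅ (fun _ => 0) := fun S U v hv => absurd hv (by simp)
  obtain ⟨g1, inj1, -, val1⟩ := EE G h2 {b} Aᶜ ∅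
    (by rw [Set.disjoint_left]; intro x hx hx'; rw [Set.mem_singleton_iff] at hx; exact hx' (hx ▸ hb))
    (Set.empty_disjoint _) (Set.empty_disjoint _) ⟨b, rfl⟩ ⟨t, ht⟩
    (by
      intro v hv hvA
      refine ⟨t, ht, ?_⟩
      exact rtg_mono (fun x y hxy => ⟨hxy.1, hxy.2⟩)
        ((h2 b).2 v hv t (by simpa using hbt)))
    (by
      intro v hv hvA
      rw [Set.mem_compl_iff, not_not] at hvA
      refine ⟨b, rfl, ?_⟩
      exact rtg_mono (fun x y hxy => ⟨hxy.1, fun h => h hxy.2⟩)
        (hA.2 v hvA b hb))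
    (fun _ => 0) (by simp) (hv0 _ _)
  obtain ⟨g2, inj2, -, val2⟩ := EE G h2 A {t} ∅
    (by rw [Set.disjoint_right]; intro x hx hx'; rw [Set.mem_singleton_iff] at hx; exact ht (hx ▸ hx'))
    (Set.empty_disjoint _) (Set.empty_disjoint _) ⟨b, hb⟩ ⟨t, rfl⟩
    (by
      intro v hv hvA
      refine ⟨t, rfl, ?_⟩
      exact rtg_mono (fun x y hxy => ⟨hxy.1, hxy.2⟩)
        (hAc.2 v hv t ht))
    (by
      intro v hv hvA
      refine ⟨b, hb, ?_⟩
      exact rtg_mono (fun x y hxy => ⟨hxy.1, hxy.2⟩)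
        ((h2 t).2 v hvA b (by simpa using hbt.symm)))
    (fun _ => 0) (by simp) (hv0 _ _)
  have hK1 : ∀ v, v ∈ A → v ≠ b → v ∈ ({b} ∪ Aᶜ : Set V)ᶜ := by
    intro v hv hvb
    simp [hv, hvb]
  have hK2 : ∀ v, v ∉ A → v ≠ t → v ∈ (A ∪ {t} : Set V)ᶜ := by
    intro v hv hvb
    simp [hv, hvb]
  have hK1' : ∀ v, v ∈ ({b} ∪ Aᶜ : Set V)ᶜ → v ∈ A ∧ v ≠ b := by
    intro v hv
    simp only [Set.mem_compl_iff, Set.mem_union, Set.mem_singleton_iff, not_or, not_not] at hv
    exact ⟨hv.2, hv.1⟩
  have hK2' : ∀ v, v ∈ (A ∪ {t} : Set V)ᶜ → v ∉ A ∧ v ≠ t := by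
    intro v hv
    simp only [Set.mem_compl_iff, Set.mem_union, Set.mem_singleton_iff, not_or] at hv
    exact hv
  have Hb : HH A b t g1 g2 b = -10 := by simp [HH]
  have HA : ∀ v, v ∈ A → v ≠ b → HH A b t g1 g2 v = Real.arctan (g1 v) - 3 := by
    intro v hv hvb
    simp [HH, hv, hvb]
  have Ht : HH A b t g1 g2 t = 10 := by
    simp [HH, ht, hbt]
  have HC : ∀ v, v ∉ A → v ≠ t → HH A b t g1 g2 v = Real.arctan (g2 v) + 3 := by
    intro v hv hvt
    have hvb : v ≠ b := fun h => hv (h ▸ hb)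
    simp [HH, hv, hvb, hvt]
  have BA : ∀ v, v ∈ A → v ≠ b → -5 < HH A b t g1 g2 v ∧ HH A b t g1 g2 v < -1 := by
    intro v hv hvb
    rw [HA v hv hvb]
    have e1 := at_lt (g1 v)
    have e2 := lt_at (g1 v)
    constructor <;> linarith
  have BC : ∀ v, v ∉ A → v ≠ t → 1 < HH A b t g1 g2 v ∧ HH A b t g1 g2 v < 5 := by
    intro v hv hvt
    rw [HC v hv hvt]
    have e1 := at_lt (g2 v)
    have e2 := lt_at (g2 v)
    constructor <;> linarith
  have negA : ∀ v, v ∈ A → HH A b t g1 g2 v < 0 := by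
    intro v hv
    by_cases hvb : v = b
    · rw [hvb, Hb]; norm_num
    · have := (BA v hv hvb).2
      linarith
  have posC : ∀ v, v ∉ A → 0 < HH A b t g1 g2 v := by
    intro v hv
    by_cases hvt : v = t
    · rw [hvt, Ht]; norm_num
    · have := (BC v hv hvt).1
      linarith
  have hlow : ∀ v, v ≠ b → HH A b t g1 g2 b < HH A b t g1 g2 v := by
    intro v hvb
    rw [Hb]
    by_cases hv : v ∈ A
    · have := (BA v hv hvb).1
      linarith
    · have := posC v hv
      linarith
  have hhigh : ∀ v, v ≠ t → HH A b t g1 g2 v < HH A b t g1 g2 t := by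
    intro v hvt
    rw [Ht]
    by_cases hv : v ∈ A
    · have := negA v hv
      linarith
    · have := (BC v hv hvt).2
      linarith
  refine ⟨HH A b t g1 g2, ?_, ?_, ?_, hlow, hhigh⟩
  · intro u v huv
    by_cases hub : u = b
    · by_contra hne
      have := hlow v (fun h => hne (hub.trans h.symm))
      rw [hub] at huv
      linarith
    by_cases hvb : v = b
    · have := hlow u hub
      rw [hvb] at huv
      linarith
    by_cases hut : u = t
    · by_contra hne
      have := hhigh v (fun h => hne (hut.trans h.symm))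
      rw [hut] at huv
      linarith
    by_cases hvt : v = t
    · have := hhigh u hut
      rw [hvt] at huv
      linarith
    by_cases hu : u ∈ A
    · by_cases hv : v ∈ A
      · rw [HA u hu hub, HA v hv hvb] at huv
        have h5 : Real.arctan (g1 u) = Real.arctan (g1 v) := by linarith
        exact inj1 (hK1 u hu hub) (hK1 v hv hvb) (Real.arctan_injective h5)
      · have e1 := negA u hu
        have e2 := posC v hv
        linarith
    · by_cases hv : v ∈ A
      · have e1 := negA v hv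
        have e2 := posC u hu
        linarith
      · rw [HC u hu hut, HC v hv hvt] at huv
        have h5 : Real.arctan (g2 u) = Real.arctan (g2 v) := by linarith
        exact inj2 (hK2 u hu hut) (hK2 v hv hvt) (Real.arctan_injective h5)
  · intro u hu v hv
    exact (negA u hu).trans (posC v hv)
  · intro v hvb hvt
    by_cases hv : v ∈ A
    · obtain ⟨⟨u, hu, hu2⟩, ⟨w, hw, hw2⟩⟩ := val1 v (hK1 v hv hvb)
      refine ⟨⟨u, hu, ?_⟩, ⟨w, hw, ?_⟩⟩
      · rcases hu2 with h | ⟨h, h'⟩
        · rw [Set.mem_singleton_iff] at h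
          rw [h]
          exact hlow v hvb
        · obtain ⟨e1, e2⟩ := hK1' u h
          rw [HA u e1 e2, HA v hv hvb]
          have := Real.arctan_strictMono h'
          linarith
      · rcases hw2 with h | ⟨h, h'⟩
        · exact (negA v hv).trans (posC w h)
        · obtain ⟨e1, e2⟩ := hK1' w h
          rw [HA w e1 e2, HA v hv hvb]
          have := Real.arctan_strictMono h'
          linarith
    · obtain ⟨⟨u, hu, hu2⟩, ⟨w, hw, hw2⟩⟩ := val2 v (hK2 v hv hvt)
      refine ⟨⟨u, hu, ?_⟩, ⟨w, hw, ?_⟩⟩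
      · rcases hu2 with h | ⟨h, h'⟩
        · exact (negA u h).trans (posC v hv)
        · obtain ⟨e1, e2⟩ := hK2' u h
          rw [HC u e1 e2, HC v hv hvt]
          have := Real.arctan_strictMono h'
          linarith
      · rcases hw2 with h | ⟨h, h'⟩
        · rw [Set.mem_singleton_iff] at h
          rw [h]
          exact hhigh v hvt
        · obtain ⟨e1, e2⟩ := hK2' w h
          rw [HC w e1 e2, HC v hv hvt]
          have := Real.arctan_strictMono h'
          linarith


end Pool.Agent.H891WLC
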