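import Pool.Agent.H891WLC.Defs
import Pool.Agent.H891WLC.tri_conn3
import Pool.Agent.H891WLC.prefix_order
import Pool.Agent.H891WLC.CL

set_option autoImplicit false

namespace Pool.Agent.H891WLC

namespace W_STRIP

open Relation

variable {V : Type}

/-- the successor relation on darts -/
def R (T : Tri V) (B : Set V) (p q : V × V) : Prop :=
  (T.F p.1 p.2 q.2 ∧ q.1 = p.1 ∧ q.2 ∉ B) ∨ (T.F p.1 p.2 q.1 ∧ q.2 = p.2 ∧ q.1 ∈ B)

/-- any two darts of `B` are related -/
def P (T : Tri V) (B : Set V) : Prop :=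
  ∀ a d a' d', a ∈ B → d ∉ B → a' ∈ B → d' ∉ B → T.G.Adj a d → T.G.Adj a' d' →
    ReflTransGen (R T B) (a, d) (a', d')

theorem adj_of {T : Tri V} {a b c : V} (h : T.F a b c) : T.G.Adj a b := ⟨c, h⟩

theorem step (T : Tri V) (h : V → ℝ) (hinj : Function.Injective h) (v : V)
    (up1 : ∀ x y x' y', T.F v x y → h x < h v → h v < h y → T.F v x' y' → h x' < h v →
      h v < h y' → x = x')
    (dn1 : ∀ x y x' y', T.F v x y → h v < h x → h y < h v → T.F v x' y' → h v < h x' →
      h y' < h v → x = x')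
    (hlo : ∃ u, T.G.Adj v u ∧ h u < h v) (hhi : ∃ u, T.G.Adj v u ∧ h v < h u)
    (ih : P T {w | h w < h v}) : P T {w | h w ≤ h v} := by
  classical
  obtain ⟨x0, ⟨z0, hx0⟩, hx0v⟩ := hlo
  obtain ⟨y0, hy0, hy0v⟩ := hhi
  have dich : ∀ z, T.G.Adj v z → h z < h v ∨ h v < h z := by
    rintro z ⟨c, hz⟩
    exact lt_or_gt_of_ne (hinj.ne (T.ne _ _ _ hz).symm)
  have adj3 : ∀ x y, T.F v x y → T.G.Adj v y := by
    intro x y hxy
    exact (adj_of (T.rot _ _ _ (T.rot _ _ _ hxy))).symm
  let U : V → V → Prop := fun p q => T.F v p q ∧ h v < h q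
  have toDown : ∀ y, T.G.Adj v y → h v < h y →
      ∃ y' x', ReflTransGen U y y' ∧ h v < h y' ∧ T.F v y' x' ∧ h x' < h v := by
    rintro y ⟨y1, hy1⟩ hyv
    have path := T.link v y y1 x0 z0 hy1 hx0
    clear hy1
    induction path using ReflTransGen.head_induction_on with
    | refl => exact absurd hyv (not_lt.mpr hx0v.le)
    | @head a c hac hrest IH =>
      rcases dich c (adj3 _ _ hac) with hc | hc
      · exact ⟨a, c, ReflTransGen.refl, hyv, hac, hc⟩
      · obtain ⟨y', x', p1, p2, p3, p4⟩ := IH hc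
        exact ⟨y', x', ReflTransGen.head ⟨hac, hc⟩ p1, p2, p3, p4⟩
  have fromUp : ∀ y, T.G.Adj v y → h v < h y →
      ∃ x' y', T.F v x' y' ∧ h x' < h v ∧ h v < h y' ∧ ReflTransGen U y' y := by
    rintro y ⟨y1, hy1⟩ hyv
    have path := T.link v x0 z0 y y1 hx0 hy1
    clear hy1
    induction path with
    | refl => exact absurd hyv (not_lt.mpr hx0v.le)
    | @tail c y hab hbc IH =>
      by_cases hc : h v < h c
      · obtain ⟨x', y', p1, p2, p3, p4⟩ := IH hc
        exact ⟨x', y', p1, p2, p3, p4.tail ⟨hbc, hyv⟩⟩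
      · rcases dich c ⟨_, hbc⟩ with hc' | hc'
        · exact ⟨c, y, hbc, hc', hyv, ReflTransGen.refl⟩
        · exact absurd hc' hc
  obtain ⟨xk, y1, hup, hxk, hy1, -⟩ := fromUp y0 hy0 hy0v
  obtain ⟨ym, x1, -, hym, hdn, hx1⟩ := toDown y0 hy0 hy0v
  have liftU : ∀ p q, ReflTransGen U p q →
      ReflTransGen (R T {w | h w ≤ h v}) (v, p) (v, q) := by
    intro p q hpq
    refine ReflTransGen.lift (fun p => (v, p)) ?_ _ _ hpq
    rintro a b ⟨h1, h2⟩
    exact Or.inl ⟨h1, rfl, not_le.mpr h2⟩
  have A1 : ∀ y, T.G.Adj v y → h v < h y →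
      ReflTransGen (R T {w | h w ≤ h v}) (xk, y1) (v, y) := by
    intro y hy hyv
    obtain ⟨x', y', p1, p2, p3, p4⟩ := fromUp y hy hyv
    have e1 : x' = xk := up1 _ _ _ _ p1 p2 p3 hup hxk hy1
    subst e1
    have e2 : y' = y1 := T.uniq _ _ _ _ p1 hup
    subst e2
    have hs : R T {w | h w ≤ h v} (x', y') (v, y') :=
      Or.inr ⟨T.rot v x' y' p1, rfl, le_refl (h v)⟩
    exact ReflTransGen.head hs (liftU _ _ p4)
  have A2 : ∀ y, T.G.Adj v y → h v < h y →
      ReflTransGen (R T {w | h w ≤ h v}) (v, y) (x1, ym) := by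
    intro y hy hyv
    obtain ⟨y', x', p1, p2, p3, p4⟩ := toDown y hy hyv
    have e1 : y' = ym := dn1 _ _ _ _ p3 p2 p4 hdn hym hx1
    subst e1
    have e2 : x' = x1 := T.uniq _ _ _ _ p3 hdn
    subst e2
    have hs : R T {w | h w ≤ h v} (v, y') (x', y') := Or.inr ⟨p3, rfl, p4.le⟩
    exact (liftU _ _ p1).tail hs
  have hymv : ym ≠ v := fun e => by rw [e] at hym; exact lt_irrefl _ hym
  let φ : V × V → V × V := fun p => if p.2 = v then (x1, ym) else p
  have key : ∀ p q, ReflTransGen (R T {w | h w < h v}) p q → h p.1 < h v → h v ≤ h p.2 →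
      ReflTransGen (R T {w | h w ≤ h v}) (φ p) (φ q) ∧ h q.1 < h v ∧ h v ≤ h q.2 := by
    intro p q hpq hp1 hp2
    induction hpq with
    | refl => exact ⟨ReflTransGen.refl, hp1, hp2⟩
    | @tail c q hpc hcq IH =>
      obtain ⟨i1, i2, i3⟩ := IH
      obtain ⟨a, d⟩ := c
      obtain ⟨q1, q2⟩ := q
      have i2 : h a < h v := i2
      have i3 : h v ≤ h d := i3
      rcases hcq with ⟨f1, f2, f3⟩ | ⟨f1, f2, f3⟩
      · have f1 : T.F a d q2 := f1
        have f2 : q1 = a := f2
        subst f2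
        have f3' : h v ≤ h q2 := not_lt.mp f3
        refine ⟨i1.trans ?_, i2, f3'⟩
        by_cases hd : d = v
        · subst hd
          have f1' : T.F d q2 q1 := T.rot _ _ _ f1
          have hq2 : q2 ≠ d := fun e => T.ne _ _ _ f1' e.symm
          have hlt : h d < h q2 := lt_of_le_of_ne f3' (hinj.ne hq2.symm)
          have e1 : q2 = ym := dn1 _ _ _ _ f1' hlt i2 hdn hym hx1
          subst e1
          have e2 : q1 = x1 := T.uniq _ _ _ _ f1' hdn
          subst e2
          simp only [φ, if_pos, if_neg hq2]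
          exact ReflTransGen.refl
        · have hdv : h v < h d := lt_of_le_of_ne i3 (hinj.ne (Ne.symm hd))
          by_cases hx : q2 = v
          · subst hx
            have f1' : T.F q2 q1 d := T.rot _ _ _ (T.rot _ _ _ f1)
            have e1 : q1 = xk := up1 _ _ _ _ f1' i2 hdv hup hxk hy1
            subst e1
            have e2 : d = y1 := T.uniq _ _ _ _ f1' hup
            subst e2
            simp only [φ, if_pos, if_neg hd]
            have hadj : T.G.Adj q2 d := adj3 _ _ hup
            exact (A1 d hadj hdv).trans (A2 d hadj hdv)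
          · simp only [φ, if_neg hd, if_neg hx]
            refine ReflTransGen.single (Or.inl ⟨f1, rfl, ?_⟩)
            exact not_le.mpr (lt_of_le_of_ne f3' (hinj.ne (Ne.symm hx)))
      · have f1 : T.F a d q1 := f1
        have f2 : q2 = d := f2
        subst f2
        have f3' : h q1 < h v := f3
        refine ⟨i1.trans ?_, f3', i3⟩
        by_cases hd : q2 = v
        · simp only [φ, if_pos hd]
          exact ReflTransGen.refl
        · simp only [φ, if_neg hd]
          exact ReflTransGen.single (Or.inr ⟨f1, rfl, f3'.le⟩)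
  have old : ∀ a d a' d', h a < h v → h v < h d → h a' < h v → h v < h d' → T.G.Adj a d →
      T.G.Adj a' d' → ReflTransGen (R T {w | h w ≤ h v}) (a, d) (a', d') := by
    intro a d a' d' ha hd ha' hd' h1 h2
    have hdv : d ≠ v := fun e => by rw [e] at hd; exact lt_irrefl _ hd
    have hdv' : d' ≠ v := fun e => by rw [e] at hd'; exact lt_irrefl _ hd'
    have := (key _ _ (ih a d a' d' ha (not_lt.mpr hd.le) ha' (not_lt.mpr hd'.le) h1 h2) ha
      hd.le).1
    simpa only [φ, if_neg hdv, if_neg hdv'] using this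
  have adjk : T.G.Adj xk y1 := adj_of (T.rot _ _ _ hup)
  have adj1 : T.G.Adj x1 ym := (adj_of (T.rot _ _ _ hdn)).symm
  intro a d a' d' ha hd ha' hd' h1 h2
  have hd : h v < h d := not_le.mp hd
  have hd' : h v < h d' := not_le.mp hd'
  have ha : h a ≤ h v := ha
  have ha' : h a' ≤ h v := ha'
  by_cases hav : a = v
  · subst hav
    by_cases hav' : a' = a
    · subst hav'
      exact ((A2 d h1 hd).trans (old _ _ _ _ hx1 hym hxk hy1 adj1 adjk)).trans (A1 d' h2 hd')
    · have hlt : h a' < h a := lt_of_le_of_ne ha' (hinj.ne hav')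
      exact (A2 d h1 hd).trans (old _ _ _ _ hx1 hym hlt hd' adj1 h2)
  · have hlt : h a < h v := lt_of_le_of_ne ha (hinj.ne hav)
    by_cases hav' : a' = v
    · subst hav'
      exact (old _ _ _ _ hlt hd hxk hy1 h1 adjk).trans (A1 d' h2 hd')
    · have hlt' : h a' < h v := lt_of_le_of_ne ha' (hinj.ne hav')
      exact old _ _ _ _ hlt hd hlt' hd' h1 h2

theorem base (T : Tri V) (b : V) : P T {b} := by
  intro a d a' d' ha hd ha' hd' h1 h2
  have ha : a = b := ha
  have ha' : a' = b := ha'
  subst ha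
  subst ha'
  obtain ⟨c, hc⟩ := h1
  obtain ⟨c', hc'⟩ := h2
  have path := T.link a' d c d' c' hc hc'
  refine ReflTransGen.lift (fun p => (a', p)) ?_ _ _ path
  intro x y hxy
  refine Or.inl ⟨hxy, rfl, ?_⟩
  have : y ≠ a' := T.ne _ _ _ (T.rot _ _ _ (T.rot _ _ _ hxy))
  exact this

end W_STRIP

open W_STRIP in
theorem STRIP {V : Type} [Finite V] (T : Tri V) (A : Set V) (hA : Conn T.G A) (hAc : Conn T.G Aᶜ)
    (a d a' d' : V) (ha : a ∈ A) (hd : d ∉ A) (ha' : a' ∈ A) (hd' : d' ∉ A)
    (h1 : T.G.Adj a d) (h2 : T.G.Adj a' d') :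
    Relation.ReflTransGen (fun (p q : V × V) =>
      (T.F p.1 p.2 q.2 ∧ q.1 = p.1 ∧ q.2 ∉ A) ∨ (T.F p.1 p.2 q.1 ∧ q.2 = p.2 ∧ q.1 ∈ A)) (a, d) (a', d') := by
  have h2' : ∀ x : V, Conn T.G ({x}ᶜ : Set V) := by
    intro x
    have := tri_conn3 T x x
    rwa [Set.pair_eq_singleton] at this
  obtain ⟨h, hinj, hpre, hact, hb, ht⟩ := prefix_order T.G h2' A a d ha hd hA hAc
  obtain ⟨CL1, CL2⟩ := CL T h hinj a d hact
  have main : ∀ n : ℕ, ∀ v ∈ A, {w | h w < h v}.ncard = n → P T {w | h w ≤ h v} := by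
    intro n
    induction n using Nat.strong_induction_on with
    | _ n ih =>
      intro v hv hn
      by_cases hva : v = a
      · subst hva
        have : {w | h w ≤ h v} = {v} := by
          ext w
          simp only [Set.mem_setOf_eq, Set.mem_singleton_iff]
          constructor
          · intro hw
            by_contra hne
            exact absurd (hb w hne) (not_lt.mpr hw)
          · rintro rfl; exact le_refl _
        rw [this]
        exact base T v
      · have hvd : v ≠ d := fun e => hd (e ▸ hv)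
        obtain ⟨hlo, hhi⟩ := hact v hva hvd
        refine step T h hinj v (CL1 v) (CL2 v) hlo hhi ?_
        have hfin : {w | h w < h v}.Finite := Set.toFinite _
        have hne : {w | h w < h v}.Nonempty := ⟨a, hb v hva⟩
        obtain ⟨v', hv', hmax⟩ := Set.exists_max_image _ h hfin hne
        have hv'lt : h v' < h v := hv'
        have hv'A : v' ∈ A := by
          by_contra hcon
          exact absurd (hpre v hv v' hcon) (not_lt.mpr hv'lt.le)
        have e : {w | h w < h v} = {w | h w ≤ h v'} := by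
          ext w
          simp only [Set.mem_setOf_eq]
          exact ⟨fun hw => hmax w hw, fun hw => lt_of_le_of_lt hw hv'lt⟩
        rw [e]
        refine ih _ ?_ v' hv'A rfl
        rw [← hn]
        refine Set.ncard_lt_ncard ?_ hfin
        refine ⟨fun w hw => lt_trans hw hv'lt, fun hcon => ?_⟩
        have hc : v' ∈ {w | h w < h v'} := hcon hv'lt
        exact lt_irrefl (h v') hc
  have hfinA : A.Finite := Set.toFinite _
  obtain ⟨v, hv, hmax⟩ := Set.exists_max_image _ h hfinA hA.1
  have hAe : A = {w | h w ≤ h v} := by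
    ext w
    simp only [Set.mem_setOf_eq]
    refine ⟨fun hw => hmax w hw, fun hw => ?_⟩
    by_contra hcon
    exact absurd (hpre v hv w hcon) (not_lt.mpr hw)
  have hP : P T A := by
    have := main _ v hv rfl
    rwa [← hAe] at this
  exact hP a d a' d' ha hd ha' hd' h1 h2


end Pool.Agent.H891WLC
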