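import Pool.Agent.H891WLC.Defs
import Pool.Agent.H891WLC.tri_conn3
import Pool.Agent.H891WLC.prefix_order
import Pool.Agent.H891WLC.CL

set_option autoImplicit false

namespace Pool.Agent.H891WLC

namespace W_CHI

theorem ncard_filter {α : Type} [Fintype α] (p : α → Prop) [DecidablePred p] :
    Nat.card {x // p x} = (Finset.univ.filter p).card := by
  rw [Nat.card_eq_fintype_card, Fintype.card_subtype]

theorem cross_exist {α : Type} {R : α → α → Prop} {P : α → Prop} {a c : α}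
    (h : Relation.ReflTransGen R a c) (ha : P a) (hc : ¬ P c) : ∃ x y, R x y ∧ P x ∧ ¬ P y := by
  induction h with
  | refl => exact absurd ha hc
  | tail hab hbc ih =>
    rename_i b' c'
    by_cases hb : P b'
    · exact ⟨b', c', hbc, hb, hc⟩
    · exact ih hb

theorem F23 {V : Type} (T : Tri V) {a b c : V} (h : T.F a b c) : b ≠ c := T.ne _ _ _ (T.rot _ _ _ h)

theorem F31 {V : Type} (T : Tri V) {a b c : V} (h : T.F a b c) : c ≠ a :=
  T.ne _ _ _ (T.rot _ _ _ (T.rot _ _ _ h))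

open Classical in
theorem edges_count {V : Type} [Fintype V] (T : Tri V) (A : Set V) (h : V → ℝ)
    (hinj : Function.Injective h) (hpre : ∀ u ∈ A, ∀ v, v ∉ A → h u < h v) :
    (Finset.univ.filter (fun e : V × V => e.1 ∈ A ∧ e.2 ∈ A ∧ T.G.Adj e.1 e.2)).card =
      2 * (Finset.univ.filter
        (fun e : V × V => e.1 ∈ A ∧ T.G.Adj e.1 e.2 ∧ h e.2 < h e.1)).card := by
  have hin : ∀ u v, u ∈ A → h v < h u → v ∈ A := by
    intro u v hu hv
    by_contra hcon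
    exact absurd (hpre u hu v hcon) (not_lt.2 hv.le)
  have hlt : ∀ u v, T.G.Adj u v → ¬ h v < h u → h u < h v := by
    intro u v hadj hn
    exact lt_of_le_of_ne (not_lt.1 hn) (fun e => hadj.ne (hinj e))
  have h1 := Finset.card_filter_add_card_filter_not
    (s := Finset.univ.filter (fun e : V × V => e.1 ∈ A ∧ e.2 ∈ A ∧ T.G.Adj e.1 e.2))
    (p := fun e : V × V => h e.2 < h e.1)
  have h2 : ((Finset.univ.filter (fun e : V × V => e.1 ∈ A ∧ e.2 ∈ A ∧ T.G.Adj e.1 e.2)).filter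
      (fun e : V × V => h e.2 < h e.1)).card = (Finset.univ.filter
        (fun e : V × V => e.1 ∈ A ∧ T.G.Adj e.1 e.2 ∧ h e.2 < h e.1)).card := by
    congr 1
    ext e
    simp only [Finset.mem_filter, Finset.mem_univ, true_and]
    constructor
    · rintro ⟨⟨a1, a2, a3⟩, a4⟩
      exact ⟨a1, a3, a4⟩
    · rintro ⟨a1, a3, a4⟩
      exact ⟨⟨a1, hin _ _ a1 a4, a3⟩, a4⟩
  have h3 : ((Finset.univ.filter (fun e : V × V => e.1 ∈ A ∧ e.2 ∈ A ∧ T.G.Adj e.1 e.2)).filter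
      (fun e : V × V => ¬ h e.2 < h e.1)).card = (Finset.univ.filter
        (fun e : V × V => e.1 ∈ A ∧ T.G.Adj e.1 e.2 ∧ h e.2 < h e.1)).card := by
    apply Finset.card_nbij' Prod.swap Prod.swap
    · intro e he
      simp only [Finset.coe_filter, Finset.mem_filter, Finset.mem_univ, true_and,
        Set.mem_setOf_eq] at he ⊢
      obtain ⟨⟨a1, a2, a3⟩, a4⟩ := he
      exact ⟨a2, a3.symm, hlt _ _ a3 a4⟩
    · intro e he
      simp only [Finset.coe_filter, Finset.mem_filter, Finset.mem_univ, true_and,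
        Set.mem_setOf_eq] at he ⊢
      obtain ⟨a1, a3, a4⟩ := he
      exact ⟨⟨hin _ _ a1 a4, a1, a3.symm⟩, not_lt.2 a4.le⟩
    · intro e _; rfl
    · intro e _; rfl
  omega

open Classical in
theorem faces_count {V : Type} [Fintype V] (T : Tri V) (A : Set V) (h : V → ℝ)
    (hinj : Function.Injective h) (hpre : ∀ u ∈ A, ∀ v, v ∉ A → h u < h v) :
    (Finset.univ.filter (fun t : V × V × V => t.1 ∈ A ∧ t.2.1 ∈ A ∧ t.2.2 ∈ A ∧
      T.F t.1 t.2.1 t.2.2)).card =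
      3 * (Finset.univ.filter (fun t : V × V × V => t.1 ∈ A ∧ T.F t.1 t.2.1 t.2.2 ∧
        h t.2.1 < h t.1 ∧ h t.2.2 < h t.1)).card := by
  have hin : ∀ u v, u ∈ A → h v < h u → v ∈ A := by
    intro u v hu hv
    by_contra hcon
    exact absurd (hpre u hu v hcon) (not_lt.2 hv.le)
  obtain ⟨T1, hT1⟩ : ∃ T1, T1 = Finset.univ.filter (fun t : V × V × V => t.1 ∈ A ∧
    T.F t.1 t.2.1 t.2.2 ∧ h t.2.1 < h t.1 ∧ h t.2.2 < h t.1) := ⟨_, rfl⟩
  obtain ⟨T2, hT2⟩ : ∃ T2, T2 = Finset.univ.filter (fun t : V × V × V => t.2.1 ∈ A ∧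
    T.F t.1 t.2.1 t.2.2 ∧ h t.1 < h t.2.1 ∧ h t.2.2 < h t.2.1) := ⟨_, rfl⟩
  obtain ⟨T3, hT3⟩ : ∃ T3, T3 = Finset.univ.filter (fun t : V × V × V => t.2.2 ∈ A ∧
    T.F t.1 t.2.1 t.2.2 ∧ h t.1 < h t.2.2 ∧ h t.2.1 < h t.2.2) := ⟨_, rfl⟩
  have hun : Finset.univ.filter (fun t : V × V × V => t.1 ∈ A ∧ t.2.1 ∈ A ∧ t.2.2 ∈ A ∧
      T.F t.1 t.2.1 t.2.2) = T1 ∪ (T2 ∪ T3) := by
    ext ⟨a, b, c⟩
    rw [hT1, hT2, hT3]
    simp only [Finset.mem_union, Finset.mem_filter, Finset.mem_univ, true_and]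
    constructor
    · rintro ⟨a1, a2, a3, a4⟩
      have n1 : h a ≠ h b := fun e => T.ne _ _ _ a4 (hinj e)
      have n2 : h b ≠ h c := fun e => F23 T a4 (hinj e)
      have n3 : h c ≠ h a := fun e => F31 T a4 (hinj e)
      rcases lt_or_gt_of_ne n1 with e1 | e1
      · rcases lt_or_gt_of_ne n2 with e2 | e2
        · exact Or.inr (Or.inr ⟨a3, a4, e1.trans e2, e2⟩)
        · exact Or.inr (Or.inl ⟨a2, a4, e1, e2⟩)
      · rcases lt_or_gt_of_ne n3 with e3 | e3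
        · exact Or.inl ⟨a1, a4, e1, e3⟩
        · exact Or.inr (Or.inr ⟨a3, a4, e3, e1.trans e3⟩)
    · rintro (⟨a1, a2, a3, a4⟩ | ⟨a1, a2, a3, a4⟩ | ⟨a1, a2, a3, a4⟩)
      · exact ⟨a1, hin _ _ a1 a3, hin _ _ a1 a4, a2⟩
      · exact ⟨hin _ _ a1 a3, a1, hin _ _ a1 a4, a2⟩
      · exact ⟨hin _ _ a1 a3, hin _ _ a1 a4, a1, a2⟩
  have hd23 : Disjoint T2 T3 := by
    rw [Finset.disjoint_left]
    rintro ⟨a, b, c⟩ h1 h2
    rw [hT2, Finset.mem_filter] at h1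
    rw [hT3, Finset.mem_filter] at h2
    exact absurd h1.2.2.2.2 (not_lt.2 (le_of_lt h2.2.2.2.2))
  have hd1 : Disjoint T1 (T2 ∪ T3) := by
    rw [Finset.disjoint_left]
    rintro ⟨a, b, c⟩ h1 h2
    rw [hT1, Finset.mem_filter] at h1
    rw [Finset.mem_union, hT2, hT3, Finset.mem_filter, Finset.mem_filter] at h2
    rcases h2 with h2 | h2
    · exact absurd h1.2.2.2.1 (not_lt.2 (le_of_lt h2.2.2.2.1))
    · exact absurd h1.2.2.2.2 (not_lt.2 (le_of_lt h2.2.2.2.1))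
  have c2 : T2.card = T1.card := by
    apply Finset.card_nbij' (fun t : V × V × V => (t.2.1, t.2.2, t.1))
      (fun t : V × V × V => (t.2.2, t.1, t.2.1))
    · rintro ⟨a, b, c⟩ he
      rw [hT2] at he
      rw [hT1]
      simp only [Finset.coe_filter, Finset.mem_univ, true_and, Set.mem_setOf_eq] at he ⊢
      obtain ⟨a1, a2, a3, a4⟩ := he
      exact ⟨a1, T.rot _ _ _ a2, a4, a3⟩
    · rintro ⟨a, b, c⟩ he
      rw [hT1] at he
      rw [hT2]
      simp only [Finset.coe_filter, Finset.mem_univ, true_and, Set.mem_setOf_eq] at he ⊢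
      obtain ⟨a1, a2, a3, a4⟩ := he
      exact ⟨a1, T.rot _ _ _ (T.rot _ _ _ a2), a4, a3⟩
    · intro e _; rfl
    · intro e _; rfl
  have c3 : T3.card = T1.card := by
    apply Finset.card_nbij' (fun t : V × V × V => (t.2.2, t.1, t.2.1))
      (fun t : V × V × V => (t.2.1, t.2.2, t.1))
    · rintro ⟨a, b, c⟩ he
      rw [hT3] at he
      rw [hT1]
      simp only [Finset.coe_filter, Finset.mem_univ, true_and, Set.mem_setOf_eq] at he ⊢
      obtain ⟨a1, a2, a3, a4⟩ := he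
      exact ⟨a1, T.rot _ _ _ (T.rot _ _ _ a2), a3, a4⟩
    · rintro ⟨a, b, c⟩ he
      rw [hT1] at he
      rw [hT3]
      simp only [Finset.coe_filter, Finset.mem_univ, true_and, Set.mem_setOf_eq] at he ⊢
      obtain ⟨a1, a2, a3, a4⟩ := he
      exact ⟨a1, T.rot _ _ _ a2, a3, a4⟩
    · intro e _; rfl
    · intro e _; rfl
  rw [hun, Finset.card_union_of_disjoint hd1, Finset.card_union_of_disjoint hd23, c2, c3, ← hT1]
  ring

open Classical in
theorem low_count {V : Type} [Fintype V] (T : Tri V) (A : Set V) (h : V → ℝ)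
    (hinj : Function.Injective h) (b t : V) (hb : b ∈ A) (ht : t ∉ A)
    (hact : ∀ v, v ≠ b → v ≠ t →
      (∃ u, T.G.Adj v u ∧ h u < h v) ∧ (∃ u, T.G.Adj v u ∧ h v < h u))
    (hmin : ∀ v, v ≠ b → h b < h v)
    (hup : ∀ v x y x' y', T.F v x y → h x < h v → h v < h y → T.F v x' y' → h x' < h v →
      h v < h y' → x = x') :
    (Finset.univ.filter (fun e : V × V => e.1 ∈ A ∧ T.G.Adj e.1 e.2 ∧ h e.2 < h e.1)).card + 1 =
      (Finset.univ.filter (fun t : V × V × V => t.1 ∈ A ∧ T.F t.1 t.2.1 t.2.2 ∧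
        h t.2.1 < h t.1 ∧ h t.2.2 < h t.1)).card + (Finset.univ.filter (fun v => v ∈ A)).card := by
  have h1 := Finset.card_filter_add_card_filter_not
    (s := Finset.univ.filter (fun e : V × V => e.1 ∈ A ∧ T.G.Adj e.1 e.2 ∧ h e.2 < h e.1))
    (p := fun e : V × V => ∃ y, T.F e.1 e.2 y ∧ h y < h e.1)
  have hgt : ∀ v x y, T.F v x y → ¬ h y < h v → h v < h y := by
    intro v x y hF hn
    exact lt_of_le_of_ne (not_lt.1 hn) (fun e => F31 T hF (hinj e).symm)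
  have h2 : (Finset.univ.filter (fun t : V × V × V => t.1 ∈ A ∧ T.F t.1 t.2.1 t.2.2 ∧
        h t.2.1 < h t.1 ∧ h t.2.2 < h t.1)).card =
      ((Finset.univ.filter (fun e : V × V => e.1 ∈ A ∧ T.G.Adj e.1 e.2 ∧ h e.2 < h e.1)).filter
        (fun e : V × V => ∃ y, T.F e.1 e.2 y ∧ h y < h e.1)).card := by
    apply Finset.card_bij (fun t _ => (t.1, t.2.1))
    · rintro ⟨v, x, y⟩ he
      simp only [Finset.mem_filter, Finset.mem_univ, true_and] at he ⊢
      obtain ⟨a1, a2, a3, a4⟩ := he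
      exact ⟨⟨a1, ⟨y, a2⟩, a3⟩, y, a2, a4⟩
    · rintro ⟨v, x, y⟩ he ⟨v', x', y'⟩ he' heq
      simp only [Finset.mem_filter, Finset.mem_univ, true_and] at he he'
      simp only [Prod.mk.injEq] at heq
      obtain ⟨rfl, rfl⟩ := heq
      rw [T.uniq _ _ _ _ he.2.1 he'.2.1]
    · rintro ⟨v, x⟩ he
      simp only [Finset.mem_filter, Finset.mem_univ, true_and] at he
      obtain ⟨⟨a1, a2, a3⟩, y, a4, a5⟩ := he
      refine ⟨(v, x, y), ?_, rfl⟩
      simp only [Finset.mem_filter, Finset.mem_univ, true_and]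
      exact ⟨a1, a4, a3, a5⟩
  have h3 : ((Finset.univ.filter
      (fun e : V × V => e.1 ∈ A ∧ T.G.Adj e.1 e.2 ∧ h e.2 < h e.1)).filter
        (fun e : V × V => ¬ ∃ y, T.F e.1 e.2 y ∧ h y < h e.1)).card =
      ((Finset.univ.filter (fun v => v ∈ A)).erase b).card := by
    apply Finset.card_bij (fun e _ => e.1)
    · rintro ⟨v, x⟩ he
      simp only [Finset.mem_filter, Finset.mem_univ, true_and] at he
      obtain ⟨⟨a1, a2, a3⟩, a4⟩ := he
      simp only [Finset.mem_erase, Finset.mem_filter, Finset.mem_univ, true_and]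
      refine ⟨?_, a1⟩
      rintro rfl
      have hxv : x ≠ v := fun e => by rw [e] at a3; exact lt_irrefl _ a3
      exact absurd (hmin x hxv) (not_lt.2 a3.le)
    · rintro ⟨v, x⟩ he ⟨v', x'⟩ he' heq
      simp only [Finset.mem_filter, Finset.mem_univ, true_and] at he he'
      simp only at heq
      subst heq
      obtain ⟨⟨a1, ⟨y, a2⟩, a3⟩, a4⟩ := he
      obtain ⟨⟨b1, ⟨y', b2⟩, b3⟩, b4⟩ := he'
      have e1 := hup v x y x' y' a2 a3 (hgt _ _ _ a2 (fun hy => a4 ⟨y, a2, hy⟩)) b2 b3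
        (hgt _ _ _ b2 (fun hy => b4 ⟨y', b2, hy⟩))
      rw [e1]
    · intro v hv
      simp only [Finset.mem_erase, Finset.mem_filter, Finset.mem_univ, true_and] at hv
      obtain ⟨hvb, hvA⟩ := hv
      have hvt : v ≠ t := fun e => ht (e ▸ hvA)
      obtain ⟨⟨u, ⟨c, hu⟩, hu'⟩, w, ⟨d, hw⟩, hw'⟩ := hact v hvb hvt
      obtain ⟨x, y, hxy, hx, hy⟩ := cross_exist (P := fun x => h x < h v)
        (T.link v u c w d hu hw) hu' (not_lt.2 hw'.le)
      refine ⟨(v, x), ?_, rfl⟩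
      simp only [Finset.mem_filter, Finset.mem_univ, true_and]
      refine ⟨⟨hvA, ⟨y, hxy⟩, hx⟩, ?_⟩
      rintro ⟨y', hy1, hy2⟩
      rw [T.uniq _ _ _ _ hy1 hxy] at hy2
      exact hy hy2
  have h4 : ((Finset.univ.filter (fun v => v ∈ A)).erase b).card + 1 =
      (Finset.univ.filter (fun v => v ∈ A)).card :=
    Finset.card_erase_add_one (by simp [hb])
  omega

end W_CHI

open W_CHI in
theorem CHI {V : Type} [Finite V] (T : Tri V) (A : Set V) (hA : Conn T.G A) (hAc : Conn T.G Aᶜ) :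
    6 * Nat.card A + 2 * Nat.card {t : V × V × V // t.1 ∈ A ∧ t.2.1 ∈ A ∧ t.2.2 ∈ A ∧ T.F t.1 t.2.1 t.2.2} =
      6 + 3 * Nat.card {e : V × V // e.1 ∈ A ∧ e.2 ∈ A ∧ T.G.Adj e.1 e.2} := by
  classical
  haveI := Fintype.ofFinite V
  obtain ⟨b, hb⟩ := hA.1
  obtain ⟨t, ht⟩ := hAc.1
  have h2 : ∀ x : V, Conn T.G ({x}ᶜ : Set V) := fun x => by
    have h3 := tri_conn3 T x x
    rwa [Set.pair_eq_singleton] at h3
  obtain ⟨h, hinj, hpre, hact, hmin, -⟩ := prefix_order T.G h2 A b t hb ht hA hAc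
  obtain ⟨hup, -⟩ := CL T h hinj b t hact
  have e1 := edges_count T A h hinj hpre
  have e2 := faces_count T A h hinj hpre
  have e3 := low_count T A h hinj b t hb ht hact hmin hup
  have e4 : Nat.card A = (Finset.univ.filter (fun v => v ∈ A)).card := ncard_filter (fun v => v ∈ A)
  have e5 : Nat.card {t : V × V × V // t.1 ∈ A ∧ t.2.1 ∈ A ∧ t.2.2 ∈ A ∧ T.F t.1 t.2.1 t.2.2} =
      (Finset.univ.filter (fun t : V × V × V => t.1 ∈ A ∧ t.2.1 ∈ A ∧ t.2.2 ∈ A ∧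
        T.F t.1 t.2.1 t.2.2)).card :=
    ncard_filter (fun t : V × V × V => t.1 ∈ A ∧ t.2.1 ∈ A ∧ t.2.2 ∈ A ∧ T.F t.1 t.2.1 t.2.2)
  have e6 : Nat.card {e : V × V // e.1 ∈ A ∧ e.2 ∈ A ∧ T.G.Adj e.1 e.2} =
      (Finset.univ.filter (fun e : V × V => e.1 ∈ A ∧ e.2 ∈ A ∧ T.G.Adj e.1 e.2)).card :=
    ncard_filter (fun e : V × V => e.1 ∈ A ∧ e.2 ∈ A ∧ T.G.Adj e.1 e.2)
  rw [e4, e5, e6, e1, e2]
  omega


end Pool.Agent.H891WLC
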