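import Pool.Agent.H891WLC.Defs
import Pool.Agent.H891WLC.tri_conn3

set_option autoImplicit false

namespace Pool.Agent.H891WLC

namespace W_PLANE

theorem crs_rot (a b c : ℝ × ℝ) : crs b c a = crs a b c := by unfold crs; ring
theorem crs_swap (a b c : ℝ × ℝ) : crs b a c = - crs a b c := by unfold crs; ring
theorem crs_swap' (a b c : ℝ × ℝ) : crs a c b = - crs a b c := by unfold crs; ring
theorem crs_self (a b : ℝ × ℝ) : crs a b a = 0 := by unfold crs; ring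
theorem crs_self' (a b : ℝ × ℝ) : crs a b b = 0 := by unfold crs; ring

/-- affine combination -/
def mix (t : ℝ) (z q : ℝ × ℝ) : ℝ × ℝ := ((1 - t) * z.1 + t * q.1, (1 - t) * z.2 + t * q.2)

theorem crs_mix (a b z q : ℝ × ℝ) (t : ℝ) :
    crs a b (mix t z q) = (1 - t) * crs a b z + t * crs a b q := by
  unfold crs mix; ring

theorem mem_seg {a b z : ℝ × ℝ} (h : z ∈ segment ℝ a b) : ∃ t : ℝ, 0 ≤ t ∧ t ≤ 1 ∧ z = mix t a b := by
  rw [segment_eq_image] at h
  obtain ⟨t, ht, rfl⟩ := h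
  refine ⟨t, ht.1, ht.2, ?_⟩
  ext <;> simp [mix]

/-- open triangle -/
def InO (a b c z : ℝ × ℝ) : Prop := 0 < crs a b z ∧ 0 < crs b c z ∧ 0 < crs c a z
/-- closed triangle -/
def InC (a b c z : ℝ × ℝ) : Prop := 0 ≤ crs a b z ∧ 0 ≤ crs b c z ∧ 0 ≤ crs c a z

theorem InO.rot {a b c z : ℝ × ℝ} (h : InO a b c z) : InO b c a z := ⟨h.2.1, h.2.2, h.1⟩
theorem InC.rot {a b c z : ℝ × ℝ} (h : InC a b c z) : InC b c a z := ⟨h.2.1, h.2.2, h.1⟩

open Classical in
noncomputable def up (z a b : ℝ × ℝ) : ℤ :=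
  if a.2 ≤ z.2 ∧ z.2 < b.2 ∧ 0 < crs a b z then 1 else 0

/-- signed crossing number -/
noncomputable def chi (z a b : ℝ × ℝ) : ℤ := up z a b - up z b a

theorem up_zero_right {z a b : ℝ × ℝ} (h : b.2 ≤ z.2) : up z a b = 0 :=
  if_neg (fun h' => absurd h'.2.1 (not_lt.2 h))
theorem up_zero_left {z a b : ℝ × ℝ} (h : z.2 < a.2) : up z a b = 0 :=
  if_neg (fun h' => absurd h'.1 (not_le.2 h))
theorem up_one {z a b : ℝ × ℝ} (h1 : a.2 ≤ z.2) (h2 : z.2 < b.2) (h3 : 0 < crs a b z) :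
    up z a b = 1 := if_pos ⟨h1, h2, h3⟩
theorem up_zero_mid {z a b : ℝ × ℝ} (h3 : ¬ 0 < crs a b z) : up z a b = 0 :=
  if_neg (fun h => h3 h.2.2)

theorem chi_anti (z a b : ℝ × ℝ) : chi z b a = - chi z a b := by unfold chi; ring

/-- crossing number of a triangle -/
noncomputable def tri (z a b c : ℝ × ℝ) : ℤ := chi z a b + chi z b c + chi z c a

theorem tri_rot (z a b c : ℝ × ℝ) : tri z b c a = tri z a b c := by unfold tri; ring
theorem tri_rev (z a b c : ℝ × ℝ) : tri z a c b = - tri z a b c := by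
  unfold tri; rw [chi_anti z c a, chi_anti z b c, chi_anti z a b]; ring

/-- the property of positive triangles -/
def Good (z a b c : ℝ × ℝ) : Prop := (tri z a b c = 0 ∨ tri z a b c = 1) ∧
  (InO a b c z → tri z a b c = 1)

theorem Good.rot {z a b c : ℝ × ℝ} (h : Good z a b c) : Good z b c a := by
  unfold Good
  rw [tri_rot]
  exact ⟨h.1, fun h' => h.2 h'.rot.rot⟩

theorem A1 {z a b c : ℝ × ℝ} (h : 0 < crs a b c) (ha : a.2 ≤ z.2) (hb : z.2 < b.2)
    (hc : z.2 < c.2) : Good z a b c := by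
  have e : tri z a b c = up z a b - up z a c := by
    unfold tri chi
    rw [up_zero_left hb, up_zero_left hb, up_zero_left hc, up_zero_left hc]
    ring
  unfold Good
  rw [e]
  have hid : crs a b z * (c.2 - a.2) = crs a c z * (b.2 - a.2) + crs a b c * (z.2 - a.2) := by
    unfold crs; ring
  by_cases h1 : 0 < crs a b z
  · by_cases h2 : 0 < crs a c z
    · rw [up_one ha hb h1, up_one ha hc h2]
      refine ⟨Or.inl (by ring), fun h' => ?_⟩
      have h3 := h'.2.2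
      rw [crs_swap] at h3
      linarith
    · rw [up_one ha hb h1, up_zero_mid h2]
      exact ⟨Or.inr (by ring), fun _ => by ring⟩
  · by_cases h2 : 0 < crs a c z
    · exfalso
      have h3 : 0 < crs a c z * (b.2 - a.2) := mul_pos h2 (by linarith)
      have h4 : 0 ≤ crs a b c * (z.2 - a.2) := mul_nonneg h.le (by linarith)
      have h5 : crs a b z * (c.2 - a.2) ≤ 0 :=
        mul_nonpos_of_nonpos_of_nonneg (not_lt.1 h1) (by linarith)
      linarith
    · rw [up_zero_mid h1, up_zero_mid h2]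
      exact ⟨Or.inl (by ring), fun h' => absurd h'.1 h1⟩

theorem A2 {z a b c : ℝ × ℝ} (h : 0 < crs a b c) (ha : a.2 ≤ z.2) (hb : z.2 < b.2)
    (hc : c.2 ≤ z.2) : Good z a b c := by
  have e : tri z a b c = up z a b - up z c b := by
    unfold tri chi
    rw [up_zero_left hb, up_zero_left hb, up_zero_right ha, up_zero_right hc]
    ring
  unfold Good
  rw [e]
  have hid : crs a b z * (b.2 - c.2) = crs c b z * (b.2 - a.2) + crs a b c * (b.2 - z.2) := by
    unfold crs; ring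
  by_cases h1 : 0 < crs a b z
  · by_cases h2 : 0 < crs c b z
    · rw [up_one ha hb h1, up_one hc hb h2]
      refine ⟨Or.inl (by ring), fun h' => ?_⟩
      have h3 := h'.2.1
      rw [crs_swap] at h3
      linarith
    · rw [up_one ha hb h1, up_zero_mid h2]
      exact ⟨Or.inr (by ring), fun _ => by ring⟩
  · by_cases h2 : 0 < crs c b z
    · exfalso
      have h3 : 0 < crs c b z * (b.2 - a.2) := mul_pos h2 (by linarith)
      have h4 : 0 ≤ crs a b c * (b.2 - z.2) := mul_nonneg h.le (by linarith)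
      have h5 : crs a b z * (b.2 - c.2) ≤ 0 :=
        mul_nonpos_of_nonpos_of_nonneg (not_lt.1 h1) (by linarith)
      linarith
    · rw [up_zero_mid h1, up_zero_mid h2]
      exact ⟨Or.inl (by ring), fun h' => absurd h'.1 h1⟩

theorem bary (z a b c : ℝ × ℝ) : crs b c z * (a.2 - z.2) + crs c a z * (b.2 - z.2) +
    crs a b z * (c.2 - z.2) = 0 := by
  unfold crs; ring

theorem A0 {z a b c : ℝ × ℝ} (h : 0 < crs a b c) (ha : a.2 ≤ z.2) (hb : b.2 ≤ z.2)
    (hc : c.2 ≤ z.2) : Good z a b c := by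
  have e : tri z a b c = 0 := by
    unfold tri chi
    rw [up_zero_right ha, up_zero_right hb, up_zero_right hc, up_zero_right hb,
      up_zero_right ha, up_zero_right hc]
    ring
  refine ⟨Or.inl e, fun h' => ?_⟩
  exfalso
  have h0 := bary z a b c
  have t1 : crs b c z * (a.2 - z.2) ≤ 0 := mul_nonpos_of_nonneg_of_nonpos h'.2.1.le (by linarith)
  have t2 : crs c a z * (b.2 - z.2) ≤ 0 := mul_nonpos_of_nonneg_of_nonpos h'.2.2.le (by linarith)
  have t3 : crs a b z * (c.2 - z.2) ≤ 0 := mul_nonpos_of_nonneg_of_nonpos h'.1.le (by linarith)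
  have s1 : crs b c z * (a.2 - z.2) = 0 := by linarith
  have s2 : crs c a z * (b.2 - z.2) = 0 := by linarith
  have s3 : crs a b z * (c.2 - z.2) = 0 := by linarith
  have r1 := (mul_eq_zero.1 s1).resolve_left h'.2.1.ne'
  have r2 := (mul_eq_zero.1 s2).resolve_left h'.2.2.ne'
  have r3 := (mul_eq_zero.1 s3).resolve_left h'.1.ne'
  have q1 : b.2 - a.2 = 0 := by linarith
  have q2 : c.2 - a.2 = 0 := by linarith
  unfold crs at h
  rw [q1, q2] at h
  linarith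

theorem A3 {z a b c : ℝ × ℝ} (ha : z.2 < a.2) (hb : z.2 < b.2)
    (hc : z.2 < c.2) : Good z a b c := by
  have e : tri z a b c = 0 := by
    unfold tri chi
    rw [up_zero_left ha, up_zero_left hb, up_zero_left hc, up_zero_left hb,
      up_zero_left ha, up_zero_left hc]
    ring
  refine ⟨Or.inl e, fun h' => ?_⟩
  exfalso
  have h0 := bary z a b c
  have t1 : 0 < crs b c z * (a.2 - z.2) := mul_pos h'.2.1 (by linarith)
  have t2 : 0 < crs c a z * (b.2 - z.2) := mul_pos h'.2.2 (by linarith)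
  have t3 : 0 < crs a b z * (c.2 - z.2) := mul_pos h'.1 (by linarith)
  linarith

theorem good {z a b c : ℝ × ℝ} (h : 0 < crs a b c) : Good z a b c := by
  have h' : 0 < crs b c a := by rw [crs_rot]; exact h
  have h'' : 0 < crs c a b := by rw [crs_rot]; exact h'
  rcases le_or_gt a.2 z.2 with ha | ha <;> rcases le_or_gt b.2 z.2 with hb | hb <;>
    rcases le_or_gt c.2 z.2 with hc | hc
  · exact A0 h ha hb hc
  · exact (A2 h' hb hc ha).rot.rot
  · exact A2 h ha hb hc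
  · exact A1 h ha hb hc
  · exact (A2 h'' hc ha hb).rot
  · exact (A1 h' hb hc ha).rot.rot
  · exact (A1 h'' hc ha hb).rot
  · exact A3 ha hb hc

set_option linter.unusedSectionVars false
set_option linter.unusedVariables false
section
variable {V : Type} [Finite V] {T : Tri V} {o₁ o₂ o₃ : V} {p : V → ℝ × ℝ}

theorem isRot_rot {a b c x y z : V} : IsRot a b c y z x ↔ IsRot a b c x y z := by
  unfold IsRot; tauto

theorem isRot_rot' {a b c x y z : V} : IsRot b c a x y z ↔ IsRot a b c x y z := by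
  unfold IsRot; tauto

theorem drawn_rot (h : Drawn T o₁ o₂ o₃ p) : Drawn T o₂ o₃ o₁ p :=
  ⟨T.rot _ _ _ h.1, by rw [crs_rot]; exact h.2.1,
    fun a b c hf hn => h.2.2 a b c hf (fun hr => hn (isRot_rot'.2 hr))⟩

open Classical in
theorem sum_anti [Fintype V] (g : V → V → ℤ) (hg : ∀ a b, g b a = - g a b) :
    ∑ t ∈ (Finset.univ.filter fun t : V × V × V => T.F t.1 t.2.1 t.2.2), g t.1 t.2.1 = 0 := by
  have hF : ∀ t ∈ (Finset.univ.filter fun t : V × V × V => T.F t.1 t.2.1 t.2.2),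
      T.F t.1 t.2.1 t.2.2 := fun t ht => (Finset.mem_filter.1 ht).2
  refine Finset.sum_involution
    (fun t ht => (t.2.1, t.1, Classical.choose (T.opp _ _ _ (hF t ht)))) ?_ ?_ ?_ ?_
  · intro t ht
    show g t.1 t.2.1 + g t.2.1 t.1 = 0
    rw [hg t.1 t.2.1]; ring
  · intro t ht _ heq
    have h1 : t.2.1 = t.1 := congrArg Prod.fst heq
    exact T.ne _ _ _ (hF t ht) h1.symm
  · intro t ht
    exact Finset.mem_filter.2 ⟨Finset.mem_univ _, Classical.choose_spec (T.opp _ _ _ (hF t ht))⟩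
  · intro t ht
    obtain ⟨a, b, c⟩ := t
    refine Prod.ext rfl (Prod.ext rfl ?_)
    exact T.uniq a b _ _ (Classical.choose_spec (T.opp b a
      (Classical.choose (T.opp a b c (hF _ ht)))
      (Classical.choose_spec (T.opp a b c (hF _ ht))))) (hF _ ht)

open Classical in
theorem sum_tri [Fintype V] (z : ℝ × ℝ) :
    ∑ t ∈ (Finset.univ.filter fun t : V × V × V => T.F t.1 t.2.1 t.2.2),
      tri z (p t.1) (p t.2.1) (p t.2.2) = 0 := by
  have h1 := sum_anti (T := T) (fun a b => chi z (p a) (p b)) (fun a b => chi_anti _ _ _)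
  have h2 : ∑ t ∈ (Finset.univ.filter fun t : V × V × V => T.F t.1 t.2.1 t.2.2),
      chi z (p t.2.1) (p t.2.2) = ∑ t ∈ (Finset.univ.filter fun t : V × V × V =>
        T.F t.1 t.2.1 t.2.2), chi z (p t.1) (p t.2.1) := by
    refine Finset.sum_nbij' (fun t => (t.2.1, t.2.2, t.1)) (fun t => (t.2.2, t.1, t.2.1))
      ?_ ?_ ?_ ?_ ?_
    · intro t ht
      exact Finset.mem_filter.2 ⟨Finset.mem_univ _, T.rot _ _ _ (Finset.mem_filter.1 ht).2⟩
    · intro t ht
      exact Finset.mem_filter.2 ⟨Finset.mem_univ _,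
        T.rot _ _ _ (T.rot _ _ _ (Finset.mem_filter.1 ht).2)⟩
    · intro t _; rfl
    · intro t _; rfl
    · intro t _; rfl
  have h3 : ∑ t ∈ (Finset.univ.filter fun t : V × V × V => T.F t.1 t.2.1 t.2.2),
      chi z (p t.2.2) (p t.1) = ∑ t ∈ (Finset.univ.filter fun t : V × V × V =>
        T.F t.1 t.2.1 t.2.2), chi z (p t.1) (p t.2.1) := by
    refine Finset.sum_nbij' (fun t => (t.2.2, t.1, t.2.1)) (fun t => (t.2.1, t.2.2, t.1))
      ?_ ?_ ?_ ?_ ?_
    · intro t ht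
      exact Finset.mem_filter.2 ⟨Finset.mem_univ _,
        T.rot _ _ _ (T.rot _ _ _ (Finset.mem_filter.1 ht).2)⟩
    · intro t ht
      exact Finset.mem_filter.2 ⟨Finset.mem_univ _, T.rot _ _ _ (Finset.mem_filter.1 ht).2⟩
    · intro t _; rfl
    · intro t _; rfl
    · intro t _; rfl
  unfold tri
  rw [Finset.sum_add_distrib, Finset.sum_add_distrib, h2, h3, h1]
  rfl

open Classical in
/-- the rotations of a triple -/
noncomputable def rs (a b c : V) : Finset (V × V × V) := {(a, b, c), (b, c, a), (c, a, b)}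

theorem mem_rs {a b c : V} {t : V × V × V} : t ∈ rs a b c ↔ IsRot a b c t.1 t.2.1 t.2.2 := by
  classical
  obtain ⟨x, y, z⟩ := t
  unfold rs IsRot
  simp only [Finset.mem_insert, Finset.mem_singleton, Prod.mk.injEq]

theorem card_rs {a b c : V} (h1 : a ≠ b) (h2 : b ≠ c) : (rs a b c).card = 3 := by
  classical
  unfold rs
  rw [Finset.card_insert_of_notMem, Finset.card_insert_of_notMem, Finset.card_singleton]
  · simp only [Finset.mem_singleton, Prod.mk.injEq]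
    rintro ⟨h3, h4, h5⟩
    exact h2 h3
  · simp only [Finset.mem_insert, Finset.mem_singleton, Prod.mk.injEq]
    rintro (⟨h3, h4, h5⟩ | ⟨h3, h4, h5⟩)
    · exact h1 h3
    · exact h1 h4.symm

theorem rot_F {a b c x y z : V} (h : T.F a b c) (hr : IsRot a b c x y z) : T.F x y z := by
  rcases hr with ⟨rfl, rfl, rfl⟩ | ⟨rfl, rfl, rfl⟩ | ⟨rfl, rfl, rfl⟩
  · exact h
  · exact T.rot _ _ _ h
  · exact T.rot _ _ _ (T.rot _ _ _ h)

theorem rot_InO {a b c x y z : V} {q : ℝ × ℝ} (h : InO (p a) (p b) (p c) q)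
    (hr : IsRot a b c x y z) : InO (p x) (p y) (p z) q := by
  rcases hr with ⟨rfl, rfl, rfl⟩ | ⟨rfl, rfl, rfl⟩ | ⟨rfl, rfl, rfl⟩
  · exact h
  · exact h.rot
  · exact h.rot.rot

theorem rot_crs {a b c x y z : V} (hr : IsRot a b c x y z) :
    crs (p x) (p y) (p z) = crs (p a) (p b) (p c) := by
  rcases hr with ⟨rfl, rfl, rfl⟩ | ⟨rfl, rfl, rfl⟩ | ⟨rfl, rfl, rfl⟩
  · rfl
  · rw [crs_rot]
  · rw [← crs_rot]

theorem isRot_symm {a b c x y z : V} (h : IsRot a b c x y z) : IsRot x y z a b c := by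
  rcases h with ⟨rfl, rfl, rfl⟩ | ⟨rfl, rfl, rfl⟩ | ⟨rfl, rfl, rfl⟩ <;> unfold IsRot <;> tauto

theorem isRot_trans {a b c x y z u v w : V} (h : IsRot a b c x y z) (h' : IsRot x y z u v w) :
    IsRot a b c u v w := by
  rcases h with ⟨rfl, rfl, rfl⟩ | ⟨rfl, rfl, rfl⟩ | ⟨rfl, rfl, rfl⟩ <;>
    rcases h' with ⟨rfl, rfl, rfl⟩ | ⟨rfl, rfl, rfl⟩ | ⟨rfl, rfl, rfl⟩ <;> unfold IsRot <;> tauto

/-- interiors of different inner faces are disjoint -/
theorem disj (hd : Drawn T o₁ o₂ o₃ p) {a b c a' b' c' : V} (h : T.F a b c)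
    (hn : ¬ IsRot o₁ o₂ o₃ a b c) (h' : T.F a' b' c') (hn' : ¬ IsRot o₁ o₂ o₃ a' b' c')
    {z : ℝ × ℝ} (hz : InO (p a) (p b) (p c) z) (hz' : InO (p a') (p b') (p c') z) :
    IsRot a b c a' b' c' := by
  classical
  haveI := Fintype.ofFinite V
  by_contra hnr
  have hsum := sum_tri (T := T) (p := p) z
  have hlow : ∀ t ∈ (Finset.univ.filter fun t : V × V × V => T.F t.1 t.2.1 t.2.2),
      ((if t ∈ rs a b c then 1 else 0) + (if t ∈ rs a' b' c' then 1 else 0) -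
        (if t ∈ rs o₁ o₂ o₃ then 1 else 0) : ℤ) ≤ tri z (p t.1) (p t.2.1) (p t.2.2) := by
    intro t ht
    have hF := (Finset.mem_filter.1 ht).2
    by_cases h0 : t ∈ rs o₁ o₂ o₃
    · have hr := mem_rs.1 h0
      have h1 : t ∉ rs a b c := fun h1 => hn (isRot_trans hr (isRot_symm (mem_rs.1 h1)))
      have h2 : t ∉ rs a' b' c' := fun h2 => hn' (isRot_trans hr (isRot_symm (mem_rs.1 h2)))
      rw [if_neg h1, if_neg h2, if_pos h0]
      have h3 : crs (p t.1) (p t.2.1) (p t.2.2) < 0 := by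
        rw [rot_crs hr]; exact hd.2.1
      have h4 : 0 < crs (p t.1) (p t.2.2) (p t.2.1) := by rw [crs_swap']; linarith
      have h5 := (good (z := z) h4).1
      rw [tri_rev] at h5
      omega
    · have hpos := hd.2.2 _ _ _ hF (fun hr => h0 (mem_rs.2 hr))
      have hg := good (z := z) hpos
      rw [if_neg h0]
      by_cases h1 : t ∈ rs a b c
      · have h2 : t ∉ rs a' b' c' := fun h2 =>
          hnr (isRot_trans (mem_rs.1 h1) (isRot_symm (mem_rs.1 h2)))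
        rw [if_pos h1, if_neg h2, hg.2 (rot_InO hz (mem_rs.1 h1))]
        norm_num
      · rw [if_neg h1]
        by_cases h2 : t ∈ rs a' b' c'
        · rw [if_pos h2, hg.2 (rot_InO hz' (mem_rs.1 h2))]
          norm_num
        · rw [if_neg h2]
          have := hg.1
          omega
  have hle := Finset.sum_le_sum hlow
  rw [hsum, Finset.sum_sub_distrib, Finset.sum_add_distrib] at hle
  have hcard : ∀ x y w : V, T.F x y w →
      ∑ t ∈ (Finset.univ.filter fun t : V × V × V => T.F t.1 t.2.1 t.2.2),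
        (if t ∈ rs x y w then (1:ℤ) else 0) = 3 := by
    intro x y w hF
    have hsub : rs x y w ⊆ (Finset.univ.filter fun t : V × V × V => T.F t.1 t.2.1 t.2.2) := by
      intro t ht
      exact Finset.mem_filter.2 ⟨Finset.mem_univ _, rot_F hF (mem_rs.1 ht)⟩
    rw [Finset.sum_ite_mem, Finset.inter_eq_right.2 hsub, Finset.sum_const,
      card_rs (T.ne _ _ _ hF) (T.ne _ _ _ (T.rot _ _ _ hF))]
    norm_num
  rw [hcard _ _ _ h, hcard _ _ _ h', hcard _ _ _ hd.1] at hle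
  norm_num at hle

theorem ev_pos (A B : ℝ) (hA : 0 < A) : ∀ᶠ t in nhdsWithin (0:ℝ) (Set.Ioi 0),
    0 < (1 - t) * A + t * B := by
  have hc : Continuous (fun t : ℝ => (1 - t) * A + t * B) := by fun_prop
  have h0 : 0 < (fun t : ℝ => (1 - t) * A + t * B) 0 := by simpa using hA
  exact mem_nhdsWithin_of_mem_nhds (hc.continuousAt.preimage_mem_nhds (Ioi_mem_nhds h0))

theorem ev_small : ∀ᶠ t in nhdsWithin (0:ℝ) (Set.Ioi 0), 0 < t ∧ t < 1 := by
  have h1 : ∀ᶠ t in nhdsWithin (0:ℝ) (Set.Ioi 0), t ∈ Set.Ioi (0:ℝ) := self_mem_nhdsWithin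
  have h2 : ∀ᶠ t in nhdsWithin (0:ℝ) (Set.Ioi 0), t < 1 :=
    mem_nhdsWithin_of_mem_nhds (Iio_mem_nhds (by norm_num))
  filter_upwards [h1, h2] with t ht ht' using ⟨ht, ht'⟩

theorem centroid_in {a b c : ℝ × ℝ} (h : 0 < crs a b c) :
    InO a b c ((a.1 + b.1 + c.1) / 3, (a.2 + b.2 + c.2) / 3) := by
  unfold InO
  have e1 : crs a b ((a.1 + b.1 + c.1) / 3, (a.2 + b.2 + c.2) / 3) = crs a b c / 3 := by
    unfold crs; ring
  have e2 : crs b c ((a.1 + b.1 + c.1) / 3, (a.2 + b.2 + c.2) / 3) = crs a b c / 3 := by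
    unfold crs; ring
  have e3 : crs c a ((a.1 + b.1 + c.1) / 3, (a.2 + b.2 + c.2) / 3) = crs a b c / 3 := by
    unfold crs; ring
  rw [e1, e2, e3]
  exact ⟨by linarith, by linarith, by linarith⟩

theorem mix_InO {a b c z q : ℝ × ℝ} (hz : InC a b c z) (hq : InO a b c q) {t : ℝ} (ht : 0 < t)
    (ht1 : t < 1) : InO a b c (mix t z q) := by
  unfold InO
  rw [crs_mix, crs_mix, crs_mix]
  have h1 : 0 < 1 - t := by linarith
  exact ⟨add_pos_of_nonneg_of_pos (mul_nonneg h1.le hz.1) (mul_pos ht hq.1),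
    add_pos_of_nonneg_of_pos (mul_nonneg h1.le hz.2.1) (mul_pos ht hq.2.1),
    add_pos_of_nonneg_of_pos (mul_nonneg h1.le hz.2.2) (mul_pos ht hq.2.2)⟩

/-- glueing: a point of the closed triangle `f` from which one enters `g` -/
theorem glue (hd : Drawn T o₁ o₂ o₃ p) {a b c a' b' c' : V} (h : T.F a b c)
    (hn : ¬ IsRot o₁ o₂ o₃ a b c) (h' : T.F a' b' c') (hn' : ¬ IsRot o₁ o₂ o₃ a' b' c')
    {z q : ℝ × ℝ} (hz : InC (p a) (p b) (p c) z) (hq : InO (p a) (p b) (p c) q)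
    (h1 : 0 < crs (p a') (p b') z ∨ (0 ≤ crs (p a') (p b') z ∧ 0 ≤ crs (p a') (p b') q))
    (h2 : 0 < crs (p b') (p c') z ∨ (0 ≤ crs (p b') (p c') z ∧ 0 ≤ crs (p b') (p c') q))
    (h3 : 0 < crs (p c') (p a') z ∨ (0 ≤ crs (p c') (p a') z ∧ 0 ≤ crs (p c') (p a') q)) :
    IsRot a b c a' b' c' := by
  have hev : ∀ x y : ℝ × ℝ, (0 < crs x y z ∨ (0 ≤ crs x y z ∧ 0 ≤ crs x y q)) →
      ∀ᶠ t in nhdsWithin (0:ℝ) (Set.Ioi 0), 0 ≤ crs x y (mix t z q) := by
    intro x y hxy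
    rcases hxy with hxy | ⟨hxy, hxy'⟩
    · filter_upwards [ev_pos _ (crs x y q) hxy] with t ht
      rw [crs_mix]; exact ht.le
    · filter_upwards [ev_small] with t ht
      rw [crs_mix]
      exact add_nonneg (mul_nonneg (by linarith [ht.2]) hxy) (mul_nonneg ht.1.le hxy')
  obtain ⟨t, ⟨⟨⟨ht1, ht2⟩, ht3⟩, ht0⟩⟩ :=
    ((((hev _ _ h1).and (hev _ _ h2)).and (hev _ _ h3)).and ev_small).exists
  have hf : InO (p a) (p b) (p c) (mix t z q) := mix_InO hz hq ht0.1 ht0.2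
  have hg : InC (p a') (p b') (p c') (mix t z q) := ⟨ht1, ht2, ht3⟩
  have hr := centroid_in (hd.2.2 _ _ _ h' hn')
  set r : ℝ × ℝ := (((p a').1 + (p b').1 + (p c').1) / 3, ((p a').2 + (p b').2 + (p c').2) / 3)
  obtain ⟨s, ⟨⟨⟨hs1, hs2⟩, hs3⟩, hs0⟩⟩ :=
    ((((ev_pos _ (crs (p a) (p b) r) hf.1).and (ev_pos _ (crs (p b) (p c) r) hf.2.1)).and
      (ev_pos _ (crs (p c) (p a) r) hf.2.2)).and ev_small).exists
  have hf' : InO (p a) (p b) (p c) (mix s (mix t z q) r) := by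
    unfold InO
    rw [crs_mix _ _ (mix t z q), crs_mix _ _ (mix t z q), crs_mix _ _ (mix t z q)]
    exact ⟨hs1, hs2, hs3⟩
  exact disj hd h hn h' hn' hf' (mix_InO hg hr hs0.1 hs0.2)

/-- cosine of the angle -/
noncomputable def phi (w q x : ℝ × ℝ) : ℝ :=
  ((x.1 - w.1) * (q.1 - w.1) + (x.2 - w.2) * (q.2 - w.2)) /
    Real.sqrt ((x.1 - w.1) ^ 2 + (x.2 - w.2) ^ 2)

theorem phi_mono {w x y q : ℝ × ℝ} (h : 0 < crs w x y) (hx : 0 ≤ crs w x q) (hy : 0 ≤ crs w y q)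
    (hq : q ≠ w) : phi w q x < phi w q y := by
  obtain ⟨w1, w2⟩ := w
  obtain ⟨x1, x2⟩ := x
  obtain ⟨y1, y2⟩ := y
  obtain ⟨q1, q2⟩ := q
  unfold phi
  unfold crs at *
  simp only at *
  obtain ⟨a, rfl⟩ : ∃ a, x1 = w1 + a := ⟨x1 - w1, by ring⟩
  obtain ⟨a', rfl⟩ : ∃ a, x2 = w2 + a := ⟨x2 - w2, by ring⟩
  obtain ⟨b, rfl⟩ : ∃ a, y1 = w1 + a := ⟨y1 - w1, by ring⟩
  obtain ⟨b', rfl⟩ : ∃ a, y2 = w2 + a := ⟨y2 - w2, by ring⟩
  obtain ⟨d, rfl⟩ : ∃ a, q1 = w1 + a := ⟨q1 - w1, by ring⟩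
  obtain ⟨d', rfl⟩ : ∃ a, q2 = w2 + a := ⟨q2 - w2, by ring⟩
  simp only [add_sub_cancel_left] at *
  have hA2 : 0 < a ^ 2 + a' ^ 2 := by
    by_contra hcon
    have h1 : a ^ 2 = 0 := by nlinarith [sq_nonneg a, sq_nonneg a']
    have h2 : a' ^ 2 = 0 := by nlinarith [sq_nonneg a, sq_nonneg a']
    have h3 : a = 0 := by simpa using h1
    have h4 : a' = 0 := by simpa using h2
    rw [h3, h4] at h
    simp at h
  have hB2 : 0 < b ^ 2 + b' ^ 2 := by
    by_contra hcon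
    have h1 : b ^ 2 = 0 := by nlinarith [sq_nonneg b, sq_nonneg b']
    have h2 : b' ^ 2 = 0 := by nlinarith [sq_nonneg b, sq_nonneg b']
    have h3 : b = 0 := by simpa using h1
    have h4 : b' = 0 := by simpa using h2
    rw [h3, h4] at h
    simp at h
  have hA := Real.sqrt_pos.2 hA2
  have hB := Real.sqrt_pos.2 hB2
  have eA := Real.sq_sqrt hA2.le
  have eB := Real.sq_sqrt hB2.le
  rw [div_lt_div_iff₀ hA hB]
  generalize Real.sqrt (a ^ 2 + a' ^ 2) = A at *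
  generalize Real.sqrt (b ^ 2 + b' ^ 2) = B at *
  have hAB : a * b + a' * b' < A * B := by
    have h1 : (a * b + a' * b') ^ 2 < (A * B) ^ 2 := by
      have : (A * B) ^ 2 = (a * b + a' * b') ^ 2 + (a * b' - a' * b) ^ 2 := by
        rw [mul_pow, eA, eB]; ring
      rw [this]
      have := pow_pos h 2
      linarith
    exact lt_of_pow_lt_pow_left₀ 2 (by positivity) h1
  have hS : 0 < (a * d' - a' * d) * B + (b * d' - b' * d) * A := by
    have h1 : 0 ≤ (a * d' - a' * d) * B := mul_nonneg hx hB.le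
    have h2 : 0 ≤ (b * d' - b' * d) * A := mul_nonneg hy hA.le
    by_contra hcon
    have h3 : (a * d' - a' * d) * B = 0 := by linarith
    have h4 : (b * d' - b' * d) * A = 0 := by linarith
    have h5 := (mul_eq_zero.1 h3).resolve_right hB.ne'
    have h6 := (mul_eq_zero.1 h4).resolve_right hA.ne'
    have h7 : (a * b' - a' * b) * d = 0 := by linear_combination b * h5 - a * h6
    have h8 : (a * b' - a' * b) * d' = 0 := by linear_combination b' * h5 - a' * h6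
    have h9 := (mul_eq_zero.1 h7).resolve_left h.ne'
    have h10 := (mul_eq_zero.1 h8).resolve_left h.ne'
    apply hq
    rw [h9, h10]
    simp
  have key : (a * b' - a' * b) * ((b * d + b' * d') * A - (a * d + a' * d') * B) =
      (A * B - (a * b + a' * b')) * ((a * d' - a' * d) * B + (b * d' - b' * d) * A) := by
    linear_combination (-A * (a * d' - a' * d)) * eB + (-B * (b * d' - b' * d)) * eA
  have h11 : 0 < (a * b' - a' * b) * ((b * d + b' * d') * A - (a * d + a' * d') * B) := by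
    rw [key]
    exact mul_pos (by linarith) hS
  have h12 := (pos_iff_pos_of_mul_pos h11).1 h
  linarith

theorem step_exists {α : Type} {r : α → α → Prop} {a c : α} (h : Relation.ReflTransGen r a c)
    (P : α → Prop) (ha : P a) (hc : ¬ P c) : ∃ x y, r x y ∧ P x ∧ ¬ P y := by
  induction h with
  | refl => exact absurd ha hc
  | @tail b c' hab hbc ih =>
    by_cases hb : P b
    · exact ⟨b, c', hbc, hb, hc⟩
    · exact ih hb

theorem nbr_next {w x y : V} (h : T.F w x y) : ∃ z, T.F w y z :=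
  T.opp y w x (T.rot _ _ _ (T.rot _ _ _ h))

theorem cov_neg {w : V} (hw : ∀ x y, T.F w x y → 0 < crs (p w) (p x) (p y))
    (hne : ∃ x y, T.F w x y) {q : ℝ × ℝ} (hq : q ≠ p w) :
    ∃ x y, T.F w x y ∧ crs (p w) (p x) q < 0 := by
  by_contra hcon
  push Not at hcon
  obtain ⟨x, ⟨y, hxy⟩, hmax⟩ := Set.exists_max_image {x | ∃ y, T.F w x y}
    (fun x => phi (p w) q (p x)) (Set.toFinite _) hne
  obtain ⟨z, hz⟩ := nbr_next hxy
  have h1 := phi_mono (hw x y hxy) (hcon x y hxy) (hcon y z hz) hq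
  exact absurd h1 (not_lt.2 (hmax y ⟨z, hz⟩))

theorem cov_inner {w : V} (hw : ∀ x y, T.F w x y → 0 < crs (p w) (p x) (p y))
    (hne : ∃ x y, T.F w x y) {q : ℝ × ℝ} (hq : q ≠ p w) :
    ∃ x y, T.F w x y ∧ 0 ≤ crs (p w) (p x) q ∧ 0 < crs (p w) q (p y) := by
  obtain ⟨x1, y1, h1, h1'⟩ := cov_neg hw hne hq
  obtain ⟨x0, y0, h0, h0'⟩ : ∃ x y, T.F w x y ∧ 0 ≤ crs (p w) (p x) q := by
    have hq' : ((2 * (p w).1 - q.1, 2 * (p w).2 - q.2) : ℝ × ℝ) ≠ p w := by
      intro h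
      apply hq
      have e1 := congrArg Prod.fst h
      have e2 := congrArg Prod.snd h
      simp only at e1 e2
      exact Prod.ext (by linarith) (by linarith)
    obtain ⟨x, y, h, h'⟩ := cov_neg hw hne hq'
    refine ⟨x, y, h, ?_⟩
    have e : crs (p w) (p x) (2 * (p w).1 - q.1, 2 * (p w).2 - q.2) = - crs (p w) (p x) q := by
      unfold crs; ring
    rw [e] at h'
    linarith
  obtain ⟨x, y, hxy, hx, hy⟩ := step_exists (T.link w x0 y0 x1 y1 h0 h1)
    (fun x => 0 ≤ crs (p w) (p x) q) h0' (not_le.2 h1')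
  refine ⟨x, y, hxy, hx, ?_⟩
  rw [crs_swap']
  have := not_le.1 hy
  linarith

theorem exists_nbr (hF : T.F o₁ o₂ o₃) (w : V) : ∃ x y, T.F w x y := by
  by_cases h : w = o₁
  · exact ⟨o₂, o₃, h ▸ hF⟩
  · rcases Relation.ReflTransGen.cases_head (T.conn w o₁) with h1 | ⟨y, ⟨z, hz⟩, _⟩
    · exact absurd h1 h
    · exact ⟨y, z, hz⟩

theorem inner_pos (hd : Drawn T o₁ o₂ o₃ p) {w : V} (h1 : w ≠ o₁) (h2 : w ≠ o₂) (h3 : w ≠ o₃) :
    ∀ x y, T.F w x y → ¬ IsRot o₁ o₂ o₃ w x y := by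
  intro x y h hr
  rcases hr with ⟨h, _, _⟩ | ⟨h, _, _⟩ | ⟨h, _, _⟩
  · exact h1 h
  · exact h2 h
  · exact h3 h

theorem claimC (hd : Drawn T o₁ o₂ o₃ p) (v : V) : 0 ≤ crs (p o₁) (p o₃) (p v) := by
  haveI : Nonempty V := ⟨o₁⟩
  obtain ⟨w, -, hw⟩ := Set.exists_min_image (Set.univ : Set V)
    (fun v => crs (p o₁) (p o₃) (p v)) (Set.toFinite _) ⟨o₁, trivial⟩
  refine le_trans ?_ (hw v trivial)
  have hneg := hd.2.1
  rw [crs_swap'] at hneg
  by_cases h1 : w = o₁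
  · rw [h1, crs_self]
  by_cases h3 : w = o₃
  · rw [h3, crs_self']
  by_cases h2 : w = o₂
  · rw [h2]; linarith
  exfalso
  have hpos : ∀ x y, T.F w x y → 0 < crs (p w) (p x) (p y) := fun x y h =>
    hd.2.2 _ _ _ h (inner_pos hd h1 h2 h3 x y h)
  have hL : 0 < ((p o₃).1 - (p o₁).1) ^ 2 + ((p o₃).2 - (p o₁).2) ^ 2 := by
    by_contra hcon
    have e1 : ((p o₃).1 - (p o₁).1) ^ 2 = 0 := by
      nlinarith [sq_nonneg ((p o₃).1 - (p o₁).1), sq_nonneg ((p o₃).2 - (p o₁).2)]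
    have e2 : ((p o₃).2 - (p o₁).2) ^ 2 = 0 := by
      nlinarith [sq_nonneg ((p o₃).1 - (p o₁).1), sq_nonneg ((p o₃).2 - (p o₁).2)]
    have e3 : (p o₃).1 - (p o₁).1 = 0 := by simpa using e1
    have e4 : (p o₃).2 - (p o₁).2 = 0 := by simpa using e2
    unfold crs at hneg
    rw [e3, e4] at hneg
    simp at hneg
  have hq : (((p w).1 + ((p o₃).2 - (p o₁).2), (p w).2 - ((p o₃).1 - (p o₁).1)) : ℝ × ℝ) ≠ p w := by
    intro h
    have e1 := congrArg Prod.fst h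
    have e2 := congrArg Prod.snd h
    simp only at e1 e2
    have e3 : (p o₃).2 - (p o₁).2 = 0 := by linarith
    have e4 : (p o₃).1 - (p o₁).1 = 0 := by linarith
    rw [e3, e4] at hL
    simp at hL
  obtain ⟨x, y, hxy, hx, hy⟩ := cov_inner hpos (exists_nbr hd.1 w) hq
  have hx' := hw x trivial
  have hy' := hw y trivial
  have hwxy := hpos x y hxy
  have key : crs (p w) (p x) (p y) * (-(((p o₃).1 - (p o₁).1) ^ 2 + ((p o₃).2 - (p o₁).2) ^ 2)) =
      crs (p w) ((p w).1 + ((p o₃).2 - (p o₁).2), (p w).2 - ((p o₃).1 - (p o₁).1)) (p y) *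
        (crs (p o₁) (p o₃) (p x) - crs (p o₁) (p o₃) (p w)) +
      crs (p w) (p x) ((p w).1 + ((p o₃).2 - (p o₁).2), (p w).2 - ((p o₃).1 - (p o₁).1)) *
        (crs (p o₁) (p o₃) (p y) - crs (p o₁) (p o₃) (p w)) := by
    unfold crs; ring
  have t1 := mul_nonneg hy.le (sub_nonneg.2 hx')
  have t2 := mul_nonneg hx (sub_nonneg.2 hy')
  have t3 := mul_pos hwxy hL
  linarith

theorem bary3 (a b c q u v : ℝ × ℝ) : crs a b c * crs u v q =
    crs b c q * crs u v a + crs c a q * crs u v b + crs a b q * crs u v c := by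
  unfold crs; ring

theorem claimC' (hd : Drawn T o₁ o₂ o₃ p) {a b c : V} (hpos : 0 < crs (p a) (p b) (p c))
    {q : ℝ × ℝ} (hq : InO (p a) (p b) (p c) q) : 0 ≤ crs (p o₁) (p o₃) q := by
  have h := bary3 (p a) (p b) (p c) q (p o₁) (p o₃)
  have h1 := mul_nonneg hq.2.1.le (claimC hd a)
  have h2 := mul_nonneg hq.2.2.le (claimC hd b)
  have h3 := mul_nonneg hq.1.le (claimC hd c)
  have h4 : 0 ≤ crs (p a) (p b) (p c) * crs (p o₁) (p o₃) q := by linarith
  exact nonneg_of_mul_nonneg_right h4 hpos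

theorem cov_outer (hd : Drawn T o₁ o₂ o₃ p) {q : ℝ × ℝ} (h1 : 0 ≤ crs (p o₁) (p o₃) q)
    (h2 : 0 ≤ crs (p o₂) (p o₁) q) :
    ∃ x y, T.F o₁ x y ∧ ¬ IsRot o₁ o₂ o₃ o₁ x y ∧ 0 ≤ crs (p o₁) (p x) q ∧
      0 ≤ crs (p o₁) q (p y) := by
  have n12 := T.ne _ _ _ hd.1
  have n23 := T.ne _ _ _ (T.rot _ _ _ hd.1)
  have n31 := T.ne _ _ _ (T.rot _ _ _ (T.rot _ _ _ hd.1))
  obtain ⟨d, hd'⟩ := nbr_next hd.1
  obtain ⟨x, y, hxy, hx, hy⟩ := step_exists (T.link o₁ o₃ d o₂ o₃ hd' hd.1)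
    (fun x => 0 ≤ crs (p o₁) (p x) q ∧ x ≠ o₂) ⟨h1, n23.symm⟩ (fun h => h.2 rfl)
  refine ⟨x, y, hxy, ?_, hx.1, ?_⟩
  · rintro (⟨_, h, _⟩ | ⟨h, _, _⟩ | ⟨h, _, _⟩)
    · exact hx.2 h
    · exact n12 h
    · exact n31 h.symm
  · by_cases hy2 : y = o₂
    · rw [hy2, ← crs_rot, ← crs_rot]
      exact h2
    · have h3 : ¬ 0 ≤ crs (p o₁) (p y) q := fun h => hy ⟨h, hy2⟩
      rw [crs_swap']
      linarith [not_le.1 h3]

theorem cov (hd : Drawn T o₁ o₂ o₃ p) {a b c : V} (h : T.F a b c) (hn : ¬ IsRot o₁ o₂ o₃ a b c)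
    {q : ℝ × ℝ} (hq : InO (p a) (p b) (p c) q) (w : V) (hqw : q ≠ p w) :
    ∃ x y, T.F w x y ∧ ¬ IsRot o₁ o₂ o₃ w x y ∧ 0 ≤ crs (p w) (p x) q ∧
      0 ≤ crs (p w) q (p y) := by
  have hpos := hd.2.2 _ _ _ h hn
  have hd2 := drawn_rot hd
  have hd3 := drawn_rot hd2
  have c1 := claimC' hd hpos hq
  have c2 := claimC' hd2 hpos hq
  have c3 := claimC' hd3 hpos hq
  by_cases h1 : w = o₁
  · rw [h1]
    exact cov_outer hd c1 c2
  by_cases h2 : w = o₂
  · rw [h2]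
    obtain ⟨x, y, g1, g2, g3, g4⟩ := cov_outer hd2 c2 c3
    exact ⟨x, y, g1, fun hr => g2 (isRot_rot'.2 hr), g3, g4⟩
  by_cases h3 : w = o₃
  · rw [h3]
    obtain ⟨x, y, g1, g2, g3, g4⟩ := cov_outer hd3 c3 c1
    exact ⟨x, y, g1, fun hr => g2 (isRot_rot'.2 (isRot_rot'.2 hr)), g3, g4⟩
  obtain ⟨x, y, g1, g2, g3⟩ := cov_inner (T := T) (p := p) (w := w)
    (fun x y h => hd.2.2 _ _ _ h (inner_pos hd h1 h2 h3 x y h)) (exists_nbr hd.1 w) hqw
  exact ⟨x, y, g1, inner_pos hd h1 h2 h3 x y g1, g2, g3.le⟩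

/-- a point of the open triangle different from a given point -/
theorem exists_InO {a b c : ℝ × ℝ} (h : 0 < crs a b c) (w : ℝ × ℝ) : ∃ q, InO a b c q ∧ q ≠ w := by
  by_cases hw : w = ((a.1 + b.1 + c.1) / 3, (a.2 + b.2 + c.2) / 3)
  · have hc := centroid_in h
    have ha : InC a b c a := by
      refine ⟨by rw [crs_self], ?_, by rw [crs_self']⟩
      rw [crs_rot]; exact h.le
    refine ⟨mix (1 / 2) a ((a.1 + b.1 + c.1) / 3, (a.2 + b.2 + c.2) / 3),
      mix_InO ha hc (by norm_num) (by norm_num), ?_⟩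
    intro hcon
    rw [hw] at hcon
    have e1 := congrArg Prod.fst hcon
    have e2 := congrArg Prod.snd hcon
    simp only [mix] at e1 e2
    have f1 : b.1 - a.1 + (c.1 - a.1) = 0 := by linarith
    have f2 : b.2 - a.2 + (c.2 - a.2) = 0 := by linarith
    unfold crs at h
    have g1 : c.1 - a.1 = -(b.1 - a.1) := by linarith
    have g2 : c.2 - a.2 = -(b.2 - a.2) := by linarith
    rw [g1, g2] at h
    linarith
  · exact ⟨_, centroid_in h, fun h => hw h.symm⟩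

/-- vertices in closed faces -/
theorem propV (hd : Drawn T o₁ o₂ o₃ p) {a b c : V} (h : T.F a b c)
    (hn : ¬ IsRot o₁ o₂ o₃ a b c) (w : V) (hw : InC (p a) (p b) (p c) (p w)) :
    w = a ∨ w = b ∨ w = c := by
  have hpos := hd.2.2 _ _ _ h hn
  obtain ⟨q, hq, hqw⟩ := exists_InO hpos (p w)
  obtain ⟨x, y, g1, g2, g3, g4⟩ := cov hd h hn hq w hqw
  have hwxy := hd.2.2 _ _ _ g1 g2
  have hr := glue hd h hn g1 g2 hw hq
    (Or.inr ⟨by rw [crs_self], g3⟩)
    (Or.inl (by rw [crs_rot]; exact hwxy))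
    (Or.inr ⟨by rw [crs_self'], by rw [← crs_rot]; exact g4⟩)
  rcases hr with ⟨h, _, _⟩ | ⟨h, _, _⟩ | ⟨h, _, _⟩
  · exact Or.inl h
  · exact Or.inr (Or.inl h)
  · exact Or.inr (Or.inr h)

theorem edgeE1 (hd : Drawn T o₁ o₂ o₃ p) {a b c : V} (h : T.F a b c)
    (hn : ¬ IsRot o₁ o₂ o₃ a b c) {u v d : V} (h' : T.F u v d) (hn' : ¬ IsRot o₁ o₂ o₃ u v d)
    {t : ℝ} (ht : 0 < t) (ht1 : t < 1) (hz : InC (p a) (p b) (p c) (mix t (p u) (p v)))
    {q : ℝ × ℝ} (hq : InO (p a) (p b) (p c) q) (hs : 0 ≤ crs (p u) (p v) q) :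
    IsRot a b c u v d := by
  have hpos := hd.2.2 _ _ _ h' hn'
  refine glue hd h hn h' hn' hz hq (Or.inr ⟨?_, hs⟩) (Or.inl ?_) (Or.inl ?_)
  · rw [crs_mix, crs_self, crs_self']; simp
  · rw [crs_mix, crs_self, crs_rot]
    simp only [mul_zero, add_zero]
    exact mul_pos (by linarith) hpos
  · rw [crs_mix, crs_self', ← crs_rot]
    simp only [mul_zero, zero_add]
    exact mul_pos ht hpos

theorem outer_sign (hd : Drawn T o₁ o₂ o₃ p) {a b c : V} (hpos : 0 < crs (p a) (p b) (p c))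
    {q : ℝ × ℝ} (hq : InO (p a) (p b) (p c) q) {u v d : V} (hr : IsRot o₁ o₂ o₃ u v d) :
    crs (p u) (p v) q ≤ 0 := by
  have hd2 := drawn_rot hd
  have hd3 := drawn_rot hd2
  have c1 := claimC' hd hpos hq
  have c2 := claimC' hd2 hpos hq
  have c3 := claimC' hd3 hpos hq
  rcases hr with ⟨rfl, rfl, rfl⟩ | ⟨rfl, rfl, rfl⟩ | ⟨rfl, rfl, rfl⟩
  · rw [crs_swap]; linarith
  · rw [crs_swap]; linarith
  · rw [crs_swap]; linarith

theorem not_both (hd : Drawn T o₁ o₂ o₃ p) {u v c d : V} (h1 : IsRot o₁ o₂ o₃ u v c)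
    (h2 : IsRot o₁ o₂ o₃ v u d) : False := by
  have n12 := T.ne _ _ _ hd.1
  have n23 := T.ne _ _ _ (T.rot _ _ _ hd.1)
  have n31 := T.ne _ _ _ (T.rot _ _ _ (T.rot _ _ _ hd.1))
  rcases h1 with ⟨rfl, rfl, rfl⟩ | ⟨rfl, rfl, rfl⟩ | ⟨rfl, rfl, rfl⟩ <;>
    rcases h2 with ⟨h3, h4, h5⟩ | ⟨h3, h4, h5⟩ | ⟨h3, h4, h5⟩ <;>
    first
    | exact n12 h3 | exact n12 h3.symm | exact n23 h3 | exact n23 h3.symm | exact n31 h3
    | exact n31 h3.symm | exact n12 h4 | exact n12 h4.symm | exact n23 h4 | exact n23 h4.symm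
    | exact n31 h4 | exact n31 h4.symm

/-- points of open edges in closed faces -/
theorem propE (hd : Drawn T o₁ o₂ o₃ p) {a b c : V} (h : T.F a b c)
    (hn : ¬ IsRot o₁ o₂ o₃ a b c) {u v : V} (huv : T.G.Adj u v)
    {t : ℝ} (ht : 0 < t) (ht1 : t < 1) (hz : InC (p a) (p b) (p c) (mix t (p u) (p v))) :
    (u = a ∨ u = b ∨ u = c) ∧ (v = a ∨ v = b ∨ v = c) := by
  have hpos := hd.2.2 _ _ _ h hn
  obtain ⟨q, hq, -⟩ := exists_InO hpos (p a)
  obtain ⟨d, hd1⟩ := huv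
  obtain ⟨e, he1⟩ := T.opp _ _ _ hd1
  have hfin1 : ∀ {x y z : V}, IsRot a b c x y z → (x = a ∨ x = b ∨ x = c) ∧
      (y = a ∨ y = b ∨ y = c) := by
    intro x y z hr
    rcases hr with ⟨h1, h2, h3⟩ | ⟨h1, h2, h3⟩ | ⟨h1, h2, h3⟩
    · exact ⟨Or.inl h1, Or.inr (Or.inl h2)⟩
    · exact ⟨Or.inr (Or.inl h1), Or.inr (Or.inr h2)⟩
    · exact ⟨Or.inr (Or.inr h1), Or.inl h2⟩
  have hz' : InC (p a) (p b) (p c) (mix (1 - t) (p v) (p u)) := by
    have e : mix (1 - t) (p v) (p u) = mix t (p u) (p v) := by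
      unfold mix
      ext
      · simp only; ring
      · simp only; ring
    rw [e]; exact hz
  have main1 : ¬ IsRot o₁ o₂ o₃ u v d → 0 ≤ crs (p u) (p v) q →
      (u = a ∨ u = b ∨ u = c) ∧ (v = a ∨ v = b ∨ v = c) := fun h1 h2 =>
    hfin1 (edgeE1 hd h hn hd1 h1 ht ht1 hz hq h2)
  have main2 : ¬ IsRot o₁ o₂ o₃ v u e → 0 ≤ crs (p v) (p u) q →
      (u = a ∨ u = b ∨ u = c) ∧ (v = a ∨ v = b ∨ v = c) := fun h1 h2 =>
    (hfin1 (edgeE1 hd h hn he1 h1 (by linarith) (by linarith) hz' hq h2)).symm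
  by_cases k1 : IsRot o₁ o₂ o₃ u v d
  · have k2 : ¬ IsRot o₁ o₂ o₃ v u e := fun k => not_both hd k1 k
    have k3 := outer_sign hd hpos hq k1
    exact main2 k2 (by rw [crs_swap]; linarith)
  · by_cases k2 : IsRot o₁ o₂ o₃ v u e
    · have k3 := outer_sign hd hpos hq k2
      exact main1 k1 (by rw [crs_swap]; linarith)
    · rcases le_or_gt 0 (crs (p u) (p v) q) with k3 | k3
      · exact main1 k1 k3
      · exact main2 k2 (by rw [crs_swap]; linarith)

theorem inner_face (hd : Drawn T o₁ o₂ o₃ p) {x y : V} (h : T.G.Adj x y) :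
    (∃ c, T.F x y c ∧ ¬ IsRot o₁ o₂ o₃ x y c) ∨ (∃ c, T.F y x c ∧ ¬ IsRot o₁ o₂ o₃ y x c) := by
  obtain ⟨d, hd1⟩ := h
  obtain ⟨e, he1⟩ := T.opp _ _ _ hd1
  by_cases k1 : IsRot o₁ o₂ o₃ x y d
  · exact Or.inr ⟨e, he1, fun k => not_both hd k1 k⟩
  · exact Or.inl ⟨d, hd1, k1⟩

theorem inner_face_v (hd : Drawn T o₁ o₂ o₃ p) (x : V) :
    ∃ b c, T.F x b c ∧ ¬ IsRot o₁ o₂ o₃ x b c := by
  obtain ⟨y, z, hy⟩ := exists_nbr hd.1 x
  rcases inner_face hd (x := x) (y := y) ⟨z, hy⟩ with ⟨c, h1, h2⟩ | ⟨c, h1, h2⟩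
  · exact ⟨y, c, h1, h2⟩
  · exact ⟨c, y, T.rot _ _ _ h1, fun hr => h2 (isRot_rot.1 hr)⟩

theorem inj (hd : Drawn T o₁ o₂ o₃ p) : Function.Injective p := by
  intro u x hux
  by_contra hne
  obtain ⟨b, c, h1, h2⟩ := inner_face_v hd x
  have hpos := hd.2.2 _ _ _ h1 h2
  have hC : InC (p x) (p b) (p c) (p u) := by
    rw [hux]
    refine ⟨by rw [crs_self], ?_, by rw [crs_self']⟩
    rw [crs_rot]; exact hpos.le
  rcases propV hd h1 h2 u hC with h | h | h
  · exact hne h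
  · rw [← h, hux] at hpos
    unfold crs at hpos; simp at hpos
  · rw [← h, hux, crs_self] at hpos
    exact lt_irrefl _ hpos

theorem seg_edge (hd : Drawn T o₁ o₂ o₃ p) {x y c : V} (hf : T.F x y c)
    (hn : ¬ IsRot o₁ o₂ o₃ x y c) {u v : V} (huv : T.G.Adj u v) (hne : s(u, v) ≠ s(x, y))
    {z : ℝ × ℝ} (hz1 : z ∈ segment ℝ (p u) (p v)) (hz2 : z ∈ segment ℝ (p x) (p y)) :
    ∃ w : V, (w = u ∨ w = v) ∧ (w = x ∨ w = y) ∧ z = p w := by
  have hpos := hd.2.2 _ _ _ hf hn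
  obtain ⟨s, hs0, hs1, hs⟩ := mem_seg hz2
  have hxyz : crs (p x) (p y) z = 0 := by
    rw [hs, crs_mix, crs_self, crs_self']; simp
  have hC : InC (p x) (p y) (p c) z := by
    refine ⟨hxyz.ge, ?_, ?_⟩
    · rw [hs, crs_mix, crs_self, crs_rot]
      simp only [mul_zero, add_zero]
      exact mul_nonneg (by linarith) hpos.le
    · rw [hs, crs_mix, crs_self', ← crs_rot]
      simp only [mul_zero, zero_add]
      exact mul_nonneg hs0 hpos.le
  have hend : ∀ w, (w = u ∨ w = v) → z = p w →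
      ∃ w : V, (w = u ∨ w = v) ∧ (w = x ∨ w = y) ∧ z = p w := by
    intro w hw hzw
    rw [hzw] at hC
    rcases propV hd hf hn w hC with h | h | h
    · exact ⟨w, hw, Or.inl h, hzw⟩
    · exact ⟨w, hw, Or.inr h, hzw⟩
    · exfalso
      rw [hzw, h] at hxyz
      linarith
  obtain ⟨t, ht0, ht1, ht⟩ := mem_seg hz1
  rcases ht0.eq_or_lt with h0 | h0
  · refine hend u (Or.inl rfl) ?_
    rw [ht, ← h0]
    unfold mix
    ext <;> simp
  rcases ht1.eq_or_lt with h1 | h1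
  · refine hend v (Or.inr rfl) ?_
    rw [ht, h1]
    unfold mix
    ext <;> simp
  exfalso
  rw [ht] at hC
  obtain ⟨k1, k2⟩ := propE hd hf hn huv h0 h1 hC
  have huv' : u ≠ v := huv.ne
  rw [ht, crs_mix] at hxyz
  have h1' : 0 < 1 - t := by linarith
  have m1 := mul_pos h0 hpos
  have m2 := mul_pos h1' hpos
  rcases k1 with rfl | rfl | rfl
  · rcases k2 with rfl | rfl | rfl
    · exact huv' rfl
    · exact hne rfl
    · rw [crs_self] at hxyz; linarith
  · rcases k2 with rfl | rfl | rfl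
    · exact hne Sym2.eq_swap
    · exact huv' rfl
    · rw [crs_self'] at hxyz; linarith
  · rcases k2 with rfl | rfl | rfl
    · rw [crs_self] at hxyz; linarith
    · rw [crs_self'] at hxyz; linarith
    · exact huv' rfl

end

end W_PLANE

open W_PLANE in
theorem PLANE {V : Type} [Finite V] (T : Tri V) (o₁ o₂ o₃ : V) (p : V → ℝ × ℝ) (hd : Drawn T o₁ o₂ o₃ p) : Plane T.G p := by
  have hinj := inj hd
  refine ⟨hinj, ?_, ?_⟩
  · intro u v w huv hwu hwv hw
    obtain ⟨t, ht0, ht1, ht⟩ := mem_seg hw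
    have h0 : 0 < t := by
      rcases ht0.eq_or_lt with h | h
      · exfalso
        apply hwu
        apply hinj
        rw [ht, ← h]
        unfold mix
        ext <;> simp
      · exact h
    have h1 : t < 1 := by
      rcases ht1.eq_or_lt with h | h
      · exfalso
        apply hwv
        apply hinj
        rw [ht, h]
        unfold mix
        ext <;> simp
      · exact h
    obtain ⟨b, c, k1, k2⟩ := inner_face_v hd w
    have hpos := hd.2.2 _ _ _ k1 k2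
    have hC : InC (p w) (p b) (p c) (mix t (p u) (p v)) := by
      rw [← ht]
      refine ⟨by rw [crs_self], ?_, by rw [crs_self']⟩
      rw [crs_rot]; exact hpos.le
    obtain ⟨m1, m2⟩ := propE hd k1 k2 huv h0 h1 hC
    have huv' : u ≠ v := huv.ne
    have hz : crs (p u) (p v) (p w) = 0 := by
      rw [ht, crs_mix, crs_self, crs_self']; simp
    rcases m1 with m1 | m1 | m1
    · exact hwu m1.symm
    · rcases m2 with m2 | m2 | m2
      · exact hwv m2.symm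
      · exact huv' (m1.trans m2.symm)
      · rw [← m1, ← m2, ← crs_rot] at hpos
        linarith
    · rcases m2 with m2 | m2 | m2
      · exact hwv m2.symm
      · rw [← m1, ← m2, ← crs_rot, crs_swap] at hpos
        linarith
      · exact huv' (m1.trans m2.symm)
  · intro u v x y huv hxy hne z hz1 hz2
    rcases inner_face hd hxy with ⟨c, k1, k2⟩ | ⟨c, k1, k2⟩
    · exact seg_edge hd k1 k2 huv hne hz1 hz2
    · obtain ⟨w, w1, w2, w3⟩ := seg_edge hd k1 k2 huv (by rwa [Sym2.eq_swap (a := y)]) hz1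
        (by rwa [segment_symm])
      exact ⟨w, w1, w2.symm, w3⟩


end Pool.Agent.H891WLC
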