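import Pool.Agent.H891WLC.Defs

set_option autoImplicit false

namespace Pool.Agent.H891WLC

namespace W_TG1

/-- point of the segment -/
def sg (x y : ℝ × ℝ) (t : ℝ) : ℝ × ℝ := ((1 - t) * x.1 + t * y.1, (1 - t) * x.2 + t * y.2)

theorem mem_seg {x y z : ℝ × ℝ} : z ∈ segment ℝ x y ↔ ∃ t, 0 ≤ t ∧ t ≤ 1 ∧ z = sg x y t := by
  constructor
  · rintro ⟨a, b, ha, hb, hab, rfl⟩
    refine ⟨b, hb, by linarith, ?_⟩
    have : a = 1 - b := by linarith
    subst this
    ext <;> simp [sg]
  · rintro ⟨t, h0, h1, rfl⟩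
    exact ⟨1 - t, t, by linarith, h0, by ring, by ext <;> simp [sg]⟩

/-- affine functions of the plane -/
def Aff (f : ℝ × ℝ → ℝ) : Prop := ∃ c0 c1 c2 : ℝ, ∀ x, f x = c0 + c1 * x.1 + c2 * x.2

theorem Aff.sg {f : ℝ × ℝ → ℝ} (h : Aff f) (x y : ℝ × ℝ) (t : ℝ) :
    f (sg x y t) = (1 - t) * f x + t * f y := by
  obtain ⟨c0, c1, c2, h⟩ := h
  rw [h, h, h]; unfold W_TG1.sg; ring

theorem aff_fst : Aff (fun x => x.1) := ⟨0, 1, 0, fun x => by ring⟩
theorem aff_snd : Aff (fun x => x.2) := ⟨0, 0, 1, fun x => by ring⟩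

theorem aff_crs (a b : ℝ × ℝ) : Aff (crs a b) :=
  ⟨-(b.1 - a.1) * a.2 + (b.2 - a.2) * a.1, -(b.2 - a.2), b.1 - a.1, fun x => by unfold crs; ring⟩

theorem aff_crs2 (a p : ℝ × ℝ) : Aff (fun x => crs a x p) :=
  ⟨-a.1 * (p.2 - a.2) + a.2 * (p.1 - a.1), p.2 - a.2, -(p.1 - a.1), fun x => by unfold crs; ring⟩

theorem Aff.smul {f : ℝ × ℝ → ℝ} (h : Aff f) (c : ℝ) : Aff (fun x => f x * c) := by
  obtain ⟨c0, c1, c2, h⟩ := h
  exact ⟨c0 * c, c1 * c, c2 * c, fun x => by show f x * c = _; rw [h]; ring⟩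

theorem Aff.add {f g : ℝ × ℝ → ℝ} (h : Aff f) (h' : Aff g) : Aff (fun x => f x + g x) := by
  obtain ⟨c0, c1, c2, h⟩ := h
  obtain ⟨d0, d1, d2, h'⟩ := h'
  exact ⟨c0 + d0, c1 + d1, c2 + d2, fun x => by show f x + g x = _; rw [h, h']; ring⟩

/-- affine coordinates -/
structure Crd (A Z Q : ℝ × ℝ) (u v : ℝ × ℝ → ℝ) : Prop where
  au : Aff u
  av : Aff v
  uA : u A = 0
  vA : v A = 0
  uZ : u Z = 1
  vZ : v Z = 0
  uQ : u Q = 0
  vQ : v Q = 1
  rep : ∀ f, Aff f → ∀ x, f x = (1 - u x - v x) * f A + u x * f Z + v x * f Q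

theorem crd_ex (A Z Q : ℝ × ℝ) (h : crs A Z Q ≠ 0) : ∃ u v, Crd A Z Q u v := by
  refine ⟨fun x => crs A x Q * (crs A Z Q)⁻¹, fun x => crs A Z x * (crs A Z Q)⁻¹,
    (aff_crs2 A Q).smul _, (aff_crs A Z).smul _, ?_, ?_, ?_, ?_, ?_, ?_, ?_⟩
  · show crs A A Q * (crs A Z Q)⁻¹ = 0
    have : crs A A Q = 0 := by unfold crs; ring
    rw [this, zero_mul]
  · show crs A Z A * (crs A Z Q)⁻¹ = 0
    have : crs A Z A = 0 := by unfold crs; ring
    rw [this, zero_mul]
  · show crs A Z Q * (crs A Z Q)⁻¹ = 1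
    exact mul_inv_cancel₀ h
  · show crs A Z Z * (crs A Z Q)⁻¹ = 0
    have : crs A Z Z = 0 := by unfold crs; ring
    rw [this, zero_mul]
  · show crs A Q Q * (crs A Z Q)⁻¹ = 0
    have : crs A Q Q = 0 := by unfold crs; ring
    rw [this, zero_mul]
  · show crs A Z Q * (crs A Z Q)⁻¹ = 1
    exact mul_inv_cancel₀ h
  · rintro f ⟨c0, c1, c2, hf⟩ x
    rw [hf, hf, hf, hf]
    field_simp
    unfold crs
    ring

variable {A Z Q : ℝ × ℝ} {u v : ℝ × ℝ → ℝ}

theorem Crd.inj (h : Crd A Z Q u v) {x y : ℝ × ℝ} (hu : u x = u y) (hv : v x = v y) : x = y := by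
  have h1 := h.rep _ aff_fst x
  have h2 := h.rep _ aff_fst y
  have h3 := h.rep _ aff_snd x
  have h4 := h.rep _ aff_snd y
  rw [hu, hv, ← h2] at h1
  rw [hu, hv, ← h4] at h3
  exact Prod.ext h1 h3

theorem sg_zero (x y : ℝ × ℝ) : sg x y 0 = x := by ext <;> simp [sg]
theorem sg_one (x y : ℝ × ℝ) : sg x y 1 = y := by ext <;> simp [sg]

theorem sg_sg_left (x y : ℝ × ℝ) (s t : ℝ) : sg x (sg x y s) t = sg x y (s * t) := by
  unfold sg; ext <;> simp only [] <;> ring

theorem sg_sg (x y : ℝ × ℝ) (s r t : ℝ) : sg (sg x y s) (sg x y r) t = sg x y ((1 - t) * s + t * r) := by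
  unfold sg; ext <;> simp only [] <;> ring

theorem sg_swap (x y : ℝ × ℝ) (s : ℝ) : sg x y s = sg y x (1 - s) := by
  unfold sg; ext <;> simp only [] <;> ring

theorem sg_inj {x y : ℝ × ℝ} (h : x ≠ y) {s t : ℝ} (hst : sg x y s = sg x y t) : s = t := by
  by_contra hne
  apply h
  have h1 := congrArg Prod.fst hst
  have h2 := congrArg Prod.snd hst
  simp only [sg] at h1 h2
  have e1 : (s - t) * (y.1 - x.1) = 0 := by linear_combination h1
  have e2 : (s - t) * (y.2 - x.2) = 0 := by linear_combination h2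
  have hne' : s - t ≠ 0 := sub_ne_zero.2 hne
  have f1 := (mul_eq_zero.1 e1).resolve_left hne'
  have f2 := (mul_eq_zero.1 e2).resolve_left hne'
  exact Prod.ext (by linarith) (by linarith)

/-- a collinear point -/
theorem line_param {x y w : ℝ × ℝ} (h : x ≠ y) (hc : crs x y w = 0) : ∃ t, w = sg x y t := by
  unfold crs at hc
  by_cases h1 : y.1 - x.1 = 0
  · have h2 : y.2 - x.2 ≠ 0 := by
      intro h2
      apply h
      exact Prod.ext (by linarith) (by linarith)
    refine ⟨(w.2 - x.2) / (y.2 - x.2), ?_⟩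
    rw [h1, zero_mul, zero_sub, neg_eq_zero] at hc
    have h3 := (mul_eq_zero.1 hc).resolve_left h2
    unfold sg
    refine Prod.ext ?_ ?_
    · simp only []
      have e1 : w.1 = x.1 := by linarith
      have e2 : y.1 = x.1 := by linarith
      rw [e1, e2]; ring
    · simp only []
      field_simp
      ring
  · refine ⟨(w.1 - x.1) / (y.1 - x.1), ?_⟩
    unfold sg
    refine Prod.ext ?_ ?_
    · simp only []
      field_simp
      ring
    · simp only []
      field_simp
      linear_combination hc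

theorem exit_lem (f1 f2 g1 g2 : ℝ) (h1 : 0 < f1) (h2 : 0 < f2) (h : g1 < 0 ∨ g2 < 0) :
    ∃ t, 0 < t ∧ t < 1 ∧ (((1 - t) * f1 + t * g1 = 0 ∧ 0 ≤ (1 - t) * f2 + t * g2) ∨
      ((1 - t) * f2 + t * g2 = 0 ∧ 0 ≤ (1 - t) * f1 + t * g1)) := by
  by_cases hg1 : g1 < 0
  · obtain ⟨t1, ht1⟩ : ∃ t1, t1 = f1 / (f1 - g1) := ⟨_, rfl⟩
    have hd1 : 0 < f1 - g1 := by linarith
    have e1 : t1 * (f1 - g1) = f1 := by rw [ht1]; field_simp
    have a1 : 0 < t1 := by rw [ht1]; positivity
    have b1 : t1 < 1 := by rw [ht1, div_lt_one hd1]; linarith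
    by_cases hc : 0 ≤ (1 - t1) * f2 + t1 * g2
    · exact ⟨t1, a1, b1, Or.inl ⟨by linarith, hc⟩⟩
    · push Not at hc
      have hg2 : g2 < 0 := by
        by_contra hg
        push Not at hg
        nlinarith [mul_nonneg a1.le hg, mul_pos (sub_pos.2 b1) h2]
      obtain ⟨t2, ht2⟩ : ∃ t2, t2 = f2 / (f2 - g2) := ⟨_, rfl⟩
      have hd2 : 0 < f2 - g2 := by linarith
      have e2 : t2 * (f2 - g2) = f2 := by rw [ht2]; field_simp
      have a2 : 0 < t2 := by rw [ht2]; positivity
      have b2 : t2 < 1 := by rw [ht2, div_lt_one hd2]; linarith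
      refine ⟨t2, a2, b2, Or.inr ⟨by linarith, ?_⟩⟩
      have h3 : t2 < t1 := by
        have : t2 * (f2 - g2) < t1 * (f2 - g2) := by rw [e2]; linarith
        exact lt_of_mul_lt_mul_right this hd2.le
      nlinarith
  · have hg2 : g2 < 0 := h.resolve_left hg1
    push Not at hg1
    obtain ⟨t2, ht2⟩ : ∃ t2, t2 = f2 / (f2 - g2) := ⟨_, rfl⟩
    have hd2 : 0 < f2 - g2 := by linarith
    have e2 : t2 * (f2 - g2) = f2 := by rw [ht2]; field_simp
    have a2 : 0 < t2 := by rw [ht2]; positivity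
    have b2 : t2 < 1 := by rw [ht2, div_lt_one hd2]; linarith
    refine ⟨t2, a2, b2, Or.inr ⟨by linarith, ?_⟩⟩
    have := mul_nonneg a2.le hg1
    have := mul_pos (sub_pos.2 b2) h1
    linarith

/-- maximal plane graph -/
structure Mx {V : Type} (G : SimpleGraph V) (P : V → ℝ × ℝ) : Prop where
  inj : Function.Injective P
  pl2 : ∀ x y w, G.Adj x y → w ≠ x → w ≠ y → ∀ t, 0 ≤ t → t ≤ 1 → P w ≠ sg (P x) (P y) t
  pl3 : ∀ x y p q, G.Adj x y → G.Adj p q → s(x, y) ≠ s(p, q) → ∀ s t, 0 ≤ s → s ≤ 1 → 0 ≤ t → t ≤ 1 →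
    sg (P x) (P y) s = sg (P p) (P q) t → ∃ w, (w = x ∨ w = y) ∧ sg (P x) (P y) s = P w
  free : ∀ a b, a ≠ b → (∀ w t, 0 < t → t < 1 → P w ≠ sg (P a) (P b) t) →
    (∀ x y, G.Adj x y → ∀ t s, 0 < t → t < 1 → 0 ≤ s → s ≤ 1 → sg (P a) (P b) t ≠ sg (P x) (P y) s) →
    G.Adj a b

variable {V : Type} [Finite V] {G : SimpleGraph V} {P : V → ℝ × ℝ}

theorem Crd.eq_sg_AZ (h : Crd A Z Q u v) {x : ℝ × ℝ} (hv : v x = 0) : x = sg A Z (u x) := by
  apply h.inj
  · rw [h.au.sg, h.uA, h.uZ]; ring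
  · rw [h.av.sg, h.vA, h.vZ, hv]; ring

theorem Crd.eq_sg_AQ (h : Crd A Z Q u v) {x : ℝ × ℝ} (hu : u x = 0) : x = sg A Q (v x) := by
  apply h.inj
  · rw [h.au.sg, h.uA, h.uQ, hu]; ring
  · rw [h.av.sg, h.vA, h.vQ]; ring

theorem Crd.eq_sg_ZQ (h : Crd A Z Q u v) {x : ℝ × ℝ} (hs : u x + v x = 1) : x = sg Z Q (v x) := by
  apply h.inj
  · rw [h.au.sg, h.uZ, h.uQ]; linarith
  · rw [h.av.sg, h.vZ, h.vQ]; ring

/-- noncollinearity of the blocked ray and the blocking edge -/
theorem keyNC (M : Mx G P) (a p q : V) (z : ℝ × ℝ) (hpq : G.Adj p q) (hpa : p ≠ a) (hqa : q ≠ a)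
    (s : ℝ) (hs0 : 0 < s) (hs1 : s < 1) (hz : z = sg (P p) (P q) s) (hzv : ∀ w, P w ≠ z)
    (hfv : ∀ w t, 0 < t → t < 1 → P w ≠ sg (P a) z t) : crs (P a) z (P p) ≠ 0 := by
  intro h0
  have hAz : P a ≠ z := hzv a
  obtain ⟨α, hα⟩ := line_param hAz h0
  have h1 : crs (P a) z (P q) = 0 := by
    have e := (aff_crs (P a) z).sg (P p) (P q) s
    rw [← hz, h0] at e
    have e2 : crs (P a) z z = 0 := by unfold crs; ring
    rw [e2] at e
    have e3 : s * crs (P a) z (P q) = 0 := by linarith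
    exact (mul_eq_zero.1 e3).resolve_left hs0.ne'
  obtain ⟨β, hβ⟩ := line_param hAz h1
  have h2 : (1:ℝ) = (1 - s) * α + s * β := by
    apply sg_inj hAz
    rw [sg_one, ← sg_sg, ← hα, ← hβ, ← hz]
  have hα1 : α ≠ 1 := by
    intro h; rw [h, sg_one] at hα; exact hzv p hα
  have gen : ∀ x y : V, G.Adj x y → x ≠ a → y ≠ a → ∀ α β : ℝ, P x = sg (P a) z α →
      P y = sg (P a) z β → α < 1 → 1 < β → False := by
    intro x y hxy hxa hya α β hx hy hα hβ
    rcases lt_trichotomy α 0 with h | h | h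
    · refine M.pl2 x y a hxy hxa.symm hya.symm (-α / (β - α))
        (div_nonneg (by linarith) (by linarith)) ?_ ?_
      · rw [div_le_one (by linarith)]; linarith
      · rw [hx, hy, sg_sg]
        have : (1 - -α / (β - α)) * α + -α / (β - α) * β = 0 := by
          have hne : β - α ≠ 0 := by linarith
          field_simp
          ring
        rw [this, sg_zero]
    · rw [h, sg_zero] at hx
      exact hxa (M.inj hx)
    · exact hfv x α h hα hx
  rcases lt_or_gt_of_ne hα1 with h | h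
  · have hb : 1 < β := by
      by_contra hb
      push Not at hb
      nlinarith
    exact gen p q hpq hpa hqa α β hα hβ h hb
  · have hb : β < 1 := by
      by_contra hb
      push Not at hb
      nlinarith
    exact gen q p hpq.symm hqa hpa β α hβ hα hb h

/-- the conclusion of the key lemma -/
def Kc (G : SimpleGraph V) (P : V → ℝ × ℝ) (a : V) (z y : ℝ × ℝ) : Prop :=
  ∃ d, G.Adj a d ∧ ∃ α β : ℝ, 0 ≤ α ∧ 0 ≤ β ∧ 0 < α + β ∧ α + β ≤ 1 ∧
    ∀ f, Aff f → f (P d) = (1 - α - β) * f (P a) + α * f z + β * f y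

theorem keyK (M : Mx G P) (a p q : V) (z : ℝ × ℝ) (hpq : G.Adj p q) (hpa : p ≠ a) (hqa : q ≠ a)
    (s : ℝ) (hs0 : 0 < s) (hs1 : s < 1) (hz : z = sg (P p) (P q) s) (hzv : ∀ w, P w ≠ z)
    (hfv : ∀ w t, 0 < t → t < 1 → P w ≠ sg (P a) z t)
    (hfe : ∀ x y, G.Adj x y → ∀ t r, 0 < t → t < 1 → 0 ≤ r → r ≤ 1 →
      sg (P a) z t ≠ sg (P x) (P y) r) : Kc G P a z (P p) := by
  have hΔ := keyNC M a p q z hpq hpa hqa s hs0 hs1 hz hzv hfv
  obtain ⟨u, v, h⟩ := crd_ex (P a) z (P p) hΔ
  -- the set of vertices in the triangle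
  have hfin : {w : V | w ≠ a ∧ 0 ≤ u (P w) ∧ 0 ≤ v (P w) ∧ u (P w) + v (P w) ≤ 1}.Finite :=
    Set.toFinite _
  have hne : {w : V | w ≠ a ∧ 0 ≤ u (P w) ∧ 0 ≤ v (P w) ∧ u (P w) + v (P w) ≤ 1}.Nonempty :=
    ⟨p, hpa, by rw [h.uQ], by rw [h.vQ]; norm_num, by rw [h.uQ, h.vQ]; norm_num⟩
  obtain ⟨d, hdT, hmin⟩ := Set.exists_min_image _
    (fun w => toLex (v (P w) / (u (P w) + v (P w)), u (P w) + v (P w))) hfin hne
  obtain ⟨hda, hdu, hdv, hduv⟩ := hdT
  have hvpos : ∀ w, w ≠ a → 0 ≤ u (P w) → 0 ≤ v (P w) → u (P w) + v (P w) ≤ 1 → 0 < v (P w) := by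
    intro w h1 h2 h3 h4
    rcases h3.lt_or_eq with h5 | h5
    · exact h5
    · exfalso
      have h6 := h.eq_sg_AZ h5.symm
      rcases h2.lt_or_eq with h7 | h7
      · rcases (by linarith : u (P w) ≤ 1).lt_or_eq with h8 | h8
        · exact hfv w _ h7 h8 h6
        · rw [h8, sg_one] at h6
          exact hzv w h6
      · rw [← h7, sg_zero] at h6
        exact h1 (M.inj h6)
  have hdv' : 0 < v (P d) := hvpos d hda hdu hdv hduv
  have hmin' : ∀ w, w ≠ a → 0 ≤ u (P w) → 0 ≤ v (P w) → u (P w) + v (P w) ≤ 1 →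
      v (P d) * u (P w) < v (P w) * u (P d) ∨ (v (P d) * u (P w) = v (P w) * u (P d) ∧
        u (P d) + v (P d) ≤ u (P w) + v (P w)) := by
    intro w h1 h2 h3 h4
    have h5 := hmin w ⟨h1, h2, h3, h4⟩
    have h6 := hvpos w h1 h2 h3 h4
    have hp1 : 0 < u (P d) + v (P d) := by linarith
    have hp2 : 0 < u (P w) + v (P w) := by linarith
    rw [Prod.Lex.toLex_le_toLex] at h5
    simp only [] at h5
    rcases h5 with h5 | ⟨h5, h7⟩
    · left
      rw [div_lt_div_iff₀ hp1 hp2] at h5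
      linarith
    · right
      rw [div_eq_div_iff hp1.ne' hp2.ne'] at h5
      exact ⟨by linarith, h7⟩
  refine ⟨d, ?_, u (P d), v (P d), hdu, hdv, by linarith, hduv, fun f hf => h.rep f hf (P d)⟩
  by_contra hnadj
  -- no vertex in the open segment
  have hA : ∀ w t, 0 < t → t < 1 → P w ≠ sg (P a) (P d) t := by
    intro w t ht0 ht1 hw
    have hu : u (P w) = t * u (P d) := by rw [hw, h.au.sg, h.uA]; ring
    have hv : v (P w) = t * v (P d) := by rw [hw, h.av.sg, h.vA]; ring
    have hwa : w ≠ a := by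
      intro e
      rw [e, h.vA] at hv
      have := mul_pos ht0 hdv'
      linarith
    have hs : u (P w) + v (P w) = t * (u (P d) + v (P d)) := by rw [hu, hv]; ring
    have hle : t * (u (P d) + v (P d)) < u (P d) + v (P d) := by nlinarith
    rcases hmin' w hwa (by rw [hu]; positivity) (by rw [hv]; positivity) (by linarith) with h5 | h5
    · rw [hu, hv] at h5
      have : v (P d) * (t * u (P d)) = t * v (P d) * u (P d) := by ring
      linarith
    · linarith [h5.2]
  have hsum : Aff (fun x => u x + v x) := h.au.add h.av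
  -- u + v = 1 on the line p q
  have hq1 : u (P q) + v (P q) = 1 := by
    have e := hsum.sg (P p) (P q) s
    rw [← hz] at e
    simp only [h.uZ, h.vZ, h.uQ, h.vQ] at e
    have e2 : s * (u (P q) + v (P q) - 1) = 0 := by linarith
    have := (mul_eq_zero.1 e2).resolve_left hs0.ne'
    linarith
  have hsame : ∀ x y : V, s(x, y) = s(p, q) → u (P x) + v (P x) = 1 ∧ u (P y) + v (P y) = 1 := by
    intro x y hxy
    rw [Sym2.eq_iff] at hxy
    rcases hxy with ⟨rfl, rfl⟩ | ⟨rfl, rfl⟩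
    · exact ⟨by rw [h.uQ, h.vQ]; norm_num, hq1⟩
    · exact ⟨hq1, by rw [h.uQ, h.vQ]; norm_num⟩
  -- no crossing towards the z side
  have hcross : ∀ x y, G.Adj x y → ∀ t r, 0 < t → t < 1 → 0 < r → r < 1 →
      sg (P a) (P d) t = sg (P x) (P y) r → 0 < v (P d) * u (P y) - u (P d) * v (P y) → False := by
    intro x y hxy t r ht0 ht1 hr0 hr1 he hm
    have hwu : u (sg (P a) (P d) t) = t * u (P d) := by rw [h.au.sg, h.uA]; ring
    have hwv : v (sg (P a) (P d) t) = t * v (P d) := by rw [h.av.sg, h.vA]; ring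
    have hws : (fun x => u x + v x) (sg (P a) (P d) t) < 1 := by
      show u (sg (P a) (P d) t) + v (sg (P a) (P d) t) < 1
      rw [hwu, hwv]
      nlinarith
    -- if x y is the edge p q : contradiction
    have hns : s(x, y) ≠ s(p, q) := by
      intro hs
      obtain ⟨e1, e2⟩ := hsame x y hs
      have e3 := hsum.sg (P x) (P y) r
      rw [← he] at e3
      simp only [e1, e2] at e3
      simp only at hws
      linarith
    by_cases hin : 0 ≤ v (P y) ∧ u (P y) + v (P y) ≤ 1
    · have huy : 0 < u (P y) := by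
        have : 0 ≤ u (P d) * v (P y) := mul_nonneg hdu hin.1
        by_contra hc
        push Not at hc
        nlinarith
      have hya : y ≠ a := by
        intro e; rw [e, h.uA] at huy; exact lt_irrefl _ huy
      rcases hmin' y hya huy.le hin.1 hin.2 with h5 | ⟨h5, -⟩
      · linarith
      · linarith
    · have hin' : v (P y) < 0 ∨ 1 - (u (P y) + v (P y)) < 0 := by
        by_contra hc
        push Not at hc
        exact hin ⟨hc.1, by linarith [hc.2]⟩
      obtain ⟨τ, hτ0, hτ1, hex⟩ := exit_lem (t * v (P d)) (1 - (t * u (P d) + t * v (P d))) _ _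
        (by positivity) (by
          have := hws
          simp only [hwu, hwv] at this
          linarith) hin'
      obtain ⟨y', hy'⟩ : ∃ y', y' = sg (sg (P a) (P d) t) (P y) τ := ⟨_, rfl⟩
      have hy'u : u y' = (1 - τ) * (t * u (P d)) + τ * u (P y) := by
        rw [hy', h.au.sg, hwu]
      have hy'v : v y' = (1 - τ) * (t * v (P d)) + τ * v (P y) := by
        rw [hy', h.av.sg, hwv]
      have hm' : 0 < v (P d) * u y' - u (P d) * v y' := by
        rw [hy'u, hy'v]
        have : v (P d) * ((1 - τ) * (t * u (P d)) + τ * u (P y)) -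
          u (P d) * ((1 - τ) * (t * v (P d)) + τ * v (P y)) =
          τ * (v (P d) * u (P y) - u (P d) * v (P y)) := by ring
        rw [this]
        positivity
      have hy'e : y' = sg (P x) (P y) ((1 - τ) * r + τ * 1) := by
        rw [hy', he, ← sg_sg, sg_one]
      have hr'0 : 0 < (1 - τ) * r + τ * 1 := by nlinarith
      have hr'1 : (1 - τ) * r + τ * 1 < 1 := by nlinarith
      have hxyP : P x ≠ P y := fun e => hxy.ne (M.inj e)
      have hy'x : y' ≠ P x := by
        intro e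
        rw [hy'e] at e
        have := sg_inj hxyP (s := (1 - τ) * r + τ * 1) (t := 0) (by rw [e, sg_zero])
        linarith
      have hy'y : y' ≠ P y := by
        intro e
        rw [hy'e] at e
        have := sg_inj hxyP (s := (1 - τ) * r + τ * 1) (t := 1) (by rw [e, sg_one])
        linarith
      have hupos : 0 ≤ v y' → 0 < u y' := by
        intro hv0
        have : 0 ≤ u (P d) * v y' := mul_nonneg hdu hv0
        by_contra hc
        push Not at hc
        nlinarith
      -- y' on p q is impossible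
      have hpqc : ∀ c, 0 ≤ c → c ≤ 1 → y' = sg (P p) (P q) c → False := by
        intro c hc0 hc1 hc
        obtain ⟨w, hw, hw2⟩ := M.pl3 x y p q hxy hpq hns _ c hr'0.le hr'1.le hc0 hc1
          (by rw [← hy'e, hc])
        rw [← hy'e] at hw2
        rcases hw with rfl | rfl
        · exact hy'x hw2
        · exact hy'y hw2
      rcases hex with ⟨e1, e2⟩ | ⟨e1, e2⟩
      · have hv0 : v y' = 0 := by rw [hy'v]; linarith
        have hs1' : u y' ≤ 1 := by
          rw [hy'u]
          have := e2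
          nlinarith
        have hu0 := hupos hv0.ge
        have h6 := h.eq_sg_AZ hv0
        rcases hs1'.lt_or_eq with h7 | h7
        · exact hfe x y hxy (u y') _ hu0 h7 hr'0.le hr'1.le (by rw [← h6, ← hy'e])
        · rw [h7, sg_one] at h6
          exact hpqc s hs0.le hs1.le (by rw [h6, hz])
      · have hs' : u y' + v y' = 1 := by rw [hy'u, hy'v]; linarith
        have hv0 : 0 ≤ v y' := by rw [hy'v]; linarith
        have hu0 := hupos hv0
        have h6 := h.eq_sg_ZQ hs'
        have h7 : sg z (P p) (v y') = sg (P p) (P q) ((1 - v y') * s) := by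
          rw [hz, sg_swap, sg_sg_left]
          ring_nf
        refine hpqc ((1 - v y') * s) (mul_nonneg (by linarith) hs0.le) ?_ (by rw [← h7]; exact h6)
        have : (1 - v y') * s ≤ 1 * s := mul_le_mul_of_nonneg_right (by linarith) hs0.le
        linarith
  -- collinear case
  have hcol : ∀ x y, G.Adj x y → ∀ t a1 a2, 0 < t → t < 1 → P x = sg (P a) (P d) a1 →
      P y = sg (P a) (P d) a2 → a1 < t → t < a2 → False := by
    intro x y hxy t a1 a2 ht0 ht1 hx hy h1 h2
    have hPad : P a ≠ P d := fun e => hda (M.inj e).symm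
    rcases lt_trichotomy a1 0 with h3 | h3 | h3
    · have hxa : x ≠ a := by
        intro e
        rw [e] at hx
        have := sg_inj hPad (s := 0) (t := a1) (by rw [sg_zero, ← hx])
        linarith
      have hya : y ≠ a := by
        intro e
        rw [e] at hy
        have := sg_inj hPad (s := 0) (t := a2) (by rw [sg_zero, ← hy])
        linarith
      refine M.pl2 x y a hxy hxa.symm hya.symm (-a1 / (a2 - a1))
        (div_nonneg (by linarith) (by linarith)) ?_ ?_
      · rw [div_le_one (by linarith)]; linarith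
      · rw [hx, hy, sg_sg]
        have : (1 - -a1 / (a2 - a1)) * a1 + -a1 / (a2 - a1) * a2 = 0 := by
          have hne : a2 - a1 ≠ 0 := by linarith
          field_simp
          ring
        rw [this, sg_zero]
    · rw [h3, sg_zero] at hx
      have hxa : x = a := M.inj hx
      subst hxa
      rcases lt_trichotomy a2 1 with h4 | h4 | h4
      · exact hA y a2 (by linarith) h4 hy
      · rw [h4, sg_one] at hy
        have hyd : y = d := M.inj hy
        subst hyd
        exact hnadj hxy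
      · have hyd : y ≠ d := by
          intro e
          rw [e] at hy
          have := sg_inj hPad (s := 1) (t := a2) (by rw [sg_one, ← hy])
          linarith
        refine M.pl2 x y d hxy hda hyd.symm (1 / a2) (by positivity) ?_ ?_
        · rw [div_le_one (by linarith)]; linarith
        · rw [hy, sg_sg_left]
          have : a2 * (1 / a2) = 1 := by field_simp
          rw [this, sg_one]
    · exact hA x a1 h3 (by linarith) hx
  apply hnadj
  refine M.free a d hda.symm hA ?_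
  intro x y hxy t r ht0 ht1 hr0 hr1 he
  have hr0' : 0 < r := by
    rcases hr0.lt_or_eq with h1 | h1
    · exact h1
    · exfalso
      rw [← h1, sg_zero] at he
      exact hA x t ht0 ht1 he.symm
  have hr1' : r < 1 := by
    rcases hr1.lt_or_eq with h1 | h1
    · exact h1
    · exfalso
      rw [h1, sg_one] at he
      exact hA y t ht0 ht1 he.symm
  have eu : t * u (P d) = (1 - r) * u (P x) + r * u (P y) := by
    have := congrArg u he
    rw [h.au.sg, h.au.sg, h.uA] at this
    linarith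
  have ev : t * v (P d) = (1 - r) * v (P x) + r * v (P y) := by
    have := congrArg v he
    rw [h.av.sg, h.av.sg, h.vA] at this
    linarith
  have hmm : (1 - r) * (v (P d) * u (P x) - u (P d) * v (P x)) +
      r * (v (P d) * u (P y) - u (P d) * v (P y)) = 0 := by
    linear_combination (-v (P d)) * eu + u (P d) * ev
  by_cases hmy : 0 < v (P d) * u (P y) - u (P d) * v (P y)
  · exact hcross x y hxy t r ht0 ht1 hr0' hr1' he hmy
  · by_cases hmx : 0 < v (P d) * u (P x) - u (P d) * v (P x)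
    · exact hcross y x hxy.symm t (1 - r) ht0 ht1 (by linarith) (by linarith)
        (by rw [he, sg_swap]) hmx
    · push Not at hmy hmx
      have h1 : (1 - r) * (v (P d) * u (P x) - u (P d) * v (P x)) ≤ 0 :=
        mul_nonpos_of_nonneg_of_nonpos (by linarith) hmx
      have h2 : r * (v (P d) * u (P y) - u (P d) * v (P y)) ≤ 0 :=
        mul_nonpos_of_nonneg_of_nonpos hr0 hmy
      have h3 : (1 - r) * (v (P d) * u (P x) - u (P d) * v (P x)) = 0 := by linarith
      have h4 : r * (v (P d) * u (P y) - u (P d) * v (P y)) = 0 := by linarith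
      have h5 := (mul_eq_zero.1 h3).resolve_left (by linarith)
      have h6 := (mul_eq_zero.1 h4).resolve_left hr0'.ne'
      have param : ∀ w : V, v (P d) * u (P w) - u (P d) * v (P w) = 0 →
          P w = sg (P a) (P d) (v (P w) / v (P d)) := by
        intro w hw
        apply h.inj
        · rw [h.au.sg, h.uA]
          field_simp
          linarith
        · rw [h.av.sg, h.vA]
          field_simp
          ring
      have hx := param x h5
      have hy := param y h6
      have hvx : v (P x) = (v (P x) / v (P d)) * v (P d) := by field_simp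
      have hvy : v (P y) = (v (P y) / v (P d)) * v (P d) := by field_simp
      obtain ⟨a1, ha1⟩ : ∃ a1, a1 = v (P x) / v (P d) := ⟨_, rfl⟩
      obtain ⟨a2, ha2⟩ : ∃ a2, a2 = v (P y) / v (P d) := ⟨_, rfl⟩
      rw [← ha1] at hx hvx
      rw [← ha2] at hy hvy
      have hta : t = (1 - r) * a1 + r * a2 := by
        rw [hvx, hvy] at ev
        have : (t - ((1 - r) * a1 + r * a2)) * v (P d) = 0 := by linarith
        have := (mul_eq_zero.1 this).resolve_right hdv'.ne'
        linarith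
      have hane : a1 ≠ a2 := by
        intro e
        rw [e, ← hy] at hx
        exact hxy.ne (M.inj hx)
      rcases lt_or_gt_of_ne hane with h7 | h7
      · refine hcol x y hxy t a1 a2 ht0 ht1 hx hy ?_ ?_ <;> nlinarith
      · refine hcol y x hxy.symm t a2 a1 ht0 ht1 hy hx ?_ ?_ <;> nlinarith

theorem ray_param {A Y W : ℝ × ℝ} {r t : ℝ} (hr : r ≠ 0) (h : sg A W t = sg A Y r) :
    Y = sg A W (t / r) := by
  have h1 := congrArg Prod.fst h
  have h2 := congrArg Prod.snd h
  simp only [sg] at h1 h2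
  unfold sg
  refine Prod.ext ?_ ?_
  · simp only []
    field_simp
    linear_combination -h1
  · simp only []
    field_simp
    linear_combination -h2

theorem NK (M : Mx G P) (a x : V) (hax : a ≠ x) :
    (∃ y s, 0 < s ∧ G.Adj a y ∧ P y = sg (P a) (P x) s) ∨
    (∃ z t, 0 < t ∧ t < 1 ∧ z = sg (P a) (P x) t ∧ ∃ p q s, G.Adj p q ∧ p ≠ a ∧ q ≠ a ∧ 0 < s ∧ s < 1 ∧
      z = sg (P p) (P q) s ∧ Kc G P a z (P p) ∧ Kc G P a z (P q)) := by
  have hPax : P a ≠ P x := fun e => hax (M.inj e)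
  obtain ⟨S, hS⟩ : ∃ S : Set ℝ, S = Set.Icc 0 1 ∩
      ((⋃ w : {w : V // w ≠ a}, (fun t => sg (P a) (P x) t) ⁻¹' {P w.1}) ∪
        (⋃ e : {e : V × V // G.Adj e.1 e.2 ∧ e.1 ≠ a ∧ e.2 ≠ a},
          (fun t => sg (P a) (P x) t) ⁻¹' (segment ℝ (P e.1.1) (P e.1.2)))) := ⟨_, rfl⟩
  have hcont : Continuous (fun t => sg (P a) (P x) t) := by
    unfold sg; fun_prop
  have hcomp : IsCompact S := by
    rw [hS]
    apply IsCompact.inter_right isCompact_Icc
    apply IsClosed.union
    · exact isClosed_iUnion_of_finite (fun w => isClosed_singleton.preimage hcont)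
    · refine isClosed_iUnion_of_finite (fun e => IsClosed.preimage hcont ?_)
      rw [← convexHull_pair]
      exact (Set.Finite.isCompact_convexHull ℝ (Set.toFinite _)).isClosed
  have memV : ∀ w t, 0 ≤ t → t ≤ 1 → w ≠ a → P w = sg (P a) (P x) t → t ∈ S := by
    intro w t h0 h1 hw he
    rw [hS]
    refine ⟨⟨h0, h1⟩, Or.inl ?_⟩
    rw [Set.mem_iUnion]
    exact ⟨⟨w, hw⟩, he.symm⟩
  have memE : ∀ p q t r, 0 ≤ t → t ≤ 1 → G.Adj p q → p ≠ a → q ≠ a → 0 ≤ r → r ≤ 1 →
      sg (P a) (P x) t = sg (P p) (P q) r → t ∈ S := by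
    intro p q t r h0 h1 hpq hp hq hr0 hr1 he
    rw [hS]
    refine ⟨⟨h0, h1⟩, Or.inr ?_⟩
    rw [Set.mem_iUnion]
    exact ⟨⟨(p, q), hpq, hp, hq⟩, mem_seg.2 ⟨r, hr0, hr1, he⟩⟩
  obtain ⟨t0, ht0S, ht0min⟩ := hcomp.exists_isLeast ⟨1, memV x 1 (by norm_num) (by norm_num) hax.symm (sg_one _ _).symm⟩
  have hlt : ∀ t, t < t0 → t ∉ S := fun t ht hts => absurd (ht0min hts) (not_le.2 ht)
  rw [hS] at ht0S
  obtain ⟨⟨h0, h1⟩, hor⟩ := ht0S
  have hpos : 0 < t0 := by
    rcases h0.lt_or_eq with h | h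
    · exact h
    · exfalso
      rcases hor with h2 | h2
      · rw [Set.mem_iUnion] at h2
        obtain ⟨w, hw⟩ := h2
        have hw' : sg (P a) (P x) t0 = P w.1 := hw
        rw [← h, sg_zero] at hw'
        exact w.2 (M.inj hw').symm
      · rw [Set.mem_iUnion] at h2
        obtain ⟨e, he⟩ := h2
        have he' : sg (P a) (P x) t0 ∈ segment ℝ (P e.1.1) (P e.1.2) := he
        rw [← h, sg_zero] at he'
        obtain ⟨s, hs0, hs1, hs⟩ := mem_seg.1 he'
        exact M.pl2 _ _ a e.2.1 e.2.2.1.symm e.2.2.2.symm s hs0 hs1 hs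
  -- no vertex before t0
  have noV : ∀ w t, 0 < t → t < t0 → P w ≠ sg (P a) (P x) t := by
    intro w t h2 h3 he
    have hwa : w ≠ a := by
      intro e
      rw [e] at he
      have := sg_inj hPax (s := 0) (t := t) (by rw [sg_zero, ← he])
      linarith
    exact hlt t h3 (memV w t h2.le (by linarith) hwa he)
  have noE : ∀ p q t r, 0 < t → t < t0 → G.Adj p q → p ≠ a → q ≠ a → 0 ≤ r → r ≤ 1 →
      sg (P a) (P x) t ≠ sg (P p) (P q) r := by
    intro p q t r h2 h3 hpq hp hq hr0 hr1 he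
    exact hlt t h3 (memE p q t r h2.le (by linarith) hpq hp hq hr0 hr1 he)
  have hmul : ∀ t, 0 < t → t < 1 → 0 < t0 * t ∧ t0 * t < t0 := fun t h2 h3 =>
    ⟨mul_pos hpos h2, by nlinarith⟩
  by_cases hV : ∃ w, P w = sg (P a) (P x) t0
  · obtain ⟨w, hw⟩ := hV
    left
    refine ⟨w, t0, hpos, ?_, hw⟩
    have hwa : a ≠ w := by
      intro e
      rw [← e] at hw
      have := sg_inj hPax (s := 0) (t := t0) (by rw [sg_zero, ← hw])
      linarith
    have hPaw : P a ≠ P w := fun e => hwa (M.inj e)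
    have hsc : ∀ t, sg (P a) (P w) t = sg (P a) (P x) (t0 * t) := by
      intro t; rw [hw, sg_sg_left]
    by_contra hna
    -- edges at a
    have hinc : ∀ y, G.Adj a y → ∀ t s, 0 < t → t < 1 → 0 ≤ s → s ≤ 1 →
        sg (P a) (P w) t ≠ sg (P a) (P y) s := by
      intro y hay t s ht0' ht1' hs0 hs1 he
      have hs0' : 0 < s := by
        rcases hs0.lt_or_eq with h | h
        · exact h
        · exfalso
          rw [← h, sg_zero] at he
          have := sg_inj hPaw (s := t) (t := 0) (by rw [he, sg_zero])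
          linarith
      have hy := ray_param hs0'.ne' he
      rcases lt_trichotomy (t / s) 1 with h | h | h
      · obtain ⟨h4, h5⟩ := hmul (t / s) (by positivity) h
        refine noV y _ h4 h5 ?_
        rw [hy, hsc]
      · rw [h, sg_one] at hy
        have := M.inj hy
        rw [this] at hay
        exact hna hay
      · -- w in the open segment a y
        refine M.pl2 a y w hay hwa.symm ?_ (s / t) (by positivity) ?_ ?_
        · intro e
          rw [e] at hna
          exact hna hay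
        · rw [div_le_one ht0']
          rw [one_lt_div hs0'] at h
          exact h.le
        · exact ray_param ht0'.ne' he.symm
    apply hna
    refine M.free a w hwa ?_ ?_
    · intro w' t h2 h3 he
      obtain ⟨h4, h5⟩ := hmul t h2 h3
      exact noV w' _ h4 h5 (by rw [he, hsc])
    · intro p q hpq t s h2 h3 h4 h5 he
      by_cases hp : p = a
      · rw [hp] at hpq he
        exact hinc q hpq t s h2 h3 h4 h5 he
      · by_cases hq : q = a
        · rw [hq] at hpq he
          exact hinc p hpq.symm t (1 - s) h2 h3 (by linarith) (by linarith) (by rw [he, sg_swap])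
        · obtain ⟨h6, h7⟩ := hmul t h2 h3
          exact noE p q _ s h6 h7 hpq hp hq h4 h5 (by rw [← hsc, he])
  · right
    push Not at hV
    rcases hor with h2 | h2
    · exfalso
      rw [Set.mem_iUnion] at h2
      obtain ⟨w, hw⟩ := h2
      have hw' : sg (P a) (P x) t0 = P w.1 := hw
      exact hV w.1 hw'.symm
    · rw [Set.mem_iUnion] at h2
      obtain ⟨⟨⟨p, q⟩, hpq, hpa, hqa⟩, he⟩ := h2
      have he' : sg (P a) (P x) t0 ∈ segment ℝ (P p) (P q) := he
      have hpq' : G.Adj p q := hpq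
      have hpa' : p ≠ a := hpa
      have hqa' : q ≠ a := hqa
      obtain ⟨s, hs0, hs1, hs⟩ := mem_seg.1 he'
      obtain ⟨z, hz⟩ : ∃ z, z = sg (P a) (P x) t0 := ⟨_, rfl⟩
      have hzs : z = sg (P p) (P q) s := by rw [hz, hs]
      have hzv : ∀ w, P w ≠ z := by intro w; rw [hz]; exact hV w
      have hs0' : 0 < s := by
        rcases hs0.lt_or_eq with h | h
        · exact h
        · exfalso; rw [← h, sg_zero] at hzs; exact hzv p hzs.symm
      have hs1' : s < 1 := by
        rcases hs1.lt_or_eq with h | h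
        · exact h
        · exfalso; rw [h, sg_one] at hzs; exact hzv q hzs.symm
      have ht1 : t0 < 1 := by
        rcases h1.lt_or_eq with h | h
        · exact h
        · exfalso; rw [h, sg_one] at hz; exact hzv x hz.symm
      have hsc : ∀ t, sg (P a) z t = sg (P a) (P x) (t0 * t) := by
        intro t; rw [hz, sg_sg_left]
      have hPaz : P a ≠ z := hzv a
      have hfv : ∀ w t, 0 < t → t < 1 → P w ≠ sg (P a) z t := by
        intro w t h2 h3 he
        obtain ⟨h4, h5⟩ := hmul t h2 h3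
        exact noV w _ h4 h5 (by rw [he, hsc])
      have hinc : ∀ y, G.Adj a y → ∀ t r, 0 < t → t < 1 → 0 ≤ r → r ≤ 1 →
          sg (P a) z t ≠ sg (P a) (P y) r := by
        intro y hay t r ht0' ht1' hr0 hr1 he
        have hr0' : 0 < r := by
          rcases hr0.lt_or_eq with h | h
          · exact h
          · exfalso
            rw [← h, sg_zero] at he
            have := sg_inj hPaz (s := t) (t := 0) (by rw [he, sg_zero])
            linarith
        have hy := ray_param hr0'.ne' he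
        rcases lt_trichotomy (t / r) 1 with h | h | h
        · exact hfv y _ (by positivity) h hy
        · rw [h, sg_one] at hy
          exact hzv y hy
        · have hz2 : z = sg (P a) (P y) (r / t) := ray_param ht0'.ne' he.symm
          have hrt : r / t < 1 := by
            rw [div_lt_one ht0']
            rw [one_lt_div hr0'] at h
            exact h
          have hne : s(a, y) ≠ s(p, q) := by
            intro e
            rw [Sym2.eq_iff] at e
            rcases e with ⟨e, -⟩ | ⟨e, -⟩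
            · exact hpa' e.symm
            · exact hqa' e.symm
          obtain ⟨w, -, hw⟩ := M.pl3 a y p q hay hpq' hne (r / t) s (by positivity) hrt.le hs0 hs1
            (by rw [← hz2, ← hzs])
          exact hzv w (by rw [← hw, ← hz2])
      have hfe : ∀ x y, G.Adj x y → ∀ t r, 0 < t → t < 1 → 0 ≤ r → r ≤ 1 →
          sg (P a) z t ≠ sg (P x) (P y) r := by
        intro x' y' hxy t r h2 h3 h4 h5 he
        by_cases hp : x' = a
        · rw [hp] at hxy he
          exact hinc y' hxy t r h2 h3 h4 h5 he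
        · by_cases hq : y' = a
          · rw [hq] at hxy he
            exact hinc x' hxy.symm t (1 - r) h2 h3 (by linarith) (by linarith) (by rw [he, sg_swap])
          · obtain ⟨h6, h7⟩ := hmul t h2 h3
            exact noE x' y' _ r h6 h7 hxy hp hq h4 h5 (by rw [← hsc, he])
      refine ⟨z, t0, hpos, ht1, hz, p, q, s, hpq', hpa', hqa', hs0', hs1', hzs, ?_, ?_⟩
      · exact keyK M a p q z hpq' hpa' hqa' s hs0' hs1' hzs hzv hfv hfe
      · exact keyK M a q p z hpq'.symm hqa' hpa' (1 - s) (by linarith) (by linarith)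
          (by rw [hzs, sg_swap]) hzv hfv hfe

theorem crs_self1 (a b : ℝ × ℝ) : crs a b a = 0 := by unfold crs; ring
theorem crs_self2 (a b : ℝ × ℝ) : crs a b b = 0 := by unfold crs; ring

theorem step1 (M : Mx G P) (a b x : V) (hx : 0 < crs (P a) (P b) (P x)) :
    ∃ c, G.Adj a c ∧ 0 < crs (P a) (P b) (P c) := by
  have hax : a ≠ x := by
    intro e
    rw [← e, crs_self1] at hx
    exact lt_irrefl _ hx
  have hA := aff_crs (P a) (P b)
  rcases NK M a x hax with ⟨y, s, hs, hay, hy⟩ | ⟨z, t, ht0, ht1, hz, p, q, s, hpq, hpa, hqa, hs0, hs1, hzs, K1, K2⟩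
  · refine ⟨y, hay, ?_⟩
    rw [hy, hA.sg, crs_self1]
    have := mul_pos hs hx
    linarith
  · have hzc : 0 < crs (P a) (P b) z := by
      rw [hz, hA.sg, crs_self1]
      have := mul_pos ht0 hx
      linarith
    have main : ∀ y, 0 < crs (P a) (P b) y → Kc G P a z y → ∃ c, G.Adj a c ∧ 0 < crs (P a) (P b) (P c) := by
      rintro y hy ⟨d, had, α, β, hα, hβ, hαβ, -, hf⟩
      refine ⟨d, had, ?_⟩
      rw [hf _ hA, crs_self1]
      have h1 : 0 ≤ α * crs (P a) (P b) z := by positivity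
      have h2 : 0 ≤ β * crs (P a) (P b) y := by positivity
      rcases hα.lt_or_eq with h | h
      · have := mul_pos h hzc
        linarith
      · have h3 : 0 < β := by linarith
        have := mul_pos h3 hy
        linarith
    by_cases hp : 0 < crs (P a) (P b) (P p)
    · exact main _ hp K1
    · by_cases hq : 0 < crs (P a) (P b) (P q)
      · exact main _ hq K2
      · exfalso
        push Not at hp hq
        have := hA.sg (P p) (P q) s
        rw [← hzs] at this
        nlinarith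

theorem has_nbr (M : Mx G P) (a x : V) (hax : a ≠ x) : ∃ y, G.Adj a y := by
  rcases NK M a x hax with ⟨y, s, hs, hay, hy⟩ | ⟨z, t, ht0, ht1, hz, p, q, s, hpq, hpa, hqa, hs0, hs1, hzs, K1, K2⟩
  · exact ⟨y, hay⟩
  · obtain ⟨d, hd, -⟩ := K1
    exact ⟨d, hd⟩

theorem tri_ex (M : Mx G P) (a b c0 : V) (hab : G.Adj a b) (hac0 : G.Adj a c0)
    (hc0 : 0 < crs (P a) (P b) (P c0)) :
    ∃ c, G.Adj a c ∧ G.Adj b c ∧ 0 < crs (P a) (P b) (P c) ∧
      ∀ x, x ≠ a → x ≠ b → x ≠ c → P x ∉ convexHull ℝ ({P a, P b, P c} : Set (ℝ × ℝ)) := by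
  obtain ⟨dt, hdt⟩ : ∃ dt : ℝ × ℝ → ℝ, dt = fun x =>
    ((P b).1 - (P a).1) * (x.1 - (P a).1) + ((P b).2 - (P a).2) * (x.2 - (P a).2) := ⟨_, rfl⟩
  have hdtA : Aff dt := ⟨-((P b).1 - (P a).1) * (P a).1 - ((P b).2 - (P a).2) * (P a).2,
    (P b).1 - (P a).1, (P b).2 - (P a).2, fun x => by rw [hdt]; ring⟩
  have hdta : dt (P a) = 0 := by rw [hdt]; ring
  have hPab : P a ≠ P b := fun e => hab.ne (M.inj e)
  have hdtb : 0 < dt (P b) := by
    rw [hdt]
    show 0 < ((P b).1 - (P a).1) * ((P b).1 - (P a).1) + ((P b).2 - (P a).2) * ((P b).2 - (P a).2)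
    have h1 := mul_self_nonneg ((P b).1 - (P a).1)
    have h2 := mul_self_nonneg ((P b).2 - (P a).2)
    rcases (add_nonneg h1 h2).lt_or_eq with h | h
    · exact h
    · exfalso
      apply hPab
      have e1 : ((P b).1 - (P a).1) * ((P b).1 - (P a).1) = 0 := by linarith
      have e2 : ((P b).2 - (P a).2) * ((P b).2 - (P a).2) = 0 := by linarith
      have f1 := mul_self_eq_zero.1 e1
      have f2 := mul_self_eq_zero.1 e2
      exact Prod.ext (by linarith) (by linarith)
  have hfin : {c : V | G.Adj a c ∧ 0 < crs (P a) (P b) (P c)}.Finite := Set.toFinite _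
  obtain ⟨c, ⟨hac, hcc⟩, hmax⟩ := Set.exists_max_image _
    (fun c => dt (P c) / crs (P a) (P b) (P c)) hfin ⟨c0, hac0, hc0⟩
  obtain ⟨u, v, h⟩ := crd_ex (P a) (P b) (P c) hcc.ne'
  have hcA := aff_crs (P a) (P b)
  have hφA : Aff (fun x => u x + v x) := h.au.add h.av
  -- no neighbour in the open cone
  have hcone : ∀ d, G.Adj a d → 0 < u (P d) → 0 < v (P d) → False := by
    intro d had hu hv
    have e1 := h.rep _ hcA (P d)
    rw [crs_self1, crs_self2] at e1
    have e2 := h.rep _ hdtA (P d)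
    rw [hdta] at e2
    have hpos : 0 < crs (P a) (P b) (P d) := by
      rw [e1]; have := mul_pos hv hcc; linarith
    have h3 := hmax d ⟨had, hpos⟩
    rw [div_le_div_iff₀ hpos hcc, e1, e2] at h3
    have : 0 < u (P d) * dt (P b) * crs (P a) (P b) (P c) := by positivity
    nlinarith
  have hca : c ≠ a := hac.ne'
  have hba : b ≠ a := hab.ne'
  have hPac : P a ≠ P c := fun e => hac.ne (M.inj e)
  -- boundary
  have hb1 : ∀ d, d ≠ a → u (P d) = 0 → 0 ≤ v (P d) → v (P d) ≤ 1 → d = c := by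
    intro d hda hu hv hv1
    by_contra hdc
    exact M.pl2 a c d hac hda hdc _ hv hv1 (h.eq_sg_AQ hu)
  have hb2 : ∀ d, d ≠ a → v (P d) = 0 → 0 ≤ u (P d) → u (P d) ≤ 1 → d = b := by
    intro d hda hv hu hu1
    by_contra hdb
    exact M.pl2 a b d hab hda hdb _ hu hu1 (h.eq_sg_AZ hv)
  have hE : ∀ p q, G.Adj p q → p ≠ a → q ≠ a → ∀ s, 0 < s → s < 1 →
      0 < u (sg (P p) (P q) s) → 0 < v (sg (P p) (P q) s) →
      u (sg (P p) (P q) s) + v (sg (P p) (P q) s) ≤ 1 →
      u (P p) + v (P p) ≤ u (sg (P p) (P q) s) + v (sg (P p) (P q) s) →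
      u (P p) + v (P p) < 1 → 0 < u (P p) ∧ 0 < v (P p) := by
    intro p q hpq hpa hqa s hs0 hs1 huw hvw hφ1 hφp hp1
    have hPpq : P p ≠ P q := fun e => hpq.ne (M.inj e)
    have hnn : 0 ≤ u (P p) ∧ 0 ≤ v (P p) := by
      by_contra hc
      have hor : u (P p) < 0 ∨ v (P p) < 0 := by
        by_contra hc2
        push Not at hc2
        exact hc hc2
      obtain ⟨τ, hτ0, hτ1, hex⟩ := exit_lem _ _ _ _ huw hvw hor
      obtain ⟨y, hy⟩ : ∃ y, y = sg (sg (P p) (P q) s) (P p) τ := ⟨_, rfl⟩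
      have hyu : u y = (1 - τ) * u (sg (P p) (P q) s) + τ * u (P p) := by rw [hy, h.au.sg]
      have hyv : v y = (1 - τ) * v (sg (P p) (P q) s) + τ * v (P p) := by rw [hy, h.av.sg]
      have hys : u y + v y < 1 := by
        rw [hyu, hyv]
        nlinarith
      have hye : y = sg (P p) (P q) ((1 - τ) * s) := by
        have e0 : P p = sg (P p) (P q) 0 := (sg_zero _ _).symm
        rw [hy]
        conv_lhs => rw [show sg (sg (P p) (P q) s) (P p) τ = sg (sg (P p) (P q) s) (sg (P p) (P q) 0) τ by rw [sg_zero]]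
        rw [sg_sg]
        congr 1
        ring
      have hr0 : 0 < (1 - τ) * s := mul_pos (by linarith) hs0
      have hr1 : (1 - τ) * s < 1 := by nlinarith
      have hnv : ∀ w, (w = p ∨ w = q) → y ≠ P w := by
        rintro w (rfl | rfl) e
        · have := sg_inj hPpq (s := (1 - τ) * s) (t := 0) (by rw [← hye, sg_zero, e])
          linarith
        · have := sg_inj hPpq (s := (1 - τ) * s) (t := 1) (by rw [← hye, sg_one, e])
          linarith
      have key : ∀ x, G.Adj a x → ∀ r, 0 ≤ r → r ≤ 1 → y = sg (P a) (P x) r → False := by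
        intro x hax r hr0' hr1' hyr
        have hne : s(p, q) ≠ s(a, x) := by
          intro e
          rw [Sym2.eq_iff] at e
          rcases e with ⟨e, -⟩ | ⟨-, e⟩
          · exact hpa e
          · exact hqa e
        obtain ⟨w, hw, hw2⟩ := M.pl3 p q a x hpq hax hne _ r hr0.le hr1.le hr0' hr1'
          (by rw [← hye, ← hyr])
        rw [← hye] at hw2
        exact hnv w hw hw2
      rcases hex with ⟨e1, e2⟩ | ⟨e1, e2⟩
      · have hu0 : u y = 0 := by rw [hyu]; exact e1
        have hv0 : 0 ≤ v y := by rw [hyv]; exact e2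
        exact key c hac (v y) hv0 (by linarith) (h.eq_sg_AQ hu0)
      · have hv0 : v y = 0 := by rw [hyv]; exact e1
        have hu0 : 0 ≤ u y := by rw [hyu]; exact e2
        exact key b hab (u y) hu0 (by linarith) (h.eq_sg_AZ hv0)
    refine ⟨hnn.1.lt_of_ne ?_, hnn.2.lt_of_ne ?_⟩
    · intro e
      have := hb1 p hpa e.symm hnn.2 (by linarith)
      rw [this, h.uQ, h.vQ] at hp1
      norm_num at hp1
    · intro e
      have := hb2 p hpa e.symm hnn.1 (by linarith)
      rw [this, h.uZ, h.vZ] at hp1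
      norm_num at hp1
  -- empty triangle
  have hT : ∀ d, d ≠ a → d ≠ b → d ≠ c → 0 ≤ u (P d) → 0 ≤ v (P d) → u (P d) + v (P d) ≤ 1 → False := by
    intro d hda hdb hdc hu hv huv
    have hu' : 0 < u (P d) := by
      refine hu.lt_of_ne ?_
      intro e
      exact hdc (hb1 d hda e.symm hv (by linarith))
    have hv' : 0 < v (P d) := by
      refine hv.lt_of_ne ?_
      intro e
      exact hdb (hb2 d hda e.symm hu (by linarith))
    rcases NK M a d hda.symm with ⟨y, s, hs, hay, hy⟩ | ⟨z, t, ht0, ht1, hz, p, q, s, hpq, hpa, hqa, hs0, hs1, hzs, K1, K2⟩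
    · apply hcone y hay
      · rw [hy, h.au.sg, h.uA]
        have := mul_pos hs hu'
        linarith
      · rw [hy, h.av.sg, h.vA]
        have := mul_pos hs hv'
        linarith
    · have hzu : 0 < u z := by
        rw [hz, h.au.sg, h.uA]
        have := mul_pos ht0 hu'
        linarith
      have hzv : 0 < v z := by
        rw [hz, h.av.sg, h.vA]
        have := mul_pos ht0 hv'
        linarith
      have hzφ : u z + v z < 1 := by
        rw [hz, h.av.sg, h.vA, h.au.sg, h.uA]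
        nlinarith
      have main : ∀ y, 0 < u y → 0 < v y → Kc G P a z y → False := by
        rintro y hyu hyv ⟨e, hae, α, β, hα, hβ, hαβ, -, hf⟩
        have h1 : 0 ≤ α * u z := by positivity
        have h2 : 0 ≤ β * u y := by positivity
        have h3 : 0 ≤ α * v z := by positivity
        have h4 : 0 ≤ β * v y := by positivity
        rcases hα.lt_or_eq with h5 | h5
        · apply hcone e hae
          · rw [hf _ h.au, h.uA]
            have := mul_pos h5 hzu
            linarith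
          · rw [hf _ h.av, h.vA]
            have := mul_pos h5 hzv
            linarith
        · have h6 : 0 < β := by linarith
          apply hcone e hae
          · rw [hf _ h.au, h.uA]
            have := mul_pos h6 hyu
            linarith
          · rw [hf _ h.av, h.vA]
            have := mul_pos h6 hyv
            linarith
      by_cases hpz : u (P p) + v (P p) ≤ u z + v z
      · obtain ⟨h1, h2⟩ := hE p q hpq hpa hqa s hs0 hs1 (by rw [← hzs]; exact hzu)
          (by rw [← hzs]; exact hzv) (by rw [← hzs]; exact hzφ.le) (by rw [← hzs]; exact hpz)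
          (by linarith)
        exact main _ h1 h2 K1
      · have hqz : u (P q) + v (P q) ≤ u z + v z := by
          by_contra hc
          push Not at hc hpz
          have e := hφA.sg (P p) (P q) s
          rw [← hzs] at e
          nlinarith
        have hzs' : z = sg (P q) (P p) (1 - s) := by rw [hzs, sg_swap]
        obtain ⟨h1, h2⟩ := hE q p hpq.symm hqa hpa (1 - s) (by linarith) (by linarith)
          (by rw [← hzs']; exact hzu)
          (by rw [← hzs']; exact hzv) (by rw [← hzs']; exact hzφ.le) (by rw [← hzs']; exact hqz)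
          (by linarith)
        exact main _ h1 h2 K2
  have hbc : b ≠ c := by
    intro e
    have h1 := h.vZ
    rw [e, h.vQ] at h1
    norm_num at h1
  have hPbc : P b ≠ P c := fun e => hbc (M.inj e)
  have hsu : ∀ t, u (sg (P b) (P c) t) = 1 - t := by
    intro t; rw [h.au.sg, h.uZ, h.uQ]; ring
  have hsv : ∀ t, v (sg (P b) (P c) t) = t := by
    intro t; rw [h.av.sg, h.vZ, h.vQ]; ring
  have hnoV : ∀ w t, 0 < t → t < 1 → P w ≠ sg (P b) (P c) t := by
    intro w t h1 h2 he
    have e1 : u (P w) = 1 - t := by rw [he, hsu]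
    have e2 : v (P w) = t := by rw [he, hsv]
    refine hT w ?_ ?_ ?_ (by linarith) (by linarith) (by linarith)
    · intro e; rw [e, h.vA] at e2; linarith
    · intro e; rw [e, h.vZ] at e2; linarith
    · intro e; rw [e, h.uQ] at e1; linarith
  have hadj : G.Adj b c := by
    by_contra hna
    apply hna
    refine M.free b c hbc hnoV ?_
    intro x y hxy t r ht0 ht1 hr0 hr1 he
    have hr0' : 0 < r := by
      rcases hr0.lt_or_eq with h1 | h1
      · exact h1
      · exfalso
        rw [← h1, sg_zero] at he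
        exact hnoV x t ht0 ht1 he.symm
    have hr1' : r < 1 := by
      rcases hr1.lt_or_eq with h1 | h1
      · exact h1
      · exfalso
        rw [h1, sg_one] at he
        exact hnoV y t ht0 ht1 he.symm
    have hwu : u (sg (P x) (P y) r) = 1 - t := by rw [← he, hsu]
    have hwv : v (sg (P x) (P y) r) = t := by rw [← he, hsv]
    -- edges at a
    have hinc : ∀ y, G.Adj a y → ∀ r, 0 < r → sg (P b) (P c) t = sg (P a) (P y) r → False := by
      intro y hay r hr he
      apply hcone y hay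
      · have e1 := hsu t
        rw [he, h.au.sg, h.uA] at e1
        have : 0 < r * u (P y) := by linarith
        exact (mul_pos_iff_of_pos_left hr).1 this
      · have e1 := hsv t
        rw [he, h.av.sg, h.vA] at e1
        have : 0 < r * v (P y) := by linarith
        exact (mul_pos_iff_of_pos_left hr).1 this
    have hxa : x ≠ a := by
      intro e
      rw [e] at hxy he
      exact hinc y hxy r hr0' he
    have hya : y ≠ a := by
      intro e
      rw [e] at hxy he
      exact hinc x hxy.symm (1 - r) (by linarith) (by rw [he, sg_swap])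
    -- endpoint below
    have hlow : ∀ x y, G.Adj x y → x ≠ a → y ≠ a → ∀ r, 0 < r → r < 1 →
        sg (P b) (P c) t = sg (P x) (P y) r → 1 ≤ u (P x) + v (P x) := by
      intro x y hxy hxa hya r hr0 hr1 he
      by_contra hc
      push Not at hc
      have hwu : u (sg (P x) (P y) r) = 1 - t := by rw [← he, hsu]
      have hwv : v (sg (P x) (P y) r) = t := by rw [← he, hsv]
      obtain ⟨h1, h2⟩ := hE x y hxy hxa hya r hr0 hr1 (by rw [hwu]; linarith) (by rw [hwv]; linarith)
        (by rw [hwu, hwv]; linarith) (by rw [hwu, hwv]; linarith) hc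
      refine hT x hxa ?_ ?_ h1.le h2.le hc.le
      · intro e; rw [e, h.vZ] at h2; exact lt_irrefl _ h2
      · intro e; rw [e, h.uQ] at h1; exact lt_irrefl _ h1
    have hφx := hlow x y hxy hxa hya r hr0' hr1' he
    have hφy := hlow y x hxy.symm hya hxa (1 - r) (by linarith) (by linarith) (by rw [he, sg_swap])
    have hφ : (1 - r) * (u (P x) + v (P x)) + r * (u (P y) + v (P y)) = 1 := by
      have e := hφA.sg (P x) (P y) r
      rw [← e, hwu, hwv]
      ring
    have hφx1 : u (P x) + v (P x) = 1 := by nlinarith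
    have hφy1 : u (P y) + v (P y) = 1 := by nlinarith
    have hx := h.eq_sg_ZQ hφx1
    have hy := h.eq_sg_ZQ hφy1
    have htv : t = (1 - r) * v (P x) + r * v (P y) := by rw [← hwv, h.av.sg]
    have hcol : ∀ x y, G.Adj x y → ∀ a1 a2, P x = sg (P b) (P c) a1 →
        P y = sg (P b) (P c) a2 → a1 < t → t < a2 → False := by
      intro x y hxy a1 a2 hx hy h1 h2
      have ha1 : a1 ≤ 0 := by
        by_contra hc
        push Not at hc
        exact hnoV x a1 hc (by linarith) hx
      have ha2 : 1 ≤ a2 := by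
        by_contra hc
        push Not at hc
        exact hnoV y a2 (by linarith) hc hy
      have hx0 : ∀ w, P w = sg (P b) (P c) 0 → w = b := by
        intro w hw; rw [sg_zero] at hw; exact M.inj hw
      have hbx : b = x := by
        by_contra hbx
        have hby : b ≠ y := by
          intro e
          have : (0:ℝ) = a2 := sg_inj hPbc (by rw [sg_zero, ← hy, e])
          linarith
        refine M.pl2 x y b hxy hbx hby (-a1 / (a2 - a1)) (div_nonneg (by linarith) (by linarith)) ?_ ?_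
        · rw [div_le_one (by linarith)]; linarith
        · rw [hx, hy, sg_sg]
          have : (1 - -a1 / (a2 - a1)) * a1 + -a1 / (a2 - a1) * a2 = 0 := by
            have hne : a2 - a1 ≠ 0 := by linarith
            field_simp
            ring
          rw [this, sg_zero]
      have hcy : c = y := by
        by_contra hcy
        have hcx : c ≠ x := by
          intro e
          have : (1:ℝ) = a1 := sg_inj hPbc (by rw [sg_one, ← hx, e])
          linarith
        refine M.pl2 x y c hxy hcx hcy ((1 - a1) / (a2 - a1)) (div_nonneg (by linarith) (by linarith)) ?_ ?_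
        · rw [div_le_one (by linarith)]; linarith
        · rw [hx, hy, sg_sg]
          have : (1 - (1 - a1) / (a2 - a1)) * a1 + (1 - a1) / (a2 - a1) * a2 = 1 := by
            have hne : a2 - a1 ≠ 0 := by linarith
            field_simp
            ring
          rw [this, sg_one]
      rw [← hbx, ← hcy] at hxy
      exact hna hxy
    have hne : v (P x) ≠ v (P y) := by
      intro e
      rw [e, ← hy] at hx
      exact hxy.ne (M.inj hx)
    rcases lt_or_gt_of_ne hne with h7 | h7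
    · refine hcol x y hxy _ _ hx hy ?_ ?_ <;> nlinarith
    · refine hcol y x hxy.symm _ _ hy hx ?_ ?_ <;> nlinarith
  refine ⟨c, hac, hadj, hcc, ?_⟩
  intro x hxa hxb hxc hmem
  have hconv : Convex ℝ {w : ℝ × ℝ | 0 ≤ u w ∧ 0 ≤ v w ∧ u w + v w ≤ 1} := by
    rw [convex_iff_segment_subset]
    rintro w1 ⟨h1, h2, h3⟩ w2 ⟨h4, h5, h6⟩ w hw
    obtain ⟨t, ht0, ht1, rfl⟩ := mem_seg.1 hw
    refine ⟨?_, ?_, ?_⟩
    · rw [h.au.sg]
      have := mul_nonneg (sub_nonneg.2 ht1) h1
      have := mul_nonneg ht0 h4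
      linarith
    · rw [h.av.sg]
      have := mul_nonneg (sub_nonneg.2 ht1) h2
      have := mul_nonneg ht0 h5
      linarith
    · rw [h.av.sg, h.au.sg]
      have := mul_le_mul_of_nonneg_left h3 (sub_nonneg.2 ht1)
      have := mul_le_mul_of_nonneg_left h6 ht0
      linarith
  have hsub : ({P a, P b, P c} : Set (ℝ × ℝ)) ⊆ {w : ℝ × ℝ | 0 ≤ u w ∧ 0 ≤ v w ∧ u w + v w ≤ 1} := by
    intro w hw
    simp only [Set.mem_insert_iff, Set.mem_singleton_iff] at hw
    rcases hw with rfl | rfl | rfl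
    · exact ⟨h.uA.ge, h.vA.ge, by rw [h.uA, h.vA]; norm_num⟩
    · exact ⟨by rw [h.uZ]; norm_num, h.vZ.ge, by rw [h.uZ, h.vZ]; norm_num⟩
    · exact ⟨h.uQ.ge, by rw [h.vQ]; norm_num, by rw [h.uQ, h.vQ]; norm_num⟩
  obtain ⟨h1, h2, h3⟩ := convexHull_min hsub hconv hmem
  exact hT x hxa hxb hxc h1 h2 h3

/-- parametrised form of `Plane` -/
structure PL {V : Type} (G : SimpleGraph V) (P : V → ℝ × ℝ) : Prop where
  inj : Function.Injective P
  pl2 : ∀ x y w, G.Adj x y → w ≠ x → w ≠ y → ∀ t, 0 ≤ t → t ≤ 1 → P w ≠ sg (P x) (P y) t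
  pl3 : ∀ x y p q, G.Adj x y → G.Adj p q → s(x, y) ≠ s(p, q) → ∀ s t, 0 ≤ s → s ≤ 1 → 0 ≤ t → t ≤ 1 →
    sg (P x) (P y) s = sg (P p) (P q) t → ∃ w, (w = x ∨ w = y) ∧ sg (P x) (P y) s = P w

omit [Finite V] in
theorem plane_of_PL (h : PL G P) : Plane G P := by
  refine ⟨h.inj, ?_, ?_⟩
  · intro x y w hxy h1 h2 hm
    obtain ⟨t, h3, h4, h5⟩ := mem_seg.1 hm
    exact h.pl2 x y w hxy h1 h2 t h3 h4 h5
  · intro x y p q hxy hpq hne z hz1 hz2
    obtain ⟨s, hs0, hs1, hs⟩ := mem_seg.1 hz1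
    obtain ⟨t, ht0, ht1, ht⟩ := mem_seg.1 hz2
    obtain ⟨w, hw, hw2⟩ := h.pl3 x y p q hxy hpq hne s t hs0 hs1 ht0 ht1 (by rw [← hs, ← ht])
    refine ⟨w, hw, ?_, by rw [hs, hw2]⟩
    by_contra hc
    push Not at hc
    exact h.pl2 p q w hpq hc.1 hc.2 t ht0 ht1 (by rw [← hw2, ← hs, ← ht])

omit [Finite V] in
theorem PL_of_plane (h : Plane G P) : PL G P := by
  obtain ⟨h1, h2, h3⟩ := h
  refine ⟨h1, ?_, ?_⟩
  · intro x y w hxy hx hy t ht0 ht1 he
    exact h2 x y w hxy hx hy (mem_seg.2 ⟨t, ht0, ht1, he⟩)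
  · intro x y p q hxy hpq hne s t hs0 hs1 ht0 ht1 he
    obtain ⟨w, hw, -, hz⟩ := h3 x y p q hxy hpq hne (sg (P x) (P y) s) (mem_seg.2 ⟨s, hs0, hs1, rfl⟩)
      (mem_seg.2 ⟨t, ht0, ht1, he⟩)
    exact ⟨w, hw, hz⟩

/-- adding one edge -/
def addE {V : Type} (G : SimpleGraph V) (a b : V) (hab : a ≠ b) : SimpleGraph V where
  Adj x y := G.Adj x y ∨ (x = a ∧ y = b) ∨ (x = b ∧ y = a)
  symm := ⟨by
    rintro x y (h | ⟨rfl, rfl⟩ | ⟨rfl, rfl⟩)
    · exact Or.inl h.symm
    · exact Or.inr (Or.inr ⟨rfl, rfl⟩)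
    · exact Or.inr (Or.inl ⟨rfl, rfl⟩)⟩
  loopless := ⟨by
    rintro x (h | ⟨h1, h2⟩ | ⟨h1, h2⟩)
    · exact G.loopless.irrefl x h
    · exact hab (h1.symm.trans h2)
    · exact hab (h2.symm.trans h1)⟩

omit [Finite V] in
theorem PL_addE (h : PL G P) (a b : V) (hab : a ≠ b)
    (h1 : ∀ w t, 0 < t → t < 1 → P w ≠ sg (P a) (P b) t)
    (h2 : ∀ x y, G.Adj x y → ∀ t s, 0 < t → t < 1 → 0 ≤ s → s ≤ 1 →
      sg (P a) (P b) t ≠ sg (P x) (P y) s) : PL (addE G a b hab) P := by
  have hV : ∀ w t, 0 ≤ t → t ≤ 1 → P w = sg (P a) (P b) t → w = a ∨ w = b := by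
    intro w t ht0 ht1 he
    rcases ht0.lt_or_eq with h3 | h3
    · rcases ht1.lt_or_eq with h4 | h4
      · exact absurd he (h1 w t h3 h4)
      · rw [h4, sg_one] at he
        exact Or.inr (h.inj he)
    · rw [← h3, sg_zero] at he
      exact Or.inl (h.inj he)
  have hE : ∀ x y, G.Adj x y → ∀ t s, 0 ≤ t → t ≤ 1 → 0 ≤ s → s ≤ 1 →
      sg (P a) (P b) t = sg (P x) (P y) s →
      ∃ w, (w = a ∨ w = b) ∧ (w = x ∨ w = y) ∧ sg (P a) (P b) t = P w := by
    intro x y hxy t s ht0 ht1 hs0 hs1 he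
    have hw : ∀ w, sg (P a) (P b) t = P w → w = x ∨ w = y := by
      intro w hw
      by_contra hc
      push Not at hc
      exact h.pl2 x y w hxy hc.1 hc.2 s hs0 hs1 (by rw [← hw, he])
    rcases ht0.lt_or_eq with h3 | h3
    · rcases ht1.lt_or_eq with h4 | h4
      · exact absurd he (h2 x y hxy t s h3 h4 hs0 hs1)
      · have e : sg (P a) (P b) t = P b := by rw [h4, sg_one]
        exact ⟨b, Or.inr rfl, hw b e, e⟩
    · have e : sg (P a) (P b) t = P a := by rw [← h3, sg_zero]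
      exact ⟨a, Or.inl rfl, hw a e, e⟩
  refine ⟨h.inj, ?_, ?_⟩
  · rintro x y w (hxy | ⟨rfl, rfl⟩ | ⟨rfl, rfl⟩) hx hy t ht0 ht1 he
    · exact h.pl2 x y w hxy hx hy t ht0 ht1 he
    · rcases hV w t ht0 ht1 he with e | e
      · exact hx e
      · exact hy e
    · rcases hV w (1 - t) (by linarith) (by linarith) (by rw [he, sg_swap]) with e | e
      · exact hy e
      · exact hx e
  · rintro x y p q (hxy | ⟨rfl, rfl⟩ | ⟨rfl, rfl⟩) (hpq | ⟨rfl, rfl⟩ | ⟨rfl, rfl⟩) hne s t hs0 hs1 ht0 ht1 he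
    · exact h.pl3 x y p q hxy hpq hne s t hs0 hs1 ht0 ht1 he
    · obtain ⟨w, -, hw2, hw3⟩ := hE x y hxy t s ht0 ht1 hs0 hs1 he.symm
      exact ⟨w, hw2, by rw [he, hw3]⟩
    · obtain ⟨w, -, hw2, hw3⟩ := hE x y hxy (1 - t) s (by linarith) (by linarith) hs0 hs1
        (by rw [← sg_swap]; exact he.symm)
      exact ⟨w, hw2, by rw [he, sg_swap, hw3]⟩
    · obtain ⟨w, hw1, -, hw3⟩ := hE p q hpq s t hs0 hs1 ht0 ht1 he
      exact ⟨w, hw1, hw3⟩
    · exact absurd rfl hne
    · exact absurd Sym2.eq_swap hne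
    · obtain ⟨w, hw1, -, hw3⟩ := hE p q hpq (1 - s) t (by linarith) (by linarith) ht0 ht1
        (by rw [← sg_swap]; exact he)
      exact ⟨w, hw1.symm, by rw [sg_swap, hw3]⟩
    · exact absurd Sym2.eq_swap hne
    · exact absurd rfl hne

theorem exists_Mx (h : PL G P) : ∃ G' : SimpleGraph V, G ≤ G' ∧ Mx G' P := by
  have hfin : {H : SimpleGraph V | PL H P}.Finite := Set.toFinite _
  obtain ⟨G', hle, hmax⟩ := hfin.exists_le_maximal (show G ∈ {H : SimpleGraph V | PL H P} from h)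
  have hP : PL G' P := hmax.1
  refine ⟨G', hle, hP.inj, hP.pl2, hP.pl3, ?_⟩
  intro a b hab h1 h2
  have h3 := PL_addE hP a b hab h1 h2
  have h4 : G' ≤ addE G' a b hab := fun x y hxy => Or.inl hxy
  have h5 := hmax.2 h3 h4
  exact h5 (Or.inr (Or.inl ⟨rfl, rfl⟩))

/-- outer points -/
def op (R : ℝ) : Fin 3 → ℝ × ℝ := ![(-4 * R, -2 * R), (0, 6 * R), (4 * R, -2 * R)]

theorem op_ne (R : ℝ) (hR : 0 < R) (i j k : Fin 3) (hij : i ≠ j) (hjk : j ≠ k) (hik : i ≠ k) :
    crs (op R i) (op R j) (op R k) ≠ 0 := by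
  have : 0 < R * R := by positivity
  fin_cases i <;> fin_cases j <;> fin_cases k <;> simp [op, crs] at * <;>
    first
      | exact ⟨fun h => by nlinarith, fun h => by nlinarith⟩
      | (intro h; nlinarith)

theorem op_neg (R : ℝ) (hR : 0 < R) : crs (op R 0) (op R 1) (op R 2) < 0 := by
  have : 0 < R * R := by positivity
  simp [op, crs]
  nlinarith

theorem op_in (R : ℝ) (hR : 0 < R) (x : ℝ × ℝ) (h1 : |x.1| ≤ R) (h2 : |x.2| ≤ R) :
    crs (op R 0) (op R 1) x < 0 ∧ crs (op R 1) (op R 2) x < 0 ∧ crs (op R 2) (op R 0) x < 0 := by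
  rw [abs_le] at h1 h2
  refine ⟨?_, ?_, ?_⟩ <;> simp [op, crs] <;> nlinarith


/-- the graph with the outer triangle added -/
def G0 {n : ℕ} (G : SimpleGraph (Fin n)) : SimpleGraph (Fin n ⊕ Fin 3) where
  Adj x y := (∃ u v, x = Sum.inl u ∧ y = Sum.inl v ∧ G.Adj u v) ∨
    (∃ i j : Fin 3, x = Sum.inr i ∧ y = Sum.inr j ∧ i ≠ j)
  symm := ⟨by
    rintro x y (⟨u, v, rfl, rfl, h⟩ | ⟨i, j, rfl, rfl, h⟩)
    · exact Or.inl ⟨v, u, rfl, rfl, h.symm⟩
    · exact Or.inr ⟨j, i, rfl, rfl, h.symm⟩⟩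
  loopless := ⟨by
    rintro x (⟨u, v, h1, h2, h⟩ | ⟨i, j, h1, h2, h⟩)
    · rw [h1] at h2
      exact h.ne (Sum.inl_injective h2)
    · rw [h1] at h2
      exact h (Sum.inr_injective h2)⟩

/-- positions -/
def PP {n : ℕ} (p : Fin n → ℝ × ℝ) (R : ℝ) : Fin n ⊕ Fin 3 → ℝ × ℝ := Sum.elim p (op R)

theorem op_ne' (R : ℝ) (hR : 0 < R) (i j : Fin 3) (x : ℝ × ℝ) (hij : i ≠ j) (h1 : |x.1| ≤ R) (h2 : |x.2| ≤ R) :
    crs (op R i) (op R j) x < 0 ∨ 0 < crs (op R i) (op R j) x := by
  obtain ⟨e1, e2, e3⟩ := op_in R hR x h1 h2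
  have sw : ∀ a b c : ℝ × ℝ, crs a b c = - crs b a c := by intro a b c; unfold crs; ring
  have key : ∀ i j : Fin 3, i ≠ j → ((i = 0 ∧ j = 1) ∨ (i = 1 ∧ j = 2) ∨ (i = 2 ∧ j = 0)) ∨
    ((i = 1 ∧ j = 0) ∨ (i = 2 ∧ j = 1) ∨ (i = 0 ∧ j = 2)) := by decide
  rcases key i j hij with (⟨rfl, rfl⟩ | ⟨rfl, rfl⟩ | ⟨rfl, rfl⟩) | (⟨rfl, rfl⟩ | ⟨rfl, rfl⟩ | ⟨rfl, rfl⟩)
  · exact Or.inl e1
  · exact Or.inl e2
  · exact Or.inl e3
  · right; rw [sw]; linarith
  · right; rw [sw]; linarith
  · right; rw [sw]; linarith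

theorem abs_sg {R x y t : ℝ} (hx : |x| ≤ R) (hy : |y| ≤ R) (h0 : 0 ≤ t) (h1 : t ≤ 1) :
    |(1 - t) * x + t * y| ≤ R := by
  rw [abs_le] at *
  have h2 : 0 ≤ 1 - t := by linarith
  constructor <;> nlinarith [mul_le_mul_of_nonneg_left hx.1 h2, mul_le_mul_of_nonneg_left hx.2 h2,
    mul_le_mul_of_nonneg_left hy.1 h0, mul_le_mul_of_nonneg_left hy.2 h0]

theorem PL_G0 {n : ℕ} {G : SimpleGraph (Fin n)} {p : Fin n → ℝ × ℝ} (h : PL G p) (R : ℝ) (hR : 0 < R)
    (hb : ∀ i, |(p i).1| ≤ R ∧ |(p i).2| ≤ R) : PL (G0 G) (PP p R) := by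
  have hsg : ∀ i j t, 0 ≤ t → t ≤ 1 → |(sg (p i) (p j) t).1| ≤ R ∧ |(sg (p i) (p j) t).2| ≤ R := by
    intro i j t h0 h1
    exact ⟨abs_sg (hb i).1 (hb j).1 h0 h1, abs_sg (hb i).2 (hb j).2 h0 h1⟩
  -- inner point is not on an outer line
  have hio : ∀ i j : Fin 3, i ≠ j → ∀ (x : ℝ × ℝ) (t : ℝ), |x.1| ≤ R → |x.2| ≤ R → x ≠ sg (op R i) (op R j) t := by
    intro i j hij x t h1 h2 he
    have e : crs (op R i) (op R j) x = 0 := by
      rw [he, (aff_crs _ _).sg, crs_self1, crs_self2]; ring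
    rcases op_ne' R hR i j x hij h1 h2 with h3 | h3 <;> linarith
  have hinj3 : ∀ i j : Fin 3, op R i = op R j → i = j := by
    intro i j he
    by_contra hij
    have hk' : ∀ i j : Fin 3, ∃ k : Fin 3, i ≠ k ∧ j ≠ k := by decide
    obtain ⟨k, hk⟩ := hk' i j
    have := op_ne R hR i j k hij hk.2 hk.1
    apply this
    rw [he]
    unfold crs; ring
  have hop : ∀ j : Fin 3, ∃ k, k ≠ j := by decide
  have hone : ∀ (x : ℝ × ℝ) (j : Fin 3), |x.1| ≤ R → |x.2| ≤ R → x ≠ op R j := by
    intro x j h1 h2 he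
    obtain ⟨k, hk⟩ := hop j
    exact hio k j hk x 1 h1 h2 (by rw [sg_one, he])
  have hadj3 : ∀ i j l : Fin 3, i ≠ j → i ≠ l → j ≠ l → ∀ s t, sg (op R i) (op R j) s = sg (op R i) (op R l) t →
      sg (op R i) (op R j) s = op R i := by
    intro i j l hij hil hjl s t he
    have e1 : crs (op R i) (op R j) (sg (op R i) (op R j) s) = 0 := by
      rw [(aff_crs _ _).sg, crs_self1, crs_self2]; ring
    rw [he, (aff_crs _ _).sg, crs_self1] at e1
    have e2 : t * crs (op R i) (op R j) (op R l) = 0 := by linarith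
    have e3 := (mul_eq_zero.1 e2).resolve_right (op_ne R hR i j l hij hjl hil)
    rw [he, e3, sg_zero]
  refine ⟨?_, ?_, ?_⟩
  · rintro (i | i) (j | j) he
    · have he' : p i = p j := he
      rw [h.inj he']
    · have he' : p i = op R j := he
      exact absurd he' (hone _ _ (hb i).1 (hb i).2)
    · have he' : op R i = p j := he
      exact absurd he'.symm (hone _ _ (hb j).1 (hb j).2)
    · have he' : op R i = op R j := he
      rw [hinj3 _ _ he']
  · rintro x y w (⟨u, v, rfl, rfl, hA⟩ | ⟨i, j, rfl, rfl, hA⟩) hx hy t ht0 ht1 he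
    · rcases w with w | w
      · have he' : p w = sg (p u) (p v) t := he
        exact h.pl2 u v w hA (fun e => hx (by rw [e])) (fun e => hy (by rw [e])) t ht0 ht1 he'
      · have he' : op R w = sg (p u) (p v) t := he
        exact hone _ _ (hsg u v t ht0 ht1).1 (hsg u v t ht0 ht1).2 he'.symm
    · rcases w with w | w
      · have he' : p w = sg (op R i) (op R j) t := he
        exact hio i j hA _ t (hb w).1 (hb w).2 he'
      · have he' : op R w = sg (op R i) (op R j) t := he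
        have hwi : w ≠ i := fun e => hx (by rw [e])
        have hwj : w ≠ j := fun e => hy (by rw [e])
        apply op_ne R hR i j w hA hwj.symm hwi.symm
        rw [he', (aff_crs _ _).sg, crs_self1, crs_self2]; ring
  · rintro x y a b (⟨u, v, rfl, rfl, hA⟩ | ⟨i, j, rfl, rfl, hA⟩) (⟨u', v', rfl, rfl, hB⟩ | ⟨k, l, rfl, rfl, hB⟩)
      hne s t hs0 hs1 ht0 ht1 he
    · have he' : sg (p u) (p v) s = sg (p u') (p v') t := he
      obtain ⟨w, hw, hw2⟩ := h.pl3 u v u' v' hA hB (by
        intro e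
        apply hne
        rw [Sym2.eq_iff] at e
        rcases e with ⟨rfl, rfl⟩ | ⟨rfl, rfl⟩
        · rfl
        · exact Sym2.eq_swap) s t hs0 hs1 ht0 ht1 he'
      refine ⟨Sum.inl w, ?_, hw2⟩
      rcases hw with rfl | rfl
      · exact Or.inl rfl
      · exact Or.inr rfl
    · have he' : sg (p u) (p v) s = sg (op R k) (op R l) t := he
      exact absurd he' (hio k l hB _ t (hsg u v s hs0 hs1).1 (hsg u v s hs0 hs1).2)
    · have he' : sg (op R i) (op R j) s = sg (p u') (p v') t := he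
      exact absurd he'.symm (hio i j hA _ s (hsg u' v' t ht0 ht1).1 (hsg u' v' t ht0 ht1).2)
    · have he' : sg (op R i) (op R j) s = sg (op R k) (op R l) t := he
      have hne' : ¬ ((i = k ∧ j = l) ∨ (i = l ∧ j = k)) := by
        rintro (⟨rfl, rfl⟩ | ⟨rfl, rfl⟩)
        · exact hne rfl
        · exact hne Sym2.eq_swap
      have key : ∀ i j k l : Fin 3, i ≠ j → k ≠ l → ¬ ((i = k ∧ j = l) ∨ (i = l ∧ j = k)) →
        (i = k ∧ j ≠ l) ∨ (i = l ∧ j ≠ k) ∨ (j = k ∧ i ≠ l) ∨ (j = l ∧ i ≠ k) := by decide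
      rcases key i j k l hA hB hne' with ⟨rfl, h1⟩ | ⟨rfl, h1⟩ | ⟨rfl, h1⟩ | ⟨rfl, h1⟩
      · exact ⟨Sum.inr i, Or.inl rfl, hadj3 i j l hA hB h1 s t he'⟩
      · refine ⟨Sum.inr i, Or.inl rfl, hadj3 i j k hA hB.symm h1 s (1 - t) ?_⟩
        rw [he', sg_swap]
      · refine ⟨Sum.inr j, Or.inr rfl, ?_⟩
        have := hadj3 j i l hA.symm hB h1 (1 - s) t (by rw [← sg_swap]; exact he')
        rw [← sg_swap] at this
        exact this
      · refine ⟨Sum.inr j, Or.inr rfl, ?_⟩
        have := hadj3 j i k hA.symm hB.symm h1 (1 - s) (1 - t) (by rw [← sg_swap, ← sg_swap]; exact he')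
        rw [← sg_swap] at this
        exact this

theorem crs_id (o0 o1 o2 a b x : ℝ × ℝ) :
    crs o1 o2 x * crs a b o0 + crs o2 o0 x * crs a b o1 + crs o0 o1 x * crs a b o2 =
      crs o0 o1 o2 * crs a b x := by
  unfold crs; ring

/-- a point strictly inside sees some outer vertex on the left of the line -/
theorem left_ex (o0 o1 o2 a b x : ℝ × ℝ) (hab : a ≠ b) (hx : crs a b x = 0)
    (ho : crs o0 o1 o2 < 0) (h0 : crs o1 o2 x < 0) (h1 : crs o2 o0 x < 0) (h2 : crs o0 o1 x < 0) :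
    0 < crs a b o0 ∨ 0 < crs a b o1 ∨ 0 < crs a b o2 := by
  by_contra hc
  push Not at hc
  obtain ⟨c0, c1, c2⟩ := hc
  have e := crs_id o0 o1 o2 a b x
  rw [hx, mul_zero] at e
  have k0 := mul_nonneg_of_nonpos_of_nonpos h0.le c0
  have k1 := mul_nonneg_of_nonpos_of_nonpos h1.le c1
  have k2 := mul_nonneg_of_nonpos_of_nonpos h2.le c2
  have z0 : crs a b o0 = 0 := (mul_eq_zero.1 (by linarith : crs o1 o2 x * crs a b o0 = 0)).resolve_left h0.ne
  have z1 : crs a b o1 = 0 := (mul_eq_zero.1 (by linarith : crs o2 o0 x * crs a b o1 = 0)).resolve_left h1.ne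
  have z2 : crs a b o2 = 0 := (mul_eq_zero.1 (by linarith : crs o0 o1 x * crs a b o2 = 0)).resolve_left h2.ne
  have e' := crs_id o0 o1 o2 a b (a.1 - (b.2 - a.2), a.2 + (b.1 - a.1))
  rw [z0, z1, z2] at e'
  have e'' : crs o0 o1 o2 * crs a b (a.1 - (b.2 - a.2), a.2 + (b.1 - a.1)) = 0 := by linarith
  have e3 := (mul_eq_zero.1 e'').resolve_left ho.ne
  unfold crs at e3
  simp only at e3
  have e4 : (b.1 - a.1) * (b.1 - a.1) + (b.2 - a.2) * (b.2 - a.2) = 0 := by linarith
  have h5 := mul_self_nonneg (b.1 - a.1)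
  have h6 := mul_self_nonneg (b.2 - a.2)
  have f1 := mul_self_eq_zero.1 (by linarith : (b.1 - a.1) * (b.1 - a.1) = 0)
  have f2 := mul_self_eq_zero.1 (by linarith : (b.2 - a.2) * (b.2 - a.2) = 0)
  exact hab (Prod.ext (by linarith) (by linarith))

end W_TG1

open W_TG1 in
theorem TG1 (n : ℕ) (G : SimpleGraph (Fin n)) (p : Fin n → ℝ × ℝ) (hp : Plane G p) :
    ∃ (G' : SimpleGraph (Fin n ⊕ Fin 3)) (P : Fin n ⊕ Fin 3 → ℝ × ℝ),
      (∀ u v, G.Adj u v → G'.Adj (Sum.inl u) (Sum.inl v)) ∧ Plane G' P ∧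
      G'.Adj (Sum.inr 0) (Sum.inr 1) ∧ G'.Adj (Sum.inr 1) (Sum.inr 2) ∧ G'.Adj (Sum.inr 2) (Sum.inr 0) ∧
      crs (P (Sum.inr 0)) (P (Sum.inr 1)) (P (Sum.inr 2)) < 0 ∧
      (∀ i : Fin n, crs (P (Sum.inr 0)) (P (Sum.inr 1)) (P (Sum.inl i)) < 0 ∧
        crs (P (Sum.inr 1)) (P (Sum.inr 2)) (P (Sum.inl i)) < 0 ∧
        crs (P (Sum.inr 2)) (P (Sum.inr 0)) (P (Sum.inl i)) < 0) ∧
      (∀ a b, G'.Adj a b → ¬ ((a = Sum.inr 0 ∧ b = Sum.inr 1) ∨ (a = Sum.inr 1 ∧ b = Sum.inr 2) ∨
          (a = Sum.inr 2 ∧ b = Sum.inr 0)) →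
        ∃ c, G'.Adj a c ∧ G'.Adj b c ∧ 0 < crs (P a) (P b) (P c) ∧
          ∀ x, x ≠ a → x ≠ b → x ≠ c → P x ∉ convexHull ℝ ({P a, P b, P c} : Set (ℝ × ℝ))) ∧
      (∀ i : Fin n, ∃ j, G'.Adj (Sum.inl i) j) := by
  obtain ⟨R, hR, hb⟩ : ∃ R : ℝ, 0 < R ∧ ∀ i, |(p i).1| ≤ R ∧ |(p i).2| ≤ R := by
    refine ⟨1 + ∑ i, (|(p i).1| + |(p i).2|), ?_, ?_⟩
    · have : 0 ≤ ∑ i, (|(p i).1| + |(p i).2|) := Finset.sum_nonneg (fun i _ => by positivity)
      linarith
    · intro i
      have := Finset.single_le_sum (f := fun i => |(p i).1| + |(p i).2|) (fun i _ => by positivity) (Finset.mem_univ i)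
      have h1 := abs_nonneg (p i).1
      have h2 := abs_nonneg (p i).2
      constructor <;> linarith
  obtain ⟨G', hle, M⟩ := exists_Mx (PL_G0 (PL_of_plane hp) R hR hb)
  have hin : ∀ i : Fin n, crs (op R 0) (op R 1) (p i) < 0 ∧ crs (op R 1) (op R 2) (p i) < 0 ∧
      crs (op R 2) (op R 0) (p i) < 0 := fun i => op_in R hR (p i) (hb i).1 (hb i).2
  refine ⟨G', PP p R, ?_, plane_of_PL ⟨M.inj, M.pl2, M.pl3⟩, ?_, ?_, ?_, ?_, ?_, ?_, ?_⟩
  · intro u v huv
    exact hle (Or.inl ⟨u, v, rfl, rfl, huv⟩)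
  · exact hle (Or.inr ⟨0, 1, rfl, rfl, by decide⟩)
  · exact hle (Or.inr ⟨1, 2, rfl, rfl, by decide⟩)
  · exact hle (Or.inr ⟨2, 0, rfl, rfl, by decide⟩)
  · exact op_neg R hR
  · exact hin
  · intro a b hab hno
    -- a vertex on the left
    have hleft : ∃ x, 0 < crs (PP p R a) (PP p R b) (PP p R x) := by
      have hne : PP p R a ≠ PP p R b := fun e => hab.ne (M.inj e)
      have fin : ∀ i : Fin n, crs (PP p R a) (PP p R b) (p i) = 0 →
          ∃ x, 0 < crs (PP p R a) (PP p R b) (PP p R x) := by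
        intro i hi
        obtain ⟨h0, h1, h2⟩ := hin i
        rcases left_ex (op R 0) (op R 1) (op R 2) _ _ (p i) hne hi (op_neg R hR) h1 h2 h0 with h | h | h
        · exact ⟨Sum.inr 0, h⟩
        · exact ⟨Sum.inr 1, h⟩
        · exact ⟨Sum.inr 2, h⟩
      rcases a with a | a
      · exact fin a (crs_self1 _ _)
      · rcases b with b | b
        · exact fin b (crs_self2 _ _)
        · have key : ∀ i j : Fin 3, i ≠ j → ((i = 0 ∧ j = 1) ∨ (i = 1 ∧ j = 2) ∨ (i = 2 ∧ j = 0)) ∨
            ((i = 1 ∧ j = 0) ∨ (i = 2 ∧ j = 1) ∨ (i = 0 ∧ j = 2)) := by decide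
          have hab' : a ≠ b := fun e => hab.ne (by rw [e])
          have hn := op_neg R hR
          rcases key a b hab' with (⟨rfl, rfl⟩ | ⟨rfl, rfl⟩ | ⟨rfl, rfl⟩) | (⟨rfl, rfl⟩ | ⟨rfl, rfl⟩ | ⟨rfl, rfl⟩)
          · exact absurd (Or.inl ⟨rfl, rfl⟩) hno
          · exact absurd (Or.inr (Or.inl ⟨rfl, rfl⟩)) hno
          · exact absurd (Or.inr (Or.inr ⟨rfl, rfl⟩)) hno
          · refine ⟨Sum.inr 2, ?_⟩
            show 0 < crs (op R 1) (op R 0) (op R 2)
            have : crs (op R 1) (op R 0) (op R 2) = - crs (op R 0) (op R 1) (op R 2) := by unfold crs; ring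
            linarith
          · refine ⟨Sum.inr 0, ?_⟩
            show 0 < crs (op R 2) (op R 1) (op R 0)
            have : crs (op R 2) (op R 1) (op R 0) = - crs (op R 0) (op R 1) (op R 2) := by unfold crs; ring
            linarith
          · refine ⟨Sum.inr 1, ?_⟩
            show 0 < crs (op R 0) (op R 2) (op R 1)
            have : crs (op R 0) (op R 2) (op R 1) = - crs (op R 0) (op R 1) (op R 2) := by unfold crs; ring
            linarith
    obtain ⟨x, hx⟩ := hleft
    obtain ⟨c0, hac0, hc0⟩ := step1 M a b x hx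
    exact tri_ex M a b c0 hab hac0 hc0
  · intro i
    exact has_nbr M (Sum.inl i) (Sum.inr 0) (by simp)


end Pool.Agent.H891WLC
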