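import Pool.Agent.H891WLC.Defs

set_option autoImplicit false

namespace Pool.Agent.H891WLC

namespace W_TG2

def cr (x y : ℝ × ℝ) : ℝ := x.1 * y.2 - x.2 * y.1

def dt (x y : ℝ × ℝ) : ℝ := x.1 * y.1 + x.2 * y.2

theorem crs_eq (a b c : ℝ × ℝ) : crs a b c = cr (b - a) (c - a) := by
  simp only [crs, cr, Prod.fst_sub, Prod.snd_sub]

theorem crs_rot (a b c : ℝ × ℝ) : crs b c a = crs a b c := by
  unfold crs; ring

theorem crs_swap (a b c : ℝ × ℝ) : crs a c b = - crs a b c := by
  unfold crs; ring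

theorem key (x y d : ℝ × ℝ) : cr x y * dt d d = cr x d * dt y d - dt x d * cr y d := by
  unfold cr dt; ring

theorem cr_swap (x y : ℝ × ℝ) : cr x y = - cr y x := by
  unfold cr; ring

theorem dt_pos {d : ℝ × ℝ} (hd : d ≠ 0) : 0 < dt d d := by
  have h : d.1 ≠ 0 ∨ d.2 ≠ 0 := by
    by_contra h
    push Not at h
    exact hd (Prod.ext h.1 h.2)
  unfold dt
  rcases h with h | h
  · have := mul_self_pos.2 h
    nlinarith [mul_self_nonneg d.2]
  · have := mul_self_pos.2 h
    nlinarith [mul_self_nonneg d.1]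

theorem cover {V : Type} (O : Finset V) (hne : O.Nonempty) (X : V → ℝ × ℝ) (R : V → V → Prop)
    (hR : ∀ x ∈ O, ∃ y ∈ O, R x y ∧ 0 < cr (X x) (X y)) (d : ℝ × ℝ) (hd : d ≠ 0) :
    ∃ x ∈ O, ∃ y ∈ O, R x y ∧ 0 < cr (X x) (X y) ∧ 0 ≤ cr (X x) d ∧ 0 < cr d (X y) := by
  classical
  have hdd := dt_pos hd
  by_cases h0 : ∃ x ∈ O, cr (X x) d = 0 ∧ 0 < dt (X x) d
  · obtain ⟨x, hx, h1, h2⟩ := h0
    obtain ⟨y, hy, hr, hc⟩ := hR x hx
    refine ⟨x, hx, y, hy, hr, hc, h1.ge, ?_⟩
    have hk := key (X x) (X y) d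
    rw [h1, zero_mul, zero_sub] at hk
    have h3 : 0 < cr (X x) (X y) * dt d d := mul_pos hc hdd
    rw [cr_swap]
    by_contra h4
    have h5 : 0 ≤ cr (X y) d := by linarith
    have := mul_nonneg h2.le h5
    linarith
  by_cases h1 : ∃ x ∈ O, 0 < cr (X x) d
  · obtain ⟨x0, hx0, hx0'⟩ := h1
    obtain ⟨x, hx, hm⟩ := Finset.exists_max_image (O.filter (fun x => 0 < cr (X x) d))
      (fun x => dt (X x) d / cr (X x) d) ⟨x0, Finset.mem_filter.2 ⟨hx0, hx0'⟩⟩
    rw [Finset.mem_filter] at hx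
    obtain ⟨y, hy, hr, hc⟩ := hR x hx.1
    refine ⟨x, hx.1, y, hy, hr, hc, hx.2.le, ?_⟩
    have hk := key (X x) (X y) d
    have h3 : 0 < cr (X x) (X y) * dt d d := mul_pos hc hdd
    rw [cr_swap]
    by_contra h4
    have h5 : 0 ≤ cr (X y) d := by linarith
    rcases h5.eq_or_lt with h6 | h6
    · rw [← h6, mul_zero, sub_zero] at hk
      have h7 : 0 < dt (X y) d := by
        by_contra h8
        have := mul_nonneg hx.2.le (sub_nonneg.2 (not_lt.1 h8))
        nlinarith
      exact h0 ⟨y, hy, h6.symm, h7⟩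
    · have h7 := hm y (Finset.mem_filter.2 ⟨hy, h6⟩)
      rw [div_le_div_iff₀ h6 hx.2] at h7
      nlinarith
  · push Not at h1
    by_cases h2 : ∃ x ∈ O, cr (X x) d = 0
    · obtain ⟨x, hx, hx'⟩ := h2
      obtain ⟨y, hy, hr, hc⟩ := hR x hx
      have hk := key (X x) (X y) d
      have h3 : 0 < cr (X x) (X y) * dt d d := mul_pos hc hdd
      rw [hx', zero_mul, zero_sub] at hk
      have h4 : dt (X x) d ≤ 0 := by
        by_contra h5
        exact h0 ⟨x, hx, hx', not_le.1 h5⟩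
      have h5 := h1 y hy
      have := mul_nonneg_of_nonpos_of_nonpos h4 h5
      linarith
    · push Not at h2
      obtain ⟨x, hx, hm⟩ := Finset.exists_max_image O (fun x => dt (X x) d / cr (X x) d) hne
      obtain ⟨y, hy, hr, hc⟩ := hR x hx
      have hk := key (X x) (X y) d
      have h3 : 0 < cr (X x) (X y) * dt d d := mul_pos hc hdd
      have hx' : cr (X x) d < 0 := lt_of_le_of_ne (h1 x hx) (h2 x hx)
      have hy' : cr (X y) d < 0 := lt_of_le_of_ne (h1 y hy) (h2 y hy)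
      have h7 := hm y hy
      have h8 : dt (X y) d * cr (X x) d ≤ dt (X x) d * cr (X y) d := by
        have h9 : 0 < cr (X x) d * cr (X y) d := mul_pos_of_neg_of_neg hx' hy'
        have hxn := hx'.ne
        have hyn := hy'.ne
        have h10 := mul_le_mul_of_nonneg_right h7 h9.le
        have e1 : dt (X y) d / cr (X y) d * (cr (X x) d * cr (X y) d) =
            dt (X y) d * cr (X x) d := by
          field_simp
        have e2 : dt (X x) d / cr (X x) d * (cr (X x) d * cr (X y) d) =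
            dt (X x) d * cr (X y) d := by
          field_simp
        rw [e1, e2] at h10
        exact h10
      nlinarith

/-- empty counterclockwise triangles -/
def FP {V : Type} (G : SimpleGraph V) (P : V → ℝ × ℝ) (a b c : V) : Prop :=
  G.Adj a b ∧ G.Adj b c ∧ G.Adj c a ∧ 0 < crs (P a) (P b) (P c) ∧
    ∀ x, x ≠ a → x ≠ b → x ≠ c → P x ∉ convexHull ℝ ({P a, P b, P c} : Set (ℝ × ℝ))

theorem FP.rot {V : Type} {G : SimpleGraph V} {P : V → ℝ × ℝ} {a b c : V} (h : FP G P a b c) :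
    FP G P b c a := by
  obtain ⟨h1, h2, h3, h4, h5⟩ := h
  refine ⟨h2, h3, h1, by rw [crs_rot]; exact h4, ?_⟩
  intro x hb hc ha
  have hs : ({P b, P c, P a} : Set (ℝ × ℝ)) = {P a, P b, P c} := by
    ext z
    simp only [Set.mem_insert_iff, Set.mem_singleton_iff]
    tauto
  rw [hs]
  exact h5 x ha hb hc

theorem ray {V : Type} {G : SimpleGraph V} {P : V → ℝ × ℝ} (hP : Plane G P) {v a b y : V}
    (h : FP G P v a b) (hy : G.Adj v y) (h1 : 0 ≤ crs (P v) (P y) (P b))
    (h2 : 0 ≤ crs (P v) (P a) (P y)) : y = a ∨ y = b := by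
  by_contra hne
  push Not at hne
  obtain ⟨ha, hb⟩ := hne
  obtain ⟨hva, hab, hbv, hD, hemp⟩ := h
  set D := crs (P v) (P a) (P b) with hDd
  set α := crs (P v) (P y) (P b) / D with hα
  set β := crs (P v) (P a) (P y) / D with hβ
  have hα0 : 0 ≤ α := div_nonneg h1 hD.le
  have hβ0 : 0 ≤ β := div_nonneg h2 hD.le
  have eq1 : (P y).1 - (P v).1 = α * ((P a).1 - (P v).1) + β * ((P b).1 - (P v).1) := by
    rw [hα, hβ]
    field_simp
    rw [hDd]
    unfold crs
    ring
  have eq2 : (P y).2 - (P v).2 = α * ((P a).2 - (P v).2) + β * ((P b).2 - (P v).2) := by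
    rw [hα, hβ]
    field_simp
    rw [hDd]
    unfold crs
    ring
  by_cases hs : α + β ≤ 1
  · apply hemp y hy.ne' ha hb
    have hm := (convex_convexHull ℝ ({P v, P a, P b} : Set (ℝ × ℝ))).sum_mem
      (t := (Finset.univ : Finset (Fin 3))) (w := ![1 - α - β, α, β]) (z := ![P v, P a, P b])
      (by
        intro i _
        fin_cases i
        · show 0 ≤ 1 - α - β
          linarith
        · exact hα0
        · exact hβ0)
      (by
        rw [Fin.sum_univ_three]
        show (1 - α - β) + α + β = 1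
        ring)
      (by
        intro i _
        apply subset_convexHull
        fin_cases i
        · simp
        · simp
        · simp)
    rw [Fin.sum_univ_three] at hm
    have he : P y = (1 - α - β) • P v + α • P a + β • P b := by
      apply Prod.ext
      · simp only [Prod.fst_add, Prod.smul_fst, smul_eq_mul]
        linarith
      · simp only [Prod.snd_add, Prod.smul_snd, smul_eq_mul]
        linarith
    rw [he]
    exact hm
  · push Not at hs
    have hs0 : 0 < α + β := by linarith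
    have hz1 : (1 - 1 / (α + β)) • P v + (1 / (α + β)) • P y ∈ segment ℝ (P v) (P y) := by
      refine ⟨1 - 1 / (α + β), 1 / (α + β), ?_, by positivity, by ring, rfl⟩
      have : 1 / (α + β) ≤ 1 := by
        rw [div_le_one hs0]
        exact hs.le
      linarith
    have hz2 : (1 - 1 / (α + β)) • P v + (1 / (α + β)) • P y ∈ segment ℝ (P a) (P b) := by
      refine ⟨α / (α + β), β / (α + β), by positivity, by positivity, by field_simp, ?_⟩
      apply Prod.ext
      · simp only [Prod.fst_add, Prod.smul_fst, smul_eq_mul]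
        have e : (P y).1 = (P v).1 + (α * ((P a).1 - (P v).1) + β * ((P b).1 - (P v).1)) := by
          linarith
        rw [e]
        field_simp
        ring
      · simp only [Prod.snd_add, Prod.smul_snd, smul_eq_mul]
        have e : (P y).2 = (P v).2 + (α * ((P a).2 - (P v).2) + β * ((P b).2 - (P v).2)) := by
          linarith
        rw [e]
        field_simp
        ring
    obtain ⟨w, hw1, hw2, -⟩ := hP.2.2 v y a b hy hab (by
      intro he
      rw [Sym2.eq_iff] at he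
      rcases he with ⟨he, -⟩ | ⟨he, -⟩
      · exact hva.ne he
      · exact hbv.ne he.symm) _ hz1 hz2
    rcases hw1 with rfl | rfl
    · rcases hw2 with h | h
      · exact hva.ne h
      · exact hbv.ne h.symm
    · rcases hw2 with h | h
      · exact ha h
      · exact hb h

/-- all the data -/
structure Ctx {V : Type} (G : SimpleGraph V) (P : V → ℝ × ℝ) (o1 o2 o3 : V) : Prop where
  plane : Plane G P
  adj : ∀ v p q, IsRot o1 o2 o3 v p q → G.Adj v p
  o1v : ∀ v p q, IsRot o1 o2 o3 v p q → ∀ z, z ≠ v → z ≠ p → crs (P v) (P p) (P z) < 0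
  tri : ∀ a b, G.Adj a b → (∀ q, ¬ IsRot o1 o2 o3 a b q) → ∃ c, FP G P a b c
  nb : ∀ v, ∃ j, G.Adj v j

theorem rotR {V : Type} {o1 o2 o3 a b c : V} (h : IsRot o1 o2 o3 a b c) :
    IsRot o1 o2 o3 b c a := by
  rcases h with ⟨rfl, rfl, rfl⟩ | ⟨rfl, rfl, rfl⟩ | ⟨rfl, rfl, rfl⟩ <;> simp [IsRot]

/-- the faces -/
def Fc {V : Type} (G : SimpleGraph V) (P : V → ℝ × ℝ) (o1 o2 o3 : V) (a b c : V) : Prop :=
  IsRot o1 o2 o3 a b c ∨ FP G P a b c

section ctx

variable {V : Type} {G : SimpleGraph V} {P : V → ℝ × ℝ} {o1 o2 o3 : V}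

theorem Ctx.neR (C : Ctx G P o1 o2 o3) {a b c : V} (h : IsRot o1 o2 o3 a b c) :
    a ≠ b ∧ b ≠ c ∧ c ≠ a :=
  ⟨(C.adj _ _ _ h).ne, (C.adj _ _ _ (rotR h)).ne, (C.adj _ _ _ (rotR (rotR h))).ne⟩

theorem Ctx.uniqR (C : Ctx G P o1 o2 o3) {a b c b' c' : V} (h : IsRot o1 o2 o3 a b c)
    (h' : IsRot o1 o2 o3 a b' c') : b = b' ∧ c = c' := by
  have h0 : IsRot o1 o2 o3 o1 o2 o3 := Or.inl ⟨rfl, rfl, rfl⟩
  obtain ⟨d1, d2, d3⟩ := C.neR h0
  rcases h with ⟨rfl, rfl, rfl⟩ | ⟨rfl, rfl, rfl⟩ | ⟨rfl, rfl, rfl⟩ <;>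
  rcases h' with ⟨h1, h2, h3⟩ | ⟨h1, h2, h3⟩ | ⟨h1, h2, h3⟩ <;>
  first
    | exact ⟨h2.symm, h3.symm⟩
    | exact absurd h1 d1
    | exact absurd h1 d2
    | exact absurd h1 d3
    | exact absurd h1.symm d1
    | exact absurd h1.symm d2
    | exact absurd h1.symm d3

theorem Fc.rot {a b c : V} (h : Fc G P o1 o2 o3 a b c) : Fc G P o1 o2 o3 b c a := by
  rcases h with h | h
  · exact Or.inl (rotR h)
  · exact Or.inr h.rot

theorem Ctx.adjF (C : Ctx G P o1 o2 o3) {a b c : V} (h : Fc G P o1 o2 o3 a b c) : G.Adj a b := by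
  rcases h with h | h
  · exact C.adj _ _ _ h
  · exact h.1

theorem Ctx.exF (C : Ctx G P o1 o2 o3) {a b : V} (h : G.Adj a b) :
    ∃ c, Fc G P o1 o2 o3 a b c := by
  by_cases hq : ∃ q, IsRot o1 o2 o3 a b q
  · obtain ⟨q, hq⟩ := hq
    exact ⟨q, Or.inl hq⟩
  · push Not at hq
    obtain ⟨c, hc⟩ := C.tri a b h hq
    exact ⟨c, Or.inr hc⟩

theorem Ctx.noFP (C : Ctx G P o1 o2 o3) {a b c d : V} (h : IsRot o1 o2 o3 a b c)
    (h' : FP G P a b d) : False := by
  have h1 := C.o1v a b c h d h'.2.2.1.ne h'.2.1.ne'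
  exact absurd h'.2.2.2.1 (not_lt.2 h1.le)

theorem Ctx.uniqF (C : Ctx G P o1 o2 o3) {a b c d : V} (h : Fc G P o1 o2 o3 a b c)
    (h' : Fc G P o1 o2 o3 a b d) : c = d := by
  rcases h with h | h
  · rcases h' with h' | h'
    · exact (C.uniqR h h').2
    · exact (C.noFP h h').elim
  · rcases h' with h' | h'
    · exact (C.noFP h' h).elim
    · rcases le_total 0 (crs (P a) (P d) (P c)) with h1 | h1
      · have := ray C.plane h h'.2.2.1.symm h1 h'.2.2.2.1.le
        rcases this with h2 | h2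
        · exact absurd h2.symm h'.2.1.ne
        · exact h2.symm
      · have h3 : 0 ≤ crs (P a) (P c) (P d) := by
          rw [crs_swap]
          linarith
        have := ray C.plane h' h.2.2.1.symm h3 h.2.2.2.1.le
        rcases this with h2 | h2
        · exact absurd h2.symm h.2.1.ne
        · exact h2

theorem Ctx.adj_of_reach (C : Ctx G P o1 o2 o3) {v a x : V} (ha : G.Adj v a)
    (h : Relation.ReflTransGen (fun x y => Fc G P o1 o2 o3 v x y) a x) : G.Adj v x := by
  rcases Relation.ReflTransGen.cases_tail h with h | ⟨c, -, hc⟩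
  · rw [h]
    exact ha
  · exact (C.adjF hc.rot.rot).symm

/-- denominators -/
noncomputable def tt (P : V → ℝ × ℝ) (v p q x : V) : ℝ :=
  crs (P v) (P q) (P x) / (crs (P v) (P x) (P p) + crs (P v) (P q) (P x))

theorem Ctx.Apos (C : Ctx G P o1 o2 o3) {v p q : V} (h : IsRot o1 o2 o3 v p q) {x : V}
    (hxv : x ≠ v) (hxp : x ≠ p) : 0 < crs (P v) (P x) (P p) := by
  have := C.o1v v p q h x hxv hxp
  rw [crs_swap]
  linarith

theorem Ctx.Bpos (C : Ctx G P o1 o2 o3) {v p q : V} (h : IsRot o1 o2 o3 v p q) {x : V}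
    (hxv : x ≠ v) (hxq : x ≠ q) : 0 < crs (P v) (P q) (P x) := by
  have := C.o1v q v p (rotR (rotR h)) x hxq hxv
  have e : crs (P v) (P q) (P x) = - crs (P q) (P v) (P x) := by
    unfold crs; ring
  rw [e]
  linarith

theorem crs_self (a b : ℝ × ℝ) : crs a b b = 0 := by
  unfold crs; ring

theorem Ctx.Anonneg (C : Ctx G P o1 o2 o3) {v p q : V} (h : IsRot o1 o2 o3 v p q) {x : V}
    (hxv : x ≠ v) : 0 ≤ crs (P v) (P x) (P p) := by
  by_cases hxp : x = p
  · rw [hxp, crs_self]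
  · exact (C.Apos h hxv hxp).le

theorem Ctx.Bnonneg (C : Ctx G P o1 o2 o3) {v p q : V} (h : IsRot o1 o2 o3 v p q) {x : V}
    (hxv : x ≠ v) : 0 ≤ crs (P v) (P q) (P x) := by
  by_cases hxq : x = q
  · rw [hxq, crs_self]
  · exact (C.Bpos h hxv hxq).le

theorem Ctx.ABpos (C : Ctx G P o1 o2 o3) {v p q : V} (h : IsRot o1 o2 o3 v p q) {x : V}
    (hxv : x ≠ v) : 0 < crs (P v) (P x) (P p) + crs (P v) (P q) (P x) := by
  by_cases hxp : x = p
  · have h1 := C.Bpos h hxv (by rw [hxp]; exact (C.neR h).2.1)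
    have h2 := C.Anonneg h hxv
    linarith
  · have h1 := C.Apos h hxv hxp
    have h2 := C.Bnonneg h hxv
    linarith

theorem Ctx.tlt (C : Ctx G P o1 o2 o3) {v p q : V} (h : IsRot o1 o2 o3 v p q) {x y : V}
    (hxv : x ≠ v) (hyv : y ≠ v) : tt P v p q x < tt P v p q y ↔ 0 < crs (P v) (P x) (P y) := by
  have hx := C.ABpos h hxv
  have hy := C.ABpos h hyv
  have hqp : 0 < crs (P v) (P q) (P p) :=
    C.Apos h (C.neR h).2.2 (C.neR h).2.1.symm
  have hid : crs (P v) (P x) (P y) * crs (P v) (P q) (P p) =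
      crs (P v) (P q) (P y) * crs (P v) (P x) (P p) -
        crs (P v) (P q) (P x) * crs (P v) (P y) (P p) := by
    unfold crs; ring
  unfold tt
  rw [div_lt_div_iff₀ hx hy]
  constructor
  · intro h1
    have h2 : 0 < crs (P v) (P x) (P y) * crs (P v) (P q) (P p) := by
      rw [hid]
      nlinarith
    exact (mul_pos_iff_of_pos_right hqp).1 h2
  · intro h1
    have h2 := mul_pos h1 hqp
    rw [hid] at h2
    nlinarith

theorem Ctx.link (C : Ctx G P o1 o2 o3) [Fintype V] {v a b c d : V}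
    (h : Fc G P o1 o2 o3 v a b) (h' : Fc G P o1 o2 o3 v c d) :
    Relation.ReflTransGen (fun x y => Fc G P o1 o2 o3 v x y) a c := by
  classical
  have hva : G.Adj v a := C.adjF h
  have hvc : G.Adj v c := C.adjF h'
  set O : Finset V := Finset.univ.filter
    (fun x => Relation.ReflTransGen (fun x y => Fc G P o1 o2 o3 v x y) a x) with hO
  have mO : ∀ x, x ∈ O ↔ Relation.ReflTransGen (fun x y => Fc G P o1 o2 o3 v x y) a x := by
    intro x
    rw [hO, Finset.mem_filter]
    simp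
  have haO : a ∈ O := (mO a).2 Relation.ReflTransGen.refl
  have hadj : ∀ x ∈ O, G.Adj v x := fun x hx => C.adj_of_reach hva ((mO x).1 hx)
  have hstep : ∀ x ∈ O, ∀ y, Fc G P o1 o2 o3 v x y → y ∈ O := fun x hx y hxy =>
    (mO y).2 (((mO x).1 hx).tail hxy)
  rw [← mO]
  by_cases hout : ∃ p q, IsRot o1 o2 o3 v p q
  · obtain ⟨p, q, R⟩ := hout
    have pos : ∀ x ∈ O, x ≠ p → ∃ y ∈ O, FP G P v x y := by
      intro x hx hxp
      obtain ⟨y, hy⟩ := C.exF (hadj x hx)
      rcases hy with hy | hy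
      · exact absurd (C.uniqR hy R).1 hxp
      · exact ⟨y, hstep x hx y (Or.inr hy), hy⟩
    have hpO : p ∈ O := by
      obtain ⟨x, hx, hm⟩ := Finset.exists_max_image O (tt P v p q) ⟨a, haO⟩
      by_contra hp
      have hxp : x ≠ p := by
        rintro rfl
        exact hp hx
      obtain ⟨y, hy, hf⟩ := pos x hx hxp
      have h1 := hm y hy
      have h2 := (C.tlt R (hadj x hx).ne' (hadj y hy).ne').2 hf.2.2.2.1
      linarith
    have hqO : q ∈ O := hstep p hpO q (Or.inl R)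
    by_cases hcp : c = p
    · rw [hcp]
      exact hpO
    by_cases hcq : c = q
    · rw [hcq]
      exact hqO
    have hqc : tt P v p q q < tt P v p q c :=
      (C.tlt R (hadj q hqO).ne' hvc.ne').2 (C.Bpos R hvc.ne' hcq)
    obtain ⟨x, hx, hm⟩ := Finset.exists_max_image
      (O.filter (fun x => tt P v p q x ≤ tt P v p q c)) (tt P v p q)
      ⟨q, Finset.mem_filter.2 ⟨hqO, hqc.le⟩⟩
    rw [Finset.mem_filter] at hx
    have hxp : x ≠ p := by
      rintro rfl
      have h1 := (C.tlt R hvc.ne' (hadj x hx.1).ne').2 (C.Apos R hvc.ne' hcp)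
      linarith [hx.2]
    obtain ⟨y, hy, hf⟩ := pos x hx.1 hxp
    have h2 := (C.tlt R (hadj x hx.1).ne' (hadj y hy).ne').2 hf.2.2.2.1
    have h3 : tt P v p q c < tt P v p q y := by
      by_contra h4
      have := hm y (Finset.mem_filter.2 ⟨hy, not_lt.1 h4⟩)
      linarith
    have h5 : 0 < crs (P v) (P c) (P y) := (C.tlt R hvc.ne' (hadj y hy).ne').1 h3
    have h6 : 0 ≤ crs (P v) (P x) (P c) := by
      by_contra h7
      have h8 : 0 < crs (P v) (P c) (P x) := by
        rw [crs_swap]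
        linarith
      have h9 := (C.tlt R hvc.ne' (hadj x hx.1).ne').2 h8
      linarith [hx.2]
    rcases ray C.plane hf hvc h5.le h6 with h7 | h7
    · rw [h7]
      exact hx.1
    · rw [h7]
      exact hy
  · push Not at hout
    obtain ⟨x, hx, y, hy, hf, -, h1, h2⟩ := cover O ⟨a, haO⟩ (fun x => P x - P v)
      (fun x y => FP G P v x y) (by
        intro x hx
        obtain ⟨y, hy⟩ := C.tri v x (hadj x hx) (hout x)
        refine ⟨y, hstep x hx y (Or.inr hy), hy, ?_⟩
        rw [← crs_eq]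
        exact hy.2.2.2.1) (P c - P v) (by
        intro h0
        exact hvc.ne' (C.plane.1 (sub_eq_zero.1 h0)))
    rw [← crs_eq] at h1 h2
    rcases ray C.plane hf hvc h2.le h1 with h7 | h7
    · rw [h7]
      exact hx
    · rw [h7]
      exact hy

theorem Ctx.symR (C : Ctx G P o1 o2 o3) {x y : V} (h : ∃ z, Fc G P o1 o2 o3 x y z) :
    ∃ z, Fc G P o1 o2 o3 y x z := by
  obtain ⟨z, hz⟩ := h
  exact C.exF (C.adjF hz).symm

theorem Ctx.conn1 (C : Ctx G P o1 o2 o3) [Fintype V] (u : V) :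
    Relation.ReflTransGen (fun x y => ∃ z, Fc G P o1 o2 o3 x y z) u o1 := by
  classical
  obtain ⟨w, hw, hm⟩ := Finset.exists_max_image (Finset.univ.filter
    (fun x => Relation.ReflTransGen (fun x y => ∃ z, Fc G P o1 o2 o3 x y z) u x))
    (fun x => (P x).1) ⟨u, by
      rw [Finset.mem_filter]
      exact ⟨Finset.mem_univ _, Relation.ReflTransGen.refl⟩⟩
  rw [Finset.mem_filter] at hw
  by_cases hout : ∃ p q, IsRot o1 o2 o3 w p q
  · obtain ⟨p, q, R⟩ := hout
    have h0 : IsRot o1 o2 o3 o1 o2 o3 := Or.inl ⟨rfl, rfl, rfl⟩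
    rcases R with ⟨h1, -, -⟩ | ⟨h1, -, -⟩ | ⟨h1, -, -⟩
    · rw [h1] at hw
      exact hw.2
    · refine hw.2.tail ?_
      rw [h1]
      exact C.exF (C.adj _ _ _ h0).symm
    · refine hw.2.tail ?_
      rw [h1]
      exact C.exF (C.adj _ _ _ (rotR (rotR h0)))
  · push Not at hout
    exfalso
    obtain ⟨j, hj⟩ := C.nb w
    obtain ⟨x, hx, y, hy, -, h0, h1, h2⟩ := cover (Finset.univ.filter (fun x => G.Adj w x))
      ⟨j, by rw [Finset.mem_filter]; exact ⟨Finset.mem_univ _, hj⟩⟩ (fun x => P x - P w)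
      (fun x y => FP G P w x y) (by
        intro x hx
        rw [Finset.mem_filter] at hx
        obtain ⟨y, hy⟩ := C.tri w x hx.2 (hout x)
        refine ⟨y, ?_, hy, ?_⟩
        · rw [Finset.mem_filter]
          exact ⟨Finset.mem_univ _, hy.2.2.1.symm⟩
        · rw [← crs_eq]
          exact hy.2.2.2.1) ((1 : ℝ), (0 : ℝ)) (by
        intro h0
        have := congrArg Prod.fst h0
        simp at this)
    rw [Finset.mem_filter] at hx hy
    have hmx := hm x (by
      rw [Finset.mem_filter]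
      exact ⟨Finset.mem_univ _, hw.2.tail (C.exF hx.2)⟩)
    have hmy := hm y (by
      rw [Finset.mem_filter]
      exact ⟨Finset.mem_univ _, hw.2.tail (C.exF hy.2)⟩)
    simp only [cr, Prod.fst_sub, Prod.snd_sub] at h0 h1 h2
    nlinarith

theorem Ctx.symT (C : Ctx G P o1 o2 o3) {u v : V}
    (h : Relation.ReflTransGen (fun x y => ∃ z, Fc G P o1 o2 o3 x y z) u v) :
    Relation.ReflTransGen (fun x y => ∃ z, Fc G P o1 o2 o3 x y z) v u := by
  induction h with
  | refl => exact Relation.ReflTransGen.refl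
  | tail _ hbc ih => exact Relation.ReflTransGen.head (C.symR hbc) ih

theorem Ctx.conn (C : Ctx G P o1 o2 o3) [Fintype V] (u v : V) :
    Relation.ReflTransGen (fun x y => ∃ z, Fc G P o1 o2 o3 x y z) u v :=
  (C.conn1 u).trans (C.symT (C.conn1 v))

theorem gid (g v b c x : ℝ × ℝ) : (dt g x - dt g v) * crs v b c =
    (dt g b - dt g v) * crs v x c + (dt g c - dt g v) * crs v b x := by
  unfold dt crs; ring

theorem dt_neg (g x : ℝ × ℝ) : dt (-g) x = - dt g x := by
  simp only [dt, Prod.fst_neg, Prod.snd_neg]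
  ring

theorem gen_exists {V : Type} [Fintype V] (P : V → ℝ × ℝ) (hP : Function.Injective P) :
    ∃ g : ℝ × ℝ, Function.Injective (fun x => dt g (P x)) := by
  classical
  obtain ⟨t, ht⟩ := Infinite.exists_notMem_finset ((Finset.univ : Finset (V × V)).image
    (fun xy => -((P xy.1).1 - (P xy.2).1) / ((P xy.1).2 - (P xy.2).2)))
  refine ⟨(1, t), ?_⟩
  intro x y hxy
  by_contra hne
  simp only [dt] at hxy
  by_cases h2 : (P x).2 = (P y).2
  · apply hne
    apply hP
    apply Prod.ext _ h2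
    rw [h2] at hxy
    linarith
  · apply ht
    rw [Finset.mem_image]
    refine ⟨(x, y), Finset.mem_univ _, ?_⟩
    have h3 : (P x).2 - (P y).2 ≠ 0 := sub_ne_zero.2 h2
    simp only
    rw [div_eq_iff h3]
    linarith

/-- up crossings -/
def Up (G : SimpleGraph V) (P : V → ℝ × ℝ) (o1 o2 o3 : V) (g : ℝ × ℝ) (v b c : V) : Prop :=
  Fc G P o1 o2 o3 v b c ∧ dt g (P b) < dt g (P v) ∧ dt g (P v) < dt g (P c)

theorem Ctx.ffu (C : Ctx G P o1 o2 o3) {g : ℝ × ℝ} {v b c b' c' : V} (h : FP G P v b c)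
    (h' : FP G P v b' c') (h1 : dt g (P b) < dt g (P v)) (h2 : dt g (P v) < dt g (P c))
    (h3 : dt g (P b') < dt g (P v)) (h4 : dt g (P v) < dt g (P c'))
    (hs : 0 ≤ crs (P v) (P b) (P b')) : b' = b := by
  have hid := gid g (P v) (P b) (P c) (P b')
  have e1 : (dt g (P b') - dt g (P v)) * crs (P v) (P b) (P c) < 0 :=
    mul_neg_of_neg_of_pos (by linarith) h.2.2.2.1
  have e2 : 0 ≤ (dt g (P c) - dt g (P v)) * crs (P v) (P b) (P b') :=
    mul_nonneg (by linarith) hs
  have e3 : 0 ≤ crs (P v) (P b') (P c) := by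
    by_contra h5
    have := mul_pos_of_neg_of_neg (a := dt g (P b) - dt g (P v)) (by linarith) (not_le.1 h5)
    linarith
  rcases ray C.plane h h'.1 e3 hs with h6 | h6
  · exact h6
  · rw [h6] at h3
    linarith

theorem Ctx.rf (C : Ctx G P o1 o2 o3) {g : ℝ × ℝ} {v b c p q : V}
    (h : IsRot o1 o2 o3 v p q) (h' : FP G P v b c) (h2 : dt g (P v) < dt g (P q))
    (h3 : dt g (P b) < dt g (P v)) (h4 : dt g (P v) < dt g (P c)) : False := by
  have hid := gid g (P v) (P b) (P c) (P q)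
  have e1 : 0 < (dt g (P q) - dt g (P v)) * crs (P v) (P b) (P c) :=
    mul_pos (by linarith) h'.2.2.2.1
  have e2 := C.Bnonneg h h'.2.2.1.ne
  have e3 := C.Bnonneg h h'.1.ne'
  have e4 : (dt g (P b) - dt g (P v)) * crs (P v) (P q) (P c) ≤ 0 :=
    mul_nonpos_of_nonpos_of_nonneg (by linarith) e2
  have e5 : crs (P v) (P b) (P q) ≤ 0 := by
    rw [crs_swap]
    linarith
  have e6 : (dt g (P c) - dt g (P v)) * crs (P v) (P b) (P q) ≤ 0 :=
    mul_nonpos_of_nonneg_of_nonpos (by linarith) e5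
  linarith

theorem Ctx.up_uniq (C : Ctx G P o1 o2 o3) {g : ℝ × ℝ} {v b c b' c' : V}
    (h : Up G P o1 o2 o3 g v b c) (h' : Up G P o1 o2 o3 g v b' c') : b = b' ∧ c = c' := by
  obtain ⟨hf, h1, h2⟩ := h
  obtain ⟨hf', h3, h4⟩ := h'
  have hb : b = b' := by
    rcases hf with hf | hf
    · rcases hf' with hf' | hf'
      · exact (C.uniqR hf hf').1
      · exact (C.rf hf hf' h2 h3 h4).elim
    · rcases hf' with hf' | hf'
      · exact (C.rf hf' hf h4 h1 h2).elim
      · rcases le_total 0 (crs (P v) (P b) (P b')) with hs | hs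
        · exact (C.ffu hf hf' h1 h2 h3 h4 hs).symm
        · exact C.ffu hf' hf h3 h4 h1 h2 (by rw [crs_swap]; linarith)
  subst hb
  exact ⟨rfl, C.uniqF hf hf'⟩

theorem Ctx.up_ex (C : Ctx G P o1 o2 o3) [Fintype V] {g : ℝ × ℝ}
    (hg : Function.Injective (fun x => dt g (P x))) {v x0 y0 : V}
    (hx0 : dt g (P x0) < dt g (P v)) (hy0 : dt g (P v) < dt g (P y0)) :
    ∃ b c, Up G P o1 o2 o3 g v b c := by
  classical
  by_cases hout : ∃ p q, IsRot o1 o2 o3 v p q
  · obtain ⟨p, q, R⟩ := hout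
    have hpv : p ≠ v := (C.neR R).1.symm
    have hqv : q ≠ v := (C.neR R).2.2
    have hqp : 0 < crs (P v) (P q) (P p) := C.Apos R hqv (C.neR R).2.1.symm
    have hcone : ∀ z, z ≠ v → (dt g (P z) - dt g (P v)) * crs (P v) (P q) (P p) =
        (dt g (P q) - dt g (P v)) * crs (P v) (P z) (P p) +
          (dt g (P p) - dt g (P v)) * crs (P v) (P q) (P z) := fun z _ => gid _ _ _ _ _
    have hgp : dt g (P p) ≠ dt g (P v) := fun h => hpv (hg h)
    have hgq : dt g (P q) ≠ dt g (P v) := fun h => hqv (hg h)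
    have hx0v : x0 ≠ v := by
      rintro rfl
      exact lt_irrefl _ hx0
    have hy0v : y0 ≠ v := by
      rintro rfl
      exact lt_irrefl _ hy0
    rcases lt_or_gt_of_ne hgp with hp | hp
    · rcases lt_or_gt_of_ne hgq with hq | hq
      · exfalso
        have h1 := hcone y0 hy0v
        have e1 : 0 < (dt g (P y0) - dt g (P v)) * crs (P v) (P q) (P p) :=
          mul_pos (by linarith) hqp
        have e2 : (dt g (P q) - dt g (P v)) * crs (P v) (P y0) (P p) ≤ 0 :=
          mul_nonpos_of_nonpos_of_nonneg (by linarith) (C.Anonneg R hy0v)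
        have e3 : (dt g (P p) - dt g (P v)) * crs (P v) (P q) (P y0) ≤ 0 :=
          mul_nonpos_of_nonpos_of_nonneg (by linarith) (C.Bnonneg R hy0v)
        linarith
      · exact ⟨p, q, Or.inl R, hp, hq⟩
    · rcases lt_or_gt_of_ne hgq with hq | hq
      · have hvq : G.Adj v q := (C.adj _ _ _ (rotR (rotR R))).symm
        obtain ⟨x, hx, hm⟩ := Finset.exists_max_image
          (Finset.univ.filter (fun x => G.Adj v x ∧ dt g (P x) < dt g (P v))) (tt P v p q)
          ⟨q, by rw [Finset.mem_filter]; exact ⟨Finset.mem_univ _, hvq, hq⟩⟩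
        rw [Finset.mem_filter] at hx
        obtain ⟨-, hvx, hxg⟩ := hx
        have hxp : x ≠ p := by
          rintro rfl
          linarith
        obtain ⟨y, hy⟩ := C.tri v x hvx (fun r hr => hxp (C.uniqR hr R).1)
        have h2 := (C.tlt R hvx.ne' hy.2.2.1.ne).2 hy.2.2.2.1
        refine ⟨x, y, Or.inr hy, hxg, ?_⟩
        have hgy : dt g (P y) ≠ dt g (P v) := fun h => hy.2.2.1.ne (hg h)
        rcases lt_or_gt_of_ne hgy with h3 | h3
        · have := hm y (by
            rw [Finset.mem_filter]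
            exact ⟨Finset.mem_univ _, hy.2.2.1.symm, h3⟩)
          linarith
        · exact h3
      · exfalso
        have h1 := hcone x0 hx0v
        have e1 : (dt g (P x0) - dt g (P v)) * crs (P v) (P q) (P p) < 0 :=
          mul_neg_of_neg_of_pos (by linarith) hqp
        have e2 : 0 ≤ (dt g (P q) - dt g (P v)) * crs (P v) (P x0) (P p) :=
          mul_nonneg (by linarith) (C.Anonneg R hx0v)
        have e3 : 0 ≤ (dt g (P p) - dt g (P v)) * crs (P v) (P q) (P x0) :=
          mul_nonneg (by linarith) (C.Bnonneg R hx0v)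
        linarith
  · push Not at hout
    obtain ⟨j, hj⟩ := C.nb v
    have hgne : ((g.2, -g.1) : ℝ × ℝ) ≠ 0 := by
      intro h0
      have h1 := congrArg Prod.fst h0
      have h2 := congrArg Prod.snd h0
      simp only [Prod.fst_zero, Prod.snd_zero, neg_eq_zero] at h1 h2
      simp only [dt, h1, h2, zero_mul, add_zero] at hx0
      exact lt_irrefl _ hx0
    obtain ⟨x, hx, y, hy, hf, -, h1, h2⟩ := cover (Finset.univ.filter (fun x => G.Adj v x))
      ⟨j, by rw [Finset.mem_filter]; exact ⟨Finset.mem_univ _, hj⟩⟩ (fun x => P x - P v)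
      (fun x y => FP G P v x y) (by
        intro x hx
        rw [Finset.mem_filter] at hx
        obtain ⟨y, hy⟩ := C.tri v x hx.2 (hout x)
        refine ⟨y, ?_, hy, ?_⟩
        · rw [Finset.mem_filter]
          exact ⟨Finset.mem_univ _, hy.2.2.1.symm⟩
        · rw [← crs_eq]
          exact hy.2.2.2.1) ((g.2, -g.1) : ℝ × ℝ) hgne
    have hgx : dt g (P x) ≠ dt g (P v) := fun h => hf.1.ne' (hg h)
    refine ⟨x, y, Or.inr hf, lt_of_le_of_ne ?_ hgx, ?_⟩
    · simp only [cr, Prod.fst_sub, Prod.snd_sub] at h1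
      simp only [dt]
      linarith
    · simp only [cr, Prod.fst_sub, Prod.snd_sub] at h2
      simp only [dt]
      linarith

theorem cardM {V : Type} [Fintype V] [DecidableEq V] (f : V → ℝ) (hf : Function.Injective f)
    (h2 : 2 ≤ Fintype.card V) [DecidablePred (fun v => (∃ x, f x < f v) ∧ ∃ y, f v < f y)] :
    (Finset.univ.filter (fun v => (∃ x, f x < f v) ∧ ∃ y, f v < f y)).card + 2 =
      Fintype.card V := by
  have hne : (Finset.univ : Finset V).Nonempty := by
    rw [← Finset.card_pos, Finset.card_univ]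
    omega
  obtain ⟨a, -, ha⟩ := Finset.exists_max_image Finset.univ f hne
  obtain ⟨b, -, hb⟩ := Finset.exists_min_image Finset.univ f hne
  have hab : a ≠ b := by
    rintro rfl
    have : ∀ x : V, x = a := fun x => hf (le_antisymm (ha x (Finset.mem_univ _))
      (hb x (Finset.mem_univ _)))
    have h3 : Fintype.card V ≤ 1 := Fintype.card_le_one_iff.2 (fun x y => by
      rw [this x, this y])
    omega
  have hU : (Finset.univ : Finset V) = insert a (insert b
      (Finset.univ.filter (fun v => (∃ x, f x < f v) ∧ ∃ y, f v < f y))) := by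
    ext v
    simp only [Finset.mem_univ, Finset.mem_insert, Finset.mem_filter, true_and, true_iff]
    by_cases hva : v = a
    · exact Or.inl hva
    by_cases hvb : v = b
    · exact Or.inr (Or.inl hvb)
    refine Or.inr (Or.inr ⟨⟨b, ?_⟩, ⟨a, ?_⟩⟩)
    · exact lt_of_le_of_ne (hb v (Finset.mem_univ _)) (fun h => hvb (hf h).symm)
    · exact lt_of_le_of_ne (ha v (Finset.mem_univ _)) (fun h => hva (hf h))
  have hbM : b ∉ Finset.univ.filter (fun v => (∃ x, f x < f v) ∧ ∃ y, f v < f y) := by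
    rw [Finset.mem_filter]
    rintro ⟨-, ⟨x, hx⟩, -⟩
    exact absurd hx (not_lt.2 (hb x (Finset.mem_univ _)))
  have haM : a ∉ insert b (Finset.univ.filter
      (fun v => (∃ x, f x < f v) ∧ ∃ y, f v < f y)) := by
    rw [Finset.mem_insert, Finset.mem_filter]
    rintro (h | ⟨-, -, ⟨y, hy⟩⟩)
    · exact hab h
    · exact absurd hy (not_lt.2 (ha y (Finset.mem_univ _)))
  have := congrArg Finset.card hU
  rw [Finset.card_univ, Finset.card_insert_of_notMem haM, Finset.card_insert_of_notMem hbM] at this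
  omega

/-- rotation of triples -/
def rho (V : Type) : V × V × V ≃ V × V × V where
  toFun t := (t.2.1, t.2.2, t.1)
  invFun t := (t.2.2, t.1, t.2.1)
  left_inv _ := rfl
  right_inv _ := rfl

open Classical in
theorem Ctx.upCount (C : Ctx G P o1 o2 o3) [Fintype V] {g : ℝ × ℝ}
    (hg : Function.Injective (fun x => dt g (P x))) (h2 : 2 ≤ Fintype.card V) :
    (∑ t : V × V × V, if Up G P o1 o2 o3 g t.1 t.2.1 t.2.2 then 1 else 0) + 2 =
      Fintype.card V := by
  rw [← cardM (fun x => dt g (P x)) hg h2, ← Finset.card_filter]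
  congr 1
  apply Finset.card_nbij (fun t => t.1)
  · intro t ht
    rw [Finset.mem_coe, Finset.mem_filter] at ht
    rw [Finset.mem_coe, Finset.mem_filter]
    exact ⟨Finset.mem_univ _, ⟨_, ht.2.2.1⟩, ⟨_, ht.2.2.2⟩⟩
  · rintro ⟨v, b, c⟩ ht ⟨v', b', c'⟩ ht' hv
    rw [Finset.mem_coe, Finset.mem_filter] at ht ht'
    simp only at hv
    subst hv
    obtain ⟨e1, e2⟩ := C.up_uniq ht.2 ht'.2
    simp only at e1 e2
    rw [e1, e2]
  · intro v hv
    rw [Finset.mem_coe, Finset.mem_filter] at hv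
    obtain ⟨-, ⟨x, hx⟩, ⟨y, hy⟩⟩ := hv
    obtain ⟨b, c, hu⟩ := C.up_ex hg hx hy
    refine ⟨(v, b, c), ?_, rfl⟩
    rw [Finset.mem_coe, Finset.mem_filter]
    exact ⟨Finset.mem_univ _, hu⟩

open Classical in
theorem Ctx.euler (C : Ctx G P o1 o2 o3) [Fintype V] (h2 : 2 ≤ Fintype.card V) :
    Nat.card {t : V × V × V // Fc G P o1 o2 o3 t.1 t.2.1 t.2.2} + 12 = 6 * Nat.card V := by
  obtain ⟨g, hg⟩ := gen_exists P C.plane.1
  have hg' : Function.Injective (fun x => dt (-g) (P x)) := by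
    intro x y hxy
    simp only [dt_neg, neg_inj] at hxy
    exact hg hxy
  have c1 := C.upCount hg h2
  have c2 := C.upCount hg' h2
  set u : V × V × V → ℕ := fun t => if Up G P o1 o2 o3 g t.1 t.2.1 t.2.2 then 1 else 0 with hu
  set u' : V × V × V → ℕ := fun t => if Up G P o1 o2 o3 (-g) t.1 t.2.1 t.2.2 then 1 else 0 with hu'
  have hsum : ∀ t : V × V × V, (if Fc G P o1 o2 o3 t.1 t.2.1 t.2.2 then 1 else 0) =
      (u t + u' t) + (u (rho V t) + u' (rho V t)) +
        (u (rho V (rho V t)) + u' (rho V (rho V t))) := by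
    rintro ⟨a, b, c⟩
    simp only [hu, hu', rho, Equiv.coe_fn_mk, Up, dt_neg, neg_lt_neg_iff]
    by_cases hf : Fc G P o1 o2 o3 a b c
    · have hf2 := hf.rot
      have hf3 := hf2.rot
      have n1 : dt g (P a) ≠ dt g (P b) := fun h => (C.adjF hf).ne (hg h)
      have n2 : dt g (P b) ≠ dt g (P c) := fun h => (C.adjF hf2).ne (hg h)
      have n3 : dt g (P c) ≠ dt g (P a) := fun h => (C.adjF hf3).ne (hg h)
      simp only [hf, hf2, hf3, true_and, if_true]
      generalize dt g (P a) = x at *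
      generalize dt g (P b) = y at *
      generalize dt g (P c) = z at *
      rcases lt_or_gt_of_ne n1 with m1 | m1 <;> rcases lt_or_gt_of_ne n2 with m2 | m2 <;>
        rcases lt_or_gt_of_ne n3 with m3 | m3 <;>
        first
          | (exfalso; linarith)
          | simp [m1, m2, m3, m1.le, m2.le, m3.le, not_lt.2 m1.le, not_lt.2 m2.le, not_lt.2 m3.le]
    · have hf2 : ¬ Fc G P o1 o2 o3 b c a := fun h => hf h.rot.rot
      have hf3 : ¬ Fc G P o1 o2 o3 c a b := fun h => hf h.rot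
      simp [hf, hf2, hf3]
  have hN : Nat.card {t : V × V × V // Fc G P o1 o2 o3 t.1 t.2.1 t.2.2} =
      ∑ t : V × V × V, if Fc G P o1 o2 o3 t.1 t.2.1 t.2.2 then 1 else 0 := by
    rw [Nat.card_eq_fintype_card, Fintype.card_subtype, Finset.card_filter]
  rw [hN, Finset.sum_congr rfl (fun t _ => hsum t)]
  simp only [Finset.sum_add_distrib]
  have r1 : ∀ f : V × V × V → ℕ, ∑ t, f (rho V t) = ∑ t, f t := fun f =>
    Equiv.sum_comp (rho V) f
  have r2 : ∀ f : V × V × V → ℕ, ∑ t, f (rho V (rho V t)) = ∑ t, f t := fun f => by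
    rw [r1 (fun t => f (rho V t)), r1]
  have A1 : ∑ t, u (rho V t) = ∑ t, u t := r1 u
  have A2 : ∑ t, u' (rho V t) = ∑ t, u' t := r1 u'
  have A3 : ∑ t, u (rho V (rho V t)) = ∑ t, u t := r2 u
  have A4 : ∑ t, u' (rho V (rho V t)) = ∑ t, u' t := r2 u'
  have c1' : (∑ t, u t) + 2 = Fintype.card V := c1
  have c2' : (∑ t, u' t) + 2 = Fintype.card V := c2
  rw [A1, A2, A3, A4, Nat.card_eq_fintype_card]
  omega

end ctx

end W_TG2

open W_TG2 in
theorem TG2 (n : ℕ) (G' : SimpleGraph (Fin n ⊕ Fin 3)) (P : Fin n ⊕ Fin 3 → ℝ × ℝ) (hP : Plane G' P)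
    (h01 : G'.Adj (Sum.inr 0) (Sum.inr 1)) (h12 : G'.Adj (Sum.inr 1) (Sum.inr 2)) (h20 : G'.Adj (Sum.inr 2) (Sum.inr 0))
    (hneg : crs (P (Sum.inr 0)) (P (Sum.inr 1)) (P (Sum.inr 2)) < 0)
    (hin : ∀ i : Fin n, crs (P (Sum.inr 0)) (P (Sum.inr 1)) (P (Sum.inl i)) < 0 ∧
        crs (P (Sum.inr 1)) (P (Sum.inr 2)) (P (Sum.inl i)) < 0 ∧
        crs (P (Sum.inr 2)) (P (Sum.inr 0)) (P (Sum.inl i)) < 0)
    (htri : ∀ a b, G'.Adj a b → ¬ ((a = Sum.inr 0 ∧ b = Sum.inr 1) ∨ (a = Sum.inr 1 ∧ b = Sum.inr 2) ∨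
          (a = Sum.inr 2 ∧ b = Sum.inr 0)) →
        ∃ c, G'.Adj a c ∧ G'.Adj b c ∧ 0 < crs (P a) (P b) (P c) ∧
          ∀ x, x ≠ a → x ≠ b → x ≠ c → P x ∉ convexHull ℝ ({P a, P b, P c} : Set (ℝ × ℝ)))
    (hconn : ∀ i : Fin n, ∃ j, G'.Adj (Sum.inl i) j) :
    ∃ T : Tri (Fin n ⊕ Fin 3), T.F (Sum.inr 0) (Sum.inr 1) (Sum.inr 2) ∧ ∀ u v, G'.Adj u v → T.G.Adj u v := by
  have C : Ctx G' P (Sum.inr 0) (Sum.inr 1) (Sum.inr 2) := by
    refine ⟨hP, ?_, ?_, ?_, ?_⟩
    · rintro v p q (⟨rfl, rfl, -⟩ | ⟨rfl, rfl, -⟩ | ⟨rfl, rfl, -⟩)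
      · exact h01
      · exact h12
      · exact h20
    · have e1 : crs (P (Sum.inr 1)) (P (Sum.inr 2)) (P (Sum.inr 0)) < 0 := by
        rw [crs_rot]; exact hneg
      have e2 : crs (P (Sum.inr 2)) (P (Sum.inr 0)) (P (Sum.inr 1)) < 0 := by
        rw [crs_rot]; exact e1
      rintro v p q (⟨rfl, rfl, -⟩ | ⟨rfl, rfl, -⟩ | ⟨rfl, rfl, -⟩) z hz1 hz2
      · rcases z with i | k
        · exact (hin i).1
        · fin_cases k
          · exact absurd rfl hz1
          · exact absurd rfl hz2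
          · exact hneg
      · rcases z with i | k
        · exact (hin i).2.1
        · fin_cases k
          · exact e1
          · exact absurd rfl hz1
          · exact absurd rfl hz2
      · rcases z with i | k
        · exact (hin i).2.2
        · fin_cases k
          · exact absurd rfl hz2
          · exact e2
          · exact absurd rfl hz1
    · intro a b hab hno
      obtain ⟨c, h1, h2, h3, h4⟩ := htri a b hab (by
        rintro (⟨rfl, rfl⟩ | ⟨rfl, rfl⟩ | ⟨rfl, rfl⟩)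
        · exact hno _ (Or.inl ⟨rfl, rfl, rfl⟩)
        · exact hno _ (Or.inr (Or.inl ⟨rfl, rfl, rfl⟩))
        · exact hno _ (Or.inr (Or.inr ⟨rfl, rfl, rfl⟩)))
      exact ⟨c, hab, h2, h1.symm, h3, h4⟩
    · intro v
      rcases v with i | k
      · exact hconn i
      · fin_cases k
        · exact ⟨_, h01⟩
        · exact ⟨_, h12⟩
        · exact ⟨_, h20⟩
  refine ⟨⟨Fc G' P (Sum.inr 0) (Sum.inr 1) (Sum.inr 2), ?_, ?_, ?_, ?_, ?_, ?_, ?_⟩, ?_, ?_⟩
  · intro a b c h
    exact h.rot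
  · intro a b c h
    exact (C.adjF h).ne
  · intro a b c d h h'
    exact C.uniqF h h'
  · intro a b c h
    exact C.exF (C.adjF h).symm
  · intro v a b c d h h'
    exact C.link h h'
  · intro u v
    exact C.conn u v
  · apply C.euler
    rw [Fintype.card_sum, Fintype.card_fin, Fintype.card_fin]
    omega
  · exact Or.inl (Or.inl ⟨rfl, rfl, rfl⟩)
  · intro u v h
    exact C.exF h


end Pool.Agent.H891WLC
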