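import Pool.Agent.H891WLC.Defs
import Pool.Agent.H891WLC.TG1
import Pool.Agent.H891WLC.TG2

set_option autoImplicit false

namespace Pool.Agent.H891WLC

namespace W_TRIANG

end W_TRIANG

open W_TRIANG in
theorem TRIANG (n : ℕ) (G : SimpleGraph (Fin n)) (p : Fin n → ℝ × ℝ) (hp : Plane G p) :
    ∃ T : Tri (Fin n ⊕ Fin 3), T.F (Sum.inr 0) (Sum.inr 1) (Sum.inr 2) ∧
      ∀ u v, G.Adj u v → T.G.Adj (Sum.inl u) (Sum.inl v) := by
  obtain ⟨G', P, hadj, hP, h01, h12, h20, hneg, hin, htri, hconn⟩ := TG1 n G p hp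
  obtain ⟨T, hT, hG⟩ := TG2 n G' P hP h01 h12 h20 hneg hin htri hconn
  exact ⟨T, hT, fun u v h => hG _ _ (hadj u v h)⟩


end Pool.Agent.H891WLC
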