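import Pool.Agent.H891WLC.Defs
import Pool.Agent.H891WLC.tri_conn3
import Pool.Agent.H891WLC.CHI

set_option autoImplicit false

namespace Pool.Agent.H891WLC

namespace W_THREE

open Finset

section
variable {V : Type}

theorem conn_union {G : SimpleGraph V} {A B : Set V} (hA : Conn G A) (hB : Conn G B)
    (hAB : AdjS G A B) : Conn G (A ∪ B) := by
  obtain ⟨a, ha, b, hb, hab⟩ := hAB
  have mA : ∀ u ∈ A, ∀ v ∈ A, Relation.ReflTransGen (fun x y => G.Adj x y ∧ y ∈ A ∪ B) u v := by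
    intro u hu v hv
    have h := hA.2 u hu v hv
    clear hv
    induction h with
    | refl => exact .refl
    | tail _ h2 ih => exact ih.tail ⟨h2.1, Or.inl h2.2⟩
  have mB : ∀ u ∈ B, ∀ v ∈ B, Relation.ReflTransGen (fun x y => G.Adj x y ∧ y ∈ A ∪ B) u v := by
    intro u hu v hv
    have h := hB.2 u hu v hv
    clear hv
    induction h with
    | refl => exact .refl
    | tail _ h2 ih => exact ih.tail ⟨h2.1, Or.inr h2.2⟩
  refine ⟨⟨a, Or.inl ha⟩, ?_⟩
  rintro u (hu | hu) v (hv | hv)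
  · exact mA u hu v hv
  · exact ((mA u hu a ha).tail ⟨hab, Or.inr hb⟩).trans (mB b hb v hv)
  · exact ((mB u hu b hb).tail ⟨hab.symm, Or.inl ha⟩).trans (mA a ha v hv)
  · exact mB u hu v hv

theorem adjS_symm {G : SimpleGraph V} {A B : Set V} (h : AdjS G A B) : AdjS G B A := by
  obtain ⟨a, ha, b, hb, hab⟩ := h
  exact ⟨b, hb, a, ha, hab.symm⟩

open Classical in
noncomputable def N [Fintype V] (T : Tri V) (col : V → Fin 3) (i j k : Fin 3) : ℕ :=
  ((univ : Finset (V × V × V)).filter (fun t => T.F t.1 t.2.1 t.2.2 ∧ col t.1 = i ∧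
    col t.2.1 = j ∧ col t.2.2 = k)).card

open Classical in
noncomputable def E [Fintype V] (T : Tri V) (col : V → Fin 3) (i j : Fin 3) : ℕ :=
  ((univ : Finset (V × V)).filter (fun e => T.G.Adj e.1 e.2 ∧ col e.1 = i ∧ col e.2 = j)).card

open Classical in
noncomputable def nv [Fintype V] (col : V → Fin 3) (i : Fin 3) : ℕ :=
  ((univ : Finset V).filter (fun v => col v = i)).card

theorem N_rot [Fintype V] (T : Tri V) (col : V → Fin 3) (i j k : Fin 3) :
    N T col i j k = N T col j k i := by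
  classical
  unfold N
  refine Finset.card_bij' (fun t _ => (t.2.1, t.2.2, t.1)) (fun t _ => (t.2.2, t.1, t.2.1)) ?_ ?_ ?_ ?_
  · rintro ⟨a, b, c⟩ h
    simp only [mem_filter, mem_univ, true_and] at h ⊢
    exact ⟨T.rot _ _ _ h.1, h.2.2.1, h.2.2.2, h.2.1⟩
  · rintro ⟨a, b, c⟩ h
    simp only [mem_filter, mem_univ, true_and] at h ⊢
    exact ⟨T.rot _ _ _ (T.rot _ _ _ h.1), h.2.2.2, h.2.1, h.2.2.1⟩
  · rintro ⟨a, b, c⟩ _
    rfl
  · rintro ⟨a, b, c⟩ _
    rfl

theorem E_symm [Fintype V] (T : Tri V) (col : V → Fin 3) (i j : Fin 3) :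
    E T col i j = E T col j i := by
  classical
  unfold E
  refine Finset.card_bij' (fun t _ => (t.2, t.1)) (fun t _ => (t.2, t.1)) ?_ ?_ ?_ ?_
  · rintro ⟨a, b⟩ h
    simp only [mem_filter, mem_univ, true_and] at h ⊢
    exact ⟨h.1.symm, h.2.2, h.2.1⟩
  · rintro ⟨a, b⟩ h
    simp only [mem_filter, mem_univ, true_and] at h ⊢
    exact ⟨h.1.symm, h.2.2, h.2.1⟩
  · rintro ⟨a, b⟩ _
    rfl
  · rintro ⟨a, b⟩ _
    rfl

theorem E_eq [Fintype V] (T : Tri V) (col : V → Fin 3) (i j : Fin 3) :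
    E T col i j = N T col i j 0 + N T col i j 1 + N T col i j 2 := by
  classical
  have h1 : E T col i j = ((univ : Finset (V × V × V)).filter (fun t => T.F t.1 t.2.1 t.2.2 ∧
      col t.1 = i ∧ col t.2.1 = j)).card := by
    unfold E
    symm
    refine Finset.card_bij (fun t _ => (t.1, t.2.1)) ?_ ?_ ?_
    · rintro ⟨a, b, c⟩ h
      simp only [mem_filter, mem_univ, true_and] at h ⊢
      exact ⟨⟨c, h.1⟩, h.2.1, h.2.2⟩
    · rintro ⟨a, b, c⟩ h ⟨a', b', c'⟩ h' he
      simp only [mem_filter, mem_univ, true_and, Prod.mk.injEq] at h h' he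
      obtain ⟨rfl, rfl⟩ := he
      have := T.uniq _ _ _ _ h.1 h'.1
      subst this
      rfl
    · rintro ⟨a, b⟩ h
      simp only [mem_filter, mem_univ, true_and] at h
      obtain ⟨⟨c, hc⟩, h2, h3⟩ := h
      exact ⟨(a, b, c), by simp only [mem_filter, mem_univ, true_and]; exact ⟨hc, h2, h3⟩, rfl⟩
  rw [h1, Finset.card_eq_sum_card_fiberwise (f := fun t : V × V × V => col t.2.2)
    (t := (univ : Finset (Fin 3))) (fun _ _ => by simp), Fin.sum_univ_three]
  unfold N
  simp only [Finset.filter_filter, and_assoc]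

theorem cardV [Fintype V] (col : V → Fin 3) (I : Finset (Fin 3)) :
    Nat.card {v : V | col v ∈ I} = ∑ i ∈ I, nv col i := by
  classical
  have h0 : Nat.card {v : V | col v ∈ I} = ((univ : Finset V).filter (fun v => col v ∈ I)).card := by
    rw [Nat.card_eq_fintype_card]
    exact Fintype.card_subtype _
  rw [h0, Finset.card_eq_sum_card_fiberwise (f := col) (t := I)
    (fun v hv => by simpa using hv)]
  refine Finset.sum_congr rfl (fun i hi => ?_)
  unfold nv
  congr 1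
  ext v
  simp only [mem_filter, mem_univ, true_and]
  constructor
  · rintro ⟨_, h⟩; exact h
  · rintro h; exact ⟨h ▸ hi, h⟩

theorem cardE [Fintype V] (T : Tri V) (col : V → Fin 3) (I : Finset (Fin 3)) :
    Nat.card {e : V × V // e.1 ∈ {v : V | col v ∈ I} ∧ e.2 ∈ {v : V | col v ∈ I} ∧ T.G.Adj e.1 e.2}
      = ∑ i ∈ I, ∑ j ∈ I, E T col i j := by
  classical
  rw [Nat.card_eq_fintype_card, Fintype.card_subtype,
    Finset.card_eq_sum_card_fiberwise (f := fun e : V × V => (col e.1, col e.2)) (t := I ×ˢ I)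
    (fun e he => by
      simp only [Set.mem_ofPred_eq, coe_filter, mem_univ, true_and] at he
      simp only [coe_product, Set.mem_prod, mem_coe]
      exact ⟨he.1, he.2.1⟩), Finset.sum_product]
  refine Finset.sum_congr rfl (fun i hi => Finset.sum_congr rfl (fun j hj => ?_))
  unfold E
  congr 1
  ext e
  simp only [mem_filter, mem_univ, true_and, Set.mem_ofPred_eq, Prod.mk.injEq]
  constructor
  · rintro ⟨⟨_, _, h⟩, h1, h2⟩; exact ⟨h, h1, h2⟩
  · rintro ⟨h, h1, h2⟩; exact ⟨⟨h1 ▸ hi, h2 ▸ hj, h⟩, h1, h2⟩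

theorem cardN [Fintype V] (T : Tri V) (col : V → Fin 3) (I : Finset (Fin 3)) :
    Nat.card {t : V × V × V // t.1 ∈ {v : V | col v ∈ I} ∧ t.2.1 ∈ {v : V | col v ∈ I} ∧
        t.2.2 ∈ {v : V | col v ∈ I} ∧ T.F t.1 t.2.1 t.2.2}
      = ∑ i ∈ I, ∑ j ∈ I, ∑ k ∈ I, N T col i j k := by
  classical
  rw [Nat.card_eq_fintype_card, Fintype.card_subtype,
    Finset.card_eq_sum_card_fiberwise (f := fun e : V × V × V => (col e.1, col e.2.1, col e.2.2))
    (t := I ×ˢ I ×ˢ I)
    (fun e he => by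
      simp only [Set.mem_ofPred_eq, coe_filter, mem_univ, true_and] at he
      simp only [coe_product, Set.mem_prod, mem_coe]
      exact ⟨he.1, he.2.1, he.2.2.1⟩), Finset.sum_product]
  refine Finset.sum_congr rfl (fun i hi => ?_)
  rw [Finset.sum_product]
  refine Finset.sum_congr rfl (fun j hj => Finset.sum_congr rfl (fun k hk => ?_))
  unfold N
  congr 1
  ext e
  simp only [mem_filter, mem_univ, true_and, Set.mem_ofPred_eq, Prod.mk.injEq]
  constructor
  · rintro ⟨⟨_, _, _, h⟩, h1, h2, h3⟩; exact ⟨h, h1, h2, h3⟩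
  · rintro ⟨h, h1, h2, h3⟩; exact ⟨⟨h1 ▸ hi, h2 ▸ hj, h3 ▸ hk, h⟩, h1, h2, h3⟩

theorem chi [Finite V] [Fintype V] (T : Tri V) (col : V → Fin 3) (I : Finset (Fin 3)) (A : Set V)
    (hA : A = {v : V | col v ∈ I})
    (h1 : Conn T.G A) (h2 : Conn T.G Aᶜ) :
    6 * (∑ i ∈ I, nv col i) + 2 * (∑ i ∈ I, ∑ j ∈ I, ∑ k ∈ I, N T col i j k)
      = 6 + 3 * (∑ i ∈ I, ∑ j ∈ I, E T col i j) := by
  subst hA
  have := CHI T _ h1 h2
  rw [cardE, cardN, cardV] at this
  exact this

theorem euler' [Fintype V] (T : Tri V) (col : V → Fin 3) :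
    (∑ i, ∑ j, ∑ k, N T col i j k) + 12 = 6 * ∑ i, nv col i := by
  classical
  have h := T.euler
  have e1 := cardN T col univ
  have e2 := cardV col univ
  have e3 : Nat.card {t : V × V × V // t.1 ∈ {v : V | col v ∈ (univ : Finset (Fin 3))} ∧
        t.2.1 ∈ {v : V | col v ∈ (univ : Finset (Fin 3))} ∧
        t.2.2 ∈ {v : V | col v ∈ (univ : Finset (Fin 3))} ∧ T.F t.1 t.2.1 t.2.2}
      = Nat.card {t : V × V × V // T.F t.1 t.2.1 t.2.2} := by
    refine Nat.card_congr (Equiv.subtypeEquivRight (fun t => ?_))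
    simp
  have e4 : Nat.card {v : V | col v ∈ (univ : Finset (Fin 3))} = Nat.card V := by
    have : {v : V | col v ∈ (univ : Finset (Fin 3))} = Set.univ := by ext v; simp
    rw [this, Nat.card_univ]
  rw [← e1, ← e2, e3, e4]
  exact h

theorem count_one [Fintype V] (T : Tri V) (col : V → Fin 3)
    (c0 : 6 * (∑ i ∈ ({0} : Finset (Fin 3)), nv col i) + 2 * (∑ i ∈ ({0} : Finset (Fin 3)), ∑ j ∈ ({0} : Finset (Fin 3)), ∑ k ∈ ({0} : Finset (Fin 3)), N T col i j k)
      = 6 + 3 * (∑ i ∈ ({0} : Finset (Fin 3)), ∑ j ∈ ({0} : Finset (Fin 3)), E T col i j))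
    (c1 : 6 * (∑ i ∈ ({1} : Finset (Fin 3)), nv col i) + 2 * (∑ i ∈ ({1} : Finset (Fin 3)), ∑ j ∈ ({1} : Finset (Fin 3)), ∑ k ∈ ({1} : Finset (Fin 3)), N T col i j k)
      = 6 + 3 * (∑ i ∈ ({1} : Finset (Fin 3)), ∑ j ∈ ({1} : Finset (Fin 3)), E T col i j))
    (c2 : 6 * (∑ i ∈ ({2} : Finset (Fin 3)), nv col i) + 2 * (∑ i ∈ ({2} : Finset (Fin 3)), ∑ j ∈ ({2} : Finset (Fin 3)), ∑ k ∈ ({2} : Finset (Fin 3)), N T col i j k)
      = 6 + 3 * (∑ i ∈ ({2} : Finset (Fin 3)), ∑ j ∈ ({2} : Finset (Fin 3)), E T col i j))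
    (c01 : 6 * (∑ i ∈ ({0, 1} : Finset (Fin 3)), nv col i) + 2 * (∑ i ∈ ({0, 1} : Finset (Fin 3)), ∑ j ∈ ({0, 1} : Finset (Fin 3)), ∑ k ∈ ({0, 1} : Finset (Fin 3)), N T col i j k)
      = 6 + 3 * (∑ i ∈ ({0, 1} : Finset (Fin 3)), ∑ j ∈ ({0, 1} : Finset (Fin 3)), E T col i j))
    (c02 : 6 * (∑ i ∈ ({0, 2} : Finset (Fin 3)), nv col i) + 2 * (∑ i ∈ ({0, 2} : Finset (Fin 3)), ∑ j ∈ ({0, 2} : Finset (Fin 3)), ∑ k ∈ ({0, 2} : Finset (Fin 3)), N T col i j k)
      = 6 + 3 * (∑ i ∈ ({0, 2} : Finset (Fin 3)), ∑ j ∈ ({0, 2} : Finset (Fin 3)), E T col i j))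
    (c12 : 6 * (∑ i ∈ ({1, 2} : Finset (Fin 3)), nv col i) + 2 * (∑ i ∈ ({1, 2} : Finset (Fin 3)), ∑ j ∈ ({1, 2} : Finset (Fin 3)), ∑ k ∈ ({1, 2} : Finset (Fin 3)), N T col i j k)
      = 6 + 3 * (∑ i ∈ ({1, 2} : Finset (Fin 3)), ∑ j ∈ ({1, 2} : Finset (Fin 3)), E T col i j)) :
    N T col 0 1 2 = 1 := by
  have he := euler' T col
  have d01 : (0 : Fin 3) ≠ 1 := by decide
  have d02 : (0 : Fin 3) ≠ 2 := by decide
  have d12 : (1 : Fin 3) ≠ 2 := by decide
  simp only [Finset.sum_pair d01, Finset.sum_pair d02, Finset.sum_pair d12, Finset.sum_singleton,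
    Fin.sum_univ_three] at c0 c1 c2 c01 c02 c12 he
  have E00 := E_eq T col 0 0
  have E01 := E_eq T col 0 1
  have E02 := E_eq T col 0 2
  have E10 := E_eq T col 1 0
  have E11 := E_eq T col 1 1
  have E12 := E_eq T col 1 2
  have E20 := E_eq T col 2 0
  have E21 := E_eq T col 2 1
  have E22 := E_eq T col 2 2
  have s1 := E_symm T col 0 1
  have s2 := E_symm T col 0 2
  have s3 := E_symm T col 1 2
  have r1 := N_rot T col 0 0 1
  have r2 := N_rot T col 0 1 0
  have r3 := N_rot T col 0 0 2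
  have r4 := N_rot T col 0 2 0
  have r5 := N_rot T col 1 1 0
  have r6 := N_rot T col 1 0 1
  have r7 := N_rot T col 1 1 2
  have r8 := N_rot T col 1 2 1
  have r9 := N_rot T col 2 2 0
  have r10 := N_rot T col 2 0 2
  have r11 := N_rot T col 2 2 1
  have r12 := N_rot T col 2 1 2
  have r13 := N_rot T col 0 1 2
  have r14 := N_rot T col 1 2 0
  have r15 := N_rot T col 0 2 1
  have r16 := N_rot T col 2 1 0
  generalize E T col 0 0 = e00 at *
  generalize E T col 0 1 = e01 at *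
  generalize E T col 0 2 = e02 at *
  generalize E T col 1 0 = e10 at *
  generalize E T col 1 1 = e11 at *
  generalize E T col 1 2 = e12 at *
  generalize E T col 2 0 = e20 at *
  generalize E T col 2 1 = e21 at *
  generalize E T col 2 2 = e22 at *
  omega

end

end W_THREE

open W_THREE in
theorem THREE {V : Type} [Finite V] (T : Tri V) (K S U : Set V)
    (hcov : ∀ v, v ∈ K ∨ v ∈ S ∨ v ∈ U) (h1 : Disjoint K S) (h2 : Disjoint K U) (h3 : Disjoint S U)
    (hK : Conn T.G K) (hS : Conn T.G S) (hU : Conn T.G U)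
    (a1 : AdjS T.G K S) (a2 : AdjS T.G K U) (a3 : AdjS T.G S U) :
    (∃ k ∈ K, ∃ s ∈ S, ∃ u ∈ U, T.F k s u) ∧
    ∀ k s u k' s' u', k ∈ K → s ∈ S → u ∈ U → k' ∈ K → s' ∈ S → u' ∈ U →
      T.F k s u → T.F k' s' u' → k = k' ∧ s = s' ∧ u = u' := by
  classical
  have := Fintype.ofFinite V
  let col : V → Fin 3 := fun v => if v ∈ K then 0 else if v ∈ S then 1 else 2
  have cK : ∀ v, v ∈ K ↔ col v = 0 := by
    intro v
    show v ∈ K ↔ (if v ∈ K then (0 : Fin 3) else if v ∈ S then 1 else 2) = 0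
    by_cases hk : v ∈ K
    · simp [hk]
    · by_cases hs : v ∈ S <;> simp [hk, hs]
  have cS : ∀ v, v ∈ S ↔ col v = 1 := by
    intro v
    show v ∈ S ↔ (if v ∈ K then (0 : Fin 3) else if v ∈ S then 1 else 2) = 1
    by_cases hs : v ∈ S
    · have hk : v ∉ K := fun hk => Set.disjoint_left.mp h1 hk hs
      simp [hk, hs]
    · by_cases hk : v ∈ K <;> simp [hk, hs]
  have cU : ∀ v, v ∈ U ↔ col v = 2 := by
    intro v
    show v ∈ U ↔ (if v ∈ K then (0 : Fin 3) else if v ∈ S then 1 else 2) = 2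
    by_cases hu : v ∈ U
    · have hk : v ∉ K := fun hk => Set.disjoint_left.mp h2 hk hu
      have hs : v ∉ S := fun hs => Set.disjoint_left.mp h3 hs hu
      simp [hk, hs, hu]
    · by_cases hk : v ∈ K
      · simp [hk, hu]
      · have hs : v ∈ S := by
          rcases hcov v with h | h | h
          · exact absurd h hk
          · exact h
          · exact absurd h hu
        simp [hk, hs, hu]
  have eK : K = {v : V | col v ∈ ({0} : Finset (Fin 3))} := by
    ext v; simp only [Finset.mem_singleton, Set.mem_ofPred_eq]; exact cK v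
  have eS : S = {v : V | col v ∈ ({1} : Finset (Fin 3))} := by
    ext v; simp only [Finset.mem_singleton, Set.mem_ofPred_eq]; exact cS v
  have eU : U = {v : V | col v ∈ ({2} : Finset (Fin 3))} := by
    ext v; simp only [Finset.mem_singleton, Set.mem_ofPred_eq]; exact cU v
  have eKS : K ∪ S = {v : V | col v ∈ ({0, 1} : Finset (Fin 3))} := by
    ext v
    simp only [Finset.mem_insert, Finset.mem_singleton, Set.mem_ofPred_eq, Set.mem_union, cK, cS]
  have eKU : K ∪ U = {v : V | col v ∈ ({0, 2} : Finset (Fin 3))} := by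
    ext v
    simp only [Finset.mem_insert, Finset.mem_singleton, Set.mem_ofPred_eq, Set.mem_union, cK, cU]
  have eSU : S ∪ U = {v : V | col v ∈ ({1, 2} : Finset (Fin 3))} := by
    ext v
    simp only [Finset.mem_insert, Finset.mem_singleton, Set.mem_ofPred_eq, Set.mem_union, cS, cU]
  have compl : ∀ A B C : Set V, (∀ v, v ∈ A ∨ v ∈ B ∨ v ∈ C) → Disjoint A B → Disjoint A C →
      Disjoint B C → Aᶜ = B ∪ C := by
    intro A B C hc d1 d2 d3
    ext v
    simp only [Set.mem_compl_iff, Set.mem_union]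
    constructor
    · intro h
      rcases hc v with h' | h' | h'
      · exact absurd h' h
      · exact Or.inl h'
      · exact Or.inr h'
    · rintro (h | h) h'
      · exact Set.disjoint_left.mp d1 h' h
      · exact Set.disjoint_left.mp d2 h' h
  have kK : Kᶜ = S ∪ U := compl K S U hcov h1 h2 h3
  have kS : Sᶜ = K ∪ U := compl S K U (fun v => by have := hcov v; tauto) h1.symm h3 h2
  have kU : Uᶜ = K ∪ S := compl U K S (fun v => by have := hcov v; tauto) h2.symm h3.symm h1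
  have nKS : Conn T.G (K ∪ S) := conn_union hK hS a1
  have nKU : Conn T.G (K ∪ U) := conn_union hK hU a2
  have nSU : Conn T.G (S ∪ U) := conn_union hS hU a3
  have key := count_one T col
    (chi T col {0} K eK hK (by rw [kK]; exact nSU))
    (chi T col {1} S eS hS (by rw [kS]; exact nKU))
    (chi T col {2} U eU hU (by rw [kU]; exact nKS))
    (chi T col {0, 1} (K ∪ S) eKS nKS (by rw [← kU, compl_compl]; exact hU))
    (chi T col {0, 2} (K ∪ U) eKU nKU (by rw [← kS, compl_compl]; exact hS))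
    (chi T col {1, 2} (S ∪ U) eSU nSU (by rw [← kK, compl_compl]; exact hK))
  unfold N at key
  obtain ⟨x, hx⟩ := Finset.card_eq_one.mp key
  have hmem : ∀ k s u, k ∈ K → s ∈ S → u ∈ U → T.F k s u → (k, s, u) = x := by
    intro k s u hk hs hu hF
    have : (k, s, u) ∈ ({x} : Finset (V × V × V)) := by
      rw [← hx]
      simp only [Finset.mem_filter, Finset.mem_univ, true_and]
      exact ⟨hF, (cK k).1 hk, (cS s).1 hs, (cU u).1 hu⟩
    simpa using this
  constructor
  · have hxm : x ∈ ({x} : Finset (V × V × V)) := Finset.mem_singleton_self x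
    rw [← hx] at hxm
    simp only [Finset.mem_filter, Finset.mem_univ, true_and] at hxm
    exact ⟨x.1, (cK _).2 hxm.2.1, x.2.1, (cS _).2 hxm.2.2.1, x.2.2, (cU _).2 hxm.2.2.2, hxm.1⟩
  · intro k s u k' s' u' hk hs hu hk' hs' hu' hF hF'
    have e := (hmem k s u hk hs hu hF).trans (hmem k' s' u' hk' hs' hu' hF').symm
    simp only [Prod.mk.injEq] at e
    exact e


end Pool.Agent.H891WLC
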