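import Pool.Agent.H891WLC.Defs
import Pool.Agent.H891WLC.tri_conn3
import Pool.Agent.H891WLC.THREE

set_option autoImplicit false

namespace Pool.Agent.H891WLC

namespace W_CLUS_ADJ

theorem lift_edge {V₀ V : Type} (T₀ : Tri V₀) (T : Tri V) (κ : V₀ → V) (hc : Clus T₀ T κ)
    {w z : V} (h : T.G.Adj w z) : ∃ w₁ z₁, κ w₁ = w ∧ κ z₁ = z ∧ T₀.G.Adj w₁ z₁ := by
  obtain ⟨c, hF⟩ := h
  obtain ⟨_, _, _, a₀, b₀, c₀, h1, h2, _, h4⟩ := (hc.2 w z c).mp hF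
  exact ⟨a₀, b₀, h1, h2, c₀, h4⟩

theorem fibre_path {V₀ V : Type} (T₀ : Tri V₀) (T : Tri V) (κ : V₀ → V) (hc : Clus T₀ T κ)
    (A : Set V) {u₀ w₀ : V₀} (h : κ w₀ = κ u₀) (hA : κ u₀ ∈ A) :
    Relation.ReflTransGen (fun x y => T₀.G.Adj x y ∧ y ∈ κ ⁻¹' A) u₀ w₀ := by
  have := (hc.1 (κ u₀)).2 u₀ (by simp) w₀ (by simpa using h)
  refine Relation.ReflTransGen.mono (p := fun x y => T₀.G.Adj x y ∧ y ∈ κ ⁻¹' A) ?_ _ _ this
  rintro x y ⟨h1, h2⟩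
  refine ⟨h1, ?_⟩
  have h2' : κ y = κ u₀ := by simpa using h2
  show κ y ∈ A
  rw [h2']
  exact hA

theorem lift_conn {V₀ V : Type} (T₀ : Tri V₀) (T : Tri V) (κ : V₀ → V) (hc : Clus T₀ T κ)
    (A : Set V) (hA : Conn T.G A) : Conn T₀.G (κ ⁻¹' A) := by
  refine ⟨?_, ?_⟩
  · obtain ⟨v, hv⟩ := hA.1
    obtain ⟨v₀, hv₀⟩ := (hc.1 v).1
    have : κ v₀ = v := by simpa using hv₀
    exact ⟨v₀, by show κ v₀ ∈ A; rw [this]; exact hv⟩
  · intro u₀ hu₀ v₀ hv₀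
    have hp := hA.2 (κ u₀) hu₀ (κ v₀) hv₀
    have key : ∀ w : V, Relation.ReflTransGen (fun x y => T.G.Adj x y ∧ y ∈ A) (κ u₀) w →
        ∀ w₀ : V₀, κ w₀ = w →
          Relation.ReflTransGen (fun x y => T₀.G.Adj x y ∧ y ∈ κ ⁻¹' A) u₀ w₀ := by
      intro w hw
      induction hw with
      | refl =>
        intro w₀ h
        exact fibre_path T₀ T κ hc A h hu₀
      | tail _ hstep ih =>
        intro z₀ hz₀
        obtain ⟨hadj, hz⟩ := hstep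
        obtain ⟨w₁, z₁, e1, e2, hadj₁⟩ := lift_edge T₀ T κ hc hadj
        have p1 := ih w₁ e1
        have hz₁ : κ z₁ ∈ A := by rw [e2]; exact hz
        have p2 := p1.tail (show T₀.G.Adj w₁ z₁ ∧ z₁ ∈ κ ⁻¹' A from ⟨hadj₁, hz₁⟩)
        exact p2.trans (fibre_path T₀ T κ hc A (by rw [hz₀, e2]) hz₁)
    exact key _ hp v₀ rfl

theorem exists_nbr {V : Type} (T : Tri V) (a b : V) (hab : a ≠ b) :
    ∃ c, c ≠ a ∧ c ≠ b ∧ T.G.Adj a c := by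
  have hp := T.conn a b
  rcases Relation.ReflTransGen.cases_head hp with h | ⟨x, ⟨z, hF⟩, _⟩
  · exact absurd h hab
  · have h1 : a ≠ x := T.ne _ _ _ hF
    have hF2 := T.rot _ _ _ hF
    have h2 : x ≠ z := T.ne _ _ _ hF2
    have hF3 := T.rot _ _ _ hF2
    have h3 : z ≠ a := T.ne _ _ _ hF3
    by_cases hx : x = b
    · refine ⟨z, h3, ?_, ?_⟩
      · rintro rfl
        exact h2 hx
      · exact SimpleGraph.Adj.symm ⟨x, hF3⟩
    · exact ⟨x, h1.symm, hx, z, hF⟩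

end W_CLUS_ADJ

open W_CLUS_ADJ in
theorem CLUS_ADJ {V₀ V : Type} [Finite V₀] [Finite V] (T₀ : Tri V₀) (T : Tri V) (κ : V₀ → V) (hc : Clus T₀ T κ) (a b : V) :
    T.G.Adj a b ↔ a ≠ b ∧ ∃ a₀ b₀, κ a₀ = a ∧ κ b₀ = b ∧ T₀.G.Adj a₀ b₀ := by
  constructor
  · rintro ⟨c, hF⟩
    obtain ⟨h1, _, _, a₀, b₀, c₀, e1, e2, _, h4⟩ := (hc.2 a b c).mp hF
    exact ⟨h1, a₀, b₀, e1, e2, c₀, h4⟩
  · rintro ⟨hab, a₀, b₀, e1, e2, hadj⟩
    have hU : Conn T₀.G (κ ⁻¹' ({a, b}ᶜ : Set V)) := lift_conn T₀ T κ hc _ (tri_conn3 T a b)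
    have hAU : AdjS T₀.G (κ ⁻¹' {a}) (κ ⁻¹' ({a, b}ᶜ : Set V)) := by
      obtain ⟨c, hca, hcb, hac⟩ := exists_nbr T a b hab
      obtain ⟨w₁, z₁, f1, f2, hadj₁⟩ := lift_edge T₀ T κ hc hac
      refine ⟨w₁, by simpa using f1, z₁, ?_, hadj₁⟩
      show κ z₁ ∈ ({a, b}ᶜ : Set V)
      rw [f2]
      simp [hca, hcb]
    have hBU : AdjS T₀.G (κ ⁻¹' {b}) (κ ⁻¹' ({a, b}ᶜ : Set V)) := by
      obtain ⟨c, hcb, hca, hac⟩ := exists_nbr T b a hab.symm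
      obtain ⟨w₁, z₁, f1, f2, hadj₁⟩ := lift_edge T₀ T κ hc hac
      refine ⟨w₁, by simpa using f1, z₁, ?_, hadj₁⟩
      show κ z₁ ∈ ({a, b}ᶜ : Set V)
      rw [f2]
      simp [hca, hcb]
    have hdisj : ∀ A B : Set V, Disjoint A B → Disjoint (κ ⁻¹' A) (κ ⁻¹' B) :=
      fun A B h => Disjoint.preimage κ h
    have hT := (THREE T₀ (κ ⁻¹' {a}) (κ ⁻¹' {b}) (κ ⁻¹' ({a, b}ᶜ : Set V))
      (by
        intro v
        by_cases h1 : κ v = a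
        · exact Or.inl (by simpa using h1)
        · by_cases h2 : κ v = b
          · exact Or.inr (Or.inl (by simpa using h2))
          · refine Or.inr (Or.inr ?_)
            show κ v ∈ ({a, b}ᶜ : Set V)
            simp [h1, h2])
      (hdisj _ _ (by simpa using hab))
      (hdisj _ _ (by
        rw [Set.disjoint_left]
        rintro x hx hx2
        exact hx2 (Or.inl hx)))
      (hdisj _ _ (by
        rw [Set.disjoint_left]
        rintro x hx hx2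
        exact hx2 (Or.inr hx)))
      (hc.1 a) (hc.1 b) hU
      ⟨a₀, by simpa using e1, b₀, by simpa using e2, hadj⟩ hAU hBU).1
    obtain ⟨k, hk, s, hs, u, hu, hF⟩ := hT
    have hk' : κ k = a := by simpa using hk
    have hs' : κ s = b := by simpa using hs
    have hu' : κ u ≠ a ∧ κ u ≠ b := by
      have : κ u ∈ ({a, b}ᶜ : Set V) := hu
      simpa using this
    exact ⟨κ u, (hc.2 a b (κ u)).mpr ⟨hab, hu'.2.symm, hu'.1.symm, k, s, u, hk', hs', rfl, hF⟩⟩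


end Pool.Agent.H891WLC
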