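import Pool.Agent.H891WLC.Defs
import Pool.Agent.H891WLC.tri_conn3
import Pool.Agent.H891WLC.CHI
import Pool.Agent.H891WLC.THREE
import Pool.Agent.H891WLC.STRIP

set_option autoImplicit false

namespace Pool.Agent.H891WLC

namespace W_QUOT
open Classical

theorem card_sub {α : Type} [Fintype α] (p : α → Prop) [DecidablePred p] :
    (Nat.card {t // p t} : ℤ) = ∑ t, if p t then (1:ℤ) else 0 := by
  rw [Nat.card_eq_fintype_card, Fintype.card_subtype, Finset.card_filter]
  push_cast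
  rfl

theorem rot_iff {V : Type} (T : Tri V) (x y z : V) : T.F x y z ↔ T.F y z x :=
  ⟨T.rot x y z, fun h => T.rot _ _ _ (T.rot _ _ _ h)⟩

theorem adj_sum {V : Type} [Fintype V] (T : Tri V) (x y : V) :
    (if T.G.Adj x y then (1:ℤ) else 0) = ∑ z, if T.F x y z then (1:ℤ) else 0 := by
  by_cases h : T.G.Adj x y
  · rw [if_pos h]
    obtain ⟨z0, hz0⟩ := h
    rw [Finset.sum_eq_single z0]
    · rw [if_pos hz0]
    · intro z _ hz
      rw [if_neg]
      intro hF
      exact hz (T.uniq x y z z0 hF hz0)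
    · intro h; exact absurd (Finset.mem_univ _) h
  · rw [if_neg h]
    symm
    apply Finset.sum_eq_zero
    intro z _
    rw [if_neg]
    intro hF
    exact h ⟨z, hF⟩

/-- rotation of triples -/
def rotE (V : Type) : V × V × V ≃ V × V × V where
  toFun t := (t.2.1, t.2.2, t.1)
  invFun t := (t.2.2, t.1, t.2.1)
  left_inv t := rfl
  right_inv t := rfl

theorem sum_rot {V : Type} [Fintype V] (g : V × V × V → ℤ) :
    ∑ t, g t = ∑ t : V × V × V, g (t.2.1, t.2.2, t.1) :=
  ((rotE V).sum_comp g).symm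

theorem edge_split {V : Type} {G : SimpleGraph V} {X Y Z : Set V} (hZ : Conn G Z)
    (hX : X.Nonempty) (hY : Y.Nonempty) (hXZ : X ⊆ Z) (hYZ : Y ⊆ Z) (hd : Disjoint X Y)
    (hcov : ∀ v ∈ Z, v ∈ X ∨ v ∈ Y) : AdjS G X Y := by
  obtain ⟨x, hx⟩ := hX
  obtain ⟨y, hy⟩ := hY
  have h := hZ.2 x (hXZ hx) y (hYZ hy)
  have key : ∀ w, Relation.ReflTransGen (fun x y => G.Adj x y ∧ y ∈ Z) x w → w ∈ X ∨ AdjS G X Y := by
    intro w hw
    induction hw with
    | refl => exact Or.inl hx
    | @tail b c _ hbc ih =>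
      rcases ih with ih | ih
      · rcases hcov c hbc.2 with h1 | h1
        · exact Or.inl h1
        · exact Or.inr ⟨b, ih, c, h1, hbc.1⟩
      · exact Or.inr ih
  rcases key y h with h1 | h1
  · exact absurd hy (Set.disjoint_left.mp hd h1)
  · exact h1

theorem three' {V W : Type} [Finite V] (T : Tri V) (π : V → W)
    (hc : ∀ w, Conn T.G (π ⁻¹' {w}))
    (h3 : ∀ x y : W, Conn T.G (π ⁻¹' ({x, y}ᶜ : Set W))) (A B : W) (hAB : A ≠ B)
    (hadj : AdjS T.G (π ⁻¹' {A}) (π ⁻¹' {B})) :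
    (∃ a b c, π a = A ∧ π b = B ∧ π c ≠ A ∧ π c ≠ B ∧ T.F a b c) ∧
    ∀ a b c a' b' c', π a = A → π b = B → π c ≠ A → π c ≠ B → π a' = A → π b' = B → π c' ≠ A →
      π c' ≠ B → T.F a b c → T.F a' b' c' → a = a' ∧ b = b' ∧ c = c' := by
  have hmem : ∀ v, v ∈ π ⁻¹' ({A, B}ᶜ : Set W) ↔ (π v ≠ A ∧ π v ≠ B) := by
    intro v
    simp only [Set.mem_preimage, Set.mem_compl_iff, Set.mem_insert_iff, Set.mem_singleton_iff,
      not_or, ne_eq]
  have d2 : Disjoint (π ⁻¹' {A}) (π ⁻¹' ({A, B}ᶜ : Set W)) := by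
    rw [Set.disjoint_left]
    intro v hv hv'
    exact ((hmem v).mp hv').1 hv
  have d3 : Disjoint (π ⁻¹' {B}) (π ⁻¹' ({A, B}ᶜ : Set W)) := by
    rw [Set.disjoint_left]
    intro v hv hv'
    exact ((hmem v).mp hv').2 hv
  have a2 : AdjS T.G (π ⁻¹' {A}) (π ⁻¹' ({A, B}ᶜ : Set W)) := by
    refine edge_split (h3 B B) (hc A).1 (h3 A B).1 ?_ ?_ d2 ?_
    · intro v hv
      have hv' : π v = A := hv
      simp only [Set.mem_preimage, Set.mem_compl_iff, Set.mem_insert_iff, Set.mem_singleton_iff,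
        or_self, hv']
      exact hAB
    · intro v hv
      simp only [Set.mem_preimage, Set.mem_compl_iff, Set.mem_insert_iff, Set.mem_singleton_iff,
        or_self]
      exact ((hmem v).mp hv).2
    · intro v hv
      by_cases h : π v = A
      · exact Or.inl h
      · right
        rw [hmem]
        refine ⟨h, ?_⟩
        simp only [Set.mem_preimage, Set.mem_compl_iff, Set.mem_insert_iff, Set.mem_singleton_iff,
          or_self] at hv
        exact hv
  have a3 : AdjS T.G (π ⁻¹' {B}) (π ⁻¹' ({A, B}ᶜ : Set W)) := by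
    refine edge_split (h3 A A) (hc B).1 (h3 A B).1 ?_ ?_ d3 ?_
    · intro v hv
      have hv' : π v = B := hv
      simp only [Set.mem_preimage, Set.mem_compl_iff, Set.mem_insert_iff, Set.mem_singleton_iff,
        or_self, hv']
      exact hAB.symm
    · intro v hv
      simp only [Set.mem_preimage, Set.mem_compl_iff, Set.mem_insert_iff, Set.mem_singleton_iff,
        or_self]
      exact ((hmem v).mp hv).1
    · intro v hv
      by_cases h : π v = B
      · exact Or.inl h
      · right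
        rw [hmem]
        refine ⟨?_, h⟩
        simp only [Set.mem_preimage, Set.mem_compl_iff, Set.mem_insert_iff, Set.mem_singleton_iff,
          or_self] at hv
        exact hv
  obtain ⟨h1, h2⟩ := THREE T (π ⁻¹' {A}) (π ⁻¹' {B}) (π ⁻¹' ({A, B}ᶜ : Set W))
    (by
      intro v
      by_cases hA : π v = A
      · exact Or.inl hA
      · by_cases hB : π v = B
        · exact Or.inr (Or.inl hB)
        · exact Or.inr (Or.inr ((hmem v).mpr ⟨hA, hB⟩)))
    (by
      rw [Set.disjoint_left]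
      intro v hv hv'
      have e1 : π v = A := hv
      have e2 : π v = B := hv'
      exact hAB (e1.symm.trans e2)) d2 d3 (hc A) (hc B) (h3 A B) hadj a2 a3
  constructor
  · obtain ⟨a, ha, b, hb, c, hc', hF⟩ := h1
    exact ⟨a, b, c, ha, hb, ((hmem c).mp hc').1, ((hmem c).mp hc').2, hF⟩
  · intro a b c a' b' c' ha hb hcA hcB ha' hb' hcA' hcB' hF hF'
    exact h2 a b c a' b' c' ha hb ((hmem c).mpr ⟨hcA, hcB⟩) ha' hb'
      ((hmem c').mpr ⟨hcA', hcB'⟩) hF hF'

/-- faces of the quotient -/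
def Fq {V W : Type} (T : Tri V) (π : V → W) (A B C : W) : Prop :=
  A ≠ B ∧ B ≠ C ∧ A ≠ C ∧ ∃ a b c, π a = A ∧ π b = B ∧ π c = C ∧ T.F a b c

theorem count {V W : Type} [Fintype V] [Fintype W] (T : Tri V) (π : V → W)
    (hc : ∀ w, Conn T.G (π ⁻¹' {w}))
    (h3 : ∀ x y : W, Conn T.G (π ⁻¹' ({x, y}ᶜ : Set W))) :
    (Nat.card {t : V × V × V // T.F t.1 t.2.1 t.2.2 ∧ π t.1 ≠ π t.2.1 ∧ π t.2.1 ≠ π t.2.2 ∧
      π t.1 ≠ π t.2.2} : ℤ) + 12 = 6 * (Fintype.card W : ℤ) := by
  rw [card_sub]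
  -- Euler
  have hE : (∑ t : V × V × V, if T.F t.1 t.2.1 t.2.2 then (1:ℤ) else 0) + 12 =
      6 * (Fintype.card V : ℤ) := by
    have := T.euler
    have h2 := card_sub (fun t : V × V × V => T.F t.1 t.2.1 t.2.2)
    rw [← h2, ← Nat.card_eq_fintype_card (α := V)]
    exact_mod_cast this
  -- CHI
  have hχ : ∀ A : W, 6 * (∑ x : V, if π x = A then (1:ℤ) else 0) +
      2 * (∑ t : V × V × V, if (π t.1 = A ∧ π t.2.1 = A ∧ π t.2.2 = A ∧ T.F t.1 t.2.1 t.2.2)
        then (1:ℤ) else 0) = 6 + 3 * (∑ e : V × V, if (π e.1 = A ∧ π e.2 = A ∧ T.G.Adj e.1 e.2)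
        then (1:ℤ) else 0) := by
    intro A
    have hco : Conn T.G (π ⁻¹' {A})ᶜ := by
      have := h3 A A
      rwa [Set.pair_eq_singleton, Set.preimage_compl] at this
    have h := CHI T (π ⁻¹' {A}) (hc A) hco
    have e1 := card_sub (fun x : V => π x = A)
    have e2 := card_sub (fun t : V × V × V => π t.1 = A ∧ π t.2.1 = A ∧ π t.2.2 = A ∧
      T.F t.1 t.2.1 t.2.2)
    have e3 := card_sub (fun e : V × V => π e.1 = A ∧ π e.2 = A ∧ T.G.Adj e.1 e.2)
    rw [← e1, ← e2, ← e3]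
    exact_mod_cast h
  have hsum := Finset.sum_congr rfl (fun A (_ : A ∈ (Finset.univ : Finset W)) => hχ A)
  rw [Finset.sum_add_distrib, Finset.sum_add_distrib, ← Finset.mul_sum, ← Finset.mul_sum,
    ← Finset.mul_sum, Finset.sum_comm (s := (Finset.univ : Finset W)),
    Finset.sum_comm (s := (Finset.univ : Finset W)) (t := (Finset.univ : Finset (V × V × V))),
    Finset.sum_comm (s := (Finset.univ : Finset W)) (t := (Finset.univ : Finset (V × V)))] at hsum
  have s1 : ∑ y : V, ∑ x : W, (if π y = x then (1:ℤ) else 0) = Fintype.card V := by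
    simp
  have s2 : ∑ t : V × V × V, ∑ A : W, (if (π t.1 = A ∧ π t.2.1 = A ∧ π t.2.2 = A ∧
      T.F t.1 t.2.1 t.2.2) then (1:ℤ) else 0) = ∑ t : V × V × V,
      if (T.F t.1 t.2.1 t.2.2 ∧ π t.1 = π t.2.1 ∧ π t.2.1 = π t.2.2) then (1:ℤ) else 0 := by
    apply Finset.sum_congr rfl
    intro t _
    rw [Finset.sum_eq_single (π t.1)]
    · congr 1
      apply propext
      constructor
      · rintro ⟨_, h1, h2, h3⟩
        exact ⟨h3, h1.symm, h1.trans h2.symm⟩
      · rintro ⟨h1, h2, h3⟩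
        exact ⟨rfl, h2.symm, h3.symm.trans h2.symm, h1⟩
    · intro A _ hA
      rw [if_neg]
      rintro ⟨h1, _⟩
      exact hA h1.symm
    · intro h; exact absurd (Finset.mem_univ _) h
  have s3 : ∑ e : V × V, ∑ A : W, (if (π e.1 = A ∧ π e.2 = A ∧ T.G.Adj e.1 e.2)
      then (1:ℤ) else 0) = ∑ t : V × V × V,
      if (T.F t.1 t.2.1 t.2.2 ∧ π t.1 = π t.2.1) then (1:ℤ) else 0 := by
    have e1 : ∀ e : V × V, ∑ A : W, (if (π e.1 = A ∧ π e.2 = A ∧ T.G.Adj e.1 e.2)
      then (1:ℤ) else 0) = ∑ z : V, if (T.F e.1 e.2 z ∧ π e.1 = π e.2) then (1:ℤ) else 0 := by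
      intro e
      by_cases hπ : π e.1 = π e.2
      · have h1 : ∀ z, (T.F e.1 e.2 z ∧ π e.1 = π e.2) ↔ T.F e.1 e.2 z := fun z =>
          ⟨fun h => h.1, fun h => ⟨h, hπ⟩⟩
        simp only [h1]
        rw [← adj_sum, Finset.sum_eq_single (π e.1)]
        · congr 1
          apply propext
          constructor
          · rintro ⟨_, _, h3⟩
            exact h3
          · intro h
            exact ⟨rfl, hπ.symm, h⟩
        · intro A _ hA
          rw [if_neg]
          rintro ⟨h1, _⟩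
          exact hA h1.symm
        · intro h; exact absurd (Finset.mem_univ _) h
      · rw [Finset.sum_eq_zero, Finset.sum_eq_zero]
        · intro z _
          rw [if_neg]
          rintro ⟨_, h⟩
          exact hπ h
        · intro A _
          rw [if_neg]
          rintro ⟨h1, h2, _⟩
          exact hπ (h1.trans h2.symm)
    rw [Finset.sum_congr rfl (fun e _ => e1 e), Fintype.sum_prod_type, Fintype.sum_prod_type]
    apply Finset.sum_congr rfl
    intro x _
    rw [Fintype.sum_prod_type]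
  rw [s1, s2, s3] at hsum
  have s4 : ∑ _A : W, (6:ℤ) = 6 * (Fintype.card W : ℤ) := by
    rw [Finset.sum_const, Finset.card_univ, nsmul_eq_mul]; ring
  rw [s4] at hsum
  -- rotations
  have r1 : (∑ t : V × V × V, if (T.F t.1 t.2.1 t.2.2 ∧ π t.1 = π t.2.1) then (1:ℤ) else 0) =
      ∑ t : V × V × V, if (T.F t.1 t.2.1 t.2.2 ∧ π t.2.1 = π t.2.2) then (1:ℤ) else 0 := by
    rw [sum_rot]
    apply Finset.sum_congr rfl
    intro t _
    have := rot_iff T t.1 t.2.1 t.2.2
    simp only [this]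
  have r2 : (∑ t : V × V × V, if (T.F t.1 t.2.1 t.2.2 ∧ π t.2.1 = π t.2.2) then (1:ℤ) else 0) =
      ∑ t : V × V × V, if (T.F t.1 t.2.1 t.2.2 ∧ π t.2.2 = π t.1) then (1:ℤ) else 0 := by
    rw [sum_rot]
    apply Finset.sum_congr rfl
    intro t _
    have := rot_iff T t.1 t.2.1 t.2.2
    simp only [this]
  -- pointwise identity
  have hpt : (∑ t : V × V × V, if T.F t.1 t.2.1 t.2.2 then (1:ℤ) else 0) +
      2 * (∑ t : V × V × V,
      if (T.F t.1 t.2.1 t.2.2 ∧ π t.1 = π t.2.1 ∧ π t.2.1 = π t.2.2) then (1:ℤ) else 0) =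
      (∑ t : V × V × V, if (T.F t.1 t.2.1 t.2.2 ∧ π t.1 = π t.2.1) then (1:ℤ) else 0) +
      (∑ t : V × V × V, if (T.F t.1 t.2.1 t.2.2 ∧ π t.2.1 = π t.2.2) then (1:ℤ) else 0) +
      (∑ t : V × V × V, if (T.F t.1 t.2.1 t.2.2 ∧ π t.2.2 = π t.1) then (1:ℤ) else 0) +
      (∑ t : V × V × V, if (T.F t.1 t.2.1 t.2.2 ∧ π t.1 ≠ π t.2.1 ∧ π t.2.1 ≠ π t.2.2 ∧
      π t.1 ≠ π t.2.2) then (1:ℤ) else 0) := by
    rw [Finset.mul_sum, ← Finset.sum_add_distrib, ← Finset.sum_add_distrib,
      ← Finset.sum_add_distrib, ← Finset.sum_add_distrib]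
    apply Finset.sum_congr rfl
    intro t _
    by_cases hF : T.F t.1 t.2.1 t.2.2
    · by_cases h1 : π t.1 = π t.2.1
      · by_cases h2 : π t.2.1 = π t.2.2
        · have h4 : π t.2.2 = π t.1 := (h1.trans h2).symm
          simp [hF, h1, h2]
        · have h4 : π t.2.2 ≠ π t.2.1 := fun h => h2 h.symm
          simp [hF, h1, h2, h4]
      · by_cases h2 : π t.2.1 = π t.2.2
        · have h4 : π t.2.2 ≠ π t.1 := fun h => h1 (h.symm.trans h2.symm)
          have h5 : π t.1 ≠ π t.2.2 := fun h => h4 h.symm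
          simp [hF, h2, h4, h5]
        · by_cases h4 : π t.2.2 = π t.1
          · have h5 : π t.1 ≠ π t.2.1 := h1
            have h6 : π t.2.1 ≠ π t.1 := fun h => h1 h.symm
            simp [hF, h4, h5, h6]
          · have h5 : π t.1 ≠ π t.2.2 := fun h => h4 h.symm
            simp [hF, h1, h2, h4, h5]
    · simp [hF]
  linarith

end W_QUOT

open W_QUOT in
theorem QUOT {V W : Type} [Finite V] [Finite W] (T : Tri V) (π : V → W)
    (hc : ∀ w, Conn T.G (π ⁻¹' {w})) (hW : 3 ≤ Nat.card W)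
    (h3 : ∀ x y : W, Conn T.G (π ⁻¹' ({x, y}ᶜ : Set W))) : ∃ T' : Tri W, Clus T T' π := by
  classical
  haveI := Fintype.ofFinite V
  haveI := Fintype.ofFinite W
  have hadj : ∀ a b c, T.F a b c → AdjS T.G (π ⁻¹' {π a}) (π ⁻¹' {π b}) := fun a b c h =>
    ⟨a, rfl, b, rfl, ⟨c, h⟩⟩
  have hex : ∀ x y z, T.F x y z → π x ≠ π y → ∃ C, Fq T π (π x) (π y) C := by
    intro x y z hF hne
    obtain ⟨⟨a, b, c, ha, hb, hc1, hc2, hF'⟩, -⟩ := three' T π hc h3 (π x) (π y) hne (hadj x y z hF)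
    exact ⟨π c, hne, fun h => hc2 h.symm, fun h => hc1 h.symm, a, b, c, ha, hb, rfl, hF'⟩
  have huniq : ∀ a b c a' b' c', T.F a b c → T.F a' b' c' → π a = π a' → π b = π b' →
      π a ≠ π b → π c ≠ π a → π c ≠ π b → π c' ≠ π a → π c' ≠ π b → a = a' ∧ b = b' ∧ c = c' := by
    intro a b c a' b' c' hF hF' ha hb hne h1 h2 h1' h2'
    obtain ⟨-, h⟩ := three' T π hc h3 (π a) (π b) hne (hadj a b c hF)
    exact h a b c a' b' c' rfl rfl h1 h2 ha.symm hb.symm h1' h2' hF hF'
  let T' : Tri W :=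
    { F := Fq T π
      rot := by
        rintro A B C ⟨h1, h2, h3, a, b, c, ha, hb, hc', hF⟩
        exact ⟨h2, fun h => h3 h.symm, fun h => h1 h.symm, b, c, a, hb, hc', ha, T.rot _ _ _ hF⟩
      ne := fun A B C h => h.1
      uniq := by
        rintro A B C D ⟨h1, h2, h3, a, b, c, ha, hb, hc', hF⟩ ⟨h1', h2', h3', a', b', c', ha', hb',
          hc'', hF'⟩
        subst ha hb hc' hc''
        obtain ⟨-, -, h⟩ := huniq a b c a' b' c' hF hF' ha'.symm hb'.symm h1
          (fun h => h3 h.symm) (fun h => h2 h.symm) (fun h => h3' h.symm) (fun h => h2' h.symm)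
        rw [h]
      opp := by
        rintro A B C ⟨h1, h2, h3, a, b, c, ha, hb, hc', hF⟩
        subst ha hb hc'
        obtain ⟨d, hd⟩ := T.opp a b c hF
        exact hex b a d hd (fun h => h1 h.symm)
      link := by
        rintro v A B C D ⟨h1, h2, h3', a, b, c, ha, hb, hc', hF⟩ ⟨h1', h2', h3'', a', b', c', ha',
          hb', hc'', hF'⟩
        have hco : Conn T.G (π ⁻¹' {v})ᶜ := by
          have := h3 v v
          rwa [Set.pair_eq_singleton, Set.preimage_compl] at this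
        have hs := STRIP T (π ⁻¹' {v}) (hc v) hco a b a' b' ha
          (fun h => h1 (by rw [← hb]; exact (h : π b = v).symm)) ha'
          (fun h => h1' (by rw [← hb']; exact (h : π b' = v).symm)) ⟨c, hF⟩ ⟨c', hF'⟩
        have key : ∀ q : V × V, Relation.ReflTransGen (fun (p q : V × V) =>
          (T.F p.1 p.2 q.2 ∧ q.1 = p.1 ∧ q.2 ∉ π ⁻¹' {v}) ∨
          (T.F p.1 p.2 q.1 ∧ q.2 = p.2 ∧ q.1 ∈ π ⁻¹' {v})) (a, b) q →
          π q.1 = v ∧ π q.2 ≠ v ∧ Relation.ReflTransGen (fun x y => Fq T π v x y) A (π q.2) := by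
          intro q hq
          induction hq with
          | refl =>
            refine ⟨ha, ?_, ?_⟩
            · show π b ≠ v
              rw [hb]; exact fun h => h1 h.symm
            · show Relation.ReflTransGen (fun x y => Fq T π v x y) A (π b)
              rw [hb]
          | @tail p q _ hpq ih =>
            obtain ⟨i1, i2, i3⟩ := ih
            rcases hpq with ⟨g1, g2, g3⟩ | ⟨g1, g2, g3⟩
            · have g3' : π q.2 ≠ v := g3
              refine ⟨by rw [g2]; exact i1, g3', ?_⟩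
              by_cases heq : π p.2 = π q.2
              · rw [← heq]; exact i3
              · exact i3.tail ⟨fun h => i2 h.symm, heq, fun h => g3' h.symm, p.1, p.2, q.2, i1, rfl,
                  rfl, g1⟩
            · refine ⟨g3, by rw [g2]; exact i2, ?_⟩
              rw [g2]; exact i3
        have := (key (a', b') hs).2.2
        rw [show π (a', b').2 = C from hb'] at this
        exact this
      conn := by
        intro u v
        obtain ⟨u0, hu0⟩ := (hc u).1
        obtain ⟨v0, hv0⟩ := (hc v).1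
        have hu : π u0 = u := hu0
        have hv : π v0 = v := hv0
        rw [← hu, ← hv]
        refine Relation.ReflTransGen.lift' π ?_ _ _ (T.conn u0 v0)
        rintro x y ⟨z, hz⟩
        show Relation.ReflTransGen (fun x y => ∃ z, Fq T π x y z) (π x) (π y)
        by_cases heq : π x = π y
        · rw [heq]
        · obtain ⟨C, hC⟩ := hex x y z hz heq
          exact Relation.ReflTransGen.single ⟨C, hC⟩
      euler := by
        have h1 := count T π hc h3
        have h2 : Nat.card {t : W × W × W // Fq T π t.1 t.2.1 t.2.2} =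
            Nat.card {t : V × V × V // T.F t.1 t.2.1 t.2.2 ∧ π t.1 ≠ π t.2.1 ∧ π t.2.1 ≠ π t.2.2 ∧
              π t.1 ≠ π t.2.2} := by
          symm
          let f : {t : V × V × V // T.F t.1 t.2.1 t.2.2 ∧ π t.1 ≠ π t.2.1 ∧ π t.2.1 ≠ π t.2.2 ∧
              π t.1 ≠ π t.2.2} → {t : W × W × W // Fq T π t.1 t.2.1 t.2.2} := fun t =>
            ⟨(π t.1.1, π t.1.2.1, π t.1.2.2), t.2.2.1, t.2.2.2.1, t.2.2.2.2, t.1.1, t.1.2.1,
              t.1.2.2, rfl, rfl, rfl, t.2.1⟩
          apply Nat.card_eq_of_bijective f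
          constructor
          · rintro ⟨⟨a, b, c⟩, hF, g1, g2, g3⟩ ⟨⟨a', b', c'⟩, hF', g1', g2', g3'⟩ hff
            have hff' := congrArg Subtype.val hff
            simp only [f, Prod.mk.injEq] at hff'
            obtain ⟨e1, e2, e3⟩ := hff'
            dsimp only at hF hF' g1 g2 g3 g1' g2' g3'
            obtain ⟨r1, r2, r3⟩ := huniq a b c a' b' c' hF hF' e1 e2 g1 (fun h => g3 h.symm)
              (fun h => g2 h.symm) (fun h => g3 (by rw [e3, h])) (fun h => g2 (by rw [e3, h]))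
            subst r1 r2 r3
            rfl
          · rintro ⟨⟨A, B, C⟩, g1, g2, g3, a, b, c, ha, hb, hc', hF⟩
            dsimp only at ha hb hc' g1 g2 g3
            subst ha hb hc'
            exact ⟨⟨(a, b, c), hF, g1, g2, g3⟩, rfl⟩
        rw [h2]
        rw [Nat.card_eq_fintype_card (α := W)]
        exact_mod_cast h1 }
  exact ⟨T', hc, fun a b c => Iff.rfl⟩


end Pool.Agent.H891WLC
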