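import Pool.Agent.H891WLC.Defs
import Pool.Agent.H891WLC.tri_conn3

set_option autoImplicit false

namespace Pool.Agent.H891WLC

namespace W_DRAWN_BAL

/-- first coordinate in the rotated frame -/
noncomputable def ph {V : Type} (p : V → ℝ × ℝ) (v : V) (α β : ℝ) (u : V) : ℝ :=
  α * ((p u).1 - (p v).1) + β * ((p u).2 - (p v).2)

/-- second coordinate in the rotated frame -/
noncomputable def ps {V : Type} (p : V → ℝ × ℝ) (v : V) (α β : ℝ) (u : V) : ℝ :=
  -β * ((p u).1 - (p v).1) + α * ((p u).2 - (p v).2)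

theorem det_eq {V : Type} (p : V → ℝ × ℝ) (v : V) (α β : ℝ) (x y : V) :
    ph p v α β x * ps p v α β y - ps p v α β x * ph p v α β y =
      (α ^ 2 + β ^ 2) * crs (p v) (p x) (p y) := by
  unfold ph ps crs
  ring

/-- the key -/
noncomputable def key {V : Type} (p : V → ℝ × ℝ) (v : V) (α β : ℝ) (u : V) : ℝ :=
  if ph p v α β u < 0 then Real.arctan (ps p v α β u / ph p v α β u)
  else if 0 < ps p v α β u then -2 else 2

theorem key_lt {V : Type} (p : V → ℝ × ℝ) (v : V) (α β : ℝ) (x y : V)
    (hx : ph p v α β x ≤ 0) (hy : ph p v α β y ≤ 0)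
    (hd : 0 < ph p v α β x * ps p v α β y - ps p v α β x * ph p v α β y) :
    key p v α β x < key p v α β y := by
  have hpi := Real.pi_lt_four
  unfold key
  rcases lt_or_eq_of_le hx with hx1 | hx1 <;> rcases lt_or_eq_of_le hy with hy1 | hy1
  · rw [if_pos hx1, if_pos hy1]
    apply Real.arctan_strictMono
    rw [← sub_pos]
    have e : ps p v α β y / ph p v α β y - ps p v α β x / ph p v α β x =
        (ph p v α β x * ps p v α β y - ps p v α β x * ph p v α β y) /
          (ph p v α β x * ph p v α β y) := by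
      have h1 := hx1.ne
      have h2 := hy1.ne
      field_simp
    rw [e]
    exact div_pos hd (mul_pos_of_neg_of_neg hx1 hy1)
  · rw [if_pos hx1, if_neg (by rw [hy1]; exact lt_irrefl 0)]
    rw [hy1, mul_zero, sub_zero] at hd
    have h1 : ps p v α β y < 0 := by
      by_contra hc
      push Not at hc
      have := mul_nonpos_of_nonpos_of_nonneg hx hc
      linarith
    rw [if_neg (not_lt.mpr h1.le)]
    have := Real.arctan_lt_pi_div_two (ps p v α β x / ph p v α β x)
    linarith
  · rw [if_neg (by rw [hx1]; exact lt_irrefl 0), if_pos hy1]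
    rw [hx1, zero_mul, zero_sub] at hd
    have h1 : 0 < ps p v α β x := by
      by_contra hc
      push Not at hc
      have := mul_nonneg_of_nonpos_of_nonpos hc hy
      linarith
    rw [if_pos h1]
    have := Real.neg_pi_div_two_lt_arctan (ps p v α β y / ph p v α β y)
    linarith
  · rw [hx1, hy1, zero_mul, mul_zero, sub_zero] at hd
    exact absurd hd (lt_irrefl 0)

end W_DRAWN_BAL

open W_DRAWN_BAL in
theorem DRAWN_BAL {V : Type} [Finite V] (T : Tri V) (o₁ o₂ o₃ : V) (p : V → ℝ × ℝ) (hd : Drawn T o₁ o₂ o₃ p) (v : V)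
    (h1 : v ≠ o₁) (h2 : v ≠ o₂) (h3 : v ≠ o₃) (α β : ℝ) (hαβ : α ≠ 0 ∨ β ≠ 0) :
    ∃ u, T.G.Adj v u ∧ 0 < α * ((p u).1 - (p v).1) + β * ((p u).2 - (p v).2) := by
  by_contra hcon
  push Not at hcon
  have hadj1 : ∀ x y, T.F v x y → T.G.Adj v x := fun x y h => ⟨y, h⟩
  have hadj2 : ∀ x y, T.F v x y → ∃ d, T.F v y d := by
    intro x y h
    exact T.opp y v x (T.rot x y v (T.rot v x y h))
  have hph : ∀ u, T.G.Adj v u → ph p v α β u ≤ 0 := fun u hu => hcon u hu
  have hpos : 0 < α ^ 2 + β ^ 2 := by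
    rcases hαβ with h | h
    · have := sq_nonneg β
      have := sq_pos_of_ne_zero h
      linarith
    · have := sq_nonneg α
      have := sq_pos_of_ne_zero h
      linarith
  have hstep : ∀ x y, T.F v x y → key p v α β x < key p v α β y := by
    intro x y h
    obtain ⟨d, hd'⟩ := hadj2 x y h
    apply key_lt p v α β x y (hph x (hadj1 x y h)) (hph y (hadj1 y d hd'))
    rw [det_eq]
    apply mul_pos hpos
    apply hd.2.2 v x y h
    rintro (h' | h' | h')
    · exact h1 h'.1
    · exact h2 h'.1
    · exact h3 h'.1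
  have hface : ∃ w z, T.F v w z := by
    have hc := T.conn v o₁
    rcases Relation.ReflTransGen.cases_head hc with h | ⟨w, ⟨z, hz⟩, _⟩
    · exact absurd h h1
    · exact ⟨w, z, hz⟩
  obtain ⟨w, z, hwz⟩ := hface
  obtain ⟨t, hzt⟩ := hadj2 w z hwz
  have hl := T.link v z t w z hzt hwz
  have hle : ∀ a c, Relation.ReflTransGen (fun x y => T.F v x y) a c →
      key p v α β a ≤ key p v α β c := by
    intro a c h
    induction h with
    | refl => exact le_rfl
    | tail _ hs ih => exact ih.trans (hstep _ _ hs).le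
  have := hle z w hl
  have := hstep w z hwz
  linarith


end Pool.Agent.H891WLC
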