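import Pool.Agent.H891WLC.Defs
import Pool.Agent.H891WLC.tri_conn3
import Pool.Agent.H891WLC.EE
import Pool.Agent.H891WLC.CL

set_option autoImplicit false

namespace Pool.Agent.H891WLC

namespace W_NF

variable {V : Type}

def Flat (T : Tri V) (h : V → ℝ) (v : V) : Prop := ∀ u, T.G.Adj v u → h u = h v

structure Ctx (T : Tri V) (h : V → ℝ) (b t : V) : Prop where
  hb : ∀ v, v ≠ b → h b < h v
  ht : ∀ v, v ≠ t → h v < h t
  hact : ∀ v, v ≠ b → v ≠ t → ((∃ u, T.G.Adj v u ∧ h u < h v) ∧ (∃ u, T.G.Adj v u ∧ h v < h u)) ∨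
      (∀ u, T.G.Adj v u → h u = h v)

theorem two [Finite V] (T : Tri V) : Nontrivial V := by
  have h := T.euler
  exact Finite.one_lt_card_iff_nontrivial.mp (by omega)

theorem has_nb [Finite V] (T : Tri V) (v : V) : ∃ c z, T.F v c z := by
  haveI := two T
  obtain ⟨u, hu⟩ := exists_ne v
  rcases Relation.ReflTransGen.cases_head (T.conn v u) with h | ⟨c, ⟨z, hz⟩, _⟩
  · exact absurd h.symm hu
  · exact ⟨c, z, hz⟩

theorem adj_ne (T : Tri V) {a c : V} (h : T.G.Adj a c) : a ≠ c := T.G.ne_of_adj h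

theorem bt [Finite V] {T : Tri V} {h : V → ℝ} {b t : V} (C : Ctx T h b t) : b ≠ t := by
  haveI := two T
  obtain ⟨u, hu⟩ := exists_ne b
  intro e
  have h1 := C.hb u hu
  have h2 := C.ht u (by rw [← e]; exact hu)
  rw [← e] at h2
  linarith

theorem nfb [Finite V] {T : Tri V} {h : V → ℝ} {b t : V} (C : Ctx T h b t) : ¬ Flat T h b := by
  intro hf
  obtain ⟨c, z, hc⟩ := has_nb T b
  have h1 := hf c ⟨z, hc⟩
  have h2 := C.hb c (T.ne _ _ _ hc).symm
  linarith

theorem nft [Finite V] {T : Tri V} {h : V → ℝ} {b t : V} (C : Ctx T h b t) : ¬ Flat T h t := by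
  intro hf
  obtain ⟨c, z, hc⟩ := has_nb T t
  have h1 := hf c ⟨z, hc⟩
  have h2 := C.ht c (T.ne _ _ _ hc).symm
  linarith

theorem tb [Finite V] (a : V) (L : Set V) : ∃ τ : V → ℝ, Function.Injective τ ∧
    (∀ v ∈ L, v ≠ a → τ v < τ a) ∧ (∀ v, v ∉ L → v ≠ a → τ a < τ v) := by
  classical
  obtain ⟨n, ⟨e⟩⟩ := Finite.exists_equiv_fin V
  have hpos : ∀ v, (0:ℝ) ≤ ((e v : ℕ) : ℝ) := fun v => Nat.cast_nonneg _
  have hinj : ∀ v w, ((e v : ℕ) : ℝ) = ((e w : ℕ) : ℝ) → v = w := by
    intro v w hvw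
    exact e.injective (Fin.ext (Nat.cast_injective hvw))
  refine ⟨fun v => if v = a then 0 else if v ∈ L then -(1 + ((e v : ℕ) : ℝ)) else 1 + ((e v : ℕ) : ℝ),
    ?_, ?_, ?_⟩
  · intro v w hvw
    simp only at hvw
    have p1 := hpos v
    have p2 := hpos w
    split_ifs at hvw with h1 h2 h3 h4 h5 h6 h7 h8
    · rw [h1, h2]
    · linarith
    · linarith
    · linarith
    · exact hinj v w (by linarith)
    · linarith
    · linarith
    · linarith
    · exact hinj v w (by linarith)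
  · intro v hv hva
    have p1 := hpos v
    simp only [if_neg hva, if_pos hv, if_true]
    linarith
  · intro v hv hva
    have p1 := hpos v
    simp only [if_neg hva, if_neg hv, if_true]
    linarith

theorem lexrank [Finite V] (h τ : V → ℝ) : ∃ g : V → ℝ,
    ∀ u v, (h u < h v ∨ (h u = h v ∧ τ u < τ v)) → g u < g v := by
  refine ⟨fun v => (({u | h u < h v ∨ (h u = h v ∧ τ u < τ v)} : Set V).ncard : ℝ), ?_⟩
  intro u v huv
  simp only
  rw [Nat.cast_lt]
  apply Set.ncard_lt_ncard _ (Set.toFinite _)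
  rw [Set.ssubset_iff_of_subset]
  · refine ⟨u, huv, ?_⟩
    intro hu
    rcases hu with h1 | h1
    · exact lt_irrefl _ h1
    · exact lt_irrefl _ h1.2
  · intro w hw
    rcases hw with h1 | h1 <;> rcases huv with h2 | h2
    · exact Or.inl (h1.trans h2)
    · exact Or.inl (by rw [← h2.1]; exact h1)
    · exact Or.inl (by rw [h1.1]; exact h2)
    · exact Or.inr ⟨h1.1.trans h2.1, h1.2.trans h2.2⟩

theorem core [Finite V] {T : Tri V} {h : V → ℝ} {b t : V} (C : Ctx T h b t)
    (τ : V → ℝ) (hτ : Function.Injective τ) :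
    ∃ h' : V → ℝ, Function.Injective h' ∧
      (∀ u v, ¬ Flat T h u → ¬ Flat T h v → (h u < h v ∨ (h u = h v ∧ τ u < τ v)) → h' u < h' v) ∧
      (∀ v, v ≠ b → v ≠ t → (∃ u, T.G.Adj v u ∧ h' u < h' v) ∧ (∃ u, T.G.Adj v u ∧ h' v < h' u)) := by
  classical
  obtain ⟨g, hg⟩ := lexrank h τ
  have hbt := bt C
  have hginj : Function.Injective g := by
    intro u v huv
    by_contra hne
    rcases lt_trichotomy (h u) (h v) with h1 | h1 | h1
    · have := hg u v (Or.inl h1); linarith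
    · rcases lt_trichotomy (τ u) (τ v) with h2 | h2 | h2
      · have := hg u v (Or.inr ⟨h1, h2⟩); linarith
      · exact hne (hτ h2)
      · have := hg v u (Or.inr ⟨h1.symm, h2⟩); linarith
    · have := hg v u (Or.inl h1); linarith
  have hcon : ∀ x : V, Conn T.G ({x}ᶜ : Set V) := by
    intro x
    have := tri_conn3 T x x
    rwa [Set.pair_eq_singleton] at this
  set P : Set V := {v | ¬ Flat T h v ∧ v ≠ b ∧ v ≠ t} with hP
  have hval : Valid T.G {b} {t} P g := by
    rintro v ⟨hvf, hvb, hvt⟩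
    rcases C.hact v hvb hvt with ⟨⟨u, hu, hul⟩, ⟨w, hw, hwl⟩⟩ | hfl
    · constructor
      · refine ⟨u, hu, ?_⟩
        by_cases hub : u = b
        · exact Or.inl hub
        · refine Or.inr ⟨⟨?_, hub, ?_⟩, hg u v (Or.inl hul)⟩
          · intro hf
            have := hf v hu.symm
            linarith
          · intro e
            have := C.ht v hvt
            rw [e] at hul
            linarith
      · refine ⟨w, hw, ?_⟩
        by_cases hwt : w = t
        · exact Or.inl hwt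
        · refine Or.inr ⟨⟨?_, ?_, hwt⟩, hg v w (Or.inl hwl)⟩
          · intro hf
            have := hf v hw.symm
            linarith
          · intro e
            have := C.hb v hvb
            rw [e] at hwl
            linarith
    · exact absurd hfl hvf
  obtain ⟨k, hkinj, hkord, hkval⟩ := EE T.G hcon {b} {t} P
    (by rw [Set.disjoint_singleton]; exact hbt)
    (by rw [Set.disjoint_singleton_right]; intro h1; exact h1.2.1 rfl)
    (by rw [Set.disjoint_singleton_right]; intro h1; exact h1.2.2 rfl)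
    ⟨b, rfl⟩ ⟨t, rfl⟩
    (by
      intro v hv1 hv2
      exact ⟨t, rfl, (hcon b).2 v hv1 t (fun e => hbt e.symm)⟩)
    (by
      intro v hv1 hv2
      exact ⟨b, rfl, (hcon t).2 v hv2 b (fun e => hbt e)⟩)
    g (fun u _ v _ huv => hginj huv) hval
  obtain ⟨M, hM⟩ : ∃ M : ℝ, ∀ v, |k v| < M := by
    obtain ⟨M, hM⟩ := (Set.finite_range (fun v => |k v|)).bddAbove
    exact ⟨M + 1, fun v => by have := hM ⟨v, rfl⟩; simp only at this; linarith⟩
  have hM1 : ∀ v, -M < k v := fun v => (abs_lt.mp (hM v)).1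
  have hM2 : ∀ v, k v < M := fun v => (abs_lt.mp (hM v)).2
  obtain ⟨f, hfb, hft, hfo⟩ : ∃ f : V → ℝ, f b = -M ∧ f t = M ∧ ∀ v, v ≠ b → v ≠ t → f v = k v := by
    refine ⟨fun v => if v = b then -M else if v = t then M else k v, ?_, ?_, ?_⟩
    · simp
    · simp [hbt.symm]
    · intro v h1 h2; simp [h1, h2]
  have hM0 : -M < M := (hM1 b).trans (hM2 b)
  have hfb' : ∀ v, v ≠ b → f b < f v := by
    intro v hv
    by_cases hvt : v = t
    · rw [hvt, hfb, hft]; exact hM0
    · rw [hfb, hfo v hv hvt]; exact hM1 v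
  have hft' : ∀ v, v ≠ t → f v < f t := by
    intro v hv
    by_cases hvb : v = b
    · rw [hvb, hfb, hft]; exact hM0
    · rw [hft, hfo v hvb hv]; exact hM2 v
  refine ⟨f, ?_, ?_, ?_⟩
  · intro u v huv
    by_cases hub : u = b
    · by_contra hne
      have := hfb' v (fun e => hne (by rw [hub, e]))
      rw [hub] at huv; linarith
    by_cases hvb : v = b
    · have := hfb' u hub
      rw [hvb] at huv; linarith
    by_cases hut : u = t
    · by_contra hne
      have := hft' v (fun e => hne (by rw [hut, e]))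
      rw [hut] at huv; linarith
    by_cases hvt : v = t
    · have := hft' u hut
      rw [hvt] at huv; linarith
    rw [hfo u hub hut, hfo v hvb hvt] at huv
    exact hkinj (by simp [hub, hut]) (by simp [hvb, hvt]) huv
  · intro u v hu hv huv
    have hne : u ≠ v := by
      intro e
      rw [e] at huv
      rcases huv with h1 | h1
      · exact lt_irrefl _ h1
      · exact lt_irrefl _ h1.2
    by_cases hub : u = b
    · rw [hub]; exact hfb' v (fun e => hne (by rw [hub, e]))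
    by_cases hvb : v = b
    · exfalso
      have := C.hb u hub
      rw [hvb] at huv
      rcases huv with h1 | h1
      · linarith
      · linarith [h1.1]
    by_cases hvt : v = t
    · rw [hvt]; exact hft' u (fun e => hne (by rw [hvt, e]))
    by_cases hut : u = t
    · exfalso
      have := C.ht v hvt
      rw [hut] at huv
      rcases huv with h1 | h1
      · linarith
      · linarith [h1.1]
    rw [hfo u hub hut, hfo v hvb hvt]
    exact hkord u ⟨hu, hub, hut⟩ v ⟨hv, hvb, hvt⟩ (hg u v huv)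
  · intro v hvb hvt
    obtain ⟨⟨u, hu, hu1⟩, ⟨w, hw, hw1⟩⟩ := hkval v (by simp [hvb, hvt])
    constructor
    · refine ⟨u, hu, ?_⟩
      rcases hu1 with h1 | ⟨h1, h2⟩
      · have h1' : u = b := h1
        rw [h1']; exact hfb' v hvb
      · have hub : u ≠ b := fun e => h1 (Or.inl e)
        have hut : u ≠ t := fun e => h1 (Or.inr e)
        rw [hfo u hub hut, hfo v hvb hvt]; exact h2
    · refine ⟨w, hw, ?_⟩
      rcases hw1 with h1 | ⟨h1, h2⟩
      · have h1' : w = t := h1
        rw [h1']; exact hft' v hvt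
      · have hwb : w ≠ b := fun e => h1 (Or.inl e)
        have hwt : w ≠ t := fun e => h1 (Or.inr e)
        rw [hfo w hwb hwt, hfo v hvb hvt]; exact h2

/-- the combined tool -/
theorem tool [Finite V] {T : Tri V} {h : V → ℝ} {b t : V} (C : Ctx T h b t)
    (a : V) (ha : ¬ Flat T h a) (L : Set V) :
    ∃ h' : V → ℝ, Function.Injective h' ∧
      (∀ v, T.G.Adj a v → h v < h a → h' v < h' a) ∧
      (∀ v, T.G.Adj a v → h a < h v → h' a < h' v) ∧
      (∀ v, v ≠ a → ¬ Flat T h v → h v = h a → v ∈ L → h' v < h' a) ∧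
      (∀ v, v ≠ a → ¬ Flat T h v → h v = h a → v ∉ L → h' a < h' v) ∧
      (∀ v x y x' y', T.F v x y → h' x < h' v → h' v < h' y → T.F v x' y' → h' x' < h' v →
        h' v < h' y' → x = x') ∧
      (∀ v x y x' y', T.F v x y → h' v < h' x → h' y < h' v → T.F v x' y' → h' v < h' x' →
        h' y' < h' v → x = x') := by
  obtain ⟨τ, hτ, hτ1, hτ2⟩ := tb a L
  obtain ⟨h', hinj, hord, hact⟩ := core C τ hτ
  obtain ⟨hc1, hc2⟩ := CL T h' hinj b t hact
  refine ⟨h', hinj, ?_, ?_, ?_, ?_, hc1, hc2⟩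
  · intro v hv hlt
    refine hord v a ?_ ha (Or.inl hlt)
    intro hf
    have := hf a hv.symm
    linarith
  · intro v hv hlt
    refine hord a v ha ?_ (Or.inl hlt)
    intro hf
    have := hf a hv.symm
    linarith
  · intro v hva hv he hL
    exact hord v a hv ha (Or.inr ⟨he, hτ1 v hL hva⟩)
  · intro v hva hv he hL
    exact hord a v ha hv (Or.inr ⟨he.symm, hτ2 v hL hva⟩)

theorem pred_uniq (T : Tri V) {a p p' u : V} (h : T.F a p u) (h' : T.F a p' u) : p = p' :=
  T.uniq u a p p' (T.rot _ _ _ (T.rot _ _ _ h)) (T.rot _ _ _ (T.rot _ _ _ h'))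

theorem pred_ex (T : Tri V) {a u v : V} (h : T.F a u v) : ∃ p, T.F a p u := by
  obtain ⟨d, hd⟩ := T.opp a u v h
  exact ⟨d, T.rot _ _ _ hd⟩

theorem succ_ex (T : Tri V) {a u v : V} (h : T.F a u v) : ∃ w, T.F a v w := by
  -- T.F a u v → F v a u → opp: F a v d
  have h1 := T.rot _ _ _ (T.rot _ _ _ h)
  exact T.opp _ _ _ h1

/-- enumeration of the link of `a`, starting at `u` -/
theorem enum [Finite V] (T : Tri V) {a u v : V} (h : T.F a u v) :
    ∃ (z : ℕ → V) (d : ℕ), 0 < d ∧ z 0 = u ∧ (∀ i, T.F a (z i) (z (i+1))) ∧ z d = u ∧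
      (∀ i j, i < d → j < d → z i = z j → i = j) ∧ (∀ c c', T.F a c c' → ∃ i, i < d ∧ z i = c) := by
  classical
  let s : V → V := fun x => if hx : ∃ y, T.F a x y then hx.choose else x
  have hs : ∀ x y, T.F a x y → s x = y := by
    intro x y hxy
    have hx : ∃ y, T.F a x y := ⟨y, hxy⟩
    have : s x = hx.choose := dif_pos hx
    rw [this]
    exact T.uniq _ _ _ _ hx.choose_spec hxy
  have hz : ∀ i, ∃ y, T.F a (s^[i] u) y := by
    intro i
    induction i with
    | zero => exact ⟨v, h⟩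
    | succ i ih =>
      obtain ⟨y, hy⟩ := ih
      rw [Function.iterate_succ_apply', hs _ _ hy]
      exact succ_ex T hy
  have hF : ∀ i, T.F a (s^[i] u) (s^[i+1] u) := by
    intro i
    obtain ⟨y, hy⟩ := hz i
    rw [Function.iterate_succ_apply', hs _ _ hy]
    exact hy
  have hreach : ∀ c, Relation.ReflTransGen (fun x y => T.F a x y) u c → ∃ k, s^[k] u = c := by
    intro c hc
    induction hc with
    | refl => exact ⟨0, rfl⟩
    | tail _ hxy ih =>
      obtain ⟨k, hk⟩ := ih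
      refine ⟨k+1, ?_⟩
      rw [Function.iterate_succ_apply', hk]
      exact hs _ _ hxy
  have hper : ∃ d, 0 < d ∧ s^[d] u = u := by
    obtain ⟨p, hp⟩ := pred_ex T h
    obtain ⟨k, hk⟩ := hreach p (T.link a u v p u h hp)
    refine ⟨k+1, Nat.succ_pos _, ?_⟩
    rw [Function.iterate_succ_apply', hk]
    exact hs _ _ hp
  have hd := Nat.find_spec hper
  have hdmin := fun m (hm : m < Nat.find hper) => Nat.find_min hper hm
  set d := Nat.find hper with hdd
  have hback : ∀ k i, s^[i] u = s^[i+k] u → s^[k] u = u := by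
    intro k i
    induction i with
    | zero => intro e; rw [Nat.zero_add] at e; exact e.symm
    | succ i ih =>
      intro e
      apply ih
      have e1 := hF i
      have e2 := hF (i+k)
      rw [e] at e1
      have e3 : i + 1 + k = i + k + 1 := by ring
      rw [e3] at e1
      exact pred_uniq T e1 e2
  have hmod : ∀ k, s^[k % d] u = s^[k] u := by
    intro k
    induction k using Nat.strong_induction_on with
    | _ k ih =>
      by_cases hk : k < d
      · rw [Nat.mod_eq_of_lt hk]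
      · have h1 : k = (k - d) + d := by omega
        have h2 : s^[k] u = s^[k-d] u := by
          conv_lhs => rw [h1]
          rw [Function.iterate_add_apply, hd.2]
        rw [h2, ← ih (k-d) (by omega)]
        have h3 : k % d = (k - d) % d := by
          conv_lhs => rw [h1]
          exact Nat.add_mod_right _ _
        rw [h3]
  refine ⟨fun i => s^[i] u, d, hd.1, rfl, hF, hd.2, ?_, ?_⟩
  · intro i j hi hj hij
    simp only at hij
    by_contra hne
    rcases lt_or_gt_of_ne hne with hlt | hlt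
    · have e : j = i + (j - i) := by omega
      rw [e] at hij
      exact hdmin (j - i) (by omega) ⟨by omega, hback _ _ hij⟩
    · have e : i = j + (i - j) := by omega
      have hij' := hij.symm
      rw [e] at hij'
      exact hdmin (i - j) (by omega) ⟨by omega, hback _ _ hij'⟩
  · intro c c' hc
    obtain ⟨k, hk⟩ := hreach c (T.link a u v c c' h hc)
    exact ⟨k % d, Nat.mod_lt _ hd.1, by simp only; rw [hmod, hk]⟩

theorem ivt (P : ℕ → Prop) (i j : ℕ) (hij : i ≤ j) (hi : P i) (hj : ¬ P j) :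
    ∃ k, i ≤ k ∧ k < j ∧ P k ∧ ¬ P (k+1) := by
  by_contra hcon
  push Not at hcon
  have : ∀ n, i + n ≤ j → P (i+n) := by
    intro n
    induction n with
    | zero => intro _; exact hi
    | succ n ih =>
      intro hn
      exact hcon (i+n) (by omega) (by omega) (ih (by omega))
  have h1 := this (j - i) (by omega)
  have e : i + (j - i) = j := by omega
  rw [e] at h1
  exact hj h1

theorem last_below (P : ℕ → Prop) (p : ℕ) (h0 : P 0) (hp : ¬ P p) :
    ∃ q, q < p ∧ P q ∧ ∀ i, q < i → i ≤ p → ¬ P i := by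
  induction p with
  | zero => exact absurd h0 hp
  | succ p ih =>
    by_cases hP : P p
    · refine ⟨p, Nat.lt_succ_self p, hP, ?_⟩
      intro i h1 h2
      have : i = p + 1 := by omega
      rw [this]; exact hp
    · obtain ⟨q, hq, hPq, hq2⟩ := ih hP
      refine ⟨q, by omega, hPq, ?_⟩
      intro i h1 h2
      rcases Nat.lt_or_ge p i with h3 | h3
      · have : i = p + 1 := by omega
        rw [this]; exact hp
      · exact hq2 i h1 h3

theorem first_above (P : ℕ → Prop) (p d : ℕ) (hpd : p ≤ d) (hp : ¬ P p) (hd : P d) :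
    ∃ r, p < r ∧ r ≤ d ∧ P r ∧ ∀ i, p ≤ i → i < r → ¬ P i := by
  classical
  have hne : p ≠ d := fun e => hp (by rw [e]; exact hd)
  have hex : ∃ r, p < r ∧ P r := ⟨d, by omega, hd⟩
  have h1 := Nat.find_spec hex
  have h2 := fun m (hm : m < Nat.find hex) => Nat.find_min hex hm
  refine ⟨Nat.find hex, h1.1, Nat.find_min' hex ⟨by omega, hd⟩, h1.2, ?_⟩
  intro i hi hir
  rcases Nat.eq_or_lt_of_le hi with h3 | h3
  · rw [← h3]; exact hp
  · exact fun h4 => h2 i hir ⟨h3, h4⟩

theorem adj12 (T : Tri V) {a x y : V} (h : T.F a x y) : T.G.Adj a x := ⟨y, h⟩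
theorem adj23 (T : Tri V) {a x y : V} (h : T.F a x y) : T.G.Adj x y := ⟨a, T.rot _ _ _ h⟩

theorem lev [Finite V] {T : Tri V} {h : V → ℝ} {b t : V} (C : Ctx T h b t) {a x y : V}
    (ha : ¬ Flat T h a) (hF : T.F a x y) (hx : h x = h a) (hy : h y = h a) : False := by
  have hax : a ≠ x := T.ne _ _ _ hF
  have hab : a ≠ b := by
    intro e
    have := C.hb x (fun e2 => hax (by rw [e, e2]))
    rw [e] at hx; linarith
  have hat : a ≠ t := by
    intro e
    have := C.ht x (fun e2 => hax (by rw [e, e2]))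
    rw [e] at hx; linarith
  rcases C.hact a hab hat with ⟨⟨l, ⟨l2, hl⟩, hll⟩, ⟨g, ⟨g2, hg⟩, hgg⟩⟩ | hfl
  swap
  · exact ha hfl
  obtain ⟨z, d, hd, hz0, hzF, hzd, hzi, hzc⟩ := enum T hl
  obtain ⟨p, hpd, hpx⟩ := hzc x y hF
  have hpy : z (p+1) = y := by
    have h1 := hzF p
    rw [hpx] at h1
    exact T.uniq _ _ _ _ h1 hF
  obtain ⟨q, hqp, hq, hqlev⟩ := last_below (fun i => h (z i) ≠ h a) p
    (by rw [hz0]; exact ne_of_lt hll) (by rw [hpx]; exact fun h1 => h1 hx)
  obtain ⟨r, hpr, hrd, hr, hrlev⟩ := first_above (fun i => h (z i) ≠ h a) (p+1) d (by omega)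
    (by rw [hpy]; exact fun h1 => h1 hy) (by rw [hzd]; exact ne_of_lt hll)
  obtain ⟨m, rfl⟩ : ∃ m, r = m + 1 := ⟨r - 1, by omega⟩
  have hlev : ∀ i, q < i → i < m + 1 → h (z i) = h a := by
    intro i h1 h2
    by_contra hne
    rcases Nat.lt_or_ge p i with h3 | h3
    · exact hrlev i (by omega) h2 hne
    · exact hqlev i h1 h3 hne

  have hlevq := hlev (q+1) (by omega) (by omega)
  have hlevm := hlev m (by omega) (by omega)
  have hnfq : ¬ Flat T h (z (q+1)) := by
    intro hf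
    exact hq ((hf _ (adj23 T (hzF q)).symm).trans hlevq)
  have hnfm : ¬ Flat T h (z m) := by
    intro hf
    exact hr ((hf _ (adj23 T (hzF m))).trans hlevm)
  have hza : ∀ i, z i ≠ a := fun i => (T.ne _ _ _ (hzF i)).symm
  have hzqm : z (q+1) ≠ z m := by
    intro e
    have := hzi _ _ (by omega) (by omega) e
    omega
  rcases lt_or_gt_of_ne hq with hq1 | hq1 <;> rcases lt_or_gt_of_ne hr with hr1 | hr1
  · -- (-,-)
    obtain ⟨h', hinj, hlo, hup, hlo', hup', c1, c2⟩ := tool C a ha ∅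
    have hne : ∀ i, h' (z i) ≠ h' a := fun i e => hza i (hinj e)
    have e1 := hlo _ (adj12 T (hzF q)) hq1
    have e2 := hup' _ (hza (q+1)) hnfq hlevq (Set.notMem_empty _)
    obtain ⟨j, hjd, hjg⟩ := hzc g g2 hg
    have e3 := hup _ (adj12 T (hzF j)) (by rw [hjg]; exact hgg)
    have hjq : j ≠ q := by
      intro e
      rw [← e, hjg] at hq1
      linarith
    rcases lt_or_gt_of_ne hjq with hj | hj
    · have e4 := hlo _ (adj12 T (hzF 0)) (by rw [hz0]; exact hll)
      obtain ⟨k, hk1, hk2, hk3, hk4⟩ := ivt (fun i => h' (z i) < h' a) 0 j (Nat.zero_le _) e4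
        (fun h1 => by linarith)
      have e5 : h' a < h' (z (k+1)) := lt_of_le_of_ne (not_lt.mp hk4) (hne _).symm
      have := hzi _ _ (by omega) (by omega) (c1 _ _ _ _ _ (hzF k) hk3 e5 (hzF q) e1 e2)
      omega
    · have hjm : m + 1 ≤ j := by
        by_contra hcon
        have := hlev j hj (by omega)
        rw [hjg] at this
        linarith
      have e4 := hlo _ (adj12 T (hzF (m+1))) hr1
      obtain ⟨k, hk1, hk2, hk3, hk4⟩ := ivt (fun i => h' (z i) < h' a) (m+1) j hjm e4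
        (fun h1 => by linarith)
      have e5 : h' a < h' (z (k+1)) := lt_of_le_of_ne (not_lt.mp hk4) (hne _).symm
      have := hzi _ _ (by omega) (by omega) (c1 _ _ _ _ _ (hzF k) hk3 e5 (hzF q) e1 e2)
      omega
  · -- (-,+)
    obtain ⟨h', hinj, hlo, hup, hlo', hup', c1, c2⟩ := tool C a ha {z m}
    have e1 := hlo _ (adj12 T (hzF q)) hq1
    have e2 := hup' _ (hza (q+1)) hnfq hlevq hzqm
    have e3 := hlo' _ (hza m) hnfm hlevm rfl
    have e4 := hup _ (adj12 T (hzF (m+1))) hr1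
    have := hzi _ _ (by omega) (by omega) (c1 _ _ _ _ _ (hzF q) e1 e2 (hzF m) e3 e4)
    omega
  · -- (+,-)
    obtain ⟨h', hinj, hlo, hup, hlo', hup', c1, c2⟩ := tool C a ha {z (q+1)}
    have e1 := hup _ (adj12 T (hzF q)) hq1
    have e2 := hlo' _ (hza (q+1)) hnfq hlevq rfl
    have e3 := hup' _ (hza m) hnfm hlevm hzqm.symm
    have e4 := hlo _ (adj12 T (hzF (m+1))) hr1
    have := hzi _ _ (by omega) (by omega) (c2 _ _ _ _ _ (hzF q) e1 e2 (hzF m) e3 e4)
    omega
  · -- (+,+)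
    obtain ⟨h', hinj, hlo, hup, hlo', hup', c1, c2⟩ := tool C a ha Set.univ
    have hne : ∀ i, h' (z i) ≠ h' a := fun i e => hza i (hinj e)
    have e1 := hup _ (adj12 T (hzF q)) hq1
    have e2 := hlo' _ (hza (q+1)) hnfq hlevq (Set.mem_univ _)
    have e3 := hup _ (adj12 T (hzF (m+1))) hr1
    have e4 := hlo _ (adj12 T (hzF d)) (by rw [hzd]; exact hll)
    obtain ⟨k, hk1, hk2, hk3, hk4⟩ := ivt (fun i => h' a < h' (z i)) (m+1) d hrd e3
      (fun h1 => by linarith)
    have e5 : h' (z (k+1)) < h' a := lt_of_le_of_ne (not_lt.mp hk4) (hne _)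
    have := hzi _ _ (by omega) (by omega) (c2 _ _ _ _ _ (hzF k) hk3 e5 (hzF q) e1 e2)
    omega

theorem noflat [Finite V] {T : Tri V} {h : V → ℝ} {b t : V} (C : Ctx T h b t) (u : V) :
    ¬ Flat T h u := by
  intro hu
  have key : ∀ w, Relation.ReflTransGen (fun x y => ∃ z, T.F x y z) u w →
      Flat T h w ∨ (∃ x y z, T.F x y z ∧ Flat T h x ∧ ¬ Flat T h y) := by
    intro w hw
    induction hw with
    | refl => exact Or.inl hu
    | tail _ hxy ih =>
      rename_i w1 w2 _
      rcases ih with h1 | h1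
      · by_cases h2 : Flat T h w2
        · exact Or.inl h2
        · obtain ⟨z, hz⟩ := hxy
          exact Or.inr ⟨w1, w2, z, hz, h1, h2⟩
      · exact Or.inr h1
  rcases key b (T.conn u b) with h1 | ⟨x, y, z, hF, hx, hy⟩
  · exact nfb C h1
  · obtain ⟨w, hw⟩ := T.opp _ _ _ hF
    have e1 : h w = h x := hx w (adj23 T hw)
    have e2 : h y = h x := hx y (adj12 T hF)
    exact lev C hy hw e2.symm (e1.trans e2.symm)

theorem edge [Finite V] {T : Tri V} {h : V → ℝ} {b t : V} (C : Ctx T h b t) {a c x y : V}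
    (h1 : T.F c x a) (h2 : T.F c a y) (he : h a = h c) :
    ¬ (h c < h x ∧ h c < h y) ∧ ¬ (h x < h c ∧ h y < h c) := by
  have hca : c ≠ a := T.ne _ _ _ h2
  have hcb : c ≠ b := by
    intro e
    have := C.hb a (fun e2 => hca (by rw [e, e2]))
    rw [e] at he; linarith
  have hct : c ≠ t := by
    intro e
    have := C.ht a (fun e2 => hca (by rw [e, e2]))
    rw [e] at he; linarith
  have hnc := noflat C c
  have hna := noflat C a
  rcases C.hact c hcb hct with ⟨⟨l, ⟨l2, hl⟩, hll⟩, ⟨g, ⟨g2, hg⟩, hgg⟩⟩ | hfl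
  swap
  · exact absurd hfl hnc
  constructor
  · rintro ⟨hx, hy⟩
    obtain ⟨z, d, hd, hz0, hzF, hzd, hzi, hzc⟩ := enum T hl
    have hza : ∀ i, z i ≠ c := fun i => (T.ne _ _ _ (hzF i)).symm
    obtain ⟨p, hpd, hpx⟩ := hzc x a h1
    have hpa : z (p+1) = a := by
      have h3 := hzF p
      rw [hpx] at h3
      exact T.uniq _ _ _ _ h3 h1
    have hpy : z (p+2) = y := by
      have h3 := hzF (p+1)
      rw [hpa] at h3
      exact T.uniq _ _ _ _ h3 h2
    have hp1 : p + 1 ≠ d := by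
      intro e
      rw [e, hzd] at hpa
      rw [hpa] at hll; linarith
    have hp2 : p + 2 ≤ d := by omega
    obtain ⟨h', hinj, hlo, hup, hlo', hup', c1, c2⟩ := tool C c hnc {a}
    have hne : ∀ i, h' (z i) ≠ h' c := fun i e => hza i (hinj e)
    have e1 := hup _ (adj12 T h1) hx
    have e2 := hlo' _ hca.symm hna he rfl
    have e3 := hup _ (adj12 T (hzF (p+2))) (by rw [hpy]; exact hy)
    have e4 := hlo _ (adj12 T (hzF d)) (by rw [hzd]; exact hll)
    obtain ⟨k, hk1, hk2, hk3, hk4⟩ := ivt (fun i => h' c < h' (z i)) (p+2) d hp2 e3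
      (fun h1 => by linarith)
    have e5 : h' (z (k+1)) < h' c := lt_of_le_of_ne (not_lt.mp hk4) (hne _)
    have h6 := c2 _ _ _ _ _ (hzF k) hk3 e5 h1 e1 e2
    rw [← hpx] at h6
    have := hzi _ _ (by omega) (by omega) h6
    omega
  · rintro ⟨hx, hy⟩
    obtain ⟨z, d, hd, hz0, hzF, hzd, hzi, hzc⟩ := enum T hg
    have hza : ∀ i, z i ≠ c := fun i => (T.ne _ _ _ (hzF i)).symm
    obtain ⟨p, hpd, hpx⟩ := hzc x a h1
    have hpa : z (p+1) = a := by
      have h3 := hzF p
      rw [hpx] at h3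
      exact T.uniq _ _ _ _ h3 h1
    have hpy : z (p+2) = y := by
      have h3 := hzF (p+1)
      rw [hpa] at h3
      exact T.uniq _ _ _ _ h3 h2
    have hp1 : p + 1 ≠ d := by
      intro e
      rw [e, hzd] at hpa
      rw [hpa] at hgg; linarith
    have hp2 : p + 2 ≤ d := by omega
    obtain ⟨h', hinj, hlo, hup, hlo', hup', c1, c2⟩ := tool C c hnc ∅
    have hne : ∀ i, h' (z i) ≠ h' c := fun i e => hza i (hinj e)
    have e1 := hlo _ (adj12 T h1) hx
    have e2 := hup' _ hca.symm hna he (Set.notMem_empty _)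
    have e3 := hlo _ (adj12 T (hzF (p+2))) (by rw [hpy]; exact hy)
    have e4 := hup _ (adj12 T (hzF d)) (by rw [hzd]; exact hgg)
    obtain ⟨k, hk1, hk2, hk3, hk4⟩ := ivt (fun i => h' (z i) < h' c) (p+2) d hp2 e3
      (fun h1 => by linarith)
    have e5 : h' c < h' (z (k+1)) := lt_of_le_of_ne (not_lt.mp hk4) (hne _).symm
    have h6 := c1 _ _ _ _ _ (hzF k) hk3 e5 h1 e1 e2
    rw [← hpx] at h6
    have := hzi _ _ (by omega) (by omega) h6
    omega

end W_NF

open W_NF in
theorem NF {V : Type} [Finite V] (T : Tri V) (h : V → ℝ) (b t : V)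
    (hb : ∀ v, v ≠ b → h b < h v) (ht : ∀ v, v ≠ t → h v < h t)
    (hact : ∀ v, v ≠ b → v ≠ t → ((∃ u, T.G.Adj v u ∧ h u < h v) ∧ (∃ u, T.G.Adj v u ∧ h v < h u)) ∨
      (∀ u, T.G.Adj v u → h u = h v)) :
    (∀ v, v ≠ b → v ≠ t → (∃ u, T.G.Adj v u ∧ h u < h v) ∧ (∃ u, T.G.Adj v u ∧ h v < h u)) ∧
    (∀ x y z, T.F x y z → ¬ (h x = h y ∧ h y = h z)) ∧
    (∀ a c x y, T.F a c x → T.F c a y → h a = h c → (h a < h x ∧ h y < h a) ∨ (h x < h a ∧ h a < h y)) ∧
    (∀ v x y x' y', T.F v x y → h x ≤ h v → h v < h y → T.F v x' y' → h x' ≤ h v → h v < h y' → x = x') ∧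
    (∀ v x y x' y', T.F v x y → h v < h x → h y ≤ h v → T.F v x' y' → h v < h x' → h y' ≤ h v → x = x') ∧
    (∀ v x y x' y', T.F v x y → h v ≤ h x → h y < h v → T.F v x' y' → h v ≤ h x' → h y' < h v → x = x') ∧
    (∀ v x y x' y', T.F v x y → h x < h v → h v ≤ h y → T.F v x' y' → h x' < h v → h v ≤ h y' → x = x') := by
  have C : Ctx T h b t := ⟨hb, ht, hact⟩
  have hnf := noflat C
  have hmono : ∀ x y z, T.F x y z → ¬ (h x = h y ∧ h y = h z) := by
    rintro x y z hF ⟨e1, e2⟩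
    exact lev C (hnf x) hF e1.symm (e1.trans e2).symm
  have hlow : ∀ v, ∃ h' : V → ℝ, (∀ u, T.G.Adj v u → h u ≤ h v → h' u < h' v) ∧
      (∀ u, T.G.Adj v u → h v < h u → h' v < h' u) ∧
      (∀ v x y x' y', T.F v x y → h' x < h' v → h' v < h' y → T.F v x' y' → h' x' < h' v →
        h' v < h' y' → x = x') ∧
      (∀ v x y x' y', T.F v x y → h' v < h' x → h' y < h' v → T.F v x' y' → h' v < h' x' →
        h' y' < h' v → x = x') := by
    intro v
    obtain ⟨h', hinj, hlo, hup, hlo', hup', c1, c2⟩ := tool C v (hnf v) Set.univ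
    refine ⟨h', ?_, hup, c1, c2⟩
    intro u hu hle
    rcases hle.lt_or_eq with h1 | h1
    · exact hlo u hu h1
    · exact hlo' u (adj_ne T hu).symm (hnf u) h1 (Set.mem_univ _)
  have hupp : ∀ v, ∃ h' : V → ℝ, (∀ u, T.G.Adj v u → h u < h v → h' u < h' v) ∧
      (∀ u, T.G.Adj v u → h v ≤ h u → h' v < h' u) ∧
      (∀ v x y x' y', T.F v x y → h' x < h' v → h' v < h' y → T.F v x' y' → h' x' < h' v →
        h' v < h' y' → x = x') ∧
      (∀ v x y x' y', T.F v x y → h' v < h' x → h' y < h' v → T.F v x' y' → h' v < h' x' →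
        h' y' < h' v → x = x') := by
    intro v
    obtain ⟨h', hinj, hlo, hup, hlo', hup', c1, c2⟩ := tool C v (hnf v) ∅
    refine ⟨h', hlo, ?_, c1, c2⟩
    intro u hu hle
    rcases hle.lt_or_eq with h1 | h1
    · exact hup u hu h1
    · exact hup' u (adj_ne T hu).symm (hnf u) h1.symm (Set.notMem_empty _)
  have adj13 : ∀ {a x y : V}, T.F a x y → T.G.Adj a y := fun h1 => (adj12 T (T.rot _ _ _ (T.rot _ _ _ h1))).symm
  refine ⟨?_, hmono, ?_, ?_, ?_, ?_, ?_⟩
  · intro v h1 h2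
    rcases hact v h1 h2 with h3 | h3
    · exact h3
    · exact absurd h3 (hnf v)
  · intro a c x y h1 h2 he
    obtain ⟨g1, g2⟩ := edge C (T.rot _ _ _ h1) h2 he
    have n1 : h x ≠ h a := fun e => hmono _ _ _ h1 ⟨he, he.symm.trans e.symm⟩
    have n2 : h y ≠ h a := fun e => hmono _ _ _ h2 ⟨he.symm, e.symm⟩
    rw [← he] at g1 g2
    rcases lt_or_gt_of_ne n1 with m1 | m1 <;> rcases lt_or_gt_of_ne n2 with m2 | m2
    · exact absurd ⟨m1, m2⟩ g2
    · exact Or.inr ⟨m1, m2⟩
    · exact Or.inl ⟨m1, m2⟩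
    · exact absurd ⟨m1, m2⟩ g1
  · intro v x y x' y' h1 h2 h3 h1' h2' h3'
    obtain ⟨h', hlo, hup, c1, c2⟩ := hlow v
    exact c1 _ _ _ _ _ h1 (hlo _ (adj12 T h1) h2) (hup _ (adj13 h1) h3) h1'
      (hlo _ (adj12 T h1') h2') (hup _ (adj13 h1') h3')
  · intro v x y x' y' h1 h2 h3 h1' h2' h3'
    obtain ⟨h', hlo, hup, c1, c2⟩ := hlow v
    exact c2 _ _ _ _ _ h1 (hup _ (adj12 T h1) h2) (hlo _ (adj13 h1) h3) h1'
      (hup _ (adj12 T h1') h2') (hlo _ (adj13 h1') h3')
  · intro v x y x' y' h1 h2 h3 h1' h2' h3'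
    obtain ⟨h', hlo, hup, c1, c2⟩ := hupp v
    exact c2 _ _ _ _ _ h1 (hup _ (adj12 T h1) h2) (hlo _ (adj13 h1) h3) h1'
      (hup _ (adj12 T h1') h2') (hlo _ (adj13 h1') h3')
  · intro v x y x' y' h1 h2 h3 h1' h2' h3'
    obtain ⟨h', hlo, hup, c1, c2⟩ := hupp v
    exact c1 _ _ _ _ _ h1 (hlo _ (adj12 T h1) h2) (hup _ (adj13 h1) h3) h1'
      (hlo _ (adj12 T h1') h2') (hup _ (adj13 h1') h3')


end Pool.Agent.H891WLC
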