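import Pool.Agent.H891WLC.Defs
import Pool.Agent.H891WLC.tri_conn3
import Pool.Agent.H891WLC.NF
import Pool.Agent.H891WLC.DRAWN_BAL

set_option autoImplicit false

namespace Pool.Agent.H891WLC

namespace W_ARC

end W_ARC

open W_ARC in
theorem ARC {V : Type} [Finite V] (T : Tri V) (o₁ o₂ o₃ : V) (p : V → ℝ × ℝ) (hd : Drawn T o₁ o₂ o₃ p) (v : V)
    (h1 : v ≠ o₁) (h2 : v ≠ o₂) (h3 : v ≠ o₃) (α β : ℝ) (hαβ : α ≠ 0 ∨ β ≠ 0) (f : V → ℝ)
    (hf : ∀ u, f u = α * ((p u).1 - (p v).1) + β * ((p u).2 - (p v).2)) :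
    (∀ x y x' y', T.F v x y → f x ≤ 0 → 0 < f y → T.F v x' y' → f x' ≤ 0 → 0 < f y' → x = x') ∧
    (∀ x y x' y', T.F v x y → 0 < f x → f y ≤ 0 → T.F v x' y' → 0 < f x' → f y' ≤ 0 → x = x') ∧
    (∀ x y x' y', T.F v x y → 0 ≤ f x → f y < 0 → T.F v x' y' → 0 ≤ f x' → f y' < 0 → x = x') ∧
    (∀ x y x' y', T.F v x y → f x < 0 → 0 ≤ f y → T.F v x' y' → f x' < 0 → 0 ≤ f y' → x = x') := by
  classical
  obtain ⟨h, hh⟩ : ∃ h : V → ℝ, ∀ u, h u = α * (p u).1 + β * (p u).2 := ⟨_, fun _ => rfl⟩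
  have hfu : ∀ u, f u = h u - h v := by
    intro u; rw [hf, hh, hh]; ring
  have hup : ∀ w, w ≠ o₁ → w ≠ o₂ → w ≠ o₃ → ∃ u, T.G.Adj w u ∧ h w < h u := by
    intro w w1 w2 w3
    obtain ⟨u, hu, hlt⟩ := DRAWN_BAL T o₁ o₂ o₃ p hd w w1 w2 w3 α β hαβ
    refine ⟨u, hu, ?_⟩
    rw [hh, hh]
    linarith
  have hdn : ∀ w, w ≠ o₁ → w ≠ o₂ → w ≠ o₃ → ∃ u, T.G.Adj w u ∧ h u < h w := by
    intro w w1 w2 w3
    obtain ⟨u, hu, hlt⟩ := DRAWN_BAL T o₁ o₂ o₃ p hd w w1 w2 w3 (-α) (-β) (by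
      rcases hαβ with h | h
      · exact Or.inl (neg_ne_zero.mpr h)
      · exact Or.inr (neg_ne_zero.mpr h))
    refine ⟨u, hu, ?_⟩
    rw [hh, hh]
    linarith
  haveI : Nonempty V := ⟨v⟩
  obtain ⟨t, ht⟩ := Finite.exists_max h
  obtain ⟨b, hb⟩ := Finite.exists_min h
  have hto : t = o₁ ∨ t = o₂ ∨ t = o₃ := by
    by_contra hcon
    push Not at hcon
    obtain ⟨u, _, hu⟩ := hup t hcon.1 hcon.2.1 hcon.2.2
    exact absurd (ht u) (not_le.mpr hu)
  have hbo : b = o₁ ∨ b = o₂ ∨ b = o₃ := by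
    by_contra hcon
    push Not at hcon
    obtain ⟨u, _, hu⟩ := hdn b hcon.1 hcon.2.1 hcon.2.2
    exact absurd (hb u) (not_le.mpr hu)
  have hvt : h v < h t := by
    obtain ⟨u, _, hu⟩ := hup v h1 h2 h3
    exact hu.trans_le (ht u)
  have hbv : h b < h v := by
    obtain ⟨u, _, hu⟩ := hdn v h1 h2 h3
    exact (hb u).trans_lt hu
  have htb : b ≠ t := by
    rintro rfl
    exact lt_irrefl _ (hbv.trans hvt)
  have hadj : ∀ x y, (x = o₁ ∨ x = o₂ ∨ x = o₃) → (y = o₁ ∨ y = o₂ ∨ y = o₃) → x ≠ y →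
      T.G.Adj x y := by
    have f1 := hd.1
    have f2 := T.rot _ _ _ f1
    have f3 := T.rot _ _ _ f2
    have a12 : T.G.Adj o₁ o₂ := ⟨_, f1⟩
    have a23 : T.G.Adj o₂ o₃ := ⟨_, f2⟩
    have a31 : T.G.Adj o₃ o₁ := ⟨_, f3⟩
    rintro x y (rfl | rfl | rfl) (rfl | rfl | rfl) hxy
    · exact absurd rfl hxy
    · exact a12
    · exact a31.symm
    · exact a12.symm
    · exact absurd rfl hxy
    · exact a23
    · exact a31
    · exact a23.symm
    · exact absurd rfl hxy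
  obtain ⟨h', hh'⟩ : ∃ h' : V → ℝ, ∀ u, h' u = if u = t then h t + 1 else if u = b then h b - 1 else h u :=
    ⟨_, fun _ => rfl⟩
  have ht' : h' t = h t + 1 := by rw [hh', if_pos rfl]
  have hb' : h' b = h b - 1 := by rw [hh', if_neg htb, if_pos rfl]
  have ho' : ∀ u, u ≠ b → u ≠ t → h' u = h u := by
    intro u hub hut
    rw [hh', if_neg hut, if_neg hub]
  have hge : ∀ u, u ≠ b → h u ≤ h' u := by
    intro u hub
    by_cases hut : u = t
    · rw [hut, ht']; linarith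
    · rw [ho' u hub hut]
  have hle : ∀ u, u ≠ t → h' u ≤ h u := by
    intro u hut
    by_cases hub : u = b
    · rw [hub, hb']; linarith
    · rw [ho' u hub hut]
  have hvb : v ≠ b := by
    rintro rfl
    exact lt_irrefl _ hbv
  have hvt' : v ≠ t := by
    rintro rfl
    exact lt_irrefl _ hvt
  have hv' : h' v = h v := ho' v hvb hvt'
  obtain ⟨_, _, _, n4, n5, n6, n7⟩ := NF T h' b t
    (by
      intro w hw
      rw [hb']
      have := hge w hw
      have := hb w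
      linarith)
    (by
      intro w hw
      rw [ht']
      have := hle w hw
      have := ht w
      linarith)
    (by
      intro w hwb hwt
      left
      rw [ho' w hwb hwt]
      by_cases hwo : w = o₁ ∨ w = o₂ ∨ w = o₃
      · refine ⟨⟨b, hadj w b hwo hbo hwb, ?_⟩, ⟨t, hadj w t hwo hto hwt, ?_⟩⟩
        · rw [hb']
          have := hb w
          linarith
        · rw [ht']
          have := ht w
          linarith
      · push Not at hwo
        obtain ⟨u, hu, hul⟩ := hdn w hwo.1 hwo.2.1 hwo.2.2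
        obtain ⟨u', hu', hul'⟩ := hup w hwo.1 hwo.2.1 hwo.2.2
        refine ⟨⟨u, hu, ?_⟩, ⟨u', hu', ?_⟩⟩
        · have hut : u ≠ t := by
            rintro rfl
            exact absurd (ht w) (not_le.mpr hul)
          exact (hle u hut).trans_lt hul
        · have hub : u' ≠ b := by
            rintro rfl
            exact absurd (hb w) (not_le.mpr hul')
          exact hul'.trans_le (hge u' hub))
  have s1 : ∀ u, f u ≤ 0 → h' u ≤ h' v := by
    intro u hu
    rw [hfu] at hu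
    rw [hv']
    have hut : u ≠ t := by
      rintro rfl
      linarith
    exact (hle u hut).trans (by linarith)
  have s2 : ∀ u, f u < 0 → h' u < h' v := by
    intro u hu
    rw [hfu] at hu
    rw [hv']
    have hut : u ≠ t := by
      rintro rfl
      linarith
    exact (hle u hut).trans_lt (by linarith)
  have s3 : ∀ u, 0 ≤ f u → h' v ≤ h' u := by
    intro u hu
    rw [hfu] at hu
    rw [hv']
    have hub : u ≠ b := by
      rintro rfl
      linarith
    exact le_trans (by linarith) (hge u hub)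
  have s4 : ∀ u, 0 < f u → h' v < h' u := by
    intro u hu
    rw [hfu] at hu
    rw [hv']
    have hub : u ≠ b := by
      rintro rfl
      linarith
    exact lt_of_lt_of_le (by linarith) (hge u hub)
  refine ⟨?_, ?_, ?_, ?_⟩
  · intro x y x' y' hF a1 a2 hF' a3 a4
    exact n4 v x y x' y' hF (s1 x a1) (s4 y a2) hF' (s1 x' a3) (s4 y' a4)
  · intro x y x' y' hF a1 a2 hF' a3 a4
    exact n5 v x y x' y' hF (s4 x a1) (s1 y a2) hF' (s4 x' a3) (s1 y' a4)
  · intro x y x' y' hF a1 a2 hF' a3 a4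
    exact n6 v x y x' y' hF (s3 x a1) (s2 y a2) hF' (s3 x' a3) (s2 y' a4)
  · intro x y x' y' hF a1 a2 hF' a3 a4
    exact n7 v x y x' y' hF (s2 x a1) (s3 y a2) hF' (s2 x' a3) (s3 y' a4)


end Pool.Agent.H891WLC
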