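import Pool.Agent.H891WLC.Defs
import Pool.Agent.H891WLC.CLUS_ADJ

set_option autoImplicit false

namespace Pool.Agent.H891WLC

namespace W_CLUS_CONN

end W_CLUS_CONN

open W_CLUS_CONN in
theorem CLUS_CONN {V₀ V : Type} [Finite V₀] [Finite V] (T₀ : Tri V₀) (T : Tri V) (κ : V₀ → V) (hc : Clus T₀ T κ) (A : Set V) :
    Conn T.G A ↔ Conn T₀.G (κ ⁻¹' A) := by
  have fib : ∀ x y : V₀, κ x = κ y → κ x ∈ A →
      Relation.ReflTransGen (fun x y => T₀.G.Adj x y ∧ y ∈ κ ⁻¹' A) x y := by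
    intro x y hxy hx
    have h1 := (hc.1 (κ x)).2 x rfl y hxy.symm
    refine Relation.ReflTransGen.mono ?_ _ _ h1
    rintro p q ⟨hpq, hq⟩
    have hq' : κ q = κ x := hq
    exact ⟨hpq, by show κ q ∈ A; rw [hq']; exact hx⟩
  constructor
  · rintro ⟨⟨a, ha⟩, hconn⟩
    refine ⟨?_, ?_⟩
    · obtain ⟨a₀, ha₀⟩ := (hc.1 a).1
      have ha₁ : κ a₀ = a := ha₀
      exact ⟨a₀, by show κ a₀ ∈ A; rw [ha₁]; exact ha⟩
    · intro u hu v hv
      have key : ∀ b : V, Relation.ReflTransGen (fun x y => T.G.Adj x y ∧ y ∈ A) (κ u) b →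
          b ∈ A ∧ ∀ y, κ y = b →
            Relation.ReflTransGen (fun x y => T₀.G.Adj x y ∧ y ∈ κ ⁻¹' A) u y := by
        intro b hb
        induction hb with
        | refl => exact ⟨hu, fun y hy => fib u y hy.symm hu⟩
        | tail hac hcb ih =>
          rename_i c b
          obtain ⟨hadj, hbA⟩ := hcb
          refine ⟨hbA, ?_⟩
          intro y hy
          obtain ⟨-, c₀, b₀, hc₀, hb₀, h0⟩ := (CLUS_ADJ T₀ T κ hc c b).mp hadj
          have h1 := ih.2 c₀ hc₀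
          have h2 : b₀ ∈ κ ⁻¹' A := by show κ b₀ ∈ A; rw [hb₀]; exact hbA
          exact (h1.tail ⟨h0, h2⟩).trans (fib b₀ y (hb₀.trans hy.symm) h2)
      exact (key (κ v) (hconn (κ u) hu (κ v) hv)).2 v rfl
  · rintro ⟨⟨x, hx⟩, hconn⟩
    refine ⟨⟨κ x, hx⟩, ?_⟩
    intro a ha b hb
    obtain ⟨a₀, ha₀⟩ := (hc.1 a).1
    obtain ⟨b₀, hb₀⟩ := (hc.1 b).1
    have ha₁ : κ a₀ = a := ha₀
    have hb₁ : κ b₀ = b := hb₀
    have h1 := hconn a₀ (by show κ a₀ ∈ A; rw [ha₁]; exact ha) b₀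
      (by show κ b₀ ∈ A; rw [hb₁]; exact hb)
    rw [← ha₁, ← hb₁]
    clear ha₀ hb₀ ha₁ hb₁
    induction h1 with
    | refl => exact Relation.ReflTransGen.refl
    | tail hac hcb ih =>
      rename_i c d
      by_cases hcd : κ c = κ d
      · rw [← hcd]; exact ih
      · exact ih.tail ⟨(CLUS_ADJ T₀ T κ hc (κ c) (κ d)).mpr ⟨hcd, c, d, rfl, rfl, hcb.1⟩, hcb.2⟩


end Pool.Agent.H891WLC
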