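import Pool.Agent.H891WLC.Defs
import Pool.Agent.H891WLC.CLUS_ADJ
import Pool.Agent.H891WLC.CLUS_CONN

set_option autoImplicit false

namespace Pool.Agent.H891WLC

namespace W_COMPOSE

theorem mem_of_rtg {V : Type} {G : SimpleGraph V} {B : Set V} {x y : V} (hx : x ∈ B)
    (h : Relation.ReflTransGen (fun x y => G.Adj x y ∧ y ∈ B) x y) : y ∈ B := by
  induction h with
  | refl => exact hx
  | tail _ h _ => exact h.2

theorem symm_rtg {V : Type} {G : SimpleGraph V} {B : Set V} {x y : V} (hx : x ∈ B)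
    (h : Relation.ReflTransGen (fun x y => G.Adj x y ∧ y ∈ B) x y) :
    Relation.ReflTransGen (fun x y => G.Adj x y ∧ y ∈ B) y x := by
  induction h with
  | refl => exact Relation.ReflTransGen.refl
  | tail h1 h2 ih =>
    exact Relation.ReflTransGen.head ⟨h2.1.symm, mem_of_rtg hx h1⟩ ih

theorem mono_rtg {V : Type} {G : SimpleGraph V} {B C : Set V} (hBC : B ⊆ C) {x y : V}
    (h : Relation.ReflTransGen (fun x y => G.Adj x y ∧ y ∈ B) x y) :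
    Relation.ReflTransGen (fun x y => G.Adj x y ∧ y ∈ C) x y := by
  induction h with
  | refl => exact Relation.ReflTransGen.refl
  | tail _ h2 ih => exact ih.tail ⟨h2.1, hBC h2.2⟩

theorem conn_grow {V ι : Type} {G : SimpleGraph V} {A S : Set V} {β : V → ι} (K : ι → ℕ)
    (P : ι → Prop) (hS : Conn G S)
    (hB : ∀ j, P j → (∃ v ∈ A, β v = j) → Conn G {v | v ∈ A ∧ β v = j})
    (hadj : ∀ j, P j → (∃ v ∈ A, β v = j) →
      AdjS G {v | v ∈ A ∧ β v = j} (S ∪ {v | v ∈ A ∧ P (β v) ∧ K (β v) < K j})) :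
    Conn G (S ∪ {v | v ∈ A ∧ P (β v)}) := by
  obtain ⟨s0, hs0⟩ := hS.1
  have hSsub : S ⊆ S ∪ {v | v ∈ A ∧ P (β v)} := fun x hx => Or.inl hx
  have key : ∀ n : ℕ, ∀ v, v ∈ A → P (β v) → K (β v) = n →
      Relation.ReflTransGen (fun x y => G.Adj x y ∧ y ∈ S ∪ {v | v ∈ A ∧ P (β v)}) v s0 := by
    intro n
    induction n using Nat.strong_induction_on with
    | _ n ih =>
      intro v hv hP hK
      obtain ⟨a, ha, b, hb, hab⟩ := hadj (β v) hP ⟨v, hv, rfl⟩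
      have hBsub : {w | w ∈ A ∧ β w = β v} ⊆ S ∪ {v | v ∈ A ∧ P (β v)} := by
        rintro w ⟨hw1, hw2⟩
        right
        refine ⟨hw1, ?_⟩
        rw [hw2]; exact hP
      have h1 := mono_rtg hBsub ((hB (β v) hP ⟨v, hv, rfl⟩).2 v ⟨hv, rfl⟩ a ha)
      rcases hb with hb | ⟨hb1, hb2, hb3⟩
      · exact (h1.tail ⟨hab, Or.inl hb⟩).trans (mono_rtg hSsub (hS.2 b hb s0 hs0))
      · exact (h1.tail ⟨hab, Or.inr ⟨hb1, hb2⟩⟩).trans (ih _ (by omega) b hb1 hb2 rfl)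
  have key2 : ∀ v ∈ S ∪ {v | v ∈ A ∧ P (β v)},
      Relation.ReflTransGen (fun x y => G.Adj x y ∧ y ∈ S ∪ {v | v ∈ A ∧ P (β v)}) v s0 := by
    rintro v (hv | ⟨hv1, hv2⟩)
    · exact mono_rtg hSsub (hS.2 v hv s0 hs0)
    · exact key _ v hv1 hv2 rfl
  refine ⟨⟨s0, hSsub hs0⟩, fun u hu v hv => ?_⟩
  exact (key2 u hu).trans (symm_rtg hv (key2 v hv))

theorem split_block {V ι : Type} {G : SimpleGraph V}
    (A S U : Set V) (hs : Split G A S U) (β : V → ι) (L : ι → ℕ) (N : ℕ)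
    (hconn : ∀ i, (∃ v ∈ A, β v = i) → Conn G {v | v ∈ A ∧ β v = i})
    (hlow : ∀ i, (∃ v ∈ A, β v = i) → AdjS G {v | v ∈ A ∧ β v = i} (S ∪ {v | v ∈ A ∧ L (β v) < L i}))
    (hup : ∀ i, (∃ v ∈ A, β v = i) → AdjS G {v | v ∈ A ∧ β v = i} (U ∪ {v | v ∈ A ∧ L i < L (β v)}))
    (hm : ∀ i, (∃ v ∈ A, β v = i) → L i < N) (i : ι) (hi : ∃ v ∈ A, β v = i) :
    Split G {v | v ∈ A ∧ β v = i} (S ∪ {v | v ∈ A ∧ (β v ≠ i ∧ L (β v) ≤ L i)})
      (U ∪ {v | v ∈ A ∧ L i < L (β v)}) := by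
  obtain ⟨hcov, hAS, hAU, hSU, hcS, hcU, hSUa, hASa, hAUa⟩ := hs
  refine ⟨?_, ?_, ?_, ?_, ?_, ?_, ?_, ?_, ?_⟩
  · intro v
    rcases hcov v with h | h | h
    · by_cases h1 : β v = i
      · exact Or.inl ⟨h, h1⟩
      · right
        rcases le_or_gt (L (β v)) (L i) with h2 | h2
        · exact Or.inl (Or.inr ⟨h, h1, h2⟩)
        · exact Or.inr (Or.inr ⟨h, h2⟩)
    · exact Or.inr (Or.inl (Or.inl h))
    · exact Or.inr (Or.inr (Or.inl h))
  · rw [Set.disjoint_left]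
    rintro v ⟨hv1, hv2⟩ (hv3 | ⟨_, hv4, _⟩)
    · exact Set.disjoint_left.mp hAS hv1 hv3
    · exact hv4 hv2
  · rw [Set.disjoint_left]
    rintro v ⟨hv1, hv2⟩ (hv3 | ⟨_, hv4⟩)
    · exact Set.disjoint_left.mp hAU hv1 hv3
    · rw [hv2] at hv4; exact lt_irrefl _ hv4
  · rw [Set.disjoint_left]
    rintro v (hv1 | ⟨hv1, _, hv2⟩) (hv3 | ⟨hv4, hv5⟩)
    · exact Set.disjoint_left.mp hSU hv1 hv3
    · exact Set.disjoint_left.mp hAS hv4 hv1
    · exact Set.disjoint_left.mp hAU hv1 hv3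
    · omega
  · apply conn_grow L (fun j => j ≠ i ∧ L j ≤ L i) hcS
    · intro j _ hj
      exact hconn j hj
    · rintro j ⟨hj1, hj2⟩ hj3
      obtain ⟨a, ha, b, hb, hab⟩ := hlow j hj3
      refine ⟨a, ha, b, ?_, hab⟩
      rcases hb with hb | ⟨hb1, hb2⟩
      · exact Or.inl hb
      · refine Or.inr ⟨hb1, ⟨?_, by omega⟩, hb2⟩
        intro h
        rw [h] at hb2
        omega
  · apply conn_grow (fun j => N - L j) (fun j => L i < L j) hcU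
    · intro j _ hj
      exact hconn j hj
    · intro j hj1 hj3
      obtain ⟨a, ha, b, hb, hab⟩ := hup j hj3
      refine ⟨a, ha, b, ?_, hab⟩
      rcases hb with hb | ⟨hb1, hb2⟩
      · exact Or.inl hb
      · have hb3 := hm (β b) ⟨b, hb1, rfl⟩
        refine Or.inr ⟨hb1, ?_, ?_⟩
        · exact lt_trans hj1 hb2
        · show N - L (β b) < N - L j
          omega
  · obtain ⟨a, ha, b, hb, hab⟩ := hSUa
    exact ⟨a, Or.inl ha, b, Or.inl hb, hab⟩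
  · obtain ⟨a, ha, b, hb, hab⟩ := hlow i hi
    refine ⟨a, ha, b, ?_, hab⟩
    rcases hb with hb | ⟨hb1, hb2⟩
    · exact Or.inl hb
    · refine Or.inr ⟨hb1, ?_, hb2.le⟩
      intro h
      rw [h] at hb2
      exact lt_irrefl _ hb2
  · exact hup i hi

/-- rank of the value of `g` at `v` in the image of `B` -/
noncomputable def rk {V₀ : Type} (g : V₀ → ℝ) (B : Set V₀) (v : V₀) : ℕ :=
  {y | y ∈ g '' B ∧ y < g v}.ncard

theorem rk_lt {V₀ : Type} [Finite V₀] (g : V₀ → ℝ) (B : Set V₀) {v : V₀} (hv : v ∈ B) :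
    rk g B v < (g '' B).ncard := by
  apply Set.ncard_lt_ncard _ (Set.toFinite _)
  refine ⟨fun y hy => hy.1, fun h => ?_⟩
  have := h ⟨v, hv, rfl⟩
  exact lt_irrefl _ this.2

theorem rk_mono {V₀ : Type} [Finite V₀] (g : V₀ → ℝ) (B : Set V₀) {u v : V₀} (hu : u ∈ B)
    (h : g u < g v) : rk g B u < rk g B v := by
  apply Set.ncard_lt_ncard _ (Set.Finite.subset (Set.toFinite (g '' B)) fun y hy => hy.1)
  refine ⟨fun y hy => ⟨hy.1, hy.2.trans h⟩, fun h' => ?_⟩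
  have := h' ⟨⟨u, hu, rfl⟩, h⟩
  exact lt_irrefl _ this.2

end W_COMPOSE

open W_COMPOSE in
theorem COMPOSE {V₀ V ι : Type} [Finite V₀] [Finite V] [Finite ι] (T₀ : Tri V₀) (T : Tri V) (κ : V₀ → V) (hc : Clus T₀ T κ)
    (A S U : Set V) (hs : Split T.G A S U) (β : V → ι) (L : ι → ℕ) (cc : ι → ℕ) (N : ℕ) (m : ℕ → ℕ)
    (hconn : ∀ i, (∃ v ∈ A, β v = i) → Conn T.G {v | v ∈ A ∧ β v = i})
    (hcap : ∀ i, (∃ v ∈ A, β v = i) → CapSet T₀ T κ {v | v ∈ A ∧ β v = i} (cc i))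
    (hlow : ∀ i, (∃ v ∈ A, β v = i) → AdjS T.G {v | v ∈ A ∧ β v = i} (S ∪ {v | v ∈ A ∧ L (β v) < L i}))
    (hup : ∀ i, (∃ v ∈ A, β v = i) → AdjS T.G {v | v ∈ A ∧ β v = i} (U ∪ {v | v ∈ A ∧ L i < L (β v)}))
    (hdist : ∀ u ∈ A, ∀ v ∈ A, T.G.Adj u v → β u ≠ β v → L (β u) ≠ L (β v))
    (hm : ∀ i, (∃ v ∈ A, β v = i) → L i < N ∧ cc i ≤ m (L i)) :
    ∃ h : V₀ → ℝ, Valid T₀.G (κ ⁻¹' S) (κ ⁻¹' U) (κ ⁻¹' A) h ∧
      (h '' (κ ⁻¹' A)).ncard ≤ ∑ l ∈ Finset.range N, m l := by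
  classical
  have H : ∀ i, ∃ g : V₀ → ℝ, (∃ v ∈ A, β v = i) →
      Valid T₀.G (κ ⁻¹' (S ∪ {v | v ∈ A ∧ (β v ≠ i ∧ L (β v) ≤ L i)}))
        (κ ⁻¹' (U ∪ {v | v ∈ A ∧ L i < L (β v)})) (κ ⁻¹' {v | v ∈ A ∧ β v = i}) g ∧
      (g '' (κ ⁻¹' {v | v ∈ A ∧ β v = i})).ncard ≤ cc i := by
    intro i
    by_cases hi : ∃ v ∈ A, β v = i
    · obtain ⟨g, hg⟩ := hcap i hi _ _
        (split_block A S U hs β L N hconn hlow hup (fun i hi => (hm i hi).1) i hi)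
      exact ⟨g, fun _ => hg⟩
    · exact ⟨fun _ => 0, fun h => absurd h hi⟩
  choose g hg using H
  set off : ℕ → ℕ := fun l => ∑ l' ∈ Finset.range l, m l' with hoff
  have hoffmono : Monotone off := by
    intro a b hab
    exact Finset.sum_le_sum_of_subset (Finset.range_mono hab)
  set hN : V₀ → ℕ := fun v =>
    off (L (β (κ v))) + rk (g (β (κ v))) (κ ⁻¹' {w | w ∈ A ∧ β w = β (κ v)}) v with hhN
  have hlt : ∀ v, κ v ∈ A → hN v < off (L (β (κ v)) + 1) := by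
    intro v hv
    have hi : ∃ w ∈ A, β w = β (κ v) := ⟨κ v, hv, rfl⟩
    have h1 := rk_lt (g (β (κ v))) (κ ⁻¹' {w | w ∈ A ∧ β w = β (κ v)}) (v := v) ⟨hv, rfl⟩
    have h2 := (hg _ hi).2
    have h3 := (hm _ hi).2
    have h4 : off (L (β (κ v)) + 1) = off (L (β (κ v))) + m (L (β (κ v))) := by
      simp only [hoff]
      rw [Finset.sum_range_succ]
    simp only [hhN]
    omega
  have hsep : ∀ u v, κ u ∈ A → L (β (κ u)) < L (β (κ v)) → hN u < hN v := by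
    intro u v hu hL
    have h1 := hlt u hu
    have h2 : off (L (β (κ u)) + 1) ≤ off (L (β (κ v))) := hoffmono hL
    have h3 : off (L (β (κ v))) ≤ hN v := Nat.le_add_right _ _
    omega
  have hrk : ∀ u v, κ u ∈ A → β (κ u) = β (κ v) → g (β (κ v)) u < g (β (κ v)) v → hN u < hN v := by
    intro u v hu he hgl
    have h1 := rk_mono (g (β (κ v))) (κ ⁻¹' {w | w ∈ A ∧ β w = β (κ v)}) (u := u) (v := v)
      ⟨hu, he⟩ hgl
    simp only [hhN]
    rw [he]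
    omega
  have hrk' : ∀ u v, κ v ∈ A → β (κ u) = β (κ v) → g (β (κ v)) v < g (β (κ v)) u → hN v < hN u := by
    intro u v hv he hgl
    rw [← he] at hgl
    exact hrk v u hv he.symm hgl
  have hadjL : ∀ u v, κ u ∈ A → κ v ∈ A → T₀.G.Adj v u → β (κ u) ≠ β (κ v) →
      L (β (κ u)) ≠ L (β (κ v)) := by
    intro u v hu hv hadj hne
    apply hdist _ hu _ hv _ hne
    rw [CLUS_ADJ T₀ T κ hc]
    exact ⟨fun h => hne (congrArg β h), u, v, rfl, rfl, hadj.symm⟩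
  refine ⟨fun v => (hN v : ℝ), ?_, ?_⟩
  · intro v hv
    have hv' : κ v ∈ A := hv
    have hi : ∃ w ∈ A, β w = β (κ v) := ⟨κ v, hv', rfl⟩
    obtain ⟨⟨u, hu1, hu2⟩, ⟨w, hw1, hw2⟩⟩ := (hg _ hi).1 v ⟨hv', rfl⟩
    constructor
    · refine ⟨u, hu1, ?_⟩
      rcases hu2 with (hu3 | ⟨hu3, hu4, hu5⟩) | ⟨⟨hu3, hu4⟩, hu5⟩
      · exact Or.inl hu3
      · right
        refine ⟨hu3, ?_⟩
        have h1 := hadjL u v hu3 hv' hu1 hu4
        exact Nat.cast_lt.mpr (hsep u v hu3 (lt_of_le_of_ne hu5 h1))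
      · right
        refine ⟨hu3, ?_⟩
        exact Nat.cast_lt.mpr (hrk u v hu3 hu4 hu5)
    · refine ⟨w, hw1, ?_⟩
      rcases hw2 with (hw3 | ⟨hw3, hw4⟩) | ⟨⟨hw3, hw4⟩, hw5⟩
      · exact Or.inl hw3
      · right
        refine ⟨hw3, ?_⟩
        exact Nat.cast_lt.mpr (hsep v w hv' hw4)
      · right
        refine ⟨hw3, ?_⟩
        exact Nat.cast_lt.mpr (hrk' w v hv' hw4 hw5)
  · have h1 : (fun v => (hN v : ℝ)) '' (κ ⁻¹' A) ⊆
        ((fun n : ℕ => (n : ℝ)) '' ((Finset.range (off N) : Finset ℕ) : Set ℕ)) := by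
      rintro _ ⟨v, hv, rfl⟩
      refine ⟨hN v, ?_, rfl⟩
      have hi : ∃ w ∈ A, β w = β (κ v) := ⟨κ v, hv, rfl⟩
      have h2 := hlt v hv
      have h3 : off (L (β (κ v)) + 1) ≤ off N := hoffmono (hm _ hi).1
      simp only [Finset.coe_range, Set.mem_Iio]
      omega
    refine (Set.ncard_le_ncard h1 (Set.toFinite _)).trans ?_
    refine (Set.ncard_image_le (Set.toFinite _)).trans ?_
    rw [Set.ncard_coe_finset, Finset.card_range]


end Pool.Agent.H891WLC
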