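import Pool.Agent.H891WLC.Defs
import Pool.Agent.H891WLC.tri_conn3
import Pool.Agent.H891WLC.EE
import Pool.Agent.H891WLC.CLUS_ADJ
import Pool.Agent.H891WLC.CLUS_CONN
import Pool.Agent.H891WLC.COMPOSE

set_option autoImplicit false

namespace Pool.Agent.H891WLC

namespace W_CAPSAME

/-- rank of the value of `v` -/
noncomputable def rk {V : Type} [DecidableEq V] (A : Finset V) (h : V → ℝ) (v : V) : ℕ := by
  classical
  exact ((A.image h).filter (fun t => t < h v)).card

theorem rk_lt {V : Type} [DecidableEq V] (A : Finset V) (h : V → ℝ) {u v : V} (hu : u ∈ A) (huv : h u < h v) :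
    rk A h u < rk A h v := by
  classical
  unfold rk
  apply Finset.card_lt_card
  rw [Finset.ssubset_iff_of_subset]
  · refine ⟨h u, ?_, ?_⟩
    · rw [Finset.mem_filter]
      exact ⟨Finset.mem_image_of_mem h hu, huv⟩
    · rw [Finset.mem_filter]
      intro hh
      exact lt_irrefl _ hh.2
  · intro t ht
    rw [Finset.mem_filter] at ht ⊢
    exact ⟨ht.1, ht.2.trans huv⟩

theorem rk_eq {V : Type} [DecidableEq V] (A : Finset V) (h : V → ℝ) {u v : V} (hu : u ∈ A) (hv : v ∈ A)
    (he : rk A h u = rk A h v) : h u = h v := by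
  rcases lt_trichotomy (h u) (h v) with h1 | h1 | h1
  · have := rk_lt A h hu h1; omega
  · exact h1
  · have := rk_lt A h hv h1; omega

theorem rk_lt_card {V : Type} [DecidableEq V] (A : Finset V) (h : V → ℝ) {v : V} (hv : v ∈ A) :
    rk A h v < (A.image h).card := by
  classical
  unfold rk
  apply Finset.card_lt_card
  rw [Finset.ssubset_iff_of_subset (Finset.filter_subset _ _)]
  refine ⟨h v, Finset.mem_image_of_mem h hv, ?_⟩
  rw [Finset.mem_filter]
  intro hh
  exact lt_irrefl _ hh.2

end W_CAPSAME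

open W_CAPSAME in
theorem CAPSAME {V₀ V : Type} [Finite V₀] [Finite V] [DecidableEq V] (T₀ : Tri V₀) (T : Tri V) (κ : V₀ → V) (hc : Clus T₀ T κ)
    (A : Finset V) (S U : Set V) (hs : Split T.G (A : Set V) S U) (c : V → ℕ)
    (hcap : ∀ v ∈ A, CapSet T₀ T κ {v} (c v)) (h : V → ℝ) (hv : Valid T.G S U (A : Set V) h)
    (x y : V) (hx : x ∈ A) (hy : y ∈ A) (hxy : x ≠ y) (hnadj : ¬ T.G.Adj x y) (heq : h x = h y)
    (hinj : ∀ u ∈ A, ∀ v ∈ A, h u = h v → u = v ∨ (u = x ∧ v = y) ∨ (u = y ∧ v = x)) (g : ℕ) (hgx : g ≤ c x) (hgy : g ≤ c y) :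
    ∃ h₀ : V₀ → ℝ, Valid T₀.G (κ ⁻¹' S) (κ ⁻¹' U) (κ ⁻¹' (A : Set V)) h₀ ∧
      (h₀ '' (κ ⁻¹' (A : Set V))).ncard + g ≤ ∑ v ∈ A, c v := by
  classical
  have hset : ∀ i : V, i ∈ A → {v | v ∈ (A : Set V) ∧ id v = i} = ({i} : Set V) := by
    intro i hi
    ext v
    simp only [Set.mem_setOf_eq, id, Set.mem_singleton_iff, Finset.mem_coe]
    constructor
    · exact fun h => h.2
    · rintro rfl; exact ⟨hi, rfl⟩
  have hmem : ∀ i : V, (∃ v ∈ (A : Set V), id v = i) → i ∈ A := by
    rintro i ⟨v, hv, rfl⟩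
    exact hv
  obtain ⟨h₀, hval, hcard⟩ := COMPOSE T₀ T κ hc (A : Set V) S U hs (id : V → V) (rk A h) c (A.image h).card
    (fun l => (A.filter (fun v => rk A h v = l)).sup c)
    (by
      intro i hi
      rw [hset i (hmem i hi)]
      refine ⟨⟨i, rfl⟩, ?_⟩
      rintro u hu v hv
      rw [Set.mem_singleton_iff] at hu hv
      subst hu
      subst hv
      exact Relation.ReflTransGen.refl)
    (by
      intro i hi
      rw [hset i (hmem i hi)]
      exact hcap i (hmem i hi))
    (by
      intro i hi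
      have hiA := hmem i hi
      rw [hset i hiA]
      obtain ⟨⟨u, hadj, hu⟩, _⟩ := hv i hiA
      refine ⟨i, rfl, u, ?_, hadj⟩
      rcases hu with hu | ⟨huA, hlt⟩
      · exact Or.inl hu
      · exact Or.inr ⟨huA, rk_lt A h huA hlt⟩)
    (by
      intro i hi
      have hiA := hmem i hi
      rw [hset i hiA]
      obtain ⟨_, ⟨u, hadj, hu⟩⟩ := hv i hiA
      refine ⟨i, rfl, u, ?_, hadj⟩
      rcases hu with hu | ⟨huA, hlt⟩
      · exact Or.inl hu
      · exact Or.inr ⟨huA, rk_lt A h hiA hlt⟩)
    (by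
      intro u hu v hv' hadj huv hL
      have he := rk_eq A h hu hv' hL
      rcases hinj u hu v hv' he with h1 | ⟨h1, h2⟩ | ⟨h1, h2⟩
      · exact huv h1
      · subst h1; subst h2; exact hnadj hadj
      · subst h1; subst h2; exact hnadj hadj.symm)
    (by
      intro i hi
      have hiA := hmem i hi
      refine ⟨rk_lt_card A h hiA, ?_⟩
      exact Finset.le_sup (f := c) (Finset.mem_filter.mpr ⟨hiA, rfl⟩))
  refine ⟨h₀, hval, ?_⟩
  have hxy' : rk A h x = rk A h y := by unfold rk; rw [heq]
  have key : ∀ l ∈ Finset.range (A.image h).card,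
      (A.filter (fun v => rk A h v = l)).sup c + (if l = rk A h x then g else 0) ≤
        ∑ v ∈ A.filter (fun v => rk A h v = l), c v := by
    intro l _
    by_cases hl : l = rk A h x
    · rw [if_pos hl]
      have hxm : x ∈ A.filter (fun v => rk A h v = l) := Finset.mem_filter.mpr ⟨hx, hl.symm⟩
      have hym : y ∈ A.filter (fun v => rk A h v = l) := Finset.mem_filter.mpr ⟨hy, by rw [hl, hxy']⟩
      have hsum : c x + c y ≤ ∑ v ∈ A.filter (fun v => rk A h v = l), c v := by
        have h1 : ∑ v ∈ ({x, y} : Finset V), c v ≤ ∑ v ∈ A.filter (fun v => rk A h v = l), c v := by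
          apply Finset.sum_le_sum_of_subset
          intro v hv
          rw [Finset.mem_insert, Finset.mem_singleton] at hv
          rcases hv with rfl | rfl
          · exact hxm
          · exact hym
        rwa [Finset.sum_pair hxy] at h1
      have h2 : (A.filter (fun v => rk A h v = l)).sup c ≤
          (∑ v ∈ A.filter (fun v => rk A h v = l), c v) - g := by
        apply Finset.sup_le
        intro v hv
        rw [Finset.mem_filter] at hv
        have he : h v = h x := rk_eq A h hv.1 hx (by rw [hv.2, hl])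
        rcases hinj v hv.1 x hx he with h1 | ⟨h1, h2⟩ | ⟨h1, h2⟩
        · rw [h1]; omega
        · exact absurd h2 hxy
        · rw [h1]; omega
      omega
    · rw [if_neg hl, add_zero]
      apply Finset.sup_le
      intro v hv
      exact Finset.single_le_sum (f := c) (fun _ _ => Nat.zero_le _) hv
  have h3 := Finset.sum_le_sum key
  rw [Finset.sum_add_distrib, Finset.sum_ite_eq' (Finset.range (A.image h).card) (rk A h x) (fun _ => g),
    if_pos (Finset.mem_range.mpr (rk_lt_card A h hx)),
    Finset.sum_fiberwise_of_maps_to (fun v hv => Finset.mem_range.mpr (rk_lt_card A h hv))] at h3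
  exact (Nat.add_le_add_right hcard g).trans h3


end Pool.Agent.H891WLC
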