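import Pool.Agent.H891WLC.Defs
import Pool.Agent.H891WLC.tri_conn3
import Pool.Agent.H891WLC.EE
import Pool.Agent.H891WLC.CLUS_ADJ
import Pool.Agent.H891WLC.CLUS_CONN
import Pool.Agent.H891WLC.COMPOSE

set_option autoImplicit false

namespace Pool.Agent.H891WLC

namespace W_CAPSUM

theorem conn_singleton {V : Type} (G : SimpleGraph V) (i : V) : Conn G ({i} : Set V) := by
  refine ⟨⟨i, rfl⟩, ?_⟩
  rintro u rfl v rfl
  exact Relation.ReflTransGen.refl

theorem rtg_mono {V : Type} {r p : V → V → Prop} (h : ∀ x y, r x y → p x y) {a b : V}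
    (hab : Relation.ReflTransGen r a b) : Relation.ReflTransGen p a b := by
  induction hab with
  | refl => exact Relation.ReflTransGen.refl
  | tail _ h2 ih => exact ih.tail (h _ _ h2)

end W_CAPSUM

open W_CAPSUM in
theorem CAPSUM {V₀ V : Type} [Finite V₀] [Finite V] (T₀ : Tri V₀) (T : Tri V) (κ : V₀ → V) (hc : Clus T₀ T κ)
    (A : Finset V) (hA : Conn T.G (A : Set V)) (c : V → ℕ) (hcap : ∀ v ∈ A, CapSet T₀ T κ {v} (c v)) :
    CapSet T₀ T κ (A : Set V) (∑ v ∈ A, c v) := by
  classical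
  intro S U hs
  obtain ⟨s1, s2, s3, s4, s5, s6, s7, s8, s9⟩ := id hs
  have hcompl : (S ∪ U)ᶜ = (A : Set V) := by
    ext v
    constructor
    · intro hv
      rcases s1 v with h | h | h
      · exact h
      · exact absurd (Or.inl h) hv
      · exact absurd (Or.inr h) hv
    · intro hv hv2
      rcases hv2 with h | h
      · exact Set.disjoint_left.1 s2 hv h
      · exact Set.disjoint_left.1 s3 hv h
  have hmemA : ∀ v, v ∉ S → v ∉ U → v ∈ (A : Set V) := by
    intro v h1 h2
    rcases s1 v with h | h | h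
    · exact h
    · exact absurd h h1
    · exact absurd h h2
  obtain ⟨h', hinj, -, hval⟩ := EE T.G
    (fun x => by
      have := tri_conn3 T x x
      rwa [Set.pair_eq_singleton] at this)
    S U ∅ s4 (Set.empty_disjoint _) (Set.empty_disjoint _) s5.1 s6.1
    (by
      intro v h1 h2
      obtain ⟨a, ha, b, hb, hab⟩ := s9
      refine ⟨b, hb, ?_⟩
      have h3 := hA.2 v (hmemA v h1 h2) a ha
      have h4 : Relation.ReflTransGen (fun x y => T.G.Adj x y ∧ y ∉ S) v a :=
        rtg_mono
          (fun x y hxy => ⟨hxy.1, fun hyS => Set.disjoint_left.1 s2 hxy.2 hyS⟩) h3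
      exact Relation.ReflTransGen.tail h4
        ⟨hab, fun hbS => Set.disjoint_left.1 s4 hbS hb⟩)
    (by
      intro v h1 h2
      obtain ⟨a, ha, b, hb, hab⟩ := s8
      refine ⟨b, hb, ?_⟩
      have h3 := hA.2 v (hmemA v h1 h2) a ha
      have h4 : Relation.ReflTransGen (fun x y => T.G.Adj x y ∧ y ∉ U) v a :=
        rtg_mono
          (fun x y hxy => ⟨hxy.1, fun hyU => Set.disjoint_left.1 s3 hxy.2 hyU⟩) h3
      exact Relation.ReflTransGen.tail h4
        ⟨hab, fun hbU => Set.disjoint_left.1 s4 hb hbU⟩)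
    (fun _ => 0) (Set.injOn_empty _) (fun v hv => absurd hv (Set.notMem_empty v))
  rw [hcompl] at hinj hval
  obtain ⟨L, hL⟩ : ∃ L : V → ℕ, ∀ v, L v = (A.filter (fun u => h' u < h' v)).card :=
    ⟨fun v => (A.filter (fun u => h' u < h' v)).card, fun _ => rfl⟩
  have hLlt : ∀ u ∈ A, ∀ v ∈ A, h' u < h' v → L u < L v := by
    intro u hu v hv huv
    rw [hL, hL]
    apply Finset.card_lt_card
    rw [Finset.ssubset_iff_of_subset]
    · exact ⟨u, Finset.mem_filter.2 ⟨hu, huv⟩, fun hh => lt_irrefl _ (Finset.mem_filter.1 hh).2⟩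
    · intro w hw
      exact Finset.mem_filter.2 ⟨(Finset.mem_filter.1 hw).1,
        lt_trans (Finset.mem_filter.1 hw).2 huv⟩
  have hLinj : ∀ u ∈ A, ∀ v ∈ A, u ≠ v → L u ≠ L v := by
    intro u hu v hv huv hLe
    have hne : h' u ≠ h' v := fun he => huv (hinj hu hv he)
    rcases lt_or_gt_of_ne hne with h | h
    · exact absurd hLe (hLlt u hu v hv h).ne
    · exact absurd hLe.symm (hLlt v hv u hu h).ne
  have hLN : ∀ v ∈ A, L v < A.card := by
    intro v hv
    rw [hL]
    apply Finset.card_lt_card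
    rw [Finset.ssubset_iff_of_subset (Finset.filter_subset _ _)]
    exact ⟨v, hv, fun hh => lt_irrefl _ (Finset.mem_filter.1 hh).2⟩
  have hset : ∀ i, i ∈ A → {v | v ∈ (A : Set V) ∧ id v = i} = ({i} : Set V) := by
    intro i hi
    ext v
    constructor
    · rintro ⟨_, h⟩
      exact h
    · intro h
      have h2 : v = i := h
      subst h2
      exact ⟨hi, rfl⟩
  have hex : ∀ i, (∃ v ∈ (A : Set V), id v = i) → i ∈ A := by
    rintro i ⟨v, hv, rfl⟩
    exact hv
  obtain ⟨h, hh1, hh2⟩ := COMPOSE T₀ T κ hc (A : Set V) S U hs (id : V → V) L c A.card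
    (fun l => ∑ v ∈ A with L v = l, c v)
    (by
      intro i hi
      rw [hset i (hex i hi)]
      exact conn_singleton _ i)
    (by
      intro i hi
      rw [hset i (hex i hi)]
      exact hcap i (hex i hi))
    (by
      intro i hi
      have hiA := hex i hi
      rw [hset i hiA]
      obtain ⟨⟨u, hu, hu2⟩, -⟩ := hval i hiA
      refine ⟨i, rfl, u, ?_, hu⟩
      rcases hu2 with h | h
      · exact Or.inl h
      · exact Or.inr ⟨h.1, hLlt u h.1 i hiA h.2⟩)
    (by
      intro i hi
      have hiA := hex i hi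
      rw [hset i hiA]
      obtain ⟨-, ⟨u, hu, hu2⟩⟩ := hval i hiA
      refine ⟨i, rfl, u, ?_, hu⟩
      rcases hu2 with h | h
      · exact Or.inl h
      · exact Or.inr ⟨h.1, hLlt i hiA u h.1 h.2⟩)
    (by
      intro u hu v hv _ huv
      exact hLinj u hu v hv huv)
    (by
      intro i hi
      have hiA := hex i hi
      refine ⟨hLN i hiA, ?_⟩
      exact Finset.single_le_sum (f := c) (fun _ _ => Nat.zero_le _)
        (Finset.mem_filter.2 ⟨hiA, rfl⟩))
  refine ⟨h, hh1, le_trans hh2 (le_of_eq ?_)⟩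
  exact Finset.sum_fiberwise_of_maps_to (fun v hv => Finset.mem_range.2 (hLN v hv)) c


end Pool.Agent.H891WLC
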