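import Pool.Agent.H891WLC.Defs
import Pool.Agent.H891WLC.CLUS_ADJ
import Pool.Agent.H891WLC.CLUS_CONN

set_option autoImplicit false

namespace Pool.Agent.H891WLC

namespace W_CAPUP

end W_CAPUP

open W_CAPUP in
theorem CAPUP {V₀ V W : Type} [Finite V₀] [Finite V] [Finite W] (T₀ : Tri V₀) (T : Tri V) (T' : Tri W) (κ : V₀ → V) (π : V → W)
    (hp : Clus T T' π) (A : Set W) (m : ℕ) (hA : CapSet T₀ T κ (π ⁻¹' A) m) : CapSet T₀ T' (π ∘ κ) A m := by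
  have adj : ∀ B C : Set W, AdjS T'.G B C → AdjS T.G (π ⁻¹' B) (π ⁻¹' C) := by
    rintro B C ⟨a, ha, b, hb, hab⟩
    obtain ⟨_, a0, b0, rfl, rfl, h⟩ := (CLUS_ADJ T T' π hp a b).1 hab
    exact ⟨a0, ha, b0, hb, h⟩
  rintro S U ⟨hcov, hKS, hKU, hSU, hS, hU, aSU, aKS, aKU⟩
  obtain ⟨h, hv, hc⟩ := hA (π ⁻¹' S) (π ⁻¹' U) ⟨fun v => hcov (π v), hKS.preimage π,
    hKU.preimage π, hSU.preimage π, (CLUS_CONN T T' π hp S).1 hS,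
    (CLUS_CONN T T' π hp U).1 hU, adj _ _ aSU, adj _ _ aKS, adj _ _ aKU⟩
  exact ⟨h, hv, hc⟩



end Pool.Agent.H891WLC
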