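import Pool.Agent.H891WLC.Defs

set_option autoImplicit false

namespace Pool.Agent.H891WLC

namespace W_CHAINL

noncomputable section

variable {V : Type}

/-- connected by a path inside `A` -/
def RA (G : SimpleGraph V) (A : Set V) (x y : V) : Prop :=
  x ∈ A ∧ Relation.ReflTransGen (fun x y => G.Adj x y ∧ y ∈ A) x y

theorem RA.left {G : SimpleGraph V} {A : Set V} {x y : V} (h : RA G A x y) : x ∈ A := h.1

theorem rtg_mem {G : SimpleGraph V} {A : Set V} {x y : V} (hx : x ∈ A)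
    (h : Relation.ReflTransGen (fun x y => G.Adj x y ∧ y ∈ A) x y) : y ∈ A := by
  cases h with
  | refl => exact hx
  | tail _ h => exact h.2

theorem RA.right {G : SimpleGraph V} {A : Set V} {x y : V} (h : RA G A x y) : y ∈ A :=
  rtg_mem h.1 h.2

theorem RA.refl {G : SimpleGraph V} {A : Set V} {x : V} (h : x ∈ A) : RA G A x x := ⟨h, .refl⟩

theorem RA.trans {G : SimpleGraph V} {A : Set V} {x y z : V} (h : RA G A x y) (h' : RA G A y z) :
    RA G A x z := ⟨h.1, h.2.trans h'.2⟩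

theorem RA.symm {G : SimpleGraph V} {A : Set V} {x y : V} (h : RA G A x y) : RA G A y x := by
  obtain ⟨hx, h⟩ := h
  induction h with
  | refl => exact ⟨hx, .refl⟩
  | tail h1 h2 ih =>
    exact ⟨h2.2, (Relation.ReflTransGen.single ⟨h2.1.symm, rtg_mem hx h1⟩).trans ih.2⟩

theorem rtg_mono {G : SimpleGraph V} {A B : Set V} (hAB : A ⊆ B) {x y : V}
    (h : Relation.ReflTransGen (fun x y => G.Adj x y ∧ y ∈ A) x y) :
    Relation.ReflTransGen (fun x y => G.Adj x y ∧ y ∈ B) x y := by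
  induction h with
  | refl => exact .refl
  | tail _ h2 ih => exact ih.tail ⟨h2.1, hAB h2.2⟩

theorem RA.mono {G : SimpleGraph V} {A B : Set V} (hAB : A ⊆ B) {x y : V} (h : RA G A x y) :
    RA G B x y :=
  ⟨hAB h.1, rtg_mono hAB h.2⟩

theorem RA.of_adj {G : SimpleGraph V} {A : Set V} {x y : V} (hx : x ∈ A) (hy : y ∈ A)
    (h : G.Adj x y) : RA G A x y := ⟨hx, .single ⟨h, hy⟩⟩

theorem conn_RA {G : SimpleGraph V} {A : Set V} (h : Conn G A) {x y : V} (hx : x ∈ A)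
    (hy : y ∈ A) : RA G A x y := ⟨hx, h.2 x hx y hy⟩

theorem RA_conn {G : SimpleGraph V} {A : Set V} {x : V} (hx : x ∈ A) :
    Conn G {y | RA G A x y} := by
  refine ⟨⟨x, RA.refl hx⟩, fun u hu v hv => ?_⟩
  have huv : RA G A u v := (RA.symm hu).trans hv
  have key : ∀ c, Relation.ReflTransGen (fun x y => G.Adj x y ∧ y ∈ A) u c →
      Relation.ReflTransGen (fun a b => G.Adj a b ∧ b ∈ {y | RA G A x y}) u c := by
    intro c hc
    induction hc with
    | refl => exact .refl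
    | tail h1 h2 ih =>
      exact ih.tail ⟨h2.1, RA.trans hu ⟨hu.right, h1.tail h2⟩⟩
  exact key v huv.2

/-- `K` without `w` -/
def Kw (K : Finset V) (w : V) : Set V := {y | y ∈ K ∧ y ≠ w}

theorem not_mem_Kw (K : Finset V) (w : V) : w ∉ Kw K w := fun h => h.2 rfl

theorem conn_closed {G : SimpleGraph V} {K : Finset V} (hK : Conn G (K : Set V)) {w : V}
    (B : Set V) (hBK : B ⊆ K) (hwB : w ∈ B)
    (hcl : ∀ x ∈ B, x ≠ w → ∀ x' ∈ K, x' ≠ w → G.Adj x x' → x' ∈ B) : Conn G B := by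
  have key : ∀ x ∈ B, RA G B x w := by
    intro x hx
    have h := hK.2 x (hBK hx) w (hBK hwB)
    induction h using Relation.ReflTransGen.head_induction_on with
    | refl => exact RA.refl hwB
    | @head a c h1 _ ih =>
      by_cases hcw : c = w
      · subst hcw
        exact RA.of_adj hx hwB h1.1
      · by_cases haw : a = w
        · subst haw
          exact RA.refl hwB
        · have hc : c ∈ B := hcl a hx haw c h1.2 hcw h1.1
          exact (RA.of_adj hx hc h1.1).trans (ih hc)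
  refine ⟨⟨w, hwB⟩, fun u hu v hv => ((key u hu).trans (key v hv).symm).2⟩

theorem conn_compl {G : SimpleGraph V} {K : Finset V} (hK : Conn G (K : Set V)) {w q : V}
    (hw : w ∈ K) : Conn G {x | x ∈ K ∧ ¬ RA G (Kw K w) q x} := by
  refine conn_closed hK (w := w) _ (fun x hx => hx.1) ⟨hw, fun h => h.right.2 rfl⟩ ?_
  intro x hx hxw x' hx' hx'w hadj
  exact ⟨hx', fun h => hx.2 (h.trans (RA.of_adj ⟨hx', hx'w⟩ ⟨hx.1, hxw⟩ hadj.symm))⟩

/-- `w` separates `p` and `q` -/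
def Sep (G : SimpleGraph V) (K : Finset V) (p q w : V) : Prop :=
  w ∈ K ∧ p ∈ K ∧ q ∈ K ∧ p ≠ w ∧ q ≠ w ∧ ¬ RA G (Kw K w) p q

theorem Sep.symm {G : SimpleGraph V} {K : Finset V} {p q w : V} (h : Sep G K p q w) :
    Sep G K q p w :=
  ⟨h.1, h.2.2.1, h.2.1, h.2.2.2.2.1, h.2.2.2.1, fun h' => h.2.2.2.2.2 h'.symm⟩

theorem not_sep {G : SimpleGraph V} {K : Finset V} (hK : Conn G (K : Set V)) {p q w : V}
    (hp : p ∈ K) (hq : q ∈ K) (hpw : p ≠ w) (hqw : q ≠ w) (h : ¬ Sep G K p q w) :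
    RA G (Kw K w) p q := by
  by_cases hw : w ∈ K
  · by_contra h'
    exact h ⟨hw, hp, hq, hpw, hqw, h'⟩
  · refine RA.mono ?_ (conn_RA hK hp hq)
    intro x hx
    exact ⟨hx, fun hxw => hw (hxw ▸ hx)⟩

/-- F2 -/
theorem F2 {G : SimpleGraph V} {K : Finset V} (hK : Conn G (K : Set V)) {p q w w' v : V}
    (h : Sep G K p q w) (hw' : RA G (Kw K w) q w') (hv : v ∈ K) (hv' : ¬ RA G (Kw K w) q v) :
    RA G (Kw K w') p v := by
  have h1 := conn_RA (conn_compl hK (w := w) (q := q) h.1) (x := p) (y := v)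
    ⟨h.2.1, fun h' => h.2.2.2.2.2 h'.symm⟩ ⟨hv, hv'⟩
  refine RA.mono ?_ h1
  intro x hx
  exact ⟨hx.1, fun hxw => hx.2 (hxw ▸ hw')⟩

theorem avoid {G : SimpleGraph V} {K : Finset V} {q w z m m' : V} (h : RA G (Kw K w) q m)
    (h' : RA G (Kw K w) q m') (hz : ¬ RA G (Kw K w) q z) : RA G (Kw K z) m m' := by
  have h1 := conn_RA (RA_conn (G := G) h.1) (x := m) (y := m') h h'
  refine RA.mono ?_ h1
  intro x hx
  exact ⟨(RA.right hx).1, fun hxz => hz (hxz ▸ hx)⟩

/-- F1: a separator lies on one of the two sides of another one -/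
theorem F1 {G : SimpleGraph V} {K : Finset V} (hK : Conn G (K : Set V)) {p q w w' : V}
    (h : Sep G K p q w) (h' : Sep G K p q w') (hne : w' ≠ w) :
    RA G (Kw K w) p w' ∨ RA G (Kw K w) q w' := by
  by_contra hcon
  rw [not_or] at hcon
  have key : ∀ a ∈ K, a ≠ w → ¬ RA G (Kw K w) a w' → RA G (Kw K w') a w := by
    intro a ha haw hn
    have hc : Conn G ({x | RA G (Kw K w) a x} ∪ {w}) := by
      refine conn_closed hK (w := w) _ ?_ (Or.inr rfl) ?_
      · rintro x (hx | hx)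
        · exact (RA.right hx).1
        · rw [Set.mem_singleton_iff] at hx
          subst hx
          exact h.1
      · rintro x (hx | hx) hxw x' hx' hx'w hadj
        · exact Or.inl (RA.trans hx (RA.of_adj (RA.right hx) ⟨hx', hx'w⟩ hadj))
        · exact absurd hx hxw
    have h1 := conn_RA hc (x := a) (y := w) (Or.inl (RA.refl ⟨ha, haw⟩)) (Or.inr rfl)
    refine h1.mono ?_
    rintro x (hx | hx)
    · exact ⟨(RA.right hx).1, fun hxw => hn (hxw ▸ hx)⟩
    · rw [Set.mem_singleton_iff] at hx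
      subst hx
      exact ⟨h.1, hne.symm⟩
  exact h'.2.2.2.2.2 ((key p h.2.1 h.2.2.2.1 hcon.1).trans
    (key q h.2.2.1 h.2.2.2.2.1 hcon.2).symm)

/-- contribution of the separator `w` -/
def ff (G : SimpleGraph V) (K : Finset V) (p q w v : V) : ℕ := by
  classical exact if RA G (Kw K w) p v then 0 else if RA G (Kw K w) q v then 2 else 1

theorem ff_p {G : SimpleGraph V} {K : Finset V} {p q w v : V} (h : RA G (Kw K w) p v) :
    ff G K p q w v = 0 := by
  unfold ff; rw [if_pos h]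

theorem ff_q {G : SimpleGraph V} {K : Finset V} {p q w v : V} (hs : Sep G K p q w)
    (h : RA G (Kw K w) q v) : ff G K p q w v = 2 := by
  unfold ff; rw [if_neg (fun h' => hs.2.2.2.2.2 (RA.trans h' h.symm)), if_pos h]

theorem ff_n {G : SimpleGraph V} {K : Finset V} {p q w v : V} (h : ¬ RA G (Kw K w) p v)
    (h' : ¬ RA G (Kw K w) q v) : ff G K p q w v = 1 := by
  unfold ff; rw [if_neg h, if_neg h']

theorem ff_self {G : SimpleGraph V} {K : Finset V} {p q w : V} : ff G K p q w w = 1 :=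
  ff_n (fun h => h.right.2 rfl) (fun h => h.right.2 rfl)

theorem ff_le {G : SimpleGraph V} {K : Finset V} {p q w v : V} : ff G K p q w v ≤ 2 := by
  unfold ff; split_ifs <;> omega

/-- all separators -/
def WW (G : SimpleGraph V) (K : Finset V) (p q : V) : Finset V := by
  classical exact K.filter (fun w => Sep G K p q w)

theorem mem_WW {G : SimpleGraph V} {K : Finset V} {p q w : V} :
    w ∈ WW G K p q ↔ Sep G K p q w := by
  classical
  unfold WW
  rw [Finset.mem_filter]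
  exact ⟨fun h => h.2, fun h => ⟨h.1, h⟩⟩

/-- the class -/
def rr (G : SimpleGraph V) (K : Finset V) (p q v : V) : ℕ :=
  1 + ∑ w ∈ WW G K p q, ff G K p q w v

section order
variable {G : SimpleGraph V} {K : Finset V} (hK : Conn G (K : Set V)) {p q w : V}
include hK

theorem ff_side_q {w' : V} (h : Sep G K p q w) (h' : RA G (Kw K w) q w') {v : V}
    (hv : v ∈ K) (hv' : ¬ RA G (Kw K w) q v) : ff G K p q w' v = 0 :=
  ff_p (F2 hK h h' hv hv')

theorem ff_side_p {w' : V} (h : Sep G K p q w) (hs' : Sep G K p q w') (h' : RA G (Kw K w) p w')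
    {v : V} (hv : v ∈ K) (hv' : ¬ RA G (Kw K w) p v) : ff G K p q w' v = 2 :=
  ff_q hs' (F2 hK h.symm h' hv hv')

theorem rr_p (h : Sep G K p q w) {v : V} (hv : RA G (Kw K w) p v) :
    rr G K p q v < rr G K p q w := by
  unfold rr
  apply Nat.add_lt_add_left
  have hvK : v ∈ K := hv.right.1
  have hvq : ¬ RA G (Kw K w) q v := fun h' => h.2.2.2.2.2 (RA.trans hv h'.symm)
  refine Finset.sum_lt_sum (fun w' hw' => ?_) ⟨w, mem_WW.2 h, ?_⟩
  · rw [mem_WW] at hw'
    by_cases hww : w' = w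
    · subst hww
      rw [ff_p hv]; exact Nat.zero_le _
    · rcases F1 hK h hw' hww with h1 | h1
      · rw [ff_side_p hK h hw' h1 h.1 (fun h => h.right.2 rfl)]
        exact ff_le
      · rw [ff_side_q hK h h1 hvK hvq]
        exact Nat.zero_le _
  · rw [ff_p hv, ff_self]; exact Nat.zero_lt_one

theorem rr_q (h : Sep G K p q w) {v : V} (hv : RA G (Kw K w) q v) :
    rr G K p q w < rr G K p q v := by
  unfold rr
  apply Nat.add_lt_add_left
  have hvK : v ∈ K := hv.right.1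
  have hvp : ¬ RA G (Kw K w) p v := fun h' => h.2.2.2.2.2 (RA.trans h' hv.symm)
  refine Finset.sum_lt_sum (fun w' hw' => ?_) ⟨w, mem_WW.2 h, ?_⟩
  · rw [mem_WW] at hw'
    by_cases hww : w' = w
    · subst hww
      rw [ff_q h hv]; exact ff_le
    · rcases F1 hK h hw' hww with h1 | h1
      · rw [ff_side_p hK h hw' h1 hvK hvp]
        exact ff_le
      · rw [ff_side_q hK h h1 h.1 (fun h => h.right.2 rfl)]
        exact Nat.zero_le _
  · rw [ff_q h hv, ff_self]; exact Nat.one_lt_two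

theorem rr_n (h : Sep G K p q w) {v : V} (hvK : v ∈ K) (hvp : ¬ RA G (Kw K w) p v)
    (hvq : ¬ RA G (Kw K w) q v) : rr G K p q v = rr G K p q w := by
  unfold rr
  congr 1
  refine Finset.sum_congr rfl (fun w' hw' => ?_)
  rw [mem_WW] at hw'
  by_cases hww : w' = w
  · subst hww
    rw [ff_n hvp hvq, ff_self]
  · rcases F1 hK h hw' hww with h1 | h1
    · rw [ff_side_p hK h hw' h1 hvK hvp, ff_side_p hK h hw' h1 h.1 (fun h => h.right.2 rfl)]
    · rw [ff_side_q hK h h1 hvK hvq, ff_side_q hK h h1 h.1 (fun h => h.right.2 rfl)]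

theorem rr_lt_iff (h : Sep G K p q w) {v : V} (hvK : v ∈ K) :
    rr G K p q v < rr G K p q w ↔ RA G (Kw K w) p v := by
  constructor
  · intro h1
    by_contra hp
    by_cases hq : RA G (Kw K w) q v
    · have := rr_q hK h hq; omega
    · have := rr_n hK h hvK hp hq; omega
  · exact rr_p hK h

theorem rr_gt_iff (h : Sep G K p q w) {v : V} (hvK : v ∈ K) :
    rr G K p q w < rr G K p q v ↔ RA G (Kw K w) q v := by
  constructor
  · intro h1
    by_contra hq
    by_cases hp : RA G (Kw K w) p v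
    · have := rr_p hK h hp; omega
    · have := rr_n hK h hvK hp hq; omega
  · exact rr_q hK h

theorem rr_eq_iff (h : Sep G K p q w) {v : V} (hvK : v ∈ K) :
    rr G K p q v = rr G K p q w ↔ ¬ RA G (Kw K w) p v ∧ ¬ RA G (Kw K w) q v := by
  rw [← rr_lt_iff hK h hvK, ← rr_gt_iff hK h hvK]
  omega

theorem rr_inj {w' : V} (h : Sep G K p q w) (h' : Sep G K p q w')
    (he : rr G K p q w' = rr G K p q w) : w' = w := by
  by_contra hne
  have h1 := (rr_eq_iff hK h h'.1).1 he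
  rcases F1 hK h h' hne with h2 | h2
  · exact h1.1 h2
  · exact h1.2 h2

theorem rr_even (h : Sep G K p q w) : Even (rr G K p q w) := by
  classical
  unfold rr
  rw [← Finset.add_sum_erase _ _ (mem_WW.2 h), ff_self, ← add_assoc]
  refine Even.add (by decide) (Finset.even_sum _ fun w' hw' => ?_)
  rw [Finset.mem_erase, mem_WW] at hw'
  rcases F1 hK h hw'.2 hw'.1 with h1 | h1
  · rw [ff_side_p hK h hw'.2 h1 h.1 (fun h => h.right.2 rfl)]
    decide
  · rw [ff_side_q hK h h1 h.1 (fun h => h.right.2 rfl)]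
    decide

omit hK in
theorem rr_le (v : V) : rr G K p q v ≤ 2 * (WW G K p q).card + 1 := by
  unfold rr
  have : ∑ w ∈ WW G K p q, ff G K p q w v ≤ ∑ _w ∈ WW G K p q, 2 :=
    Finset.sum_le_sum fun _ _ => ff_le
  rw [Finset.sum_const, smul_eq_mul] at this
  omega

omit hK in
theorem rr_ge (v : V) : 1 ≤ rr G K p q v := by
  unfold rr; omega

theorem rr_surj (i : ℕ) (h1 : 1 ≤ i) (h2 : i ≤ (WW G K p q).card) :
    ∃ w, Sep G K p q w ∧ rr G K p q w = 2 * i := by
  classical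
  have hsub : (WW G K p q).image (fun w => rr G K p q w / 2) ⊆
      Finset.Icc 1 (WW G K p q).card := by
    intro k hk
    rw [Finset.mem_image] at hk
    obtain ⟨w, hw, rfl⟩ := hk
    have he := rr_even hK (mem_WW.1 hw)
    have hl := rr_le (G := G) (K := K) (p := p) (q := q) w
    have hg := rr_ge (G := G) (K := K) (p := p) (q := q) w
    obtain ⟨t, ht⟩ := he
    rw [Finset.mem_Icc]
    omega
  have hinj : Set.InjOn (fun w => rr G K p q w / 2) (WW G K p q : Set V) := by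
    intro w hw w' hw' he
    have h1 := rr_even hK (mem_WW.1 hw)
    have h2 := rr_even hK (mem_WW.1 hw')
    obtain ⟨t, ht⟩ := h1
    obtain ⟨t', ht'⟩ := h2
    simp only at he
    exact rr_inj hK (mem_WW.1 hw') (mem_WW.1 hw) (by omega)
  have heq := Finset.eq_of_subset_of_card_le hsub (by
    rw [Finset.card_image_of_injOn hinj, Nat.card_Icc]; omega)
  have hi : i ∈ (WW G K p q).image (fun w => rr G K p q w / 2) := by
    rw [heq, Finset.mem_Icc]; exact ⟨h1, h2⟩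
  rw [Finset.mem_image] at hi
  obtain ⟨w, hw, hwi⟩ := hi
  obtain ⟨t, ht⟩ := rr_even hK (mem_WW.1 hw)
  exact ⟨w, mem_WW.1 hw, by omega⟩

omit hK in
open Classical in
theorem rr_adj {u v : V} (hu : u ∈ K) (hv : v ∈ K) (hadj : G.Adj u v) :
    rr G K p q u ≤ rr G K p q v + (if u ∈ WW G K p q then 1 else 0) +
      (if v ∈ WW G K p q then 1 else 0) := by
  have h1 : ∑ w ∈ WW G K p q, ff G K p q w u ≤ ∑ w ∈ WW G K p q,
      (ff G K p q w v + (if w = u then 1 else 0) + (if w = v then 1 else 0)) := by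
    refine Finset.sum_le_sum fun w hw => ?_
    by_cases hwu : w = u
    · subst hwu
      rw [ff_self, if_pos rfl]; omega
    · by_cases hwv : w = v
      · subst hwv
        have := ff_le (G := G) (K := K) (p := p) (q := q) (w := w) (v := u)
        rw [ff_self, if_pos rfl]; omega
      · have huv : RA G (Kw K w) u v :=
          RA.of_adj ⟨hu, fun h => hwu h.symm⟩ ⟨hv, fun h => hwv h.symm⟩ hadj
        have : ff G K p q w u = ff G K p q w v := by
          unfold ff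
          have e1 : RA G (Kw K w) p u ↔ RA G (Kw K w) p v :=
            ⟨fun h => h.trans huv, fun h => h.trans huv.symm⟩
          have e2 : RA G (Kw K w) q u ↔ RA G (Kw K w) q v :=
            ⟨fun h => h.trans huv, fun h => h.trans huv.symm⟩
          simp only [e1, e2]
        omega
  rw [Finset.sum_add_distrib, Finset.sum_add_distrib, Finset.sum_ite_eq', Finset.sum_ite_eq'] at h1
  unfold rr
  omega

end order

section fin
variable {G : SimpleGraph V} {K Q : Finset V}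

open Classical in
theorem claw0 (hQ : Q ⊆ K)
    (hclaw : ¬ ∃ (D : Fin 3 → Finset V) (z : Fin 3 → V), (∀ i, D i ⊆ K) ∧ (∀ i j, i ≠ j → Disjoint (D i) (D j)) ∧
      (∀ i, z i ∈ K) ∧ (∀ i j, z i ∉ D j) ∧ (∀ i, Conn G (D i : Set V)) ∧
      (∀ i, ∀ u ∈ D i, ∀ v ∈ K, G.Adj u v → v ∈ D i ∨ v = z i) ∧ (∀ i, ∃ a ∈ D i, a ∈ Q))
    (z a : Fin 3 → V) (hz : ∀ i, z i ∈ K) (ha : ∀ i, a i ∈ Q) (haz : ∀ i, a i ≠ z i)
    (hd : ∀ i j, i ≠ j → ∀ v, RA G (Kw K (z i)) (a i) v → ¬ RA G (Kw K (z j)) (a j) v)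
    (hzd : ∀ i j, ¬ RA G (Kw K (z j)) (a j) (z i)) : False := by
  apply hclaw
  refine ⟨fun i => K.filter (fun v => RA G (Kw K (z i)) (a i) v), z, ?_, ?_, hz, ?_, ?_, ?_, ?_⟩
  · intro i; exact Finset.filter_subset _ _
  · intro i j hij
    rw [Finset.disjoint_left]
    intro v hv hv'
    rw [Finset.mem_filter] at hv hv'
    exact hd i j hij v hv.2 hv'.2
  · intro i j h
    exact hzd i j (Finset.mem_filter.1 h).2
  · intro i
    have : ((K.filter (fun v => RA G (Kw K (z i)) (a i) v) : Finset V) : Set V) =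
        {v | RA G (Kw K (z i)) (a i) v} := by
      ext v
      rw [Finset.mem_coe, Finset.mem_filter]
      exact ⟨fun h => h.2, fun h => ⟨(RA.right h).1, h⟩⟩
    rw [this]
    exact RA_conn ⟨hQ (ha i), haz i⟩
  · intro i u hu v hv hadj
    by_cases h : v = z i
    · right; exact h
    · left
      rw [Finset.mem_filter] at hu ⊢
      exact ⟨hv, hu.2.trans (RA.of_adj hu.2.right ⟨hv, h⟩ hadj)⟩
  · intro i
    exact ⟨a i, Finset.mem_filter.2 ⟨hQ (ha i), RA.refl ⟨hQ (ha i), haz i⟩⟩, ha i⟩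

/-- the negated claw -/
def NC (G : SimpleGraph V) (K Q : Finset V) : Prop :=
  ¬ ∃ (D : Fin 3 → Finset V) (z : Fin 3 → V), (∀ i, D i ⊆ K) ∧ (∀ i j, i ≠ j → Disjoint (D i) (D j)) ∧
      (∀ i, z i ∈ K) ∧ (∀ i j, z i ∉ D j) ∧ (∀ i, Conn G (D i : Set V)) ∧
      (∀ i, ∀ u ∈ D i, ∀ v ∈ K, G.Adj u v → v ∈ D i ∨ v = z i) ∧ (∀ i, ∃ a ∈ D i, a ∈ Q)

theorem claw3 (hQ : Q ⊆ K) (hclaw : NC G K Q) {z0 z1 z2 a0 a1 a2 : V}
    (hz0 : z0 ∈ K) (hz1 : z1 ∈ K) (hz2 : z2 ∈ K) (ha0 : a0 ∈ Q) (ha1 : a1 ∈ Q) (ha2 : a2 ∈ Q)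
    (h0 : a0 ≠ z0) (h1 : a1 ≠ z1) (h2 : a2 ≠ z2)
    (d01 : ∀ v, RA G (Kw K z0) a0 v → ¬ RA G (Kw K z1) a1 v)
    (d02 : ∀ v, RA G (Kw K z0) a0 v → ¬ RA G (Kw K z2) a2 v)
    (d12 : ∀ v, RA G (Kw K z1) a1 v → ¬ RA G (Kw K z2) a2 v)
    (e01 : ¬ RA G (Kw K z1) a1 z0) (e02 : ¬ RA G (Kw K z2) a2 z0)
    (e10 : ¬ RA G (Kw K z0) a0 z1) (e12 : ¬ RA G (Kw K z2) a2 z1)
    (e20 : ¬ RA G (Kw K z0) a0 z2) (e21 : ¬ RA G (Kw K z1) a1 z2) : False := by
  refine claw0 hQ hclaw ![z0, z1, z2] ![a0, a1, a2] ?_ ?_ ?_ ?_ ?_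
  · intro i; fin_cases i <;> assumption
  · intro i; fin_cases i <;> assumption
  · intro i; fin_cases i <;> assumption
  · intro i j hij v hv hv'
    fin_cases i <;> fin_cases j
    · exact hij rfl
    · exact d01 v hv hv'
    · exact d02 v hv hv'
    · exact d01 v hv' hv
    · exact hij rfl
    · exact d12 v hv hv'
    · exact d02 v hv' hv
    · exact d12 v hv' hv
    · exact hij rfl
  · intro i j hv
    fin_cases i <;> fin_cases j
    · exact hv.right.2 rfl
    · exact e01 hv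
    · exact e02 hv
    · exact e10 hv
    · exact hv.right.2 rfl
    · exact e12 hv
    · exact e20 hv
    · exact e21 hv
    · exact hv.right.2 rfl

theorem even_claw (hQ : Q ⊆ K) (hclaw : NC G K Q) {p q w m : V} (hp : p ∈ Q) (hq : q ∈ Q)
    (hm : m ∈ Q) (h : Sep G K p q w) (hmw : m ≠ w) (h1 : ¬ RA G (Kw K w) p m)
    (h2 : ¬ RA G (Kw K w) q m) : False :=
  claw3 hQ hclaw h.1 h.1 h.1 hp hq hm h.2.2.2.1 h.2.2.2.2.1 hmw
    (fun _ hv hv' => h.2.2.2.2.2 (RA.trans hv hv'.symm))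
    (fun _ hv hv' => h1 (RA.trans hv hv'.symm))
    (fun _ hv hv' => h2 (RA.trans hv hv'.symm))
    (fun h => h.right.2 rfl) (fun h => h.right.2 rfl) (fun h => h.right.2 rfl)
    (fun h => h.right.2 rfl) (fun h => h.right.2 rfl) (fun h => h.right.2 rfl)

theorem mid_claw (hK : Conn G (K : Set V)) (hQ : Q ⊆ K) (hclaw : NC G K Q) {p q w w' m z : V}
    (hp : p ∈ Q) (hq : q ∈ Q) (hm : m ∈ Q) (h : Sep G K p q w) (h' : Sep G K p q w')
    (hw' : RA G (Kw K w) q w') (hwz : RA G (Kw K w) q z) (hw'z : RA G (Kw K w') p z)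
    (hzpq : RA G (Kw K z) p q) (hmz : m ≠ z) (hpm : ¬ RA G (Kw K z) p m) : False := by
  have hpw' : RA G (Kw K w') p w := F2 hK h hw' h.1 (fun h => h.right.2 rfl)
  have hA : ∀ v, RA G (Kw K w) p v → ¬ RA G (Kw K w) q v :=
    fun v hv hv' => h.2.2.2.2.2 (RA.trans hv hv'.symm)
  have hA' : ∀ v, RA G (Kw K w') p v → ¬ RA G (Kw K w') q v :=
    fun v hv hv' => h'.2.2.2.2.2 (RA.trans hv hv'.symm)
  have hqm : ¬ RA G (Kw K z) q m := fun h => hpm (hzpq.trans h)
  refine claw3 hQ hclaw h.1 h'.1 (RA.right hwz).1 hp hq hm h.2.2.2.1 h'.2.2.2.2.1 hmz ?_ ?_ ?_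
    (hA' w hpw') ?_ (fun hh => hA _ hh hw') ?_ (fun hh => hA _ hh hwz) (hA' z hw'z)
  · intro v hv hv'
    exact hA' v (F2 hK h hw' hv.right.1 (hA v hv)) hv'
  · intro v hv hv'
    exact hpm ((F2 hK h hwz hv.right.1 (hA v hv)).trans hv'.symm)
  · intro v hv hv'
    have : RA G (Kw K z) q v := F2 hK h'.symm hw'z hv.right.1 (fun hh => hA' v hh hv)
    exact hqm (this.trans hv'.symm)
  · intro hh
    exact hpm ((F2 hK h hwz h.1 (fun h => h.right.2 rfl)).trans hh.symm)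
  · intro hh
    have : RA G (Kw K z) q w' := F2 hK h'.symm hw'z h'.1 (fun h => h.right.2 rfl)
    exact hqm (this.trans hh.symm)

theorem ends1 {p q m z : V} (hall : ∀ w, Sep G K p q w → RA G (Kw K w) p m)
    (hzW : ¬ Sep G K p q z) (hs : Sep G K m q z) :
    (WW G K p q).card < (WW G K m q).card := by
  refine Finset.card_lt_card ⟨?_, ?_⟩
  · intro w hw
    rw [mem_WW] at hw ⊢
    exact ⟨hw.1, hs.2.1, hw.2.2.1, (hall w hw).right.2, hw.2.2.2.2.1,
      fun h => hw.2.2.2.2.2 ((hall w hw).trans h)⟩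
  · intro hsub
    exact hzW (mem_WW.1 (hsub (mem_WW.2 hs)))

theorem ends2 {p q m m' z : V} (hW : ∃ w, Sep G K p q w) (hq : q ∈ K)
    (hall : ∀ w, Sep G K p q w → RA G (Kw K w) p m ∧ RA G (Kw K w) p m')
    (hzW : ¬ Sep G K p q z) (hs : Sep G K m m' z) :
    (WW G K p q).card < (WW G K m q).card ∨ (WW G K p q).card < (WW G K m' q).card := by
  obtain ⟨w, hw⟩ := hW
  have hqz : q ≠ z := by
    intro h
    subst h
    exact hs.2.2.2.2.2 (avoid (hall w hw).1 (hall w hw).2 hw.2.2.2.2.2)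
  by_cases h1 : RA G (Kw K z) m q
  · right
    refine ends1 (fun w hw => (hall w hw).2) hzW ⟨hs.1, hs.2.2.1, hq, hs.2.2.2.2.1, hqz, fun h => ?_⟩
    exact hs.2.2.2.2.2 (h1.trans h.symm)
  · left
    exact ends1 (fun w hw => (hall w hw).1) hzW ⟨hs.1, hs.2.1, hq, hs.2.2.2.1, hqz, h1⟩

theorem WW_comm {p q : V} : WW G K p q = WW G K q p := by
  ext w
  rw [mem_WW, mem_WW]
  exact ⟨fun h => h.symm, fun h => h.symm⟩

theorem odd_class (hK : Conn G (K : Set V)) (hQ : Q ⊆ K) (hclaw : NC G K Q) {p q m m' z : V}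
    (hp : p ∈ Q) (hq : q ∈ Q)
    (hmax : ∀ a ∈ Q, ∀ b ∈ Q, (WW G K a b).card ≤ (WW G K p q).card)
    (hW : ∃ w, Sep G K p q w) (hm : m ∈ Q) (hm' : m' ∈ Q) (hmz : m ≠ z) (hm'z : m' ≠ z)
    (hodd : ∀ w, Sep G K p q w → (RA G (Kw K w) p m ∧ RA G (Kw K w) p m') ∨
      (RA G (Kw K w) q m ∧ RA G (Kw K w) q m')) : RA G (Kw K z) m m' := by
  by_contra hcon
  have hs : Sep G K m m' z := by
    by_contra h
    exact hcon (not_sep hK (hQ hm) (hQ hm') hmz hm'z h)
  have hzW : ¬ Sep G K p q z := by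
    intro h
    rcases hodd z h with ⟨h1, h2⟩ | ⟨h1, h2⟩
    · exact hcon (h1.symm.trans h2)
    · exact hcon (h1.symm.trans h2)
  by_cases hallp : ∀ w, Sep G K p q w → RA G (Kw K w) p m ∧ RA G (Kw K w) p m'
  · rcases ends2 hW (hQ hq) hallp hzW hs with h | h
    · exact absurd (hmax m hm q hq) (by omega)
    · exact absurd (hmax m' hm' q hq) (by omega)
  by_cases hallq : ∀ w, Sep G K p q w → RA G (Kw K w) q m ∧ RA G (Kw K w) q m'
  · have hW' : ∃ w, Sep G K q p w := by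
      obtain ⟨w, hw⟩ := hW
      exact ⟨w, hw.symm⟩
    have e : (WW G K q p).card = (WW G K p q).card := by rw [WW_comm]
    rcases ends2 hW' (hQ hp) (fun w hw => hallq w hw.symm) (fun h => hzW h.symm) hs with h | h
    · exact absurd (hmax m hm p hp) (by omega)
    · exact absurd (hmax m' hm' p hp) (by omega)
  push Not at hallp hallq
  obtain ⟨w, hw, hw1⟩ := hallp
  obtain ⟨w', hw', hw'1⟩ := hallq
  have hwq : RA G (Kw K w) q m ∧ RA G (Kw K w) q m' := by
    rcases hodd w hw with h | h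
    · exact absurd h.2 (hw1 h.1)
    · exact h
  have hw'p : RA G (Kw K w') p m ∧ RA G (Kw K w') p m' := by
    rcases hodd w' hw' with h | h
    · exact h
    · exact absurd h.2 (hw'1 h.1)
  have hwz : RA G (Kw K w) q z := by
    by_contra h
    exact hcon (avoid hwq.1 hwq.2 h)
  have hw'z : RA G (Kw K w') p z := by
    by_contra h
    exact hcon (avoid hw'p.1 hw'p.2 h)
  have hpz : p ≠ z := by
    intro h
    subst h
    exact hw.2.2.2.2.2 hwz.symm
  have hqz : q ≠ z := by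
    intro h
    subst h
    exact hw'.2.2.2.2.2 hw'z
  have hzpq : RA G (Kw K z) p q := not_sep hK (hQ hp) (hQ hq) hpz hqz hzW
  have hne : w' ≠ w := by
    intro h
    subst h
    exact hw.2.2.2.2.2 (hw'z.trans hwz.symm)
  have hw'' : RA G (Kw K w) q w' := by
    rcases F1 hK hw hw' hne with h | h
    · exfalso
      have hz' : RA G (Kw K w') q z := F2 hK hw.symm h hwz.right.1
        (fun hh => hw.2.2.2.2.2 (hh.trans hwz.symm))
      exact hw'.2.2.2.2.2 (hw'z.trans hz'.symm)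
    · exact h
  by_cases hpm : RA G (Kw K z) p m
  · exact mid_claw hK hQ hclaw hp hq hm' hw hw' hw'' hwz hw'z hzpq hm'z
      (fun h => hcon (hpm.symm.trans h))
  · exact mid_claw hK hQ hclaw hp hq hm hw hw' hw'' hwz hw'z hzpq hmz hpm

end fin

end

end W_CHAINL

open W_CHAINL in
theorem CHAINL {V : Type} [Fintype V] [DecidableEq V] (G : SimpleGraph V) (K Q : Finset V) (hK : Conn G (K : Set V)) (hQ : Q ⊆ K)
    (hclaw : ¬ ∃ (D : Fin 3 → Finset V) (z : Fin 3 → V), (∀ i, D i ⊆ K) ∧ (∀ i j, i ≠ j → Disjoint (D i) (D j)) ∧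
      (∀ i, z i ∈ K) ∧ (∀ i j, z i ∉ D j) ∧ (∀ i, Conn G (D i : Set V)) ∧
      (∀ i, ∀ u ∈ D i, ∀ v ∈ K, G.Adj u v → v ∈ D i ∨ v = z i) ∧ (∀ i, (D i ∩ Q).Nonempty))
    (hthick : ¬ ∃ Q' : Finset V, Q' ⊆ Q ∧ 9 ≤ Q'.card ∧ ∀ w, ∀ q ∈ Q', ∀ q' ∈ Q', q ≠ w → q' ≠ w →
      Relation.ReflTransGen (fun x y => G.Adj x y ∧ y ∈ K ∧ y ≠ w) q q') :
    ∃ (s : ℕ) (w : ℕ → V) (r : V → ℕ),
      (∀ v ∈ K, 1 ≤ r v ∧ r v ≤ 2 * s + 1) ∧ (∀ i, 1 ≤ i → i ≤ s → w i ∈ K ∧ r (w i) = 2 * i) ∧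
      (∀ u ∈ K, ∀ v ∈ K, G.Adj u v → r u ≤ r v + 1 ∨ ∃ i, 1 ≤ i ∧ i + 1 ≤ s ∧ v = w i ∧ u = w (i + 1)) ∧
      (∀ u ∈ K, ∀ v ∈ K, ∀ i, G.Adj u v → r u = 2 * i → r v ≠ 2 * i → u = w i) ∧
      (∀ i, 1 ≤ i → i ≤ s → Conn G {v | v ∈ K ∧ r v < 2 * i}) ∧
      (∀ i, 1 ≤ i → i ≤ s → Conn G {v | v ∈ K ∧ 2 * i < r v}) ∧
      (∀ i, 1 ≤ i → i ≤ s → Conn G {v | v ∈ K ∧ r v = 2 * i}) ∧
      (∀ k, (Q.filter (fun v => r v = k)).card ≤ 8) := by
  classical
  have hNC : NC G K Q := by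
    rintro ⟨D, z, h1, h2, h3, h4, h5, h6, h7⟩
    refine hclaw ⟨D, z, h1, h2, h3, h4, h5, h6, fun i => ?_⟩
    obtain ⟨a, ha, ha'⟩ := h7 i
    exact ⟨a, Finset.mem_inter.2 ⟨ha, ha'⟩⟩
  have hth : ∀ Q' : Finset V, Q' ⊆ Q → (∀ w, ∀ q ∈ Q', ∀ q' ∈ Q', q ≠ w → q' ≠ w →
      RA G (Kw K w) q q') → Q'.card ≤ 8 := by
    intro Q' hQ' h
    by_contra hc
    exact hthick ⟨Q', hQ', by omega, fun w q hq q' hq' h1 h2 => (h w q hq q' hq' h1 h2).2⟩
  by_cases hsep : ∃ a ∈ Q, ∃ b ∈ Q, ∃ w, Sep G K a b w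
  swap
  · obtain ⟨v₀, hv₀⟩ := hK.1
    refine ⟨0, fun _ => v₀, fun _ => 1, fun v hv => ⟨le_rfl, le_rfl⟩, fun i h1 h2 => by omega,
      fun u hu v hv _ => Or.inl (by show 1 ≤ 1 + 1; omega), fun u hu v hv i _ h1 _ => absurd (show 1 = 2 * i from h1) (by omega), fun i h1 h2 => by omega,
      fun i h1 h2 => by omega, fun i h1 h2 => by omega, fun k => ?_⟩
    refine hth _ (Finset.filter_subset _ _) ?_
    intro w q hq q' hq' hqw hq'w
    have hq1 := (Finset.mem_filter.1 hq).1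
    have hq2 := (Finset.mem_filter.1 hq').1
    exact not_sep hK (hQ hq1) (hQ hq2) hqw hq'w (fun h => hsep ⟨q, hq1, q', hq2, w, h⟩)
  obtain ⟨a, ha, b, hb, w₀, hw₀⟩ := hsep
  obtain ⟨⟨p, q⟩, hpq, hmax'⟩ := Finset.exists_max_image (Q ×ˢ Q)
    (fun x => (WW G K x.1 x.2).card) ⟨(a, b), Finset.mem_product.2 ⟨ha, hb⟩⟩
  rw [Finset.mem_product] at hpq
  obtain ⟨hp, hq⟩ := hpq
  simp only at hp hq
  have hmax : ∀ a ∈ Q, ∀ b ∈ Q, (WW G K a b).card ≤ (WW G K p q).card :=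
    fun a ha b hb => hmax' (a, b) (Finset.mem_product.2 ⟨ha, hb⟩)
  have hW : ∃ w, Sep G K p q w := by
    have h1 : 0 < (WW G K a b).card := Finset.card_pos.2 ⟨w₀, mem_WW.2 hw₀⟩
    obtain ⟨w, hw⟩ := Finset.card_pos.1 (h1.trans_le (hmax a ha b hb))
    exact ⟨w, mem_WW.1 hw⟩
  have hex : ∀ i, ∃ w, 1 ≤ i → i ≤ (WW G K p q).card → Sep G K p q w ∧ rr G K p q w = 2 * i := by
    intro i
    by_cases h : 1 ≤ i ∧ i ≤ (WW G K p q).card
    · obtain ⟨w, hw⟩ := rr_surj hK i h.1 h.2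
      exact ⟨w, fun _ _ => hw⟩
    · exact ⟨p, fun h1 h2 => absurd ⟨h1, h2⟩ h⟩
  choose w hw using hex
  have hbd : ∀ v, ∀ i, rr G K p q v = 2 * i → 1 ≤ i ∧ i ≤ (WW G K p q).card := by
    intro v i h
    have h1 := rr_le (G := G) (K := K) (p := p) (q := q) v
    have h2 := rr_ge (G := G) (K := K) (p := p) (q := q) v
    omega
  refine ⟨(WW G K p q).card, w, rr G K p q, fun v hv => ⟨rr_ge v, rr_le v⟩,
    fun i h1 h2 => ⟨(hw i h1 h2).1.1, (hw i h1 h2).2⟩, ?_, ?_, ?_, ?_, ?_, ?_⟩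
  · intro u hu v hv hadj
    have h1 := rr_adj (p := p) (q := q) hu hv hadj
    by_cases hu' : u ∈ WW G K p q
    · by_cases hv' : v ∈ WW G K p q
      · rw [if_pos hu', if_pos hv'] at h1
        obtain ⟨t, ht⟩ := rr_even hK (mem_WW.1 hu')
        obtain ⟨t', ht'⟩ := rr_even hK (mem_WW.1 hv')
        by_cases hle : rr G K p q u ≤ rr G K p q v + 1
        · exact Or.inl hle
        · right
          have h2 := hbd u (t' + 1) (by omega)
          have h3 := hbd v t' (by omega)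
          refine ⟨t', h3.1, h2.2, ?_, ?_⟩
          · exact rr_inj hK (hw t' h3.1 h3.2).1 (mem_WW.1 hv') (by
              rw [(hw t' h3.1 h3.2).2]; omega)
          · exact rr_inj hK (hw (t' + 1) h2.1 h2.2).1 (mem_WW.1 hu') (by
              rw [(hw (t' + 1) h2.1 h2.2).2]; omega)
      · rw [if_pos hu', if_neg hv'] at h1
        exact Or.inl (by omega)
    · rw [if_neg hu'] at h1
      split_ifs at h1 <;> exact Or.inl (by omega)
  · intro u hu v hv i hadj h1 h2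
    obtain ⟨hi1, hi2⟩ := hbd u i h1
    obtain ⟨hs, hr⟩ := hw i hi1 hi2
    by_contra hne
    have hu1 : rr G K p q u = rr G K p q (w i) := by rw [h1, hr]
    have hu2 := (rr_eq_iff hK hs hu).1 hu1
    have hvw : v ≠ w i := by
      intro h
      rw [h, hr] at h2
      exact h2 rfl
    have huv : RA G (Kw K (w i)) u v := RA.of_adj ⟨hu, hne⟩ ⟨hv, hvw⟩ hadj
    have hv1 : rr G K p q v = rr G K p q (w i) := (rr_eq_iff hK hs hv).2
      ⟨fun h => hu2.1 (h.trans huv.symm), fun h => hu2.2 (h.trans huv.symm)⟩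
    exact h2 (by rw [hv1, hr])
  · intro i hi1 hi2
    obtain ⟨hs, hr⟩ := hw i hi1 hi2
    have : {v | v ∈ K ∧ rr G K p q v < 2 * i} = {v | RA G (Kw K (w i)) p v} := by
      ext v
      constructor
      · rintro ⟨h1, h2⟩
        rw [← hr] at h2
        exact (rr_lt_iff hK hs h1).1 h2
      · intro h
        refine ⟨(RA.right h).1, ?_⟩
        rw [← hr]
        exact rr_p hK hs h
    rw [this]
    exact RA_conn ⟨hQ hp, hs.2.2.2.1⟩
  · intro i hi1 hi2
    obtain ⟨hs, hr⟩ := hw i hi1 hi2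
    have : {v | v ∈ K ∧ 2 * i < rr G K p q v} = {v | RA G (Kw K (w i)) q v} := by
      ext v
      constructor
      · rintro ⟨h1, h2⟩
        rw [← hr] at h2
        exact (rr_gt_iff hK hs h1).1 h2
      · intro h
        refine ⟨(RA.right h).1, ?_⟩
        rw [← hr]
        exact rr_q hK hs h
    rw [this]
    exact RA_conn ⟨hQ hq, hs.2.2.2.2.1⟩
  · intro i hi1 hi2
    obtain ⟨hs, hr⟩ := hw i hi1 hi2
    refine conn_closed hK (w := w i) _ (fun v hv => hv.1) ⟨hs.1, hr⟩ ?_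
    rintro x ⟨hx, hx'⟩ hxw x' hxK hx'w hadj
    refine ⟨hxK, ?_⟩
    rw [← hr] at hx' ⊢
    have h1 := (rr_eq_iff hK hs hx).1 hx'
    have h2 : RA G (Kw K (w i)) x' x := RA.of_adj ⟨hxK, hx'w⟩ ⟨hx, hxw⟩ hadj.symm
    exact (rr_eq_iff hK hs hxK).2 ⟨fun h => h1.1 (h.trans h2), fun h => h1.2 (h.trans h2)⟩
  · intro k
    rcases Nat.even_or_odd' k with ⟨i, rfl | rfl⟩
    · by_cases hi : 1 ≤ i ∧ i ≤ (WW G K p q).card
      · obtain ⟨hs, hr⟩ := hw i hi.1 hi.2
        have hsub : Q.filter (fun v => rr G K p q v = 2 * i) ⊆ {w i} := by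
          intro m hm
          rw [Finset.mem_filter] at hm
          rw [Finset.mem_singleton]
          by_contra hne
          have h1 := (rr_eq_iff hK hs (hQ hm.1)).1 (by rw [hm.2, hr])
          exact even_claw hQ hNC hp hq hm.1 hs hne h1.1 h1.2
        have := Finset.card_le_card hsub
        rw [Finset.card_singleton] at this
        omega
      · have : Q.filter (fun v => rr G K p q v = 2 * i) = ∅ := by
          rw [Finset.filter_eq_empty_iff]
          intro v _ h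
          exact hi (hbd v i h)
        rw [this, Finset.card_empty]
        omega
    · refine hth _ (Finset.filter_subset _ _) ?_
      intro z m hm m' hm' hmz hm'z
      rw [Finset.mem_filter] at hm hm'
      refine odd_class hK hQ hNC hp hq hmax hW hm.1 hm'.1 hmz hm'z ?_
      intro w' hw'
      obtain ⟨t, ht⟩ := rr_even hK hw'
      rcases Nat.lt_or_ge (rr G K p q m) (rr G K p q w') with h | h
      · left
        exact ⟨(rr_lt_iff hK hw' (hQ hm.1)).1 h, (rr_lt_iff hK hw' (hQ hm'.1)).1 (by omega)⟩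
      · right
        exact ⟨(rr_gt_iff hK hw' (hQ hm.1)).1 (by omega), (rr_gt_iff hK hw' (hQ hm'.1)).1 (by omega)⟩


end Pool.Agent.H891WLC
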