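import Pool.Agent.H891WLC.Defs
import Pool.Agent.H891WLC.tri_conn3
import Pool.Agent.H891WLC.CLUS_ADJ
import Pool.Agent.H891WLC.CLUS_CONN

set_option autoImplicit false

namespace Pool.Agent.H891WLC

namespace W_CHQ


theorem sym {V : Type} (G : SimpleGraph V) (A : Set V) {u v : V} (hu : u ∈ A)
    (h : Relation.ReflTransGen (fun x y => G.Adj x y ∧ y ∈ A) u v) :
    Relation.ReflTransGen (fun x y => G.Adj x y ∧ y ∈ A) v u ∧ v ∈ A := by
  induction h with
  | refl => exact ⟨Relation.ReflTransGen.refl, hu⟩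
  | tail _ hbc ih => exact ⟨Relation.ReflTransGen.head ⟨hbc.1.symm, ih.2⟩ ih.1, hbc.2⟩

theorem mono {V : Type} (G : SimpleGraph V) (A B : Set V) (hAB : A ⊆ B) {u v : V}
    (h : Relation.ReflTransGen (fun x y => G.Adj x y ∧ y ∈ A) u v) :
    Relation.ReflTransGen (fun x y => G.Adj x y ∧ y ∈ B) u v := by
  induction h with
  | refl => exact Relation.ReflTransGen.refl
  | tail _ hbc ih => exact Relation.ReflTransGen.tail ih ⟨hbc.1, hAB hbc.2⟩

/-- a class with a hub -/
theorem hub {V : Type} (G : SimpleGraph V) (B : Set V) (z : V) (hz : z ∈ B)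
    (h : ∀ u ∈ B, Relation.ReflTransGen (fun x y => G.Adj x y ∧ y ∈ B) u z) : Conn G B := by
  refine ⟨⟨z, hz⟩, fun u hu v hv => ?_⟩
  exact (h u hu).trans (sym G B hv (h v hv)).1

/-- leaving a set through its only exit -/
theorem exit {V : Type} (G : SimpleGraph V) (K A : Set V) (z : V)
    (hn : ∀ u ∈ A, ∀ v ∈ K, G.Adj u v → v ∈ A ∨ v = z) {u v : V}
    (h : Relation.ReflTransGen (fun x y => G.Adj x y ∧ y ∈ K) u v) (hu : u ∈ A) (hv : v ∉ A) :
    ∃ a ∈ A, G.Adj z a := by
  induction h with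
  | refl => exact absurd hu hv
  | @tail b c _ hbc ih =>
    by_cases hb : b ∈ A
    · rcases hn b hb c hbc.2 hbc.1 with h1 | h1
      · exact absurd h1 hv
      · exact ⟨b, hb, h1 ▸ hbc.1.symm⟩
    · exact ih hb

/-- a cut vertex of `K` has a neighbour outside `K` -/
theorem cutv {V : Type} (T : Tri V) (K A C : Set V) (z : V) (hA : A ⊆ K) (hC : C ⊆ K) (hzK : z ∈ K)
    (hzA : z ∉ A) (hzC : z ∉ C) (hd : Disjoint A C) (hK : Conn T.G K)
    (hA0 : A.Nonempty) (hC0 : C.Nonempty)
    (hnA : ∀ u ∈ A, ∀ v ∈ K, T.G.Adj u v → v ∈ A ∨ v = z)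
    (hnC : ∀ u ∈ C, ∀ v ∈ K, T.G.Adj u v → v ∈ C ∨ v = z) :
    ∃ v, v ∉ K ∧ T.G.Adj z v := by
  by_contra hcon
  push Not at hcon
  obtain ⟨a₀, ha₀⟩ := hA0
  obtain ⟨c₀, hc₀⟩ := hC0
  obtain ⟨a, ha, haz⟩ := exit T.G K A z hnA (hK.2 a₀ (hA ha₀) z hzK) ha₀ hzA
  obtain ⟨c, hc, hcz⟩ := exit T.G K C z hnC (hK.2 c₀ (hC hc₀) z hzK) hc₀ hzC
  obtain ⟨a', ha'⟩ := haz
  obtain ⟨c', hc'⟩ := hcz
  have hl := T.link z a a' c c' ha' hc'
  have key : ∀ x, Relation.ReflTransGen (fun x y => T.F z x y) a x → x ∈ A := by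
    intro x hx
    induction hx with
    | refl => exact ha
    | @tail b d _ hbd ih =>
      have h1 : T.G.Adj b d := ⟨z, T.rot _ _ _ hbd⟩
      have h2 : T.F d z b := T.rot _ _ _ (T.rot _ _ _ hbd)
      have h3 : T.G.Adj d z := ⟨b, h2⟩
      have hdK : d ∈ K := by
        by_contra hd
        exact hcon d hd h3.symm
      rcases hnA b ih d hdK h1 with h4 | h4
      · exact h4
      · exact absurd h4 (T.ne d z b h2)
  exact Set.disjoint_left.mp hd (key c hl) hc

theorem twocl {V W : Type} (T : Tri V) (π : V → W) (w₀ y₀ : W) (hy : y₀ ≠ w₀) (A : Set V)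
    (h : ¬ ∃ y, y ≠ w₀ ∧ ∀ u ∈ A, ∀ v, π v ≠ w₀ → T.G.Adj u v → π v = y) :
    ∃ w₁ w₂, w₁ ≠ w₂ ∧ w₁ ≠ w₀ ∧ w₂ ≠ w₀ ∧ AdjS T.G A (π ⁻¹' {w₁}) ∧ AdjS T.G A (π ⁻¹' {w₂}) := by
  have h1 : ∀ y, y ≠ w₀ → ∃ u ∈ A, ∃ v, π v ≠ w₀ ∧ T.G.Adj u v ∧ π v ≠ y := by
    intro y hy
    by_contra hc
    push Not at hc
    exact h ⟨y, hy, fun u hu v hv huv => hc u hu v hv huv⟩
  obtain ⟨u, hu, v, hv, huv, _⟩ := h1 y₀ hy
  obtain ⟨u', hu', v', hv', huv', hne⟩ := h1 (π v) hv
  exact ⟨π v, π v', hne.symm, hv, hv', ⟨u, hu, v, rfl, huv⟩, ⟨u', hu', v', rfl, huv'⟩⟩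

end W_CHQ

open W_CHQ in
theorem CHQ {V W : Type} [Fintype V] [Fintype W] [DecidableEq V] [DecidableEq W] (T : Tri V) (T' : Tri W) (π : V → W)
    (hp : Clus T T' π) (w₀ : W) (K Q : Finset V) (hKw : ∀ v, v ∈ K ↔ π v = w₀) (hQ : Q ⊆ K)
    (s : ℕ) (w : ℕ → V) (r : V → ℕ)
    (hr1 : ∀ v ∈ K, 1 ≤ r v ∧ r v ≤ 2 * s + 1) (hr2 : ∀ i, 1 ≤ i → i ≤ s → w i ∈ K ∧ r (w i) = 2 * i)
    (hr3 : ∀ u ∈ K, ∀ v ∈ K, T.G.Adj u v → r u ≤ r v + 1 ∨ ∃ i, 1 ≤ i ∧ i + 1 ≤ s ∧ v = w i ∧ u = w (i + 1))
    (hr4 : ∀ u ∈ K, ∀ v ∈ K, ∀ i, T.G.Adj u v → r u = 2 * i → r v ≠ 2 * i → u = w i)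
    (hr5 : ∀ i, 1 ≤ i → i ≤ s → Conn T.G {v | v ∈ K ∧ r v < 2 * i})
    (hr6 : ∀ i, 1 ≤ i → i ≤ s → Conn T.G {v | v ∈ K ∧ 2 * i < r v})
    (hr7 : ∀ i, 1 ≤ i → i ≤ s → Conn T.G {v | v ∈ K ∧ r v = 2 * i})
    (hr8 : ∀ k, (Q.filter (fun v => r v = k)).card ≤ 8)
    (hpocket : ∀ (A : Finset V) (z : V) (y : W), A ⊆ K → z ∈ K → z ∉ A → y ≠ w₀ → Conn T.G (A : Set V) →
      (∀ u ∈ A, ∀ v ∈ K, T.G.Adj u v → v ∈ A ∨ v = z) → (∀ u ∈ A, ∀ v, v ∉ K → T.G.Adj u v → π v = y) →
      (A ∩ Q).card ≤ 8) :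
    (Q.card ≤ 40) ∨ ∃ (s' : ℕ) (q : V → ℕ), 1 ≤ s' ∧ (∀ v ∈ K, q v ≤ s' + 1) ∧
      (∀ k, k ≤ s' + 1 → Conn T.G {v | v ∈ K ∧ q v = k}) ∧ (∀ u ∈ K, ∀ v ∈ K, T.G.Adj u v → q u ≤ q v + 1) ∧
      (∃ w₁ w₂, w₁ ≠ w₂ ∧ w₁ ≠ w₀ ∧ w₂ ≠ w₀ ∧ AdjS T.G {v | v ∈ K ∧ q v = 0} (π ⁻¹' {w₁}) ∧
        AdjS T.G {v | v ∈ K ∧ q v = 0} (π ⁻¹' {w₂})) ∧
      (∃ w₁ w₂, w₁ ≠ w₂ ∧ w₁ ≠ w₀ ∧ w₂ ≠ w₀ ∧ AdjS T.G {v | v ∈ K ∧ q v = s' + 1} (π ⁻¹' {w₁}) ∧
        AdjS T.G {v | v ∈ K ∧ q v = s' + 1} (π ⁻¹' {w₂})) ∧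
      (∀ k, 1 ≤ k → k ≤ s' → ∃ w₁, w₁ ≠ w₀ ∧ AdjS T.G {v | v ∈ K ∧ q v = k} (π ⁻¹' {w₁})) ∧
      (∀ k, (Q.filter (fun v => q v = k)).card ≤ 25) := by
  classical
  -- another cluster
  obtain ⟨y₀, hy₀⟩ : ∃ y₀ : W, y₀ ≠ w₀ := by
    obtain ⟨⟨y, hy⟩, _⟩ := tri_conn3 T' w₀ w₀
    exact ⟨y, fun h => hy (by rw [h]; exact Set.mem_insert _ _)⟩
  have hKc : Conn T.G {v | v ∈ K} := by
    have h1 := hp.1 w₀
    have h2 : π ⁻¹' {w₀} = {v | v ∈ K} := by
      ext v
      exact (hKw v).symm
    rwa [h2] at h1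
  have hnK : ∀ v, v ∉ K ↔ π v ≠ w₀ := fun v => not_congr (hKw v)
  -- neighbours of the lower and upper parts
  have hnA : ∀ i, ∀ u ∈ K, r u < 2 * i → ∀ v ∈ K, T.G.Adj u v → r v < 2 * i ∨ v = w i := by
    intro i u hu hru v hv huv
    by_cases h : r v < 2 * i
    · exact Or.inl h
    · right
      rcases hr3 v hv u hu huv.symm with h1 | ⟨j, hj1, hj2, hju, hjv⟩
      · exact hr4 v hv u hu i huv.symm (by omega) (by omega)
      · have e1 := (hr2 j hj1 (by omega)).2
        have e2 := (hr2 (j + 1) (by omega) hj2).2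
        rw [← hju] at e1
        rw [← hjv] at e2
        have : i = j + 1 := by omega
        rw [this]; exact hjv
  have hnC : ∀ i, ∀ u ∈ K, 2 * i < r u → ∀ v ∈ K, T.G.Adj u v → 2 * i < r v ∨ v = w i := by
    intro i u hu hru v hv huv
    by_cases h : 2 * i < r v
    · exact Or.inl h
    · right
      rcases hr3 u hu v hv huv with h1 | ⟨j, hj1, hj2, hjv, hju⟩
      · exact hr4 v hv u hu i huv.symm (by omega) (by omega)
      · have e1 := (hr2 j hj1 (by omega)).2
        have e2 := (hr2 (j + 1) (by omega) hj2).2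
        rw [← hjv] at e1
        rw [← hju] at e2
        have : i = j := by omega
        rw [this]; exact hjv
  -- single
  let sA : ℕ → Prop := fun i => ∃ y, y ≠ w₀ ∧ ∀ u ∈ {v | v ∈ K ∧ r v < 2 * i}, ∀ v, π v ≠ w₀ →
    T.G.Adj u v → π v = y
  let sC : ℕ → Prop := fun i => ∃ y, y ≠ w₀ ∧ ∀ u ∈ {v | v ∈ K ∧ 2 * i < r v}, ∀ v, π v ≠ w₀ →
    T.G.Adj u v → π v = y
  have hcA : ∀ i, i ≤ s → (i = 0 ∨ sA i) → (Q.filter (fun v => r v < 2 * i)).card ≤ 8 := by
    intro i his hi
    rcases Nat.eq_zero_or_pos i with h0 | h0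
    · subst h0
      have : Q.filter (fun v => r v < 2 * 0) = ∅ := by
        apply Finset.filter_false_of_mem
        intro v _
        omega
      rw [this]
      simp
    · obtain ⟨y, hy, hsy⟩ := hi.resolve_left (by omega)
      have h1 := hpocket (K.filter (fun v => r v < 2 * i)) (w i) y (Finset.filter_subset _ _)
        (hr2 i h0 his).1 (by
          intro h
          have := (Finset.mem_filter.mp h).2
          have h2 := (hr2 i h0 his).2
          omega) hy (by
          have h2 := hr5 i h0 his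
          have h3 : ((K.filter (fun v => r v < 2 * i) : Finset V) : Set V) =
            {v | v ∈ K ∧ r v < 2 * i} := by
            ext v
            simp
          rw [h3]
          exact h2) (by
          intro u hu v hv huv
          rw [Finset.mem_filter] at hu ⊢
          rcases hnA i u hu.1 hu.2 v hv huv with h2 | h2
          · exact Or.inl ⟨hv, h2⟩
          · exact Or.inr h2) (by
          intro u hu v hv huv
          exact hsy u (Finset.mem_filter.mp hu) v ((hnK v).mp hv) huv)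
      refine le_trans (Finset.card_le_card ?_) h1
      intro v hv
      rw [Finset.mem_filter] at hv
      rw [Finset.mem_inter, Finset.mem_filter]
      exact ⟨⟨hQ hv.1, hv.2⟩, hv.1⟩
  have hcC : ∀ i, 1 ≤ i → (s + 1 ≤ i ∨ sC i) → (Q.filter (fun v => 2 * i < r v)).card ≤ 8 := by
    intro i h0 hi
    by_cases his : s + 1 ≤ i
    · have : Q.filter (fun v => 2 * i < r v) = ∅ := by
        apply Finset.filter_false_of_mem
        intro v hv
        have := (hr1 v (hQ hv)).2
        omega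
      rw [this]
      simp
    · obtain ⟨y, hy, hsy⟩ := hi.resolve_left his
      have his' : i ≤ s := by omega
      have h1 := hpocket (K.filter (fun v => 2 * i < r v)) (w i) y (Finset.filter_subset _ _)
        (hr2 i h0 his').1 (by
          intro h
          have := (Finset.mem_filter.mp h).2
          have h2 := (hr2 i h0 his').2
          omega) hy (by
          have h2 := hr6 i h0 his'
          have h3 : ((K.filter (fun v => 2 * i < r v) : Finset V) : Set V) =
            {v | v ∈ K ∧ 2 * i < r v} := by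
            ext v
            simp
          rw [h3]
          exact h2) (by
          intro u hu v hv huv
          rw [Finset.mem_filter] at hu ⊢
          rcases hnC i u hu.1 hu.2 v hv huv with h2 | h2
          · exact Or.inl ⟨hv, h2⟩
          · exact Or.inr h2) (by
          intro u hu v hv huv
          exact hsy u (Finset.mem_filter.mp hu) v ((hnK v).mp hv) huv)
      refine le_trans (Finset.card_le_card ?_) h1
      intro v hv
      rw [Finset.mem_filter] at hv
      rw [Finset.mem_inter, Finset.mem_filter]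
      exact ⟨⟨hQ hv.1, hv.2⟩, hv.1⟩
  -- the indices
  obtain ⟨a, has, hPa, hPa'⟩ : ∃ a, a ≤ s ∧ (a = 0 ∨ sA a) ∧ ∀ i, a < i → i ≤ s → ¬ sA i := by
    refine ⟨Nat.findGreatest (fun i => i = 0 ∨ sA i) s, Nat.findGreatest_le s, ?_, ?_⟩
    · exact Nat.findGreatest_spec (P := fun i => i = 0 ∨ sA i) (Nat.zero_le s) (Or.inl rfl)
    · intro i hi his h
      exact Nat.findGreatest_is_greatest hi his (Or.inr h)
  obtain ⟨b, hPb, hPb'⟩ : ∃ b, (s + 1 ≤ b ∨ sC b) ∧ ∀ i, i < b → ¬ (s + 1 ≤ i ∨ sC i) := by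
    have hex : ∃ b, (s + 1 ≤ b ∨ sC b) := ⟨s + 1, Or.inl le_rfl⟩
    exact ⟨Nat.find hex, Nat.find_spec hex, fun i hi => Nat.find_min hex hi⟩
  have hbs : b ≤ s + 1 := by
    by_contra h
    exact hPb' (s + 1) (by omega) (Or.inl le_rfl)
  by_cases hab : b ≤ a + 1
  · left
    have h1 : (s + 1 ≤ a + 1 ∨ sC (a + 1)) := by
      rcases hPb with h | ⟨y, hy, h⟩
      · left; omega
      · right
        refine ⟨y, hy, fun u hu v hv huv => h u ⟨hu.1, ?_⟩ v hv huv⟩
        have := hu.2
        omega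
    have c1 := hcA a has hPa
    have c2 := hcC (a + 1) (by omega) h1
    have c3 := hr8 (2 * a)
    have c4 := hr8 (2 * a + 1)
    have c5 := hr8 (2 * a + 2)
    have hsub : Q ⊆ (((Q.filter (fun v => r v < 2 * a)) ∪ (Q.filter (fun v => 2 * (a + 1) < r v))) ∪
      ((Q.filter (fun v => r v = 2 * a)) ∪ (Q.filter (fun v => r v = 2 * a + 1)))) ∪
      (Q.filter (fun v => r v = 2 * a + 2)) := by
      intro v hv
      simp only [Finset.mem_union, Finset.mem_filter, hv, true_and]
      omega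
    have h2 := Finset.card_le_card hsub
    have h3 := Finset.card_union_le (((Q.filter (fun v => r v < 2 * a)) ∪
      (Q.filter (fun v => 2 * (a + 1) < r v))) ∪
      ((Q.filter (fun v => r v = 2 * a)) ∪ (Q.filter (fun v => r v = 2 * a + 1))))
      (Q.filter (fun v => r v = 2 * a + 2))
    have h4 := Finset.card_union_le ((Q.filter (fun v => r v < 2 * a)) ∪
      (Q.filter (fun v => 2 * (a + 1) < r v)))
      ((Q.filter (fun v => r v = 2 * a)) ∪ (Q.filter (fun v => r v = 2 * a + 1)))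
    have h5 := Finset.card_union_le (Q.filter (fun v => r v < 2 * a))
      (Q.filter (fun v => 2 * (a + 1) < r v))
    have h6 := Finset.card_union_le (Q.filter (fun v => r v = 2 * a))
      (Q.filter (fun v => r v = 2 * a + 1))
    omega
  · right
    have hab' : a + 2 ≤ b := by omega
    -- the rank function
    let f : ℕ → ℕ := fun x => if x < 2 * (a + 1) then 0 else
      if 2 * (b - 1) < x then b - a else x / 2 - a
    have hf0 : ∀ x, f x = 0 ↔ x < 2 * (a + 1) := by
      intro x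
      simp only [f]
      split_ifs <;> omega
    have hfl : ∀ x, f x = b - a ↔ 2 * (b - 1) < x := by
      intro x
      simp only [f]
      split_ifs <;> omega
    have hfm : ∀ x k, 1 ≤ k → k ≤ b - 1 - a → (f x = k ↔
        (2 * (a + k) = x ∨ (2 * (a + k) + 1 = x ∧ a + k < b - 1))) := by
      intro x k hk1 hk2
      simp only [f]
      split_ifs <;> omega
    have hfle : ∀ x, f x ≤ b - a := by
      intro x
      simp only [f]
      split_ifs <;> omega
    have hf1 : ∀ x y, x ≤ y + 1 → f x ≤ f y + 1 := by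
      intro x y hxy
      simp only [f]
      split_ifs <;> omega
    refine ⟨b - 1 - a, fun v => f (r v), by omega, ?_, ?_, ?_, ?_, ?_, ?_, ?_⟩
    · intro v _
      have := hfle (r v)
      show f (r v) ≤ b - 1 - a + 1
      omega
    · intro k hk
      rcases Nat.eq_zero_or_pos k with hk0 | hk0
      · have h1 := hr5 (a + 1) (by omega) (by omega)
        have h2 : {v | v ∈ K ∧ f (r v) = k} = {v | v ∈ K ∧ r v < 2 * (a + 1)} := by
          ext v
          show (v ∈ K ∧ f (r v) = k) ↔ (v ∈ K ∧ r v < 2 * (a + 1))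
          rw [hk0, hf0]
        show Conn T.G {v | v ∈ K ∧ f (r v) = k}
        rw [h2]
        exact h1
      · by_cases hkl : k = b - a
        · have h1 := hr6 (b - 1) (by omega) (by omega)
          have h2 : {v | v ∈ K ∧ f (r v) = k} = {v | v ∈ K ∧ 2 * (b - 1) < r v} := by
            ext v
            show (v ∈ K ∧ f (r v) = k) ↔ (v ∈ K ∧ 2 * (b - 1) < r v)
            rw [hkl, hfl]
          show Conn T.G {v | v ∈ K ∧ f (r v) = k}
          rw [h2]
          exact h1
        · have hk2 : k ≤ b - 1 - a := by omega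
          have hw := hr2 (a + k) (by omega) (by omega)
          show Conn T.G {v | v ∈ K ∧ f (r v) = k}
          have hsub : {v | v ∈ K ∧ r v = 2 * (a + k)} ⊆ {v | v ∈ K ∧ f (r v) = k} := by
            intro v hv
            exact ⟨hv.1, (hfm (r v) k hk0 hk2).mpr (Or.inl hv.2.symm)⟩
          have h7 := hr7 (a + k) (by omega) (by omega)
          apply hub T.G _ (w (a + k)) (hsub hw)
          rintro u ⟨huK, hu⟩
          rw [hfm (r u) k hk0 hk2] at hu
          rcases hu with hu | ⟨hu, hlt⟩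
          · exact mono T.G _ _ hsub (h7.2 u ⟨huK, hu.symm⟩ (w (a + k)) hw)
          · have h5 := hr5 (a + k + 1) (by omega) (by omega)
            have hpath := h5.2 u ⟨huK, by omega⟩ (w (a + k)) ⟨hw.1, by omega⟩
            have hgen : ∀ x, Relation.ReflTransGen (fun x y => T.G.Adj x y ∧
                y ∈ {v | v ∈ K ∧ r v < 2 * (a + k + 1)}) x (w (a + k)) → x ∈ K →
                r x = 2 * (a + k) + 1 →
                Relation.ReflTransGen (fun x y => T.G.Adj x y ∧
                y ∈ {v | v ∈ K ∧ f (r v) = k}) x (w (a + k)) := by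
              intro x hx
              induction hx using Relation.ReflTransGen.head_induction_on with
              | refl =>
                intro _ h1
                have := hw.2
                omega
              | @head x x' hxx _ ih =>
                intro hxK hrx
                have hx'K : x' ∈ K := hxx.2.1
                have hx'r : r x' < 2 * (a + k + 1) := hxx.2.2
                have h1 : r x ≤ r x' + 1 := by
                  rcases hr3 x hxK x' hx'K hxx.1 with h1 | ⟨j, hj1, hj2, _, hjx⟩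
                  · exact h1
                  · exfalso
                    have e2 := (hr2 (j + 1) (by omega) hj2).2
                    rw [← hjx] at e2
                    omega
                by_cases h2 : r x' = 2 * (a + k) + 1
                · exact Relation.ReflTransGen.head ⟨hxx.1, hx'K,
                    (hfm (r x') k hk0 hk2).mpr (Or.inr ⟨h2.symm, hlt⟩)⟩ (ih hx'K h2)
                · have h3 : r x' = 2 * (a + k) := by omega
                  have h4 := hr4 x' hx'K x hxK (a + k) hxx.1.symm h3 (by omega)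
                  rw [← h4]
                  exact Relation.ReflTransGen.single ⟨hxx.1, hx'K,
                    (hfm (r x') k hk0 hk2).mpr (Or.inl h3.symm)⟩
            exact hgen u hpath huK hu.symm
    · intro u hu v hv huv
      rcases hr3 u hu v hv huv with h1 | ⟨j, hj1, hj2, hjv, hju⟩
      · exact hf1 _ _ h1
      · have e1 := (hr2 j hj1 (by omega)).2
        have e2 := (hr2 (j + 1) (by omega) hj2).2
        rw [← hjv] at e1
        rw [← hju] at e2
        show f (r u) ≤ f (r v) + 1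
        rw [e1, e2]
        simp only [f]
        split_ifs <;> omega
    · have h2 : {v | v ∈ K ∧ f (r v) = 0} = {v | v ∈ K ∧ r v < 2 * (a + 1)} := by
        ext v
        show (v ∈ K ∧ f (r v) = 0) ↔ (v ∈ K ∧ r v < 2 * (a + 1))
        rw [hf0]
      show ∃ w₁ w₂, w₁ ≠ w₂ ∧ w₁ ≠ w₀ ∧ w₂ ≠ w₀ ∧ AdjS T.G {v | v ∈ K ∧ f (r v) = 0} (π ⁻¹' {w₁}) ∧
        AdjS T.G {v | v ∈ K ∧ f (r v) = 0} (π ⁻¹' {w₂})
      rw [h2]
      exact twocl T π w₀ y₀ hy₀ _ (hPa' (a + 1) (by omega) (by omega))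
    · have h2 : {v | v ∈ K ∧ f (r v) = b - 1 - a + 1} = {v | v ∈ K ∧ 2 * (b - 1) < r v} := by
        ext v
        show (v ∈ K ∧ f (r v) = b - 1 - a + 1) ↔ (v ∈ K ∧ 2 * (b - 1) < r v)
        rw [← hfl]
        have : b - 1 - a + 1 = b - a := by omega
        rw [this]
      show ∃ w₁ w₂, w₁ ≠ w₂ ∧ w₁ ≠ w₀ ∧ w₂ ≠ w₀ ∧
        AdjS T.G {v | v ∈ K ∧ f (r v) = b - 1 - a + 1} (π ⁻¹' {w₁}) ∧
        AdjS T.G {v | v ∈ K ∧ f (r v) = b - 1 - a + 1} (π ⁻¹' {w₂})
      rw [h2]
      exact twocl T π w₀ y₀ hy₀ _ (fun h => hPb' (b - 1) (by omega) (Or.inr h))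
    · intro k hk1 hk2
      have hw := hr2 (a + k) (by omega) (by omega)
      obtain ⟨v, hvK, hv⟩ := cutv T {v | v ∈ K} {v | v ∈ K ∧ r v < 2 * (a + k)}
        {v | v ∈ K ∧ 2 * (a + k) < r v} (w (a + k)) (fun v hv => hv.1) (fun v hv => hv.1) hw.1
        (fun h => by have := h.2; have := hw.2; omega)
        (fun h => by have := h.2; have := hw.2; omega)
        (Set.disjoint_left.mpr fun v h1 h2 => by have := h1.2; have := h2.2; omega) hKc
        (hr5 (a + k) (by omega) (by omega)).1 (hr6 (a + k) (by omega) (by omega)).1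
        (fun u hu v hv huv => by
          rcases hnA (a + k) u hu.1 hu.2 v hv huv with h | h
          · exact Or.inl ⟨hv, h⟩
          · exact Or.inr h)
        (fun u hu v hv huv => by
          rcases hnC (a + k) u hu.1 hu.2 v hv huv with h | h
          · exact Or.inl ⟨hv, h⟩
          · exact Or.inr h)
      refine ⟨π v, (hnK v).mp hvK, w (a + k), ⟨hw.1, ?_⟩, v, rfl, hv⟩
      exact (hfm _ k hk1 hk2).mpr (Or.inl hw.2.symm)
    · intro k
      show (Q.filter (fun v => f (r v) = k)).card ≤ 25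
      rcases Nat.eq_zero_or_pos k with hk0 | hk0
      · have c1 := hcA a has hPa
        have c3 := hr8 (2 * a)
        have c4 := hr8 (2 * a + 1)
        have hsub : Q.filter (fun v => f (r v) = k) ⊆ (Q.filter (fun v => r v < 2 * a)) ∪
            ((Q.filter (fun v => r v = 2 * a)) ∪ (Q.filter (fun v => r v = 2 * a + 1))) := by
          intro v hv
          rw [Finset.mem_filter, hk0, hf0] at hv
          simp only [Finset.mem_union, Finset.mem_filter, hv.1, true_and]
          omega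
        have h2 := Finset.card_le_card hsub
        have h3 := Finset.card_union_le (Q.filter (fun v => r v < 2 * a))
            ((Q.filter (fun v => r v = 2 * a)) ∪ (Q.filter (fun v => r v = 2 * a + 1)))
        have h6 := Finset.card_union_le (Q.filter (fun v => r v = 2 * a))
          (Q.filter (fun v => r v = 2 * a + 1))
        omega
      · by_cases hk2 : k ≤ b - 1 - a
        · have c3 := hr8 (2 * (a + k))
          have c4 := hr8 (2 * (a + k) + 1)
          have hsub : Q.filter (fun v => f (r v) = k) ⊆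
              ((Q.filter (fun v => r v = 2 * (a + k))) ∪
                (Q.filter (fun v => r v = 2 * (a + k) + 1))) := by
            intro v hv
            rw [Finset.mem_filter, hfm _ k hk0 hk2] at hv
            simp only [Finset.mem_union, Finset.mem_filter, hv.1, true_and]
            omega
          have h2 := Finset.card_le_card hsub
          have h6 := Finset.card_union_le (Q.filter (fun v => r v = 2 * (a + k)))
            (Q.filter (fun v => r v = 2 * (a + k) + 1))
          omega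
        · have c1 := hcC b (by omega) hPb
          have c3 := hr8 (2 * (b - 1) + 1)
          have c4 := hr8 (2 * (b - 1) + 2)
          have hsub : Q.filter (fun v => f (r v) = k) ⊆ (Q.filter (fun v => 2 * b < r v)) ∪
              ((Q.filter (fun v => r v = 2 * (b - 1) + 1)) ∪
                (Q.filter (fun v => r v = 2 * (b - 1) + 2))) := by
            intro v hv
            rw [Finset.mem_filter] at hv
            have h1 := hfle (r v)
            have h2 : f (r v) = b - a := by omega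
            rw [hfl] at h2
            simp only [Finset.mem_union, Finset.mem_filter, hv.1, true_and]
            omega
          have h2 := Finset.card_le_card hsub
          have h3 := Finset.card_union_le (Q.filter (fun v => 2 * b < r v))
              ((Q.filter (fun v => r v = 2 * (b - 1) + 1)) ∪
                (Q.filter (fun v => r v = 2 * (b - 1) + 2)))
          have h6 := Finset.card_union_le (Q.filter (fun v => r v = 2 * (b - 1) + 1))
            (Q.filter (fun v => r v = 2 * (b - 1) + 2))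
          omega


end Pool.Agent.H891WLC
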