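import Pool.Agent.H891WLC.Defs
import Pool.Agent.H891WLC.tri_conn3
import Pool.Agent.H891WLC.CLUS_ADJ
import Pool.Agent.H891WLC.CLUS_CONN
import Pool.Agent.H891WLC.COMPOSE
import Pool.Agent.H891WLC.CAPSUM

set_option autoImplicit false

namespace Pool.Agent.H891WLC

namespace W_CLAW

theorem comb : ∀ (a0 a1 a2 b0 b1 b2 cS cU : Bool),
    ((a0 || b0) && (a1 || b1) && (a2 || b2) && (cS || a0 || a1 || a2) && (cU || b0 || b1 || b2)) = true →
    ∃ s0 s1 s2 : Bool, ((!s0 || b0) && (s0 || a0) && (!s1 || b1) && (s1 || a1) && (!s2 || b2) && (s2 || a2) &&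
      (cS || !s0 || !s1 || !s2) && (cU || s0 || s1 || s2)) = true := by
  decide

theorem tri3 : ∀ i j k : Fin 3, i ≠ j → i ≠ k → j ≠ k → ∀ l : Fin 3, l = i ∨ l = j ∨ l = k := by
  decide

theorem comb' (a b : Fin 3 → Prop) (cS cU : Prop) (h : ∀ i, a i ∨ b i) (hS : cS ∨ ∃ i, a i)
    (hU : cU ∨ ∃ i, b i) : ∃ s : Fin 3 → Bool, (∀ i, (s i = true → b i) ∧ (s i = false → a i)) ∧
      (cS ∨ ∃ i, s i = false) ∧ (cU ∨ ∃ i, s i = true) := by
  classical
  have h0 := h 0
  have h1 := h 1
  have h2 := h 2
  have hS' : cS ∨ (a 0 ∨ (a 1 ∨ a 2)) := by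
    rcases hS with h | ⟨i, hi⟩
    · exact Or.inl h
    · fin_cases i
      · exact Or.inr (Or.inl hi)
      · exact Or.inr (Or.inr (Or.inl hi))
      · exact Or.inr (Or.inr (Or.inr hi))
  have hU' : cU ∨ (b 0 ∨ (b 1 ∨ b 2)) := by
    rcases hU with h | ⟨i, hi⟩
    · exact Or.inl h
    · fin_cases i
      · exact Or.inr (Or.inl hi)
      · exact Or.inr (Or.inr (Or.inl hi))
      · exact Or.inr (Or.inr (Or.inr hi))
  obtain ⟨s0, s1, s2, e⟩ := comb (decide (a 0)) (decide (a 1)) (decide (a 2))
    (decide (b 0)) (decide (b 1)) (decide (b 2)) (decide cS) (decide cU)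
    (by simp only [Bool.and_eq_true, Bool.or_eq_true, decide_eq_true_eq]; tauto)
  simp only [Bool.and_eq_true, Bool.or_eq_true, decide_eq_true_eq, Bool.not_eq_true'] at e
  refine ⟨![s0, s1, s2], ?_, ?_, ?_⟩
  · intro i
    fin_cases i
    · cases s0 <;> simp_all
    · cases s1 <;> simp_all
    · cases s2 <;> simp_all
  · obtain ⟨⟨_, e⟩, _⟩ := e
    rcases e with ((e | e) | e) | e
    · exact Or.inl e
    · exact Or.inr ⟨0, by simpa using e⟩
    · exact Or.inr ⟨1, by simpa using e⟩
    · exact Or.inr ⟨2, by simpa using e⟩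
  · obtain ⟨_, e⟩ := e
    rcases e with ((e | e) | e) | e
    · exact Or.inl e
    · exact Or.inr ⟨0, by simpa using e⟩
    · exact Or.inr ⟨1, by simpa using e⟩
    · exact Or.inr ⟨2, by simpa using e⟩

theorem pig (s : Fin 3 → Bool) : ∃ i j k : Fin 3, i ≠ j ∧ i ≠ k ∧ j ≠ k ∧ s i = s j := by
  revert s
  decide

/-- leaving step -/
theorem leave {V : Type} (G : SimpleGraph V) (A D : Set V) (u v : V) (hu : u ∈ D) (hv : v ∉ D)
    (h : Relation.ReflTransGen (fun x y => G.Adj x y ∧ y ∈ A) u v) :
    ∃ x ∈ D, ∃ y, y ∉ D ∧ y ∈ A ∧ G.Adj x y := by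
  induction h with
  | refl => exact absurd hu hv
  | @tail c q h1 h2 IH =>
    by_cases hc : c ∈ D
    · exact ⟨c, hc, q, hv, h2.2, h2.1⟩
    · exact IH hc


end W_CLAW

open W_CLAW in
theorem CLAW {V₀ V : Type} [Finite V₀] [Finite V] [DecidableEq V] (T₀ : Tri V₀) (T : Tri V) (κ : V₀ → V) (hc : Clus T₀ T κ)
    (c : V → ℕ) (K : Finset V) (hK : Conn T.G (K : Set V)) (hcap : ∀ v ∈ K, CapSet T₀ T κ {v} (c v))
    (D : Fin 3 → Finset V) (z : Fin 3 → V) (hD : ∀ i, D i ⊆ K) (hdisj : ∀ i j, i ≠ j → Disjoint (D i) (D j))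
    (hz : ∀ i, z i ∈ K) (hzD : ∀ i j, z i ∉ D j) (hconn : ∀ i, Conn T.G (D i : Set V))
    (hiso : ∀ i, ∀ u ∈ D i, ∀ v ∈ K, T.G.Adj u v → v ∈ D i ∨ v = z i)
    (g m : ℕ) (hg : ∀ i, g ≤ ∑ v ∈ D i, c v) (hm : ∑ v ∈ K, c v ≤ m + g) :
    CapSet T₀ T κ (K : Set V) m := by
  classical
  -- D i are pairwise non adjacent
  have hna : ∀ i j, i ≠ j → ∀ u ∈ D i, ∀ v ∈ D j, ¬ T.G.Adj u v := by
    intro i j hij u hu v hv hadj
    rcases hiso i u hu v (hD j hv) hadj with h | h
    · exact (Finset.disjoint_left.mp (hdisj i j hij)) h hv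
    · subst h; exact hzD i j hv
  -- D i adjacent to z i
  have hDz : ∀ i, ∃ x ∈ D i, T.G.Adj x (z i) := by
    intro i
    obtain ⟨d, hd⟩ := (hconn i).1
    obtain ⟨x, hx, y, hy, hyA, hxy⟩ := leave T.G (K : Set V) (D i : Set V) d (z i) hd
      (by simpa using hzD i i) (hK.2 d (by simpa using hD i hd) (z i) (by simpa using hz i))
    refine ⟨x, hx, ?_⟩
    rcases hiso i x hx y (by simpa using hyA) hxy with h | h
    · exact absurd (by simpa using h) hy
    · rw [← h]; exact hxy
  set C : Finset V := K.filter (fun v => ∀ i, v ∉ D i) with hCdef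
  have hzC : ∀ i, z i ∈ C := fun i => by
    rw [hCdef, Finset.mem_filter]; exact ⟨hz i, fun j => hzD i j⟩
  have memC : ∀ v, v ∈ C ↔ v ∈ K ∧ ∀ i, v ∉ D i := fun v => by rw [hCdef, Finset.mem_filter]
  have hCconn : Conn T.G (C : Set V) := by
    refine ⟨⟨z 0, by simpa using hzC 0⟩, ?_⟩
    intro u hu v hv
    have hu' : u ∈ C := by simpa using hu
    have key : ∀ w, Relation.ReflTransGen (fun x y => T.G.Adj x y ∧ y ∈ (K : Set V)) u w →
        w ∈ K ∧ (w ∈ C → Relation.ReflTransGen (fun x y => T.G.Adj x y ∧ y ∈ (C : Set V)) u w) ∧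
        (∀ i, w ∈ D i → Relation.ReflTransGen (fun x y => T.G.Adj x y ∧ y ∈ (C : Set V)) u (z i)) := by
      intro w hw
      induction hw with
      | refl =>
        refine ⟨((memC u).mp hu').1, fun _ => Relation.ReflTransGen.refl, fun i hi => ?_⟩
        exact absurd hi (((memC u).mp hu').2 i)
      | @tail w w' h1 h2 IH =>
        obtain ⟨hwK, hwC, hwD⟩ := IH
        have hw'K : w' ∈ K := by simpa using h2.2
        refine ⟨hw'K, ?_, ?_⟩
        · intro hw'C
          by_cases hwc : w ∈ C
          · exact (hwC hwc).tail ⟨h2.1, by simpa using hw'C⟩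
          · have : ∃ i, w ∈ D i := by
              by_contra hcon
              push Not at hcon
              exact hwc ((memC w).mpr ⟨hwK, hcon⟩)
            obtain ⟨i, hi⟩ := this
            rcases hiso i w hi w' hw'K h2.1 with h | h
            · exact absurd h (((memC w').mp hw'C).2 i)
            · rw [h]; exact hwD i hi
        · intro i hi
          rcases hiso i w' hi w hwK h2.1.symm with h | h
          · exact hwD i h
          · rw [← h]
            apply hwC
            rw [h]; exact hzC i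
    have hv' : v ∈ C := by simpa using hv
    exact (key v (hK.2 u (by simpa using ((memC u).mp hu').1) v
      (by simpa using ((memC v).mp hv').1))).2.1 hv'
  intro S U hs
  obtain ⟨hcov, hKS, hKU, hSU, hSc, hUc, hSUa, hKSa, hKUa⟩ := id hs
  have hDSU : ∀ i, AdjS T.G (D i : Set V) S ∨ AdjS T.G (D i : Set V) U := by
    intro i
    obtain ⟨d, hd⟩ := (hconn i).1
    obtain ⟨t, ht⟩ := hSc.1
    have htK : t ∉ (K : Set V) := fun h => (Set.disjoint_left.mp hKS) h ht
    have hc3 := tri_conn3 T (z i) (z i)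
    have hd' : d ∈ D i := by simpa using hd
    have hdc : d ∈ ({z i, z i}ᶜ : Set V) := by
      intro h
      have : d = z i := by simpa using h
      rw [this] at hd'
      exact hzD i i hd'
    have htc : t ∈ ({z i, z i}ᶜ : Set V) := by
      intro h
      have : t = z i := by simpa using h
      rw [this] at htK
      exact htK (by simpa using hz i)
    have htD : t ∉ (D i : Set V) := fun h => htK (by
      have : t ∈ D i := by simpa using h
      simpa using hD i this)
    obtain ⟨x, hx, y, hy, hyA, hxy⟩ := leave T.G _ (D i : Set V) d t hd htD (hc3.2 d hdc t htc)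
    have hyz : y ≠ z i := by
      intro h; apply hyA; simp [h]
    have hyK : y ∉ (K : Set V) := by
      intro h
      rcases hiso i x (by simpa using hx) y (by simpa using h) hxy with h' | h'
      · exact hy (by simpa using h')
      · exact hyz h'
    rcases hcov y with h | h | h
    · exact absurd h hyK
    · exact Or.inl ⟨x, hx, y, h, hxy⟩
    · exact Or.inr ⟨x, hx, y, h, hxy⟩
  have hcase : ∀ B : Set V, AdjS T.G (K : Set V) B → AdjS T.G (C : Set V) B ∨ ∃ i, AdjS T.G (D i : Set V) B := by
    rintro B ⟨a, ha, b, hb, hab⟩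
    by_cases h : ∃ i, a ∈ D i
    · obtain ⟨i, hi⟩ := h
      exact Or.inr ⟨i, a, by simpa using hi, b, hb, hab⟩
    · push Not at h
      exact Or.inl ⟨a, by simpa using (memC a).mpr ⟨by simpa using ha, h⟩, b, hb, hab⟩
  obtain ⟨s, hs1, hs2, hs3⟩ := comb' (fun i => AdjS T.G (D i : Set V) S) (fun i => AdjS T.G (D i : Set V) U)
    (AdjS T.G (C : Set V) S) (AdjS T.G (C : Set V) U) hDSU (hcase S hKSa) (hcase U hKUa)
  obtain ⟨i, j, k, hij, hik, hjk, hsij⟩ := pig s
  have htri : ∀ l : Fin 3, l = i ∨ l = j ∨ l = k := tri3 i j k hij hik hjk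
  let β : V → Option (Fin 3) := fun v => if h : ∃ l, v ∈ D l then some h.choose else none
  have hβs : ∀ v l, β v = some l ↔ v ∈ D l := by
    intro v l
    constructor
    · intro h
      by_cases hh : ∃ l, v ∈ D l
      · simp only [β, hh, dif_pos] at h
        have h2 : hh.choose = l := Option.some.inj h
        rw [← h2]; exact hh.choose_spec
      · simp only [β, hh, dif_neg, not_false_iff] at h
        exact absurd h (by simp)
    · intro h
      have hh : ∃ l, v ∈ D l := ⟨l, h⟩
      simp only [β, hh, dif_pos]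
      congr 1
      by_contra hne
      exact Finset.disjoint_left.mp (hdisj _ _ hne) hh.choose_spec h
  have hβn : ∀ v, β v = none ↔ ∀ l, v ∉ D l := by
    intro v
    constructor
    · intro h l hl
      rw [(hβs v l).mpr hl] at h
      exact absurd h (by simp)
    · intro h
      cases hb : β v with
      | none => rfl
      | some l => exact absurd ((hβs v l).mp hb) (h l)
  have hsetS : ∀ l, {v | v ∈ (K : Set V) ∧ β v = some l} = (D l : Set V) := by
    intro l
    ext v
    simp only [Set.mem_setOf_eq, hβs, Finset.mem_coe]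
    exact ⟨fun h => h.2, fun h => ⟨hD l h, h⟩⟩
  have hsetN : {v | v ∈ (K : Set V) ∧ β v = none} = (C : Set V) := by
    ext v
    simp only [Set.mem_setOf_eq, hβn, Finset.mem_coe, memC]
  let L : Option (Fin 3) → ℕ := fun x => x.elim 2 (fun l => if s l = true then (if l = k then 4 else 3)
    else (if l = k then 0 else 1))
  have hLn : L none = 2 := rfl
  have hLt : ∀ l, s l = true → 2 < L (some l) ∧ L (some l) < 5 := by
    intro l hl
    simp only [L, Option.elim, hl, if_true]
    split_ifs <;> omega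
  have hLf : ∀ l, s l = false → L (some l) < 2 := by
    intro l hl
    simp only [L, Option.elim, hl]
    split_ifs <;> simp_all
  have hL5 : ∀ x, L x < 5 := by
    intro x
    cases x with
    | none => rw [hLn]; norm_num
    | some l =>
      cases hl : s l with
      | true => exact (hLt l hl).2
      | false => exact lt_trans (hLf l hl) (by norm_num)
  have hLne : ∀ l, L (some l) ≠ 2 := by
    intro l
    cases hl : s l with
    | true => exact (hLt l hl).1.ne'
    | false => exact (hLf l hl).ne
  have hLij : L (some i) = L (some j) := by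
    simp only [L, Option.elim, hsij, hik, hjk, if_false]
  let cc : Option (Fin 3) → ℕ := fun x => x.elim (∑ v ∈ C, c v) (fun l => ∑ v ∈ D l, c v)
  let mm : ℕ → ℕ := fun l => (if l = L none then cc none else 0) + (if l = L (some k) then cc (some k) else 0)
    + (if l = L (some i) then max (cc (some i)) (cc (some j)) else 0)
  have hCz : ∀ l, AdjS T.G (D l : Set V) (C : Set V) := by
    intro l
    obtain ⟨x, hx, hxz⟩ := hDz l
    exact ⟨x, by simpa using hx, z l, by simpa using hzC l, hxz⟩
  have hcomp : ∃ h : V₀ → ℝ, Valid T₀.G (κ ⁻¹' S) (κ ⁻¹' U) (κ ⁻¹' (K : Set V)) h ∧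
      (h '' (κ ⁻¹' (K : Set V))).ncard ≤ ∑ l ∈ Finset.range 5, mm l := by
    refine COMPOSE T₀ T κ hc (K : Set V) S U hs β L cc 5 mm ?_ ?_ ?_ ?_ ?_ ?_
    · rintro (_ | l) _
      · rw [hsetN]; exact hCconn
      · rw [hsetS l]; exact hconn l
    · rintro (_ | l) _
      · rw [hsetN]
        exact CAPSUM T₀ T κ hc C hCconn c fun v hv => hcap v ((memC v).mp hv).1
      · rw [hsetS l]
        exact CAPSUM T₀ T κ hc (D l) (hconn l) c fun v hv => hcap v (hD l hv)
    · rintro (_ | l) _
      · rw [hsetN]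
        rcases hs2 with ⟨a, ha, b, hb, hab⟩ | ⟨l, hl⟩
        · exact ⟨a, ha, b, Or.inl hb, hab⟩
        · obtain ⟨x, hx, y, hy, hxy⟩ := hCz l
          refine ⟨y, hy, x, Or.inr ⟨?_, ?_⟩, hxy.symm⟩
          · exact (Finset.mem_coe.mpr (hD l (by simpa using hx)))
          · rw [(hβs x l).mpr (by simpa using hx), hLn]; exact hLf l hl
      · rw [hsetS l]
        cases hl : s l with
        | true =>
          obtain ⟨x, hx, y, hy, hxy⟩ := hCz l
          refine ⟨x, hx, y, Or.inr ⟨?_, ?_⟩, hxy⟩
          · exact (Finset.mem_coe.mpr ((memC y).mp (by simpa using hy)).1)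
          · rw [(hβn y).mpr ((memC y).mp (by simpa using hy)).2, hLn]; exact (hLt l hl).1
        | false =>
          obtain ⟨a, ha, b, hb, hab⟩ := (hs1 l).2 hl
          exact ⟨a, ha, b, Or.inl hb, hab⟩
    · rintro (_ | l) _
      · rw [hsetN]
        rcases hs3 with ⟨a, ha, b, hb, hab⟩ | ⟨l, hl⟩
        · exact ⟨a, ha, b, Or.inl hb, hab⟩
        · obtain ⟨x, hx, y, hy, hxy⟩ := hCz l
          refine ⟨y, hy, x, Or.inr ⟨?_, ?_⟩, hxy.symm⟩
          · exact (Finset.mem_coe.mpr (hD l (by simpa using hx)))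
          · rw [(hβs x l).mpr (by simpa using hx), hLn]; exact (hLt l hl).1
      · rw [hsetS l]
        cases hl : s l with
        | true =>
          obtain ⟨a, ha, b, hb, hab⟩ := (hs1 l).1 hl
          exact ⟨a, ha, b, Or.inl hb, hab⟩
        | false =>
          obtain ⟨x, hx, y, hy, hxy⟩ := hCz l
          refine ⟨x, hx, y, Or.inr ⟨?_, ?_⟩, hxy⟩
          · exact (Finset.mem_coe.mpr ((memC y).mp (by simpa using hy)).1)
          · rw [(hβn y).mpr ((memC y).mp (by simpa using hy)).2, hLn]; exact hLf l hl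
    · intro u hu v hv huv hne
      cases hbu : β u with
      | none =>
        cases hbv : β v with
        | none => exact absurd (hbu.trans hbv.symm) hne
        | some l => rw [hLn]; exact (hLne l).symm
      | some l =>
        cases hbv : β v with
        | none => rw [hLn]; exact hLne l
        | some l' =>
          exfalso
          have hll : l ≠ l' := by
            intro h; apply hne; rw [hbu, hbv, h]
          exact hna l l' hll u ((hβs u l).mp hbu) v ((hβs v l').mp hbv) huv
    · rintro x _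
      refine ⟨hL5 x, ?_⟩
      cases x with
      | none =>
        simp only [mm, if_true]
        omega
      | some l =>
        rcases htri l with rfl | rfl | rfl
        · simp only [mm, if_true]
          have := le_max_left (cc (some l)) (cc (some j))
          omega
        · simp only [mm, hLij, if_true]
          have := le_max_right (cc (some i)) (cc (some l))
          omega
        · simp only [mm, if_true]
          omega

  obtain ⟨h, hval, hcard⟩ := hcomp
  refine ⟨h, hval, hcard.trans ?_⟩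
  have hsum : ∑ l ∈ Finset.range 5, mm l = cc none + cc (some k) + max (cc (some i)) (cc (some j)) := by
    simp only [mm]
    rw [Finset.sum_add_distrib, Finset.sum_add_distrib, Finset.sum_ite_eq', Finset.sum_ite_eq',
      Finset.sum_ite_eq', if_pos (Finset.mem_range.mpr (hL5 _)), if_pos (Finset.mem_range.mpr (hL5 _)),
      if_pos (Finset.mem_range.mpr (hL5 _))]
  rw [hsum]
  have hKsum : ∑ v ∈ K, c v = ∑ v ∈ C, c v + ∑ v ∈ D i, c v + ∑ v ∈ D j, c v + ∑ v ∈ D k, c v := by
    have e : K = C ∪ D i ∪ D j ∪ D k := by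
      ext v
      simp only [Finset.mem_union, memC]
      constructor
      · intro hv
        by_cases hh : ∃ l, v ∈ D l
        · obtain ⟨l, hl⟩ := hh
          rcases htri l with rfl | rfl | rfl <;> tauto
        · push Not at hh
          exact Or.inl (Or.inl (Or.inl ⟨hv, hh⟩))
      · rintro (((h | h) | h) | h)
        · exact h.1
        · exact hD _ h
        · exact hD _ h
        · exact hD _ h
    have hCD : ∀ l, Disjoint C (D l) := fun l =>
      Finset.disjoint_left.mpr fun v hv hv' => ((memC v).mp hv).2 l hv'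
    conv_lhs => rw [e]
    rw [Finset.sum_union, Finset.sum_union, Finset.sum_union]
    · exact hCD i
    · rw [Finset.disjoint_union_left]
      exact ⟨hCD j, hdisj i j hij⟩
    · rw [Finset.disjoint_union_left, Finset.disjoint_union_left]
      exact ⟨⟨hCD k, hdisj i k hik⟩, hdisj j k hjk⟩
  have e1 : cc none = ∑ v ∈ C, c v := rfl
  have e2 : ∀ l, cc (some l) = ∑ v ∈ D l, c v := fun _ => rfl
  have g1 := hg i
  have g2 := hg j
  rw [e1, e2, e2, e2]
  rcases le_total (∑ v ∈ D i, c v) (∑ v ∈ D j, c v) with hle | hle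
  · rw [max_eq_right hle]; omega
  · rw [max_eq_left hle]; omega


end Pool.Agent.H891WLC
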