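import Pool.Agent.H891WLC.Defs
import Pool.Agent.H891WLC.tri_conn3
import Pool.Agent.H891WLC.CHI

set_option autoImplicit false

namespace Pool.Agent.H891WLC

namespace W_FOUR

theorem conn_union {V : Type} {G : SimpleGraph V} {A B : Set V} (hA : Conn G A) (hB : Conn G B)
    (h : AdjS G A B) : Conn G (A ∪ B) := by
  obtain ⟨a, ha, b, hb, hab⟩ := h
  have mA : ∀ u v, Relation.ReflTransGen (fun x y => G.Adj x y ∧ y ∈ A) u v →
      Relation.ReflTransGen (fun x y => G.Adj x y ∧ y ∈ A ∪ B) u v := by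
    intro u v huv
    induction huv with
    | refl => exact Relation.ReflTransGen.refl
    | tail _ h ih => exact ih.tail ⟨h.1, Or.inl h.2⟩
  have mB : ∀ u v, Relation.ReflTransGen (fun x y => G.Adj x y ∧ y ∈ B) u v →
      Relation.ReflTransGen (fun x y => G.Adj x y ∧ y ∈ A ∪ B) u v := by
    intro u v huv
    induction huv with
    | refl => exact Relation.ReflTransGen.refl
    | tail _ h ih => exact ih.tail ⟨h.1, Or.inr h.2⟩
  refine ⟨⟨a, Or.inl ha⟩, ?_⟩
  rintro u (hu | hu) v (hv | hv)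
  · exact mA u v (hA.2 u hu v hv)
  · exact (mA u a (hA.2 u hu a ha)).trans
      ((Relation.ReflTransGen.single ⟨hab, Or.inr hb⟩).trans (mB b v (hB.2 b hb v hv)))
  · exact (mB u b (hB.2 u hu b hb)).trans
      ((Relation.ReflTransGen.single ⟨hab.symm, Or.inl ha⟩).trans (mA a v (hA.2 a ha v hv)))
  · exact mB u v (hB.2 u hu v hv)

theorem adj_left {V : Type} {G : SimpleGraph V} {A B C : Set V} (h : AdjS G A C) :
    AdjS G (A ∪ B) C := by
  obtain ⟨a, ha, b, hb, hab⟩ := h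
  exact ⟨a, Or.inl ha, b, hb, hab⟩

open Classical in
theorem chi_sum {V : Type} [Fintype V] (T : Tri V) (cl : V → Fin 4) (P : Fin 4 → Bool)
    (X : Set V) (hX : ∀ v, v ∈ X ↔ P (cl v) = true) (h1 : Conn T.G X) (h2 : Conn T.G Xᶜ) :
    6 * (∑ v : V, if P (cl v) = true then 1 else 0) +
      2 * (∑ t : V × V × V, if P (cl t.1) = true ∧ P (cl t.2.1) = true ∧ P (cl t.2.2) = true ∧
        T.F t.1 t.2.1 t.2.2 then 1 else 0) =
    6 + 3 * (∑ e : V × V, if P (cl e.1) = true ∧ P (cl e.2) = true ∧ T.G.Adj e.1 e.2 then 1 else 0) := by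
  have h := CHI T X h1 h2
  simp only [hX] at h
  have e1 : Nat.card X = ∑ v : V, if P (cl v) = true then 1 else 0 := by
    rw [← Finset.card_filter, ← Fintype.card_subtype, ← Nat.card_eq_fintype_card]
    apply Nat.card_congr
    exact Equiv.subtypeEquivRight hX
  rw [e1, Nat.card_eq_fintype_card, Nat.card_eq_fintype_card, Fintype.card_subtype,
    Fintype.card_subtype, Finset.card_filter, Finset.card_filter] at h
  exact h

theorem dec1 : ∀ x : Fin 4,
    (if decide (x = 0 ∨ x = 1 ∨ x = 2) = true then 1 else 0) + (if decide (x = 0) = true then 1 else 0) +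
    (if decide (x = 1) = true then 1 else 0) + (if decide (x = 2) = true then 1 else 0) =
    (if decide (x = 0 ∨ x = 1) = true then 1 else 0) + (if decide (x = 0 ∨ x = 2) = true then 1 else 0) +
    (if decide (x = 1 ∨ x = 2) = true then 1 else 0) := by
  decide

theorem dec2 : ∀ x y : Fin 4,
    (if decide (x = 0 ∨ x = 1 ∨ x = 2) = true ∧ decide (y = 0 ∨ y = 1 ∨ y = 2) = true then 1 else 0) +
    (if decide (x = 0) = true ∧ decide (y = 0) = true then 1 else 0) +
    (if decide (x = 1) = true ∧ decide (y = 1) = true then 1 else 0) +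
    (if decide (x = 2) = true ∧ decide (y = 2) = true then 1 else 0) =
    (if decide (x = 0 ∨ x = 1) = true ∧ decide (y = 0 ∨ y = 1) = true then 1 else 0) +
    (if decide (x = 0 ∨ x = 2) = true ∧ decide (y = 0 ∨ y = 2) = true then 1 else 0) +
    (if decide (x = 1 ∨ x = 2) = true ∧ decide (y = 1 ∨ y = 2) = true then 1 else 0) := by
  decide

theorem dec3 : ∀ x y z : Fin 4, ¬ (x ≠ y ∧ y ≠ z ∧ x ≠ z ∧ x ≠ 3 ∧ y ≠ 3 ∧ z ≠ 3) →
    (if decide (x = 0 ∨ x = 1 ∨ x = 2) = true ∧ decide (y = 0 ∨ y = 1 ∨ y = 2) = true ∧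
      decide (z = 0 ∨ z = 1 ∨ z = 2) = true then 1 else 0) +
    (if decide (x = 0) = true ∧ decide (y = 0) = true ∧ decide (z = 0) = true then 1 else 0) +
    (if decide (x = 1) = true ∧ decide (y = 1) = true ∧ decide (z = 1) = true then 1 else 0) +
    (if decide (x = 2) = true ∧ decide (y = 2) = true ∧ decide (z = 2) = true then 1 else 0) =
    (if decide (x = 0 ∨ x = 1) = true ∧ decide (y = 0 ∨ y = 1) = true ∧
      decide (z = 0 ∨ z = 1) = true then 1 else 0) +
    (if decide (x = 0 ∨ x = 2) = true ∧ decide (y = 0 ∨ y = 2) = true ∧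
      decide (z = 0 ∨ z = 2) = true then 1 else 0) +
    (if decide (x = 1 ∨ x = 2) = true ∧ decide (y = 1 ∨ y = 2) = true ∧
      decide (z = 1 ∨ z = 2) = true then 1 else 0) := by
  decide

theorem cases3 : ∀ x y z : Fin 4, (x ≠ y ∧ y ≠ z ∧ x ≠ z ∧ x ≠ 3 ∧ y ≠ 3 ∧ z ≠ 3) →
    (x = 0 ∧ y = 1 ∧ z = 2) ∨ (x = 0 ∧ y = 2 ∧ z = 1) ∨ (x = 1 ∧ y = 0 ∧ z = 2) ∨
    (x = 1 ∧ y = 2 ∧ z = 0) ∨ (x = 2 ∧ y = 0 ∧ z = 1) ∨ (x = 2 ∧ y = 1 ∧ z = 0) := by
  decide

end W_FOUR

open W_FOUR in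
theorem FOUR {V : Type} [Finite V] (T : Tri V) (A B C D : Set V)
    (hcov : ∀ v, v ∈ A ∨ v ∈ B ∨ v ∈ C ∨ v ∈ D)
    (dAB : Disjoint A B) (dAC : Disjoint A C) (dAD : Disjoint A D) (dBC : Disjoint B C) (dBD : Disjoint B D)
    (dCD : Disjoint C D)
    (hA : Conn T.G A) (hB : Conn T.G B) (hC : Conn T.G C) (hD : Conn T.G D)
    (aAB : AdjS T.G A B) (aAC : AdjS T.G A C) (aAD : AdjS T.G A D) (aBC : AdjS T.G B C) (aBD : AdjS T.G B D)
    (aCD : AdjS T.G C D) :
    ∃ a ∈ A, ∃ b ∈ B, ∃ c ∈ C, T.F a b c ∨ T.F a c b := by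
  classical
  haveI : Fintype V := Fintype.ofFinite V
  by_contra hno
  push Not at hno
  have hcl : ∀ v, ∃ i : Fin 4, (v ∈ A ↔ i = 0) ∧ (v ∈ B ↔ i = 1) ∧ (v ∈ C ↔ i = 2) ∧
      (v ∈ D ↔ i = 3) := by
    intro v
    rw [Set.disjoint_left] at dAB dAC dAD dBC dBD dCD
    rcases hcov v with h | h | h | h
    · exact ⟨0, by simp [h], by simp [dAB h], by simp [dAC h], by simp [dAD h]⟩
    · have n1 : v ∉ A := fun hA => dAB hA h
      exact ⟨1, by simp [n1], by simp [h], by simp [dBC h], by simp [dBD h]⟩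
    · have n1 : v ∉ A := fun hA => dAC hA h
      have n2 : v ∉ B := fun hA => dBC hA h
      exact ⟨2, by simp [n1], by simp [n2], by simp [h], by simp [dCD h]⟩
    · have n1 : v ∉ A := fun hA => dAD hA h
      have n2 : v ∉ B := fun hA => dBD hA h
      have n3 : v ∉ C := fun hA => dCD hA h
      exact ⟨3, by simp [n1], by simp [n2], by simp [n3], by simp [h]⟩
  choose cl clA clB clC clD using hcl
  have f4 : ∀ x : Fin 4, x = 0 ∨ x = 1 ∨ x = 2 ∨ x = 3 := by decide
  -- complements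
  have cA : Aᶜ = (B ∪ C) ∪ D := by
    ext v
    simp only [Set.mem_compl_iff, Set.mem_union, clA, clB, clC, clD]
    rcases f4 (cl v) with h | h | h | h <;> simp [h]
  have cB : Bᶜ = (A ∪ C) ∪ D := by
    ext v
    simp only [Set.mem_compl_iff, Set.mem_union, clA, clB, clC, clD]
    rcases f4 (cl v) with h | h | h | h <;> simp [h]
  have cC : Cᶜ = (A ∪ B) ∪ D := by
    ext v
    simp only [Set.mem_compl_iff, Set.mem_union, clA, clB, clC, clD]
    rcases f4 (cl v) with h | h | h | h <;> simp [h]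
  have cAB : (A ∪ B)ᶜ = C ∪ D := by
    ext v
    simp only [Set.mem_compl_iff, Set.mem_union, clA, clB, clC, clD]
    rcases f4 (cl v) with h | h | h | h <;> simp [h]
  have cAC : (A ∪ C)ᶜ = B ∪ D := by
    ext v
    simp only [Set.mem_compl_iff, Set.mem_union, clA, clB, clC, clD]
    rcases f4 (cl v) with h | h | h | h <;> simp [h]
  have cBC : (B ∪ C)ᶜ = A ∪ D := by
    ext v
    simp only [Set.mem_compl_iff, Set.mem_union, clA, clB, clC, clD]
    rcases f4 (cl v) with h | h | h | h <;> simp [h]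
  have cABC : ((A ∪ B) ∪ C)ᶜ = D := by
    ext v
    simp only [Set.mem_compl_iff, Set.mem_union, clA, clB, clC, clD]
    rcases f4 (cl v) with h | h | h | h <;> simp [h]
  have hAB := conn_union hA hB aAB
  have hAC := conn_union hA hC aAC
  have hBC := conn_union hB hC aBC
  have hAD := conn_union hA hD aAD
  have hBD := conn_union hB hD aBD
  have hCD := conn_union hC hD aCD
  have hABC := conn_union hAB hC (adj_left aAC)
  have hBCD := conn_union hBC hD (adj_left aBD)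
  have hACD := conn_union hAC hD (adj_left aAD)
  have hABD := conn_union hAB hD (adj_left aAD)
  have gA := chi_sum T cl (fun x => decide (x = 0)) A (fun v => by simp [clA]) hA (by rw [cA]; exact hBCD)
  have gB := chi_sum T cl (fun x => decide (x = 1)) B (fun v => by simp [clB]) hB (by rw [cB]; exact hACD)
  have gC := chi_sum T cl (fun x => decide (x = 2)) C (fun v => by simp [clC]) hC (by rw [cC]; exact hABD)
  have gAB := chi_sum T cl (fun x => decide (x = 0 ∨ x = 1)) (A ∪ B)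
    (fun v => by simp [clA, clB]) hAB (by rw [cAB]; exact hCD)
  have gAC := chi_sum T cl (fun x => decide (x = 0 ∨ x = 2)) (A ∪ C)
    (fun v => by simp [clA, clC]) hAC (by rw [cAC]; exact hBD)
  have gBC := chi_sum T cl (fun x => decide (x = 1 ∨ x = 2)) (B ∪ C)
    (fun v => by simp [clB, clC]) hBC (by rw [cBC]; exact hAD)
  have gABC := chi_sum T cl (fun x => decide (x = 0 ∨ x = 1 ∨ x = 2)) ((A ∪ B) ∪ C)
    (fun v => by simp [clA, clB, clC, or_assoc]) hABC (by rw [cABC]; exact hD)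
  -- sums
  have s1 : (∑ v : V, if decide (cl v = 0 ∨ cl v = 1 ∨ cl v = 2) = true then 1 else 0) +
      (∑ v : V, if decide (cl v = 0) = true then 1 else 0) +
      (∑ v : V, if decide (cl v = 1) = true then 1 else 0) +
      (∑ v : V, if decide (cl v = 2) = true then 1 else 0) =
      (∑ v : V, if decide (cl v = 0 ∨ cl v = 1) = true then 1 else 0) +
      (∑ v : V, if decide (cl v = 0 ∨ cl v = 2) = true then 1 else 0) +
      (∑ v : V, if decide (cl v = 1 ∨ cl v = 2) = true then 1 else 0) := by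
    simp only [← Finset.sum_add_distrib]
    apply Finset.sum_congr rfl
    intro v _
    exact dec1 (cl v)
  have s2 : (∑ e : V × V, if decide (cl e.1 = 0 ∨ cl e.1 = 1 ∨ cl e.1 = 2) = true ∧
        decide (cl e.2 = 0 ∨ cl e.2 = 1 ∨ cl e.2 = 2) = true ∧ T.G.Adj e.1 e.2 then 1 else 0) +
      (∑ e : V × V, if decide (cl e.1 = 0) = true ∧ decide (cl e.2 = 0) = true ∧ T.G.Adj e.1 e.2
        then 1 else 0) +
      (∑ e : V × V, if decide (cl e.1 = 1) = true ∧ decide (cl e.2 = 1) = true ∧ T.G.Adj e.1 e.2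
        then 1 else 0) +
      (∑ e : V × V, if decide (cl e.1 = 2) = true ∧ decide (cl e.2 = 2) = true ∧ T.G.Adj e.1 e.2
        then 1 else 0) =
      (∑ e : V × V, if decide (cl e.1 = 0 ∨ cl e.1 = 1) = true ∧
        decide (cl e.2 = 0 ∨ cl e.2 = 1) = true ∧ T.G.Adj e.1 e.2 then 1 else 0) +
      (∑ e : V × V, if decide (cl e.1 = 0 ∨ cl e.1 = 2) = true ∧
        decide (cl e.2 = 0 ∨ cl e.2 = 2) = true ∧ T.G.Adj e.1 e.2 then 1 else 0) +
      (∑ e : V × V, if decide (cl e.1 = 1 ∨ cl e.1 = 2) = true ∧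
        decide (cl e.2 = 1 ∨ cl e.2 = 2) = true ∧ T.G.Adj e.1 e.2 then 1 else 0) := by
    simp only [← Finset.sum_add_distrib]
    apply Finset.sum_congr rfl
    intro e _
    by_cases hadj : T.G.Adj e.1 e.2
    · simp only [hadj, and_true]
      exact dec2 (cl e.1) (cl e.2)
    · simp only [hadj, and_false, if_false]
  have s3 : (∑ t : V × V × V, if decide (cl t.1 = 0 ∨ cl t.1 = 1 ∨ cl t.1 = 2) = true ∧
        decide (cl t.2.1 = 0 ∨ cl t.2.1 = 1 ∨ cl t.2.1 = 2) = true ∧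
        decide (cl t.2.2 = 0 ∨ cl t.2.2 = 1 ∨ cl t.2.2 = 2) = true ∧
        T.F t.1 t.2.1 t.2.2 then 1 else 0) +
      (∑ t : V × V × V, if decide (cl t.1 = 0) = true ∧ decide (cl t.2.1 = 0) = true ∧
        decide (cl t.2.2 = 0) = true ∧ T.F t.1 t.2.1 t.2.2 then 1 else 0) +
      (∑ t : V × V × V, if decide (cl t.1 = 1) = true ∧ decide (cl t.2.1 = 1) = true ∧
        decide (cl t.2.2 = 1) = true ∧ T.F t.1 t.2.1 t.2.2 then 1 else 0) +
      (∑ t : V × V × V, if decide (cl t.1 = 2) = true ∧ decide (cl t.2.1 = 2) = true ∧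
        decide (cl t.2.2 = 2) = true ∧ T.F t.1 t.2.1 t.2.2 then 1 else 0) =
      (∑ t : V × V × V, if decide (cl t.1 = 0 ∨ cl t.1 = 1) = true ∧
        decide (cl t.2.1 = 0 ∨ cl t.2.1 = 1) = true ∧
        decide (cl t.2.2 = 0 ∨ cl t.2.2 = 1) = true ∧ T.F t.1 t.2.1 t.2.2 then 1 else 0) +
      (∑ t : V × V × V, if decide (cl t.1 = 0 ∨ cl t.1 = 2) = true ∧
        decide (cl t.2.1 = 0 ∨ cl t.2.1 = 2) = true ∧
        decide (cl t.2.2 = 0 ∨ cl t.2.2 = 2) = true ∧ T.F t.1 t.2.1 t.2.2 then 1 else 0) +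
      (∑ t : V × V × V, if decide (cl t.1 = 1 ∨ cl t.1 = 2) = true ∧
        decide (cl t.2.1 = 1 ∨ cl t.2.1 = 2) = true ∧
        decide (cl t.2.2 = 1 ∨ cl t.2.2 = 2) = true ∧ T.F t.1 t.2.1 t.2.2 then 1 else 0) := by
    simp only [← Finset.sum_add_distrib]
    apply Finset.sum_congr rfl
    intro t _
    by_cases hF : T.F t.1 t.2.1 t.2.2
    · simp only [hF, and_true]
      apply dec3 (cl t.1) (cl t.2.1) (cl t.2.2)
      intro hmix
      have hF2 := T.rot _ _ _ hF
      have hF3 := T.rot _ _ _ hF2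
      rcases cases3 _ _ _ hmix with ⟨h1, h2, h3⟩ | ⟨h1, h2, h3⟩ | ⟨h1, h2, h3⟩ | ⟨h1, h2, h3⟩ |
        ⟨h1, h2, h3⟩ | ⟨h1, h2, h3⟩
      · exact (hno t.1 ((clA _).mpr h1) t.2.1 ((clB _).mpr h2) t.2.2 ((clC _).mpr h3)).1 hF
      · exact (hno t.1 ((clA _).mpr h1) t.2.2 ((clB _).mpr h3) t.2.1 ((clC _).mpr h2)).2 hF
      · exact (hno t.2.1 ((clA _).mpr h2) t.1 ((clB _).mpr h1) t.2.2 ((clC _).mpr h3)).2 hF2
      · exact (hno t.2.2 ((clA _).mpr h3) t.1 ((clB _).mpr h1) t.2.1 ((clC _).mpr h2)).1 hF3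
      · exact (hno t.2.1 ((clA _).mpr h2) t.2.2 ((clB _).mpr h3) t.1 ((clC _).mpr h1)).1 hF2
      · exact (hno t.2.2 ((clA _).mpr h3) t.2.1 ((clB _).mpr h2) t.1 ((clC _).mpr h1)).2 hF3
    · simp only [hF, and_false, if_false]
  omega


end Pool.Agent.H891WLC
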