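import Pool.Agent.H891WLC.Defs

set_option autoImplicit false

namespace Pool.Agent.H891WLC

namespace W_FLOW

open scoped Classical in
theorem up {V : Type} [Fintype V] (G : SimpleGraph V) (K : Set V) (h : V → ℝ)
    (hact : ∀ k ∈ K, ∃ u, G.Adj k u ∧ h k < h u) (y : V) :
    ∃ g : V → V → ℝ, (∀ u v, g u v = -g v u) ∧ (∀ u v, h u < h v → 0 ≤ g u v) ∧
      (∀ u v, ¬ (G.Adj u v ∧ h u ≠ h v) → g u v = 0) ∧
      ∀ k ∈ K, ∑ u, g k u = if k = y then 1 else 0 := by
  have wf : WellFounded (fun a b : V => h b < h a) := by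
    have : IsTrans V (fun a b : V => h b < h a) := ⟨fun a b c h1 h2 => lt_trans h2 h1⟩
    have : Std.Irrefl (fun a b : V => h b < h a) := ⟨fun a h1 => lt_irrefl _ h1⟩
    exact Finite.wellFounded_of_trans_of_irrefl _
  induction y using wf.induction with
  | _ y ih =>
    by_cases hy : y ∈ K
    · obtain ⟨z, hadj, hlt⟩ := hact y hy
      obtain ⟨g, g1, g2, g3, g4⟩ := ih z hlt
      have hyz : y ≠ z := fun e => by rw [e] at hlt; exact lt_irrefl _ hlt
      refine ⟨fun u v => g u v + (if u = y ∧ v = z then 1 else 0) - (if u = z ∧ v = y then 1 else 0),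
        ?_, ?_, ?_, ?_⟩
      · intro u v
        simp only []
        have e1 : (if u = y ∧ v = z then (1 : ℝ) else 0) = if v = z ∧ u = y then 1 else 0 :=
          if_congr and_comm rfl rfl
        have e2 : (if u = z ∧ v = y then (1 : ℝ) else 0) = if v = y ∧ u = z then 1 else 0 :=
          if_congr and_comm rfl rfl
        rw [g1 u v, e1, e2]
        ring
      · intro u v huv
        simp only []
        have e2 : ¬ (u = z ∧ v = y) := by
          rintro ⟨rfl, rfl⟩
          exact lt_irrefl _ (lt_trans huv hlt)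
        rw [if_neg e2]
        have := g2 u v huv
        have h5 : (0 : ℝ) ≤ if u = y ∧ v = z then 1 else 0 := by split_ifs <;> norm_num
        linarith
      · intro u v huv
        simp only []
        have e1 : ¬ (u = y ∧ v = z) := by
          rintro ⟨rfl, rfl⟩
          exact huv ⟨hadj, hlt.ne⟩
        have e2 : ¬ (u = z ∧ v = y) := by
          rintro ⟨rfl, rfl⟩
          exact huv ⟨hadj.symm, hlt.ne'⟩
        rw [if_neg e1, if_neg e2, g3 u v huv]
        ring
      · intro k hk
        rw [Finset.sum_sub_distrib, Finset.sum_add_distrib, g4 k hk]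
        have s1 : ∑ u : V, (if k = y ∧ u = z then (1 : ℝ) else 0) = if k = y then 1 else 0 := by
          by_cases hk' : k = y <;> simp [hk']
        have s2 : ∑ u : V, (if k = z ∧ u = y then (1 : ℝ) else 0) = if k = z then 1 else 0 := by
          by_cases hk' : k = z <;> simp [hk']
        rw [s1, s2]
        ring
    · refine ⟨fun _ _ => 0, ?_, ?_, ?_, ?_⟩
      · intro u v; simp
      · intro u v _; simp
      · intro u v _; rfl
      · intro k hk
        have : k ≠ y := fun e => hy (e ▸ hk)
        simp [this]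

open scoped Classical in
theorem down {V : Type} [Fintype V] (G : SimpleGraph V) (K : Set V) (h : V → ℝ)
    (hact : ∀ k ∈ K, ∃ u, G.Adj k u ∧ h u < h k) (x : V) :
    ∃ g : V → V → ℝ, (∀ u v, g u v = -g v u) ∧ (∀ u v, h u < h v → 0 ≤ g u v) ∧
      (∀ u v, ¬ (G.Adj u v ∧ h u ≠ h v) → g u v = 0) ∧
      ∀ k ∈ K, ∑ u, g k u = if k = x then -1 else 0 := by
  obtain ⟨g, g1, g2, g3, g4⟩ := up G K (fun v => - h v)
    (fun k hk => by
      obtain ⟨u, h1, h2⟩ := hact k hk
      exact ⟨u, h1, by simpa using h2⟩) x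
  refine ⟨fun u v => - g u v, ?_, ?_, ?_, ?_⟩
  · intro u v
    simp only []
    rw [g1 u v]
  · intro u v huv
    simp only []
    rw [← g1 v u]
    exact g2 v u (by simpa using huv)
  · intro u v huv
    simp only []
    rw [g3 u v (fun hh => huv ⟨hh.1, fun e => hh.2 (by simp [e])⟩), neg_zero]
  · intro k hk
    rw [Finset.sum_neg_distrib, g4 k hk]
    split_ifs <;> simp

open scoped Classical in
theorem edge {V : Type} [Fintype V] (G : SimpleGraph V) (K : Set V) (h : V → ℝ)
    (hact : ∀ k ∈ K, (∃ u, G.Adj k u ∧ h u < h k) ∧ (∃ u, G.Adj k u ∧ h k < h u)) (x y : V) :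
    ∃ g : V → V → ℝ, (∀ u v, g u v = -g v u) ∧ (∀ u v, h u < h v → 0 ≤ g u v) ∧
      (∀ u v, ¬ (G.Adj u v ∧ h u ≠ h v) → g u v = 0) ∧
      (∀ k ∈ K, ∑ u, g k u = 0) ∧ (G.Adj x y → h x < h y → 0 < g x y) := by
  by_cases hxy : G.Adj x y ∧ h x < h y
  · obtain ⟨hadj, hlt⟩ := hxy
    obtain ⟨g, g1, g2, g3, g4⟩ := up G K h (fun k hk => (hact k hk).2) y
    obtain ⟨f, f1, f2, f3, f4⟩ := down G K h (fun k hk => (hact k hk).1) x
    have hne : x ≠ y := fun e => by rw [e] at hlt; exact lt_irrefl _ hlt
    refine ⟨fun u v => g u v + f u v + (if u = x ∧ v = y then 1 else 0) -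
      (if u = y ∧ v = x then 1 else 0), ?_, ?_, ?_, ?_, ?_⟩
    · intro u v
      simp only []
      have e1 : (if u = x ∧ v = y then (1 : ℝ) else 0) = if v = y ∧ u = x then 1 else 0 :=
        if_congr and_comm rfl rfl
      have e2 : (if u = y ∧ v = x then (1 : ℝ) else 0) = if v = x ∧ u = y then 1 else 0 :=
        if_congr and_comm rfl rfl
      rw [g1 u v, f1 u v, e1, e2]
      ring
    · intro u v huv
      simp only []
      have e2 : ¬ (u = y ∧ v = x) := by
        rintro ⟨rfl, rfl⟩
        exact lt_irrefl _ (lt_trans huv hlt)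
      rw [if_neg e2]
      have := g2 u v huv
      have := f2 u v huv
      have h5 : (0 : ℝ) ≤ if u = x ∧ v = y then 1 else 0 := by split_ifs <;> norm_num
      linarith
    · intro u v huv
      simp only []
      have e1 : ¬ (u = x ∧ v = y) := by
        rintro ⟨rfl, rfl⟩
        exact huv ⟨hadj, hlt.ne⟩
      have e2 : ¬ (u = y ∧ v = x) := by
        rintro ⟨rfl, rfl⟩
        exact huv ⟨hadj.symm, hlt.ne'⟩
      rw [if_neg e1, if_neg e2, g3 u v huv, f3 u v huv]
      ring
    · intro k hk
      rw [Finset.sum_sub_distrib, Finset.sum_add_distrib, Finset.sum_add_distrib, g4 k hk, f4 k hk]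
      have s1 : ∑ u : V, (if k = x ∧ u = y then (1 : ℝ) else 0) = if k = x then 1 else 0 := by
        by_cases hk' : k = x <;> simp [hk']
      have s2 : ∑ u : V, (if k = y ∧ u = x then (1 : ℝ) else 0) = if k = y then 1 else 0 := by
        by_cases hk' : k = y <;> simp [hk']
      rw [s1, s2]
      split_ifs <;> ring
    · intro _ _
      have e2 : ¬ (x = y ∧ y = x) := fun hh => hne hh.1
      simp only [and_self, if_true]
      rw [if_neg e2]
      have := g2 x y hlt
      have := f2 x y hlt
      linarith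
  · refine ⟨fun _ _ => 0, ?_, ?_, ?_, ?_, ?_⟩
    · intro u v; simp
    · intro u v _; simp
    · intro u v _; rfl
    · intro k hk
      simp
    · intro h1 h2
      exact absurd ⟨h1, h2⟩ hxy

end W_FLOW

open W_FLOW in
theorem FLOW {V : Type} [Fintype V] (G : SimpleGraph V) (K : Set V) (h : V → ℝ)
    (hact : ∀ k ∈ K, (∃ u, G.Adj k u ∧ h u < h k) ∧ (∃ u, G.Adj k u ∧ h k < h u)) :
    ∃ w : V → V → ℝ, (∀ u v, w u v = w v u) ∧ (∀ u v, G.Adj u v → 0 < w u v) ∧ (∀ u v, ¬ G.Adj u v → w u v = 0) ∧
      (∀ k ∈ K, ∑ u, w k u * (h u - h k) = 0) := by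
  classical
  choose g g1 g2 g3 g4 g5 using fun p : V × V => edge G K h hact p.1 p.2
  set f : V → V → ℝ := fun u v => ∑ p : V × V, g p u v with hf
  have f1 : ∀ u v, f u v = - f v u := by
    intro u v
    simp only [hf]
    rw [← Finset.sum_neg_distrib]
    exact Finset.sum_congr rfl fun p _ => g1 p u v
  have f3 : ∀ u v, ¬ (G.Adj u v ∧ h u ≠ h v) → f u v = 0 := by
    intro u v huv
    simp only [hf]
    exact Finset.sum_eq_zero fun p _ => g3 p u v huv
  have f4 : ∀ k ∈ K, ∑ u, f k u = 0 := by
    intro k hk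
    simp only [hf]
    rw [Finset.sum_comm]
    exact Finset.sum_eq_zero fun p _ => g4 p k hk
  have f5 : ∀ u v, G.Adj u v → h u < h v → 0 < f u v := by
    intro u v h1 h2
    simp only [hf]
    refine Finset.sum_pos' (fun p _ => g2 p u v h2) ⟨(u, v), Finset.mem_univ _, g5 (u, v) h1 h2⟩
  refine ⟨fun u v => if G.Adj u v then (if h u = h v then 1 else f u v / (h v - h u)) else 0,
    ?_, ?_, ?_, ?_⟩
  · intro u v
    simp only []
    by_cases ha : G.Adj u v
    · rw [if_pos ha, if_pos ha.symm]
      by_cases he : h u = h v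
      · rw [if_pos he, if_pos he.symm]
      · rw [if_neg he, if_neg (Ne.symm he), f1 u v, ← neg_sub (h u) (h v), neg_div_neg_eq]
    · rw [if_neg ha, if_neg (fun hh => ha hh.symm)]
  · intro u v ha
    simp only []
    rw [if_pos ha]
    by_cases he : h u = h v
    · rw [if_pos he]; norm_num
    · rw [if_neg he]
      rcases lt_or_gt_of_ne he with h1 | h1
      · exact div_pos (f5 u v ha h1) (by linarith)
      · have := f5 v u ha.symm h1
        rw [f1 u v]
        exact div_pos_of_neg_of_neg (by linarith) (by linarith)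
  · intro u v ha
    simp only []
    rw [if_neg ha]
  · intro k hk
    refine (Finset.sum_congr rfl fun u _ => ?_).trans (f4 k hk)
    simp only []
    by_cases ha : G.Adj k u
    · rw [if_pos ha]
      by_cases he : h k = h u
      · rw [if_pos he, he, sub_self, mul_zero, f3 k u (fun hh => hh.2 he)]
      · rw [if_neg he]
        have : h u - h k ≠ 0 := sub_ne_zero.mpr (Ne.symm he)
        field_simp
    · rw [if_neg ha, zero_mul, f3 k u (fun hh => ha hh.1)]


end Pool.Agent.H891WLC
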