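import Pool.Agent.H891WLC.Defs
import Pool.Agent.H891WLC.tri_conn3
import Pool.Agent.H891WLC.EE
import Pool.Agent.H891WLC.prefix_order
import Pool.Agent.H891WLC.NF
import Pool.Agent.H891WLC.FLOW

set_option autoImplicit false

namespace Pool.Agent.H891WLC

namespace W_TIE
open Classical Finset

variable {V : Type}

/-- squashing function -/
noncomputable def sqf (t : ℝ) : ℝ := 1 / 2 + Real.arctan t / Real.pi

theorem sqf_pos (t : ℝ) : 0 < sqf t := by
  have hpi := Real.pi_pos
  have h := Real.neg_pi_div_two_lt_arctan t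
  have h2 : -(1 / 2) < Real.arctan t / Real.pi := by
    rw [lt_div_iff₀ hpi]; linarith
  unfold sqf; linarith

theorem sqf_lt (t : ℝ) : sqf t < 1 := by
  have hpi := Real.pi_pos
  have h := Real.arctan_lt_pi_div_two t
  have h2 : Real.arctan t / Real.pi < 1 / 2 := by
    rw [div_lt_iff₀ hpi]; linarith
  unfold sqf; linarith

theorem sqf_mono {s t : ℝ} (h : s < t) : sqf s < sqf t := by
  have h1 := Real.arctan_strictMono h
  have h2 := div_lt_div_of_pos_right h1 Real.pi_pos
  unfold sqf; linarith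

/-- extension by `0` on `S` and `1` on `U` -/
noncomputable def ext01 (S U : Set V) (h : V → ℝ) (v : V) : ℝ :=
  if v ∈ S then 0 else if v ∈ U then 1 else sqf (h v)

theorem ext_act (G : SimpleGraph V) (K S U : Set V) (hKS : Disjoint K S) (hKU : Disjoint K U)
    (hSU : Disjoint S U) (h : V → ℝ) (hv : Valid G S U K h) :
    ∀ k ∈ K, (∃ u, G.Adj k u ∧ ext01 S U h u < ext01 S U h k) ∧
      (∃ u, G.Adj k u ∧ ext01 S U h k < ext01 S U h u) := by
  intro k hk
  have hkS : k ∉ S := Set.disjoint_left.mp hKS hk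
  have hkU : k ∉ U := Set.disjoint_left.mp hKU hk
  have hek : ext01 S U h k = sqf (h k) := by simp [ext01, hkS, hkU]
  obtain ⟨⟨u, hu, hu'⟩, ⟨t, ht, ht'⟩⟩ := hv k hk
  refine ⟨⟨u, hu, ?_⟩, ⟨t, ht, ?_⟩⟩
  · rw [hek]
    rcases hu' with h1 | ⟨h1, h2⟩
    · have : ext01 S U h u = 0 := by simp [ext01, h1]
      rw [this]; exact sqf_pos _
    · have h3 : u ∉ S := Set.disjoint_left.mp hKS h1
      have h4 : u ∉ U := Set.disjoint_left.mp hKU h1
      have : ext01 S U h u = sqf (h u) := by simp [ext01, h3, h4]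
      rw [this]; exact sqf_mono h2
  · rw [hek]
    rcases ht' with h1 | ⟨h1, h2⟩
    · have h3 : t ∉ S := Set.disjoint_right.mp hSU h1
      have : ext01 S U h t = 1 := by simp [ext01, h1, h3]
      rw [this]; exact sqf_lt _
    · have h3 : t ∉ S := Set.disjoint_left.mp hKS h1
      have h4 : t ∉ U := Set.disjoint_left.mp hKU h1
      have : ext01 S U h t = sqf (h t) := by simp [ext01, h3, h4]
      rw [this]; exact sqf_mono h2

/-- weights: positive on edges and zero off the edges -/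
def PW (G : SimpleGraph V) (w : V → V → ℝ) : Prop :=
  (∀ u v, G.Adj u v → 0 < w u v) ∧ (∀ u v, ¬ G.Adj u v → w u v = 0)

/-- harmonic at `k` -/
def Hmc [Fintype V] (w : V → V → ℝ) (f : V → ℝ) (k : V) : Prop := ∑ u, w k u * (f u - f k) = 0

theorem flat_of_max [Fintype V] {G : SimpleGraph V} {w : V → V → ℝ} (hw : PW G w) {f : V → ℝ} {k : V}
    (hk : Hmc w f k) (hmax : ∀ u, G.Adj k u → f u ≤ f k) : ∀ u, G.Adj k u → f u = f k := by
  have hnp : ∀ u ∈ (Finset.univ : Finset V), w k u * (f u - f k) ≤ 0 := by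
    intro u _
    by_cases h : G.Adj k u
    · have h1 := hw.1 k u h
      have h2 := hmax u h
      nlinarith
    · rw [hw.2 k u h]; simp
  have h0 := (Finset.sum_eq_zero_iff_of_nonpos hnp).mp hk
  intro u hu
  have h1 := h0 u (Finset.mem_univ u)
  have h2 := hw.1 k u hu
  rcases mul_eq_zero.mp h1 with h3 | h3
  · linarith
  · linarith

theorem Hmc_neg [Fintype V] {w : V → V → ℝ} {f : V → ℝ} {k : V} (h : Hmc w f k) :
    Hmc w (fun v => - f v) k := by
  unfold Hmc at *
  have : ∑ u, w k u * (-f u - -f k) = - ∑ u, w k u * (f u - f k) := by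
    rw [← Finset.sum_neg_distrib]
    apply Finset.sum_congr rfl
    intro u _
    ring
  rw [this, h, neg_zero]

theorem flat_of_min [Fintype V] {G : SimpleGraph V} {w : V → V → ℝ} (hw : PW G w) {f : V → ℝ} {k : V}
    (hk : Hmc w f k) (hmin : ∀ u, G.Adj k u → f k ≤ f u) : ∀ u, G.Adj k u → f u = f k := by
  intro u hu
  have h := flat_of_max hw (Hmc_neg hk) (fun u hu => by have := hmin u hu; linarith) u hu
  linarith

theorem act_or_flat [Fintype V] {G : SimpleGraph V} {w : V → V → ℝ} (hw : PW G w) {f : V → ℝ} {k : V}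
    (hk : Hmc w f k) : ((∃ u, G.Adj k u ∧ f u < f k) ∧ (∃ u, G.Adj k u ∧ f k < f u)) ∨
      (∀ u, G.Adj k u → f u = f k) := by
  by_cases h1 : ∃ u, G.Adj k u ∧ f u < f k
  · by_cases h2 : ∃ u, G.Adj k u ∧ f k < f u
    · exact Or.inl ⟨h1, h2⟩
    · right
      push Not at h2
      exact flat_of_max hw hk h2
  · right
    push Not at h1
    exact flat_of_min hw hk h1

/-- every nonempty subset of `K` has an edge leaving it -/
def Esc (G : SimpleGraph V) (K : Set V) : Prop :=
  ∀ A : Set V, A ⊆ K → A.Nonempty → ∃ a ∈ A, ∃ u, u ∉ A ∧ G.Adj a u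

theorem maxp [Fintype V] {G : SimpleGraph V} {K : Set V} {w : V → V → ℝ} (hw : PW G w)
    (hesc : Esc G K) (f : V → ℝ) (hf : ∀ k ∈ K, Hmc w f k) (M : ℝ)
    (hM : ∀ v, v ∉ K → f v ≤ M) : ∀ v, f v ≤ M := by
  by_contra hcon
  push Not at hcon
  obtain ⟨v1, hv1⟩ := hcon
  haveI : Nonempty V := ⟨v1⟩
  obtain ⟨v0, hv0⟩ := Finite.exists_max f
  have hMv0 : M < f v0 := lt_of_lt_of_le hv1 (hv0 v1)
  have hAK : {v | f v = f v0} ⊆ K := by
    intro v hv
    by_contra hvK
    have h1 := hM v hvK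
    have h2 : f v = f v0 := hv
    linarith
  obtain ⟨a, ha, u, hu, hau⟩ := hesc {v | f v = f v0} hAK ⟨v0, rfl⟩
  have ha' : f a = f v0 := ha
  have h3 := flat_of_max hw (hf a (hAK ha)) (fun z _ => by rw [ha']; exact hv0 z) u hau
  exact hu (h3.trans ha')

theorem esc_of_valid [Finite V] {G : SimpleGraph V} {K S U : Set V} (hKS : Disjoint K S)
    {h : V → ℝ} (hv : Valid G S U K h) : Esc G K := by
  intro A hA hne
  obtain ⟨a, ha, hmin⟩ := Set.exists_min_image A h (Set.toFinite A) hne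
  obtain ⟨⟨u, hu, hu'⟩, _⟩ := hv a (hA ha)
  refine ⟨a, ha, u, ?_, hu⟩
  intro huA
  rcases hu' with h1 | ⟨_, h2⟩
  · exact Set.disjoint_left.mp hKS (hA huA) h1
  · exact absurd (hmin u huA) (not_le.mpr h2)

/-- the matrix of the Dirichlet problem -/
noncomputable def MM [Fintype V] [DecidableEq V] (K : Set V) (w : V → V → ℝ) : Matrix V V ℝ :=
  Matrix.of fun v u => if v ∈ K then (w v u - if v = u then ∑ z, w v z else 0)
    else if v = u then 1 else 0

theorem MM_mulVec [Fintype V] [DecidableEq V] (K : Set V) (w : V → V → ℝ) (f : V → ℝ) (v : V) :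
    (MM K w).mulVec f v = if v ∈ K then ∑ u, w v u * (f u - f v) else f v := by
  by_cases hv : v ∈ K
  · simp only [MM, Matrix.mulVec, dotProduct, Matrix.of_apply, hv, if_true, sub_mul, mul_sub,
      Finset.sum_sub_distrib, ite_mul, zero_mul, Finset.sum_ite_eq, Finset.mem_univ,
      ← Finset.sum_mul]
  · simp [MM, Matrix.mulVec, dotProduct, Matrix.of_apply, hv, ite_mul]

theorem MM_det [Fintype V] [DecidableEq V] {G : SimpleGraph V} {K : Set V} {w : V → V → ℝ}
    (hw : PW G w) (hesc : Esc G K) : (MM K w).det ≠ 0 := by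
  intro h0
  obtain ⟨f, hf, hMf⟩ := Matrix.exists_mulVec_eq_zero_iff.mpr h0
  apply hf
  have hh : ∀ k ∈ K, Hmc w f k := by
    intro k hk
    have := congrFun hMf k
    rw [MM_mulVec, if_pos hk] at this
    exact this
  have h1 : ∀ v, v ∉ K → f v = 0 := by
    intro v hv
    have := congrFun hMf v
    rw [MM_mulVec, if_neg hv] at this
    exact this
  have h2 := maxp hw hesc f hh 0 (fun v hv => (h1 v hv).le)
  have h3 := maxp hw hesc (fun v => - f v) (fun k hk => Hmc_neg (hh k hk)) 0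
    (fun v hv => by simp [h1 v hv])
  funext v
  have h4 := h2 v
  have h5 := h3 v
  show f v = 0
  linarith

/-- existence of a harmonic function with a tie -/
theorem exists_tie [Fintype V] [DecidableEq V] (G : SimpleGraph V) (K S U : Set V)
    (hcov : ∀ v, v ∈ K ∨ v ∈ S ∨ v ∈ U) (hKS : Disjoint K S) (hKU : Disjoint K U)
    (hSU : Disjoint S U) (h₁ h₂ : V → ℝ) (hv1 : Valid G S U K h₁) (hv2 : Valid G S U K h₂)
    (x y : V) (hx : x ∈ K) (hy : y ∈ K) (h1 : h₁ x < h₁ y) (h2 : h₂ y < h₂ x) :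
    ∃ (w : V → V → ℝ) (g : V → ℝ), PW G w ∧ (∀ k ∈ K, Hmc w g k) ∧ (∀ v ∈ S, g v = 0) ∧
      (∀ v ∈ U, g v = 1) ∧ g x = g y := by
  have hesc : Esc G K := esc_of_valid hKS hv1
  obtain ⟨w₁, _, hw1p, hw1z, hw1h⟩ := FLOW G K (ext01 S U h₁) (ext_act G K S U hKS hKU hSU h₁ hv1)
  obtain ⟨w₂, _, hw2p, hw2z, hw2h⟩ := FLOW G K (ext01 S U h₂) (ext_act G K S U hKS hKU hSU h₂ hv2)
  set ws : ℝ → V → V → ℝ := fun s u v => (1 - s) * w₁ u v + s * w₂ u v with hws
  have hPW : ∀ s ∈ Set.Icc (0 : ℝ) 1, PW G (ws s) := by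
    intro s hs
    constructor
    · intro u v huv
      have a1 := hw1p u v huv
      have a2 := hw2p u v huv
      have a3 : 0 ≤ 1 - s := by linarith [hs.2]
      have a4 : 0 ≤ s := hs.1
      show 0 < (1 - s) * w₁ u v + s * w₂ u v
      rcases eq_or_lt_of_le a4 with a5 | a5
      · rw [← a5]; simpa using a1
      · have := mul_pos a5 a2
        have := mul_nonneg a3 a1.le
        linarith
    · intro u v huv
      show (1 - s) * w₁ u v + s * w₂ u v = 0
      rw [hw1z u v huv, hw2z u v huv]; ring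
  have hdet : ∀ s ∈ Set.Icc (0 : ℝ) 1, (MM K (ws s)).det ≠ 0 := fun s hs => MM_det (hPW s hs) hesc
  have hcontM : Continuous (fun s : ℝ => MM K (ws s)) := by
    apply continuous_matrix
    intro i j
    simp only [MM, Matrix.of_apply, hws]
    split_ifs <;> fun_prop
  set b : V → ℝ := fun v => if v ∈ U then 1 else 0 with hb
  have hcontC : Continuous (fun s : ℝ => (MM K (ws s)).cramer b) :=
    hcontM.matrix_cramer continuous_const
  have hcontD : Continuous (fun s : ℝ => (MM K (ws s)).det) := hcontM.matrix_det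
  -- the solution
  set sol : ℝ → V → ℝ := fun s v => (MM K (ws s)).cramer b v / (MM K (ws s)).det with hsol
  have hsolve : ∀ s ∈ Set.Icc (0 : ℝ) 1, (MM K (ws s)).mulVec (sol s) = b := by
    intro s hs
    have h3 : sol s = ((MM K (ws s)).det)⁻¹ • (MM K (ws s)).cramer b := by
      funext v
      simp only [hsol, Pi.smul_apply, smul_eq_mul]
      rw [div_eq_inv_mul]
    rw [h3, Matrix.mulVec_smul, Matrix.mulVec_cramer, smul_smul, inv_mul_cancel₀ (hdet s hs), one_smul]
  have huniq : ∀ s ∈ Set.Icc (0 : ℝ) 1, ∀ g : V → ℝ, (MM K (ws s)).mulVec g = b → sol s = g := by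
    intro s hs g hg
    funext v
    have h3 : (MM K (ws s)).cramer b = (MM K (ws s)).det • g := by
      rw [← hg, Matrix.cramer_eq_adjugate_mulVec, Matrix.mulVec_mulVec, Matrix.adjugate_mul,
        Matrix.smul_mulVec, Matrix.one_mulVec]
    simp only [hsol]
    rw [h3, Pi.smul_apply, smul_eq_mul, mul_div_cancel_left₀ _ (hdet s hs)]
  have hex : ∀ h : V → ℝ, ∀ v, v ∉ K → ext01 S U h v = b v := by
    intro h v hv
    rcases hcov v with h3 | h3 | h3
    · exact absurd h3 hv
    · have h4 : v ∉ U := Set.disjoint_left.mp hSU h3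
      simp [ext01, h3, hb, h4]
    · have h4 : v ∉ S := Set.disjoint_right.mp hSU h3
      simp [ext01, h3, hb, h4]
  have hbK : ∀ v ∈ K, b v = 0 := by
    intro v hv
    have h4 : v ∉ U := Set.disjoint_left.mp hKU hv
    simp [hb, h4]
  have hsol0 : sol 0 = ext01 S U h₁ := by
    apply huniq 0 (by constructor <;> norm_num)
    funext v
    rw [MM_mulVec]
    by_cases hv : v ∈ K
    · rw [if_pos hv, hbK v hv]
      have := hw1h v hv
      simpa [hws] using this
    · rw [if_neg hv, hex _ v hv]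
  have hsol1 : sol 1 = ext01 S U h₂ := by
    apply huniq 1 (by constructor <;> norm_num)
    funext v
    rw [MM_mulVec]
    by_cases hv : v ∈ K
    · rw [if_pos hv, hbK v hv]
      have := hw2h v hv
      simpa [hws] using this
    · rw [if_neg hv, hex _ v hv]
  have hcont : ContinuousOn (fun s => sol s x - sol s y) (Set.Icc 0 1) := by
    apply ContinuousOn.sub
    · exact ((continuous_apply x).comp hcontC).continuousOn.div hcontD.continuousOn hdet
    · exact ((continuous_apply y).comp hcontC).continuousOn.div hcontD.continuousOn hdet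
  have hxS : x ∉ S := Set.disjoint_left.mp hKS hx
  have hxU : x ∉ U := Set.disjoint_left.mp hKU hx
  have hyS : y ∉ S := Set.disjoint_left.mp hKS hy
  have hyU : y ∉ U := Set.disjoint_left.mp hKU hy
  have e0 : sol 0 x - sol 0 y ≤ 0 := by
    rw [hsol0]
    have := sqf_mono h1
    simp only [ext01, hxS, hxU, hyS, hyU, if_false]
    linarith
  have e1 : 0 ≤ sol 1 x - sol 1 y := by
    rw [hsol1]
    have := sqf_mono h2
    simp only [ext01, hxS, hxU, hyS, hyU, if_false]
    linarith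
  obtain ⟨s, hs, hs0⟩ := intermediate_value_Icc (by norm_num : (0 : ℝ) ≤ 1) hcont ⟨e0, e1⟩
  have hS := hsolve s hs
  refine ⟨ws s, sol s, hPW s hs, ?_, ?_, ?_, ?_⟩
  · intro k hk
    have := congrFun hS k
    rw [MM_mulVec, if_pos hk, hbK k hk] at this
    exact this
  · intro v hv
    have hvK : v ∉ K := Set.disjoint_right.mp hKS hv
    have hvU : v ∉ U := Set.disjoint_left.mp hSU hv
    have := congrFun hS v
    rw [MM_mulVec, if_neg hvK] at this
    rw [this]; simp [hb, hvU]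
  · intro v hv
    have hvK : v ∉ K := Set.disjoint_right.mp hKU hv
    have := congrFun hS v
    rw [MM_mulVec, if_neg hvK] at this
    rw [this]; simp [hb, hv]
  · have : sol s x - sol s y = 0 := hs0
    linarith

/-- the values on `K` are strictly between `0` and `1` -/
theorem strict01 [Fintype V] {G : SimpleGraph V} {K S U : Set V}
    (hcov : ∀ v, v ∈ K ∨ v ∈ S ∨ v ∈ U) (hKS : Disjoint K S)
    {h₁ : V → ℝ} (hv1 : Valid G S U K h₁)
    {w : V → V → ℝ} {g : V → ℝ} (hw : PW G w) (hg : ∀ k ∈ K, Hmc w g k) (hS : ∀ v ∈ S, g v = 0)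
    (hU : ∀ v ∈ U, g v = 1) : ∀ k ∈ K, 0 < g k ∧ g k < 1 := by
  have hesc : Esc G K := esc_of_valid hKS hv1
  have hle : ∀ v, g v ≤ 1 := by
    apply maxp hw hesc g hg
    intro v hv
    rcases hcov v with h | h | h
    · exact absurd h hv
    · rw [hS v h]; norm_num
    · rw [hU v h]
  have hge : ∀ v, - g v ≤ 0 := by
    apply maxp hw hesc (fun v => - g v) (fun k hk => Hmc_neg (hg k hk))
    intro v hv
    rcases hcov v with h | h | h
    · exact absurd h hv
    · rw [hS v h]; norm_num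
    · rw [hU v h]; norm_num
  have hlt : ∀ k ∈ K, g k ≠ 1 := by
    by_contra hcon
    push Not at hcon
    obtain ⟨k, hk, hk1⟩ := hcon
    obtain ⟨a, ha, hmin⟩ := Set.exists_min_image {v | v ∈ K ∧ g v = 1} h₁ (Set.toFinite _) ⟨k, hk, hk1⟩
    obtain ⟨⟨u, hu, hu'⟩, _⟩ := hv1 a ha.1
    have h3 := flat_of_max hw (hg a ha.1) (fun z _ => by rw [ha.2]; exact hle z) u hu
    rw [ha.2] at h3
    rcases hu' with h4 | ⟨h4, h5⟩
    · rw [hS u h4] at h3; norm_num at h3
    · exact absurd (hmin u ⟨h4, h3⟩) (not_le.mpr h5)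
  have hgt : ∀ k ∈ K, g k ≠ 0 := by
    by_contra hcon
    push Not at hcon
    obtain ⟨k, hk, hk1⟩ := hcon
    obtain ⟨a, ha, hmax⟩ := Set.exists_max_image {v | v ∈ K ∧ g v = 0} h₁ (Set.toFinite _) ⟨k, hk, hk1⟩
    obtain ⟨_, ⟨u, hu, hu'⟩⟩ := hv1 a ha.1
    have h3 := flat_of_min hw (hg a ha.1) (fun z _ => by rw [ha.2]; linarith [hge z]) u hu
    rw [ha.2] at h3
    rcases hu' with h4 | ⟨h4, h5⟩
    · rw [hU u h4] at h3; norm_num at h3
    · exact absurd (hmax u ⟨h4, h3⟩) (not_le.mpr h5)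
  intro k hk
  exact ⟨lt_of_le_of_ne (by linarith [hge k]) (Ne.symm (hgt k hk)), lt_of_le_of_ne (hle k) (hlt k hk)⟩

theorem reach_sym {G : SimpleGraph V} {A : Set V} {u v : V} (hu : u ∈ A)
    (h : Relation.ReflTransGen (fun x y => G.Adj x y ∧ y ∈ A) u v) :
    Relation.ReflTransGen (fun x y => G.Adj x y ∧ y ∈ A) v u ∧ v ∈ A := by
  induction h with
  | refl => exact ⟨Relation.ReflTransGen.refl, hu⟩
  | tail _ hbc ih =>
    exact ⟨Relation.ReflTransGen.head ⟨hbc.1.symm, ih.2⟩ ih.1, hbc.2⟩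

/-- climbing: the complement of `S` is connected -/
theorem climb_conn [Finite V] (G : SimpleGraph V) (K S U : Set V)
    (hcov : ∀ v, v ∈ K ∨ v ∈ S ∨ v ∈ U) (hKS : Disjoint K S) (hSU : Disjoint S U)
    (hU : Conn G U) (h : V → ℝ)
    (hv : ∀ k ∈ K, ∃ u, G.Adj k u ∧ (u ∈ U ∨ (u ∈ K ∧ h k < h u))) : Conn G Sᶜ := by
  have hUS : U ⊆ Sᶜ := fun v hv hvS => Set.disjoint_left.mp hSU hvS hv
  have hKSc : K ⊆ Sᶜ := fun v hv hvS => Set.disjoint_left.mp hKS hv hvS
  have hreach : ∀ k ∈ K, ∃ u ∈ U, Relation.ReflTransGen (fun x y => G.Adj x y ∧ y ∈ Sᶜ) k u := by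
    by_contra hcon
    push Not at hcon
    obtain ⟨k, hk, hk1⟩ := hcon
    obtain ⟨a, ha, hmax⟩ := Set.exists_max_image
      {v | v ∈ K ∧ ∀ u ∈ U, ¬ Relation.ReflTransGen (fun x y => G.Adj x y ∧ y ∈ Sᶜ) v u} h
      (Set.toFinite _) ⟨k, hk, hk1⟩
    obtain ⟨u, hu, hu'⟩ := hv a ha.1
    rcases hu' with h4 | ⟨h4, h5⟩
    · exact ha.2 u h4 (Relation.ReflTransGen.single ⟨hu, hUS h4⟩)
    · by_cases h6 : ∀ t ∈ U, ¬ Relation.ReflTransGen (fun x y => G.Adj x y ∧ y ∈ Sᶜ) u t
      · exact absurd (hmax u ⟨h4, h6⟩) (not_le.mpr h5)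
      · push Not at h6
        obtain ⟨t, ht, htr⟩ := h6
        exact ha.2 t ht (Relation.ReflTransGen.head ⟨hu, hKSc h4⟩ htr)
  have hreach' : ∀ v ∈ Sᶜ, ∃ u ∈ U, Relation.ReflTransGen (fun x y => G.Adj x y ∧ y ∈ Sᶜ) v u := by
    intro v hvS
    rcases hcov v with h3 | h3 | h3
    · exact hreach v h3
    · exact absurd h3 hvS
    · exact ⟨v, h3, Relation.ReflTransGen.refl⟩
  refine ⟨hU.1.mono hUS, ?_⟩
  intro u hu v hv
  obtain ⟨u', hu', hur⟩ := hreach' u hu
  obtain ⟨v', hv', hvr⟩ := hreach' v hv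
  have hmid := hU.2 u' hu' v' hv'
  have hmid' : Relation.ReflTransGen (fun x y => G.Adj x y ∧ y ∈ Sᶜ) u' v' :=
    hmid.lift id (fun a b hab => ⟨hab.1, hUS hab.2⟩)
  exact (hur.trans hmid').trans (reach_sym hv hvr).1

/-- by the no-flat lemma the harmonic function is valid -/
theorem valid_of_harm [Fintype V] (T : Tri V) (K S U : Set V) (hs : Split T.G K S U)
    (h₁ : V → ℝ) (hv1 : Valid T.G S U K h₁) (g : V → ℝ)
    (hS : ∀ v ∈ S, g v = 0) (hU : ∀ v ∈ U, g v = 1) (hK : ∀ k ∈ K, 0 < g k ∧ g k < 1)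
    (haf : ∀ k ∈ K, ((∃ u, T.G.Adj k u ∧ g u < g k) ∧ (∃ u, T.G.Adj k u ∧ g k < g u)) ∨
      (∀ u, T.G.Adj k u → g u = g k)) : Valid T.G S U K g := by
  obtain ⟨hcov, hKS, hKU, hSU, hcS, hcU, _, _, _⟩ := hs
  have h2 : ∀ x : V, Conn T.G ({x}ᶜ : Set V) := by
    intro x
    have := tri_conn3 T x x
    rwa [Set.pair_eq_singleton] at this
  have hSc : Conn T.G Sᶜ := climb_conn T.G K S U hcov hKS hSU hcU h₁ (fun k hk => (hv1 k hk).2)
  have hUc : Conn T.G Uᶜ := by
    apply climb_conn T.G K U S _ hKU hSU.symm hcS (fun v => - h₁ v)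
    · intro k hk
      obtain ⟨u, hu, hu'⟩ := (hv1 k hk).1
      refine ⟨u, hu, ?_⟩
      rcases hu' with h | ⟨h, h'⟩
      · exact Or.inl h
      · exact Or.inr ⟨h, by linarith⟩
    · intro v
      rcases hcov v with h | h | h
      · exact Or.inl h
      · exact Or.inr (Or.inr h)
      · exact Or.inr (Or.inl h)
  obtain ⟨b, hb⟩ := hcS.1
  obtain ⟨t, ht⟩ := hcU.1
  have htS : t ∉ S := Set.disjoint_right.mp hSU ht
  have hbU : b ∉ U := Set.disjoint_left.mp hSU hb
  obtain ⟨p, _, hp2, hp3, hp4, _⟩ := prefix_order T.G h2 S b t hb htS hcS hSc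
  obtain ⟨q, _, hq2, hq3, _, hq5⟩ := prefix_order T.G h2 Uᶜ b t hbU (by simpa using ht) hUc
    (by rwa [compl_compl])
  -- the weak order
  set H : V → ℝ := fun v => if v ∈ S then -2 + sqf (p v) else if v ∈ U then 2 + sqf (q v) else g v
    with hH
  have HS : ∀ v ∈ S, H v = -2 + sqf (p v) := fun v hv => by simp [hH, hv]
  have HU : ∀ v ∈ U, H v = 2 + sqf (q v) := fun v hv => by
    have : v ∉ S := Set.disjoint_right.mp hSU hv
    simp [hH, hv, this]
  have HK : ∀ v ∈ K, H v = g v := fun v hv => by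
    have h3 : v ∉ S := Set.disjoint_left.mp hKS hv
    have h4 : v ∉ U := Set.disjoint_left.mp hKU hv
    simp [hH, h3, h4]
  have HSb : ∀ v ∈ S, H v < -1 := fun v hv => by rw [HS v hv]; linarith [sqf_lt (p v)]
  have HUb : ∀ v ∈ U, 2 < H v := fun v hv => by rw [HU v hv]; linarith [sqf_pos (q v)]
  have HKb : ∀ v ∈ K, 0 < H v ∧ H v < 1 := fun v hv => by rw [HK v hv]; exact hK v hv
  have HnS : ∀ v, v ∉ S → 0 < H v := by
    intro v hv
    rcases hcov v with h | h | h
    · exact (HKb v h).1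
    · exact absurd h hv
    · linarith [HUb v h]
  have HnU : ∀ v, v ∉ U → H v < 1 := by
    intro v hv
    rcases hcov v with h | h | h
    · exact (HKb v h).2
    · linarith [HSb v h]
    · exact absurd h hv
  have hminb : ∀ v, v ≠ b → H b < H v := by
    intro v hv
    by_cases hvS : v ∈ S
    · rw [HS v hvS, HS b hb]
      linarith [sqf_mono (hp4 v hv)]
    · linarith [HSb b hb, HnS v hvS]
  have hmaxt : ∀ v, v ≠ t → H v < H t := by
    intro v hv
    by_cases hvU : v ∈ U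
    · rw [HU v hvU, HU t ht]
      linarith [sqf_mono (hq5 v hv)]
    · linarith [HUb t ht, HnU v hvU]
  have hact : ∀ v, v ≠ b → v ≠ t → ((∃ u, T.G.Adj v u ∧ H u < H v) ∧ (∃ u, T.G.Adj v u ∧ H v < H u)) ∨
      (∀ u, T.G.Adj v u → H u = H v) := by
    intro v hvb hvt
    rcases hcov v with hv | hv | hv
    · rcases haf v hv with ⟨⟨u, hu, hu'⟩, ⟨z, hz, hz'⟩⟩ | hflat
      · left
        refine ⟨⟨u, hu, ?_⟩, ⟨z, hz, ?_⟩⟩
        · rcases hcov u with h | h | h
          · rw [HK u h, HK v hv]; exact hu'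
          · linarith [HSb u h, (HKb v hv).1]
          · rw [hU u h] at hu'; linarith [(hK v hv).2]
        · rcases hcov z with h | h | h
          · rw [HK z h, HK v hv]; exact hz'
          · rw [hS z h] at hz'; linarith [(hK v hv).1]
          · linarith [HUb z h, (HKb v hv).2]
      · right
        intro u hu
        have h3 := hflat u hu
        rcases hcov u with h | h | h
        · rw [HK u h, HK v hv]; exact h3
        · rw [hS u h] at h3; linarith [(hK v hv).1]
        · rw [hU u h] at h3; linarith [(hK v hv).2]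
    · left
      obtain ⟨⟨u, hu, hu'⟩, ⟨z, hz, hz'⟩⟩ := hp3 v hvb hvt
      refine ⟨⟨u, hu, ?_⟩, ⟨z, hz, ?_⟩⟩
      · have huS : u ∈ S := by
          by_contra h
          exact absurd (hp2 v hv u h) (not_lt.mpr hu'.le)
        rw [HS u huS, HS v hv]
        linarith [sqf_mono hu']
      · by_cases hzS : z ∈ S
        · rw [HS z hzS, HS v hv]
          linarith [sqf_mono hz']
        · linarith [HnS z hzS, HSb v hv]
    · left
      obtain ⟨⟨u, hu, hu'⟩, ⟨z, hz, hz'⟩⟩ := hq3 v hvb hvt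
      refine ⟨⟨u, hu, ?_⟩, ⟨z, hz, ?_⟩⟩
      · by_cases huU : u ∈ U
        · rw [HU u huU, HU v hv]
          linarith [sqf_mono hu']
        · linarith [HnU u huU, HUb v hv]
      · have hzU : z ∈ U := by
          by_contra h
          exact absurd (hq2 z h v (by simpa using hv)) (not_lt.mpr hz'.le)
        rw [HU z hzU, HU v hv]
        linarith [sqf_mono hz']
  have hNF := (NF T H b t hminb hmaxt hact).1
  intro k hk
  have hkb : k ≠ b := fun h => Set.disjoint_left.mp hKS hk (h ▸ hb)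
  have hkt : k ≠ t := fun h => Set.disjoint_left.mp hKU hk (h ▸ ht)
  obtain ⟨⟨u, hu, hu'⟩, ⟨z, hz, hz'⟩⟩ := hNF k hkb hkt
  refine ⟨⟨u, hu, ?_⟩, ⟨z, hz, ?_⟩⟩
  · rcases hcov u with h | h | h
    · right
      rw [HK u h, HK k hk] at hu'
      exact ⟨h, hu'⟩
    · exact Or.inl h
    · linarith [HUb u h, (HKb k hk).2]
  · rcases hcov z with h | h | h
    · right
      rw [HK z h, HK k hk] at hz'
      exact ⟨h, hz'⟩
    · linarith [HSb z h, (HKb k hk).1]
    · exact Or.inl h

/-- small perturbations -/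
theorem perturb [Finite V] (g τ : V → ℝ) :
    ∃ ε : ℝ, 0 < ε ∧ ∀ u v, g u < g v → g u + ε * τ u < g v + ε * τ v := by
  have h1 : ∀ᶠ ε in nhdsWithin (0 : ℝ) (Set.Ioi 0), ∀ u v, g u < g v →
      g u + ε * τ u < g v + ε * τ v := by
    rw [Filter.eventually_all]
    intro u
    rw [Filter.eventually_all]
    intro v
    by_cases h : g u < g v
    · have hc : Continuous (fun ε : ℝ => g v + ε * τ v - (g u + ε * τ u)) := by fun_prop
      have h0 : 0 < (fun ε : ℝ => g v + ε * τ v - (g u + ε * τ u)) 0 := by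
        simp only [zero_mul, add_zero]; linarith
      have h2 := (hc.tendsto 0).eventually (lt_mem_nhds h0)
      filter_upwards [mem_nhdsWithin_of_mem_nhds h2] with ε hε _
      have : 0 < g v + ε * τ v - (g u + ε * τ u) := hε
      linarith
    · exact Filter.Eventually.of_forall (fun ε hh => absurd hh h)
  have h2 := h1.and self_mem_nhdsWithin
  obtain ⟨ε, hε1, hε2⟩ := h2.exists
  exact ⟨ε, hε2, hε1⟩

end W_TIE

open W_TIE in
theorem TIE {V : Type} [Fintype V] [DecidableEq V] (T : Tri V) (K S U : Set V) (hs : Split T.G K S U)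
    (h₁ h₂ : V → ℝ) (hv1 : Valid T.G S U K h₁) (hv2 : Valid T.G S U K h₂)
    (hi1 : Set.InjOn h₁ K) (hi2 : Set.InjOn h₂ K) (x y : V) (hx : x ∈ K) (hy : y ∈ K)
    (h1 : h₁ x < h₁ y) (h2 : h₂ y < h₂ x) :
    ∃ h : V → ℝ, Valid T.G S U K h ∧ h x = h y ∧
      (∀ u ∈ K, ∀ v ∈ K, h u = h v → u = v ∨ (u = x ∧ v = y) ∨ (u = y ∧ v = x)) := by
  obtain ⟨hcov, hKS, hKU, hSU, _, _, _, _, _⟩ := id hs
  obtain ⟨w, g, hw, hg, hS, hU, hxy⟩ := exists_tie T.G K S U hcov hKS hKU hSU h₁ h₂ hv1 hv2 x y hx hy h1 h2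
  have hK := strict01 hcov hKS hv1 hw hg hS hU
  have hval := valid_of_harm T K S U hs h₁ hv1 g hS hU hK (fun k hk => act_or_flat hw (hg k hk))
  have hne : x ≠ y := by
    rintro rfl
    exact lt_irrefl _ h1
  set e : V → ℝ := fun v => ((Fintype.equivFin V v : ℕ) : ℝ) with he
  have hinj : Function.Injective e := by
    intro a c hac
    simp only [he] at hac
    have h3 : (Fintype.equivFin V a : ℕ) = (Fintype.equivFin V c : ℕ) := by exact_mod_cast hac
    exact (Fintype.equivFin V).injective (Fin.ext h3)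
  set τ : V → ℝ := fun v => if v = y then e x else e v with hτ
  have hτe : ∀ u v, τ u = τ v → u = v ∨ (u = x ∧ v = y) ∨ (u = y ∧ v = x) := by
    intro u v huv
    simp only [hτ] at huv
    by_cases hu : u = y
    · by_cases hv : v = y
      · left; rw [hu, hv]
      · rw [if_pos hu, if_neg hv] at huv
        right; right
        exact ⟨hu, (hinj huv).symm⟩
    · by_cases hv : v = y
      · rw [if_neg hu, if_pos hv] at huv
        right; left
        exact ⟨hinj huv, hv⟩
      · rw [if_neg hu, if_neg hv] at huv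
        exact Or.inl (hinj huv)
  obtain ⟨ε, hε, hpert⟩ := perturb g τ
  refine ⟨fun v => g v + ε * τ v, ?_, ?_, ?_⟩
  · intro k hk
    obtain ⟨⟨u, hu, hu'⟩, ⟨z, hz, hz'⟩⟩ := hval k hk
    refine ⟨⟨u, hu, ?_⟩, ⟨z, hz, ?_⟩⟩
    · rcases hu' with h | ⟨h, h'⟩
      · exact Or.inl h
      · exact Or.inr ⟨h, hpert u k h'⟩
    · rcases hz' with h | ⟨h, h'⟩
      · exact Or.inl h
      · exact Or.inr ⟨h, hpert k z h'⟩
  · have h3 : τ x = e x := by simp [hτ, hne]
    have h4 : τ y = e x := by simp [hτ]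
    show g x + ε * τ x = g y + ε * τ y
    rw [h3, h4, hxy]
  · intro u _ v _ huv
    have huv' : g u + ε * τ u = g v + ε * τ v := huv
    rcases lt_trichotomy (g u) (g v) with h | h | h
    · exact absurd huv' (ne_of_lt (hpert u v h))
    · apply hτe
      rw [h] at huv'
      have h5 : ε * τ u = ε * τ v := by linarith
      exact mul_left_cancel₀ (ne_of_gt hε) h5
    · exact absurd huv' (ne_of_gt (hpert v u h))


end Pool.Agent.H891WLC
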