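import Pool.Agent.H891WLC.Defs
import Pool.Agent.H891WLC.tri_conn3
import Pool.Agent.H891WLC.EE
import Pool.Agent.H891WLC.CHI
import Pool.Agent.H891WLC.THREE
import Pool.Agent.H891WLC.FOUR
import Pool.Agent.H891WLC.TIE
import Pool.Agent.H891WLC.CAPSAME

set_option autoImplicit false

namespace Pool.Agent.H891WLC

namespace W_THICK

/-- two adjacent connected sets have connected union -/
theorem conn_union {V : Type} (G : SimpleGraph V) {A B : Set V} (hA : Conn G A) (hB : Conn G B)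
    (h : AdjS G A B) : Conn G (A ∪ B) := by
  obtain ⟨hA1, hA2⟩ := hA
  obtain ⟨hB1, hB2⟩ := hB
  obtain ⟨a, ha, b, hb, hab⟩ := h
  have lA : ∀ u ∈ A, ∀ v ∈ A, Relation.ReflTransGen (fun x y => G.Adj x y ∧ y ∈ A ∪ B) u v :=
    fun u hu v hv => Relation.ReflTransGen.mono (fun x y h => ⟨h.1, Or.inl h.2⟩) _ _ (hA2 u hu v hv)
  have lB : ∀ u ∈ B, ∀ v ∈ B, Relation.ReflTransGen (fun x y => G.Adj x y ∧ y ∈ A ∪ B) u v :=
    fun u hu v hv => Relation.ReflTransGen.mono (fun x y h => ⟨h.1, Or.inr h.2⟩) _ _ (hB2 u hu v hv)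
  refine ⟨hA1.mono Set.subset_union_left, ?_⟩
  rintro u (hu | hu) v (hv | hv)
  · exact lA u hu v hv
  · exact ((lA u hu a ha).tail ⟨hab, Or.inr hb⟩).trans (lB b hb v hv)
  · exact ((lB u hu b hb).tail ⟨hab.symm, Or.inl ha⟩).trans (lA a ha v hv)
  · exact lB u hu v hv

theorem grow_conn_union {V : Type} {G : SimpleGraph V} {A B : Set V} (hA : Conn G A)
    (hB : Conn G B) (h : AdjS G A B) : Conn G (A ∪ B) := by
  obtain ⟨a, ha, b, hb, hab⟩ := h
  have mA : ∀ u v, Relation.ReflTransGen (fun x y => G.Adj x y ∧ y ∈ A) u v →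
      Relation.ReflTransGen (fun x y => G.Adj x y ∧ y ∈ A ∪ B) u v := by
    intro u v huv
    induction huv with
    | refl => exact Relation.ReflTransGen.refl
    | tail _ h ih => exact ih.tail ⟨h.1, Or.inl h.2⟩
  have mB : ∀ u v, Relation.ReflTransGen (fun x y => G.Adj x y ∧ y ∈ B) u v →
      Relation.ReflTransGen (fun x y => G.Adj x y ∧ y ∈ A ∪ B) u v := by
    intro u v huv
    induction huv with
    | refl => exact Relation.ReflTransGen.refl
    | tail _ h ih => exact ih.tail ⟨h.1, Or.inr h.2⟩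
  refine ⟨⟨a, Or.inl ha⟩, ?_⟩
  rintro u (hu | hu) v (hv | hv)
  · exact mA u v (hA.2 u hu v hv)
  · exact (mA u a (hA.2 u hu a ha)).trans
      ((Relation.ReflTransGen.single ⟨hab, Or.inr hb⟩).trans (mB b v (hB.2 b hb v hv)))
  · exact (mB u b (hB.2 u hu b hb)).trans
      ((Relation.ReflTransGen.single ⟨hab.symm, Or.inl ha⟩).trans (mA a v (hA.2 a ha v hv)))
  · exact mB u v (hB.2 u hu v hv)

theorem grow_leave {V : Type} {r : V → V → Prop} {S : Set V} {u v : V}
    (h : Relation.ReflTransGen r u v) (hu : u ∈ S) (hv : v ∉ S) : ∃ a b, a ∈ S ∧ b ∉ S ∧ r a b := by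
  induction h with
  | refl => exact absurd hu hv
  | @tail b c _ hbc ih =>
    by_cases hb : b ∈ S
    · exact ⟨b, c, hb, hv, hbc⟩
    · exact ih hb

theorem grow_aux {V ι : Type} [Finite V] [Nonempty ι] (G : SimpleGraph V) (hV : Conn G Set.univ)
    (f : ι → Set V) (n : ℕ) : ∀ g : ι → Set V, (⋃ i, g i)ᶜ.ncard = n → (∀ i, f i ⊆ g i) →
      (∀ i, Conn G (g i)) → (∀ i j, i ≠ j → Disjoint (g i) (g j)) →
    ∃ g : ι → Set V, (∀ i, f i ⊆ g i) ∧ (∀ i, Conn G (g i)) ∧
      (∀ i j, i ≠ j → Disjoint (g i) (g j)) ∧ ∀ v, ∃ i, v ∈ g i := by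
  classical
  induction n using Nat.strong_induction_on with
  | _ n ih =>
    intro g hn hfg hg hgd
    by_cases hall : ∀ v, ∃ i, v ∈ g i
    · exact ⟨g, hfg, hg, hgd, hall⟩
    · push Not at hall
      obtain ⟨v, hv⟩ := hall
      obtain ⟨i0⟩ := ‹Nonempty ι›
      obtain ⟨u, hu⟩ := (hg i0).1
      have hwalk := hV.2 u (Set.mem_univ u) v (Set.mem_univ v)
      obtain ⟨a, b, ha, hb, hab⟩ := grow_leave (S := ⋃ i, g i) hwalk
        (Set.mem_iUnion.mpr ⟨i0, hu⟩) (by
          rw [Set.mem_iUnion]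
          rintro ⟨i, hi⟩
          exact hv i hi)
      obtain ⟨i, hai⟩ := Set.mem_iUnion.mp ha
      have hbn : ∀ j, b ∉ g j := fun j hj => hb (Set.mem_iUnion.mpr ⟨j, hj⟩)
      have hsub : ∀ j, g j ⊆ Function.update g i (g i ∪ {b}) j := by
        intro j
        by_cases hj : j = i
        · rw [hj, Function.update_self]
          exact Set.subset_union_left
        · rw [Function.update_of_ne hj]
      have hbi : b ∈ Function.update g i (g i ∪ {b}) i := by
        rw [Function.update_self]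
        exact Or.inr rfl
      refine ih ((⋃ j, Function.update g i (g i ∪ {b}) j)ᶜ.ncard) ?_
        (Function.update g i (g i ∪ {b})) rfl (fun j => (hfg j).trans (hsub j)) ?_ ?_
      · rw [← hn]
        apply Set.ncard_lt_ncard _ (Set.toFinite _)
        rw [Set.ssubset_iff_subset_ne]
        refine ⟨Set.compl_subset_compl.mpr (Set.iUnion_mono hsub), ?_⟩
        intro heq
        have h1 : b ∈ (⋃ j, g j)ᶜ := hb
        rw [← heq] at h1
        exact h1 (Set.mem_iUnion.mpr ⟨i, hbi⟩)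
      · intro j
        by_cases hj : j = i
        · rw [hj, Function.update_self]
          refine grow_conn_union (hg i) ⟨⟨b, rfl⟩, ?_⟩ ⟨a, hai, b, rfl, hab.1⟩
          intro x hx y hy
          rw [Set.mem_singleton_iff] at hx hy
          rw [hx, hy]
        · rw [Function.update_of_ne hj]
          exact hg j
      · intro j k hjk
        rw [Set.disjoint_left]
        intro x hxj hxk
        by_cases hj : j = i
        · have hk : k ≠ i := fun h => hjk (hj.trans h.symm)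
          rw [hj, Function.update_self] at hxj
          rw [Function.update_of_ne hk] at hxk
          rcases hxj with h | h
          · exact Set.disjoint_left.mp (hgd i k (fun h => hk h.symm)) h hxk
          · rw [Set.mem_singleton_iff] at h
            rw [h] at hxk
            exact hbn k hxk
        · rw [Function.update_of_ne hj] at hxj
          by_cases hk : k = i
          · rw [hk, Function.update_self] at hxk
            rcases hxk with h | h
            · exact Set.disjoint_left.mp (hgd j i hj) hxj h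
            · rw [Set.mem_singleton_iff] at h
              rw [h] at hxj
              exact hbn j hxj
          · rw [Function.update_of_ne hk] at hxk
            exact Set.disjoint_left.mp (hgd j k hjk) hxj hxk

theorem grow {V ι : Type} [Finite V] [Nonempty ι] (G : SimpleGraph V) (hV : Conn G Set.univ)
    (f : ι → Set V) (hf : ∀ i, Conn G (f i)) (hd : ∀ i j, i ≠ j → Disjoint (f i) (f j)) :
    ∃ g : ι → Set V, (∀ i, f i ⊆ g i) ∧ (∀ i, Conn G (g i)) ∧
      (∀ i j, i ≠ j → Disjoint (g i) (g j)) ∧ ∀ v, ∃ i, v ∈ g i :=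
  grow_aux G hV f _ f rfl (fun _ => subset_rfl) hf hd

/-- the orbit segment of the copy `s` of the sink -/
def m2seg {V : Type} (f : V ⊕ Bool → V ⊕ Bool) (s : Bool) : Set V :=
  {v | ∃ n : ℕ, (∀ k ≤ n, ∃ u, f^[k + 1] (Sum.inr s) = Sum.inl u) ∧ f^[n + 1] (Sum.inr s) = Sum.inl v}

theorem m2_conn {V : Type} (G : SimpleGraph V) (E : Set V)
    (f : V ⊕ Bool → V ⊕ Bool) (s : Bool) (z : V) (hz : z ∈ E) (h1 : f (Sum.inr s) = Sum.inl z)
    (h3 : ∀ u w, f (Sum.inl u) = Sum.inl w → w = u ∨ (G.Adj u w ∧ w ∈ E)) :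
    ∀ (n : ℕ) (v : V), (∀ k ≤ n, ∃ u, f^[k + 1] (Sum.inr s) = Sum.inl u) →
      f^[n + 1] (Sum.inr s) = Sum.inl v → v ∈ E ∧
      Relation.ReflTransGen (fun x y => G.Adj x y ∧ y ∈ m2seg f s) z v ∧
      Relation.ReflTransGen (fun x y => G.Adj x y ∧ y ∈ m2seg f s) v z := by
  intro n
  induction n with
  | zero =>
    intro v _ hv
    have hv' : f (Sum.inr s) = Sum.inl v := hv
    rw [h1] at hv'
    obtain rfl := Sum.inl_injective hv'
    exact ⟨hz, Relation.ReflTransGen.refl, Relation.ReflTransGen.refl⟩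
  | succ n ih =>
    intro v hk hv
    obtain ⟨u, hu⟩ := hk n (by omega)
    have hk' : ∀ k ≤ n, ∃ u, f^[k + 1] (Sum.inr s) = Sum.inl u := fun k hkn => hk k (by omega)
    obtain ⟨huE, h5, h6⟩ := ih u hk' hu
    have hus : u ∈ m2seg f s := ⟨n, hk', hu⟩
    have hvs : v ∈ m2seg f s := ⟨n + 1, hk, hv⟩
    rw [Function.iterate_succ_apply', hu] at hv
    rcases h3 u v hv with rfl | ⟨hadj, hvE⟩
    · exact ⟨huE, h5, h6⟩
    · exact ⟨hvE, h5.tail ⟨hadj, hvs⟩, Relation.ReflTransGen.head ⟨hadj.symm, hus⟩ h6⟩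

theorem m2_exists {V : Type} [Finite V] (L : Set V)
    (f : V ⊕ Bool → V ⊕ Bool) (hf : Function.Injective f) (s : Bool) (z : V)
    (h1 : f (Sum.inr s) = Sum.inl z)
    (h4 : ∀ u j, f (Sum.inl u) = Sum.inr j → u ∈ L) : (m2seg f s ∩ L).Nonempty := by
  classical
  have hret : ∃ n : ℕ, ∃ j, f^[n + 1] (Sum.inr s) = Sum.inr j := by
    obtain ⟨a, b, hab, he⟩ := Finite.exists_ne_map_eq_of_infinite
      (fun n : ℕ => f^[n] (Sum.inr s : V ⊕ Bool))
    have key : ∀ a b : ℕ, a < b → f^[a] (Sum.inr s : V ⊕ Bool) = f^[b] (Sum.inr s) →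
        ∃ n : ℕ, ∃ j, f^[n + 1] (Sum.inr s) = Sum.inr j := by
      intro a b hab he
      refine ⟨b - a - 1, s, ?_⟩
      have hba : b = a + (b - a - 1 + 1) := by omega
      rw [hba, Function.iterate_add_apply] at he
      exact ((hf.iterate a) he).symm
    rcases lt_or_gt_of_ne hab with h | h
    · exact key a b h he
    · exact key b a h he.symm
  obtain ⟨j, hj⟩ := Nat.find_spec hret
  set n := Nat.find hret with hn
  have hmin : ∀ k < n, ∃ u, f^[k + 1] (Sum.inr s) = Sum.inl u := by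
    intro k hk
    have := Nat.find_min hret hk
    rcases h : f^[k + 1] (Sum.inr s) with u | j
    · exact ⟨u, rfl⟩
    · exact absurd ⟨j, h⟩ this
  rcases Nat.eq_zero_or_pos n with h0 | hpos
  · rw [h0] at hj
    have : f (Sum.inr s) = Sum.inr j := hj
    rw [h1] at this
    cases this
  · obtain ⟨m, hm⟩ : ∃ m, n = m + 1 := ⟨n - 1, by omega⟩
    obtain ⟨u, hu⟩ := hmin m (by omega)
    refine ⟨u, ⟨m, fun k hk => hmin k (by omega), hu⟩, ?_⟩
    rw [hm, Function.iterate_succ_apply', hu] at hj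
    exact h4 u j hj

theorem m2_disj_aux {V : Type} (f : V ⊕ Bool → V ⊕ Bool) (hf : Function.Injective f)
    (s s' : Bool) (hs : s ≠ s') (n m : ℕ) (hnm : n ≤ m)
    (h : f^[n + 1] (Sum.inr s) = f^[m + 1] (Sum.inr s'))
    (hk : ∀ k ≤ m, ∃ u, f^[k + 1] (Sum.inr s') = Sum.inl u) : False := by
  have h1 : m + 1 = (n + 1) + (m - n) := by omega
  rw [h1, Function.iterate_add_apply f (n + 1) (m - n)] at h
  have h2 := (hf.iterate (n + 1)) h
  rcases Nat.eq_zero_or_pos (m - n) with h0 | hpos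
  · rw [h0] at h2
    exact hs (Sum.inr_injective h2)
  · obtain ⟨k, hk'⟩ : ∃ k, m - n = k + 1 := ⟨m - n - 1, by omega⟩
    obtain ⟨u, hu⟩ := hk k (by omega)
    rw [hk', hu] at h2
    cases h2

theorem m2_disj {V : Type} (f : V ⊕ Bool → V ⊕ Bool) (hf : Function.Injective f) :
    Disjoint (m2seg f true) (m2seg f false) := by
  rw [Set.disjoint_left]
  rintro v ⟨n, hn, hn'⟩ ⟨m, hm, hm'⟩
  rcases le_total n m with h | h
  · exact m2_disj_aux f hf true false (by decide) n m h (hn'.trans hm'.symm) hm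
  · exact m2_disj_aux f hf false true (by decide) m n h (hm'.trans hn'.symm) hn

/-- the bipartite relation for Hall's theorem -/
def m2R {V : Type} (G : SimpleGraph V) (E L : Set V) (x y : V) : V ⊕ Bool → V ⊕ Bool → Prop
  | Sum.inl u, Sum.inl w => w = u ∨ (G.Adj u w ∧ w ∈ E)
  | Sum.inl u, Sum.inr _ => u ∈ L
  | Sum.inr s, Sum.inl w => w = (if s then x else y)
  | Sum.inr _, Sum.inr _ => False

theorem m2_stay {V : Type} (G : SimpleGraph V) (E : Set V) (w : V) (B : Set V)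
    (hB : ∀ a ∈ B, ∀ b, G.Adj a b → b ∈ E → b ≠ w → b ∈ B) (z l : V) (hz : z ∈ B)
    (h : Relation.ReflTransGen (fun a b => G.Adj a b ∧ b ∈ E ∧ b ≠ w) z l) : l ∈ B := by
  induction h with
  | refl => exact hz
  | tail _ hbc ih => exact hB _ ih _ hbc.1 hbc.2.1 hbc.2.2

theorem menger2 {V : Type} [Finite V] (G : SimpleGraph V) (E L : Set V) (hE : Conn G E)
    (hL : L ⊆ E) (hLne : L.Nonempty) (x y : V) (hx : x ∈ E) (hy : y ∈ E) (hxy : x ≠ y) :
    (∃ P Q : Set V, P ⊆ E ∧ Q ⊆ E ∧ Disjoint P Q ∧ Conn G P ∧ Conn G Q ∧ x ∈ P ∧ y ∈ Q ∧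
      (P ∩ L).Nonempty ∧ (Q ∩ L).Nonempty) ∨
    ∃ w ∈ E, ∀ z, (z = x ∨ z = y) → z ≠ w → ∀ l ∈ L, l ≠ w →
      ¬ Relation.ReflTransGen (fun a b => G.Adj a b ∧ b ∈ E ∧ b ≠ w) z l := by
  classical
  letI : Fintype V := Fintype.ofFinite V
  let t : V ⊕ Bool → Finset (V ⊕ Bool) := fun a => Finset.univ.filter fun b => m2R G E L x y a b
  have ht : ∀ a b, b ∈ t a ↔ m2R G E L x y a b := fun a b => by simp [t]
  by_cases hall : ∀ A : Finset (V ⊕ Bool), A.card ≤ (A.biUnion t).card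
  · left
    obtain ⟨f, hf, hft⟩ := (Finset.all_card_le_biUnion_card_iff_exists_injective t).1 hall
    have h3 : ∀ u w, f (Sum.inl u) = Sum.inl w → w = u ∨ (G.Adj u w ∧ w ∈ E) := by
      intro u w h
      have := (ht _ _).1 (hft (Sum.inl u))
      rw [h] at this
      exact this
    have h4 : ∀ u j, f (Sum.inl u) = Sum.inr j → u ∈ L := by
      intro u j h
      have := (ht _ _).1 (hft (Sum.inl u))
      rw [h] at this
      exact this
    have h1 : ∀ s, f (Sum.inr s) = Sum.inl (if s then x else y) := by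
      intro s
      have := (ht _ _).1 (hft (Sum.inr s))
      rcases h : f (Sum.inr s) with w | j
      · rw [h] at this
        have h5 : w = (if s then x else y) := this
        rw [h5]
      · rw [h] at this
        exact absurd this id
    have h1t : f (Sum.inr true) = Sum.inl x := by simpa using h1 true
    have h1f : f (Sum.inr false) = Sum.inl y := by simpa using h1 false
    have hc : ∀ (s : Bool) (z : V), z ∈ E → f (Sum.inr s) = Sum.inl z →
        m2seg f s ⊆ E ∧ Conn G (m2seg f s) ∧ z ∈ m2seg f s := by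
      intro s z hz hs
      have hzs : z ∈ m2seg f s := ⟨0, fun k hk => ⟨z, by
        have : k = 0 := by omega
        rw [this]; exact hs⟩, hs⟩
      refine ⟨?_, ⟨⟨z, hzs⟩, ?_⟩, hzs⟩
      · rintro v ⟨n, hn, hn'⟩
        exact (m2_conn G E f s z hz hs h3 n v hn hn').1
      · rintro u ⟨n, hn, hn'⟩ v ⟨m, hm, hm'⟩
        exact (m2_conn G E f s z hz hs h3 n u hn hn').2.2.trans
          (m2_conn G E f s z hz hs h3 m v hm hm').2.1
    obtain ⟨a1, a2, a3⟩ := hc true x hx h1t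
    obtain ⟨b1, b2, b3⟩ := hc false y hy h1f
    exact ⟨m2seg f true, m2seg f false, a1, b1, m2_disj f hf, a2, b2, a3, b3,
      m2_exists L f hf true x h1t h4, m2_exists L f hf false y h1f h4⟩
  · right
    push Not at hall
    obtain ⟨A, hA⟩ := hall
    set N := A.biUnion t with hN
    have hcA : A.toLeft.card + A.toRight.card = A.card := Finset.card_toLeft_add_card_toRight
    have hcN : N.toLeft.card + N.toRight.card = N.card := Finset.card_toLeft_add_card_toRight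
    have hself : A.toLeft ⊆ N.toLeft := by
      intro u hu
      rw [Finset.mem_toLeft] at hu ⊢
      rw [hN, Finset.mem_biUnion]
      exact ⟨Sum.inl u, hu, (ht _ _).2 (Or.inl rfl)⟩
    have hnb : ∀ a ∈ A.toLeft, ∀ b, G.Adj a b → b ∈ E → b ∈ N.toLeft := by
      intro a ha b hab hb
      rw [Finset.mem_toLeft] at ha ⊢
      rw [hN, Finset.mem_biUnion]
      exact ⟨Sum.inl a, ha, (ht _ _).2 (Or.inr ⟨hab, hb⟩)⟩
    have hsrc : ∀ s ∈ A.toRight, (if s then x else y) ∈ N.toLeft := by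
      intro s hs
      rw [Finset.mem_toRight] at hs
      rw [Finset.mem_toLeft, hN, Finset.mem_biUnion]
      exact ⟨Sum.inr s, hs, (ht _ _).2 rfl⟩
    have hle2 : A.toRight.card ≤ 2 := by
      calc A.toRight.card ≤ (Finset.univ : Finset Bool).card := Finset.card_le_univ _
        _ = 2 := by simp
    have hAL : ∀ u ∈ A.toLeft, u ∉ L := by
      intro u hu huL
      have h5 : N.toRight = Finset.univ := by
        rw [Finset.eq_univ_iff_forall]
        intro s
        rw [Finset.mem_toLeft] at hu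
        rw [Finset.mem_toRight, hN, Finset.mem_biUnion]
        exact ⟨Sum.inl u, hu, (ht _ _).2 huL⟩
      have h6 : N.toRight.card = 2 := by rw [h5]; simp
      have h7 := Finset.card_le_card hself
      omega
    have hdiff : (N.toLeft \ A.toLeft).card < A.toRight.card := by
      have h5 := Finset.card_sdiff_add_card_eq_card hself
      omega
    have hfin : ∀ w ∈ E, (∀ z, (z = x ∨ z = y) → z ≠ w → z ∈ A.toLeft) →
        (∀ b ∈ N.toLeft, b ≠ w → b ∈ A.toLeft) →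
        ∃ w ∈ E, ∀ z, (z = x ∨ z = y) → z ≠ w → ∀ l ∈ L, l ≠ w →
        ¬ Relation.ReflTransGen (fun a b => G.Adj a b ∧ b ∈ E ∧ b ≠ w) z l := by
      intro w hw h5 h6
      refine ⟨w, hw, fun z hz hzw l hl hlw hrt => ?_⟩
      have h7 := m2_stay G E w (A.toLeft : Set V) (fun a ha b hab hbE hbw =>
        h6 b (hnb a ha b hab hbE) hbw) z l (h5 z hz hzw) hrt
      exact hAL l h7 hl
    rcases Nat.eq_zero_or_pos (N.toLeft \ A.toLeft).card with h0 | hpos
    · rw [Finset.card_eq_zero, Finset.sdiff_eq_empty_iff_subset] at h0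
      obtain ⟨s, hs⟩ : A.toRight.Nonempty := by
        rw [← Finset.card_pos]; omega
      have hzs := h0 (hsrc s hs)
      cases s with
      | true =>
        have hzs' : x ∈ A.toLeft := by simpa using hzs
        refine hfin y hy ?_ (fun b hb _ => h0 hb)
        rintro z (rfl | rfl) hne
        · exact hzs'
        · exact absurd rfl hne
      | false =>
        have hzs' : y ∈ A.toLeft := by simpa using hzs
        refine hfin x hx ?_ (fun b hb _ => h0 hb)
        rintro z (rfl | rfl) hne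
        · exact absurd rfl hne
        · exact hzs'
    · have h1 : (N.toLeft \ A.toLeft).card = 1 := by omega
      have h2 : A.toRight.card = 2 := by omega
      obtain ⟨w, hw⟩ := Finset.card_eq_one.1 h1
      have huniv : A.toRight = Finset.univ := by
        apply Finset.eq_univ_of_card
        rw [h2]; simp
      have hbw : ∀ b ∈ N.toLeft, b ≠ w → b ∈ A.toLeft := by
        intro b hb hbw
        by_contra hbA
        have : b ∈ N.toLeft \ A.toLeft := Finset.mem_sdiff.2 ⟨hb, hbA⟩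
        rw [hw, Finset.mem_singleton] at this
        exact hbw this
      have hwE : w ∈ E := by
        have h5 : w ∈ N.toLeft \ A.toLeft := by rw [hw]; exact Finset.mem_singleton_self w
        rw [Finset.mem_sdiff, Finset.mem_toLeft, hN, Finset.mem_biUnion] at h5
        obtain ⟨⟨a, ha, hab⟩, hwA⟩ := h5
        rw [ht] at hab
        rcases a with u | s
        · rcases hab with h6 | h6
          · exfalso
            apply hwA
            rw [h6, Finset.mem_toLeft]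
            exact ha
          · exact h6.2
        · have h6 : w = (if s then x else y) := hab
          rw [h6]
          split_ifs
          · exact hx
          · exact hy
      refine hfin w hwE ?_ hbw
      rintro z hz hzw
      refine hbw z ?_ hzw
      rcases hz with rfl | rfl
      · have := hsrc true (by rw [huniv]; exact Finset.mem_univ _)
        simpa using this
      · have := hsrc false (by rw [huniv]; exact Finset.mem_univ _)
        simpa using this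

theorem order {V : Type} [Finite V] (T : Tri V) (K S U : Set V) (hs : Split T.G K S U)
    (hK : Conn T.G K) (S₁ U₁ : Set V) (hSS : S ⊆ S₁) (hUU : U ⊆ U₁) (hd : Disjoint S₁ U₁)
    (hS₁ : Conn T.G S₁) (hU₁ : Conn T.G U₁) (x y : V) (hx : x ∈ S₁) (hxK : x ∈ K) (hy : y ∈ U₁)
    (hyK : y ∈ K) :
    ∃ h : V → ℝ, Valid T.G S U K h ∧ Set.InjOn h K ∧ h x < h y := by
  classical
  obtain ⟨hcov, dKS, dKU, dSU, cS, cU, aSU, aKS, aKU⟩ := hs
  have hV : Conn T.G Set.univ := by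
    refine ⟨⟨x, trivial⟩, fun u _ v _ => ?_⟩
    refine Relation.ReflTransGen.mono ?_ _ _ (T.conn u v)
    intro a b hab
    exact ⟨hab, trivial⟩
  obtain ⟨g, hg1, hg2, hg3, hg4⟩ := grow T.G hV (fun b : Bool => if b then S₁ else U₁)
    (by
      intro b
      cases b
      · simpa using hU₁
      · simpa using hS₁)
    (by
      intro i j hij
      cases i <;> cases j
      · exact absurd rfl hij
      · simpa using hd.symm
      · simpa using hd
      · exact absurd rfl hij)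
  obtain ⟨S₂, hS₂⟩ : ∃ A, A = g true := ⟨_, rfl⟩
  obtain ⟨U₂, hU₂⟩ : ∃ A, A = g false := ⟨_, rfl⟩
  have hS12 : S₁ ⊆ S₂ := by
    have := hg1 true
    simpa [hS₂] using this
  have hU12 : U₁ ⊆ U₂ := by
    have := hg1 false
    simpa [hU₂] using this
  have cS₂ : Conn T.G S₂ := hS₂ ▸ hg2 true
  have cU₂ : Conn T.G U₂ := hU₂ ▸ hg2 false
  have d2 : ∀ v, v ∈ S₂ → v ∈ U₂ → False := by
    intro v h1 h2
    have := hg3 true false (by simp)
    rw [← hS₂, ← hU₂] at this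
    exact Set.disjoint_left.mp this h1 h2
  have cov2 : ∀ v, v ∈ S₂ ∨ v ∈ U₂ := by
    intro v
    obtain ⟨i, hi⟩ := hg4 v
    cases i
    · right; rw [hU₂]; exact hi
    · left; rw [hS₂]; exact hi
  have hSS2 : S ⊆ S₂ := hSS.trans hS12
  have hUU2 : U ⊆ U₂ := hUU.trans hU12
  have h2c : ∀ x : V, Conn T.G ({x}ᶜ : Set V) := by
    intro x
    have := tri_conn3 T x x
    simpa using this
  have inK : ∀ v, v ∉ S → v ∉ U → v ∈ K := by
    intro v h1 h2
    rcases hcov v with h | h | h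
    · exact h
    · exact absurd h h1
    · exact absurd h h2
  have KS : ∀ v, v ∈ K → v ∈ S → False := fun v h1 h2 => Set.disjoint_left.mp dKS h1 h2
  have KU : ∀ v, v ∈ K → v ∈ U → False := fun v h1 h2 => Set.disjoint_left.mp dKU h1 h2
  have SU : ∀ v, v ∈ S → v ∈ U → False := fun v h1 h2 => Set.disjoint_left.mp dSU h1 h2
  obtain ⟨h₁, inj1, -, val1⟩ := EE T.G h2c S U₂ ∅
    (Set.disjoint_left.mpr fun v h1 h2 => d2 v (hSS2 h1) h2) (Set.empty_disjoint _) (Set.empty_disjoint _)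
    cS.1 cU₂.1
    (by
      intro v h1 h2
      obtain ⟨k, hk, u, hu, hku⟩ := aKU
      have hvK : v ∈ K := inK v h1 (fun h => h2 (hUU2 h))
      refine ⟨u, hUU2 hu, ?_⟩
      refine Relation.ReflTransGen.tail (b := k) ?_ ⟨hku, fun h => SU u h hu⟩
      refine Relation.ReflTransGen.mono ?_ _ _ (hK.2 v hvK k hk)
      intro a b hab
      exact ⟨hab.1, fun h => KS b hab.2 h⟩)
    (by
      intro v h1 h2
      obtain ⟨s, hs⟩ := cS.1
      have hvS : v ∈ S₂ := (cov2 v).resolve_right h2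
      refine ⟨s, hs, ?_⟩
      refine Relation.ReflTransGen.mono ?_ _ _ (cS₂.2 v hvS s (hSS2 hs))
      intro a b hab
      exact ⟨hab.1, fun h => d2 b hab.2 h⟩)
    (fun _ => 0) (by intro a ha; exact absurd ha (Set.notMem_empty a)) (by intro a ha; exact absurd ha (Set.notMem_empty a))
  obtain ⟨h₂, inj2, -, val2⟩ := EE T.G h2c S₂ U ∅
    (Set.disjoint_left.mpr fun v h1 h2 => d2 v h1 (hUU2 h2)) (Set.empty_disjoint _) (Set.empty_disjoint _)
    cS₂.1 cU.1
    (by
      intro v h1 h2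
      obtain ⟨u, hu⟩ := cU.1
      have hvU : v ∈ U₂ := (cov2 v).resolve_left h1
      refine ⟨u, hu, ?_⟩
      refine Relation.ReflTransGen.mono ?_ _ _ (cU₂.2 v hvU u (hUU2 hu))
      intro a b hab
      exact ⟨hab.1, fun h => d2 b h hab.2⟩)
    (by
      intro v h1 h2
      obtain ⟨k, hk, s, hs, hks⟩ := aKS
      have hvK : v ∈ K := inK v (fun h => h1 (hSS2 h)) h2
      refine ⟨s, hSS2 hs, ?_⟩
      refine Relation.ReflTransGen.tail (b := k) ?_ ⟨hks, fun h => SU s hs h⟩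
      refine Relation.ReflTransGen.mono ?_ _ _ (hK.2 v hvK k hk)
      intro a b hab
      exact ⟨hab.1, fun h => KU b hab.2 h⟩)
    (fun _ => 0) (by intro a ha; exact absurd ha (Set.notMem_empty a)) (by intro a ha; exact absurd ha (Set.notMem_empty a))
  obtain ⟨h, hh⟩ : ∃ h : V → ℝ, h = fun v => if v ∈ S₂ then Real.arctan (h₁ v) - 2 else Real.arctan (h₂ v) + 2 :=
    ⟨_, rfl⟩
  have hlow : ∀ v, v ∈ S₂ → h v = Real.arctan (h₁ v) - 2 := by
    intro v hv
    rw [hh]; simp [hv]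
  have hhigh : ∀ v, v ∈ U₂ → h v = Real.arctan (h₂ v) + 2 := by
    intro v hv
    have : v ∉ S₂ := fun h => d2 v h hv
    rw [hh]; simp [this]
  have pi4 : Real.pi ≤ 4 := Real.pi_le_four
  have hneg : ∀ v, v ∈ S₂ → h v < 0 := by
    intro v hv
    rw [hlow v hv]
    have := Real.arctan_lt_pi_div_two (h₁ v)
    linarith
  have hpos : ∀ v, v ∈ U₂ → 0 < h v := by
    intro v hv
    rw [hhigh v hv]
    have := Real.neg_pi_div_two_lt_arctan (h₂ v)
    linarith
  refine ⟨h, ?_, ?_, (hneg x (hS12 hx)).trans (hpos y (hU12 hy))⟩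
  · intro v hv
    rcases cov2 v with hvS | hvU
    · have hv' : v ∈ (S ∪ U₂)ᶜ := by
        rintro (h' | h')
        · exact KS v hv h'
        · exact d2 v hvS h'
      obtain ⟨⟨u, hu1, hu2⟩, ⟨w, hw1, hw2⟩⟩ := val1 v hv'
      refine ⟨⟨u, hu1, ?_⟩, ⟨w, hw1, ?_⟩⟩
      · rcases hu2 with hu2 | ⟨hu2, hu3⟩
        · exact Or.inl hu2
        · right
          have n1 : u ∉ S := fun h => hu2 (Or.inl h)
          have n2 : u ∉ U₂ := fun h => hu2 (Or.inr h)
          have huS : u ∈ S₂ := (cov2 u).resolve_right n2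
          refine ⟨inK u n1 (fun h => n2 (hUU2 h)), ?_⟩
          rw [hlow u huS, hlow v hvS]
          have := Real.arctan_strictMono hu3
          linarith
      · rcases hw2 with hw2 | ⟨hw2, hw3⟩
        · by_cases hwU : w ∈ U
          · exact Or.inl hwU
          · right
            refine ⟨inK w (fun h => d2 w (hSS2 h) hw2) hwU, ?_⟩
            exact (hneg v hvS).trans (hpos w hw2)
        · right
          have n1 : w ∉ S := fun h => hw2 (Or.inl h)
          have n2 : w ∉ U₂ := fun h => hw2 (Or.inr h)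
          have hwS : w ∈ S₂ := (cov2 w).resolve_right n2
          refine ⟨inK w n1 (fun h => n2 (hUU2 h)), ?_⟩
          rw [hlow w hwS, hlow v hvS]
          have := Real.arctan_strictMono hw3
          linarith
    · have hv' : v ∈ (S₂ ∪ U)ᶜ := by
        rintro (h' | h')
        · exact d2 v h' hvU
        · exact KU v hv h'
      obtain ⟨⟨u, hu1, hu2⟩, ⟨w, hw1, hw2⟩⟩ := val2 v hv'
      refine ⟨⟨u, hu1, ?_⟩, ⟨w, hw1, ?_⟩⟩
      · rcases hu2 with hu2 | ⟨hu2, hu3⟩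
        · by_cases huS : u ∈ S
          · exact Or.inl huS
          · right
            refine ⟨inK u huS (fun h => d2 u hu2 (hUU2 h)), ?_⟩
            exact (hneg u hu2).trans (hpos v hvU)
        · right
          have n1 : u ∉ S₂ := fun h => hu2 (Or.inl h)
          have n2 : u ∉ U := fun h => hu2 (Or.inr h)
          have huU : u ∈ U₂ := (cov2 u).resolve_left n1
          refine ⟨inK u (fun h => n1 (hSS2 h)) n2, ?_⟩
          rw [hhigh u huU, hhigh v hvU]
          have := Real.arctan_strictMono hu3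
          linarith
      · rcases hw2 with hw2 | ⟨hw2, hw3⟩
        · exact Or.inl hw2
        · right
          have n1 : w ∉ S₂ := fun h => hw2 (Or.inl h)
          have n2 : w ∉ U := fun h => hw2 (Or.inr h)
          have hwU : w ∈ U₂ := (cov2 w).resolve_left n1
          refine ⟨inK w (fun h => n1 (hSS2 h)) n2, ?_⟩
          rw [hhigh w hwU, hhigh v hvU]
          have := Real.arctan_strictMono hw3
          linarith
  · intro a ha b hb hab
    rcases cov2 a with haS | haU <;> rcases cov2 b with hbS | hbU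
    · rw [hlow a haS, hlow b hbS] at hab
      have h1 : h₁ a = h₁ b := Real.arctan_strictMono.injective (by linarith)
      refine inj1 ?_ ?_ h1
      · rintro (h' | h')
        · exact KS a ha h'
        · exact d2 a haS h'
      · rintro (h' | h')
        · exact KS b hb h'
        · exact d2 b hbS h'
    · have := hneg a haS
      have := hpos b hbU
      linarith
    · have := hpos a haU
      have := hneg b hbS
      linarith
    · rw [hhigh a haU, hhigh b hbU] at hab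
      have h1 : h₂ a = h₂ b := Real.arctan_strictMono.injective (by linarith)
      refine inj2 ?_ ?_ h1
      · rintro (h' | h')
        · exact d2 a h' haU
        · exact KU a ha h'
      · rintro (h' | h')
        · exact d2 b h' hbU
        · exact KU b hb h'

theorem p3_symm {V : Type} (G : SimpleGraph V) {A B : Set V} (h : AdjS G A B) : AdjS G B A := by
  obtain ⟨a, ha, b, hb, hab⟩ := h
  exact ⟨b, hb, a, ha, hab.symm⟩

theorem p3_rev {V : Type} (G : SimpleGraph V) {D : Set V} {a b : V} (ha : a ∈ D)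
    (h : Relation.ReflTransGen (fun x y => G.Adj x y ∧ y ∈ D) a b) :
    b ∈ D ∧ Relation.ReflTransGen (fun x y => G.Adj x y ∧ y ∈ D) b a := by
  induction h with
  | refl => exact ⟨ha, Relation.ReflTransGen.refl⟩
  | tail _ hs ih => exact ⟨hs.2, Relation.ReflTransGen.head ⟨hs.1.symm, ih.1⟩ ih.2⟩

theorem p3_adj1 {V : Type} (T : Tri V) {a b c : V} (h : T.F a b c) : T.G.Adj a b := ⟨c, h⟩

theorem p3_adj2 {V : Type} (T : Tri V) {a b c : V} (h : T.F a b c) : T.G.Adj a c :=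
  (p3_adj1 T (T.rot b c a (T.rot a b c h))).symm

theorem p3 {V : Type} [Finite V] (T : Tri V) (E S U : Set V) (hE : Conn T.G E)
    (hs : Split T.G E S U) (w : V) (hw : w ∈ E) (F : Set V) (hF : Conn T.G F) (hFE : F ⊆ E)
    (hwF : w ∉ F) (hcl : ∀ a ∈ F, ∀ b ∈ E, T.G.Adj a b → b ∈ F ∨ b = w)
    (hΛ : ∀ a ∈ F, ¬ ((∃ s ∈ S, T.G.Adj a s) ∧ ∃ u ∈ U, T.G.Adj a u)) :
    Conn T.G (E \ F) ∧ AdjS T.G F (E \ F) ∧ ¬ (AdjS T.G F S ∧ AdjS T.G F U) := by
  classical
  have hwD : w ∈ E \ F := ⟨hw, hwF⟩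
  have hA : ∀ v ∈ E \ F,
      Relation.ReflTransGen (fun x y => T.G.Adj x y ∧ y ∈ E \ F) v w := by
    intro v hv
    have h1 := hE.2 v hv.1 w hw
    induction h1 using Relation.ReflTransGen.head_induction_on with
    | refl => exact Relation.ReflTransGen.refl
    | @head a c hac _ ih =>
      by_cases hc : c ∈ F
      · rcases hcl c hc a hv.1 hac.1.symm with h2 | h2
        · exact absurd h2 hv.2
        · rw [h2]
      · exact Relation.ReflTransGen.head ⟨hac.1, hac.2, hc⟩ (ih ⟨hac.2, hc⟩)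
  have hD : Conn T.G (E \ F) := by
    refine ⟨⟨w, hwD⟩, fun u hu v hv => ?_⟩
    exact (hA u hu).trans (p3_rev T.G hv (hA v hv)).2
  have hFD : AdjS T.G F (E \ F) := by
    obtain ⟨f0, hf0⟩ := hF.1
    have h1 := hE.2 f0 (hFE hf0) w hw
    induction h1 using Relation.ReflTransGen.head_induction_on with
    | refl => exact absurd hf0 hwF
    | @head a c hac _ ih =>
      by_cases hc : c ∈ F
      · exact ih hc
      · exact ⟨a, hf0, c, ⟨hac.2, hc⟩, hac.1⟩
  refine ⟨hD, hFD, ?_⟩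
  rintro ⟨hFS, hFU⟩
  obtain ⟨hcov, dES, dEU, dSU, cS, cU, aSU, aES, aEU⟩ := hs
  obtain ⟨⟨k, hk, s, hs, u, hu, hF3⟩, _⟩ := THREE T E S U hcov dES dEU dSU hE cS cU aES aEU aSU
  have hks := p3_adj1 T hF3
  have hku := p3_adj2 T hF3
  have hkF : k ∉ F := fun hkF => hΛ k hkF ⟨⟨s, hs, hks⟩, u, hu, hku⟩
  have hkD : k ∈ E \ F := ⟨hk, hkF⟩
  have aDS : AdjS T.G (E \ F) S := ⟨k, hkD, s, hs, hks⟩
  have aDU : AdjS T.G (E \ F) U := ⟨k, hkD, u, hu, hku⟩
  have hsub : (E \ F) ⊆ E := Set.sdiff_subset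
  obtain ⟨a, ha, b, hb, c, hc, habc⟩ := FOUR T F S U (E \ F) (by
      intro v
      rcases hcov v with h | h | h
      · by_cases hvF : v ∈ F
        · exact Or.inl hvF
        · exact Or.inr (Or.inr (Or.inr ⟨h, hvF⟩))
      · exact Or.inr (Or.inl h)
      · exact Or.inr (Or.inr (Or.inl h)))
    (dES.mono_left hFE) (dEU.mono_left hFE) Set.disjoint_sdiff_right dSU
    (dES.symm.mono_right hsub) (dEU.symm.mono_right hsub) hF cS cU hD hFS hFU hFD aSU
    (p3_symm T.G aDS) (p3_symm T.G aDU)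
  rcases habc with h | h
  · exact hΛ a ha ⟨⟨b, hb, p3_adj1 T h⟩, c, hc, p3_adj2 T h⟩
  · exact hΛ a ha ⟨⟨b, hb, p3_adj2 T h⟩, c, hc, p3_adj1 T h⟩

theorem noK5 {V : Type} [Finite V] (T : Tri V) (X : Finset V) (hX : 5 ≤ X.card) :
    ∃ x ∈ X, ∃ y ∈ X, x ≠ y ∧ ¬ T.G.Adj x y := by
  classical
  by_contra hcon
  push Not at hcon
  let f : Fin 5 → V := fun i => (X.equivFin.symm (Fin.castLE hX i)).1
  have hfX : ∀ i, f i ∈ X := fun i => (X.equivFin.symm (Fin.castLE hX i)).2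
  have hfinj : ∀ i j, i ≠ j → f i ≠ f j := by
    intro i j hij h
    have h1 : X.equivFin.symm (Fin.castLE hX i) = X.equivFin.symm (Fin.castLE hX j) :=
      Subtype.ext h
    have h2 := X.equivFin.symm.injective h1
    exact hij (Fin.castLE_injective hX h2)
  have hV : Conn T.G Set.univ := by
    refine ⟨⟨f 0, trivial⟩, fun u _ v _ => ?_⟩
    have h := T.conn u v
    induction h with
    | refl => exact Relation.ReflTransGen.refl
    | tail _ h2 ih => exact (ih trivial).tail ⟨h2, trivial⟩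
  have hsing : ∀ i : Fin 5, Conn T.G ({f i} : Set V) := by
    intro i
    refine ⟨⟨f i, rfl⟩, ?_⟩
    rintro u hu v hv
    rw [Set.mem_singleton_iff] at hu hv
    rw [hu, hv]
  obtain ⟨g, hg1, hg2, hg3, hg4⟩ := grow T.G hV (fun i : Fin 5 => ({f i} : Set V)) hsing (by
    intro i j hij
    rw [Set.disjoint_singleton]
    exact hfinj i j hij)
  have hfg : ∀ i, f i ∈ g i := fun i => hg1 i rfl
  have adj : ∀ i j : Fin 5, i ≠ j → AdjS T.G (g i) (g j) := fun i j hij =>
    ⟨f i, hfg i, f j, hfg j, hcon _ (hfX i) _ (hfX j) (hfinj i j hij)⟩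
  have adjU : ∀ i j k : Fin 5, i ≠ j → AdjS T.G (g i) (g j ∪ g k) := by
    intro i j k hij
    obtain ⟨a, ha, b, hb, h⟩ := adj i j hij
    exact ⟨a, ha, b, Or.inl hb, h⟩
  have four : ∀ i j k : Fin 5, (∀ l : Fin 5, l = 0 ∨ l = 1 ∨ l = i ∨ l = j ∨ l = k) →
      i ≠ 0 → i ≠ 1 → j ≠ 0 → j ≠ 1 → k ≠ 0 → k ≠ 1 → i ≠ j → i ≠ k → j ≠ k →
      ∃ a ∈ g 0, ∃ b ∈ g 1, ∃ c ∈ g i, T.F a b c ∨ T.F a c b := by
    intro i j k hcov hi0 hi1 hj0 hj1 hk0 hk1 hij hik hjk
    refine FOUR T (g 0) (g 1) (g i) (g j ∪ g k) ?_ (hg3 _ _ (by decide)) (hg3 _ _ hi0.symm) ?_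
      (hg3 _ _ hi1.symm) ?_ ?_ (hg2 0) (hg2 1) (hg2 i) (conn_union T.G (hg2 j) (hg2 k) (adj j k hjk))
      (adj _ _ (by decide)) (adj _ _ hi0.symm) (adjU _ _ _ hj0.symm) (adj _ _ hi1.symm)
      (adjU _ _ _ hj1.symm) (adjU _ _ _ hij)
    · intro v
      obtain ⟨l, hl⟩ := hg4 v
      rcases hcov l with rfl | rfl | rfl | rfl | rfl
      · exact Or.inl hl
      · exact Or.inr (Or.inl hl)
      · exact Or.inr (Or.inr (Or.inl hl))
      · exact Or.inr (Or.inr (Or.inr (Or.inl hl)))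
      · exact Or.inr (Or.inr (Or.inr (Or.inr hl)))
    · exact Set.disjoint_union_right.2 ⟨hg3 _ _ hj0.symm, hg3 _ _ hk0.symm⟩
    · exact Set.disjoint_union_right.2 ⟨hg3 _ _ hj1.symm, hg3 _ _ hk1.symm⟩
    · exact Set.disjoint_union_right.2 ⟨hg3 _ _ hij, hg3 _ _ hik⟩
  -- the union of the last three classes
  have cW : Conn T.G (g 2 ∪ (g 3 ∪ g 4)) :=
    conn_union T.G (hg2 2) (conn_union T.G (hg2 3) (hg2 4) (adj _ _ (by decide)))
      (adjU _ _ _ (by decide))
  have covW : ∀ v, v ∈ g 0 ∨ v ∈ g 1 ∨ v ∈ g 2 ∪ (g 3 ∪ g 4) := by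
    intro v
    obtain ⟨l, hl⟩ := hg4 v
    have hl' : l = 0 ∨ l = 1 ∨ l = 2 ∨ l = 3 ∨ l = 4 := by
      clear hl
      revert l; decide
    rcases hl' with rfl | rfl | rfl | rfl | rfl
    · exact Or.inl hl
    · exact Or.inr (Or.inl hl)
    · exact Or.inr (Or.inr (Or.inl hl))
    · exact Or.inr (Or.inr (Or.inr (Or.inl hl)))
    · exact Or.inr (Or.inr (Or.inr (Or.inr hl)))
  have d01 : Disjoint (g 0) (g 1) := hg3 _ _ (by decide)
  have dW0 : Disjoint (g 0) (g 2 ∪ (g 3 ∪ g 4)) :=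
    Set.disjoint_union_right.2 ⟨hg3 _ _ (by decide), Set.disjoint_union_right.2
      ⟨hg3 _ _ (by decide), hg3 _ _ (by decide)⟩⟩
  have dW1 : Disjoint (g 1) (g 2 ∪ (g 3 ∪ g 4)) :=
    Set.disjoint_union_right.2 ⟨hg3 _ _ (by decide), Set.disjoint_union_right.2
      ⟨hg3 _ _ (by decide), hg3 _ _ (by decide)⟩⟩
  have aW : ∀ i : Fin 5, i ≠ 2 → AdjS T.G (g i) (g 2 ∪ (g 3 ∪ g 4)) := by
    intro i hi
    obtain ⟨a, ha, b, hb, h⟩ := adj i 2 hi
    exact ⟨a, ha, b, Or.inl hb, h⟩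
  have aW' : AdjS T.G (g 2 ∪ (g 3 ∪ g 4)) (g 1) := by
    obtain ⟨a, ha, b, hb, h⟩ := aW 1 (by decide)
    exact ⟨b, hb, a, ha, h.symm⟩
  have three1 := (THREE T (g 0) (g 1) (g 2 ∪ (g 3 ∪ g 4)) covW d01 dW0 dW1 (hg2 0) (hg2 1) cW
    (adj _ _ (by decide)) (aW 0 (by decide)) (aW 1 (by decide))).2
  have three2 := (THREE T (g 0) (g 2 ∪ (g 3 ∪ g 4)) (g 1) (fun v => by
      rcases covW v with h | h | h
      · exact Or.inl h
      · exact Or.inr (Or.inr h)
      · exact Or.inr (Or.inl h)) dW0 d01 dW1.symm (hg2 0) cW (hg2 1)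
    (aW 0 (by decide)) (adj _ _ (by decide)) aW').2
  have inW : ∀ i : Fin 5, i ≠ 0 → i ≠ 1 → ∀ v ∈ g i, v ∈ g 2 ∪ (g 3 ∪ g 4) := by
    intro i h0 h1 v hv
    have hl' : i = 2 ∨ i = 3 ∨ i = 4 := by
      clear hv
      revert i; decide
    rcases hl' with rfl | rfl | rfl
    · exact Or.inl hv
    · exact Or.inr (Or.inl hv)
    · exact Or.inr (Or.inr hv)
  have no1 : ∀ i j : Fin 5, i ≠ 0 → i ≠ 1 → j ≠ 0 → j ≠ 1 → i ≠ j →
      (∃ a ∈ g 0, ∃ b ∈ g 1, ∃ c ∈ g i, T.F a b c) →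
      (∃ a ∈ g 0, ∃ b ∈ g 1, ∃ c ∈ g j, T.F a b c) → False := by
    rintro i j hi0 hi1 hj0 hj1 hij ⟨a, ha, b, hb, c, hc, h⟩ ⟨a', ha', b', hb', c', hc', h'⟩
    obtain ⟨_, _, h3⟩ := three1 a b c a' b' c' ha hb (inW i hi0 hi1 c hc) ha' hb'
      (inW j hj0 hj1 c' hc') h h'
    subst h3
    exact Set.disjoint_left.1 (hg3 i j hij) hc hc'
  have no2 : ∀ i j : Fin 5, i ≠ 0 → i ≠ 1 → j ≠ 0 → j ≠ 1 → i ≠ j →
      (∃ a ∈ g 0, ∃ b ∈ g 1, ∃ c ∈ g i, T.F a c b) →
      (∃ a ∈ g 0, ∃ b ∈ g 1, ∃ c ∈ g j, T.F a c b) → False := by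
    rintro i j hi0 hi1 hj0 hj1 hij ⟨a, ha, b, hb, c, hc, h⟩ ⟨a', ha', b', hb', c', hc', h'⟩
    obtain ⟨_, h3, _⟩ := three2 a c b a' c' b' ha (inW i hi0 hi1 c hc) hb ha'
      (inW j hj0 hj1 c' hc') hb' h h'
    subst h3
    exact Set.disjoint_left.1 (hg3 i j hij) hc hc'
  have typ : ∀ i : Fin 5, (∃ a ∈ g 0, ∃ b ∈ g 1, ∃ c ∈ g i, T.F a b c ∨ T.F a c b) →
      (∃ a ∈ g 0, ∃ b ∈ g 1, ∃ c ∈ g i, T.F a b c) ∨
      (∃ a ∈ g 0, ∃ b ∈ g 1, ∃ c ∈ g i, T.F a c b) := by
    rintro i ⟨a, ha, b, hb, c, hc, h | h⟩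
    · exact Or.inl ⟨a, ha, b, hb, c, hc, h⟩
    · exact Or.inr ⟨a, ha, b, hb, c, hc, h⟩
  have t2 := typ 2 (four 2 3 4 (by decide) (by decide) (by decide) (by decide) (by decide)
    (by decide) (by decide) (by decide) (by decide) (by decide))
  have t3 := typ 3 (four 3 2 4 (by decide) (by decide) (by decide) (by decide) (by decide)
    (by decide) (by decide) (by decide) (by decide) (by decide))
  have t4 := typ 4 (four 4 2 3 (by decide) (by decide) (by decide) (by decide) (by decide)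
    (by decide) (by decide) (by decide) (by decide) (by decide))
  rcases t2 with t2 | t2
  · rcases t3 with t3 | t3
    · exact no1 2 3 (by decide) (by decide) (by decide) (by decide) (by decide) t2 t3
    · rcases t4 with t4 | t4
      · exact no1 2 4 (by decide) (by decide) (by decide) (by decide) (by decide) t2 t4
      · exact no2 3 4 (by decide) (by decide) (by decide) (by decide) (by decide) t3 t4
  · rcases t3 with t3 | t3
    · rcases t4 with t4 | t4
      · exact no1 3 4 (by decide) (by decide) (by decide) (by decide) (by decide) t3 t4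
      · exact no2 2 4 (by decide) (by decide) (by decide) (by decide) (by decide) t2 t4
    · exact no2 2 3 (by decide) (by decide) (by decide) (by decide) (by decide) t2 t3

theorem vneg {V : Type} {G : SimpleGraph V} {S U K : Set V} {h : V → ℝ} (hv : Valid G S U K h) :
    Valid G U S K (fun v => - h v) := by
  intro v hvK
  obtain ⟨⟨u, hu, hu'⟩, ⟨u2, hu2, hu2'⟩⟩ := hv v hvK
  refine ⟨⟨u2, hu2, ?_⟩, ⟨u, hu, ?_⟩⟩
  · rcases hu2' with h | ⟨h1, h2⟩
    · exact Or.inl h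
    · exact Or.inr ⟨h1, neg_lt_neg h2⟩
  · rcases hu' with h | ⟨h1, h2⟩
    · exact Or.inl h
    · exact Or.inr ⟨h1, neg_lt_neg h2⟩

theorem split_swap {V : Type} {G : SimpleGraph V} {K S U : Set V} (hs : Split G K S U) :
    Split G K U S := by
  obtain ⟨h1, h2, h3, h4, h5, h6, h7, h8, h9⟩ := hs
  refine ⟨fun v => ?_, h3, h2, h4.symm, h6, h5, ?_, h9, h8⟩
  · rcases h1 v with h | h | h
    · exact Or.inl h
    · exact Or.inr (Or.inr h)
    · exact Or.inr (Or.inl h)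
  · obtain ⟨a, ha, b, hb, hab⟩ := h7
    exact ⟨b, hb, a, ha, hab.symm⟩

/-- both relative orders of `x` and `y` occur -/
def Both {V : Type} (T : Tri V) (S U K : Set V) (x y : V) : Prop :=
  (∃ h : V → ℝ, Valid T.G S U K h ∧ Set.InjOn h K ∧ h x < h y) ∧
    ∃ h : V → ℝ, Valid T.G S U K h ∧ Set.InjOn h K ∧ h y < h x

theorem both_swap {V : Type} {T : Tri V} {S U K : Set V} {x y : V} (h : Both T S U K x y) :
    Both T U S K x y := by
  obtain ⟨⟨h₁, a1, a2, a3⟩, ⟨h₂, b1, b2, b3⟩⟩ := h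
  exact ⟨⟨fun v => - h₂ v, vneg b1, fun u hu v hv e => b2 hu hv (neg_injective e), neg_lt_neg b3⟩,
    ⟨fun v => - h₁ v, vneg a1, fun u hu v hv e => a2 hu hv (neg_injective e), neg_lt_neg a3⟩⟩

theorem both {V : Type} [Finite V] (T : Tri V) {K S U : Set V} (hs : Split T.G K S U)
    (hK : Conn T.G K) {E S' U' : Set V} (hs' : Split T.G E S' U') (hSS : S ⊆ S') (hUU : U ⊆ U')
    {P Q : Set V} (hPE : P ⊆ E) (hQE : Q ⊆ E) (hPQ : Disjoint P Q) (hP : Conn T.G P)
    (hQ : Conn T.G Q) {x y : V} (hx : x ∈ P) (hy : y ∈ Q) (hxK : x ∈ K) (hyK : y ∈ K)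
    (hPL : ∃ p ∈ P, (∃ s ∈ S', T.G.Adj p s) ∧ ∃ u ∈ U', T.G.Adj p u)
    (hQL : ∃ p ∈ Q, (∃ s ∈ S', T.G.Adj p s) ∧ ∃ u ∈ U', T.G.Adj p u) : Both T S U K x y := by
  obtain ⟨p, hp, ⟨s1, hs1, hps⟩, ⟨u1, hu1, hpu⟩⟩ := hPL
  obtain ⟨q, hq, ⟨s2, hs2, hqs⟩, ⟨u2, hu2, hqu⟩⟩ := hQL
  obtain ⟨c1, c2, c3, c4, c5, c6, c7, c8, c9⟩ := hs'
  constructor
  · refine order T K S U hs hK (S' ∪ P) (U' ∪ Q) (hSS.trans Set.subset_union_left)
      (hUU.trans Set.subset_union_left) ?_
      (conn_union T.G c5 hP ⟨s1, hs1, p, hp, hps.symm⟩)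
      (conn_union T.G c6 hQ ⟨u2, hu2, q, hq, hqu.symm⟩) x y (Or.inr hx) hxK (Or.inr hy) hyK
    rw [Set.disjoint_union_left, Set.disjoint_union_right, Set.disjoint_union_right]
    exact ⟨⟨c4, c2.symm.mono_right hQE⟩, ⟨c3.mono_left hPE, hPQ⟩⟩
  · refine order T K S U hs hK (S' ∪ Q) (U' ∪ P) (hSS.trans Set.subset_union_left)
      (hUU.trans Set.subset_union_left) ?_
      (conn_union T.G c5 hQ ⟨s2, hs2, q, hq, hqs.symm⟩)
      (conn_union T.G c6 hP ⟨u1, hu1, p, hp, hpu.symm⟩) y x (Or.inr hy) hyK (Or.inr hx) hxK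
    rw [Set.disjoint_union_left, Set.disjoint_union_right, Set.disjoint_union_right]
    exact ⟨⟨c4, c2.symm.mono_right hPE⟩, ⟨c3.mono_left hQE, hPQ.symm⟩⟩

/-- component of `z` in `E \ {w}` -/
def cmp {V : Type} (G : SimpleGraph V) (E : Set V) (w z : V) : Set V :=
  {v | Relation.ReflTransGen (fun a b => G.Adj a b ∧ b ∈ E ∧ b ≠ w) z v}

theorem cmp_sub {V : Type} {G : SimpleGraph V} {E : Set V} {w z : V} (hz : z ∈ E) :
    cmp G E w z ⊆ E := by
  intro v hv
  rcases Relation.ReflTransGen.cases_tail hv with h | ⟨c, -, h⟩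
  · exact h ▸ hz
  · exact h.2.1

theorem cmp_not {V : Type} {G : SimpleGraph V} {E : Set V} {w z : V} (hz : z ≠ w) :
    w ∉ cmp G E w z := by
  intro hv
  rcases Relation.ReflTransGen.cases_tail hv with h | ⟨c, -, h⟩
  · exact hz h.symm
  · exact h.2.2 rfl

theorem cmp_closed {V : Type} {G : SimpleGraph V} {E : Set V} {w z : V} :
    ∀ a ∈ cmp G E w z, ∀ b ∈ E, G.Adj a b → b ∈ cmp G E w z ∨ b = w := by
  intro a ha b hb hab
  by_cases h : b = w
  · exact Or.inr h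
  · exact Or.inl (Relation.ReflTransGen.tail ha ⟨hab, hb, h⟩)

theorem cmp_conn {V : Type} (G : SimpleGraph V) (E : Set V) (w z : V) :
    Conn G (cmp G E w z) := by
  have h1 : ∀ v ∈ cmp G E w z,
      Relation.ReflTransGen (fun x y => G.Adj x y ∧ y ∈ cmp G E w z) z v ∧
      Relation.ReflTransGen (fun x y => G.Adj x y ∧ y ∈ cmp G E w z) v z := by
    intro v hv
    have hv' : Relation.ReflTransGen (fun a b => G.Adj a b ∧ b ∈ E ∧ b ≠ w) z v := hv
    clear hv
    induction hv' with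
    | refl => exact ⟨Relation.ReflTransGen.refl, Relation.ReflTransGen.refl⟩
    | tail hb hbc ih =>
      refine ⟨ih.1.tail ⟨hbc.1, hb.tail hbc⟩, Relation.ReflTransGen.head ⟨hbc.1.symm, hb⟩ ih.2⟩
  exact ⟨⟨z, Relation.ReflTransGen.refl⟩, fun u hu v hv => (h1 u hu).2.trans (h1 v hv).1⟩

theorem exit {V : Type} {G : SimpleGraph V} {A F : Set V} (hA : Conn G A) {f s : V} (hf : f ∈ F)
    (hfA : f ∈ A) (hsA : s ∈ A) (hs : s ∉ F) : ∃ a ∈ F, ∃ b ∈ A, b ∉ F ∧ G.Adj a b := by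
  by_contra hcon
  push Not at hcon
  have h := hA.2 f hfA s hsA
  have h2 : ∀ v, Relation.ReflTransGen (fun x y => G.Adj x y ∧ y ∈ A) f v → v ∈ F := by
    intro v hv
    induction hv with
    | refl => exact hf
    | tail _ h2 ih =>
      by_contra hn
      exact hcon _ ih _ h2.2 hn h2.1
  exact hs (h2 s h)

theorem lam_ne {V : Type} [Finite V] (T : Tri V) {E S U : Set V} (hE : Conn T.G E)
    (hs : Split T.G E S U) :
    {e | e ∈ E ∧ (∃ s ∈ S, T.G.Adj e s) ∧ ∃ u ∈ U, T.G.Adj e u}.Nonempty := by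
  obtain ⟨c1, c2, c3, c4, c5, c6, c7, c8, c9⟩ := hs
  obtain ⟨⟨k, hk, s, hs1, u, hu, hf⟩, -⟩ := THREE T E S U c1 c2 c3 c4 hE c5 c6 c8 c9 c7
  have h1 : T.G.Adj k s := ⟨u, hf⟩
  have h2 : T.G.Adj u k := ⟨s, T.rot _ _ _ (T.rot _ _ _ hf)⟩
  exact ⟨k, hk, ⟨s, hs1, h1⟩, ⟨u, hu, h2.symm⟩⟩

theorem pick {V : Type} {x y w : V} (hxy : x ≠ y) : ∃ z, (z = x ∨ z = y) ∧ z ≠ w := by
  by_cases h : x = w
  · exact ⟨y, Or.inr rfl, fun h' => hxy (h.trans h'.symm)⟩
  · exact ⟨x, Or.inl rfl, h⟩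

theorem step2 {V : Type} [Finite V] (T : Tri V) {K S U : Set V} (hs : Split T.G K S U)
    (hK : Conn T.G K) {w : V} (hw : w ∈ K) {F : Set V} (hF : Conn T.G F) (hFK : F ⊆ K)
    (hwF : w ∉ F) (hcl : ∀ a ∈ F, ∀ b ∈ K, T.G.Adj a b → b ∈ F ∨ b = w)
    (hKF : Conn T.G (K \ F)) (hS : ¬ AdjS T.G F S) {x y : V} (hx : x ∈ F) (hy : y ∈ F)
    (hxy : x ≠ y) :
    Both T S U K x y ∨ ∃ w' ∈ F, ∃ F' : Set V, Conn T.G F' ∧ F' ⊆ F ∧ w' ∉ F' ∧
      (x ∈ F' ∨ y ∈ F') ∧ ∀ a ∈ F', ∀ b ∈ K, T.G.Adj a b → b ∈ F' ∨ b = w' := by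
  have hs0' := hs
  obtain ⟨c1, c2, c3, c4, c5, c6, c7, c8, c9⟩ := hs
  obtain ⟨k0, hk0, s0, hs0, hks0⟩ := c8
  have hk0F : k0 ∉ F := fun h => hS ⟨k0, h, s0, hs0, hks0⟩
  have hs0K : s0 ∉ K := fun h => Set.disjoint_left.1 c2 h hs0
  have hS' : Conn T.G (S ∪ (K \ F)) :=
    conn_union T.G c5 hKF ⟨s0, hs0, k0, ⟨hk0, hk0F⟩, hks0.symm⟩
  obtain ⟨f0, hf0⟩ := hF.1
  have hFw : AdjS T.G F (S ∪ (K \ F)) := by
    obtain ⟨a, ha, b, hb, hbF, hab⟩ := exit hK hf0 (hFK hf0) hw hwF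
    exact ⟨a, ha, b, Or.inr ⟨hb, hbF⟩, hab⟩
  have hFU : AdjS T.G F U := by
    have h3 := tri_conn3 T w w
    obtain ⟨a, ha, b, hb, hbF, hab⟩ := exit (f := f0) (s := s0) (F := F) h3 hf0
      (by
        intro h
        simp only [Set.mem_insert_iff, Set.mem_singleton_iff, or_self] at h
        exact hwF (h ▸ hf0))
      (by
        intro h
        simp only [Set.mem_insert_iff, Set.mem_singleton_iff, or_self] at h
        exact hs0K (h ▸ hw)) (fun h => hs0K (hFK h))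
    rcases c1 b with h | h | h
    · rcases hcl a ha b h hab with h' | h'
      · exact absurd h' hbF
      · exact absurd (by simp [h']) hb
    · exact absurd ⟨a, ha, b, h, hab⟩ hS
    · exact ⟨a, ha, b, h, hab⟩
  have hsp : Split T.G F (S ∪ (K \ F)) U := by
    refine ⟨fun v => ?_, ?_, c3.mono_left hFK, ?_, hS', c6, ?_, hFw, hFU⟩
    · by_cases hv : v ∈ F
      · exact Or.inl hv
      · rcases c1 v with h | h | h
        · exact Or.inr (Or.inl (Or.inr ⟨h, hv⟩))
        · exact Or.inr (Or.inl (Or.inl h))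
        · exact Or.inr (Or.inr h)
    · rw [Set.disjoint_union_right]
      exact ⟨c2.mono_left hFK, Set.disjoint_sdiff_right⟩
    · rw [Set.disjoint_union_left]
      exact ⟨c4, c3.mono_left Set.sdiff_subset⟩
    · obtain ⟨a, ha, b, hb, hab⟩ := c7
      exact ⟨a, Or.inl ha, b, hb, hab⟩
  rcases menger2 T.G F _ hF (fun e he => he.1) (lam_ne T hF hsp) x y hx hy hxy with
    ⟨P, Q, hP, hQ, hPQ, cP, cQ, hxP, hyQ, ⟨p, hp, hpL⟩, ⟨q, hq, hqL⟩⟩ | ⟨w', hw', hsep⟩
  · left
    exact both T hs0' hK hsp Set.subset_union_left subset_rfl hP hQ hPQ cP cQ hxP hyQ (hFK hx)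
      (hFK hy) ⟨p, hp, hpL.2⟩ ⟨q, hq, hqL.2⟩
  · right
    obtain ⟨z, hz, hzw⟩ := pick (w := w') hxy
    have hzF : z ∈ F := by
      rcases hz with h | h
      · exact h ▸ hx
      · exact h ▸ hy
    refine ⟨w', hw', cmp T.G F w' z, cmp_conn _ _ _ _, cmp_sub hzF, cmp_not hzw, ?_, ?_⟩
    · rcases hz with h | h
      · exact Or.inl (h ▸ Relation.ReflTransGen.refl)
      · exact Or.inr (h ▸ Relation.ReflTransGen.refl)
    · have hcF' := cmp_closed (G := T.G) (E := F) (w := w') (z := z)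
      have hΛ' : ∀ a ∈ cmp T.G F w' z,
          ¬ ((∃ s ∈ S ∪ (K \ F), T.G.Adj a s) ∧ ∃ u ∈ U, T.G.Adj a u) := by
        intro a ha hL
        exact hsep z hz hzw a ⟨cmp_sub hzF ha, hL⟩ (fun e => cmp_not hzw (e ▸ ha)) ha
      obtain ⟨-, -, hn⟩ := p3 T F (S ∪ (K \ F)) U hF hsp w' hw' (cmp T.G F w' z)
        (cmp_conn _ _ _ _) (cmp_sub hzF) (cmp_not hzw) hcF' hΛ'
      have hnS : ¬ AdjS T.G (cmp T.G F w' z) (S ∪ (K \ F)) := by
        intro hadj
        have hnU : ¬ AdjS T.G (cmp T.G F w' z) U := fun h => hn ⟨hadj, h⟩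
        obtain ⟨a, ha, b, hb, hbF', hab⟩ := exit (f := z) (s := s0) (F := cmp T.G F w' z)
          (tri_conn3 T w w') Relation.ReflTransGen.refl
          (by
            intro h
            rcases h with h | h
            · exact hwF (h ▸ hzF)
            · exact hzw h)
          (by
            intro h
            rcases h with h | h
            · exact hs0K (h ▸ hw)
            · exact hs0K ((show s0 = w' from h) ▸ hFK hw')) (fun h => hs0K (hFK (cmp_sub hzF h)))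
        rcases c1 b with h | h | h
        · by_cases hbF : b ∈ F
          · rcases hcF' a ha b hbF hab with h' | h'
            · exact hbF' h'
            · exact hb (by simp [h'])
          · rcases hcl a (cmp_sub hzF ha) b h hab with h' | h'
            · exact hbF h'
            · exact hb (by simp [h'])
        · exact hS ⟨a, cmp_sub hzF ha, b, h, hab⟩
        · exact hnU ⟨a, ha, b, h, hab⟩
      intro a ha b hb hab
      by_cases hbF : b ∈ F
      · exact hcF' a ha b hbF hab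
      · exact absurd ⟨a, ha, b, Or.inr ⟨hb, hbF⟩, hab⟩ hnS

theorem core {V : Type} [Fintype V] [DecidableEq V] (T : Tri V) (K : Finset V)
    (hK : Conn T.G (K : Set V)) {S U : Set V} (hs : Split T.G (K : Set V) S U) (Q : Finset V)
    (hQ : Q ⊆ K) (hQ9 : 9 ≤ Q.card)
    (hns : ∀ w, ∀ q ∈ Q, ∀ q' ∈ Q, q ≠ w → q' ≠ w →
      Relation.ReflTransGen (fun x y => T.G.Adj x y ∧ y ∈ K ∧ y ≠ w) q q') :
    ∃ x ∈ Q, ∃ y ∈ Q, x ≠ y ∧ ¬ T.G.Adj x y ∧ Both T S U (K : Set V) x y := by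
  classical
  by_contra hcon
  push Not at hcon
  have hex : ∃ n : ℕ, ∃ w ∈ (K : Set V), ∃ F : Set V, Conn T.G F ∧ F ⊆ K ∧ w ∉ F ∧
      (∀ a ∈ F, ∀ b ∈ (K : Set V), T.G.Adj a b → b ∈ F ∨ b = w) ∧
      (∀ a ∈ F, ¬ ((∃ s ∈ S, T.G.Adj a s) ∧ ∃ u ∈ U, T.G.Adj a u)) ∧
      (∀ q ∈ Q, q ≠ w → q ∈ F) ∧ F.ncard = n := by
    obtain ⟨x, hx, y, hy, hxy, hadj⟩ := noK5 T Q (by omega)
    rcases menger2 T.G (K : Set V) _ hK (fun e he => he.1) (lam_ne T hK hs) x y (hQ hx) (hQ hy) hxy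
      with ⟨P, R, hP, hR, hPR, cP, cR, hxP, hyR, ⟨p, hp, hpL⟩, ⟨q, hq, hqL⟩⟩ | ⟨w, hw, hsep⟩
    · exact absurd (both T hs hK hs subset_rfl subset_rfl hP hR hPR cP cR hxP hyR (hQ hx)
        (hQ hy) ⟨p, hp, hpL.2⟩ ⟨q, hq, hqL.2⟩) (hcon x hx y hy hxy hadj)
    · obtain ⟨z, hz, hzw⟩ := pick (w := w) hxy
      have hzQ : z ∈ Q := by
        rcases hz with h | h
        · exact h ▸ hx
        · exact h ▸ hy
      have hzK : z ∈ (K : Set V) := hQ hzQ
      refine ⟨_, w, hw, cmp T.G (K : Set V) w z, cmp_conn _ _ _ _, cmp_sub hzK, cmp_not hzw,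
        cmp_closed, ?_, ?_, rfl⟩
      · intro a ha hL
        exact hsep z hz hzw a ⟨cmp_sub hzK ha, hL⟩ (fun e => cmp_not hzw (e ▸ ha)) ha
      · intro q hq hqw
        exact Relation.ReflTransGen.mono (p := fun a b => T.G.Adj a b ∧ b ∈ (K : Set V) ∧ b ≠ w) (fun a b h => ⟨h.1, Finset.mem_coe.2 h.2.1, h.2.2⟩) _ _
          (hns w z hzQ q hq hzw hqw)
  obtain ⟨w, hw, F, hF, hFK, hwF, hcl, hΛ, hQF, hn⟩ := Nat.find_spec hex
  have hmin := fun m (hm : m < Nat.find hex) => Nat.find_min hex hm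
  obtain ⟨x, hx, y, hy, hxy, hadj⟩ := noK5 T (Q.erase w) (by
    have := Finset.pred_card_le_card_erase (s := Q) (a := w)
    omega)
  obtain ⟨hxw, hxQ⟩ := Finset.mem_erase.1 hx
  obtain ⟨hyw, hyQ⟩ := Finset.mem_erase.1 hy
  obtain ⟨hKF, -, hnb⟩ := p3 T (K : Set V) S U hK hs w hw F hF hFK hwF hcl hΛ
  have key : Both T S U (K : Set V) x y ∨ ∃ w' ∈ F, ∃ F' : Set V, Conn T.G F' ∧ F' ⊆ F ∧ w' ∉ F' ∧
      (x ∈ F' ∨ y ∈ F') ∧ ∀ a ∈ F', ∀ b ∈ (K : Set V), T.G.Adj a b → b ∈ F' ∨ b = w' := by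
    by_cases h : AdjS T.G F S
    · have hU : ¬ AdjS T.G F U := fun h' => hnb ⟨h, h'⟩
      rcases step2 T (split_swap hs) hK hw hF hFK hwF hcl hKF hU (hQF x hxQ hxw) (hQF y hyQ hyw)
        hxy with h1 | h1
      · exact Or.inl (both_swap h1)
      · exact Or.inr h1
    · exact step2 T hs hK hw hF hFK hwF hcl hKF h (hQF x hxQ hxw) (hQF y hyQ hyw) hxy
  rcases key with h | ⟨w', hw', F', hF', hFF, hwF', hz, hcl'⟩
  · exact hcon x hxQ y hyQ hxy hadj h
  · have hlt : F'.ncard < F.ncard :=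
      Set.ncard_lt_ncard ⟨hFF, fun h => hwF' (h hw')⟩ (Set.toFinite _)
    refine hmin F'.ncard (hn ▸ hlt) ⟨w', hFK hw', F', hF', hFF.trans hFK, hwF', hcl',
      fun a ha => hΛ a (hFF ha), ?_, rfl⟩
    intro q hq hqw
    obtain ⟨z, hzQ, hzF'⟩ : ∃ z ∈ Q, z ∈ F' := by
      rcases hz with h | h
      · exact ⟨x, hxQ, h⟩
      · exact ⟨y, hyQ, h⟩
    have hzw : z ≠ w' := fun e => hwF' (e ▸ hzF')
    have hr := hns w' z hzQ q hq hzw hqw
    clear hqw hq
    induction hr with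
    | refl => exact hzF'
    | tail _ h2 ih =>
      rcases hcl' _ ih _ (Finset.mem_coe.2 h2.2.1) h2.1 with h | h
      · exact h
      · exact absurd h h2.2.2

end W_THICK

open W_THICK in
theorem THICK {V₀ V : Type} [Fintype V₀] [Fintype V] [DecidableEq V] (T₀ : Tri V₀) (T : Tri V) (κ : V₀ → V) (hc : Clus T₀ T κ)
    (c : V → ℕ) (K : Finset V) (hK : Conn T.G (K : Set V)) (hcap : ∀ v ∈ K, CapSet T₀ T κ {v} (c v))
    (Q : Finset V) (hQ : Q ⊆ K) (hQ9 : 9 ≤ Q.card)
    (hns : ∀ w, ∀ q ∈ Q, ∀ q' ∈ Q, q ≠ w → q' ≠ w →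
      Relation.ReflTransGen (fun x y => T.G.Adj x y ∧ y ∈ K ∧ y ≠ w) q q')
    (g m : ℕ) (hg : ∀ q ∈ Q, g ≤ c q) (hm : ∑ v ∈ K, c v ≤ m + g) :
    CapSet T₀ T κ (K : Set V) m := by
  intro S U hs
  obtain ⟨x, hx, y, hy, hxy, hadj, ⟨h₁, v1, i1, l1⟩, ⟨h₂, v2, i2, l2⟩⟩ :=
    core T K hK hs Q hQ hQ9 hns
  obtain ⟨h, hv, heq, hinj⟩ := TIE T K S U hs h₁ h₂ v1 v2 i1 i2 x y (hQ hx) (hQ hy) l1 l2
  obtain ⟨h₀, hv0, hc0⟩ := CAPSAME T₀ T κ hc K S U hs c hcap h hv x y (hQ hx) (hQ hy) hxy hadj heq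
    hinj g (hg x hx) (hg y hy)
  exact ⟨h₀, hv0, by omega⟩


end Pool.Agent.H891WLC
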