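import Pool.Agent.H891WLC.Defs
import Pool.Agent.H891WLC.CLAW
import Pool.Agent.H891WLC.THICK
import Pool.Agent.H891WLC.CHAINL

set_option autoImplicit false

namespace Pool.Agent.H891WLC

namespace W_CLASS

end W_CLASS

open W_CLASS in
theorem CLASS {V₀ V : Type} [Fintype V₀] [Fintype V] [DecidableEq V] (T₀ : Tri V₀) (T : Tri V) (κ : V₀ → V) (hc : Clus T₀ T κ)
    (c : V → ℕ) (K : Finset V) (hK : Conn T.G (K : Set V)) (hcap : ∀ v ∈ K, CapSet T₀ T κ {v} (c v)) (g : ℕ) :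
    (∀ m, ∑ v ∈ K, c v ≤ m + g → CapSet T₀ T κ (K : Set V) m) ∨
    ∃ (s : ℕ) (w : ℕ → V) (r : V → ℕ),
      (∀ v ∈ K, 1 ≤ r v ∧ r v ≤ 2 * s + 1) ∧ (∀ i, 1 ≤ i → i ≤ s → w i ∈ K ∧ r (w i) = 2 * i) ∧
      (∀ u ∈ K, ∀ v ∈ K, T.G.Adj u v → r u ≤ r v + 1 ∨ ∃ i, 1 ≤ i ∧ i + 1 ≤ s ∧ v = w i ∧ u = w (i + 1)) ∧
      (∀ u ∈ K, ∀ v ∈ K, ∀ i, T.G.Adj u v → r u = 2 * i → r v ≠ 2 * i → u = w i) ∧
      (∀ i, 1 ≤ i → i ≤ s → Conn T.G {v | v ∈ K ∧ r v < 2 * i}) ∧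
      (∀ i, 1 ≤ i → i ≤ s → Conn T.G {v | v ∈ K ∧ 2 * i < r v}) ∧
      (∀ i, 1 ≤ i → i ≤ s → Conn T.G {v | v ∈ K ∧ r v = 2 * i}) ∧
      (∀ k, (K.filter (fun v => g ≤ c v ∧ r v = k)).card ≤ 8) := by
  set Q : Finset V := K.filter (fun v => g ≤ c v) with hQdef
  have hQK : Q ⊆ K := Finset.filter_subset _ _
  by_cases hclaw : ∃ (D : Fin 3 → Finset V) (z : Fin 3 → V), (∀ i, D i ⊆ K) ∧
      (∀ i j, i ≠ j → Disjoint (D i) (D j)) ∧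
      (∀ i, z i ∈ K) ∧ (∀ i j, z i ∉ D j) ∧ (∀ i, Conn T.G (D i : Set V)) ∧
      (∀ i, ∀ u ∈ D i, ∀ v ∈ K, T.G.Adj u v → v ∈ D i ∨ v = z i) ∧ (∀ i, (D i ∩ Q).Nonempty)
  · left
    intro m hm
    obtain ⟨D, z, hD, hdisj, hz, hzD, hconn, hiso, hne⟩ := hclaw
    refine CLAW T₀ T κ hc c K hK hcap D z hD hdisj hz hzD hconn hiso g m ?_ hm
    intro i
    obtain ⟨q, hq⟩ := hne i
    rw [Finset.mem_inter, hQdef, Finset.mem_filter] at hq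
    exact hq.2.2.trans (Finset.single_le_sum (f := c) (fun _ _ => Nat.zero_le _) hq.1)
  · by_cases hthick : ∃ Q' : Finset V, Q' ⊆ Q ∧ 9 ≤ Q'.card ∧ ∀ w, ∀ q ∈ Q', ∀ q' ∈ Q',
        q ≠ w → q' ≠ w → Relation.ReflTransGen (fun x y => T.G.Adj x y ∧ y ∈ K ∧ y ≠ w) q q'
    · left
      intro m hm
      obtain ⟨Q', hQ', h9, hns⟩ := hthick
      refine THICK T₀ T κ hc c K hK hcap Q' (hQ'.trans hQK) h9 hns g m ?_ hm
      intro q hq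
      have := hQ' hq
      rw [hQdef, Finset.mem_filter] at this
      exact this.2
    · right
      obtain ⟨s, w, r, h1, h2, h3, h4, h5, h6, h7, h8⟩ := CHAINL T.G K Q hK hQK hclaw hthick
      refine ⟨s, w, r, h1, h2, h3, h4, h5, h6, h7, ?_⟩
      intro k
      have := h8 k
      rw [hQdef, Finset.filter_filter] at this
      exact this


end Pool.Agent.H891WLC
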