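import Pool.Agent.H891WLC.Defs
import Pool.Agent.H891WLC.CLUS_ADJ
import Pool.Agent.H891WLC.CLUS_CONN

set_option autoImplicit false

namespace Pool.Agent.H891WLC

namespace W_CLUS_COMP

end W_CLUS_COMP

open W_CLUS_COMP in
theorem CLUS_COMP {V₀ V W : Type} [Finite V₀] [Finite V] [Finite W] (T₀ : Tri V₀) (T : Tri V) (T' : Tri W) (κ : V₀ → V) (π : V → W)
    (hc : Clus T₀ T κ) (hp : Clus T T' π) : Clus T₀ T' (π ∘ κ) := by
  refine ⟨?_, ?_⟩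
  · intro w
    rw [Set.preimage_comp]
    exact (CLUS_CONN T₀ T κ hc _).1 (hp.1 w)
  · intro a b c
    constructor
    · intro h
      obtain ⟨hab, hbc, hac, x, y, z, hx, hy, hz, hF⟩ := (hp.2 a b c).1 h
      obtain ⟨-, -, -, x₀, y₀, z₀, hx₀, hy₀, hz₀, hF₀⟩ := (hc.2 x y z).1 hF
      refine ⟨hab, hbc, hac, x₀, y₀, z₀, ?_, ?_, ?_, hF₀⟩
      · rw [Function.comp_apply, hx₀, hx]
      · rw [Function.comp_apply, hy₀, hy]
      · rw [Function.comp_apply, hz₀, hz]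
    · rintro ⟨hab, hbc, hac, x₀, y₀, z₀, hx₀, hy₀, hz₀, hF₀⟩
      rw [Function.comp_apply] at hx₀ hy₀ hz₀
      refine (hp.2 a b c).2 ⟨hab, hbc, hac, κ x₀, κ y₀, κ z₀, hx₀, hy₀, hz₀, ?_⟩
      refine (hc.2 _ _ _).2 ⟨?_, ?_, ?_, x₀, y₀, z₀, rfl, rfl, rfl, hF₀⟩
      · intro h; apply hab; rw [← hx₀, ← hy₀, h]
      · intro h; apply hbc; rw [← hy₀, ← hz₀, h]
      · intro h; apply hac; rw [← hx₀, ← hz₀, h]


end Pool.Agent.H891WLC
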