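import Pool.Agent.H891WLC.Defs
import Pool.Agent.H891WLC.tri_conn3
import Pool.Agent.H891WLC.THREE
import Pool.Agent.H891WLC.CLUS_ADJ
import Pool.Agent.H891WLC.CLUS_CONN

set_option autoImplicit false

namespace Pool.Agent.H891WLC

namespace W_CLUS_UNIQ

end W_CLUS_UNIQ

open W_CLUS_UNIQ in
theorem CLUS_UNIQ {V₀ V : Type} [Finite V₀] [Finite V] (T₀ : Tri V₀) (T : Tri V) (κ : V₀ → V) (hc : Clus T₀ T κ)
    (a b c a' b' c' : V₀) (h1 : T₀.F a b c) (h2 : T₀.F a' b' c') (hab : κ a ≠ κ b) (hbc : κ b ≠ κ c) (hac : κ a ≠ κ c)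
    (ea : κ a' = κ a) (eb : κ b' = κ b) (ec : κ c' = κ c) : a = a' ∧ b = b' ∧ c = c' := by
  have hr1 := T₀.rot _ _ _ h1
  have hr2 := T₀.rot _ _ _ hr1
  have haU : c ∈ κ ⁻¹' (({κ a, κ b} : Set V)ᶜ) := by
    simp only [Set.mem_preimage, Set.mem_compl_iff, Set.mem_insert_iff, Set.mem_singleton_iff]
    rintro (h | h)
    · exact hac h.symm
    · exact hbc h.symm
  have haU' : c' ∈ κ ⁻¹' (({κ a, κ b} : Set V)ᶜ) := by
    simp only [Set.mem_preimage, Set.mem_compl_iff, Set.mem_insert_iff, Set.mem_singleton_iff, ec]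
    rintro (h | h)
    · exact hac h.symm
    · exact hbc h.symm
  have key := (THREE T₀ (κ ⁻¹' {κ a}) (κ ⁻¹' {κ b}) (κ ⁻¹' (({κ a, κ b} : Set V)ᶜ))
    (by
      intro v
      by_cases h : κ v = κ a
      · left; exact h
      · by_cases h' : κ v = κ b
        · right; left; exact h'
        · right; right
          simp only [Set.mem_preimage, Set.mem_compl_iff, Set.mem_insert_iff,
            Set.mem_singleton_iff]
          rintro (g | g)
          · exact h g
          · exact h' g)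
    (by
      rw [Set.disjoint_left]
      intro v hv hv'
      apply hab
      rw [← (show κ v = κ a from hv), ← (show κ v = κ b from hv')])
    (by
      rw [Set.disjoint_left]
      intro v hv hv'
      exact hv' (Or.inl hv))
    (by
      rw [Set.disjoint_left]
      intro v hv hv'
      exact hv' (Or.inr hv))
    (hc.1 _) (hc.1 _) ((CLUS_CONN T₀ T κ hc _).1 (tri_conn3 T (κ a) (κ b)))
    ⟨a, rfl, b, rfl, ⟨c, h1⟩⟩
    ⟨a, rfl, c, haU, (T₀.opp _ _ _ hr2)⟩
    ⟨b, rfl, c, haU, ⟨a, hr1⟩⟩).2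
  exact key a b c a' b' c' rfl rfl haU ea eb haU' h1 h2


end Pool.Agent.H891WLC
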