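import Pool.Agent.H891WLC.Defs
import Pool.Agent.H891WLC.CLUS_ADJ
import Pool.Agent.H891WLC.CLUS_CONN
import Pool.Agent.H891WLC.CLUS_UNIQ

set_option autoImplicit false

namespace Pool.Agent.H891WLC

namespace W_CLUS_FACT

end W_CLUS_FACT

open W_CLUS_FACT in
theorem CLUS_FACT {V X W : Type} [Finite V] [Finite X] [Finite W] (T : Tri V) (T1 : Tri X) (T' : Tri W) (ρ : V → X) (σ : X → W)
    (hc : Clus T T' (σ ∘ ρ)) (h1 : Clus T T1 ρ) : Clus T1 T' σ := by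
  refine ⟨?_, ?_⟩
  · intro w
    rw [CLUS_CONN T T1 ρ h1 (σ ⁻¹' {w}), ← Set.preimage_comp]
    exact hc.1 w
  · intro A B C
    rw [hc.2 A B C]
    constructor
    · rintro ⟨hAB, hBC, hAC, a₀, b₀, c₀, rfl, rfl, rfl, hF⟩
      refine ⟨hAB, hBC, hAC, ρ a₀, ρ b₀, ρ c₀, rfl, rfl, rfl, ?_⟩
      rw [h1.2]
      refine ⟨fun h => hAB ?_, fun h => hBC ?_, fun h => hAC ?_, a₀, b₀, c₀, rfl, rfl, rfl, hF⟩
      · show σ (ρ a₀) = σ (ρ b₀)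
        rw [h]
      · show σ (ρ b₀) = σ (ρ c₀)
        rw [h]
      · show σ (ρ a₀) = σ (ρ c₀)
        rw [h]
    · rintro ⟨hAB, hBC, hAC, a, b, c, rfl, rfl, rfl, hF⟩
      rw [h1.2] at hF
      obtain ⟨-, -, -, a₀, b₀, c₀, rfl, rfl, rfl, hF⟩ := hF
      exact ⟨hAB, hBC, hAC, a₀, b₀, c₀, rfl, rfl, rfl, hF⟩


end Pool.Agent.H891WLC
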