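import Pool.Agent.H891WLC.Defs
import Pool.Agent.H891WLC.tri_conn3
import Pool.Agent.H891WLC.CHI
import Pool.Agent.H891WLC.THREE
import Pool.Agent.H891WLC.FOUR

set_option autoImplicit false

namespace Pool.Agent.H891WLC

namespace W_CT

open Relation

variable {V : Type}

/-- reachability inside `A` -/
def RA (T : Tri V) (A : Set V) (x y : V) : Prop :=
  ReflTransGen (fun x y => T.G.Adj x y ∧ y ∈ A) x y

def AA (u v z : V) : Set V := {x | x ≠ u ∧ x ≠ v ∧ x ≠ z}

theorem AA_eq (u v z : V) : ({u, v, z}ᶜ : Set V) = AA u v z := by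
  ext x
  constructor
  · intro h
    exact ⟨fun h' => h (Or.inl h'), fun h' => h (Or.inr (Or.inl h')),
      fun h' => h (Or.inr (Or.inr h'))⟩
  · rintro ⟨h1, h2, h3⟩ (h | h | h)
    · exact h1 h
    · exact h2 h
    · exact h3 h

theorem AA_swap (u v z : V) : AA u v z = AA v u z := by
  ext x
  exact ⟨fun h => ⟨h.2.1, h.1, h.2.2⟩, fun h => ⟨h.2.1, h.1, h.2.2⟩⟩

theorem AA_swap3 (u v z : V) : AA u v z = AA z v u := by
  ext x
  exact ⟨fun h => ⟨h.2.2, h.2.1, h.1⟩, fun h => ⟨h.2.2, h.2.1, h.1⟩⟩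

theorem RA_mem {T : Tri V} {A : Set V} {x y : V} (h : RA T A x y) (hx : x ∈ A) : y ∈ A := by
  induction h with
  | refl => exact hx
  | tail _ h2 _ => exact h2.2

theorem RA_symm {T : Tri V} {A : Set V} {x y : V} (h : RA T A x y) (hx : x ∈ A) :
    RA T A y x := by
  induction h with
  | refl => exact ReflTransGen.refl
  | tail h1 h2 ih => exact ReflTransGen.head ⟨h2.1.symm, RA_mem h1 hx⟩ ih

theorem adj12 (T : Tri V) {a b c : V} (h : T.F a b c) : T.G.Adj a b := ⟨c, h⟩
theorem adj23 (T : Tri V) {a b c : V} (h : T.F a b c) : T.G.Adj b c := ⟨a, T.rot _ _ _ h⟩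
theorem adj31 (T : Tri V) {a b c : V} (h : T.F a b c) : T.G.Adj c a :=
  ⟨b, T.rot _ _ _ (T.rot _ _ _ h)⟩
theorem adj13 (T : Tri V) {a b c : V} (h : T.F a b c) : T.G.Adj a c := (adj31 T h).symm

theorem pred_uniq (T : Tri V) {v x x' y : V} (h : T.F v x y) (h' : T.F v x' y) : x = x' :=
  T.uniq y v x x' (T.rot _ _ _ (T.rot _ _ _ h)) (T.rot _ _ _ (T.rot _ _ _ h'))

theorem link_avoid (T : Tri V) {u v s : V} (hs : T.F u v s) {a : V} (ha : T.G.Adj u a)
    (hav : a ≠ v) : ReflTransGen (fun x y => T.F u x y ∧ y ≠ v) s a := by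
  obtain ⟨b, hb⟩ := ha
  have h := T.link u v s a b hs hb
  have key : ∀ a, ReflTransGen (fun x y => T.F u x y) v a →
      a = v ∨ ReflTransGen (fun x y => T.F u x y ∧ y ≠ v) s a := by
    intro a h
    induction h with
    | refl => exact Or.inl rfl
    | tail h1 h2 ih =>
      rename_i p c
      by_cases hc : c = v
      · exact Or.inl hc
      · rcases ih with h3 | ih
        · rw [h3] at h2
          rw [← T.uniq _ _ _ _ hs h2]
          exact Or.inr ReflTransGen.refl
        · exact Or.inr (ih.tail ⟨h2, hc⟩)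
  exact (key a h).resolve_left hav

theorem link_closed (T : Tri V) {y a0 : V} (h0 : T.G.Adj y a0) (S : V → Prop) (hS0 : S a0)
    (hS : ∀ a b, S a → T.F y a b → S b) : ∀ a, T.G.Adj y a → S a := by
  intro a ha
  obtain ⟨b0, hb0⟩ := h0
  obtain ⟨b, hb⟩ := ha
  have h := T.link y a0 b0 a b hb0 hb
  clear hb
  induction h with
  | refl => exact hS0
  | tail _ h2 ih => exact hS _ _ ih h2

theorem touch [Finite V] (T : Tri V) {u v z a : V} (huv : u ≠ v) (huz : u ≠ z)
    (ha : a ∈ AA u v z) : ∃ a' ∈ AA u v z, RA T (AA u v z) a a' ∧ T.G.Adj u a' := by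
  have hc := tri_conn3 T v z
  have h := hc.2 a (by
    rintro (h | h)
    · exact ha.2.1 h
    · exact ha.2.2 h) u (by
    rintro (h | h)
    · exact huv h
    · exact huz h)
  have key : ∀ w, ReflTransGen (fun x y => T.G.Adj x y ∧ y ∈ ({v, z}ᶜ : Set V)) a w →
      (∃ a' ∈ AA u v z, RA T (AA u v z) a a' ∧ T.G.Adj u a') ∨
        (RA T (AA u v z) a w ∧ w ∈ AA u v z) := by
    intro w hw
    induction hw with
    | refl => exact Or.inr ⟨ReflTransGen.refl, ha⟩
    | tail h1 h2 ih =>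
      rename_i b c
      rcases ih with ih | ⟨ih1, ih2⟩
      · exact Or.inl ih
      · by_cases hc : c = u
        · rw [hc] at h2
          exact Or.inl ⟨b, ih2, ih1, h2.1.symm⟩
        · have hc' : c ∈ AA u v z :=
            ⟨hc, fun h' => h2.2 (Or.inl h'), fun h' => h2.2 (Or.inr h')⟩
          exact Or.inr ⟨ih1.tail ⟨h2.1, hc'⟩, hc'⟩
  rcases key u h with h1 | ⟨_, h2⟩
  · exact h1
  · exact absurd rfl h2.1

theorem adj_of_cut [Finite V] (T : Tri V) {u v z : V} (huv : T.G.Adj u v) (hzu : z ≠ u)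
    (hne : (AA u v z).Nonempty) (hnc : ¬ Conn T.G (AA u v z)) : T.G.Adj u z := by
  by_contra hna
  apply hnc
  refine ⟨hne, fun p hp q hq => ?_⟩
  have huv' : u ≠ v := T.G.ne_of_adj huv
  obtain ⟨p', hp', hpp, hup⟩ := touch T huv' (Ne.symm hzu) hp
  obtain ⟨q', hq', hqq, huq⟩ := touch T huv' (Ne.symm hzu) hq
  obtain ⟨s, hs⟩ := huv
  have hmem : ∀ y, T.G.Adj u y → y ≠ v → y ∈ AA u v z := by
    intro y h1 h2
    refine ⟨(T.G.ne_of_adj h1).symm, h2, ?_⟩
    rintro rfl
    exact hna h1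
  have hall : ∀ a, ReflTransGen (fun x y => T.F u x y ∧ y ≠ v) s a →
      RA T (AA u v z) s a := by
    intro a h
    induction h with
    | refl => exact ReflTransGen.refl
    | tail h1 h2 ih => exact ih.tail ⟨adj23 T h2.1, hmem _ (adj13 T h2.1) h2.2⟩
  have h1 := hall p' (link_avoid T hs hup hp'.2.1)
  have h2 := hall q' (link_avoid T hs huq hq'.2.1)
  have hsv : s ≠ v := (T.G.ne_of_adj (adj23 T hs)).symm
  have hsA : s ∈ AA u v z := hmem s (adj13 T hs) hsv
  exact (hpp.trans ((RA_symm h1 hsA).trans h2)).trans (RA_symm hqq hq)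

def Contr (T : Tri V) (u v : V) : Prop :=
  T.G.Adj u v ∧ ∀ z, z ≠ u → z ≠ v → Conn T.G (AA u v z)

theorem exists_contr [Finite V] (T : Tri V) : ∀ (n : ℕ) (v u z d d2 : V), v ≠ u → v ≠ z →
    u ≠ z → d ∈ AA v u z → d2 ∈ AA v u z → ¬ RA T (AA v u z) d d2 →
    Set.ncard {x | RA T (AA v u z) d x} ≤ n →
    ∃ w, RA T (AA v u z) d w ∧ Contr T v w := by
  intro n
  induction n with
  | zero =>
    intro v u z d d2 _ _ _ _ _ _ hcard
    exfalso
    have h0 : Set.ncard {x | RA T (AA v u z) d x} = 0 := by omega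
    rw [Set.ncard_eq_zero (Set.toFinite _)] at h0
    have : d ∈ {x | RA T (AA v u z) d x} := ReflTransGen.refl
    rw [h0] at this
    exact this
  | succ n ih =>
    intro v u z d d2 hvu hvz huz hd hd2 hdd hcard
    obtain ⟨w, hwA, hdw, hvw⟩ := touch T hvu hvz hd
    by_cases hC : Contr T v w
    · exact ⟨w, hdw, hC⟩
    · have hex : ∃ z', z' ≠ v ∧ z' ≠ w ∧ ¬ Conn T.G (AA v w z') := by
        by_contra hcon
        push Not at hcon
        exact hC ⟨hvw, fun z' h1 h2 => hcon z' h1 h2⟩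
      obtain ⟨z', hz'v, hz'w, hnc⟩ := hex
      have hvw' : v ≠ w := T.G.ne_of_adj hvw
      have hwd2 : d2 ≠ w := by
        rintro rfl
        exact hdd hdw
      have hne : (AA v w z').Nonempty := by
        by_cases h : z' = u
        · exact ⟨d2, hd2.1, hwd2, by rw [h]; exact hd2.2.1⟩
        · exact ⟨u, hvu.symm, fun h' => hwA.2.1 h'.symm, fun h' => h h'.symm⟩
      have hwz' : T.G.Adj w z' := adj_of_cut T hvw.symm hz'w (by rw [AA_swap]; exact hne)
        (by rw [AA_swap]; exact hnc)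
      have hsep : ∀ x, RA T (AA v u z) d x → RA T (AA v u z) d2 x → False :=
        fun x h1 h2 => hdd (h1.trans (RA_symm h2 hd2))
      have hcA' : ∀ x, RA T (AA v u z) d2 x → x ∈ AA v w z' := by
        intro x hx
        have hxA := RA_mem hx hd2
        refine ⟨hxA.1, ?_, ?_⟩
        · rintro rfl
          exact hsep _ hdw hx
        · rintro rfl
          exact hsep _ (hdw.tail ⟨hwz', hxA⟩) hx
      have hcomp : ∀ x, RA T (AA v u z) d2 x → RA T (AA v w z') d2 x := by
        intro x hx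
        induction hx with
        | refl => exact ReflTransGen.refl
        | tail h1 h2 ih2 => exact ih2.tail ⟨h2.1, hcA' _ (h1.tail h2)⟩
      have hd2' : d2 ∈ AA v w z' := hcA' _ ReflTransGen.refl
      have hu' : u ≠ z' → RA T (AA v w z') d2 u := by
        intro h
        obtain ⟨t, ht, hdt, hut⟩ := touch T (u := u) (v := v) (z := z) (a := d2) hvu.symm huz
          (by rw [AA_swap]; exact hd2)
        rw [AA_swap u v z] at hdt
        exact (hcomp t hdt).tail ⟨hut.symm, hvu.symm, fun h' => hwA.2.1 h'.symm, h⟩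
      have hz' : z ≠ z' → RA T (AA v w z') d2 z := by
        intro h
        obtain ⟨t, ht, hdt, hut⟩ := touch T (u := z) (v := u) (z := v) (a := d2) huz.symm
          hvz.symm (by rw [AA_swap3]; exact hd2)
        rw [AA_swap3 z u v] at hdt
        exact (hcomp t hdt).tail ⟨hut.symm, hvz.symm, fun h' => hwA.2.2 h'.symm, h⟩
      have hp : ∃ p ∈ AA v w z', ¬ RA T (AA v w z') d2 p := by
        by_contra hcon
        push Not at hcon
        apply hnc
        exact ⟨hne, fun p hp q hq => (RA_symm (hcon p hp) hd2').trans (hcon q hq)⟩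
      obtain ⟨p, hpA', hp⟩ := hp
      have hD' : ∀ x, RA T (AA v w z') p x → x ∈ AA v u z := by
        intro x hx
        have hxA' := RA_mem hx hpA'
        refine ⟨hxA'.1, ?_, ?_⟩
        · intro h
          rw [h] at hx hxA'
          exact hp ((hu' hxA'.2.2).trans (RA_symm hx hpA'))
        · intro h
          rw [h] at hx hxA'
          exact hp ((hz' hxA'.2.2).trans (RA_symm hx hpA'))
      obtain ⟨w', hw'A', hpw', hww'⟩ := touch T (u := w) (v := v) (z := z') (a := p) hvw'.symm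
        hz'w.symm (by rw [AA_swap]; exact hpA')
      rw [AA_swap w v z'] at hpw'
      have hdw' : RA T (AA v u z) d w' := hdw.tail ⟨hww', hD' w' hpw'⟩
      have hsub : ∀ x, RA T (AA v w z') p x → RA T (AA v u z) d x := by
        have h3 : ∀ x, RA T (AA v w z') w' x → RA T (AA v u z) w' x := by
          intro x hx
          induction hx with
          | refl => exact ReflTransGen.refl
          | tail h1 h2 ih2 => exact ih2.tail ⟨h2.1, hD' _ ((hpw'.trans h1).tail h2)⟩
        intro x hx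
        exact hdw'.trans (h3 x ((RA_symm hpw' hpA').trans hx))
      have hlt : Set.ncard {x | RA T (AA v w z') p x} <
          Set.ncard {x | RA T (AA v u z) d x} := by
        apply Set.ncard_lt_ncard _ (Set.toFinite _)
        refine ⟨fun x hx => hsub x hx, fun h => ?_⟩
        have h4 : w ∈ {x | RA T (AA v w z') p x} := h hdw
        exact (RA_mem (show RA T (AA v w z') p w from h4) hpA').2.1 rfl
      obtain ⟨w2, hw2, hc2⟩ := ih v w z' p d2 hvw' hz'v.symm hz'w.symm hpA' hd2'
        (fun h => hp (RA_symm h hpA')) (by omega)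
      exact ⟨w2, hsub w2 hw2, hc2⟩

theorem nonempty_AA [Finite V] (h4 : 4 ≤ Nat.card V) (u v z : V) : (AA u v z).Nonempty := by
  by_contra hcon
  rw [Set.not_nonempty_iff_eq_empty] at hcon
  have hsub : (Set.univ : Set V) ⊆ {u, v, z} := by
    intro x _
    by_contra hx
    have h1 : x ∈ AA u v z := by
      rw [← AA_eq]
      exact hx
    rw [hcon] at h1
    exact h1
  have h1 := Set.ncard_le_ncard hsub (Set.toFinite _)
  rw [Set.ncard_univ] at h1
  have h2 := Set.ncard_insert_le u {v, z}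
  have h3 := Set.ncard_insert_le v {z}
  rw [Set.ncard_singleton] at h3
  omega

theorem two_contr [Finite V] (T : Tri V) (h4 : 4 ≤ Nat.card V) (v : V) :
    ∃ w1 w2, w1 ≠ w2 ∧ Contr T v w1 ∧ Contr T v w2 := by
  by_cases h : ∃ w z, T.G.Adj v w ∧ z ≠ v ∧ z ≠ w ∧ ¬ Conn T.G (AA v w z)
  · obtain ⟨w, z, hvw, hzv, hzw, hnc⟩ := h
    have hne := nonempty_AA h4 v w z
    have hex : ∃ p ∈ AA v w z, ∃ q ∈ AA v w z, ¬ RA T (AA v w z) p q := by
      by_contra hcon
      push Not at hcon
      exact hnc ⟨hne, fun p hp q hq => hcon p hp q hq⟩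
    obtain ⟨p, hp, q, hq, hpq⟩ := hex
    obtain ⟨w1, h1, c1⟩ := exists_contr T _ v w z p q (T.G.ne_of_adj hvw) hzv.symm hzw.symm hp hq
      hpq le_rfl
    obtain ⟨w2, h2, c2⟩ := exists_contr T _ v w z q p (T.G.ne_of_adj hvw) hzv.symm hzw.symm hq hp
      (fun h => hpq (RA_symm h hq)) le_rfl
    refine ⟨w1, w2, ?_, c1, c2⟩
    rintro rfl
    exact hpq (h1.trans (RA_symm h2 hq))
  · push Not at h
    obtain ⟨v', hv'⟩ := nonempty_AA h4 v v v
    have h0 := T.conn v v'
    rcases ReflTransGen.cases_head h0 with h0 | ⟨c, ⟨z, hz⟩, _⟩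
    · exact absurd h0.symm hv'.1
    · exact ⟨c, z, T.ne _ _ _ (T.rot _ _ _ hz),
        ⟨adj12 T hz, fun z' h1 h2 => h c z' (adj12 T hz) h1 h2⟩,
        ⟨adj13 T hz, fun z' h1 h2 => h z z' (adj13 T hz) h1 h2⟩⟩

theorem cut_nbrs [Finite V] (T : Tri V) {y c z : V} (hyc : y ≠ c) (hyz : y ≠ z)
    (hne : (AA y c z).Nonempty) (hnc : ¬ Conn T.G (AA y c z)) :
    ∃ p q, p ∈ AA y c z ∧ q ∈ AA y c z ∧ T.G.Adj y p ∧ T.G.Adj y q ∧ p ≠ q ∧
      ¬ T.G.Adj p q := by
  have hex : ∃ p ∈ AA y c z, ∃ q ∈ AA y c z, ¬ RA T (AA y c z) p q := by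
    by_contra hcon
    push Not at hcon
    exact hnc ⟨hne, fun p hp q hq => hcon p hp q hq⟩
  obtain ⟨p, hp, q, hq, hpq⟩ := hex
  obtain ⟨p', hp', hpp, hyp⟩ := touch T hyc hyz hp
  obtain ⟨q', hq', hqq, hyq⟩ := touch T hyc hyz hq
  have hnn : ¬ RA T (AA y c z) p' q' := fun h => hpq ((hpp.trans h).trans (RA_symm hqq hq))
  refine ⟨p', q', hp', hq', hyp, hyq, ?_, ?_⟩
  · rintro rfl
    exact hnn ReflTransGen.refl
  · intro h
    exact hnn (ReflTransGen.single ⟨h, hq'⟩)

def HY (T : Tri V) (Y : Set V) : Prop :=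
  ∀ u ∈ Y, ∀ v ∈ Y, T.G.Adj u v → ∃ z, z ≠ u ∧ z ≠ v ∧ ¬ Conn T.G (AA u v z)

structure Good (T : Tri V) (Y : Set V) (y : V) : Prop where
  mem : y ∈ Y
  two : ∃ x1 x2, x1 ∉ Y ∧ x2 ∉ Y ∧ x1 ≠ x2 ∧ T.G.Adj y x1 ∧ T.G.Adj y x2 ∧
    ∀ x, x ∉ Y → T.G.Adj y x → x = x1 ∨ x = x2
  noY : ∀ b c, b ∈ Y → c ∈ Y → ¬ T.F y b c

theorem no_three [Finite V] (T : Tri V) (h4 : 4 ≤ Nat.card V) {y a b c : V} (h1 : T.F y a b)
    (h2 : T.F y b c) (h3 : T.F y c a) {z : V} (hz : z ≠ y)
    (hnc : ¬ Conn T.G (AA y c z)) : False := by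
  have hall : ∀ d, T.G.Adj y d → d = a ∨ d = b ∨ d = c :=
    link_closed T (adj12 T h1) (fun d => d = a ∨ d = b ∨ d = c) (Or.inl rfl) (by
      rintro p q (h | h | h) hpq
      · rw [h] at hpq; exact Or.inr (Or.inl (T.uniq _ _ _ _ hpq h1))
      · rw [h] at hpq; exact Or.inr (Or.inr (T.uniq _ _ _ _ hpq h2))
      · rw [h] at hpq; exact Or.inl (T.uniq _ _ _ _ hpq h3))
  obtain ⟨p, q, hp, hq, hyp, hyq, hpq, hna⟩ := cut_nbrs T (T.G.ne_of_adj (adj12 T h3)) hz.symm
    (nonempty_AA h4 _ _ _) hnc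
  have hab := adj23 T h1
  rcases hall p hyp with h | h | h <;> rcases hall q hyq with h' | h' | h'
  · exact hpq (h.trans h'.symm)
  · exact hna (by rw [h, h']; exact hab)
  · exact hq.2.1 h'
  · exact hna (by rw [h, h']; exact hab.symm)
  · exact hpq (h.trans h'.symm)
  · exact hq.2.1 h'
  · exact hp.2.1 h
  · exact hp.2.1 h
  · exact hp.2.1 h

theorem no_two [Finite V] (T : Tri V) (h4 : 4 ≤ Nat.card V) {y a b : V} (h1 : T.F y a b)
    (h2 : T.F y b a) : False := by
  have hall : ∀ d, T.G.Adj y d → d = a ∨ d = b :=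
    link_closed T (adj12 T h1) (fun d => d = a ∨ d = b) (Or.inl rfl) (by
      rintro p q (h | h) hpq
      · rw [h] at hpq; exact Or.inr (T.uniq _ _ _ _ hpq h1)
      · rw [h] at hpq; exact Or.inl (T.uniq _ _ _ _ hpq h2))
  obtain ⟨t, ht⟩ := nonempty_AA h4 y a b
  have hc := (tri_conn3 T a b).2 y (by
    rintro (h | h)
    · exact T.G.ne_of_adj (adj12 T h1) h
    · exact T.G.ne_of_adj (adj12 T h2) h) t (by
    rintro (h | h)
    · exact ht.2.1 h
    · exact ht.2.2 h)
  rcases ReflTransGen.cases_head hc with h0 | ⟨c, ⟨hadj, hcm⟩, _⟩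
  · exact ht.1 h0.symm
  · rcases hall c hadj with h | h
    · exact hcm (Or.inl h)
    · exact hcm (Or.inr h)

theorem four_closed (T : Tri V) {y a b c d : V} (h1 : T.F y a b) (h2 : T.F y b c)
    (h3 : T.F y c d) (h5 : T.F y d a) : ∀ e, T.G.Adj y e → e = a ∨ e = b ∨ e = c ∨ e = d :=
  link_closed T (adj12 T h1) (fun e => e = a ∨ e = b ∨ e = c ∨ e = d) (Or.inl rfl) (by
      rintro p q (h | h | h | h) hpq
      · rw [h] at hpq; exact Or.inr (Or.inl (T.uniq _ _ _ _ hpq h1))
      · rw [h] at hpq; exact Or.inr (Or.inr (Or.inl (T.uniq _ _ _ _ hpq h2)))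
      · rw [h] at hpq; exact Or.inr (Or.inr (Or.inr (T.uniq _ _ _ _ hpq h3)))
      · rw [h] at hpq; exact Or.inl (T.uniq _ _ _ _ hpq h5))

theorem three_closed (T : Tri V) {y a b c : V} (h1 : T.F y a b) (h2 : T.F y b c)
    (h3 : T.F y c a) : ∀ e, T.G.Adj y e → e = a ∨ e = b ∨ e = c :=
  link_closed T (adj12 T h1) (fun e => e = a ∨ e = b ∨ e = c) (Or.inl rfl) (by
      rintro p q (h | h | h) hpq
      · rw [h] at hpq; exact Or.inr (Or.inl (T.uniq _ _ _ _ hpq h1))
      · rw [h] at hpq; exact Or.inr (Or.inr (T.uniq _ _ _ _ hpq h2))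
      · rw [h] at hpq; exact Or.inl (T.uniq _ _ _ _ hpq h3))

theorem good_struct [Finite V] (T : Tri V) (h4 : 4 ≤ Nat.card V) {Y : Set V} (hY : HY T Y)
    {y : V} (hg : Good T Y y) :
    ∃ x y1 x' y2, x ∉ Y ∧ x' ∉ Y ∧ y1 ∈ Y ∧ y2 ∈ Y ∧ T.F y x y1 ∧ T.F y y1 x' ∧ T.F y x' y2 ∧
      T.F y y2 x ∧ T.G.Adj y1 y2 ∧ y1 ≠ y2 ∧ x ≠ x' := by
  obtain ⟨x1, x2, hx1, hx2, h12, ha1, ha2, htwo⟩ := hg.two
  obtain ⟨s1, hs1⟩ := ha1
  obtain ⟨s2, hs2⟩ := ha2
  have succX : ∀ b c, b ∈ Y → T.F y b c → c = x1 ∨ c = x2 := fun b c hb hbc =>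
    htwo c (fun hc => hg.noY b c hb hc hbc) (adj13 T hbc)
  have three : ∀ a b c, T.F y a b → T.F y b c → T.F y c a → c ∈ Y → False := by
    intro a b c h1 h2 h3 hc
    obtain ⟨z, hz1, hz2, hnc⟩ := hY y hg.mem c hc (adj12 T h3)
    exact no_three T h4 h1 h2 h3 hz1 hnc
  have n1 : s1 ≠ x1 := (T.G.ne_of_adj (adj23 T hs1)).symm
  have n2 : s2 ≠ x2 := (T.G.ne_of_adj (adj23 T hs2)).symm
  by_cases hs1Y : s1 ∈ Y
  · obtain ⟨t1, ht1⟩ := adj13 T hs1
    rcases succX s1 t1 hs1Y ht1 with h | h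
    · exfalso
      rw [h] at ht1
      have h5 := link_closed T (adj12 T hs1) (fun d => d = x1 ∨ d = s1) (Or.inl rfl) (by
        rintro p q (h | h) hpq
        · rw [h] at hpq; exact Or.inr (T.uniq _ _ _ _ hpq hs1)
        · rw [h] at hpq; exact Or.inl (T.uniq _ _ _ _ hpq ht1)) x2 ⟨s2, hs2⟩
      rcases h5 with h5 | h5
      · exact h12 h5.symm
      · rw [h5] at hx2
        exact hx2 hs1Y
    · rw [h] at ht1
      by_cases hs2Y : s2 ∈ Y
      · obtain ⟨t2, ht2⟩ := adj13 T hs2
        have hne : s1 ≠ s2 := by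
          intro h6
          rw [← h6] at hs2
          exact h12 (pred_uniq T hs1 hs2)
        rcases succX s2 t2 hs2Y ht2 with h7 | h7
        · rw [h7] at ht2
          have hcl := four_closed T hs1 ht1 hs2 ht2
          obtain ⟨z, hz1, hz2, hnc⟩ := hY y hg.mem s1 hs1Y (adj13 T hs1)
          obtain ⟨p, q, hp, hq, hyp, hyq, hpq, hna⟩ := cut_nbrs T
            (T.G.ne_of_adj (adj13 T hs1)) hz1.symm (nonempty_AA h4 _ _ _) hnc
          have a1 := adj23 T hs2
          have a2 := adj23 T ht2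
          have hyz : T.G.Adj y z := adj_of_cut T (adj13 T hs1) hz1 (nonempty_AA h4 _ _ _) hnc
          have hsz : T.G.Adj s1 z := adj_of_cut T (adj13 T hs1).symm hz2 (nonempty_AA h4 _ _ _)
            (by rw [AA_swap]; exact hnc)
          have hzs : z = s2 := by
            have hp3 := hp.2.2
            have hq3 := hq.2.2
            have hpx : p = x1 ∨ p = x2 := by
              rcases hcl p hyp with h | h | h | h
              · exact Or.inl h
              · exact absurd h hp.2.1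
              · exact Or.inr h
              · exfalso
                rcases hcl q hyq with h' | h' | h' | h'
                · exact hna (by rw [h, h']; exact a2)
                · exact hq.2.1 h'
                · exact hna (by rw [h, h']; exact a1.symm)
                · exact hpq (h.trans h'.symm)
            have hqx : q = x1 ∨ q = x2 := by
              rcases hcl q hyq with h | h | h | h
              · exact Or.inl h
              · exact absurd h hq.2.1
              · exact Or.inr h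
              · exfalso
                rcases hcl p hyp with h' | h' | h' | h'
                · exact hna (by rw [h, h']; exact a2.symm)
                · exact hp.2.1 h'
                · exact hna (by rw [h, h']; exact a1)
                · exact hpq (h'.trans h.symm)
            rcases hcl z hyz with h | h | h | h
            · exfalso
              rcases hpx with h' | h'
              · exact hp3 (h'.trans h.symm)
              · rcases hqx with h'' | h''
                · exact hq3 (h''.trans h.symm)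
                · exact hpq (h'.trans h''.symm)
            · exact absurd h hz2
            · exfalso
              rcases hpx with h' | h'
              · rcases hqx with h'' | h''
                · exact hpq (h'.trans h''.symm)
                · exact hq3 (h''.trans h.symm)
              · exact hp3 (h'.trans h.symm)
            · exact h
          rw [hzs] at hsz
          exact ⟨x1, s1, x2, s2, hx1, hx2, hs1Y, hs2Y, hs1, ht1, hs2, ht2, hsz, hne, h12⟩
        · rw [h7] at ht2
          exact absurd (pred_uniq T ht1 ht2) hne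
      · have h8 : s2 = x1 := (htwo s2 hs2Y (adj13 T hs2)).resolve_right n2
        rw [h8] at hs2
        exact (three x2 x1 s1 hs2 hs1 ht1 hs1Y).elim
  · have h9 : s1 = x2 := (htwo s1 hs1Y (adj13 T hs1)).resolve_left n1
    rw [h9] at hs1
    by_cases hs2Y : s2 ∈ Y
    · obtain ⟨t2, ht2⟩ := adj13 T hs2
      rcases succX s2 t2 hs2Y ht2 with h | h
      · rw [h] at ht2
        exact (three x1 x2 s2 hs1 hs2 ht2 hs2Y).elim
      · rw [h] at ht2
        exfalso
        have := pred_uniq T hs1 ht2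
        rw [this] at hx1
        exact hx1 hs2Y
    · have h8 : s2 = x1 := (htwo s2 hs2Y (adj13 T hs2)).resolve_right n2
      rw [h8] at hs2
      exact (no_two T h4 hs1 hs2).elim

theorem link_of_good [Finite V] (T : Tri V) (h4 : 4 ≤ Nat.card V) {Y : Set V} (hY : HY T Y)
    {b p q y0 w : V} (hg : Good T Y b) (hy0 : y0 ∈ Y) (f1 : T.F b p y0) (f2 : T.F b y0 q)
    (hbw : T.G.Adj b w) (hw : w ∈ Y) (hne : w ≠ y0) : T.F b q w ∧ T.F b w p := by
  obtain ⟨a, b1, a', b2, ha, ha', hb1, hb2, g1, g2, g3, g4, -, -, -⟩ := good_struct T h4 hY hg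
  have hcl := four_closed T g1 g2 g3 g4
  have hY0 : y0 = b1 ∨ y0 = b2 := by
    rcases hcl y0 (adj13 T f1) with h | h | h | h
    · rw [h] at hy0; exact absurd hy0 ha
    · exact Or.inl h
    · rw [h] at hy0; exact absurd hy0 ha'
    · exact Or.inr h
  have hW : w = b1 ∨ w = b2 := by
    rcases hcl w hbw with h | h | h | h
    · rw [h] at hw; exact absurd hw ha
    · exact Or.inl h
    · rw [h] at hw; exact absurd hw ha'
    · exact Or.inr h
  rcases hY0 with h | h
  · rcases hW with h' | h'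
    · exact absurd (h'.trans h.symm) hne
    · rw [h] at f1 f2
      have e1 := pred_uniq T f1 g1
      have e2 := T.uniq _ _ _ _ f2 g2
      rw [e1, e2, h']
      exact ⟨g3, g4⟩
  · rcases hW with h' | h'
    · rw [h] at f1 f2
      have e1 := pred_uniq T f1 g3
      have e2 := T.uniq _ _ _ _ f2 g4
      rw [e1, e2, h']
      exact ⟨g1, g2⟩
    · exact absurd (h'.trans h.symm) hne

theorem both_good [Finite V] (T : Tri V) (h4 : 4 ≤ Nat.card V) {Y : Set V} (hY : HY T Y)
    {y x y1 x' y2 : V} (hy : y ∈ Y) (hy1 : y1 ∈ Y) (hy2 : y2 ∈ Y)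
    (f1 : T.F y x y1) (f2 : T.F y y1 x') (f3 : T.F y x' y2) (f4 : T.F y y2 x)
    (h12 : T.G.Adj y1 y2) (g1 : Good T Y y1) (g2 : Good T Y y2) : Nat.card V ≤ 5 := by
  have r := T.rot
  have k1 := link_of_good T h4 hY g1 hy (r _ _ _ f2) (r _ _ _ (r _ _ _ f1)) h12 hy2
    (T.G.ne_of_adj (adj12 T f4)).symm
  have k2 := link_of_good T h4 hY g2 hy (r _ _ _ f4) (r _ _ _ (r _ _ _ f3)) h12.symm hy1
    (T.G.ne_of_adj (adj12 T f2)).symm
  have lx := three_closed T (r _ _ _ (r _ _ _ f4)) (r _ _ _ k1.1) (r _ _ _ f1)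
  have lx' := three_closed T (r _ _ _ (r _ _ _ f2)) (r _ _ _ k2.1) (r _ _ _ f3)
  have ly := four_closed T f1 f2 f3 f4
  have ly1 := four_closed T (r _ _ _ f2) (r _ _ _ (r _ _ _ f1)) k1.1 k1.2
  have ly2 := four_closed T (r _ _ _ f4) (r _ _ _ (r _ _ _ f3)) k2.1 k2.2
  have hall : ∀ v : V, v = x ∨ v = x' ∨ v = y ∨ v = y1 ∨ v = y2 := by
    intro v
    have h := T.conn y v
    induction h with
    | refl => exact Or.inr (Or.inr (Or.inl rfl))
    | tail _ h2 ih =>
      obtain ⟨z, hz⟩ := h2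
      have ha := adj12 T hz
      rcases ih with h | h | h | h | h
      · rw [h] at ha
        rcases lx _ ha with h | h | h <;> simp [h]
      · rw [h] at ha
        rcases lx' _ ha with h | h | h <;> simp [h]
      · rw [h] at ha
        rcases ly _ ha with h | h | h | h <;> simp [h]
      · rw [h] at ha
        rcases ly1 _ ha with h | h | h | h <;> simp [h]
      · rw [h] at ha
        rcases ly2 _ ha with h | h | h | h <;> simp [h]
  have hsub : (Set.univ : Set V) ⊆ {x, x', y, y1, y2} := by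
    intro v _
    rcases hall v with h | h | h | h | h <;> simp [h]
  have h1 := Set.ncard_le_ncard hsub (Set.toFinite _)
  rw [Set.ncard_univ] at h1
  have e1 := Set.ncard_insert_le x {x', y, y1, y2}
  have e2 := Set.ncard_insert_le x' {y, y1, y2}
  have e3 := Set.ncard_insert_le y {y1, y2}
  have e4 := Set.ncard_insert_le y1 {y2}
  rw [Set.ncard_singleton] at e4
  omega

/-- for a good vertex there is a bad one next to it -/
theorem good_next [Finite V] (T : Tri V) (h6 : 6 ≤ Nat.card V) {Y : Set V} (hY : HY T Y)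
    {y : V} (hg : Good T Y y) : ∃ b, b ∈ Y ∧ ¬ Good T Y b ∧ ∃ x, x ∉ Y ∧ T.F b x y := by
  obtain ⟨x, y1, x', y2, hx, hx', hy1, hy2, f1, f2, f3, f4, h12, -, -⟩ :=
    good_struct T (by omega) hY hg
  by_cases g1 : Good T Y y1
  · by_cases g2 : Good T Y y2
    · have := both_good T (by omega) hY hg.mem hy1 hy2 f1 f2 f3 f4 h12 g1 g2
      omega
    · exact ⟨y2, hy2, g2, x, hx, T.rot _ _ _ f4⟩
  · exact ⟨y1, hy1, g1, x', hx', T.rot _ _ _ f2⟩

section Count

variable [Fintype V]

open scoped Classical in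
noncomputable def Tf (T : Tri V) : Finset (V × V × V) :=
  Finset.univ.filter fun t => T.F t.1 t.2.1 t.2.2

open scoped Classical in
noncomputable def dX (T : Tri V) (Y : Set V) (y : V) : ℕ :=
  (Finset.univ.filter fun x => x ∉ Y ∧ T.G.Adj y x).card

open scoped Classical in
noncomputable def cY (T : Tri V) (Y : Set V) (y : V) : ℕ :=
  ((Tf T).filter fun t => t.1 = y ∧ t.2.1 ∈ Y ∧ t.2.2 ∈ Y).card

theorem card_Tf (T : Tri V) : (Tf T).card + 12 = 6 * Nat.card V := by
  classical
  rw [← T.euler, Nat.card_eq_fintype_card, Fintype.card_subtype]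
  rfl

open scoped Classical in
theorem main_count (T : Tri V) (Y : Set V) :
    ∑ y ∈ Finset.univ.filter (fun y => y ∈ Y), (3 * dX T Y y + cY T Y y) + 12 ≤
      6 * Nat.card V := by
  have hrot : ∀ t : V × V × V, t ∈ Tf T → (t.2.1, t.2.2, t.1) ∈ Tf T := by
    intro t ht
    simp only [Tf, Finset.mem_filter, Finset.mem_univ, true_and] at ht ⊢
    exact T.rot _ _ _ ht
  set P1 := (Tf T).filter (fun t => t.1 ∈ Y ∧ t.2.1 ∉ Y) with hP1
  set P2 := (Tf T).filter (fun t => t.2.1 ∈ Y ∧ t.2.2 ∉ Y) with hP2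
  set P3 := (Tf T).filter (fun t => t.2.2 ∈ Y ∧ t.1 ∉ Y) with hP3
  set P0 := (Tf T).filter (fun t => t.1 ∈ Y ∧ t.2.1 ∈ Y ∧ t.2.2 ∈ Y) with hP0
  have hle : P0.card + P1.card + P2.card + P3.card ≤ (Tf T).card := by
    simp only [hP0, hP1, hP2, hP3, Finset.card_filter]
    rw [← Finset.sum_add_distrib, ← Finset.sum_add_distrib, ← Finset.sum_add_distrib,
      Finset.card_eq_sum_ones]
    apply Finset.sum_le_sum
    intro t _
    by_cases h1 : t.1 ∈ Y <;> by_cases h2 : t.2.1 ∈ Y <;> by_cases h3 : t.2.2 ∈ Y <;>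
      simp [h1, h2, h3]
  have h21 : P1.card = P2.card := by
    symm
    refine Finset.card_bij' (fun t _ => (t.2.1, t.2.2, t.1)) (fun t _ => (t.2.2, t.1, t.2.1))
      ?_ ?_ (fun t _ => rfl) (fun t _ => rfl)
    · intro t ht
      rw [Finset.mem_filter] at ht ⊢
      exact ⟨hrot _ ht.1, ht.2⟩
    · intro t ht
      rw [Finset.mem_filter] at ht ⊢
      exact ⟨hrot _ (hrot _ ht.1), ht.2⟩
  have h32 : P2.card = P3.card := by
    symm
    refine Finset.card_bij' (fun t _ => (t.2.1, t.2.2, t.1)) (fun t _ => (t.2.2, t.1, t.2.1))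
      ?_ ?_ (fun t _ => rfl) (fun t _ => rfl)
    · intro t ht
      rw [Finset.mem_filter] at ht ⊢
      exact ⟨hrot _ ht.1, ht.2⟩
    · intro t ht
      rw [Finset.mem_filter] at ht ⊢
      exact ⟨hrot _ (hrot _ ht.1), ht.2⟩
  have hd : P1.card = ∑ y ∈ Finset.univ.filter (fun y => y ∈ Y), dX T Y y := by
    rw [Finset.card_eq_sum_card_fiberwise (f := fun t => t.1)
      (t := Finset.univ.filter (fun y => y ∈ Y))]
    · refine Finset.sum_congr rfl fun y hy => ?_
      rw [Finset.mem_filter] at hy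
      unfold dX
      apply Finset.card_bij (fun t _ => t.2.1)
      · intro t ht
        simp only [hP1, Tf, Finset.mem_filter, Finset.mem_univ, true_and] at ht ⊢
        refine ⟨ht.1.2.2, ?_⟩
        rw [← ht.2]
        exact adj12 T ht.1.1
      · intro t ht t' ht' h
        simp only [hP1, Tf, Finset.mem_filter, Finset.mem_univ, true_and] at ht ht'
        have e1 : t.1 = t'.1 := ht.2.trans ht'.2.symm
        have e3 : t.2.2 = t'.2.2 := by
          apply T.uniq t.1 t.2.1
          · exact ht.1.1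
          · rw [e1, h]; exact ht'.1.1
        exact Prod.ext e1 (Prod.ext h e3)
      · intro x hx
        simp only [Finset.mem_filter, Finset.mem_univ, true_and] at hx
        obtain ⟨c, hc⟩ := hx.2
        refine ⟨(y, x, c), ?_, rfl⟩
        simp only [hP1, Tf, Finset.mem_filter, Finset.mem_univ, true_and]
        exact ⟨⟨hc, hy.2, hx.1⟩, trivial⟩
    · intro t ht
      simp only [hP1, Finset.coe_filter, Set.mem_setOf_eq] at ht
      simp only [Finset.coe_filter, Finset.mem_univ, true_and, Set.mem_setOf_eq]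
      exact ht.2.1
  have hc : P0.card = ∑ y ∈ Finset.univ.filter (fun y => y ∈ Y), cY T Y y := by
    rw [Finset.card_eq_sum_card_fiberwise (f := fun t => t.1)
      (t := Finset.univ.filter (fun y => y ∈ Y))]
    · refine Finset.sum_congr rfl fun y hy => ?_
      rw [Finset.mem_filter] at hy
      unfold cY
      congr 1
      ext t
      simp only [hP0, Finset.mem_filter]
      constructor
      · rintro ⟨⟨h1, h2, h3, h4⟩, h5⟩
        exact ⟨h1, h5, h3, h4⟩
      · rintro ⟨h1, h5, h3, h4⟩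
        exact ⟨⟨h1, by rw [h5]; exact hy.2, h3, h4⟩, h5⟩
    · intro t ht
      simp only [hP0, Finset.coe_filter, Set.mem_setOf_eq] at ht
      simp only [Finset.coe_filter, Finset.mem_univ, true_and, Set.mem_setOf_eq]
      exact ht.2.1
  have htot := card_Tf T
  rw [Finset.sum_add_distrib, ← Finset.mul_sum, ← hd, ← hc]
  omega

theorem dX_two (T : Tri V) (h4 : 4 ≤ Nat.card V) {Y : Set V} (hY : HY T Y) {y : V}
    (hy : y ∈ Y) : 2 ≤ dX T Y y := by
  classical
  obtain ⟨w1, w2, hne, c1, c2⟩ := two_contr T h4 y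
  have hw : ∀ w, Contr T y w → w ∉ Y := by
    intro w hw hwY
    obtain ⟨z, hz1, hz2, hnc⟩ := hY y hy w hwY hw.1
    exact hnc (hw.2 z hz1 hz2)
  unfold dX
  have hsub : ({w1, w2} : Finset V) ⊆ Finset.univ.filter fun x => x ∉ Y ∧ T.G.Adj y x := by
    intro w h
    rw [Finset.mem_insert, Finset.mem_singleton] at h
    rw [Finset.mem_filter]
    rcases h with h | h
    · rw [h]; exact ⟨Finset.mem_univ _, hw _ c1, c1.1⟩
    · rw [h]; exact ⟨Finset.mem_univ _, hw _ c2, c2.1⟩
  have := Finset.card_le_card hsub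
  rw [Finset.card_pair hne] at this
  convert this

theorem good_of (T : Tri V) {Y : Set V} {y : V} (hy : y ∈ Y) (h2 : dX T Y y = 2)
    (h0 : cY T Y y = 0) : Good T Y y := by
  classical
  refine ⟨hy, ?_, ?_⟩
  · have h2' : (Finset.univ.filter fun x => x ∉ Y ∧ T.G.Adj y x).card = 2 := by
      rw [← h2]; unfold dX; congr
    obtain ⟨x1, x2, hne, he⟩ := Finset.card_eq_two.1 h2'
    have m1 : x1 ∈ Finset.univ.filter fun x => x ∉ Y ∧ T.G.Adj y x := by rw [he]; simp
    have m2 : x2 ∈ Finset.univ.filter fun x => x ∉ Y ∧ T.G.Adj y x := by rw [he]; simp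
    rw [Finset.mem_filter] at m1 m2
    refine ⟨x1, x2, m1.2.1, m2.2.1, hne, m1.2.2, m2.2.2, fun x hx hyx => ?_⟩
    have m : x ∈ Finset.univ.filter fun x => x ∉ Y ∧ T.G.Adj y x := by
      rw [Finset.mem_filter]; exact ⟨Finset.mem_univ _, hx, hyx⟩
    rw [he] at m
    simpa using m
  · intro b c hb hc hF
    have h0' := h0
    unfold cY at h0'
    rw [Finset.card_eq_zero] at h0'
    have m : (y, b, c) ∈ ((Tf T).filter fun t => t.1 = y ∧ t.2.1 ∈ Y ∧ t.2.2 ∈ Y) := by
      rw [Finset.mem_filter]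
      refine ⟨?_, rfl, hb, hc⟩
      unfold Tf
      rw [Finset.mem_filter]
      exact ⟨Finset.mem_univ _, hF⟩
    rw [h0'] at m
    exact absurd m (Finset.notMem_empty _)

open scoped Classical in
theorem next_card (T : Tri V) (Y : Set V) (b : V) :
    (Finset.univ.filter fun y => ∃ x, x ∉ Y ∧ T.F b x y).card ≤ dX T Y b := by
  have hsub : (Finset.univ.filter fun y => ∃ x, x ∉ Y ∧ T.F b x y) ⊆
      (Finset.univ.filter fun x => x ∉ Y ∧ T.G.Adj b x).image
        (fun x => if h : ∃ y, T.F b x y then Classical.choose h else b) := by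
    intro y hy
    rw [Finset.mem_filter] at hy
    obtain ⟨-, x, hx, hF⟩ := hy
    rw [Finset.mem_image]
    refine ⟨x, ?_, ?_⟩
    · rw [Finset.mem_filter]
      exact ⟨Finset.mem_univ _, hx, adj12 T hF⟩
    · have hex : ∃ y, T.F b x y := ⟨y, hF⟩
      rw [dif_pos hex]
      exact T.uniq _ _ _ _ (Classical.choose_spec hex) hF
  exact (Finset.card_le_card hsub).trans Finset.card_image_le

open scoped Classical in
theorem final_count (T : Tri V) (h6 : 6 ≤ Nat.card V) {Y : Set V} (hY : HY T Y) :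
    (Finset.univ.filter fun y => y ∈ Y).card ≤
      24 * (Finset.univ.filter fun y => y ∉ Y).card := by
  set Yf := Finset.univ.filter fun y => y ∈ Y with hYf
  set Xf := Finset.univ.filter fun y => y ∉ Y with hXf
  have hV : Nat.card V = Yf.card + Xf.card := by
    rw [Nat.card_eq_fintype_card, hYf, hXf, ← Finset.card_univ,
      Finset.card_filter_add_card_filter_not]
  have hmc : ∑ y ∈ Yf, (3 * dX T Y y + cY T Y y) + 12 ≤ 6 * Nat.card V := main_count T Y
  have h4 : 4 ≤ Nat.card V := by omega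
  set w : V → ℕ := fun y => 3 * dX T Y y + cY T Y y - 6 with hw
  have hsum : ∑ y ∈ Yf, w y + 6 * Yf.card = ∑ y ∈ Yf, (3 * dX T Y y + cY T Y y) := by
    have : 6 * Yf.card = ∑ y ∈ Yf, 6 := by rw [Finset.sum_const, smul_eq_mul, mul_comm]
    rw [this, ← Finset.sum_add_distrib]
    refine Finset.sum_congr rfl fun y hy => ?_
    rw [Finset.mem_filter] at hy
    have := dX_two T h4 hY hy.2
    simp only [hw]
    omega
  have hwX : ∑ y ∈ Yf, w y ≤ 6 * Xf.card := by omega
  set Bad := Yf.filter fun y => ¬ Good T Y y with hBad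
  set Gd := Yf.filter fun y => Good T Y y with hGd
  have hsplit : Gd.card + Bad.card = Yf.card := Finset.card_filter_add_card_filter_not _
  have hbw : ∀ b ∈ Bad, 1 ≤ w b ∧ dX T Y b ≤ 3 * w b := by
    intro b hb
    rw [hBad, Finset.mem_filter, hYf, Finset.mem_filter] at hb
    have h2 := dX_two T h4 hY hb.1.2
    have hor : ¬ (dX T Y b = 2 ∧ cY T Y b = 0) := fun h => hb.2 (good_of T hb.1.2 h.1 h.2)
    simp only [hw]
    omega
  have hB1 : Bad.card ≤ ∑ b ∈ Bad, w b := by
    rw [Finset.card_eq_sum_ones]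
    exact Finset.sum_le_sum fun b hb => (hbw b hb).1
  have hB2 : ∑ b ∈ Bad, w b ≤ ∑ y ∈ Yf, w y :=
    Finset.sum_le_sum_of_subset (Finset.filter_subset _ _)
  have hG : Gd.card ≤ ∑ b ∈ Bad, dX T Y b := by
    have hsub : Gd ⊆ Bad.biUnion fun b => Finset.univ.filter fun y => ∃ x, x ∉ Y ∧ T.F b x y := by
      intro y hy
      rw [hGd, Finset.mem_filter] at hy
      obtain ⟨b, hbY, hbG, x, hx, hF⟩ := good_next T h6 hY hy.2
      rw [Finset.mem_biUnion]
      refine ⟨b, ?_, ?_⟩
      · rw [hBad, Finset.mem_filter, hYf, Finset.mem_filter]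
        exact ⟨⟨Finset.mem_univ _, hbY⟩, hbG⟩
      · rw [Finset.mem_filter]
        exact ⟨Finset.mem_univ _, x, hx, hF⟩
    refine (Finset.card_le_card hsub).trans (Finset.card_biUnion_le.trans ?_)
    exact Finset.sum_le_sum fun b _ => next_card T Y b
  have hG2 : ∑ b ∈ Bad, dX T Y b ≤ ∑ b ∈ Bad, 3 * w b :=
    Finset.sum_le_sum fun b hb => (hbw b hb).2
  rw [← Finset.mul_sum] at hG2
  omega

end Count

end W_CT

open W_CT in
theorem CT {V : Type} [Finite V] (T : Tri V) (Y : Set V)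
    (hY : ∀ u ∈ Y, ∀ v ∈ Y, T.G.Adj u v → ∃ z, z ≠ u ∧ z ≠ v ∧ ¬ Conn T.G ({u, v, z}ᶜ : Set V)) :
    Nat.card Y ≤ 44 * Nat.card (Yᶜ : Set V) + 10 := by
  classical
  have hY' : HY T Y := by
    intro u hu v hv h
    obtain ⟨z, h1, h2, h3⟩ := hY u hu v hv h
    exact ⟨z, h1, h2, by rw [← AA_eq]; exact h3⟩
  haveI := Fintype.ofFinite V
  by_cases h6 : 6 ≤ Nat.card V
  · have h := final_count T h6 hY'
    have e1 : Nat.card Y = (Finset.univ.filter fun y => y ∈ Y).card := by
      rw [Nat.card_eq_fintype_card, Fintype.card_subtype]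
    have e2 : Nat.card (Yᶜ : Set V) = (Finset.univ.filter fun y => y ∉ Y).card := by
      rw [Nat.card_eq_fintype_card, Fintype.card_subtype]
      rfl
    rw [e1, e2]
    omega
  · have : Nat.card Y ≤ Nat.card V := Nat.card_le_card_of_injective _ Subtype.val_injective
    omega


end Pool.Agent.H891WLC
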