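import Pool.Agent.H891WLC.Defs
import Pool.Agent.H891WLC.tri_conn3
import Pool.Agent.H891WLC.QUOT
import Pool.Agent.H891WLC.CLUS_ADJ
import Pool.Agent.H891WLC.CLUS_CONN
import Pool.Agent.H891WLC.CLUS_COMP
import Pool.Agent.H891WLC.CT

set_option autoImplicit false

namespace Pool.Agent.H891WLC

namespace W_COARSE

lemma conn_singleton {V : Type} (G : SimpleGraph V) (x : V) : Conn G {x} := by
  refine ⟨⟨x, rfl⟩, ?_⟩
  intro u hu v hv
  rw [Set.mem_singleton_iff] at hu hv
  rw [hu, hv]

lemma conn_pair {V : Type} (G : SimpleGraph V) (u v : V) (h : G.Adj u v) : Conn G {u, v} := by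
  refine ⟨⟨u, Or.inl rfl⟩, ?_⟩
  intro a ha b hb
  rcases ha with rfl | ha
  · rcases hb with rfl | hb
    · exact Relation.ReflTransGen.refl
    · rw [Set.mem_singleton_iff] at hb
      rw [hb]
      exact Relation.ReflTransGen.single ⟨h, Or.inr rfl⟩
  · rw [Set.mem_singleton_iff] at ha
    rw [ha]
    rcases hb with rfl | hb
    · exact Relation.ReflTransGen.single ⟨h.symm, Or.inl rfl⟩
    · rw [Set.mem_singleton_iff] at hb
      rw [hb]

/-- the contraction of `v` to `u` -/
def pm {V : Type} [DecidableEq V] (u v : V) (huv : u ≠ v) (x : V) : {x : V // x ≠ v} :=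
  if h : x = v then ⟨u, huv⟩ else ⟨x, h⟩

lemma pm_eq_iff {V : Type} [DecidableEq V] (u v : V) (huv : u ≠ v) (x : V)
    (w : {x : V // x ≠ v}) : pm u v huv x = w ↔ (x = w.1 ∨ (x = v ∧ w.1 = u)) := by
  unfold pm
  by_cases h : x = v
  · rw [dif_pos h, Subtype.ext_iff]
    constructor
    · intro h1
      exact Or.inr ⟨h, h1.symm⟩
    · rintro (h1 | ⟨-, h1⟩)
      · exact absurd (h1.symm.trans h) w.2
      · exact h1.symm
  · rw [dif_neg h, Subtype.ext_iff]
    constructor
    · intro h1
      exact Or.inl h1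
    · rintro (h1 | ⟨h1, -⟩)
      · exact h1
      · exact absurd h1 h

lemma pm_of_ne {V : Type} [DecidableEq V] (u v : V) (huv : u ≠ v) (x : V) (hx : x ≠ v) :
    pm u v huv x = ⟨x, hx⟩ := by
  rw [pm_eq_iff]
  exact Or.inl rfl

lemma clus_id {V : Type} (T : Tri V) : Clus T T id := by
  constructor
  · intro v
    exact conn_singleton _ _
  · intro a b c
    constructor
    · intro h
      have h1 := T.rot _ _ _ h
      have h2 := T.rot _ _ _ h1
      exact ⟨T.ne _ _ _ h, T.ne _ _ _ h1, (T.ne _ _ _ h2).symm, a, b, c, rfl, rfl, rfl, h⟩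
    · rintro ⟨-, -, -, a0, b0, c0, rfl, rfl, rfl, h⟩
      exact h

lemma merge_quot {V : Type} [Fintype V] [DecidableEq V] (T : Tri V) (u v : V)
    (hadj : T.G.Adj u v) (huv : u ≠ v) (h5 : 5 ≤ Fintype.card V)
    (hz : ∀ z, z ≠ u → z ≠ v → Conn T.G ({u, v, z}ᶜ : Set V)) :
    ∃ T' : Tri {x : V // x ≠ v}, Clus T T' (pm u v huv) := by
  refine QUOT T (pm u v huv) ?_ ?_ ?_
  · intro w
    by_cases hw : w.1 = u
    · have e : pm u v huv ⁻¹' {w} = {u, v} := by
        ext x
        rw [Set.mem_preimage, Set.mem_singleton_iff, pm_eq_iff, hw]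
        simp
      rw [e]
      exact conn_pair _ _ _ hadj
    · have e : pm u v huv ⁻¹' {w} = {w.1} := by
        ext x
        rw [Set.mem_preimage, Set.mem_singleton_iff, pm_eq_iff]
        simp [hw]
      rw [e]
      exact conn_singleton _ _
  · rw [Nat.card_eq_fintype_card]
    have h1 : Fintype.card {x : V // ¬ x = v} = Fintype.card V - Fintype.card {x : V // x = v} :=
      Fintype.card_subtype_compl _
    rw [Fintype.card_subtype_eq] at h1
    have h2 : Fintype.card {x : V // x ≠ v} = Fintype.card {x : V // ¬ x = v} := rfl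
    omega
  · intro x y
    by_cases hx : x.1 = u
    · by_cases hy : y.1 = u
      · have e : pm u v huv ⁻¹' ({x, y}ᶜ) = {u, v}ᶜ := by
          ext z
          simp only [Set.mem_preimage, Set.mem_compl_iff, Set.mem_insert_iff,
            Set.mem_singleton_iff, pm_eq_iff, hx, hy]
          tauto
        rw [e]
        exact tri_conn3 T u v
      · have e : pm u v huv ⁻¹' ({x, y}ᶜ) = {u, v, y.1}ᶜ := by
          ext z
          simp only [Set.mem_preimage, Set.mem_compl_iff, Set.mem_insert_iff,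
            Set.mem_singleton_iff, pm_eq_iff, hx, hy]
          tauto
        rw [e]
        exact hz _ hy y.2
    · by_cases hy : y.1 = u
      · have e : pm u v huv ⁻¹' ({x, y}ᶜ) = {u, v, x.1}ᶜ := by
          ext z
          simp only [Set.mem_preimage, Set.mem_compl_iff, Set.mem_insert_iff,
            Set.mem_singleton_iff, pm_eq_iff, hx, hy]
          tauto
        rw [e]
        exact hz _ hx x.2
      · have e : pm u v huv ⁻¹' ({x, y}ᶜ) = {x.1, y.1}ᶜ := by
          ext z
          simp only [Set.mem_preimage, Set.mem_compl_iff, Set.mem_insert_iff,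
            Set.mem_singleton_iff, pm_eq_iff, hx, hy]
          tauto
        rw [e]
        exact tri_conn3 T x.1 y.1

lemma base_bound {V : Type} [Fintype V] [DecidableEq V] (T : Tri V) (o₁ o₂ o₃ : V)
    (c : V → ℕ) (M : ℕ)
    (hno : ¬ ∃ u v : V, T.G.Adj u v ∧ (u ≠ o₁ ∧ u ≠ o₂ ∧ u ≠ o₃) ∧ (v ≠ o₁ ∧ v ≠ o₂ ∧ v ≠ o₃) ∧
      c u + c v ≤ M ∧ 5 ≤ Fintype.card V ∧
      ∀ z, z ≠ u → z ≠ v → Conn T.G ({u, v, z}ᶜ : Set V)) :
    Fintype.card V * M ≤ 90 * ∑ v, c v + 150 * M := by
  by_cases h5 : 5 ≤ Fintype.card V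
  · obtain ⟨Y, hYdef⟩ : ∃ Y : Finset V, Y = Finset.univ.filter
      (fun v => (v ≠ o₁ ∧ v ≠ o₂ ∧ v ≠ o₃) ∧ 2 * c v ≤ M) := ⟨_, rfl⟩
    have hYmem : ∀ v, v ∈ Y ↔ (v ≠ o₁ ∧ v ≠ o₂ ∧ v ≠ o₃) ∧ 2 * c v ≤ M := by
      intro v
      rw [hYdef, Finset.mem_filter]
      exact ⟨fun h => h.2, fun h => ⟨Finset.mem_univ _, h⟩⟩
    have hCT := CT T (Y : Set V) (by
      intro u hu v hv hadj
      have hu' := (hYmem u).1 hu
      have hv' := (hYmem v).1 hv
      by_contra hcon
      apply hno
      refine ⟨u, v, hadj, hu'.1, hv'.1, by omega, h5, ?_⟩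
      intro z hzu hzv
      by_contra hC
      exact hcon ⟨z, hzu, hzv, hC⟩)
    rw [← Finset.coe_compl, Nat.card_coe_set_eq, Nat.card_coe_set_eq, Set.ncard_coe_finset,
      Set.ncard_coe_finset] at hCT
    have hsum := Finset.card_add_card_compl Y
    have hsub : Yᶜ ⊆ ({o₁, o₂, o₃} : Finset V) ∪ Finset.univ.filter (fun v => M < 2 * c v) := by
      intro v hv
      rw [Finset.mem_compl, hYmem] at hv
      rw [Finset.mem_union, Finset.mem_filter]
      by_cases h : M < 2 * c v
      · exact Or.inr ⟨Finset.mem_univ _, h⟩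
      · left
        simp only [Finset.mem_insert, Finset.mem_singleton]
        by_contra hne
        apply hv
        refine ⟨⟨?_, ?_, ?_⟩, by omega⟩
        · intro h1; exact hne (Or.inl h1)
        · intro h1; exact hne (Or.inr (Or.inl h1))
        · intro h1; exact hne (Or.inr (Or.inr h1))
    have hcard : Yᶜ.card ≤ 3 + (Finset.univ.filter (fun v => M < 2 * c v)).card := by
      refine (Finset.card_le_card hsub).trans ((Finset.card_union_le _ _).trans ?_)
      have := Finset.card_le_three (a := o₁) (b := o₂) (c := o₃)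
      omega
    have hM : (Finset.univ.filter (fun v => M < 2 * c v)).card * M ≤ 2 * ∑ v, c v := by
      calc (Finset.univ.filter (fun v => M < 2 * c v)).card * M
          ≤ ∑ v ∈ Finset.univ.filter (fun v => M < 2 * c v), 2 * c v := by
            rw [← smul_eq_mul]
            refine Finset.card_nsmul_le_sum _ _ _ fun v hv => ?_
            exact (Finset.mem_filter.1 hv).2.le
        _ ≤ ∑ v, 2 * c v := Finset.sum_le_sum_of_subset (Finset.filter_subset _ _)
        _ = 2 * ∑ v, c v := by rw [Finset.mul_sum]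
    have h1 : Fintype.card V ≤ 45 * (3 + (Finset.univ.filter (fun v => M < 2 * c v)).card) + 10 := by
      omega
    calc Fintype.card V * M
        ≤ (45 * (3 + (Finset.univ.filter (fun v => M < 2 * c v)).card) + 10) * M :=
          Nat.mul_le_mul_right _ h1
      _ = 45 * ((Finset.univ.filter (fun v => M < 2 * c v)).card * M) + 145 * M := by ring
      _ ≤ 45 * (2 * ∑ v, c v) + 145 * M := by
          have := Nat.mul_le_mul_left 45 hM
          omega
      _ ≤ 90 * ∑ v, c v + 150 * M := by omega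
  · have h1 : Fintype.card V * M ≤ 4 * M := Nat.mul_le_mul_right _ (by omega)
    omega

lemma coarse_all (M : ℕ) (n : ℕ) : ∀ (V : Type) [Fintype V] [DecidableEq V]
    (T : Tri V) (o₁ o₂ o₃ : V) (c : V → ℕ), Fintype.card V ≤ n → T.F o₁ o₂ o₃ →
    (∀ v, c v ≤ M) →
    ∃ (W : Type) (_ : Fintype W) (_ : DecidableEq W) (T' : Tri W) (π : V → W), Clus T T' π ∧
      (∀ w, ∑ v ∈ Finset.univ.filter (fun v => π v = w), c v ≤ M) ∧
      (∀ v, π v = π o₁ → v = o₁) ∧ (∀ v, π v = π o₂ → v = o₂) ∧ (∀ v, π v = π o₃ → v = o₃) ∧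
      Fintype.card W * M ≤ 90 * ∑ v, c v + 150 * M := by
  induction n with
  | zero =>
    intro V _ _ T o₁ o₂ o₃ c hn
    have h1 : 0 < Fintype.card V := Fintype.card_pos_iff.2 ⟨o₁⟩
    omega
  | succ n ih =>
    intro V _ _ T o₁ o₂ o₃ c hn ho hcM
    by_cases hmerge : ∃ u v : V, T.G.Adj u v ∧ (u ≠ o₁ ∧ u ≠ o₂ ∧ u ≠ o₃) ∧
      (v ≠ o₁ ∧ v ≠ o₂ ∧ v ≠ o₃) ∧ c u + c v ≤ M ∧ 5 ≤ Fintype.card V ∧
      ∀ z, z ≠ u → z ≠ v → Conn T.G ({u, v, z}ᶜ : Set V)
    · obtain ⟨u, v, hadj, ⟨hu1, hu2, hu3⟩, ⟨hv1, hv2, hv3⟩, hcuv, h5, hz⟩ := hmerge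
      have huv : u ≠ v := hadj.ne
      obtain ⟨T1, hT1⟩ := merge_quot T u v hadj huv h5 hz
      have hcard : Fintype.card {x : V // x ≠ v} ≤ n := by
        have h1 : Fintype.card {x : V // ¬ x = v} =
            Fintype.card V - Fintype.card {x : V // x = v} := Fintype.card_subtype_compl _
        rw [Fintype.card_subtype_eq] at h1
        have h2 : Fintype.card {x : V // x ≠ v} = Fintype.card {x : V // ¬ x = v} := rfl
        omega
      obtain ⟨c1, hc1⟩ : ∃ c1 : {x : V // x ≠ v} → ℕ, c1 = fun w =>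
        ∑ x ∈ Finset.univ.filter (fun x => pm u v huv x = w), c x := ⟨_, rfl⟩
      have hc1M : ∀ w, c1 w ≤ M := by
        intro w
        rw [hc1]
        beta_reduce
        by_cases hw : w.1 = u
        · have e : Finset.univ.filter (fun x => pm u v huv x = w) = {u, v} := by
            ext x
            rw [Finset.mem_filter, pm_eq_iff, hw]
            simp
          rw [e, Finset.sum_pair huv]
          exact hcuv
        · have e : Finset.univ.filter (fun x => pm u v huv x = w) = {w.1} := by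
            ext x
            rw [Finset.mem_filter, pm_eq_iff]
            simp [hw]
          rw [e, Finset.sum_singleton]
          exact hcM _
      have hp1 : pm u v huv o₁ = ⟨o₁, hv1.symm⟩ := pm_of_ne u v huv o₁ hv1.symm
      have hp2 : pm u v huv o₂ = ⟨o₂, hv2.symm⟩ := pm_of_ne u v huv o₂ hv2.symm
      have hp3 : pm u v huv o₃ = ⟨o₃, hv3.symm⟩ := pm_of_ne u v huv o₃ hv3.symm
      have hr1 := T.rot _ _ _ ho
      have hr2 := T.rot _ _ _ hr1
      have hF1 : T1.F (pm u v huv o₁) (pm u v huv o₂) (pm u v huv o₃) := by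
        rw [hT1.2]
        refine ⟨?_, ?_, ?_, o₁, o₂, o₃, rfl, rfl, rfl, ho⟩
        · rw [hp1, hp2]
          intro h
          exact T.ne _ _ _ ho (congrArg Subtype.val h)
        · rw [hp2, hp3]
          intro h
          exact T.ne _ _ _ hr1 (congrArg Subtype.val h)
        · rw [hp1, hp3]
          intro h
          exact T.ne _ _ _ hr2 (congrArg Subtype.val h).symm
      obtain ⟨W, iW, iD, T', π, hcl, hsum, ho1, ho2, ho3, hbd⟩ :=
        ih {x : V // x ≠ v} T1 _ _ _ c1 hcard hF1 hc1M
      refine ⟨W, iW, iD, T', π ∘ pm u v huv, CLUS_COMP T T1 T' _ _ hT1 hcl, ?_, ?_, ?_, ?_, ?_⟩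
      · intro w
        have h1 := hsum w
        have h2 : ∑ x ∈ Finset.univ.filter (fun x => (π ∘ pm u v huv) x = w), c x =
            ∑ y ∈ Finset.univ.filter (fun y => π y = w), c1 y := by
          rw [← Finset.sum_fiberwise_of_maps_to (s := Finset.univ.filter
            (fun x => (π ∘ pm u v huv) x = w)) (t := Finset.univ.filter (fun y => π y = w))
            (g := pm u v huv) (fun x hx => Finset.mem_filter.2
              ⟨Finset.mem_univ _, (Finset.mem_filter.1 hx).2⟩) c]
          refine Finset.sum_congr rfl fun y hy => ?_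
          rw [hc1]
          beta_reduce
          refine Finset.sum_congr ?_ fun _ _ => rfl
          ext x
          simp only [Finset.mem_filter, Finset.mem_univ, true_and, Function.comp_apply]
          constructor
          · exact fun h => h.2
          · intro h
            refine ⟨?_, h⟩
            rw [h]
            exact (Finset.mem_filter.1 hy).2
        rw [h2]
        exact h1
      · intro x hx
        have h1 := ho1 _ hx
        rw [hp1, pm_eq_iff] at h1
        rcases h1 with h1 | ⟨-, h1⟩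
        · exact h1
        · exact absurd h1.symm hu1
      · intro x hx
        have h1 := ho2 _ hx
        rw [hp2, pm_eq_iff] at h1
        rcases h1 with h1 | ⟨-, h1⟩
        · exact h1
        · exact absurd h1.symm hu2
      · intro x hx
        have h1 := ho3 _ hx
        rw [hp3, pm_eq_iff] at h1
        rcases h1 with h1 | ⟨-, h1⟩
        · exact h1
        · exact absurd h1.symm hu3
      · have h1 : ∑ w, c1 w = ∑ x, c x := by
          rw [hc1]
          exact Finset.sum_fiberwise Finset.univ (pm u v huv) c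
        rw [← h1]
        exact hbd
    · refine ⟨V, inferInstance, inferInstance, T, id, clus_id T, ?_, fun v h => h,
        fun v h => h, fun v h => h, base_bound T o₁ o₂ o₃ c M hmerge⟩
      intro w
      have e : Finset.univ.filter (fun v => id v = w) = {w} := by
        ext x
        simp
      rw [e, Finset.sum_singleton]
      exact hcM w

end W_COARSE

open W_COARSE in
theorem COARSE {V : Type} [Fintype V] [DecidableEq V] (T : Tri V) (o₁ o₂ o₃ : V) (ho : T.F o₁ o₂ o₃) (c : V → ℕ) (M : ℕ)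
    (hM : 0 < M) (hcM : ∀ v, c v ≤ M) :
    ∃ (W : Type) (_ : Fintype W) (_ : DecidableEq W) (T' : Tri W) (π : V → W), Clus T T' π ∧
      (∀ w, ∑ v ∈ Finset.univ.filter (fun v => π v = w), c v ≤ M) ∧
      (∀ v, π v = π o₁ → v = o₁) ∧ (∀ v, π v = π o₂ → v = o₂) ∧ (∀ v, π v = π o₃ → v = o₃) ∧
      Fintype.card W * M ≤ 90 * ∑ v, c v + 150 * M := by
  exact coarse_all M _ V T o₁ o₂ o₃ c le_rfl ho hcM


end Pool.Agent.H891WLC
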