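import Pool.Agent.H891WLC.Defs

set_option autoImplicit false

namespace Pool.Agent.H891WLC

/-- inner product of `n` with the vector from `a` to `b` -/
def nrm (n a b : ℝ × ℝ) : ℝ := n.1 * (b.1 - a.1) + n.2 * (b.2 - a.2)

/-- inner product of the rotated vector `(-n.2, n.1)` with the vector from `a` to `b` -/
def tng (n a b : ℝ × ℝ) : ℝ := -n.2 * (b.1 - a.1) + n.1 * (b.2 - a.2)

end Pool.Agent.H891WLC
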