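import Pool.Agent.H891WLC.Defs

set_option autoImplicit false

namespace Pool.Agent.H891WLC

/-- the fibre of `m` in the finer triangulation `Tf` is the path `y 1, ..., y s`; `y 0` and `y (s+1)` are the two end
neighbours (they have singleton fibres) -/
structure PathAt {Xf X0 : Type} (Tf : Tri Xf) (T0 : Tri X0) (σ : Xf → X0) (m : X0) (s : ℕ) (y : ℕ → Xf) : Prop where
  s1 : 1 ≤ s
  inj : ∀ i j, i ≤ s + 1 → j ≤ s + 1 → y i = y j → i = j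
  fib : ∀ x, σ x = m ↔ ∃ i, 1 ≤ i ∧ i ≤ s ∧ x = y i
  e0 : ∀ x, σ x = σ (y 0) → x = y 0
  e1 : ∀ x, σ x = σ (y (s + 1)) → x = y (s + 1)
  adj : ∀ i, i ≤ s → Tf.G.Adj (y i) (y (i + 1))
  nadj : ∀ i j, i ≤ s + 1 → j ≤ s + 1 → i + 2 ≤ j → ¬ Tf.G.Adj (y i) (y j)

end Pool.Agent.H891WLC
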