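import Pool.Agent.H891WLC.Defs
import Pool.Agent.H891WLC.D_nrm
import Pool.Agent.H891WLC.D_path
import Pool.Agent.H891WLC.tri_conn3
import Pool.Agent.H891WLC.CLUS_ADJ
import Pool.Agent.H891WLC.CLUS_UNIQ
import Pool.Agent.H891WLC.DRAWN_BAL

set_option autoImplicit false

namespace Pool.Agent.H891WLC

namespace W_DRAW3

open Filter Topology

/-- moving point -/
def Qd (p d : ℝ × ℝ) (δ : ℝ) : ℝ × ℝ := (p.1 + δ * d.1, p.2 + δ * d.2)

/-- rotated linear form -/
def L (d a b : ℝ × ℝ) : ℝ := -d.2 * (b.1 - a.1) + d.1 * (b.2 - a.2)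

/-- normal vector -/
def nv (d : ℝ × ℝ) (ε : ℝ) : ℝ × ℝ := (-d.2 + ε * d.1, d.1 + ε * d.2)

theorem Qd_zero (p d : ℝ × ℝ) : Qd p d 0 = p := by
  unfold Qd
  simp

theorem Qd_zero' (p : ℝ × ℝ) (δ : ℝ) : Qd p 0 δ = p := by
  unfold Qd
  simp

theorem Qd_cont (p d : ℝ × ℝ) : Continuous (Qd p d) := by
  unfold Qd
  fun_prop

theorem ev_pos (g : ℝ → ℝ) (hg : Continuous g) (h : 0 < g 0) :
    ∀ᶠ δ in 𝓝[>] (0 : ℝ), 0 < g δ :=
  (hg.continuousAt.eventually (lt_mem_nhds h)).filter_mono nhdsWithin_le_nhds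

theorem ev_mul (g : ℝ → ℝ) (hg : Continuous g) (h : 0 < g 0) :
    ∀ᶠ δ in 𝓝[>] (0 : ℝ), 0 < δ * g δ := by
  filter_upwards [ev_pos g hg h, self_mem_nhdsWithin] with δ h1 h2
  exact mul_pos h2 h1

theorem ev_ne (A B : ℝ) (h : A ≠ 0 ∨ B ≠ 0) : ∀ᶠ ε in 𝓝[>] (0 : ℝ), A + ε * B ≠ 0 := by
  by_cases hA : A = 0
  · have hB : B ≠ 0 := by
      rcases h with h | h
      · exact absurd hA h
      · exact h
    filter_upwards [self_mem_nhdsWithin] with ε hε
    rw [hA, zero_add]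
    exact mul_ne_zero (ne_of_gt hε) hB
  · have hc : Continuous fun ε : ℝ => A + ε * B := by fun_prop
    have h1 : ∀ᶠ ε in 𝓝 (0 : ℝ), A + ε * B ≠ 0 :=
      (isOpen_ne_fun hc continuous_const).mem_nhds (by simpa using hA)
    exact h1.filter_mono nhdsWithin_le_nhds

theorem crs_cont (p q : ℝ × ℝ) (g : ℝ → ℝ × ℝ) (hg : Continuous g) :
    Continuous fun δ => crs p q (g δ) := by
  unfold crs
  fun_prop

theorem crs_cont3 (f g h : ℝ → ℝ × ℝ) (hf : Continuous f) (hg : Continuous g)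
    (hh : Continuous h) : Continuous fun δ => crs (f δ) (g δ) (h δ) := by
  unfold crs
  fun_prop

theorem crs_a (p q w : ℝ × ℝ) (δ : ℝ) : crs p (Qd p (q - p) δ) w = δ * crs p q w := by
  unfold crs Qd
  simp only [Prod.fst_sub, Prod.snd_sub]
  ring

theorem crs_b (p q w : ℝ × ℝ) (δ : ℝ) : crs (Qd p (q - p) δ) p w = δ * -crs p q w := by
  unfold crs Qd
  simp only [Prod.fst_sub, Prod.snd_sub]
  ring

theorem L_a (p q w : ℝ × ℝ) (δ : ℝ) : L (q - p) (Qd p (q - p) δ) w = crs p q w := by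
  unfold crs Qd L
  simp only [Prod.fst_sub, Prod.snd_sub]
  ring

theorem crs_rot (a b c : ℝ × ℝ) : crs b c a = crs a b c := by
  unfold crs
  ring

theorem nrm_nv (d a b : ℝ × ℝ) (ε : ℝ) :
    nrm (nv d ε) a b = L d a b + ε * (d.1 * (b.1 - a.1) + d.2 * (b.2 - a.2)) := by
  unfold nrm nv L
  ring

theorem nv_ne (d : ℝ × ℝ) (hd : d ≠ 0) (ε : ℝ) : (nv d ε).1 ≠ 0 ∨ (nv d ε).2 ≠ 0 := by
  by_contra hcon
  push Not at hcon
  obtain ⟨h1, h2⟩ := hcon
  unfold nv at h1 h2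
  simp only at h1 h2
  have h3 : (1 + ε ^ 2) * (d.1 ^ 2 + d.2 ^ 2) = 0 := by
    have : (1 + ε ^ 2) * (d.1 ^ 2 + d.2 ^ 2) = (-d.2 + ε * d.1) ^ 2 + (d.1 + ε * d.2) ^ 2 := by
      ring
    rw [this, h1, h2]
    ring
  have h4 : d.1 ^ 2 + d.2 ^ 2 = 0 := by
    rcases mul_eq_zero.mp h3 with h | h
    · nlinarith [sq_nonneg ε]
    · exact h
  apply hd
  have h5 : d.1 = 0 := by nlinarith [sq_nonneg d.1, sq_nonneg d.2]
  have h6 : d.2 = 0 := by nlinarith [sq_nonneg d.1, sq_nonneg d.2]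
  exact Prod.ext h5 h6

theorem L_or (d a b : ℝ × ℝ) (hd : d ≠ 0) (hab : a ≠ b) :
    L d a b ≠ 0 ∨ d.1 * (b.1 - a.1) + d.2 * (b.2 - a.2) ≠ 0 := by
  by_contra hcon
  push Not at hcon
  obtain ⟨h1, h2⟩ := hcon
  unfold L at h1
  have h3 : (d.1 ^ 2 + d.2 ^ 2) * ((b.1 - a.1) ^ 2 + (b.2 - a.2) ^ 2) = 0 := by
    have : (d.1 ^ 2 + d.2 ^ 2) * ((b.1 - a.1) ^ 2 + (b.2 - a.2) ^ 2) =
      (-d.2 * (b.1 - a.1) + d.1 * (b.2 - a.2)) ^ 2 +
        (d.1 * (b.1 - a.1) + d.2 * (b.2 - a.2)) ^ 2 := by ring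
    rw [this, h1, h2]
    ring
  rcases mul_eq_zero.mp h3 with h | h
  · apply hd
    have h5 : d.1 = 0 := by nlinarith [sq_nonneg d.1, sq_nonneg d.2]
    have h6 : d.2 = 0 := by nlinarith [sq_nonneg d.1, sq_nonneg d.2]
    exact Prod.ext h5 h6
  · apply hab
    have h5 : b.1 - a.1 = 0 := by nlinarith [sq_nonneg (b.1 - a.1), sq_nonneg (b.2 - a.2)]
    have h6 : b.2 - a.2 = 0 := by nlinarith [sq_nonneg (b.1 - a.1), sq_nonneg (b.2 - a.2)]
    exact Prod.ext (by linarith) (by linarith)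

end W_DRAW3

open W_DRAW3 in
theorem DRAW3 {Xf X3 X0 : Type} [Finite Xf] [Finite X3] [Finite X0] (Tf : Tri Xf) (T3 : Tri X3) (T0 : Tri X0)
    (α : Xf → X3) (τ : X3 → X0) (hα : Clus Tf T3 α) (hτ : Clus T3 T0 τ) (hσ : Clus Tf T0 (τ ∘ α))
    (o₁ o₂ o₃ : X3) (hs1 : ∀ z, τ z = τ o₁ → z = o₁) (hs2 : ∀ z, τ z = τ o₂ → z = o₂) (hs3 : ∀ z, τ z = τ o₃ → z = o₃)
    (P : X0 → ℝ × ℝ) (hd : Drawn T0 (τ o₁) (τ o₂) (τ o₃) P)
    (hPinj : Function.Injective P)
    (Md : Set X0) (hone : ∀ z z', τ z = τ z' → τ z ∉ Md → z = z') (hMo : ∀ m ∈ Md, m ≠ τ o₁ ∧ m ≠ τ o₂ ∧ m ≠ τ o₃) (s : X0 → ℕ) (y : X0 → ℕ → Xf)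
    (hp : ∀ m ∈ Md, PathAt Tf T0 (τ ∘ α) m (s m) (y m)) (j : X0 → ℕ) (hj : ∀ m ∈ Md, 1 ≤ j m ∧ j m ≤ s m)
    (hinj : ∀ x x', α x = α x' → x = x' ∨ ((τ (α x)) ∈ Md ∧ ∃ i i', 1 ≤ i ∧ i ≤ s (τ (α x)) ∧ 1 ≤ i' ∧ i' ≤ s (τ (α x)) ∧
      x = y (τ (α x)) i ∧ x' = y (τ (α x)) i' ∧ ((i < j (τ (α x)) ∧ i' < j (τ (α x))) ∨ (j (τ (α x)) < i ∧ j (τ (α x)) < i'))))
    (hsame : ∀ m ∈ Md, ∀ i i', 1 ≤ i → i ≤ s m → 1 ≤ i' → i' ≤ s m →
      ((i < j m ∧ i' < j m) ∨ (j m < i ∧ j m < i')) → α (y m i) = α (y m i'))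
    (hC1 : ∀ m ∈ Md, ∀ i c, i < j m → Tf.F (y m (i + 1)) (y m i) c → 0 < crs (P m) (P (τ (α (y m 0)))) (P (τ (α c))))
    (hC1' : ∀ m ∈ Md, ∀ i c, i < j m → Tf.F (y m i) (y m (i + 1)) c → crs (P m) (P (τ (α (y m 0)))) (P (τ (α c))) < 0)
    (hC2 : ∀ m ∈ Md, ∀ i c, j m ≤ i → i ≤ s m → Tf.F (y m (i + 1)) (y m i) c →
      crs (P m) (P (τ (α (y m (s m + 1))))) (P (τ (α c))) < 0)
    (hC2' : ∀ m ∈ Md, ∀ i c, j m ≤ i → i ≤ s m → Tf.F (y m i) (y m (i + 1)) c →
      0 < crs (P m) (P (τ (α (y m (s m + 1))))) (P (τ (α c)))) :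
    ∃ (Q : X3 → ℝ × ℝ) (n : X3 → ℝ × ℝ), Drawn T3 o₁ o₂ o₃ Q ∧ (∀ z, (n z).1 ≠ 0 ∨ (n z).2 ≠ 0) ∧
      (∀ z z', z ≠ z' → nrm (n z) (Q z) (Q z') ≠ 0) ∧
      (∀ m ∈ Md, ∀ i c, 1 ≤ i → i < j m → Tf.F (y m i) (y m (i - 1)) c → 0 < nrm (n (α (y m i))) (Q (α (y m i))) (Q (α c))) ∧
      (∀ m ∈ Md, ∀ i c, 1 ≤ i → i < j m → Tf.F (y m (i - 1)) (y m i) c → nrm (n (α (y m i))) (Q (α (y m i))) (Q (α c)) < 0) ∧
      (∀ m ∈ Md, ∀ i c, j m < i → i ≤ s m → Tf.F (y m (i + 1)) (y m i) c → nrm (n (α (y m i))) (Q (α (y m i))) (Q (α c)) < 0) ∧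
      (∀ m ∈ Md, ∀ i c, j m < i → i ≤ s m → Tf.F (y m i) (y m (i + 1)) c → 0 < nrm (n (α (y m i))) (Q (α (y m i))) (Q (α c))) := by
  classical
  -- basic facts
  have hsurj : ∀ z : X3, ∃ x, α x = z := fun z => by
    obtain ⟨x, hx⟩ := (hα.1 z).1
    exact ⟨x, hx⟩
  have hfib : ∀ m ∈ Md, ∀ i, 1 ≤ i → i ≤ s m → τ (α (y m i)) = m := fun m hm i h1 h2 =>
    ((hp m hm).fib _).2 ⟨i, h1, h2, rfl⟩
  have hfib' : ∀ m ∈ Md, ∀ z, τ z = m → ∃ i, 1 ≤ i ∧ i ≤ s m ∧ z = α (y m i) := by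
    intro m hm z hz
    obtain ⟨x, rfl⟩ := hsurj z
    obtain ⟨i, h1, h2, rfl⟩ := ((hp m hm).fib x).1 hz
    exact ⟨i, h1, h2, rfl⟩
  have hgrp : ∀ m ∈ Md, ∀ i i', 1 ≤ i → i ≤ s m → 1 ≤ i' → i' ≤ s m → α (y m i) = α (y m i') →
      i = i' ∨ (i < j m ∧ i' < j m) ∨ (j m < i ∧ j m < i') := by
    intro m hm i i' h1 h2 h1' h2' he
    rcases hinj _ _ he with h | ⟨_, k, k', hk1, hk2, hk1', hk2', e1, e2, h⟩
    · left
      exact (hp m hm).inj i i' (by omega) (by omega) h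
    · right
      rw [hfib m hm i h1 h2] at hk2 hk2' e1 e2 h
      have f1 := (hp m hm).inj i k (by omega) (by omega) e1
      have f2 := (hp m hm).inj i' k' (by omega) (by omega) e2
      rw [f1, f2]
      exact h
  have hE1m : ∀ m ∈ Md, P (τ (α (y m 0))) - P m ≠ 0 := by
    intro m hm h
    have h1 := hPinj (sub_eq_zero.mp h)
    obtain ⟨i, h2, h3, h4⟩ := ((hp m hm).fib (y m 0)).1 h1
    have := (hp m hm).inj 0 i (by omega) (by omega) h4
    omega
  have hE2m : ∀ m ∈ Md, P (τ (α (y m (s m + 1)))) - P m ≠ 0 := by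
    intro m hm h
    have h1 := hPinj (sub_eq_zero.mp h)
    obtain ⟨i, h2, h3, h4⟩ := ((hp m hm).fib (y m (s m + 1))).1 h1
    have := (hp m hm).inj (s m + 1) i (by omega) (by omega) h4
    omega
  have hE12 : ∀ m ∈ Md, P (τ (α (y m 0))) - P m ≠ P (τ (α (y m (s m + 1)))) - P m := by
    intro m hm h
    have h1 := hPinj (sub_left_inj.mp h)
    have h2 := (hp m hm).e1 (y m 0) h1
    have := (hp m hm).inj 0 (s m + 1) (by omega) (by omega) h2
    omega
  obtain ⟨D, hD0, hD1, hDj, hD2⟩ : ∃ D : X3 → ℝ × ℝ, (∀ z, τ z ∉ Md → D z = 0) ∧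
      (∀ m ∈ Md, ∀ i, 1 ≤ i → i < j m → D (α (y m i)) = P (τ (α (y m 0))) - P m) ∧
      (∀ m ∈ Md, D (α (y m (j m))) = 0) ∧
      (∀ m ∈ Md, ∀ i, j m < i → i ≤ s m →
        D (α (y m i)) = P (τ (α (y m (s m + 1)))) - P m) := by
    refine ⟨fun z => if τ z ∈ Md then
        (if ∃ i, 1 ≤ i ∧ i < j (τ z) ∧ z = α (y (τ z) i) then P (τ (α (y (τ z) 0))) - P (τ z)
         else if ∃ i, j (τ z) < i ∧ i ≤ s (τ z) ∧ z = α (y (τ z) i) then
          P (τ (α (y (τ z) (s (τ z) + 1)))) - P (τ z) else 0) else 0, ?_, ?_, ?_, ?_⟩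
    · intro z hz
      simp only [hz, if_false]
    · intro m hm i h1 h2
      have hjm := hj m hm
      have h3 := hfib m hm i h1 (by omega)
      simp only [h3]
      rw [if_pos hm, if_pos ⟨i, h1, h2, rfl⟩]
    · intro m hm
      have hjm := hj m hm
      have h3 := hfib m hm (j m) hjm.1 hjm.2
      simp only [h3]
      rw [if_pos hm, if_neg, if_neg]
      · rintro ⟨i, h4, h5, h6⟩
        have := hgrp m hm (j m) i hjm.1 hjm.2 (by omega) (by omega) h6
        omega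
      · rintro ⟨i, h4, h5, h6⟩
        have := hgrp m hm (j m) i hjm.1 hjm.2 (by omega) (by omega) h6
        omega
    · intro m hm i h1 h2
      have hjm := hj m hm
      have h3 := hfib m hm i (by omega) h2
      simp only [h3]
      rw [if_pos hm, if_neg, if_pos ⟨i, h1, h2, rfl⟩]
      rintro ⟨i', h4, h5, h6⟩
      have := hgrp m hm i i' (by omega) h2 (by omega) (by omega) h6
      omega
  let Q : ℝ → X3 → ℝ × ℝ := fun δ z => Qd (P (τ z)) (D z) δ
  have hQc : ∀ z, Continuous fun δ => Q δ z := fun z => Qd_cont _ _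
  have hQ0 : ∀ z, Q 0 z = P (τ z) := fun z => Qd_zero _ _
  -- faces over an edge
  have hface2 : ∀ a b c, T3.F a b c → τ a = τ b →
      ∀ᶠ δ in nhdsWithin (0 : ℝ) (Set.Ioi 0), 0 < crs (Q δ a) (Q δ b) (Q δ c) := by
    intro a b c hF hab
    obtain ⟨n1, n2, n3, a₀, b₀, c₀, ea, eb, ec, hF0⟩ := (hα.2 a b c).1 hF
    have hm : τ a ∈ Md := by
      by_contra hcon
      exact n1 (hone a b hab hcon)
    have hjm := hj _ hm
    generalize hmdef : τ a = m at hm hjm hab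
    have hp' := hp m hm
    obtain ⟨p, hp1, hp2, hpe⟩ := (hp'.fib a₀).1 (by rw [Function.comp, ea]; exact hmdef)
    obtain ⟨q, hq1, hq2, hqe⟩ := (hp'.fib b₀).1 (by rw [Function.comp, eb]; exact hab.symm)
    have hadj : Tf.G.Adj (y m p) (y m q) := ⟨c₀, by rw [← hpe, ← hqe]; exact hF0⟩
    have hpq : p ≠ q := by
      intro h
      apply n1
      rw [← ea, ← eb, hpe, hqe, h]
    have hnd1 : ¬ p + 2 ≤ q := fun h => hp'.nadj p q (by omega) (by omega) h hadj
    have hnd2 : ¬ q + 2 ≤ p := fun h => hp'.nadj q p (by omega) (by omega) h hadj.symm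
    have hns : ¬ ((p < j m ∧ q < j m) ∨ (j m < p ∧ j m < q)) := by
      intro h
      apply n1
      rw [← ea, ← eb, hpe, hqe]
      exact hsame m hm p q hp1 hp2 hq1 hq2 h
    subst hpe hqe
    have hQa : ∀ δ, Q δ a = Qd (P m) (D a) δ := fun δ => by simp only [Q]; rw [hmdef]
    have hQb : ∀ δ, Q δ b = Qd (P m) (D b) δ := fun δ => by simp only [Q]; rw [← hab]
    have hcc : P (τ c) = P (τ (α c₀)) := by rw [ec]
    have hcase : p = q + 1 ∨ q = p + 1 := by omega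
    rcases hcase with hpq1 | hpq1
    · have hj2 : q + 1 = j m ∨ q = j m := by omega
      rcases hj2 with hj3 | hj3
      · have hDa : D a = 0 := by rw [← ea, hpq1, hj3]; exact hDj m hm
        have hDb : D b = P (τ (α (y m 0))) - P m := by
          rw [← eb]; exact hD1 m hm q hq1 (by omega)
        have hcr : 0 < crs (P m) (P (τ (α (y m 0)))) (P (τ c)) := by
          rw [hcc]
          exact hC1 m hm q c₀ (by omega) (by rw [← hpq1]; exact hF0)
        have hev := ev_mul (fun δ => crs (P m) (P (τ (α (y m 0)))) (Q δ c))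
          (crs_cont _ _ _ (hQc c)) (by simp only [hQ0]; exact hcr)
        filter_upwards [hev] with δ hδ
        rw [hQa, hQb, hDa, hDb, Qd_zero', crs_a]
        exact hδ
      · have hDb : D b = 0 := by rw [← eb, hj3]; exact hDj m hm
        have hDa : D a = P (τ (α (y m (s m + 1)))) - P m := by
          rw [← ea]; exact hD2 m hm p (by omega) hp2
        have hcr : 0 < -crs (P m) (P (τ (α (y m (s m + 1))))) (P (τ c)) := by
          rw [hcc]
          exact neg_pos.mpr (hC2 m hm q c₀ (by omega) hq2 (by rw [← hpq1]; exact hF0))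
        have hev := ev_mul (fun δ => -crs (P m) (P (τ (α (y m (s m + 1))))) (Q δ c))
          (crs_cont _ _ _ (hQc c)).neg (by simp only [hQ0]; exact hcr)
        filter_upwards [hev] with δ hδ
        rw [hQa, hQb, hDa, hDb, Qd_zero', crs_b]
        exact hδ
    · have hj2 : p + 1 = j m ∨ p = j m := by omega
      rcases hj2 with hj3 | hj3
      · have hDb : D b = 0 := by rw [← eb, hpq1, hj3]; exact hDj m hm
        have hDa : D a = P (τ (α (y m 0))) - P m := by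
          rw [← ea]; exact hD1 m hm p hp1 (by omega)
        have hcr : 0 < -crs (P m) (P (τ (α (y m 0)))) (P (τ c)) := by
          rw [hcc]
          exact neg_pos.mpr (hC1' m hm p c₀ (by omega) (by rw [← hpq1]; exact hF0))
        have hev := ev_mul (fun δ => -crs (P m) (P (τ (α (y m 0)))) (Q δ c))
          (crs_cont _ _ _ (hQc c)).neg (by simp only [hQ0]; exact hcr)
        filter_upwards [hev] with δ hδ
        rw [hQa, hQb, hDa, hDb, Qd_zero', crs_b]
        exact hδ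
      · have hDa : D a = 0 := by rw [← ea, hj3]; exact hDj m hm
        have hDb : D b = P (τ (α (y m (s m + 1)))) - P m := by
          rw [← eb]; exact hD2 m hm q (by omega) hq2
        have hcr : 0 < crs (P m) (P (τ (α (y m (s m + 1))))) (P (τ c)) := by
          rw [hcc]
          exact hC2' m hm p c₀ (by omega) hp2 (by rw [← hpq1]; exact hF0)
        have hev := ev_mul (fun δ => crs (P m) (P (τ (α (y m (s m + 1))))) (Q δ c))
          (crs_cont _ _ _ (hQc c)) (by simp only [hQ0]; exact hcr)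
        filter_upwards [hev] with δ hδ
        rw [hQa, hQb, hDa, hDb, Qd_zero', crs_a]
        exact hδ
  -- all faces
  have hface : ∀ a b c, T3.F a b c → ¬ IsRot o₁ o₂ o₃ a b c →
      ∀ᶠ δ in nhdsWithin (0 : ℝ) (Set.Ioi 0), 0 < crs (Q δ a) (Q δ b) (Q δ c) := by
    intro a b c hF hrot
    by_cases h1 : τ a = τ b
    · exact hface2 a b c hF h1
    by_cases h2 : τ b = τ c
    · filter_upwards [hface2 b c a (T3.rot _ _ _ hF) h2] with δ hδ
      rw [← crs_rot]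
      exact hδ
    by_cases h3 : τ c = τ a
    · filter_upwards [hface2 c a b (T3.rot _ _ _ (T3.rot _ _ _ hF)) h3] with δ hδ
      rw [← crs_rot, ← crs_rot]
      exact hδ
    have hF0 : T0.F (τ a) (τ b) (τ c) :=
      (hτ.2 _ _ _).2 ⟨h1, h2, fun h => h3 h.symm, a, b, c, rfl, rfl, rfl, hF⟩
    have hnr : ¬ IsRot (τ o₁) (τ o₂) (τ o₃) (τ a) (τ b) (τ c) := by
      intro hr
      apply hrot
      rcases hr with ⟨e1, e2, e3⟩ | ⟨e1, e2, e3⟩ | ⟨e1, e2, e3⟩
      · exact Or.inl ⟨hs1 _ e1, hs2 _ e2, hs3 _ e3⟩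
      · exact Or.inr (Or.inl ⟨hs2 _ e1, hs3 _ e2, hs1 _ e3⟩)
      · exact Or.inr (Or.inr ⟨hs3 _ e1, hs1 _ e2, hs2 _ e3⟩)
    have hpos := hd.2.2 _ _ _ hF0 hnr
    exact ev_pos (fun δ => crs (Q δ a) (Q δ b) (Q δ c))
      (crs_cont3 _ _ _ (hQc a) (hQc b) (hQc c)) (by simp only [hQ0]; exact hpos)
  -- outer face
  have hout : ∀ᶠ δ in nhdsWithin (0 : ℝ) (Set.Ioi 0), 0 < -crs (Q δ o₁) (Q δ o₂) (Q δ o₃) :=
    ev_pos (fun δ => -crs (Q δ o₁) (Q δ o₂) (Q δ o₃))
      (crs_cont3 _ _ _ (hQc _) (hQc _) (hQc _)).neg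
      (by simp only [hQ0]; exact neg_pos.mpr hd.2.1)
  have houtF : T3.F o₁ o₂ o₃ := by
    obtain ⟨_, _, _, a₀, b₀, c₀, e1, e2, e3, hF⟩ := (hτ.2 _ _ _).1 hd.1
    rw [hs1 _ e1, hs2 _ e2, hs3 _ e3] at hF
    exact hF
  -- injectivity
  have hQinj : ∀ z z', z ≠ z' → ∀ᶠ δ in nhdsWithin (0 : ℝ) (Set.Ioi 0), Q δ z ≠ Q δ z' := by
    intro z z' hzz
    by_cases ht : τ z = τ z'
    · have hm : τ z ∈ Md := by
        by_contra hcon
        exact hzz (hone z z' ht hcon)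
      obtain ⟨p, hp1, hp2, hpe⟩ := hfib' _ hm z rfl
      obtain ⟨q, hq1, hq2, hqe⟩ := hfib' _ hm z' ht.symm
      generalize hmdef : τ z = m at hm ht hp1 hp2 hpe hq1 hq2 hqe
      have hjm := hj m hm
      have hDne : D z ≠ D z' := by
        have hns : ¬ ((p < j m ∧ q < j m) ∨ (j m < p ∧ j m < q)) := by
          intro h
          apply hzz
          rw [hpe, hqe]
          exact hsame m hm p q hp1 hp2 hq1 hq2 h
        have hpq : p ≠ q := by
          intro h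
          apply hzz
          rw [hpe, hqe, h]
        have e1 := hE1m m hm
        have e2 := hE2m m hm
        have e3 := hE12 m hm
        rcases lt_trichotomy p (j m) with h | h | h
        · have f1 : D z = P (τ (α (y m 0))) - P m := by rw [hpe]; exact hD1 m hm p hp1 h
          rcases lt_trichotomy q (j m) with h' | h' | h'
          · exact absurd (Or.inl ⟨h, h'⟩) hns
          · have f2 : D z' = 0 := by rw [hqe, h']; exact hDj m hm
            rw [f1, f2]; exact e1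
          · have f2 : D z' = P (τ (α (y m (s m + 1)))) - P m := by
              rw [hqe]; exact hD2 m hm q h' hq2
            rw [f1, f2]; exact e3
        · have f1 : D z = 0 := by rw [hpe, h]; exact hDj m hm
          rcases lt_trichotomy q (j m) with h' | h' | h'
          · have f2 : D z' = P (τ (α (y m 0))) - P m := by rw [hqe]; exact hD1 m hm q hq1 h'
            rw [f1, f2]; exact e1.symm
          · exact absurd (h.trans h'.symm) hpq
          · have f2 : D z' = P (τ (α (y m (s m + 1)))) - P m := by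
              rw [hqe]; exact hD2 m hm q h' hq2
            rw [f1, f2]; exact e2.symm
        · have f1 : D z = P (τ (α (y m (s m + 1)))) - P m := by
            rw [hpe]; exact hD2 m hm p h hp2
          rcases lt_trichotomy q (j m) with h' | h' | h'
          · have f2 : D z' = P (τ (α (y m 0))) - P m := by rw [hqe]; exact hD1 m hm q hq1 h'
            rw [f1, f2]; exact e3.symm
          · have f2 : D z' = 0 := by rw [hqe, h']; exact hDj m hm
            rw [f1, f2]; exact e2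
          · exact absurd (Or.inr ⟨h, h'⟩) hns
      filter_upwards [self_mem_nhdsWithin] with δ hδ hcon
      apply hDne
      have hδ' : δ ≠ 0 := ne_of_gt hδ
      simp only [Q, Qd] at hcon
      rw [← ht, hmdef] at hcon
      have g1 := congrArg Prod.fst hcon
      have g2 := congrArg Prod.snd hcon
      simp only at g1 g2
      exact Prod.ext (mul_left_cancel₀ hδ' (add_left_cancel g1))
        (mul_left_cancel₀ hδ' (add_left_cancel g2))
    · have h1 : ∀ᶠ δ in nhds (0 : ℝ), Q δ z ≠ Q δ z' :=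
        (isOpen_ne_fun (hQc z) (hQc z')).mem_nhds (by
          change Q 0 z ≠ Q 0 z'
          rw [hQ0, hQ0]
          exact fun h => ht (hPinj h))
      exact h1.filter_mono nhdsWithin_le_nhds
  -- normal conditions
  obtain ⟨Pos, hPosdef⟩ : ∃ Pos : X3 → X3 → Prop, Pos = fun z x => ∃ m ∈ Md, ∃ i c,
      z = α (y m i) ∧ x = α c ∧ ((1 ≤ i ∧ i < j m ∧ Tf.F (y m i) (y m (i - 1)) c) ∨
        (j m < i ∧ i ≤ s m ∧ Tf.F (y m i) (y m (i + 1)) c)) := ⟨_, rfl⟩
  obtain ⟨Neg, hNegdef⟩ : ∃ Neg : X3 → X3 → Prop, Neg = fun z x => ∃ m ∈ Md, ∃ i c,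
      z = α (y m i) ∧ x = α c ∧ ((1 ≤ i ∧ i < j m ∧ Tf.F (y m (i - 1)) (y m i) c) ∨
        (j m < i ∧ i ≤ s m ∧ Tf.F (y m (i + 1)) (y m i) c)) := ⟨_, rfl⟩
  have hPos : ∀ z x, Pos z x → D z ≠ 0 ∧
      ∀ᶠ δ in nhdsWithin (0 : ℝ) (Set.Ioi 0), 0 < L (D z) (Q δ z) (Q δ x) := by
    intro z x hzx
    rw [hPosdef] at hzx
    obtain ⟨m, hm, i, c, rfl, rfl, h⟩ := hzx
    have hjm := hj m hm
    rcases h with ⟨h1, h2, h3⟩ | ⟨h1, h2, h3⟩
    · have hDz := hD1 m hm i h1 h2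
      have hτz := hfib m hm i h1 (by omega)
      refine ⟨by rw [hDz]; exact hE1m m hm, ?_⟩
      have hcr := hC1 m hm (i - 1) c (by omega) (by
        rw [show i - 1 + 1 = i by omega]; exact h3)
      have hev := ev_pos (fun δ => crs (P m) (P (τ (α (y m 0)))) (Q δ (α c)))
        (crs_cont _ _ _ (hQc _)) (by simp only [hQ0]; exact hcr)
      filter_upwards [hev] with δ hδ
      have hQz : Q δ (α (y m i)) = Qd (P m) (P (τ (α (y m 0))) - P m) δ := by
        simp only [Q]; rw [hτz, hDz]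
      rw [hQz, hDz, L_a]
      exact hδ
    · have hDz := hD2 m hm i h1 h2
      have hτz := hfib m hm i (by omega) h2
      refine ⟨by rw [hDz]; exact hE2m m hm, ?_⟩
      have hcr := hC2' m hm i c (by omega) h2 h3
      have hev := ev_pos (fun δ => crs (P m) (P (τ (α (y m (s m + 1))))) (Q δ (α c)))
        (crs_cont _ _ _ (hQc _)) (by simp only [hQ0]; exact hcr)
      filter_upwards [hev] with δ hδ
      have hQz : Q δ (α (y m i)) = Qd (P m) (P (τ (α (y m (s m + 1)))) - P m) δ := by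
        simp only [Q]; rw [hτz, hDz]
      rw [hQz, hDz, L_a]
      exact hδ
  have hNeg : ∀ z x, Neg z x → D z ≠ 0 ∧
      ∀ᶠ δ in nhdsWithin (0 : ℝ) (Set.Ioi 0), 0 < -L (D z) (Q δ z) (Q δ x) := by
    intro z x hzx
    rw [hNegdef] at hzx
    obtain ⟨m, hm, i, c, rfl, rfl, h⟩ := hzx
    have hjm := hj m hm
    rcases h with ⟨h1, h2, h3⟩ | ⟨h1, h2, h3⟩
    · have hDz := hD1 m hm i h1 h2
      have hτz := hfib m hm i h1 (by omega)
      refine ⟨by rw [hDz]; exact hE1m m hm, ?_⟩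
      have hcr := neg_pos.mpr (hC1' m hm (i - 1) c (by omega) (by
        rw [show i - 1 + 1 = i by omega]; exact h3))
      have hev := ev_pos (fun δ => -crs (P m) (P (τ (α (y m 0)))) (Q δ (α c)))
        (crs_cont _ _ _ (hQc _)).neg (by simp only [hQ0]; exact hcr)
      filter_upwards [hev] with δ hδ
      have hQz : Q δ (α (y m i)) = Qd (P m) (P (τ (α (y m 0))) - P m) δ := by
        simp only [Q]; rw [hτz, hDz]
      rw [hQz, hDz, L_a]
      exact hδ
    · have hDz := hD2 m hm i h1 h2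
      have hτz := hfib m hm i (by omega) h2
      refine ⟨by rw [hDz]; exact hE2m m hm, ?_⟩
      have hcr := neg_pos.mpr (hC2 m hm i c (by omega) h2 h3)
      have hev := ev_pos (fun δ => -crs (P m) (P (τ (α (y m (s m + 1))))) (Q δ (α c)))
        (crs_cont _ _ _ (hQc _)).neg (by simp only [hQ0]; exact hcr)
      filter_upwards [hev] with δ hδ
      have hQz : Q δ (α (y m i)) = Qd (P m) (P (τ (α (y m (s m + 1)))) - P m) δ := by
        simp only [Q]; rw [hτz, hDz]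
      rw [hQz, hDz, L_a]
      exact hδ
  -- choice of δ
  have hall : ∀ᶠ δ in nhdsWithin (0 : ℝ) (Set.Ioi 0),
      (∀ a b c, T3.F a b c → ¬ IsRot o₁ o₂ o₃ a b c → 0 < crs (Q δ a) (Q δ b) (Q δ c)) ∧
      (0 < -crs (Q δ o₁) (Q δ o₂) (Q δ o₃)) ∧
      (∀ z z', z ≠ z' → Q δ z ≠ Q δ z') ∧
      (∀ z x, Pos z x → 0 < L (D z) (Q δ z) (Q δ x)) ∧
      (∀ z x, Neg z x → 0 < -L (D z) (Q δ z) (Q δ x)) := by
    refine Filter.Eventually.and ?_ (hout.and (Filter.Eventually.and ?_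
      (Filter.Eventually.and ?_ ?_)))
    · rw [Filter.eventually_all]; intro a
      rw [Filter.eventually_all]; intro b
      rw [Filter.eventually_all]; intro c
      rw [Filter.eventually_imp_distrib_left]; intro h1
      rw [Filter.eventually_imp_distrib_left]; intro h2
      exact hface a b c h1 h2
    · rw [Filter.eventually_all]; intro a
      rw [Filter.eventually_all]; intro b
      rw [Filter.eventually_imp_distrib_left]; intro h1
      exact hQinj a b h1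
    · rw [Filter.eventually_all]; intro a
      rw [Filter.eventually_all]; intro b
      rw [Filter.eventually_imp_distrib_left]; intro h1
      exact (hPos a b h1).2
    · rw [Filter.eventually_all]; intro a
      rw [Filter.eventually_all]; intro b
      rw [Filter.eventually_imp_distrib_left]; intro h1
      exact (hNeg a b h1).2
  obtain ⟨δ, hδ1, hδ2, hδ3, hδ4, hδ5⟩ := hall.exists
  -- normals
  obtain ⟨d, hdef⟩ : ∃ d : X3 → ℝ × ℝ, d = fun z => if D z = 0 then (1, 0) else D z := ⟨_, rfl⟩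
  have hdne : ∀ z, d z ≠ 0 := by
    intro z
    rw [hdef]
    simp only
    split_ifs with h
    · intro h'
      have := congrArg Prod.fst h'
      simp at this
    · exact h
  have hdD : ∀ z, D z ≠ 0 → d z = D z := by
    intro z hz
    rw [hdef]
    simp only
    rw [if_neg hz]
  have hall2 : ∀ᶠ ε in nhdsWithin (0 : ℝ) (Set.Ioi 0),
      (∀ z z', z ≠ z' → nrm (nv (d z) ε) (Q δ z) (Q δ z') ≠ 0) ∧
      (∀ z x, Pos z x → 0 < nrm (nv (d z) ε) (Q δ z) (Q δ x)) ∧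
      (∀ z x, Neg z x → 0 < -nrm (nv (d z) ε) (Q δ z) (Q δ x)) := by
    refine Filter.Eventually.and ?_ (Filter.Eventually.and ?_ ?_)
    · rw [Filter.eventually_all]; intro a
      rw [Filter.eventually_all]; intro b
      rw [Filter.eventually_imp_distrib_left]; intro h1
      filter_upwards [ev_ne _ _ (L_or (d a) (Q δ a) (Q δ b) (hdne a) (hδ3 a b h1))] with ε hε
      rw [nrm_nv]
      exact hε
    · rw [Filter.eventually_all]; intro a
      rw [Filter.eventually_all]; intro b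
      rw [Filter.eventually_imp_distrib_left]; intro h1
      have h2 := hδ4 a b h1
      rw [← hdD a (hPos a b h1).1] at h2
      have h3 := ev_pos (fun ε => L (d a) (Q δ a) (Q δ b) + ε *
        ((d a).1 * ((Q δ b).1 - (Q δ a).1) + (d a).2 * ((Q δ b).2 - (Q δ a).2))) (by fun_prop)
        (by simpa using h2)
      filter_upwards [h3] with ε hε
      rw [nrm_nv]
      exact hε
    · rw [Filter.eventually_all]; intro a
      rw [Filter.eventually_all]; intro b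
      rw [Filter.eventually_imp_distrib_left]; intro h1
      have h2 := hδ5 a b h1
      rw [← hdD a (hNeg a b h1).1] at h2
      have h3 := ev_pos (fun ε => -(L (d a) (Q δ a) (Q δ b) + ε *
        ((d a).1 * ((Q δ b).1 - (Q δ a).1) + (d a).2 * ((Q δ b).2 - (Q δ a).2)))) (by fun_prop)
        (by simpa using h2)
      filter_upwards [h3] with ε hε
      rw [nrm_nv]
      exact hε
  obtain ⟨ε, hε1, hε2, hε3⟩ := hall2.exists
  refine ⟨Q δ, fun z => nv (d z) ε, ⟨houtF, neg_pos.mp hδ2, hδ1⟩, fun z => nv_ne _ (hdne z) _, hε1,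
    ?_, ?_, ?_, ?_⟩
  · intro m hm i c h1 h2 h3
    refine hε2 _ _ ?_
    rw [hPosdef]
    exact ⟨m, hm, i, c, rfl, rfl, Or.inl ⟨h1, h2, h3⟩⟩
  · intro m hm i c h1 h2 h3
    refine neg_pos.mp (hε3 _ _ ?_)
    rw [hNegdef]
    exact ⟨m, hm, i, c, rfl, rfl, Or.inl ⟨h1, h2, h3⟩⟩
  · intro m hm i c h1 h2 h3
    refine neg_pos.mp (hε3 _ _ ?_)
    rw [hNegdef]
    exact ⟨m, hm, i, c, rfl, rfl, Or.inr ⟨h1, h2, h3⟩⟩
  · intro m hm i c h1 h2 h3
    refine hε2 _ _ ?_
    rw [hPosdef]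
    exact ⟨m, hm, i, c, rfl, rfl, Or.inr ⟨h1, h2, h3⟩⟩



end Pool.Agent.H891WLC
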