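import Pool.Agent.H891WLC.Defs

set_option autoImplicit false

namespace Pool.Agent.H891WLC

/-- `T₀` has a straight-line drawing whose vertices are covered by at most `m` lines -/
def HasLines {V₀ : Type} (T₀ : Tri V₀) (o₁ o₂ o₃ : V₀) (m : ℕ) : Prop :=
  ∃ p : V₀ → ℝ × ℝ, Drawn T₀ o₁ o₂ o₃ p ∧
    ∃ (k : ℕ) (a b c : Fin k → ℝ), k ≤ m ∧ (∀ i, a i ≠ 0 ∨ b i ≠ 0) ∧
      ∀ v, ∃ i, a i * (p v).1 + b i * (p v).2 = c i

end Pool.Agent.H891WLC
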