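import Pool.Agent.H891WLC.Defs

set_option autoImplicit false

namespace Pool.Agent.H891WLC

/-- piece label of a vertex: cluster and (for subdivided clusters `w ∈ Sp`) the coarsened chain index `μ w (q v)` -/
def pc {V W : Type} [DecidableEq W] (π : V → W) (Sp : Finset W) (q : V → ℕ) (μ : W → ℕ → ℕ) (v : V) : W × ℕ :=
  (π v, if π v ∈ Sp then μ (π v) (q v) else 0)

end Pool.Agent.H891WLC
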