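import Pool.Agent.H891WLC.Defs
import Pool.Agent.H891WLC.D_lines

set_option autoImplicit false

namespace Pool.Agent.H891WLC

/-- stage of the multi-scale induction: for all large triangulations either few lines suffice or there is a clustering with
small total capacity -/
def St (ε α : ℝ) (M : ℕ) : Prop :=
  ∃ n₀ : ℕ, ∀ (V₀ : Type) [Fintype V₀] [DecidableEq V₀] (T₀ : Tri V₀) (o₁ o₂ o₃ : V₀), T₀.F o₁ o₂ o₃ →
    n₀ ≤ Fintype.card V₀ →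
    (∃ m : ℕ, (m : ℝ) ≤ ε * Fintype.card V₀ ∧ HasLines T₀ o₁ o₂ o₃ m) ∨
    (∃ (V : Type) (_ : Fintype V) (_ : DecidableEq V) (T : Tri V) (κ : V₀ → V) (c : V → ℕ), Clus T₀ T κ ∧
      (∀ v, κ v = κ o₁ → v = o₁) ∧ (∀ v, κ v = κ o₂ → v = o₂) ∧ (∀ v, κ v = κ o₃ → v = o₃) ∧
      (∀ v, CapSet T₀ T κ {v} (c v)) ∧ (∀ v, c v ≤ M) ∧ Fintype.card V * M ≤ 300 * Fintype.card V₀ ∧
      ((∑ v, c v : ℕ) : ℝ) ≤ α * Fintype.card V₀)

end Pool.Agent.H891WLC
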