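import Mathlib

set_option autoImplicit false

namespace Pool.Agent.H891WLC

/-- Combinatorial triangulation of the sphere.  `F a b c` : `(a,b,c)` is a face, read counterclockwise.
For every vertex `v` and neighbour `x` there is a unique `y` with `F v x y` (the successor of `x` in the link of `v`),
and the link of `v` is a single cycle. `euler`: (number of faces) = 2|V| - 4, since ordered triples count each face 3 times. -/
structure Tri (V : Type) where
  F : V → V → V → Prop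
  rot : ∀ a b c, F a b c → F b c a
  ne : ∀ a b c, F a b c → a ≠ b
  uniq : ∀ a b c d, F a b c → F a b d → c = d
  opp : ∀ a b c, F a b c → ∃ d, F b a d
  link : ∀ v a b c d, F v a b → F v c d → Relation.ReflTransGen (fun x y => F v x y) a c
  conn : ∀ u v : V, Relation.ReflTransGen (fun x y => ∃ z, F x y z) u v
  euler : Nat.card {t : V × V × V // F t.1 t.2.1 t.2.2} + 12 = 6 * Nat.card V

/-- the underlying simple graph -/
def Tri.G {V : Type} (T : Tri V) : SimpleGraph V where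
  Adj a b := ∃ c, T.F a b c
  symm := ⟨by rintro a b ⟨c, h⟩; exact T.opp a b c h⟩
  loopless := ⟨by rintro a ⟨c, h⟩; exact T.ne a a c h rfl⟩

/-- `A` is nonempty and induces a connected subgraph -/
def Conn {V : Type} (G : SimpleGraph V) (A : Set V) : Prop :=
  A.Nonempty ∧ ∀ u ∈ A, ∀ v ∈ A, Relation.ReflTransGen (fun x y => G.Adj x y ∧ y ∈ A) u v

/-- there is an edge between `A` and `B` -/
def AdjS {V : Type} (G : SimpleGraph V) (A B : Set V) : Prop := ∃ a ∈ A, ∃ b ∈ B, G.Adj a b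

/-- `h` is a valid height function on `K` : every vertex of `K` has a neighbour in `S` or strictly lower in `K`,
and a neighbour in `U` or strictly higher in `K` -/
def Valid {V : Type} (G : SimpleGraph V) (S U K : Set V) (h : V → ℝ) : Prop :=
  ∀ v ∈ K, (∃ u, G.Adj v u ∧ (u ∈ S ∨ (u ∈ K ∧ h u < h v))) ∧
    (∃ u, G.Adj v u ∧ (u ∈ U ∨ (u ∈ K ∧ h v < h u)))

/-- `(S,U)` is a split of the complement of `K` -/
def Split {V : Type} (G : SimpleGraph V) (K S U : Set V) : Prop :=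
  (∀ v, v ∈ K ∨ v ∈ S ∨ v ∈ U) ∧ Disjoint K S ∧ Disjoint K U ∧ Disjoint S U ∧
    Conn G S ∧ Conn G U ∧ AdjS G S U ∧ AdjS G K S ∧ AdjS G K U

/-- `κ` contracts the triangulation `T0` to the triangulation `T` (connected fibres; faces of `T` = images of faces of
`T0` with three distinct images) -/
def Clus {V₀ V : Type} (T₀ : Tri V₀) (T : Tri V) (κ : V₀ → V) : Prop :=
  (∀ v, Conn T₀.G (κ ⁻¹' {v})) ∧
    ∀ a b c, T.F a b c ↔ (a ≠ b ∧ b ≠ c ∧ a ≠ c ∧ ∃ a₀ b₀ c₀, κ a₀ = a ∧ κ b₀ = b ∧ κ c₀ = c ∧ T₀.F a₀ b₀ c₀)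

/-- relative to the fine triangulation `T₀`: the block `A` (a set of vertices of the coarse triangulation `T`)
can be levelled with at most `c` heights, for every split -/
def CapSet {V₀ V : Type} (T₀ : Tri V₀) (T : Tri V) (κ : V₀ → V) (A : Set V) (c : ℕ) : Prop :=
  ∀ S U : Set V, Split T.G A S U → ∃ h : V₀ → ℝ,
    Valid T₀.G (κ ⁻¹' S) (κ ⁻¹' U) (κ ⁻¹' A) h ∧ (h '' (κ ⁻¹' A)).ncard ≤ c

/-- twice the signed area of the triangle `a b c` -/
def crs (a b c : ℝ × ℝ) : ℝ := (b.1 - a.1) * (c.2 - a.2) - (b.2 - a.2) * (c.1 - a.1)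

/-- `(a,b,c)` is a rotation of `(o₁,o₂,o₃)` -/
def IsRot {V : Type} (o₁ o₂ o₃ a b c : V) : Prop :=
  (a = o₁ ∧ b = o₂ ∧ c = o₃) ∨ (a = o₂ ∧ b = o₃ ∧ c = o₁) ∨ (a = o₃ ∧ b = o₁ ∧ c = o₂)

/-- straight-line drawing: the outer face `(o₁,o₂,o₃)` is clockwise, all other faces are counterclockwise -/
def Drawn {V : Type} (T : Tri V) (o₁ o₂ o₃ : V) (p : V → ℝ × ℝ) : Prop :=
  T.F o₁ o₂ o₃ ∧ crs (p o₁) (p o₂) (p o₃) < 0 ∧
    ∀ a b c, T.F a b c → ¬ IsRot o₁ o₂ o₃ a b c → 0 < crs (p a) (p b) (p c)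

/-- crossing-free straight-line drawing of the graph `G` (as in the problem statement) -/
def Plane {V : Type} (G : SimpleGraph V) (p : V → ℝ × ℝ) : Prop :=
  Function.Injective p ∧
    (∀ u v w : V, G.Adj u v → w ≠ u → w ≠ v → p w ∉ segment ℝ (p u) (p v)) ∧
    (∀ u v x y : V, G.Adj u v → G.Adj x y → s(u, v) ≠ s(x, y) →
      ∀ z ∈ segment ℝ (p u) (p v), z ∈ segment ℝ (p x) (p y) →
        ∃ w : V, (w = u ∨ w = v) ∧ (w = x ∨ w = y) ∧ z = p w)

end Pool.Agent.H891WLC
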