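import Pool.Agent.H891WLC.Defs
import Pool.Agent.H891WLC.D_nrm
import Pool.Agent.H891WLC.tri_conn3
import Pool.Agent.H891WLC.CLUS_ADJ
import Pool.Agent.H891WLC.CLUS_CONN
import Pool.Agent.H891WLC.FLOW
import Pool.Agent.H891WLC.DRAWN_BAL

set_option autoImplicit false

namespace Pool.Agent.H891WLC

namespace W_F1

/-- the good conditions other than the tangential total -/
def Good {V₀ V : Type} [Fintype V₀] [DecidableEq V] (T₀ : Tri V₀) (κ : V₀ → V) (a : V) (h : V₀ → ℝ)
    (ν : V → ℝ) (w : V₀ → V₀ → ℝ) : Prop :=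
  (∀ v u, κ v = a → κ u = a → w v u = w u v) ∧
      (∀ v u, κ v = a → T₀.G.Adj v u → 0 < w v u) ∧ (∀ v u, ¬ T₀.G.Adj v u → w v u = 0) ∧
      (∀ v, κ v = a → ∑ u, (if κ u = a then w v u * (h u - h v)
        else w v u * (ν (κ u) / |ν (κ u)|)) = 0)

/-- tangential total -/
noncomputable def Tot {V₀ V : Type} [Fintype V₀] [DecidableEq V] (κ : V₀ → V) (a : V)
    (ν τ : V → ℝ) (w : V₀ → V₀ → ℝ) : ℝ :=
  ∑ v ∈ Finset.univ.filter (fun v => κ v = a), ∑ u ∈ Finset.univ.filter (fun u => κ u ≠ a),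
        w v u * (τ (κ u) / |ν (κ u)|)

lemma step {V₀ V : Type} [Fintype V₀] [DecidableEq V] (T₀ : Tri V₀) (κ : V₀ → V) (a : V) (h : V₀ → ℝ)
    (ν τ : V → ℝ) (w : V₀ → V₀ → ℝ) (hw : Good T₀ κ a h ν w) (b c : V) (hab : a ≠ b) (hbc : b ≠ c) (hac : a ≠ c)
    (l u1 u2 : V₀) (hl : κ l = a) (hu1 : κ u1 = b) (hu2 : κ u2 = c) (hf : T₀.F l u1 u2)
    (hbal : ν b / |ν b| + ν c / |ν c| = 0) (s : ℝ) (hs : 0 ≤ s) :
    ∃ w', Good T₀ κ a h ν w' ∧ Tot κ a ν τ w' = Tot κ a ν τ w + s * (τ b / |ν b| + τ c / |ν c|) := by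
  classical
  have hne12 : u1 ≠ u2 := by
    intro h12
    apply hbc
    rw [← hu1, ← hu2, h12]
  have hadj1 : T₀.G.Adj l u1 := ⟨u2, hf⟩
  have hadj2 : T₀.G.Adj l u2 := (SimpleGraph.Adj.symm (G := T₀.G) (show T₀.G.Adj u2 l from ⟨u1, T₀.rot _ _ _ (T₀.rot _ _ _ hf)⟩))
  obtain ⟨hs1, hs2, hs3, hs4⟩ := hw
  refine ⟨fun v u => w v u + (if v = l then ((if u = u1 then s else 0) + (if u = u2 then s else 0)) else 0), ⟨?_, ?_, ?_, ?_⟩, ?_⟩
  · intro v u hv hu
    have e1 : u ≠ u1 := by rintro rfl; exact hab (hu.symm.trans hu1)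
    have e2 : u ≠ u2 := by rintro rfl; exact hac (hu.symm.trans hu2)
    have e3 : v ≠ u1 := by rintro rfl; exact hab (hv.symm.trans hu1)
    have e4 : v ≠ u2 := by rintro rfl; exact hac (hv.symm.trans hu2)
    simp only [e1, e2, e3, e4, if_false, add_zero, ite_self]
    exact hs1 v u hv hu
  · intro v u hv hadj
    have := hs2 v u hv hadj
    have h0 : 0 ≤ (if v = l then ((if u = u1 then s else 0) + (if u = u2 then s else 0)) else 0) := by
      split_ifs <;> simp [hs]
    dsimp only
    linarith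
  · intro v u hadj
    have := hs3 v u hadj
    dsimp only
    rw [this, zero_add]
    split_ifs with hv h1 h2 h2
    · exact absurd (h1.symm.trans h2) hne12
    · exact absurd (by rw [hv, h1]; exact hadj1) hadj
    · exact absurd (by rw [hv, h2]; exact hadj2) hadj
    · simp
    · rfl
  · intro v hv
    have hb := hs4 v hv
    have key : ∀ u, (if κ u = a then (w v u + (if v = l then ((if u = u1 then s else 0) + (if u = u2 then s else 0)) else 0)) * (h u - h v)
        else (w v u + (if v = l then ((if u = u1 then s else 0) + (if u = u2 then s else 0)) else 0)) * (ν (κ u) / |ν (κ u)|))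
        = (if κ u = a then w v u * (h u - h v) else w v u * (ν (κ u) / |ν (κ u)|))
          + ((if u = u1 then (if v = l then s * (ν b / |ν b|) else 0) else 0)
            + (if u = u2 then (if v = l then s * (ν c / |ν c|) else 0) else 0)) := by
      intro u
      by_cases h1 : u = u1
      · subst h1
        have e1 : κ u ≠ a := fun hh => hab (hh.symm.trans hu1)
        have e1' : b ≠ a := hab.symm
        simp only [e1', if_false, if_true, hne12, hu1, add_zero]
        split_ifs <;> ring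
      · by_cases h2 : u = u2
        · subst h2
          have e1 : κ u ≠ a := fun hh => hac (hh.symm.trans hu2)
          have e1' : c ≠ a := hac.symm
          simp only [e1', if_false, if_true, h1, hu2, zero_add]
          split_ifs <;> ring
        · simp only [h1, h2, if_false, add_zero, ite_self]
    dsimp only
    rw [Finset.sum_congr rfl (fun u _ => key u), Finset.sum_add_distrib, hb, zero_add, Finset.sum_add_distrib,
      Finset.sum_ite_eq', Finset.sum_ite_eq']
    simp only [Finset.mem_univ, if_true]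
    split_ifs
    · rw [← mul_add, hbal, mul_zero]
    · simp
  · unfold Tot
    have key : ∀ v ∈ Finset.univ.filter (fun v => κ v = a), ∑ u ∈ Finset.univ.filter (fun u => κ u ≠ a),
        (w v u + (if v = l then ((if u = u1 then s else 0) + (if u = u2 then s else 0)) else 0)) * (τ (κ u) / |ν (κ u)|)
        = (∑ u ∈ Finset.univ.filter (fun u => κ u ≠ a), w v u * (τ (κ u) / |ν (κ u)|))
          + (if v = l then s * (τ b / |ν b| + τ c / |ν c|) else 0) := by
      intro v hv
      have key2 : ∀ u, (w v u + (if v = l then ((if u = u1 then s else 0) + (if u = u2 then s else 0)) else 0)) * (τ (κ u) / |ν (κ u)|)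
        = w v u * (τ (κ u) / |ν (κ u)|) + ((if u = u1 then (if v = l then s * (τ b / |ν b|) else 0) else 0)
            + (if u = u2 then (if v = l then s * (τ c / |ν c|) else 0) else 0)) := by
        intro u
        by_cases h1 : u = u1
        · subst h1
          simp only [if_true, hne12, hu1, if_false, add_zero]
          split_ifs <;> ring
        · by_cases h2 : u = u2
          · subst h2
            simp only [if_false, if_true, h1, hu2, zero_add]
            split_ifs <;> ring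
          · simp only [h1, h2, if_false, add_zero, ite_self]
      rw [Finset.sum_congr rfl (fun u _ => key2 u), Finset.sum_add_distrib, Finset.sum_add_distrib,
        Finset.sum_ite_eq', Finset.sum_ite_eq']
      have m1 : u1 ∈ Finset.univ.filter (fun u => κ u ≠ a) := by
        simp only [Finset.mem_filter, Finset.mem_univ, true_and]
        rw [hu1]; exact hab.symm
      have m2 : u2 ∈ Finset.univ.filter (fun u => κ u ≠ a) := by
        simp only [Finset.mem_filter, Finset.mem_univ, true_and]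
        rw [hu2]; exact hac.symm
      rw [if_pos m1, if_pos m2]
      split_ifs
      · ring
      · ring
    rw [Finset.sum_congr rfl key, Finset.sum_add_distrib, Finset.sum_ite_eq']
    rw [if_pos (by simp only [Finset.mem_filter, Finset.mem_univ, true_and]; exact hl)]

lemma sgnch {V : Type} (R : V → V → Prop) (ν : V → ℝ) (hν : ∀ x y, R x y → ν x ≠ 0 ∧ ν y ≠ 0) (x y : V)
    (hxy : Relation.ReflTransGen R x y) (hx : 0 < ν x) (hy : ν y < 0) :
    ∃ p q, R p q ∧ 0 < ν p ∧ ν q < 0 := by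
  induction hxy with
  | refl => exact absurd hx (not_lt.mpr hy.le)
  | tail hab hbc ih =>
    rename_i p q
    rcases lt_or_gt_of_ne (hν _ _ hbc).1 with h | h
    · exact ih h
    · exact ⟨_, _, hbc, h, hy⟩

end W_F1

open W_F1 in
theorem F1 {V₀ V : Type} [Fintype V₀] [Fintype V] [DecidableEq V] (T₀ : Tri V₀) (T : Tri V) (κ : V₀ → V)
    (hc : Clus T₀ T κ) (o₁ o₂ o₃ : V) (P : V → ℝ × ℝ) (hd : Drawn T o₁ o₂ o₃ P) (a : V)
    (h1 : a ≠ o₁) (h2 : a ≠ o₂) (h3 : a ≠ o₃) (n : ℝ × ℝ) (hn : n.1 ≠ 0 ∨ n.2 ≠ 0)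
    (hgen : ∀ b, T.G.Adj a b → nrm n (P a) (P b) ≠ 0) (h : V₀ → ℝ)
    (hval : ∀ v, κ v = a →
      (∃ u, T₀.G.Adj v u ∧ ((κ u = a ∧ h u < h v) ∨ (κ u ≠ a ∧ nrm n (P a) (P (κ u)) < 0))) ∧
      (∃ u, T₀.G.Adj v u ∧ ((κ u = a ∧ h v < h u) ∨ (κ u ≠ a ∧ 0 < nrm n (P a) (P (κ u)))))) :
    ∃ w : V₀ → V₀ → ℝ, (∀ v u, κ v = a → κ u = a → w v u = w u v) ∧
      (∀ v u, κ v = a → T₀.G.Adj v u → 0 < w v u) ∧ (∀ v u, ¬ T₀.G.Adj v u → w v u = 0) ∧
      (∀ v, κ v = a → ∑ u, (if κ u = a then w v u * (h u - h v)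
        else w v u * (nrm n (P a) (P (κ u)) / |nrm n (P a) (P (κ u))|)) = 0) ∧
      (∑ v ∈ Finset.univ.filter (fun v => κ v = a), ∑ u ∈ Finset.univ.filter (fun u => κ u ≠ a),
        w v u * (tng n (P a) (P (κ u)) / |nrm n (P a) (P (κ u))|)) = 0 := by
  classical
  set ν : V → ℝ := fun b => nrm n (P a) (P b) with hνdef
  set τ : V → ℝ := fun b => tng n (P a) (P b) with hτdef
  -- bound
  obtain ⟨B, hB⟩ : ∃ B : ℝ, ∀ v, |h v| < B := by
    refine ⟨(∑ v, |h v|) + 1, fun v => ?_⟩
    have := Finset.single_le_sum (f := fun v => |h v|) (fun i _ => abs_nonneg (h i)) (Finset.mem_univ v)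
    linarith
  have hBl : ∀ v, -B < h v := fun v => (abs_lt.mp (hB v)).1
  have hBu : ∀ v, h v < B := fun v => (abs_lt.mp (hB v)).2
  set H : V₀ → ℝ := fun u => if κ u = a then h u else if 0 < ν (κ u) then B else -B with hHdef
  obtain ⟨w0, hsym, hpos, hzero, hbal⟩ := FLOW T₀.G {v | κ v = a} H (by
    intro k hk
    have hk' : κ k = a := hk
    obtain ⟨⟨u, hu, hu'⟩, ⟨u2, hu2, hu2'⟩⟩ := hval k hk'
    have hHk : H k = h k := by simp only [hHdef, hk', if_true]
    refine ⟨⟨u, hu, ?_⟩, ⟨u2, hu2, ?_⟩⟩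
    · rw [hHk]
      rcases hu' with ⟨e, hlt⟩ | ⟨e, hlt⟩
      · simp only [hHdef, e, if_true]; exact hlt
      · have : ¬ (0 < ν (κ u)) := not_lt.mpr (le_of_lt hlt)
        simp only [hHdef, e, if_false, this]
        exact hBl k
    · rw [hHk]
      rcases hu2' with ⟨e, hlt⟩ | ⟨e, hlt⟩
      · simp only [hHdef, e, if_true]; exact hlt
      · have : (0 < ν (κ u2)) := hlt
        simp only [hHdef, e, if_false, this, if_true]
        exact hBu k)
  have hνne : ∀ v u, κ v = a → κ u ≠ a → T₀.G.Adj v u → ν (κ u) ≠ 0 := by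
    intro v u hv hu hadj
    apply hgen
    rw [CLUS_ADJ T₀ T κ hc]
    exact ⟨fun hh => hu hh.symm, v, u, hv, rfl, hadj⟩
  set W : V₀ → V₀ → ℝ := fun v u => if κ u = a then w0 v u else w0 v u * |H u - H v| with hWdef
  have hgood : Good T₀ κ a h ν W := by
    refine ⟨?_, ?_, ?_, ?_⟩
    · intro v u hv hu
      simp only [hWdef, hv, hu, if_true]
      exact hsym v u
    · intro v u hv hadj
      have hp := hpos v u hadj
      by_cases hu : κ u = a
      · simp only [hWdef, hu, if_true]; exact hp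
      · simp only [hWdef, hu, if_false]
        refine mul_pos hp (abs_pos.mpr ?_)
        have hHv : H v = h v := by simp only [hHdef, hv, if_true]
        rw [hHv]
        simp only [hHdef, hu, if_false]
        split_ifs
        · have := hBu v; intro h0; linarith
        · have := hBl v; intro h0; linarith
    · intro v u hadj
      simp only [hWdef, hzero v u hadj, zero_mul, ite_self]
    · intro v hv
      have hb := hbal v hv
      have hHv : H v = h v := by simp only [hHdef, hv, if_true]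
      rw [← hb]
      refine Finset.sum_congr rfl (fun u _ => ?_)
      by_cases hu : κ u = a
      · have hHu : H u = h u := by simp only [hHdef, hu, if_true]
        simp only [hWdef, hu, if_true, hHv, hHu]
      · simp only [hWdef, hu, if_false]
        by_cases hadj : T₀.G.Adj v u
        · rcases lt_or_gt_of_ne (hνne v u hv hu hadj) with hneg | hps
          · have hHu : H u = -B := by
              have : ¬ (0 < ν (κ u)) := not_lt.mpr (le_of_lt hneg)
              simp only [hHdef, hu, if_false, this]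
            have hlt : H u - H v < 0 := by
              rw [hHu, hHv]; have := hBl v; linarith
            rw [abs_of_neg hlt, abs_of_neg hneg, div_neg, div_self hneg.ne]
            ring
          · have hHu : H u = B := by
              have : (0 < ν (κ u)) := hps
              simp only [hHdef, hu, if_false, this, if_true]
            have hlt : 0 < H u - H v := by
              rw [hHu, hHv]; have := hBu v; linarith
            have hps' : 0 < ν (κ u) := hps
            rw [abs_of_pos hlt, abs_of_pos hps', div_self hps'.ne']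
            ring
        · rw [hzero v u hadj]; simp
  -- neighbours with signs
  have hnn : 0 < n.1 ^ 2 + n.2 ^ 2 := by
    rcases hn with hh | hh
    · have := sq_pos_of_ne_zero hh; nlinarith [sq_nonneg n.2]
    · have := sq_pos_of_ne_zero hh; nlinarith [sq_nonneg n.1]
  obtain ⟨x, hx, hxp⟩ := DRAWN_BAL T o₁ o₂ o₃ P hd a h1 h2 h3 n.1 n.2 hn
  obtain ⟨y, hy, hyp⟩ := DRAWN_BAL T o₁ o₂ o₃ P hd a h1 h2 h3 (-n.1) (-n.2)
    (by rcases hn with hh | hh
        · left; exact neg_ne_zero.mpr hh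
        · right; exact neg_ne_zero.mpr hh)
  have hxν : 0 < ν x := by simp only [hνdef, nrm]; linarith
  have hyν : ν y < 0 := by simp only [hνdef, nrm]; linarith
  obtain ⟨x', hx'⟩ := hx
  obtain ⟨y', hy'⟩ := hy
  have hadjF : ∀ p q, T.F a p q → ν p ≠ 0 ∧ ν q ≠ 0 := by
    intro p q hpq
    refine ⟨hgen p ⟨q, hpq⟩, hgen q (SimpleGraph.Adj.symm (G := T.G) (show T.G.Adj q a from ⟨p, T.rot _ _ _ (T.rot _ _ _ hpq)⟩))⟩
  have hxy := T.link a x x' y y' hx' hy'
  have hyx := T.link a y y' x x' hy' hx'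
  obtain ⟨b, c, hbc, hb, hcν⟩ := sgnch (fun x y => T.F a x y) ν hadjF x y hxy hxν hyν
  obtain ⟨b', c', hbc', hb', hcν'⟩ := sgnch (fun x y => T.F a x y) (fun v => - ν v)
    (fun p q hpq => ⟨neg_ne_zero.mpr (hadjF p q hpq).1, neg_ne_zero.mpr (hadjF p q hpq).2⟩) y x hyx (by linarith) (by linarith)
  have hb'' : ν b' < 0 := by linarith
  have hcν'' : 0 < ν c' := by linarith
  have hcrs : ∀ p q, T.F a p q → 0 < ν p * τ q - τ p * ν q := by
    intro p q hpq
    have hnr : ¬ IsRot o₁ o₂ o₃ a p q := by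
      rintro (⟨e, -⟩ | ⟨e, -⟩ | ⟨e, -⟩)
      · exact h1 e
      · exact h2 e
      · exact h3 e
    have hcr := hd.2.2 a p q hpq hnr
    have : ν p * τ q - τ p * ν q = (n.1 ^ 2 + n.2 ^ 2) * crs (P a) (P p) (P q) := by
      simp only [hνdef, hτdef, nrm, tng, crs]; ring
    rw [this]
    exact mul_pos hnn hcr
  have hA : 0 < τ b / |ν b| + τ c / |ν c| := by
    have := hcrs b c hbc
    rw [abs_of_pos hb, abs_of_neg hcν]
    have hm : 0 < ν b * (- ν c) := mul_pos hb (by linarith)
    have e : τ b / ν b + τ c / -ν c = (ν b * τ c - τ b * ν c) / (ν b * (- ν c)) := by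
      have h1 : ν b ≠ 0 := hb.ne'
      have h2 : ν c ≠ 0 := hcν.ne
      field_simp
      ring
    rw [e]
    exact div_pos this hm
  have hA' : τ b' / |ν b'| + τ c' / |ν c'| < 0 := by
    have := hcrs b' c' hbc'
    rw [abs_of_neg hb'', abs_of_pos hcν'']
    have hm : 0 < (- ν b') * ν c' := mul_pos (by linarith) hcν''
    have e : τ b' / - ν b' + τ c' / ν c' = - ((ν b' * τ c' - τ b' * ν c') / ((- ν b') * ν c')) := by
      have h1 : ν b' ≠ 0 := hb''.ne
      have h2 : ν c' ≠ 0 := hcν''.ne'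
      field_simp
      ring
    rw [e]
    have := div_pos this hm
    linarith
  obtain ⟨nab, nbc, nac, l, u1, u2, hl, hu1, hu2, hf⟩ := (hc.2 a b c).mp hbc
  obtain ⟨nab', nbc', nac', l', u1', u2', hl', hu1', hu2', hf'⟩ := (hc.2 a b' c').mp hbc'
  have hfin : ∃ w, Good T₀ κ a h ν w ∧ Tot κ a ν τ w = 0 := by
    rcases le_total (Tot κ a ν τ W) 0 with hF | hF
    · obtain ⟨w, hw, ht⟩ := step T₀ κ a h ν τ W hgood b c nab nbc nac l u1 u2 hl hu1 hu2 hf
        (by rw [abs_of_pos hb, abs_of_neg hcν, div_neg, div_self hb.ne', div_self hcν.ne]; ring)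
        (-(Tot κ a ν τ W) / (τ b / |ν b| + τ c / |ν c|)) (div_nonneg (by linarith) hA.le)
      refine ⟨w, hw, ?_⟩
      rw [ht, div_mul_cancel₀ _ hA.ne']; ring
    · obtain ⟨w, hw, ht⟩ := step T₀ κ a h ν τ W hgood b' c' nab' nbc' nac' l' u1' u2' hl' hu1' hu2' hf'
        (by rw [abs_of_neg hb'', abs_of_pos hcν'', div_neg, div_self hb''.ne, div_self hcν''.ne']; ring)
        (-(Tot κ a ν τ W) / (τ b' / |ν b'| + τ c' / |ν c'|)) (div_nonneg_of_nonpos (by linarith) hA'.le)
      refine ⟨w, hw, ?_⟩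
      rw [ht, div_mul_cancel₀ _ hA'.ne]; ring
  obtain ⟨w, ⟨g1, g2, g3, g4⟩, ht⟩ := hfin
  exact ⟨w, g1, g2, g3, g4, ht⟩


end Pool.Agent.H891WLC
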