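import Pool.Agent.H891WLC.Defs
import Pool.Agent.H891WLC.tri_conn3
import Pool.Agent.H891WLC.DRAWN_BAL

set_option autoImplicit false

namespace Pool.Agent.H891WLC

namespace W_HALF

theorem reach352 {V : Type} [Finite V] (T : Tri V) (o₁ o₂ o₃ : V) (φ : V → ℝ) (c : ℝ)
    (hdn : ∀ v, v ≠ o₁ → v ≠ o₂ → v ≠ o₃ → ∃ u, T.G.Adj v u ∧ φ u < φ v) :
    ∀ (n : ℕ) (v : V), Set.ncard {u | φ u < φ v} = n → φ v < c →
      ∃ o, (o = o₁ ∨ o = o₂ ∨ o = o₃) ∧ φ o < c ∧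
        Relation.ReflTransGen (fun x y => T.G.Adj x y ∧ y ∈ {v | φ v < c}) v o ∧
        Relation.ReflTransGen (fun x y => T.G.Adj x y ∧ y ∈ {v | φ v < c}) o v := by
  intro n
  induction n using Nat.strong_induction_on with
  | _ n ih =>
    intro v hn hv
    by_cases h1 : v = o₁
    · exact ⟨v, Or.inl h1, hv, Relation.ReflTransGen.refl, Relation.ReflTransGen.refl⟩
    by_cases h2 : v = o₂
    · exact ⟨v, Or.inr (Or.inl h2), hv, Relation.ReflTransGen.refl, Relation.ReflTransGen.refl⟩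
    by_cases h3 : v = o₃
    · exact ⟨v, Or.inr (Or.inr h3), hv, Relation.ReflTransGen.refl, Relation.ReflTransGen.refl⟩
    obtain ⟨u, huv, hlt⟩ := hdn v h1 h2 h3
    have hu : φ u < c := lt_trans hlt hv
    have hcard : Set.ncard {w | φ w < φ u} < n := by
      rw [← hn]
      apply Set.ncard_lt_ncard _ (Set.toFinite _)
      have hsub : {w | φ w < φ u} ⊆ {w | φ w < φ v} := fun w hw => lt_trans hw hlt
      rw [Set.ssubset_iff_of_subset hsub]
      exact ⟨u, hlt, lt_irrefl (φ u)⟩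
    obtain ⟨o, ho, hoc, hp, hq⟩ := ih _ hcard u rfl hu
    exact ⟨o, ho, hoc, Relation.ReflTransGen.head ⟨huv, hu⟩ hp,
      Relation.ReflTransGen.tail hq ⟨huv.symm, hv⟩⟩

end W_HALF

open W_HALF in
theorem HALF {V : Type} [Finite V] (T : Tri V) (o₁ o₂ o₃ : V) (p : V → ℝ × ℝ) (hd : Drawn T o₁ o₂ o₃ p)
    (α β c : ℝ) (hαβ : α ≠ 0 ∨ β ≠ 0) (hne : ∃ v, α * (p v).1 + β * (p v).2 < c) :
    Conn T.G {v | α * (p v).1 + β * (p v).2 < c} := by
  have hdn : ∀ v, v ≠ o₁ → v ≠ o₂ → v ≠ o₃ → ∃ u, T.G.Adj v u ∧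
      (fun v => α * (p v).1 + β * (p v).2) u < (fun v => α * (p v).1 + β * (p v).2) v := by
    intro v h1 h2 h3
    have hab : -α ≠ 0 ∨ -β ≠ 0 := by
      rcases hαβ with h | h
      · left; exact neg_ne_zero.2 h
      · right; exact neg_ne_zero.2 h
    obtain ⟨u, hu, hpos⟩ := DRAWN_BAL T o₁ o₂ o₃ p hd v h1 h2 h3 (-α) (-β) hab
    refine ⟨u, hu, ?_⟩
    show α * (p u).1 + β * (p u).2 < α * (p v).1 + β * (p v).2
    nlinarith
  have h12 : T.G.Adj o₁ o₂ := ⟨o₃, hd.1⟩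
  have h23 : T.G.Adj o₂ o₃ := ⟨o₁, T.rot _ _ _ hd.1⟩
  have h31 : T.G.Adj o₃ o₁ := ⟨o₂, T.rot _ _ _ (T.rot _ _ _ hd.1)⟩
  refine ⟨hne, ?_⟩
  intro u hu v hv
  obtain ⟨a, ha, hac, hua, hau⟩ :=
    reach352 T o₁ o₂ o₃ (fun v => α * (p v).1 + β * (p v).2) c hdn _ u rfl hu
  obtain ⟨b, hb, hbc, hvb, hbv⟩ :=
    reach352 T o₁ o₂ o₃ (fun v => α * (p v).1 + β * (p v).2) c hdn _ v rfl hv
  have hab : a = b ∨ T.G.Adj a b := by
    rcases ha with rfl | rfl | rfl <;> rcases hb with rfl | rfl | rfl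
    · exact Or.inl rfl
    · exact Or.inr h12
    · exact Or.inr h31.symm
    · exact Or.inr h12.symm
    · exact Or.inl rfl
    · exact Or.inr h23
    · exact Or.inr h31
    · exact Or.inr h23.symm
    · exact Or.inl rfl
  rcases hab with rfl | hab
  · exact hua.trans hbv
  · exact (Relation.ReflTransGen.tail hua ⟨hab, hbc⟩).trans hbv


end Pool.Agent.H891WLC
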