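import Pool.Agent.H891WLC.Defs
import Pool.Agent.H891WLC.D_nrm
import Pool.Agent.H891WLC.tri_conn3
import Pool.Agent.H891WLC.DRAWN_BAL
import Pool.Agent.H891WLC.HALF

set_option autoImplicit false

namespace Pool.Agent.H891WLC

namespace W_GENSPLIT

theorem cross_edge {V : Type} (T : Tri V) (a : V) (f : V → ℝ) (hf : ∀ b, b ≠ a → f b ≠ 0) {x y : V}
    (hx : f x < 0) (h : Relation.ReflTransGen (fun x y => T.F a x y) x y) (hy : 0 < f y) :
    ∃ s u, T.F a s u ∧ f s < 0 ∧ 0 < f u := by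
  induction h with
  | refl => exact absurd hx (not_lt.mpr hy.le)
  | tail hab hbc ih =>
    rename_i b c
    rcases lt_trichotomy (f b) 0 with h1 | h1 | h1
    · exact ⟨b, c, hbc, h1, hy⟩
    · exact absurd h1 (hf b (T.ne _ _ _ hbc).symm)
    · exact ih h1

end W_GENSPLIT

open W_GENSPLIT in
theorem GENSPLIT {V : Type} [Finite V] (T : Tri V) (o₁ o₂ o₃ : V) (P : V → ℝ × ℝ) (hd : Drawn T o₁ o₂ o₃ P) (a : V)
    (h1 : a ≠ o₁) (h2 : a ≠ o₂) (h3 : a ≠ o₃) (n : ℝ × ℝ) (hn : n.1 ≠ 0 ∨ n.2 ≠ 0)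
    (hgen : ∀ b, b ≠ a → nrm n (P a) (P b) ≠ 0) :
    Split T.G {a} {b | nrm n (P a) (P b) < 0} {b | 0 < nrm n (P a) (P b)} := by
  obtain ⟨u, hu, hupos⟩ := DRAWN_BAL T o₁ o₂ o₃ P hd a h1 h2 h3 n.1 n.2 hn
  obtain ⟨s, hs, hsneg⟩ := DRAWN_BAL T o₁ o₂ o₃ P hd a h1 h2 h3 (-n.1) (-n.2)
    (by simpa using hn)
  have hu' : 0 < nrm n (P a) (P u) := hupos
  have hs' : nrm n (P a) (P s) < 0 := by unfold nrm; linarith
  have haa : nrm n (P a) (P a) = 0 := by unfold nrm; ring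
  have eS : {b | nrm n (P a) (P b) < 0} =
      {v | n.1 * (P v).1 + n.2 * (P v).2 < n.1 * (P a).1 + n.2 * (P a).2} := by
    ext v
    show nrm n (P a) (P v) < 0 ↔ n.1 * (P v).1 + n.2 * (P v).2 < n.1 * (P a).1 + n.2 * (P a).2
    unfold nrm
    constructor <;> intro h <;> linarith
  have eU : {b | 0 < nrm n (P a) (P b)} =
      {v | -n.1 * (P v).1 + -n.2 * (P v).2 < -n.1 * (P a).1 + -n.2 * (P a).2} := by
    ext v
    show 0 < nrm n (P a) (P v) ↔ -n.1 * (P v).1 + -n.2 * (P v).2 < -n.1 * (P a).1 + -n.2 * (P a).2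
    unfold nrm
    constructor <;> intro h <;> linarith
  refine ⟨?_, ?_, ?_, ?_, ?_, ?_, ?_, ?_, ?_⟩
  · intro v
    by_cases hv : v = a
    · left; exact hv
    · rcases lt_or_gt_of_ne (hgen v hv) with h | h
      · right; left; exact h
      · right; right; exact h
  · rw [Set.disjoint_left]
    intro x hx hx'
    have hx : x = a := hx
    have hx' : nrm n (P a) (P x) < 0 := hx'
    rw [hx, haa] at hx'
    exact lt_irrefl _ hx'
  · rw [Set.disjoint_left]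
    intro x hx hx'
    have hx : x = a := hx
    have hx' : 0 < nrm n (P a) (P x) := hx'
    rw [hx, haa] at hx'
    exact lt_irrefl _ hx'
  · rw [Set.disjoint_left]
    intro x hx hx'
    have hx : nrm n (P a) (P x) < 0 := hx
    have hx' : 0 < nrm n (P a) (P x) := hx'
    exact lt_irrefl _ (hx.trans hx')
  · rw [eS]
    refine HALF T o₁ o₂ o₃ P hd _ _ _ hn ⟨s, ?_⟩
    have : s ∈ {b | nrm n (P a) (P b) < 0} := hs'
    rw [eS] at this
    exact this
  · rw [eU]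
    refine HALF T o₁ o₂ o₃ P hd _ _ _ (by simpa using hn) ⟨u, ?_⟩
    have : u ∈ {b | 0 < nrm n (P a) (P b)} := hu'
    rw [eU] at this
    exact this
  · obtain ⟨u1, hu1⟩ := hu
    obtain ⟨s1, hs1⟩ := hs
    have hl := T.link a s s1 u u1 hs1 hu1
    obtain ⟨x, y, hxy, hx, hy⟩ := cross_edge T a (fun b => nrm n (P a) (P b)) hgen hs' hl hu'
    exact ⟨x, hx, y, hy, a, T.rot _ _ _ hxy⟩
  · exact ⟨a, rfl, s, hs', hs⟩
  · exact ⟨a, rfl, u, hu', hu⟩


end Pool.Agent.H891WLC
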