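import Pool.Agent.H891WLC.Defs

set_option autoImplicit false

namespace Pool.Agent.H891WLC

namespace W_FPT

end W_FPT

open W_FPT in
theorem FPT {ι : Type} [Fintype ι] (L : (ι → ℝ) →ₗ[ℝ] (ι → ℝ)) (hL : Function.Injective L) (g : ℝ → (ι → ℝ) → (ι → ℝ))
    (g₀ : ι → ℝ) (hg0 : ∀ t, g 0 t = g₀)
    (hlip : ∀ R : ℝ, ∃ C δ₁ : ℝ, 0 < δ₁ ∧ ∀ δ, 0 < δ → δ < δ₁ → ∀ t t' : ι → ℝ, ‖t‖ ≤ R → ‖t'‖ ≤ R →
      ‖g δ t - g δ t'‖ ≤ C * δ * ‖t - t'‖ ∧ ‖g δ t - g₀‖ ≤ C * δ) :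
    ∃ t₀ : ι → ℝ, L t₀ + g₀ = 0 ∧ ∀ ε > 0, ∃ δ₀ > 0, ∀ δ, 0 < δ → δ < δ₀ →
      ∃ t : ι → ℝ, L t + g δ t = 0 ∧ ‖t - t₀‖ < ε := by
  obtain ⟨M, hM1⟩ : ∃ M : (ι → ℝ) →L[ℝ] (ι → ℝ), ∀ y, L (M y) = y := by
    refine ⟨((LinearEquiv.ofInjectiveEndo L hL).symm.toContinuousLinearEquiv :
      (ι → ℝ) →L[ℝ] (ι → ℝ)), ?_⟩
    intro y
    have h := (LinearEquiv.ofInjectiveEndo L hL).apply_symm_apply y
    rw [LinearEquiv.coe_ofInjectiveEndo] at h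
    exact h
  refine ⟨-M g₀, by rw [map_neg, hM1]; simp, ?_⟩
  intro ε hε
  obtain ⟨C, δ₁, hδ₁, hC⟩ := hlip (‖-M g₀‖ + 1)
  obtain ⟨C', hC'⟩ : ∃ C', C' = max C 0 := ⟨_, rfl⟩
  have hC'0 : 0 ≤ C' := by rw [hC']; exact le_max_right _ _
  have hCC' : C ≤ C' := by rw [hC']; exact le_max_left _ _
  obtain ⟨e, he⟩ : ∃ e, e = min ε 1 / 2 := ⟨_, rfl⟩
  have hmin : 0 < min ε 1 := lt_min hε one_pos
  have he0 : 0 < e := by rw [he]; positivity
  have he1 : e ≤ 1 / 2 := by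
    rw [he]
    have := min_le_right ε 1
    linarith
  have heε : e < ε := by
    rw [he]
    have := min_le_left ε 1
    linarith
  have hA : 0 ≤ ‖M‖ := norm_nonneg M
  refine ⟨min δ₁ (e / (‖M‖ * C' + 1)), lt_min hδ₁ (by positivity), ?_⟩
  intro δ hδ0 hδ
  have hδa : δ < δ₁ := lt_of_lt_of_le hδ (min_le_left _ _)
  have hδb : δ < e / (‖M‖ * C' + 1) := lt_of_lt_of_le hδ (min_le_right _ _)
  have hkey : ‖M‖ * C' * δ ≤ e := by
    rw [lt_div_iff₀ (by positivity)] at hδb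
    nlinarith
  have hB := hC δ hδ0 hδa
  obtain ⟨s, hs⟩ : ∃ s, s = Metric.closedBall (-M g₀) e := ⟨_, rfl⟩
  have hsR : ∀ t ∈ s, ‖t‖ ≤ ‖-M g₀‖ + 1 := by
    intro t ht
    rw [hs, Metric.mem_closedBall, dist_eq_norm] at ht
    have h1 : ‖t‖ ≤ ‖t - -M g₀‖ + ‖-M g₀‖ := by
      have := norm_add_le (t - -M g₀) (-M g₀)
      rwa [sub_add_cancel] at this
    linarith
  have hmaps : Set.MapsTo (fun t => -M (g δ t)) s s := by
    intro t ht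
    have h1 := (hB t t (hsR t ht) (hsR t ht)).2
    rw [hs, Metric.mem_closedBall, dist_eq_norm]
    have h2 : -M (g δ t) - -M g₀ = M (-(g δ t - g₀)) := by
      rw [map_neg, map_sub]; abel
    rw [h2]
    calc ‖M (-(g δ t - g₀))‖ ≤ ‖M‖ * ‖-(g δ t - g₀)‖ := M.le_opNorm _
      _ = ‖M‖ * ‖g δ t - g₀‖ := by rw [norm_neg]
      _ ≤ ‖M‖ * (C' * δ) := by
          apply mul_le_mul_of_nonneg_left _ hA
          exact h1.trans (mul_le_mul_of_nonneg_right hCC' hδ0.le)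
      _ = ‖M‖ * C' * δ := by ring
      _ ≤ e := hkey
  have hcon : ContractingWith (1 / 2) (hmaps.restrict (fun t => -M (g δ t)) s s) := by
    refine ⟨by
      rw [← NNReal.coe_lt_coe]
      norm_num, LipschitzWith.of_dist_le_mul ?_⟩
    rintro ⟨t, ht⟩ ⟨t', ht'⟩
    have h1 := (hB t t' (hsR t ht) (hsR t' ht')).1
    rw [Subtype.dist_eq, Subtype.dist_eq, dist_eq_norm, dist_eq_norm]
    show ‖-M (g δ t) - -M (g δ t')‖ ≤ ((1 / 2 : NNReal) : ℝ) * ‖t - t'‖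
    have h2 : -M (g δ t) - -M (g δ t') = M (-(g δ t - g δ t')) := by
      rw [map_neg, map_sub]; abel
    rw [h2]
    calc ‖M (-(g δ t - g δ t'))‖ ≤ ‖M‖ * ‖-(g δ t - g δ t')‖ := M.le_opNorm _
      _ = ‖M‖ * ‖g δ t - g δ t'‖ := by rw [norm_neg]
      _ ≤ ‖M‖ * (C' * δ * ‖t - t'‖) := by
          apply mul_le_mul_of_nonneg_left _ hA
          refine h1.trans ?_
          apply mul_le_mul_of_nonneg_right _ (norm_nonneg _)
          exact mul_le_mul_of_nonneg_right hCC' hδ0.le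
      _ = (‖M‖ * C' * δ) * ‖t - t'‖ := by ring
      _ ≤ (1 / 2) * ‖t - t'‖ := by
          apply mul_le_mul_of_nonneg_right _ (norm_nonneg _)
          linarith
      _ = ((1 / 2 : NNReal) : ℝ) * ‖t - t'‖ := by norm_num
  have hsc : IsComplete s := by
    rw [hs]
    exact Metric.isClosed_closedBall.isComplete
  have hx0 : (-M g₀) ∈ s := by
    rw [hs]
    exact Metric.mem_closedBall_self he0.le
  obtain ⟨y, hys, hyf, -⟩ := ContractingWith.exists_fixedPoint' hsc hmaps hcon hx0 (edist_ne_top _ _)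
  refine ⟨y, ?_, ?_⟩
  · have h1 : -M (g δ y) = y := hyf
    have h2 : L y = - g δ y := by
      conv_lhs => rw [← h1]
      rw [map_neg, hM1]
    rw [h2]
    simp
  · rw [hs, Metric.mem_closedBall, dist_eq_norm] at hys
    linarith


end Pool.Agent.H891WLC
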