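import Pool.Agent.H891WLC.Defs

set_option autoImplicit false

namespace Pool.Agent.H891WLC

namespace W_SPAN

theorem unif {ι : Type} (d : ι → ℝ × ℝ)
    (hpos : ∀ α β : ℝ, (α ≠ 0 ∨ β ≠ 0) → ∃ i, 0 < α * (d i).1 + β * (d i).2) :
    ∃ N : ℕ, ∀ α β : ℝ, max |α| |β| = 1 →
      ∃ i, 1 / ((N : ℝ) + 1) < α * (d i).1 + β * (d i).2 := by
  have hK : IsCompact {x : ℝ × ℝ | max |x.1| |x.2| = 1} := by
    have : {x : ℝ × ℝ | max |x.1| |x.2| = 1} = Metric.sphere (0 : ℝ × ℝ) 1 := by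
      ext x
      simp [Prod.norm_def]
    rw [this]
    exact isCompact_sphere _ _
  let U : ℕ → Set (ℝ × ℝ) := fun n => ⋃ i, {x : ℝ × ℝ | 1 / ((n : ℝ) + 1) < x.1 * (d i).1 + x.2 * (d i).2}
  have hUo : ∀ n, IsOpen (U n) := by
    intro n
    apply isOpen_iUnion
    intro i
    exact isOpen_lt continuous_const (by fun_prop)
  have hcov : {x : ℝ × ℝ | max |x.1| |x.2| = 1} ⊆ ⋃ n, U n := by
    intro x hx
    have hx' : max |x.1| |x.2| = 1 := hx
    have hne : x.1 ≠ 0 ∨ x.2 ≠ 0 := by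
      by_contra hcon
      push Not at hcon
      rw [hcon.1, hcon.2] at hx'
      simp at hx'
    obtain ⟨i, hi⟩ := hpos x.1 x.2 hne
    obtain ⟨n, hn⟩ := exists_nat_one_div_lt hi
    rw [Set.mem_iUnion]
    refine ⟨n, ?_⟩
    exact Set.mem_iUnion.mpr ⟨i, hn⟩
  have hdir : Directed (· ⊆ ·) U := by
    apply Monotone.directed_le (f := U)
    intro m n hmn
    apply Set.iUnion_mono
    intro i x hx
    have hx' : 1 / ((m : ℝ) + 1) < x.1 * (d i).1 + x.2 * (d i).2 := hx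
    have : 1 / ((n : ℝ) + 1) ≤ 1 / ((m : ℝ) + 1) := by
      apply one_div_le_one_div_of_le (by positivity)
      have : (m : ℝ) ≤ n := by exact_mod_cast hmn
      linarith
    exact lt_of_le_of_lt this hx'
  obtain ⟨N, hN⟩ := hK.elim_directed_cover U hUo hcov hdir
  refine ⟨N, ?_⟩
  intro α β h
  have := hN (show (α, β) ∈ {x : ℝ × ℝ | max |x.1| |x.2| = 1} from h)
  obtain ⟨i, hi⟩ := Set.mem_iUnion.mp this
  exact ⟨i, hi⟩

end W_SPAN

open W_SPAN in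
theorem SPAN {ι : Type} [Finite ι] (d : ι → ℝ × ℝ) (hpos : ∀ α β : ℝ, (α ≠ 0 ∨ β ≠ 0) → ∃ i, 0 < α * (d i).1 + β * (d i).2) :
    ∃ ε > 0, ∀ d' : ι → ℝ × ℝ, (∀ i, |(d' i).1 - (d i).1| < ε ∧ |(d' i).2 - (d i).2| < ε) →
      ∀ α β : ℝ, (α ≠ 0 ∨ β ≠ 0) → ∃ i, 0 < α * (d' i).1 + β * (d' i).2 := by
  obtain ⟨N, hN⟩ := W_SPAN.unif d hpos
  have hNp : (0 : ℝ) < 1 / ((N : ℝ) + 1) := by positivity
  refine ⟨1 / ((N : ℝ) + 1) / 2, by positivity, ?_⟩
  intro d' hd' α β hαβ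
  set r : ℝ := max |α| |β| with hr
  have hrpos : 0 < r := by
    rcases hαβ with h | h
    · exact lt_of_lt_of_le (abs_pos.mpr h) (le_max_left _ _)
    · exact lt_of_lt_of_le (abs_pos.mpr h) (le_max_right _ _)
  have ha : |α / r| ≤ 1 := by
    rw [abs_div, abs_of_pos hrpos, div_le_one hrpos]
    exact le_max_left _ _
  have hb : |β / r| ≤ 1 := by
    rw [abs_div, abs_of_pos hrpos, div_le_one hrpos]
    exact le_max_right _ _
  have hm : max |α / r| |β / r| = 1 := by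
    rw [abs_div, abs_div, abs_of_pos hrpos, max_div_div_right hrpos.le, ← hr]
    exact div_self hrpos.ne'
  obtain ⟨i, hi⟩ := hN (α / r) (β / r) hm
  refine ⟨i, ?_⟩
  have h1 := abs_lt.mp (hd' i).1
  have h2 := abs_lt.mp (hd' i).2
  have k1 : -(1 / ((N : ℝ) + 1) / 2) ≤ (α / r) * ((d' i).1 - (d i).1) := by
    have : |(α / r) * ((d' i).1 - (d i).1)| ≤ 1 * (1 / ((N : ℝ) + 1) / 2) := by
      rw [abs_mul]
      exact mul_le_mul ha (hd' i).1.le (abs_nonneg _) zero_le_one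
    linarith [(abs_le.mp this).1]
  have k2 : -(1 / ((N : ℝ) + 1) / 2) ≤ (β / r) * ((d' i).2 - (d i).2) := by
    have : |(β / r) * ((d' i).2 - (d i).2)| ≤ 1 * (1 / ((N : ℝ) + 1) / 2) := by
      rw [abs_mul]
      exact mul_le_mul hb (hd' i).2.le (abs_nonneg _) zero_le_one
    linarith [(abs_le.mp this).1]
  have k3 : 0 < (α / r) * (d' i).1 + (β / r) * (d' i).2 := by
    linarith
  have k4 : α * (d' i).1 + β * (d' i).2 = r * ((α / r) * (d' i).1 + (β / r) * (d' i).2) := by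
    field_simp
  rw [k4]
  exact mul_pos hrpos k3


end Pool.Agent.H891WLC
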