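import Pool.Agent.H891WLC.Defs
import Pool.Agent.H891WLC.tri_conn3
import Pool.Agent.H891WLC.NF

set_option autoImplicit false

namespace Pool.Agent.H891WLC

namespace W_TUTTE

theorem dualconn {V : Type} (T : Tri V) (P : V → V → V → Prop)
    (hrot : ∀ a b c, T.F a b c → P a b c → P b c a)
    (hcross : ∀ a b c d, T.F a b c → T.F b a d → P a b c → P b a d)
    (a₀ b₀ c₀ : V) (h0 : T.F a₀ b₀ c₀) (hP0 : P a₀ b₀ c₀) :
    ∀ a b c, T.F a b c → P a b c := by
  have link : ∀ v x y, T.F v x y → P v x y → ∀ c d, T.F v c d → P v c d := by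
    intro v x y hF hP c d hcd
    have hl := T.link v x y c d hF hcd
    have key : ∀ c, Relation.ReflTransGen (fun x y => T.F v x y) x c →
        ∀ z, T.F v c z → P v c z := by
      intro c hc
      induction hc with
      | refl => intro z hz; rw [T.uniq v x z y hz hF]; exact hP
      | @tail b c _ hbc ih =>
        intro z hz
        have h1 := ih c hbc
        have h2 := hrot v b c hbc h1
        have h3 := hrot b c v (T.rot _ _ _ hbc) h2
        exact hcross c v b z (T.rot _ _ _ (T.rot _ _ _ hbc)) hz h3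
    exact key c hl d hcd
  have conn : ∀ v, Relation.ReflTransGen (fun x y => ∃ z, T.F x y z) a₀ v →
      ∀ b c, T.F v b c → P v b c := by
    intro v hv
    induction hv with
    | refl => intro b c hbc; exact link _ _ _ h0 hP0 b c hbc
    | tail _ hxy ih =>
      obtain ⟨z, hz⟩ := hxy
      intro b c hbc
      exact link _ _ _ (T.rot _ _ _ hz) (hrot _ _ _ hz (ih _ _ hz)) b c hbc
  intro a b c h
  exact conn a (T.conn a₀ a) b c h

/-- flat or active -/
def FA {V : Type} (T : Tri V) (L : V → ℝ) (v : V) : Prop :=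
  (∀ u, T.G.Adj v u → L u = L v) ∨
    ((∃ u, T.G.Adj v u ∧ L u < L v) ∧ (∃ u, T.G.Adj v u ∧ L v < L u))

theorem maxP {V : Type} [Finite V] (T : Tri V) (O : V → Prop) (L : V → ℝ) (t m b : V)
    (hO : ∀ v, O v ↔ v = t ∨ v = m ∨ v = b) (htm : t ≠ m) (hmb : m ≠ b) (htb : t ≠ b)
    (hbal : ∀ v, ¬ O v → FA T L v) (hne : ¬ (L t = L m ∧ L m = L b))
    (M : ℝ) (hM : ∀ u, L u ≤ M) : ∀ v, ¬ O v → L v < M := by
  intro v hv
  by_contra hlt
  have heq : L v = M := le_antisymm (hM v) (not_lt.1 hlt)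
  have hvO : ¬ (v = t ∨ v = m ∨ v = b) := fun h => hv ((hO v).2 h)
  push Not at hvO
  obtain ⟨hvt, hvm, hvb⟩ := hvO
  have reach : ∀ a b c : V, c ≠ a → c ≠ b → (∀ v, v ≠ a → v ≠ b → v ≠ c → ¬ O v) →
      v ≠ a → v ≠ b → v ≠ c → L c = M := by
    intro a b c hca hcb hcov hva hvb hvc
    have hcon := (tri_conn3 T a b).2 v (by simp [hva, hvb]) c (by simp [hca, hcb])
    have key : ∀ x, Relation.ReflTransGen
        (fun x y => T.G.Adj x y ∧ y ∈ ({a, b}ᶜ : Set V)) v x →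
        L c = M ∨ (L x = M ∧ x ≠ a ∧ x ≠ b ∧ x ≠ c) := by
      intro x hx
      induction hx with
      | refl => right; exact ⟨heq, hva, hvb, hvc⟩
      | @tail x y _ hxy ih =>
        rcases ih with h | ⟨h1, h2, h3, h4⟩
        · left; exact h
        · have ho := hcov x h2 h3 h4
          have hf : L y = M := by
            rcases hbal x ho with h | ⟨_, ⟨u, hu, hlt⟩⟩
            · rw [h y hxy.1, h1]
            · linarith [hM u]
          by_cases hyc : y = c
          · left; rw [← hyc]; exact hf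
          · right
            have hy := hxy.2
            simp only [Set.mem_compl_iff, Set.mem_insert_iff, Set.mem_singleton_iff,
              not_or] at hy
            exact ⟨hf, hy.1, hy.2, hyc⟩
    rcases key c hcon with h | h
    · exact h
    · exact h.1
  have r1 := reach m b t htm htb (fun v h1 h2 h3 h => by
    rcases (hO v).1 h with h | h | h
    · exact h3 h
    · exact h1 h
    · exact h2 h) hvm hvb hvt
  have r2 := reach t b m htm.symm hmb (fun v h1 h2 h3 h => by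
    rcases (hO v).1 h with h | h | h
    · exact h1 h
    · exact h3 h
    · exact h2 h) hvt hvb hvm
  have r3 := reach t m b htb.symm hmb.symm (fun v h1 h2 h3 h => by
    rcases (hO v).1 h with h | h | h
    · exact h1 h
    · exact h2 h
    · exact h3 h) hvt hvm hvb
  exact hne ⟨r1.trans r2.symm, r2.trans r3.symm⟩

theorem maxT {V : Type} [Finite V] (T : Tri V) (O : V → Prop) (L : V → ℝ) (t m b : V)
    (hO : ∀ v, O v ↔ v = t ∨ v = m ∨ v = b) (htm : t ≠ m) (hmb : m ≠ b) (htb : t ≠ b)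
    (hbal : ∀ v, ¬ O v → FA T L v) (hne : ¬ (L t = L m ∧ L m = L b))
    (h1 : L b ≤ L m) (h2 : L m ≤ L t) :
    (∀ u, L u ≤ L t) ∧ ∀ v, ¬ O v → L v < L t := by
  haveI : Nonempty V := ⟨t⟩
  obtain ⟨u₀, hu₀⟩ := Finite.exists_max L
  have hmx := maxP T O L t m b hO htm hmb htb hbal hne (L u₀) hu₀
  have hu₀O : O u₀ := by
    by_contra h
    exact lt_irrefl _ (hmx u₀ h)
  have hle : L u₀ ≤ L t := by
    rcases (hO u₀).1 hu₀O with h | h | h <;> rw [h] <;> linarith
  exact ⟨fun u => (hu₀ u).trans hle, fun v hv => (hmx v hv).trans_le hle⟩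

theorem FA_neg {V : Type} (T : Tri V) (L : V → ℝ) (v : V) (h : FA T L v) :
    FA T (fun v => - L v) v := by
  rcases h with h | ⟨⟨u, hu, hu'⟩, ⟨w, hw, hw'⟩⟩
  · left; intro u hu; show - L u = - L v; rw [h u hu]
  · right
    exact ⟨⟨w, hw, neg_lt_neg hw'⟩, ⟨u, hu, neg_lt_neg hu'⟩⟩

/-- the conclusions for one direction -/
def Concl {V : Type} (T : Tri V) (O : V → Prop) (L : V → ℝ) : Prop :=
  (∀ v, ¬ O v → (∃ u, O u ∧ L v < L u) ∧ (∃ u, O u ∧ L u < L v)) ∧
  (∀ x y z, T.F x y z → ¬ (L x = L y ∧ L y = L z)) ∧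
  (∀ a c x y, T.F a c x → T.F c a y → L a = L c → ¬ (O a ∧ O c) →
    (L a < L x ∧ L y < L a) ∨ (L x < L a ∧ L a < L y))

open Classical in
theorem NFapp {V : Type} [Finite V] (T : Tri V) (O : V → Prop) (L : V → ℝ) (t m b : V)
    (hO : ∀ v, O v ↔ v = t ∨ v = m ∨ v = b) (htm : t ≠ m) (hmb : m ≠ b) (htb : t ≠ b)
    (hadj : ∀ x y, O x → O y → x ≠ y → T.G.Adj x y)
    (hbal : ∀ v, ¬ O v → FA T L v) (hne : ¬ (L t = L m ∧ L m = L b))
    (h1 : L b ≤ L m) (h2 : L m ≤ L t) : Concl T O L := by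
  obtain ⟨mx, mx'⟩ := maxT T O L t m b hO htm hmb htb hbal hne h1 h2
  obtain ⟨mn, mn'⟩ : (∀ u, L b ≤ L u) ∧ ∀ v, ¬ O v → L b < L v := by
    have := maxT T O (fun v => - L v) b m t (fun v => by rw [hO]; tauto) hmb.symm htm.symm
      htb.symm (fun v hv => FA_neg T L v (hbal v hv))
      (fun h => hne ⟨(neg_injective h.2).symm, (neg_injective h.1).symm⟩)
      (neg_le_neg h2) (neg_le_neg h1)
    exact ⟨fun u => neg_le_neg_iff.1 (this.1 u), fun v hv => neg_lt_neg_iff.1 (this.2 v hv)⟩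
  have hOt : O t := (hO t).2 (Or.inl rfl)
  have hOm : O m := (hO m).2 (Or.inr (Or.inl rfl))
  have hOb : O b := (hO b).2 (Or.inr (Or.inr rfl))
  set h : V → ℝ := fun v => if v = t then L t + 1 else if v = b then L b - 1 else L v with hh
  have ht : h t = L t + 1 := by simp [hh]
  have hb : h b = L b - 1 := by simp [hh, htb.symm]
  have hv : ∀ v, v ≠ t → v ≠ b → h v = L v := by intro v h1 h2; simp [hh, h1, h2]
  have hlt : ∀ v, L v < L t → v ≠ t := by rintro v h rfl; exact lt_irrefl _ h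
  have hgt : ∀ v, L b < L v → v ≠ b := by rintro v h rfl; exact lt_irrefl _ h
  have hbot : ∀ v, v ≠ b → h b < h v := by
    intro v hvb
    by_cases hvt : v = t
    · rw [hvt, ht, hb]; linarith
    · rw [hv v hvt hvb, hb]; linarith [mn v]
  have htop : ∀ v, v ≠ t → h v < h t := by
    intro v hvt
    by_cases hvb : v = b
    · rw [hvb, ht, hb]; linarith
    · rw [hv v hvt hvb, ht]; linarith [mx v]
  have hact : ∀ v, v ≠ b → v ≠ t →
      ((∃ u, T.G.Adj v u ∧ h u < h v) ∧ (∃ u, T.G.Adj v u ∧ h v < h u)) ∨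
      (∀ u, T.G.Adj v u → h u = h v) := by
    intro v hvb hvt
    by_cases hvO : O v
    · left
      exact ⟨⟨b, hadj v b hvO hOb hvb, hbot v hvb⟩, ⟨t, hadj v t hvO hOt hvt, htop v hvt⟩⟩
    · rcases hbal v hvO with hf | ⟨⟨u, hu, hu'⟩, ⟨w, hw, hw'⟩⟩
      · right
        intro u hu
        have e := hf u hu
        rw [hv v hvt hvb, hv u (hlt u (by rw [e]; exact mx' v hvO))
          (hgt u (by rw [e]; exact mn' v hvO)), e]
      · left
        refine ⟨⟨u, hu, ?_⟩, ⟨w, hw, ?_⟩⟩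
        · by_cases hub : u = b
          · rw [hub]; exact hbot v hvb
          · rw [hv v hvt hvb, hv u (hlt u (hu'.trans (mx' v hvO))) hub]; exact hu'
        · by_cases hwt : w = t
          · rw [hwt]; exact htop v hvt
          · rw [hv v hvt hvb, hv w hwt (hgt w ((mn' v hvO).trans hw'))]; exact hw'
  obtain ⟨-, N2, N3, -⟩ := NF T h b t hbot htop hact
  refine ⟨?_, ?_, ?_⟩
  · intro v hvO
    exact ⟨⟨t, hOt, mx' v hvO⟩, ⟨b, hOb, mn' v hvO⟩⟩
  · rintro x y z hF ⟨e1, e2⟩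
    by_cases hall : O x ∧ O y ∧ O z
    · have n1 : x ≠ y := T.ne x y z hF
      have n2 : y ≠ z := T.ne y z x (T.rot _ _ _ hF)
      have n3 : z ≠ x := T.ne z x y (T.rot _ _ _ (T.rot _ _ _ hF))
      obtain ⟨hx, hy, hz⟩ := hall
      rw [hO] at hx hy hz
      apply hne
      rcases hx with rfl | rfl | rfl <;> rcases hy with rfl | rfl | rfl <;>
        rcases hz with rfl | rfl | rfl <;>
        first
          | exact absurd rfl n1
          | exact absurd rfl n2
          | exact absurd rfl n3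
          | (constructor <;> linarith)
    · have hmid : L b < L x ∧ L x < L t := by
        by_cases hx : O x
        · by_cases hy : O y
          · have hz : ¬ O z := fun hz => hall ⟨hx, hy, hz⟩
            rw [e1, e2]; exact ⟨mn' z hz, mx' z hz⟩
          · rw [e1]; exact ⟨mn' y hy, mx' y hy⟩
        · exact ⟨mn' x hx, mx' x hx⟩
      have ex := hv x (hlt x hmid.2) (hgt x hmid.1)
      have ey := hv y (hlt y (by rw [← e1]; exact hmid.2)) (hgt y (by rw [← e1]; exact hmid.1))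
      have ez := hv z (hlt z (by rw [← e2, ← e1]; exact hmid.2))
        (hgt z (by rw [← e2, ← e1]; exact hmid.1))
      exact N2 x y z hF ⟨by rw [ex, ey, e1], by rw [ey, ez, e2]⟩
  · intro a c x y hF1 hF2 e hno
    have hmid : L b < L a ∧ L a < L t := by
      by_cases ha : O a
      · have hc : ¬ O c := fun hc => hno ⟨ha, hc⟩
        rw [e]; exact ⟨mn' c hc, mx' c hc⟩
      · exact ⟨mn' a ha, mx' a ha⟩
    have ea := hv a (hlt a hmid.2) (hgt a hmid.1)
    have ec := hv c (hlt c (by rw [← e]; exact hmid.2)) (hgt c (by rw [← e]; exact hmid.1))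
    have up : ∀ x, L a < h x → L a < L x := by
      intro x hx
      by_cases hxt : x = t
      · rw [hxt]; exact hmid.2
      · by_cases hxb : x = b
        · rw [hxb, hb] at hx; linarith [hmid.1]
        · rwa [hv x hxt hxb] at hx
    have dn : ∀ x, h x < L a → L x < L a := by
      intro x hx
      by_cases hxt : x = t
      · rw [hxt, ht] at hx; linarith [hmid.2]
      · by_cases hxb : x = b
        · rw [hxb]; exact hmid.1
        · rwa [hv x hxt hxb] at hx
    have := N3 a c x y hF1 hF2 (by rw [ea, ec, e])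
    rw [ea] at this
    rcases this with ⟨h1, h2⟩ | ⟨h1, h2⟩
    · left; exact ⟨up x h1, dn y h2⟩
    · right; exact ⟨dn x h1, up y h2⟩

/-- linear functional -/
def Lf {V : Type} (p : V → ℝ × ℝ) (α β : ℝ) (v : V) : ℝ := α * (p v).1 + β * (p v).2

theorem concl_all {V : Type} [Finite V] (T : Tri V) (o₁ o₂ o₃ : V) (ho : T.F o₁ o₂ o₃)
    (p : V → ℝ × ℝ) (hneg : crs (p o₁) (p o₂) (p o₃) < 0)
    (hbal : ∀ v, v ≠ o₁ → v ≠ o₂ → v ≠ o₃ → ∀ α β : ℝ,
      (∀ u, T.G.Adj v u → α * ((p u).1 - (p v).1) + β * ((p u).2 - (p v).2) = 0) ∨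
      ((∃ u, T.G.Adj v u ∧ 0 < α * ((p u).1 - (p v).1) + β * ((p u).2 - (p v).2)) ∧
        (∃ u, T.G.Adj v u ∧ α * ((p u).1 - (p v).1) + β * ((p u).2 - (p v).2) < 0)))
    (α β : ℝ) (hαβ : ¬ (α = 0 ∧ β = 0)) :
    Concl T (fun v => v = o₁ ∨ v = o₂ ∨ v = o₃) (Lf p α β) := by
  have n12 : o₁ ≠ o₂ := T.ne _ _ _ ho
  have n23 : o₂ ≠ o₃ := T.ne _ _ _ (T.rot _ _ _ ho)
  have n31 : o₃ ≠ o₁ := T.ne _ _ _ (T.rot _ _ _ (T.rot _ _ _ ho))
  have hadj : ∀ x y, (x = o₁ ∨ x = o₂ ∨ x = o₃) → (y = o₁ ∨ y = o₂ ∨ y = o₃) → x ≠ y →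
      T.G.Adj x y := by
    have a12 : T.G.Adj o₁ o₂ := ⟨_, ho⟩
    have a23 : T.G.Adj o₂ o₃ := ⟨_, T.rot _ _ _ ho⟩
    have a31 : T.G.Adj o₃ o₁ := ⟨_, T.rot _ _ _ (T.rot _ _ _ ho)⟩
    rintro x y (rfl | rfl | rfl) (rfl | rfl | rfl) hxy <;>
      first
        | exact absurd rfl hxy
        | assumption
        | (apply SimpleGraph.Adj.symm; assumption)
  have hb : ∀ v, ¬ (v = o₁ ∨ v = o₂ ∨ v = o₃) → FA T (Lf p α β) v := by
    intro v hv
    push Not at hv
    rcases hbal v hv.1 hv.2.1 hv.2.2 α β with h | ⟨⟨u, hu, hu'⟩, ⟨w, hw, hw'⟩⟩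
    · left; intro u hu; have := h u hu; unfold Lf; linarith
    · right
      exact ⟨⟨w, hw, by unfold Lf; linarith⟩, ⟨u, hu, by unfold Lf; linarith⟩⟩
  have hne : ¬ (Lf p α β o₁ = Lf p α β o₂ ∧ Lf p α β o₂ = Lf p α β o₃) := by
    rintro ⟨e1, e2⟩
    unfold Lf at e1 e2
    have f1 : α * ((p o₂).1 - (p o₁).1) + β * ((p o₂).2 - (p o₁).2) = 0 := by linarith
    have f2 : α * ((p o₃).1 - (p o₁).1) + β * ((p o₃).2 - (p o₁).2) = 0 := by linarith
    have g1 : α * crs (p o₁) (p o₂) (p o₃) = 0 := by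
      unfold crs
      linear_combination ((p o₃).2 - (p o₁).2) * f1 - ((p o₂).2 - (p o₁).2) * f2
    have g2 : β * crs (p o₁) (p o₂) (p o₃) = 0 := by
      unfold crs
      linear_combination ((p o₂).1 - (p o₁).1) * f2 - ((p o₃).1 - (p o₁).1) * f1
    exact hαβ ⟨(mul_eq_zero.1 g1).resolve_right hneg.ne, (mul_eq_zero.1 g2).resolve_right hneg.ne⟩
  rcases le_total (Lf p α β o₁) (Lf p α β o₂) with l12 | l21 <;>
  rcases le_total (Lf p α β o₂) (Lf p α β o₃) with l23 | l32 <;>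
  rcases le_total (Lf p α β o₁) (Lf p α β o₃) with l13 | l31
  · exact NFapp T _ _ o₃ o₂ o₁ (fun v => by tauto) n23.symm n12.symm n31 hadj hb
      (fun h => hne ⟨h.2.symm, h.1.symm⟩) l12 l23
  · exact NFapp T _ _ o₃ o₂ o₁ (fun v => by tauto) n23.symm n12.symm n31 hadj hb
      (fun h => hne ⟨h.2.symm, h.1.symm⟩) l12 l23
  · exact NFapp T _ _ o₂ o₃ o₁ (fun v => by tauto) n23 n31 n12.symm hadj hb
      (fun h => hne ⟨(h.1.trans h.2).symm, h.1⟩) l13 l32
  · exact NFapp T _ _ o₂ o₁ o₃ (fun v => by tauto) n12.symm n31.symm n23 hadj hb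
      (fun h => hne ⟨h.1.symm, h.1.trans h.2⟩) l31 l12
  · exact NFapp T _ _ o₃ o₁ o₂ (fun v => by tauto) n31 n12 n23.symm hadj hb
      (fun h => hne ⟨h.2, (h.1.trans h.2).symm⟩) l21 l13
  · exact NFapp T _ _ o₁ o₃ o₂ (fun v => by tauto) n31.symm n23.symm n12 hadj hb
      (fun h => hne ⟨h.1.trans h.2, h.2.symm⟩) l23 l31
  · exact NFapp T _ _ o₁ o₂ o₃ (fun v => by tauto) n12 n23 n31.symm hadj hb
      hne l32 l21
  · exact NFapp T _ _ o₁ o₂ o₃ (fun v => by tauto) n12 n23 n31.symm hadj hb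
      hne l32 l21

end W_TUTTE

open W_TUTTE in
theorem TUTTE {V : Type} [Finite V] (T : Tri V) (o₁ o₂ o₃ : V) (ho : T.F o₁ o₂ o₃) (p : V → ℝ × ℝ)
    (hneg : crs (p o₁) (p o₂) (p o₃) < 0)
    (hbal : ∀ v, v ≠ o₁ → v ≠ o₂ → v ≠ o₃ → ∀ α β : ℝ,
      (∀ u, T.G.Adj v u → α * ((p u).1 - (p v).1) + β * ((p u).2 - (p v).2) = 0) ∨
      ((∃ u, T.G.Adj v u ∧ 0 < α * ((p u).1 - (p v).1) + β * ((p u).2 - (p v).2)) ∧
        (∃ u, T.G.Adj v u ∧ α * ((p u).1 - (p v).1) + β * ((p u).2 - (p v).2) < 0))) :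
    Drawn T o₁ o₂ o₃ p := by
  have C := concl_all T o₁ o₂ o₃ ho p hneg hbal
  have n12 : o₁ ≠ o₂ := T.ne _ _ _ ho
  have n23 : o₂ ≠ o₃ := T.ne _ _ _ (T.rot _ _ _ ho)
  have n31 : o₃ ≠ o₁ := T.ne _ _ _ (T.rot _ _ _ (T.rot _ _ _ ho))
  have ho2 : T.F o₂ o₃ o₁ := T.rot _ _ _ ho
  have ho3 : T.F o₃ o₁ o₂ := T.rot _ _ _ ho2
  -- end points of an edge are different
  have hinj : ∀ a c x, T.F a c x → ¬ (((p c).2 - (p a).2) = 0 ∧ -((p c).1 - (p a).1) = 0) := by
    rintro a c x hF ⟨e2, e1⟩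
    have e : p c = p a := Prod.ext (by linarith) (by linarith)
    by_cases hx : ((p x).2 - (p a).2) = 0 ∧ -((p x).1 - (p a).1) = 0
    · obtain ⟨g2, g1⟩ := hx
      have g : p x = p a := Prod.ext (by linarith) (by linarith)
      apply (C 1 0 (by simp)).2.1 a c x hF
      simp [Lf, e, g]
    · apply (C _ _ hx).2.1 a c x hF
      refine ⟨by simp [Lf, e], ?_⟩
      simp only [Lf, e]; ring
  have hsame : ∀ a c x y, T.F a c x → T.F c a y →
      ¬ ((a = o₁ ∨ a = o₂ ∨ a = o₃) ∧ (c = o₁ ∨ c = o₂ ∨ c = o₃)) →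
      0 < crs (p a) (p c) (p x) → 0 < crs (p c) (p a) (p y) := by
    intro a c x y hF1 hF2 hno hpos
    have := (C _ _ (hinj a c x hF1)).2.2 a c x y hF1 hF2 (by simp only [Lf]; ring) hno
    simp only [Lf] at this
    unfold crs at hpos ⊢
    rcases this with ⟨h1, h2⟩ | ⟨h1, h2⟩
    · nlinarith
    · nlinarith
  have hout : ∀ u v w d, T.F u v w → (∀ x, (x = o₁ ∨ x = o₂ ∨ x = o₃) ↔ (x = u ∨ x = v ∨ x = w)) →
      crs (p u) (p v) (p w) < 0 → T.F v u d → 0 < crs (p v) (p u) (p d) := by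
    intro u v w d hF hO hc hd
    by_cases hdw : d = w
    · rw [hdw]; unfold crs at hc ⊢; nlinarith
    · have hdO : ¬ (d = o₁ ∨ d = o₂ ∨ d = o₃) := by
        rw [hO]
        rintro (h | h | h)
        · exact T.ne u d v (T.rot _ _ _ hd) h.symm
        · exact T.ne d v u (T.rot _ _ _ (T.rot _ _ _ hd)) h
        · exact hdw h
      obtain ⟨-, ⟨u', hu', hlt⟩⟩ := (C _ _ (hinj u v w hF)).1 d hdO
      rw [hO] at hu'
      simp only [Lf] at hlt
      unfold crs at hc ⊢
      rcases hu' with rfl | rfl | rfl <;> nlinarith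
  have key := dualconn T (fun a b c => IsRot o₁ o₂ o₃ a b c ∨ 0 < crs (p a) (p b) (p c))
    (by
      rintro a b c - (h | h)
      · left; unfold IsRot at h ⊢; tauto
      · right; unfold crs at h ⊢; nlinarith)
    (by
      intro a b c d hF1 hF2 hP
      by_cases hO : (a = o₁ ∨ a = o₂ ∨ a = o₃) ∧ (b = o₁ ∨ b = o₂ ∨ b = o₃)
      · have hne := T.ne _ _ _ hF1
        obtain ⟨ha, hb⟩ := hO
        rcases ha with ha | ha | ha <;> rcases hb with hb | hb | hb
        · exact absurd (ha.trans hb.symm) hne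
        · subst ha hb
          right
          exact hout _ _ _ d ho (fun x => Iff.rfl) hneg hF2
        · subst ha hb
          left
          exact Or.inr (Or.inr ⟨rfl, rfl, T.uniq _ _ _ _ hF2 ho3⟩)
        · subst ha hb
          left
          exact Or.inl ⟨rfl, rfl, T.uniq _ _ _ _ hF2 ho⟩
        · exact absurd (ha.trans hb.symm) hne
        · subst ha hb
          right
          exact hout _ _ _ d ho2 (fun x => by tauto) (by unfold crs at hneg ⊢; nlinarith) hF2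
        · subst ha hb
          right
          exact hout _ _ _ d ho3 (fun x => by tauto) (by unfold crs at hneg ⊢; nlinarith) hF2
        · subst ha hb
          left
          exact Or.inr (Or.inl ⟨rfl, rfl, T.uniq _ _ _ _ hF2 ho2⟩)
        · exact absurd (ha.trans hb.symm) hne
      · right
        rcases hP with h | h
        · exfalso; apply hO; unfold IsRot at h; tauto
        · exact hsame a b c d hF1 hF2 hO h)
    o₁ o₂ o₃ ho (Or.inl (Or.inl ⟨rfl, rfl, rfl⟩))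
  exact ⟨ho, hneg, fun a b c h hn => (key a b c h).resolve_left hn⟩


end Pool.Agent.H891WLC
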