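import Pool.Agent.H891WLC.Defs
import Pool.Agent.H891WLC.D_nrm
import Pool.Agent.H891WLC.tri_conn3
import Pool.Agent.H891WLC.CLUS_ADJ
import Pool.Agent.H891WLC.CLUS_CONN
import Pool.Agent.H891WLC.DRAWN_BAL
import Pool.Agent.H891WLC.F1
import Pool.Agent.H891WLC.FPT
import Pool.Agent.H891WLC.SPAN
import Pool.Agent.H891WLC.TUTTE

set_option autoImplicit false

namespace Pool.Agent.H891WLC

namespace W_REAL
open Filter Topology

/-- displacement -/
noncomputable def E {V₀ : Type} (I : V₀ → Prop) [DecidablePred I] (m : V₀ → ℝ × ℝ) (h τ : V₀ → ℝ)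
    (v : V₀) : ℝ × ℝ :=
  if I v then (h v * (m v).1 - τ v * (m v).2, h v * (m v).2 + τ v * (m v).1) else (0, 0)

noncomputable def pos {V₀ : Type} (I : V₀ → Prop) [DecidablePred I] (m Q : V₀ → ℝ × ℝ) (h τ : V₀ → ℝ)
    (δ : ℝ) (v : V₀) : ℝ × ℝ :=
  ((Q v).1 + δ * (E I m h τ v).1, (Q v).2 + δ * (E I m h τ v).2)

noncomputable def ext {V₀ : Type} (J : V₀ → Prop) [DecidablePred J] (t : {v // J v} → ℝ) (v : V₀) : ℝ :=
  if hv : J v then t ⟨v, hv⟩ else 0

lemma ext_add {V₀ : Type} (J : V₀ → Prop) [DecidablePred J] (t t' : {v // J v} → ℝ) (v : V₀) :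
    ext J (t + t') v = ext J t v + ext J t' v := by
  unfold ext; split_ifs <;> simp

lemma ext_smul {V₀ : Type} (J : V₀ → Prop) [DecidablePred J] (c : ℝ) (t : {v // J v} → ℝ) (v : V₀) :
    ext J (c • t) v = c * ext J t v := by
  unfold ext; split_ifs <;> simp

lemma ext_sub_bd {V₀ : Type} [Fintype V₀] (J : V₀ → Prop) [DecidablePred J] (t t' : {v // J v} → ℝ) (v : V₀) :
    |ext J t v - ext J t' v| ≤ ‖t - t'‖ := by
  unfold ext; split_ifs with h
  · have := norm_le_pi_norm (t - t') ⟨v, h⟩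
    simpa using this
  · simp

lemma ext_bd {V₀ : Type} [Fintype V₀] (J : V₀ → Prop) [DecidablePred J] (t : {v // J v} → ℝ) (v : V₀) :
    |ext J t v| ≤ ‖t‖ := by
  unfold ext; split_ifs with h
  · have := norm_le_pi_norm t ⟨v, h⟩
    simpa using this
  · simp

lemma E_bd {V₀ : Type} [Fintype V₀] (I : V₀ → Prop) [DecidablePred I] (m : V₀ → ℝ × ℝ) (h : V₀ → ℝ)
    (R : ℝ) : ∃ K : ℝ, 0 ≤ K ∧ ∀ τ : V₀ → ℝ, (∀ x, |τ x| ≤ R) → ∀ v,
      |(E I m h τ v).1| ≤ K ∧ |(E I m h τ v).2| ≤ K := by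
  refine ⟨∑ v, (|h v * (m v).1| + |R| * |(m v).2| + (|h v * (m v).2| + |R| * |(m v).1|)), ?_, ?_⟩
  · exact Finset.sum_nonneg fun v _ => by positivity
  · intro τ hτ v
    have hb : (|h v * (m v).1| + |R| * |(m v).2| + (|h v * (m v).2| + |R| * |(m v).1|)) ≤
        ∑ v, (|h v * (m v).1| + |R| * |(m v).2| + (|h v * (m v).2| + |R| * |(m v).1|)) :=
      Finset.single_le_sum (f := fun v => (|h v * (m v).1| + |R| * |(m v).2| + (|h v * (m v).2| + |R| * |(m v).1|)))
        (fun v _ => by positivity) (Finset.mem_univ v)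
    have hR : |τ v| ≤ |R| := (hτ v).trans (le_abs_self R)
    unfold E
    split_ifs
    · constructor
      · have h1 := abs_sub (h v * (m v).1) (τ v * (m v).2)
        have h2 : |τ v * (m v).2| ≤ |R| * |(m v).2| := by
          rw [abs_mul]; exact mul_le_mul_of_nonneg_right hR (abs_nonneg _)
        have h3 : 0 ≤ |h v * (m v).2| + |R| * |(m v).1| := by positivity
        simp only
        linarith
      · have h1 := abs_add_le (h v * (m v).2) (τ v * (m v).1)
        have h2 : |τ v * (m v).1| ≤ |R| * |(m v).1| := by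
          rw [abs_mul]; exact mul_le_mul_of_nonneg_right hR (abs_nonneg _)
        have h3 : 0 ≤ |h v * (m v).1| + |R| * |(m v).2| := by positivity
        simp only
        linarith
    · simp only [abs_zero]
      exact ⟨le_trans (by positivity) hb, le_trans (by positivity) hb⟩

lemma E_lip {V₀ : Type} [Fintype V₀] (I : V₀ → Prop) [DecidablePred I] (m : V₀ → ℝ × ℝ) (h : V₀ → ℝ) :
    ∃ K : ℝ, 0 ≤ K ∧ ∀ τ τ' : V₀ → ℝ, ∀ v,
      |(E I m h τ v).1 - (E I m h τ' v).1| ≤ K * |τ v - τ' v| ∧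
      |(E I m h τ v).2 - (E I m h τ' v).2| ≤ K * |τ v - τ' v| := by
  refine ⟨∑ v, (|(m v).2| + |(m v).1|), Finset.sum_nonneg fun v _ => by positivity, ?_⟩
  intro τ τ' v
  have hb : (|(m v).2| + |(m v).1|) ≤ ∑ v, (|(m v).2| + |(m v).1|) :=
    Finset.single_le_sum (f := fun v => (|(m v).2| + |(m v).1|)) (fun v _ => by positivity) (Finset.mem_univ v)
  unfold E
  split_ifs
  · constructor
    · have : h v * (m v).1 - τ v * (m v).2 - (h v * (m v).1 - τ' v * (m v).2) = -((m v).2 * (τ v - τ' v)) := by ring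
      simp only
      rw [this, abs_neg, abs_mul]
      apply mul_le_mul_of_nonneg_right _ (abs_nonneg _)
      linarith [abs_nonneg (m v).1]
    · have : h v * (m v).2 + τ v * (m v).1 - (h v * (m v).2 + τ' v * (m v).1) = ((m v).1 * (τ v - τ' v)) := by ring
      simp only
      rw [this, abs_mul]
      apply mul_le_mul_of_nonneg_right _ (abs_nonneg _)
      linarith [abs_nonneg (m v).2]
  · simp only [sub_self, abs_zero]
    have : 0 ≤ ∑ v, (|(m v).2| + |(m v).1|) := Finset.sum_nonneg fun v _ => by positivity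
    constructor <;> positivity

lemma quot_pos (N₀ M₀ K : ℝ) (hN : 0 < N₀) (hK : 0 ≤ K) : ∃ C, 0 ≤ C ∧ ∃ δ₁ > 0, ∀ δ : ℝ, 0 < δ → δ < δ₁ →
    ∀ A B A' B' : ℝ, |A| ≤ K → |B| ≤ K → |A'| ≤ K → |B'| ≤ K →
    abs ((M₀ + δ*B)/|N₀ + δ*A| - (M₀ + δ*B')/|N₀ + δ*A'|) ≤ C*δ*(|A-A'| + |B-B'|) ∧
      (N₀ + δ*A)/|N₀ + δ*A| = N₀/|N₀| ∧ N₀ + δ*A ≠ 0 := by
  refine ⟨4*(|M₀| + |N₀| + K)/N₀^2, by positivity, min 1 (N₀/(2*(K+1))), by positivity, ?_⟩
  intro δ hδ hδ1 A B A' B' hA hB hA' hB'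
  have hd1 : δ < 1 := lt_of_lt_of_le hδ1 (min_le_left _ _)
  have hd2 : δ < N₀/(2*(K+1)) := lt_of_lt_of_le hδ1 (min_le_right _ _)
  have hd3 : δ * (K+1) < N₀/2 := by
    rw [lt_div_iff₀ (by positivity)] at hd2
    linarith
  have key : ∀ X : ℝ, |X| ≤ K → N₀/2 < N₀ + δ*X := by
    intro X hX
    have h1 : -K ≤ X := (abs_le.1 hX).1
    nlinarith
  have kA := key A hA
  have kA' := key A' hA'
  have pA : 0 < N₀ + δ*A := by linarith
  have pA' : 0 < N₀ + δ*A' := by linarith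
  refine ⟨?_, ?_, pA.ne'⟩
  · rw [abs_of_pos pA, abs_of_pos pA', div_sub_div _ _ pA.ne' pA'.ne', abs_div,
      abs_of_pos (mul_pos pA pA'), div_le_iff₀ (mul_pos pA pA')]
    have e1 : (M₀ + δ * B) * (N₀ + δ * A') - (N₀ + δ * A) * (M₀ + δ * B') =
        δ * (M₀ * (A' - A) + N₀ * (B - B') + δ * (B * (A' - A) + A * (B - B'))) := by ring
    rw [e1, abs_mul, abs_of_pos hδ]
    have e2 : |M₀ * (A' - A) + N₀ * (B - B') + δ * (B * (A' - A) + A * (B - B'))| ≤
        (|M₀| + |N₀| + K) * (|A-A'| + |B-B'|) := by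
      have t1 := abs_add_le (M₀ * (A' - A) + N₀ * (B - B')) (δ * (B * (A' - A) + A * (B - B')))
      have t2 := abs_add_le (M₀ * (A' - A)) (N₀ * (B - B'))
      have t3 := abs_add_le (B * (A' - A)) (A * (B - B'))
      rw [abs_mul, abs_mul] at t2 t3
      rw [abs_mul, abs_of_pos hδ] at t1
      rw [abs_sub_comm A' A] at t2 t3
      have a1 := abs_nonneg (A - A')
      have a2 := abs_nonneg (B - B')
      have t4 : |B| * |A - A'| ≤ K * |A - A'| := mul_le_mul_of_nonneg_right hB a1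
      have t5 : |A| * |B - B'| ≤ K * |B - B'| := mul_le_mul_of_nonneg_right hA a2
      have t6 : δ * |B * (A' - A) + A * (B - B')| ≤ 1 * |B * (A' - A) + A * (B - B')| :=
        mul_le_mul_of_nonneg_right hd1.le (abs_nonneg _)
      have t7 : 0 ≤ |M₀| * |B - B'| := by positivity
      have t8 : 0 ≤ |N₀| * |A - A'| := by positivity
      nlinarith
    have e3 : N₀^2/4 ≤ (N₀ + δ*A) * (N₀ + δ*A') := by nlinarith
    have e4 : 0 ≤ (|M₀| + |N₀| + K) * (|A-A'| + |B-B'|) := by positivity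
    calc δ * |M₀ * (A' - A) + N₀ * (B - B') + δ * (B * (A' - A) + A * (B - B'))|
        ≤ δ * ((|M₀| + |N₀| + K) * (|A-A'| + |B-B'|)) := mul_le_mul_of_nonneg_left e2 hδ.le
      _ = 4*(|M₀| + |N₀| + K)/N₀^2 * δ * (|A-A'| + |B-B'|) * (N₀^2/4) := by field_simp
      _ ≤ _ := by
        apply mul_le_mul_of_nonneg_left e3
        positivity
  · rw [abs_of_pos pA, abs_of_pos hN, div_self pA.ne', div_self hN.ne']

lemma quot (N₀ M₀ K : ℝ) (hN : N₀ ≠ 0) (hK : 0 ≤ K) : ∃ C, 0 ≤ C ∧ ∃ δ₁ > 0, ∀ δ : ℝ, 0 < δ → δ < δ₁ →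
    ∀ A B A' B' : ℝ, |A| ≤ K → |B| ≤ K → |A'| ≤ K → |B'| ≤ K →
    abs ((M₀ + δ*B)/|N₀ + δ*A| - (M₀ + δ*B')/|N₀ + δ*A'|) ≤ C*δ*(|A-A'| + |B-B'|) ∧
      (N₀ + δ*A)/|N₀ + δ*A| = N₀/|N₀| ∧ N₀ + δ*A ≠ 0 := by
  rcases lt_or_gt_of_ne hN with h | h
  · obtain ⟨C, hC, δ₁, hδ₁, H⟩ := quot_pos (-N₀) M₀ K (by linarith) hK
    refine ⟨C, hC, δ₁, hδ₁, ?_⟩
    intro δ hδ hδ1 A B A' B' hA hB hA' hB'
    obtain ⟨q1, q2, q3⟩ := H δ hδ hδ1 (-A) B (-A') B' (by rwa [abs_neg]) hB (by rwa [abs_neg]) hB'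
    have f1 : ∀ X : ℝ, -N₀ + δ * -X = -(N₀ + δ * X) := fun X => by ring
    rw [f1, f1, abs_neg, abs_neg, show -A - -A' = -(A - A') by ring, abs_neg] at q1
    rw [f1, abs_neg, abs_neg, neg_div, neg_div] at q2
    rw [f1] at q3
    exact ⟨q1, neg_injective q2, fun h => q3 (by rw [h]; simp)⟩
  · exact quot_pos N₀ M₀ K h hK

lemma bal {V₀ : Type} [Fintype V₀] (adj : V₀ → Prop) (c x : V₀ → ℝ) (hc : ∀ u, adj u → 0 < c u)
    (hc0 : ∀ u, ¬ adj u → c u = 0) (hs : ∑ u, c u * x u = 0) :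
    (∀ u, adj u → x u = 0) ∨ ((∃ u, adj u ∧ 0 < x u) ∧ ∃ u, adj u ∧ x u < 0) := by
  classical
  by_cases h1 : ∃ u, adj u ∧ 0 < x u
  · by_cases h2 : ∃ u, adj u ∧ x u < 0
    · exact Or.inr ⟨h1, h2⟩
    · left
      push Not at h2
      have hnn : ∀ u ∈ Finset.univ, 0 ≤ c u * x u := by
        intro u _
        by_cases hu : adj u
        · exact mul_nonneg (hc u hu).le (h2 u hu)
        · rw [hc0 u hu]; simp
      have := (Finset.sum_eq_zero_iff_of_nonneg hnn).1 hs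
      intro u hu
      have h3 := this u (Finset.mem_univ _)
      rcases mul_eq_zero.1 h3 with h4 | h4
      · exact absurd h4 (hc u hu).ne'
      · exact h4
  · left
    push Not at h1
    have hnn : ∀ u ∈ Finset.univ, c u * x u ≤ 0 := by
      intro u _
      by_cases hu : adj u
      · exact mul_nonpos_of_nonneg_of_nonpos (hc u hu).le (h1 u hu)
      · rw [hc0 u hu]; simp
    have := (Finset.sum_eq_zero_iff_of_nonpos hnn).1 hs
    intro u hu
    have h3 := this u (Finset.mem_univ _)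
    rcases mul_eq_zero.1 h3 with h4 | h4
    · exact absurd h4 (hc u hu).ne'
    · exact h4

lemma comb {V₀ : Type} [Fintype V₀] (n : ℝ × ℝ) (hn : n.1 ≠ 0 ∨ n.2 ≠ 0) (c : V₀ → ℝ) (D : V₀ → ℝ × ℝ)
    (h1 : ∑ u, c u * (n.1 * (D u).1 + n.2 * (D u).2) = 0)
    (h2 : ∑ u, c u * (-n.2 * (D u).1 + n.1 * (D u).2) = 0) (α β : ℝ) :
    ∑ u, c u * (α * (D u).1 + β * (D u).2) = 0 := by
  have hN : 0 < n.1^2 + n.2^2 := by
    rcases hn with h | h
    · have := sq_pos_of_ne_zero h; nlinarith [sq_nonneg n.2]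
    · have := sq_pos_of_ne_zero h; nlinarith [sq_nonneg n.1]
  have : (n.1^2 + n.2^2) * ∑ u, c u * (α * (D u).1 + β * (D u).2) =
      (α * n.1 + β * n.2) * ∑ u, c u * (n.1 * (D u).1 + n.2 * (D u).2) +
      (-α * n.2 + β * n.1) * ∑ u, c u * (-n.2 * (D u).1 + n.1 * (D u).2) := by
    rw [Finset.mul_sum, Finset.mul_sum, Finset.mul_sum, ← Finset.sum_add_distrib]
    apply Finset.sum_congr rfl
    intro u _
    ring
  rw [h1, h2] at this
  simp only [mul_zero, add_zero] at this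
  rcases mul_eq_zero.1 this with h | h
  · exact absurd h hN.ne'
  · exact h

lemma force {V₀ V : Type} [Fintype V₀] [DecidableEq V] (κ : V₀ → V) (a : V) (n : ℝ × ℝ)
    (hn : n.1 ≠ 0 ∨ n.2 ≠ 0) (W : V₀ → ℝ) (adj : V₀ → Prop) (hW : ∀ u, adj u → 0 < W u)
    (hW0 : ∀ u, ¬ adj u → W u = 0) (x y : V₀ → ℝ) (D : V₀ → ℝ × ℝ) (s : ℝ) (hs : 0 < s) (N0 : V₀ → ℝ)
    (hx : ∀ u, κ u = a → n.1 * (D u).1 + n.2 * (D u).2 = s * x u)
    (hy : ∀ u, κ u = a → -n.2 * (D u).1 + n.1 * (D u).2 = s * y u)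
    (hne : ∀ u, adj u → κ u ≠ a → n.1 * (D u).1 + n.2 * (D u).2 ≠ 0)
    (hsg : ∀ u, adj u → κ u ≠ a →
      (n.1 * (D u).1 + n.2 * (D u).2)/|n.1 * (D u).1 + n.2 * (D u).2| = N0 u/|N0 u|)
    (h1 : ∑ u, (if κ u = a then W u * x u else W u * (N0 u/|N0 u|)) = 0)
    (h2 : ∑ u, (if κ u = a then W u * y u else
      W u * ((-n.2 * (D u).1 + n.1 * (D u).2)/|n.1 * (D u).1 + n.2 * (D u).2|)) = 0) (α β : ℝ) :
    (∀ u, adj u → α * (D u).1 + β * (D u).2 = 0) ∨
      ((∃ u, adj u ∧ 0 < α * (D u).1 + β * (D u).2) ∧ (∃ u, adj u ∧ α * (D u).1 + β * (D u).2 < 0)) := by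
  classical
  set c : V₀ → ℝ := fun u => if κ u = a then W u / s else W u / |n.1 * (D u).1 + n.2 * (D u).2| with hcdef
  apply bal adj c
  · intro u hu
    simp only [hcdef]
    split_ifs with h
    · exact div_pos (hW u hu) hs
    · exact div_pos (hW u hu) (abs_pos.2 (hne u hu h))
  · intro u hu
    simp only [hcdef, hW0 u hu]
    simp
  · apply comb n hn
    · rw [← h1]
      apply Finset.sum_congr rfl
      intro u _
      simp only [hcdef]
      split_ifs with h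
      · rw [hx u h]; field_simp
      · by_cases hu : adj u
        · rw [← hsg u hu h]; ring
        · rw [hW0 u hu]; simp
    · rw [← h2]
      apply Finset.sum_congr rfl
      intro u _
      simp only [hcdef]
      split_ifs with h
      · rw [hy u h]; field_simp
      · ring

lemma clsum {V₀ V : Type} [Fintype V₀] [DecidableEq V] (κ : V₀ → V) (a : V) (W : V₀ → V₀ → ℝ) (τ : V₀ → ℝ)
    (hsym : ∀ v u, κ v = a → κ u = a → W v u = W u v) :
    ∑ v ∈ Finset.univ.filter (fun v => κ v = a), ∑ u ∈ Finset.univ.filter (fun u => κ u = a),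
      W v u * (τ u - τ v) = 0 := by
  set S := ∑ v ∈ Finset.univ.filter (fun v => κ v = a), ∑ u ∈ Finset.univ.filter (fun u => κ u = a),
      W v u * (τ u - τ v) with hS
  have : S = -S := by
    conv_lhs => rw [hS, Finset.sum_comm]
    rw [hS, ← Finset.sum_neg_distrib]
    apply Finset.sum_congr rfl
    intro v hv
    rw [← Finset.sum_neg_distrib]
    apply Finset.sum_congr rfl
    intro u hu
    rw [hsym u v (Finset.mem_filter.1 hu).2 (Finset.mem_filter.1 hv).2]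
    ring
  linarith

lemma energy {V₀ V : Type} [Fintype V₀] [DecidableEq V] (κ : V₀ → V) (a : V) (W : V₀ → V₀ → ℝ) (τ : V₀ → ℝ)
    (hsym : ∀ v u, κ v = a → κ u = a → W v u = W u v) (hnn : ∀ v u, κ v = a → κ u = a → 0 ≤ W v u)
    (hz : ∀ v, κ v = a → τ v * ∑ u ∈ Finset.univ.filter (fun u => κ u = a), W v u * (τ u - τ v) = 0) :
    ∀ v u, κ v = a → κ u = a → W v u * (τ u - τ v)^2 = 0 := by
  have h1 : ∑ v ∈ Finset.univ.filter (fun v => κ v = a), ∑ u ∈ Finset.univ.filter (fun u => κ u = a),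
      W v u * (τ v * (τ u - τ v)) = 0 := by
    apply Finset.sum_eq_zero
    intro v hv
    rw [← hz v (Finset.mem_filter.1 hv).2, Finset.mul_sum]
    apply Finset.sum_congr rfl
    intro u _
    ring
  have h2 : ∑ v ∈ Finset.univ.filter (fun v => κ v = a), ∑ u ∈ Finset.univ.filter (fun u => κ u = a),
      W v u * (τ u * (τ v - τ u)) = 0 := by
    rw [Finset.sum_comm, ← h1]
    apply Finset.sum_congr rfl
    intro v hv
    apply Finset.sum_congr rfl
    intro u hu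
    rw [hsym u v (Finset.mem_filter.1 hu).2 (Finset.mem_filter.1 hv).2]
  have h3 : ∑ v ∈ Finset.univ.filter (fun v => κ v = a), ∑ u ∈ Finset.univ.filter (fun u => κ u = a),
      W v u * (τ u - τ v)^2 = 0 := by
    have : ∑ v ∈ Finset.univ.filter (fun v => κ v = a), ∑ u ∈ Finset.univ.filter (fun u => κ u = a),
      W v u * (τ u - τ v)^2 = -(∑ v ∈ Finset.univ.filter (fun v => κ v = a), ∑ u ∈ Finset.univ.filter (fun u => κ u = a),
      W v u * (τ v * (τ u - τ v)) + ∑ v ∈ Finset.univ.filter (fun v => κ v = a), ∑ u ∈ Finset.univ.filter (fun u => κ u = a),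
      W v u * (τ u * (τ v - τ u))) := by
      rw [← Finset.sum_add_distrib, ← Finset.sum_neg_distrib]
      apply Finset.sum_congr rfl
      intro v _
      rw [← Finset.sum_add_distrib, ← Finset.sum_neg_distrib]
      apply Finset.sum_congr rfl
      intro u _
      ring
    rw [this, h1, h2]; simp
  intro v u hv hu
  have hn2 : ∀ v ∈ Finset.univ.filter (fun v => κ v = a), 0 ≤ ∑ u ∈ Finset.univ.filter (fun u => κ u = a),
      W v u * (τ u - τ v)^2 := by
    intro v hv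
    apply Finset.sum_nonneg
    intro u hu
    exact mul_nonneg (hnn v u (Finset.mem_filter.1 hv).2 (Finset.mem_filter.1 hu).2) (sq_nonneg _)
  have h4 := (Finset.sum_eq_zero_iff_of_nonneg hn2).1 h3 v (by simp [hv])
  have h5 := (Finset.sum_eq_zero_iff_of_nonneg (fun u hu => mul_nonneg (hnn v u hv (Finset.mem_filter.1 hu).2)
    (sq_nonneg (τ u - τ v)))).1 h4 u (by simp [hu])
  exact h5

lemma pair {V₀ : Type} [Fintype V₀] (I : V₀ → Prop) [DecidablePred I] (m Q : V₀ → ℝ × ℝ) (h : V₀ → ℝ)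
    (R : ℝ) (v u : V₀) (hne : nrm (m v) (Q v) (Q u) ≠ 0) :
    ∃ C, 0 ≤ C ∧ ∃ δ₁ > 0, ∀ δ : ℝ, 0 < δ → δ < δ₁ → ∀ τ τ' : V₀ → ℝ, (∀ x, |τ x| ≤ R) →
      (∀ x, |τ' x| ≤ R) →
      (∀ η : ℝ, (∀ x, |τ x - τ' x| ≤ η) →
        abs (tng (m v) (pos I m Q h τ δ v) (pos I m Q h τ δ u) /
            |nrm (m v) (pos I m Q h τ δ v) (pos I m Q h τ δ u)| -
          tng (m v) (pos I m Q h τ' δ v) (pos I m Q h τ' δ u) /
            |nrm (m v) (pos I m Q h τ' δ v) (pos I m Q h τ' δ u)|) ≤ C * δ * η) ∧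
      abs (tng (m v) (pos I m Q h τ δ v) (pos I m Q h τ δ u) /
            |nrm (m v) (pos I m Q h τ δ v) (pos I m Q h τ δ u)| -
          tng (m v) (Q v) (Q u) / |nrm (m v) (Q v) (Q u)|) ≤ C * δ ∧
      nrm (m v) (pos I m Q h τ δ v) (pos I m Q h τ δ u) /
        |nrm (m v) (pos I m Q h τ δ v) (pos I m Q h τ δ u)| =
          nrm (m v) (Q v) (Q u) / |nrm (m v) (Q v) (Q u)| ∧
      nrm (m v) (pos I m Q h τ δ v) (pos I m Q h τ δ u) ≠ 0 := by
  obtain ⟨K, hK, hKb⟩ := E_bd I m h R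
  obtain ⟨K2, hK2, hK2b⟩ := E_lip I m h
  set S : ℝ := |(m v).1| + |(m v).2| with hS
  have hS0 : 0 ≤ S := by positivity
  obtain ⟨C, hC, δ₁, hδ₁, H⟩ := quot (nrm (m v) (Q v) (Q u)) (tng (m v) (Q v) (Q u)) (S * (2 * K)) hne
    (by positivity)
  refine ⟨C * (4 * S * K2) + C * (2 * (S * (2 * K))), by positivity, δ₁, hδ₁, ?_⟩
  intro δ hδ hδ1 τ τ' hτ hτ'
  have hnr : ∀ τ : V₀ → ℝ, nrm (m v) (pos I m Q h τ δ v) (pos I m Q h τ δ u) = nrm (m v) (Q v) (Q u) +
      δ * ((m v).1 * ((E I m h τ u).1 - (E I m h τ v).1) + (m v).2 * ((E I m h τ u).2 - (E I m h τ v).2)) := by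
    intro τ; unfold nrm pos; simp only; ring
  have htn : ∀ τ : V₀ → ℝ, tng (m v) (pos I m Q h τ δ v) (pos I m Q h τ δ u) = tng (m v) (Q v) (Q u) +
      δ * (-(m v).2 * ((E I m h τ u).1 - (E I m h τ v).1) + (m v).1 * ((E I m h τ u).2 - (E I m h τ v).2)) := by
    intro τ; unfold tng pos; simp only; ring
  have hbd2 : ∀ p q x y k : ℝ, |x| ≤ k → |y| ≤ k → |p * x + q * y| ≤ (|p| + |q|) * k := by
    intro p q x y k hx hy
    have h1 := abs_add_le (p * x) (q * y)
    rw [abs_mul, abs_mul] at h1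
    have h2 := mul_le_mul_of_nonneg_left hx (abs_nonneg p)
    have h3 := mul_le_mul_of_nonneg_left hy (abs_nonneg q)
    linarith
  have hsub : ∀ x y k : ℝ, |x| ≤ k → |y| ≤ k → |x - y| ≤ 2 * k := by
    intro x y k hx hy
    have := abs_sub x y
    linarith
  have hA : ∀ τ : V₀ → ℝ, (∀ x, |τ x| ≤ R) →
      |(m v).1 * ((E I m h τ u).1 - (E I m h τ v).1) + (m v).2 * ((E I m h τ u).2 - (E I m h τ v).2)| ≤
        S * (2 * K) := by
    intro τ hτ
    exact hbd2 _ _ _ _ _ (hsub _ _ _ (hKb τ hτ u).1 (hKb τ hτ v).1) (hsub _ _ _ (hKb τ hτ u).2 (hKb τ hτ v).2)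
  have hB : ∀ τ : V₀ → ℝ, (∀ x, |τ x| ≤ R) →
      |-(m v).2 * ((E I m h τ u).1 - (E I m h τ v).1) + (m v).1 * ((E I m h τ u).2 - (E I m h τ v).2)| ≤
        S * (2 * K) := by
    intro τ hτ
    have := hbd2 (-(m v).2) (m v).1 _ _ _ (hsub _ _ _ (hKb τ hτ u).1 (hKb τ hτ v).1)
      (hsub _ _ _ (hKb τ hτ u).2 (hKb τ hτ v).2)
    rw [abs_neg, add_comm |(m v).2|] at this
    exact this
  obtain ⟨q1, q2, q3⟩ := H δ hδ hδ1 _ _ _ _ (hA τ hτ) (hB τ hτ) (hA τ' hτ') (hB τ' hτ')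
  obtain ⟨q4, _, _⟩ := H δ hδ hδ1 _ _ 0 0 (hA τ hτ) (hB τ hτ) (by rw [abs_zero]; positivity)
    (by rw [abs_zero]; positivity)
  refine ⟨?_, ?_, ?_, ?_⟩
  · intro η hη
    rw [hnr, htn, hnr, htn]
    refine q1.trans ?_
    have hη0 : 0 ≤ η := (abs_nonneg _).trans (hη v)
    have hl : ∀ x, |(E I m h τ x).1 - (E I m h τ' x).1| ≤ K2 * η ∧ |(E I m h τ x).2 - (E I m h τ' x).2| ≤ K2 * η := by
      intro x
      obtain ⟨l1, l2⟩ := hK2b τ τ' x
      have := mul_le_mul_of_nonneg_left (hη x) hK2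
      exact ⟨l1.trans this, l2.trans this⟩
    have hAA : |(m v).1 * ((E I m h τ u).1 - (E I m h τ v).1) + (m v).2 * ((E I m h τ u).2 - (E I m h τ v).2) -
        ((m v).1 * ((E I m h τ' u).1 - (E I m h τ' v).1) + (m v).2 * ((E I m h τ' u).2 - (E I m h τ' v).2))| ≤
        S * (2 * (K2 * η)) := by
      have e : (m v).1 * ((E I m h τ u).1 - (E I m h τ v).1) + (m v).2 * ((E I m h τ u).2 - (E I m h τ v).2) -
        ((m v).1 * ((E I m h τ' u).1 - (E I m h τ' v).1) + (m v).2 * ((E I m h τ' u).2 - (E I m h τ' v).2)) =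
        (m v).1 * (((E I m h τ u).1 - (E I m h τ' u).1) - ((E I m h τ v).1 - (E I m h τ' v).1)) +
        (m v).2 * (((E I m h τ u).2 - (E I m h τ' u).2) - ((E I m h τ v).2 - (E I m h τ' v).2)) := by ring
      rw [e]
      exact hbd2 _ _ _ _ _ (hsub _ _ _ (hl u).1 (hl v).1) (hsub _ _ _ (hl u).2 (hl v).2)
    have hBB : |-(m v).2 * ((E I m h τ u).1 - (E I m h τ v).1) + (m v).1 * ((E I m h τ u).2 - (E I m h τ v).2) -
        (-(m v).2 * ((E I m h τ' u).1 - (E I m h τ' v).1) + (m v).1 * ((E I m h τ' u).2 - (E I m h τ' v).2))| ≤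
        S * (2 * (K2 * η)) := by
      have e : -(m v).2 * ((E I m h τ u).1 - (E I m h τ v).1) + (m v).1 * ((E I m h τ u).2 - (E I m h τ v).2) -
        (-(m v).2 * ((E I m h τ' u).1 - (E I m h τ' v).1) + (m v).1 * ((E I m h τ' u).2 - (E I m h τ' v).2)) =
        -(m v).2 * (((E I m h τ u).1 - (E I m h τ' u).1) - ((E I m h τ v).1 - (E I m h τ' v).1)) +
        (m v).1 * (((E I m h τ u).2 - (E I m h τ' u).2) - ((E I m h τ v).2 - (E I m h τ' v).2)) := by ring
      rw [e]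
      have := hbd2 (-(m v).2) (m v).1 _ _ _ (hsub _ _ _ (hl u).1 (hl v).1) (hsub _ _ _ (hl u).2 (hl v).2)
      rw [abs_neg, add_comm |(m v).2|] at this
      exact this
    have hs : S * (2 * (K2 * η)) + S * (2 * (K2 * η)) = 4 * S * K2 * η := by ring
    calc _ ≤ C * δ * (S * (2 * (K2 * η)) + S * (2 * (K2 * η))) := by
          apply mul_le_mul_of_nonneg_left (add_le_add hAA hBB); positivity
      _ = C * (4 * S * K2) * δ * η := by ring
      _ ≤ _ := by
        have : 0 ≤ C * (2 * (S * (2 * K))) * δ * η := by positivity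
        nlinarith
  · rw [hnr, htn]
    rw [mul_zero, add_zero, add_zero] at q4
    refine q4.trans ?_
    rw [sub_zero, sub_zero]
    calc _ ≤ C * δ * (S * (2 * K) + S * (2 * K)) := by
          apply mul_le_mul_of_nonneg_left (add_le_add (hA τ hτ) (hB τ hτ)); positivity
      _ ≤ _ := by
        have : 0 ≤ C * (4 * S * K2) * δ := by positivity
        nlinarith
  · rw [hnr]; exact q2
  · rw [hnr]; exact q3

end W_REAL

open W_REAL in
theorem REAL {V₀ V : Type} [Fintype V₀] [Fintype V] [DecidableEq V] (T₀ : Tri V₀) (T : Tri V) (κ : V₀ → V)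
    (hc : Clus T₀ T κ) (o₁ o₂ o₃ : V₀) (ho : T₀.F o₁ o₂ o₃) (s1 : ∀ v, κ v = κ o₁ → v = o₁)
    (s2 : ∀ v, κ v = κ o₂ → v = o₂) (s3 : ∀ v, κ v = κ o₃ → v = o₃)
    (P : V → ℝ × ℝ) (hd : Drawn T (κ o₁) (κ o₂) (κ o₃) P) (n : V → ℝ × ℝ) (hn : ∀ a, (n a).1 ≠ 0 ∨ (n a).2 ≠ 0)
    (hgen : ∀ a b, a ≠ κ o₁ → a ≠ κ o₂ → a ≠ κ o₃ → T.G.Adj a b → nrm (n a) (P a) (P b) ≠ 0) (h : V₀ → ℝ)
    (hval : ∀ v, κ v ≠ κ o₁ → κ v ≠ κ o₂ → κ v ≠ κ o₃ →
      (∃ u, T₀.G.Adj v u ∧ ((κ u = κ v ∧ h u < h v) ∨ (κ u ≠ κ v ∧ nrm (n (κ v)) (P (κ v)) (P (κ u)) < 0))) ∧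
      (∃ u, T₀.G.Adj v u ∧ ((κ u = κ v ∧ h v < h u) ∨ (κ u ≠ κ v ∧ 0 < nrm (n (κ v)) (P (κ v)) (P (κ u)))))) :
    ∃ p : V₀ → ℝ × ℝ, Drawn T₀ o₁ o₂ o₃ p ∧ ∀ u v, κ u = κ v → h u = h v →
      (n (κ u)).1 * (p u).1 + (n (κ u)).2 * (p u).2 = (n (κ u)).1 * (p v).1 + (n (κ u)).2 * (p v).2 := by
  classical
  haveI hne0 : Nonempty V₀ := ⟨o₁⟩
  set I : V₀ → Prop := fun v => κ v ≠ κ o₁ ∧ κ v ≠ κ o₂ ∧ κ v ≠ κ o₃ with hI
  set m : V₀ → ℝ × ℝ := fun v => n (κ v) with hm
  set Q : V₀ → ℝ × ℝ := fun v => P (κ v) with hQ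
  have hmem : ∀ a : V, ∃ v, κ v = a := by
    intro a
    obtain ⟨⟨v, hv⟩, _⟩ := hc.1 a
    exact ⟨v, hv⟩
  have hF : ∀ a, (a ≠ κ o₁ ∧ a ≠ κ o₂ ∧ a ≠ κ o₃) → ∃ w : V₀ → V₀ → ℝ, (∀ v u, κ v = a → κ u = a → w v u = w u v) ∧
      (∀ v u, κ v = a → T₀.G.Adj v u → 0 < w v u) ∧ (∀ v u, ¬ T₀.G.Adj v u → w v u = 0) ∧
      (∀ v, κ v = a → ∑ u, (if κ u = a then w v u * (h u - h v)
        else w v u * (nrm (n a) (P a) (P (κ u)) / |nrm (n a) (P a) (P (κ u))|)) = 0) ∧
      (∑ v ∈ Finset.univ.filter (fun v => κ v = a), ∑ u ∈ Finset.univ.filter (fun u => κ u ≠ a),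
        w v u * (tng (n a) (P a) (P (κ u)) / |nrm (n a) (P a) (P (κ u))|)) = 0 := by
    intro a ha
    refine F1 T₀ T κ hc (κ o₁) (κ o₂) (κ o₃) P hd a ha.1 ha.2.1 ha.2.2 (n a) (hn a)
      (fun b hb => hgen a b ha.1 ha.2.1 ha.2.2 hb) h ?_
    intro v hv
    subst hv
    exact hval v ha.1 ha.2.1 ha.2.2
  choose! w hw1 hw2 hw3 hw4 hw5 using hF
  set W : V₀ → V₀ → ℝ := fun v u => w (κ v) v u with hW
  have W_symm : ∀ a, (a ≠ κ o₁ ∧ a ≠ κ o₂ ∧ a ≠ κ o₃) → ∀ v u, κ v = a → κ u = a → W v u = W u v := by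
    intro a ha v u hv hu
    simp only [hW, hv, hu]
    exact hw1 a ha v u hv hu
  have W_pos : ∀ v, I v → ∀ u, T₀.G.Adj v u → 0 < W v u := fun v hv u hu => hw2 (κ v) hv v u rfl hu
  have W_zero : ∀ v, I v → ∀ u, ¬ T₀.G.Adj v u → W v u = 0 := fun v hv u hu => hw3 (κ v) hv v u hu
  have W_h : ∀ v, I v → ∑ u, (if κ u = κ v then W v u * (h u - h v)
        else W v u * (nrm (m v) (Q v) (Q u) / |nrm (m v) (Q v) (Q u)|)) = 0 :=
    fun v hv => hw4 (κ v) hv v rfl
  have W_t : ∀ a, (a ≠ κ o₁ ∧ a ≠ κ o₂ ∧ a ≠ κ o₃) →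
      ∑ v ∈ Finset.univ.filter (fun v => κ v = a), ∑ u ∈ Finset.univ.filter (fun u => κ u ≠ a),
        W v u * (tng (m v) (Q v) (Q u) / |nrm (m v) (Q v) (Q u)|) = 0 := by
    intro a ha
    rw [← hw5 a ha]
    apply Finset.sum_congr rfl
    intro v hv
    have hva : κ v = a := (Finset.mem_filter.1 hv).2
    apply Finset.sum_congr rfl
    intro u _
    simp only [hW, hm, hQ, hva]
  -- representatives
  have hrep : ∀ a, (a ≠ κ o₁ ∧ a ≠ κ o₂ ∧ a ≠ κ o₃) → ∃ r b₀ c₀ : V₀, κ r = a ∧ T₀.G.Adj r b₀ ∧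
      T₀.G.Adj r c₀ ∧ κ b₀ ≠ a ∧ κ c₀ ≠ a ∧ 0 < crs (P a) (P (κ b₀)) (P (κ c₀)) := by
    intro a ha
    have hf : ∃ b c, T.F a b c := by
      have hp := T.conn a (κ o₁)
      rcases Relation.ReflTransGen.cases_head hp with h | ⟨y, ⟨z, hz⟩, _⟩
      · exact absurd h ha.1
      · exact ⟨y, z, hz⟩
    obtain ⟨b, c, hbc⟩ := hf
    have hcr := hd.2.2 a b c hbc (by
      rintro (⟨h, _⟩ | ⟨h, _⟩ | ⟨h, _⟩)
      · exact ha.1 h
      · exact ha.2.1 h
      · exact ha.2.2 h)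
    obtain ⟨hab, hbc', hac, a₀, b₀, c₀, ha₀, hb₀, hc₀, hf₀⟩ := (hc.2 a b c).1 hbc
    have hf1 : T₀.F c₀ a₀ b₀ := T₀.rot _ _ _ (T₀.rot _ _ _ hf₀)
    refine ⟨a₀, b₀, c₀, ha₀, ⟨c₀, hf₀⟩, (show T₀.G.Adj c₀ a₀ from ⟨b₀, hf1⟩).symm, ?_, ?_, ?_⟩
    · rw [hb₀]; exact hab.symm
    · rw [hc₀]; exact hac.symm
    · rw [hb₀, hc₀]; exact hcr
  choose! r b₀ c₀ hr1 hr2 hr3 hr4 hr5 hr6 using hrep
  set J : V₀ → Prop := fun v => I v ∧ r (κ v) ≠ v with hJ
  have nJr : ∀ a, (a ≠ κ o₁ ∧ a ≠ κ o₂ ∧ a ≠ κ o₃) → ¬ J (r a) := by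
    intro a ha hj
    apply hj.2
    rw [hr1 a ha]
  have hNe : ∀ v, I v → ∀ u, T₀.G.Adj v u → κ u ≠ κ v → nrm (m v) (Q v) (Q u) ≠ 0 := by
    intro v hv u hu huv
    exact hgen (κ v) (κ u) hv.1 hv.2.1 hv.2.2 ((CLUS_ADJ T₀ T κ hc _ _).2 ⟨huv.symm, v, u, rfl, rfl, hu⟩)
  -- the linear map
  let L : ({v // J v} → ℝ) →ₗ[ℝ] ({v // J v} → ℝ) :=
    { toFun := fun t v => ∑ u ∈ Finset.univ.filter (fun u => κ u = κ v.1), W v.1 u * (ext J t u - ext J t v.1)
      map_add' := by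
        intro t t'
        funext v
        simp only [Pi.add_apply]
        rw [← Finset.sum_add_distrib]
        apply Finset.sum_congr rfl
        intro u _
        rw [ext_add, ext_add]; ring
      map_smul' := by
        intro c t
        funext v
        simp only [Pi.smul_apply, smul_eq_mul, RingHom.id_apply]
        rw [Finset.mul_sum]
        apply Finset.sum_congr rfl
        intro u _
        rw [ext_smul, ext_smul]; ring }
  have L_app : ∀ t v, L t v = ∑ u ∈ Finset.univ.filter (fun u => κ u = κ v.1), W v.1 u * (ext J t u - ext J t v.1) :=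
    fun t v => rfl
  have hLinj : Function.Injective L := by
    rw [injective_iff_map_eq_zero]
    intro t ht
    funext v
    obtain ⟨v, hv⟩ := v
    have hvI : I v := hv.1
    set a := κ v with ha
    have hen := energy κ a W (ext J t) (W_symm a hvI) (by
      intro v' u hv' hu
      have hI' : I v' := by
        show κ v' ≠ _ ∧ κ v' ≠ _ ∧ κ v' ≠ _
        rw [hv']; exact hvI
      by_cases hadj : T₀.G.Adj v' u
      · exact (W_pos v' hI' u hadj).le
      · rw [W_zero v' hI' u hadj]) (by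
      intro v' hv'
      have hI' : I v' := by
        show κ v' ≠ _ ∧ κ v' ≠ _ ∧ κ v' ≠ _
        rw [hv']; exact hvI
      by_cases hj : J v'
      · have := congrFun ht ⟨v', hj⟩
        rw [L_app] at this
        simp only [hv'] at this
        rw [this]; simp
      · have : ext J t v' = 0 := by unfold ext; rw [dif_neg hj]
        rw [this]; simp)
    have hstep : ∀ x y, κ x = a → κ y = a → T₀.G.Adj x y → ext J t y = ext J t x := by
      intro x y hx hy hxy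
      have hI' : I x := by
        show κ x ≠ _ ∧ κ x ≠ _ ∧ κ x ≠ _
        rw [hx]; exact hvI
      have h1 := hen x y hx hy
      rcases mul_eq_zero.1 h1 with h2 | h2
      · exact absurd h2 (W_pos x hI' y hxy).ne'
      · have := pow_eq_zero_iff (two_ne_zero) |>.1 h2
        linarith
    have hpath := (hc.1 a).2 v (by simp [ha]) (r a) (by simp [hr1 a hvI])
    have hall : ∀ y, Relation.ReflTransGen (fun x y => T₀.G.Adj x y ∧ y ∈ κ ⁻¹' {a}) v y →
        κ y = a ∧ ext J t y = ext J t v := by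
      intro y hy
      induction hy with
      | refl => exact ⟨rfl, rfl⟩
      | tail _ hbc ih =>
        obtain ⟨ih1, ih2⟩ := ih
        have hk : κ _ = a := hbc.2
        exact ⟨hk, (hstep _ _ ih1 hk hbc.1).trans ih2⟩
    have h3 := (hall (r a) hpath).2
    have h4 : ext J t (r a) = 0 := by unfold ext; rw [dif_neg (nJr a hvI)]
    have h5 : ext J t v = t ⟨v, hv⟩ := by unfold ext; rw [dif_pos hv]
    rw [Pi.zero_apply, ← h5, ← h3, h4]
  -- the nonlinear part
  let q : (V₀ → ℝ) → ℝ → V₀ → V₀ → ℝ := fun τ δ v u =>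
    tng (m v) (pos I m Q h τ δ v) (pos I m Q h τ δ u) / |nrm (m v) (pos I m Q h τ δ v) (pos I m Q h τ δ u)|
  let q0 : V₀ → V₀ → ℝ := fun v u => tng (m v) (Q v) (Q u) / |nrm (m v) (Q v) (Q u)|
  let g : ℝ → ({v // J v} → ℝ) → ({v // J v} → ℝ) := fun δ t v =>
    ∑ u ∈ Finset.univ.filter (fun u => ¬ κ u = κ v.1), W v.1 u * q (ext J t) δ v.1 u
  let g₀ : {v // J v} → ℝ := fun v => ∑ u ∈ Finset.univ.filter (fun u => ¬ κ u = κ v.1), W v.1 u * q0 v.1 u
  have hg0 : ∀ t, g 0 t = g₀ := by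
    intro t
    funext v
    simp only [g, g₀, q, q0]
    apply Finset.sum_congr rfl
    intro u _
    have hp : ∀ x, pos I m Q h (ext J t) 0 x = Q x := by
      intro x
      unfold pos
      simp
    rw [hp, hp]
  -- pair constants
  have hpair : ∀ R : ℝ, ∃ C : V₀ → V₀ → ℝ, ∃ δ₁ : ℝ, 0 < δ₁ ∧ (∀ v u, 0 ≤ C v u) ∧ ∀ v u,
      nrm (m v) (Q v) (Q u) ≠ 0 → ∀ δ : ℝ, 0 < δ → δ < δ₁ → ∀ τ τ' : V₀ → ℝ, (∀ x, |τ x| ≤ R) →
      (∀ x, |τ' x| ≤ R) →
      (∀ η : ℝ, (∀ x, |τ x - τ' x| ≤ η) → |q τ δ v u - q τ' δ v u| ≤ C v u * δ * η) ∧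
      |q τ δ v u - q0 v u| ≤ C v u * δ ∧
      nrm (m v) (pos I m Q h τ δ v) (pos I m Q h τ δ u) /
        |nrm (m v) (pos I m Q h τ δ v) (pos I m Q h τ δ u)| =
          nrm (m v) (Q v) (Q u) / |nrm (m v) (Q v) (Q u)| ∧
      nrm (m v) (pos I m Q h τ δ v) (pos I m Q h τ δ u) ≠ 0 := by
    intro R
    have h1 : ∀ v u : V₀, ∃ C δ₁ : ℝ, 0 ≤ C ∧ 0 < δ₁ ∧ (nrm (m v) (Q v) (Q u) ≠ 0 → ∀ δ : ℝ, 0 < δ → δ < δ₁ →
        ∀ τ τ' : V₀ → ℝ, (∀ x, |τ x| ≤ R) → (∀ x, |τ' x| ≤ R) →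
      (∀ η : ℝ, (∀ x, |τ x - τ' x| ≤ η) → |q τ δ v u - q τ' δ v u| ≤ C * δ * η) ∧
      |q τ δ v u - q0 v u| ≤ C * δ ∧
      nrm (m v) (pos I m Q h τ δ v) (pos I m Q h τ δ u) /
        |nrm (m v) (pos I m Q h τ δ v) (pos I m Q h τ δ u)| =
          nrm (m v) (Q v) (Q u) / |nrm (m v) (Q v) (Q u)| ∧
      nrm (m v) (pos I m Q h τ δ v) (pos I m Q h τ δ u) ≠ 0) := by
      intro v u
      by_cases hne : nrm (m v) (Q v) (Q u) = 0
      · exact ⟨0, 1, le_refl _, one_pos, fun h => absurd hne h⟩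
      · obtain ⟨C, hC, δ₁, hδ₁, H⟩ := pair I m Q h R v u hne
        exact ⟨C, δ₁, hC, hδ₁, fun _ => H⟩
    choose C D hC hD H using h1
    haveI : Nonempty (V₀ × V₀) := ⟨(o₁, o₁)⟩
    obtain ⟨p₀, hp₀⟩ := Finite.exists_min (fun p : V₀ × V₀ => D p.1 p.2)
    refine ⟨C, D p₀.1 p₀.2, hD _ _, hC, ?_⟩
    intro v u hne δ hδ hδ1 τ τ' hτ hτ'
    exact H v u hne δ hδ (lt_of_lt_of_le hδ1 (hp₀ (v, u))) τ τ' hτ hτ'
  have hlip : ∀ R : ℝ, ∃ C δ₁ : ℝ, 0 < δ₁ ∧ ∀ δ, 0 < δ → δ < δ₁ → ∀ t t' : {v // J v} → ℝ, ‖t‖ ≤ R → ‖t'‖ ≤ R →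
      ‖g δ t - g δ t'‖ ≤ C * δ * ‖t - t'‖ ∧ ‖g δ t - g₀‖ ≤ C * δ := by
    intro R
    obtain ⟨C, δ₁, hδ₁, hC, H⟩ := hpair R
    refine ⟨∑ v, ∑ u, |W v u| * C v u, δ₁, hδ₁, ?_⟩
    intro δ hδ hδ1 t t' ht ht'
    have hτ : ∀ x, |ext J t x| ≤ R := fun x => (ext_bd J t x).trans ht
    have hτ' : ∀ x, |ext J t' x| ≤ R := fun x => (ext_bd J t' x).trans ht'
    have hCt : 0 ≤ ∑ v, ∑ u, |W v u| * C v u :=
      Finset.sum_nonneg fun v _ => Finset.sum_nonneg fun u _ => mul_nonneg (abs_nonneg _) (hC v u)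
    have hrow : ∀ v, ∑ u, |W v u| * C v u ≤ ∑ v, ∑ u, |W v u| * C v u := fun v =>
      Finset.single_le_sum (f := fun v => ∑ u, |W v u| * C v u)
        (fun v _ => Finset.sum_nonneg fun u _ => mul_nonneg (abs_nonneg _) (hC v u)) (Finset.mem_univ v)
    -- generic row estimate
    have hgen' : ∀ (x y : V₀ → V₀ → ℝ) (k : ℝ), 0 ≤ k → ∀ v : {v // J v},
        (∀ u, ¬ κ u = κ v.1 → T₀.G.Adj v.1 u → |x v.1 u - y v.1 u| ≤ C v.1 u * k) →
        |∑ u ∈ Finset.univ.filter (fun u => ¬ κ u = κ v.1), W v.1 u * x v.1 u -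
          ∑ u ∈ Finset.univ.filter (fun u => ¬ κ u = κ v.1), W v.1 u * y v.1 u| ≤
          (∑ v, ∑ u, |W v u| * C v u) * k := by
      intro x y k hk v hxy
      rw [← Finset.sum_sub_distrib]
      calc _ ≤ ∑ u ∈ Finset.univ.filter (fun u => ¬ κ u = κ v.1), |W v.1 u * x v.1 u - W v.1 u * y v.1 u| :=
            Finset.abs_sum_le_sum_abs _ _
        _ ≤ ∑ u ∈ Finset.univ.filter (fun u => ¬ κ u = κ v.1), |W v.1 u| * C v.1 u * k := by
            apply Finset.sum_le_sum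
            intro u hu
            rw [← mul_sub, abs_mul, mul_assoc]
            by_cases hadj : T₀.G.Adj v.1 u
            · exact mul_le_mul_of_nonneg_left (hxy u (Finset.mem_filter.1 hu).2 hadj) (abs_nonneg _)
            · rw [W_zero v.1 v.2.1 u hadj]; simp
        _ ≤ ∑ u, |W v.1 u| * C v.1 u * k := by
            apply Finset.sum_le_sum_of_subset_of_nonneg (Finset.filter_subset _ _)
            intro u _ _
            exact mul_nonneg (mul_nonneg (abs_nonneg _) (hC v.1 u)) hk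
        _ = (∑ u, |W v.1 u| * C v.1 u) * k := by rw [Finset.sum_mul]
        _ ≤ _ := mul_le_mul_of_nonneg_right (hrow v.1) hk
    constructor
    · rw [mul_assoc]
      rw [pi_norm_le_iff_of_nonneg (by positivity)]
      intro v
      rw [Real.norm_eq_abs, Pi.sub_apply]
      apply hgen' (fun v u => q (ext J t) δ v u) (fun v u => q (ext J t') δ v u) (δ * ‖t - t'‖) (by positivity) v
      intro u hu hadj
      have := (H v.1 u (hNe v.1 v.2.1 u hadj hu) δ hδ hδ1 _ _ hτ hτ').1 ‖t - t'‖ (fun x => ext_sub_bd J t t' x)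
      rw [← mul_assoc]; exact this
    · rw [pi_norm_le_iff_of_nonneg (by positivity)]
      intro v
      rw [Real.norm_eq_abs, Pi.sub_apply]
      apply hgen' (fun v u => q (ext J t) δ v u) (fun v u => q0 v u) δ hδ.le v
      intro u hu hadj
      exact (H v.1 u (hNe v.1 v.2.1 u hadj hu) δ hδ hδ1 _ _ hτ hτ').2.1
  obtain ⟨t₀, ht₀, hFPT⟩ := FPT L hLinj g g₀ hg0 hlip
  set τ₀ : V₀ → ℝ := ext J t₀ with hτ₀
  -- the equation at every inner vertex, in the limit
  have hsplit : ∀ v, ∀ (X Y : V₀ → ℝ), ∑ u, (if κ u = κ v then X u else Y u) =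
      ∑ u ∈ Finset.univ.filter (fun u => κ u = κ v), X u + ∑ u ∈ Finset.univ.filter (fun u => ¬ κ u = κ v), Y u := by
    intro v X Y
    rw [Finset.sum_ite]
  have heqJ : ∀ v (hv : J v), ∑ u ∈ Finset.univ.filter (fun u => κ u = κ v), W v u * (τ₀ u - τ₀ v) +
      ∑ u ∈ Finset.univ.filter (fun u => ¬ κ u = κ v), W v u * q0 v u = 0 := by
    intro v hv
    exact congrFun ht₀ ⟨v, hv⟩
  have heqr : ∀ a, (a ≠ κ o₁ ∧ a ≠ κ o₂ ∧ a ≠ κ o₃) → ∑ u ∈ Finset.univ.filter (fun u => κ u = κ (r a)), W (r a) u * (τ₀ u - τ₀ (r a)) +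
      ∑ u ∈ Finset.univ.filter (fun u => ¬ κ u = κ (r a)), W (r a) u * q0 (r a) u = 0 := by
    intro a ha
    have h1 := clsum κ a W τ₀ (W_symm a ha)
    have h2 := W_t a ha
    have h3 : ∑ v ∈ Finset.univ.filter (fun v => κ v = a), (∑ u ∈ Finset.univ.filter (fun u => κ u = κ v), W v u * (τ₀ u - τ₀ v) +
      ∑ u ∈ Finset.univ.filter (fun u => ¬ κ u = κ v), W v u * q0 v u) = 0 := by
      rw [Finset.sum_add_distrib]
      rw [← add_zero (0:ℝ)]
      congr 1
      · rw [← h1]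
        apply Finset.sum_congr rfl
        intro v hv
        rw [(Finset.mem_filter.1 hv).2]
      · rw [← h2]
        apply Finset.sum_congr rfl
        intro v hv
        rw [(Finset.mem_filter.1 hv).2]
    rw [Finset.sum_eq_single (r a)] at h3
    · exact h3
    · intro v hv hvr
      apply heqJ
      have hva : κ v = a := (Finset.mem_filter.1 hv).2
      refine ⟨?_, ?_⟩
      · show κ v ≠ _ ∧ κ v ≠ _ ∧ κ v ≠ _
        rw [hva]; exact ha
      · rw [hva]; exact hvr.symm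
    · intro hnot
      exact (hnot (by simp [hr1 a ha])).elim
  -- norms of the normals
  have hN2 : ∀ a, 0 < (n a).1^2 + (n a).2^2 := by
    intro a
    rcases hn a with h | h
    · have := sq_pos_of_ne_zero h; nlinarith [sq_nonneg (n a).2]
    · have := sq_pos_of_ne_zero h; nlinarith [sq_nonneg (n a).1]
  -- limiting vectors at representatives
  let d : V → V₀ → ℝ × ℝ := fun a u => if κ u = a then
      ((h u - h (r a)) * (n a).1 - (τ₀ u - τ₀ (r a)) * (n a).2, (h u - h (r a)) * (n a).2 + (τ₀ u - τ₀ (r a)) * (n a).1)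
    else ((P (κ u)).1 - (P a).1, (P (κ u)).2 - (P a).2)
  have hdpos : ∀ a, (a ≠ κ o₁ ∧ a ≠ κ o₂ ∧ a ≠ κ o₃) → ∀ α β : ℝ, (α ≠ 0 ∨ β ≠ 0) →
      ∃ i : {u // T₀.G.Adj (r a) u}, 0 < α * (d a i.1).1 + β * (d a i.1).2 := by
    intro a ha α β hαβ
    have hIr : I (r a) := by
      show κ (r a) ≠ _ ∧ κ (r a) ≠ _ ∧ κ (r a) ≠ _
      rw [hr1 a ha]; exact ha
    have hra := hr1 a ha
    have hfc := force κ a (n a) (hn a) (W (r a)) (T₀.G.Adj (r a)) (W_pos _ hIr) (W_zero _ hIr)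
      (fun u => h u - h (r a)) (fun u => τ₀ u - τ₀ (r a)) (d a) ((n a).1^2 + (n a).2^2) (hN2 a)
      (fun u => nrm (n a) (P a) (P (κ u)))
      (by intro u hu; simp only [d, hu, if_true]; ring)
      (by intro u hu; simp only [d, hu, if_true]; ring)
      (by
        intro u hadj hu
        have := hNe (r a) hIr u hadj (by rw [hra]; exact hu)
        simp only [hm, hQ, hra] at this
        simp only [d, if_neg hu]
        exact this)
      (by
        intro u hadj hu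
        simp only [d, if_neg hu]
        rfl)
      (by
        have := W_h (r a) hIr
        simp only [hm, hQ, hra] at this
        exact this)
      (by
        have h1 := heqr a ha
        rw [← Finset.sum_ite, hra] at h1
        rw [← h1]
        apply Finset.sum_congr rfl
        intro u _
        split_ifs with hu
        · rfl
        · simp only [d, if_neg hu, q0, hm, hQ, hra]
          rfl)
      α β
    rcases hfc with h0 | ⟨⟨u, hu, hpos⟩, _⟩
    · exfalso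
      have e1 := h0 _ (hr2 a ha)
      have e2 := h0 _ (hr3 a ha)
      simp only [d, if_neg (hr4 a ha), if_neg (hr5 a ha)] at e1 e2
      have e3 := hr6 a ha
      unfold crs at e3
      set x1 := (P (κ (b₀ a))).1 - (P a).1
      set y1 := (P (κ (b₀ a))).2 - (P a).2
      set x2 := (P (κ (c₀ a))).1 - (P a).1
      set y2 := (P (κ (c₀ a))).2 - (P a).2
      have f1 : α * (x1 * y2 - y1 * x2) = 0 := by linear_combination y2 * e1 - y1 * e2
      have f2 : β * (x1 * y2 - y1 * x2) = 0 := by linear_combination x1 * e2 - x2 * e1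
      have ha0 : α = 0 := (mul_eq_zero.1 f1).resolve_right e3.ne'
      have hb0 : β = 0 := (mul_eq_zero.1 f2).resolve_right e3.ne'
      rcases hαβ with hh | hh
      · exact hh ha0
      · exact hh hb0
    · exact ⟨⟨u, hu⟩, hpos⟩
  -- uniform epsilon
  have hspan : ∃ ε > 0, ∀ a, (a ≠ κ o₁ ∧ a ≠ κ o₂ ∧ a ≠ κ o₃) → ∀ d' : {u // T₀.G.Adj (r a) u} → ℝ × ℝ,
      (∀ i, |(d' i).1 - (d a i.1).1| < ε ∧ |(d' i).2 - (d a i.1).2| < ε) →
      ∀ α β : ℝ, (α ≠ 0 ∨ β ≠ 0) → ∃ i, 0 < α * (d' i).1 + β * (d' i).2 := by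
    have h1 : ∀ a, ∃ ε : ℝ, 0 < ε ∧ ((a ≠ κ o₁ ∧ a ≠ κ o₂ ∧ a ≠ κ o₃) → ∀ d' : {u // T₀.G.Adj (r a) u} → ℝ × ℝ,
      (∀ i, |(d' i).1 - (d a i.1).1| < ε ∧ |(d' i).2 - (d a i.1).2| < ε) →
      ∀ α β : ℝ, (α ≠ 0 ∨ β ≠ 0) → ∃ i, 0 < α * (d' i).1 + β * (d' i).2) := by
      intro a
      by_cases ha : (a ≠ κ o₁ ∧ a ≠ κ o₂ ∧ a ≠ κ o₃)
      · obtain ⟨ε, hε, H⟩ := SPAN (fun i : {u // T₀.G.Adj (r a) u} => d a i.1) (hdpos a ha)
        exact ⟨ε, hε, fun _ => H⟩
      · exact ⟨1, one_pos, fun h => absurd h ha⟩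
    choose e he H using h1
    haveI : Nonempty V := ⟨κ o₁⟩
    obtain ⟨a₀, ha₀⟩ := Finite.exists_min e
    refine ⟨e a₀, he a₀, ?_⟩
    intro a ha d' hd'
    exact H a ha d' (fun i => ⟨lt_of_lt_of_le (hd' i).1 (ha₀ a), lt_of_lt_of_le (hd' i).2 (ha₀ a)⟩)
  obtain ⟨ε, hε, hspan⟩ := hspan
  -- bound on normals
  obtain ⟨M, hM0, hM⟩ : ∃ M : ℝ, 0 ≤ M ∧ ∀ a, |(n a).1| ≤ M ∧ |(n a).2| ≤ M := by
    refine ⟨∑ a, (|(n a).1| + |(n a).2|), Finset.sum_nonneg fun a _ => by positivity, ?_⟩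
    intro a
    have := Finset.single_le_sum (f := fun a => |(n a).1| + |(n a).2|) (fun a _ => by positivity) (Finset.mem_univ a)
    constructor <;> linarith [abs_nonneg (n a).1, abs_nonneg (n a).2]
  set R : ℝ := ‖t₀‖ + 1 with hR
  obtain ⟨K, hK, hKb⟩ := E_bd I m h R
  obtain ⟨C, δ₁, hδ₁, hC, Hpair⟩ := hpair R
  set ε' : ℝ := min 1 (ε / (2 * M + 1)) with hε'
  have hε'0 : 0 < ε' := by positivity
  obtain ⟨δ₀, hδ₀, HF⟩ := hFPT ε' hε'0
  -- choose δ
  obtain ⟨δ, hδ, hδ0, hδ1, hδK⟩ : ∃ δ : ℝ, 0 < δ ∧ δ < δ₀ ∧ δ < δ₁ ∧ δ * (2 * K) < ε := by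
    refine ⟨min (min δ₀ δ₁) (ε / (2 * K + 1)) / 2, by positivity, ?_, ?_, ?_⟩
    · have h1 := min_le_left (min δ₀ δ₁) (ε / (2 * K + 1))
      have h2 := min_le_left δ₀ δ₁
      linarith
    · have h1 := min_le_left (min δ₀ δ₁) (ε / (2 * K + 1))
      have h2 := min_le_right δ₀ δ₁
      linarith
    · have h1 := min_le_right (min δ₀ δ₁) (ε / (2 * K + 1))
      have h3 : ε / (2 * K + 1) * (2 * K + 1) = ε := by field_simp
      have h4 : 0 < min (min δ₀ δ₁) (ε / (2 * K + 1)) := by positivity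
      nlinarith
  obtain ⟨t, ht, htt⟩ := HF δ hδ hδ0
  set τ : V₀ → ℝ := ext J t with hτdef
  have htR : ‖t‖ ≤ R := by
    have h1 : ‖t‖ ≤ ‖t - t₀‖ + ‖t₀‖ := by
      have := norm_add_le (t - t₀) t₀
      rwa [sub_add_cancel] at this
    have h2 : ε' ≤ 1 := min_le_left _ _
    rw [hR]; linarith
  have hτR : ∀ x, |τ x| ≤ R := fun x => (ext_bd J t x).trans htR
  set p : V₀ → ℝ × ℝ := pos I m Q h τ δ with hp
  have pouter : ∀ v, ¬ I v → p v = P (κ v) := by
    intro v hv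
    rw [hp]
    unfold pos E
    rw [if_neg hv]
    simp [hQ]
  have pinner : ∀ v, I v → p v = ((P (κ v)).1 + δ * (h v * (n (κ v)).1 - τ v * (n (κ v)).2),
      (P (κ v)).2 + δ * (h v * (n (κ v)).2 + τ v * (n (κ v)).1)) := by
    intro v hv
    rw [hp]
    unfold pos E
    rw [if_pos hv]
  have no1 : ¬ I o₁ := fun h => h.1 rfl
  have no2 : ¬ I o₂ := fun h => h.2.1 rfl
  have no3 : ¬ I o₃ := fun h => h.2.2 rfl
  refine ⟨p, ?_, ?_⟩
  · apply TUTTE T₀ o₁ o₂ o₃ ho p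
    · rw [pouter o₁ no1, pouter o₂ no2, pouter o₃ no3]
      exact hd.2.1
    · intro v hv1 hv2 hv3 α β
      have hIv : I v := ⟨fun h => hv1 (s1 v h), fun h => hv2 (s2 v h), fun h => hv3 (s3 v h)⟩
      have hIu : ∀ u, κ u = κ v → I u := by
        intro u hu
        show κ u ≠ _ ∧ κ u ≠ _ ∧ κ u ≠ _
        rw [hu]; exact hIv
      by_cases hrv : r (κ v) = v
      · -- representative
        by_cases hαβ : α = 0 ∧ β = 0
        · left
          intro u _
          rw [hαβ.1, hαβ.2]; ring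
        · right
          have hαβ' : α ≠ 0 ∨ β ≠ 0 := by
            by_contra hcon
            push Not at hcon
            exact hαβ hcon
          set a := κ v with ha
          have hcl := hspan a hIv
            (fun i => if κ i.1 = a then ((h i.1 - h v) * (n a).1 - (τ i.1 - τ v) * (n a).2,
                (h i.1 - h v) * (n a).2 + (τ i.1 - τ v) * (n a).1)
              else ((p i.1).1 - (p v).1, (p i.1).2 - (p v).2)) (by
            intro i
            by_cases hi : κ i.1 = a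
            · simp only [d, if_pos hi, hrv]
              have hdiff : |(τ i.1 - τ v) - (τ₀ i.1 - τ₀ v)| ≤ 2 * ‖t - t₀‖ := by
                have h1 := ext_sub_bd J t t₀ i.1
                have h2 := ext_sub_bd J t t₀ v
                have h3 := abs_sub (ext J t i.1 - ext J t₀ i.1) (ext J t v - ext J t₀ v)
                have h4 : (τ i.1 - τ v) - (τ₀ i.1 - τ₀ v) = (ext J t i.1 - ext J t₀ i.1) - (ext J t v - ext J t₀ v) := by
                  rw [hτdef, hτ₀]; ring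
                rw [h4]; linarith
              have h5 : 2 * ‖t - t₀‖ * M < ε := by
                have h6 : ‖t - t₀‖ < ε / (2 * M + 1) := lt_of_lt_of_le htt (min_le_right _ _)
                rw [lt_div_iff₀ (by positivity)] at h6
                nlinarith [norm_nonneg (t - t₀)]
              constructor
              · have e : (h i.1 - h v) * (n a).1 - (τ i.1 - τ v) * (n a).2 -
                    ((h i.1 - h v) * (n a).1 - (τ₀ i.1 - τ₀ v) * (n a).2) =
                    -(((τ i.1 - τ v) - (τ₀ i.1 - τ₀ v)) * (n a).2) := by ring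
                rw [e, abs_neg, abs_mul]
                calc _ ≤ 2 * ‖t - t₀‖ * M := mul_le_mul hdiff (hM a).2 (abs_nonneg _) (by positivity)
                  _ < ε := h5
              · have e : (h i.1 - h v) * (n a).2 + (τ i.1 - τ v) * (n a).1 -
                    ((h i.1 - h v) * (n a).2 + (τ₀ i.1 - τ₀ v) * (n a).1) =
                    (((τ i.1 - τ v) - (τ₀ i.1 - τ₀ v)) * (n a).1) := by ring
                rw [e, abs_mul]
                calc _ ≤ 2 * ‖t - t₀‖ * M := mul_le_mul hdiff (hM a).1 (abs_nonneg _) (by positivity)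
                  _ < ε := h5
            · simp only [d, if_neg hi]
              have hb := hKb τ hτR
              have e1 : (p i.1).1 - (p v).1 - ((P (κ i.1)).1 - (P a).1) =
                  δ * ((E I m h τ i.1).1 - (E I m h τ v).1) := by
                rw [hp]; unfold pos; simp only [hQ, ha]; ring
              have e2 : (p i.1).2 - (p v).2 - ((P (κ i.1)).2 - (P a).2) =
                  δ * ((E I m h τ i.1).2 - (E I m h τ v).2) := by
                rw [hp]; unfold pos; simp only [hQ, ha]; ring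
              rw [e1, e2, abs_mul, abs_mul, abs_of_pos hδ]
              constructor
              · have := abs_sub (E I m h τ i.1).1 (E I m h τ v).1
                have h7 := (hb i.1).1
                have h8 := (hb v).1
                calc _ ≤ δ * (2 * K) := mul_le_mul_of_nonneg_left (by linarith) hδ.le
                  _ < ε := hδK
              · have := abs_sub (E I m h τ i.1).2 (E I m h τ v).2
                have h7 := (hb i.1).2
                have h8 := (hb v).2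
                calc _ ≤ δ * (2 * K) := mul_le_mul_of_nonneg_left (by linarith) hδ.le
                  _ < ε := hδK)
          have hconv : ∀ α β : ℝ, (α ≠ 0 ∨ β ≠ 0) → ∃ u, T₀.G.Adj v u ∧
              0 < α * ((p u).1 - (p v).1) + β * ((p u).2 - (p v).2) := by
            intro α β hab
            obtain ⟨⟨u, hu⟩, hpos⟩ := hcl α β hab
            rw [hrv] at hu
            refine ⟨u, hu, ?_⟩
            by_cases hua : κ u = a
            · simp only [if_pos hua] at hpos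
              rw [pinner u (hIu u hua), pinner v hIv]
              simp only [hua, ← ha]
              have e : α * ((P a).1 + δ * (h u * (n a).1 - τ u * (n a).2) - ((P a).1 + δ * (h v * (n a).1 - τ v * (n a).2))) +
                  β * ((P a).2 + δ * (h u * (n a).2 + τ u * (n a).1) - ((P a).2 + δ * (h v * (n a).2 + τ v * (n a).1))) =
                  δ * (α * ((h u - h v) * (n a).1 - (τ u - τ v) * (n a).2) + β * ((h u - h v) * (n a).2 + (τ u - τ v) * (n a).1)) := by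
                ring
              rw [e]
              exact mul_pos hδ hpos
            · simp only [if_neg hua] at hpos
              exact hpos
          refine ⟨hconv α β hαβ', ?_⟩
          obtain ⟨u, hu, hpos⟩ := hconv (-α) (-β) (by
            rcases hαβ' with h | h
            · left; exact neg_ne_zero.2 h
            · right; exact neg_ne_zero.2 h)
          exact ⟨u, hu, by linarith⟩
      · -- not a representative
        have hJv : J v := ⟨hIv, hrv⟩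
        have hnn : ∀ u, T₀.G.Adj v u → κ u ≠ κ v → nrm (m v) (Q v) (Q u) ≠ 0 := hNe v hIv
        have heq : ∑ u ∈ Finset.univ.filter (fun u => κ u = κ v), W v u * (τ u - τ v) +
            ∑ u ∈ Finset.univ.filter (fun u => ¬ κ u = κ v), W v u * q τ δ v u = 0 :=
          congrFun ht ⟨v, hJv⟩
        have hfc := force κ (κ v) (m v) (hn _) (W v) (T₀.G.Adj v) (W_pos v hIv) (W_zero v hIv)
          (fun u => h u - h v) (fun u => τ u - τ v) (fun u => ((p u).1 - (p v).1, (p u).2 - (p v).2))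
          (δ * ((m v).1^2 + (m v).2^2)) (mul_pos hδ (hN2 _))
          (fun u => nrm (m v) (Q v) (Q u))
          (by
            intro u hu
            rw [pinner u (hIu u hu), pinner v hIv]
            simp only [hu, hm]
            ring)
          (by
            intro u hu
            rw [pinner u (hIu u hu), pinner v hIv]
            simp only [hu, hm]
            ring)
          (by
            intro u hadj hu
            exact (Hpair v u (hnn u hadj hu) δ hδ hδ1 τ τ hτR hτR).2.2.2)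
          (by
            intro u hadj hu
            exact (Hpair v u (hnn u hadj hu) δ hδ hδ1 τ τ hτR hτR).2.2.1)
          (W_h v hIv)
          (by
            rw [← Finset.sum_ite] at heq
            rw [← heq]
            apply Finset.sum_congr rfl
            intro u _
            split_ifs with hu
            · rfl
            · rfl)
          α β
        exact hfc
  · intro u v huv hh
    by_cases hIu : I u
    · have hIv : I v := by
        show κ v ≠ _ ∧ κ v ≠ _ ∧ κ v ≠ _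
        rw [← huv]; exact hIu
      rw [pinner u hIu, pinner v hIv, hh, huv]
      simp only
      ring
    · have : u = v := by
        by_cases h1 : κ u = κ o₁
        · rw [s1 u h1, s1 v (by rw [← huv]; exact h1)]
        by_cases h2 : κ u = κ o₂
        · rw [s2 u h2, s2 v (by rw [← huv]; exact h2)]
        by_cases h3 : κ u = κ o₃
        · rw [s3 u h3, s3 v (by rw [← huv]; exact h3)]
        exact absurd ⟨h1, h2, h3⟩ hIu
      rw [this]


end Pool.Agent.H891WLC
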