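import Pool.Agent.H891WLC.Defs
import Pool.Agent.H891WLC.D_nrm
import Pool.Agent.H891WLC.D_lines
import Pool.Agent.H891WLC.REAL

set_option autoImplicit false

namespace Pool.Agent.H891WLC

namespace W_LINES

theorem finIdx {V₀ ι : Type} [Fintype ι] (p : V₀ → ℝ × ℝ) (a b c : ι → ℝ) (m : ℕ) (hm : Fintype.card ι ≤ m)
    (h1 : ∀ i, a i ≠ 0 ∨ b i ≠ 0) (h2 : ∀ v, ∃ i, a i * (p v).1 + b i * (p v).2 = c i) :
    ∃ (k : ℕ) (a b c : Fin k → ℝ), k ≤ m ∧ (∀ i, a i ≠ 0 ∨ b i ≠ 0) ∧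
      ∀ v, ∃ i, a i * (p v).1 + b i * (p v).2 = c i := by
  classical
  let e := Fintype.equivFin ι
  refine ⟨Fintype.card ι, a ∘ e.symm, b ∘ e.symm, c ∘ e.symm, hm, fun i => h1 _, fun v => ?_⟩
  obtain ⟨i, hi⟩ := h2 v
  exact ⟨e i, by simpa using hi⟩

end W_LINES

open W_LINES in
theorem LINES {V₀ V : Type} [Fintype V₀] [Fintype V] [DecidableEq V] (T₀ : Tri V₀) (T : Tri V) (κ : V₀ → V)
    (hc : Clus T₀ T κ) (o₁ o₂ o₃ : V₀) (ho : T₀.F o₁ o₂ o₃) (s1 : ∀ v, κ v = κ o₁ → v = o₁)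
    (s2 : ∀ v, κ v = κ o₂ → v = o₂) (s3 : ∀ v, κ v = κ o₃ → v = o₃)
    (P : V → ℝ × ℝ) (hd : Drawn T (κ o₁) (κ o₂) (κ o₃) P) (n : V → ℝ × ℝ) (hn : ∀ a, (n a).1 ≠ 0 ∨ (n a).2 ≠ 0)
    (hgen : ∀ a b, a ≠ κ o₁ → a ≠ κ o₂ → a ≠ κ o₃ → T.G.Adj a b → nrm (n a) (P a) (P b) ≠ 0) (m : V → ℕ)
    (hlev : ∀ a, a ≠ κ o₁ → a ≠ κ o₂ → a ≠ κ o₃ → ∃ h : V₀ → ℝ, (h '' (κ ⁻¹' {a})).ncard ≤ m a ∧
      ∀ v, κ v = a →
        (∃ u, T₀.G.Adj v u ∧ ((κ u = a ∧ h u < h v) ∨ (κ u ≠ a ∧ nrm (n a) (P a) (P (κ u)) < 0))) ∧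
        (∃ u, T₀.G.Adj v u ∧ ((κ u = a ∧ h v < h u) ∨ (κ u ≠ a ∧ 0 < nrm (n a) (P a) (P (κ u)))))) :
    HasLines T₀ o₁ o₂ o₃ (3 + ∑ a, m a) := by
  classical
  have hH : ∀ a, ∃ h : V₀ → ℝ, a ≠ κ o₁ → a ≠ κ o₂ → a ≠ κ o₃ → ((h '' (κ ⁻¹' {a})).ncard ≤ m a ∧
      ∀ v, κ v = a →
        (∃ u, T₀.G.Adj v u ∧ ((κ u = a ∧ h u < h v) ∨ (κ u ≠ a ∧ nrm (n a) (P a) (P (κ u)) < 0))) ∧
        (∃ u, T₀.G.Adj v u ∧ ((κ u = a ∧ h v < h u) ∨ (κ u ≠ a ∧ 0 < nrm (n a) (P a) (P (κ u)))))) := by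
    intro a
    by_cases h1 : a = κ o₁
    · exact ⟨fun _ => 0, fun h => absurd h1 h⟩
    by_cases h2 : a = κ o₂
    · exact ⟨fun _ => 0, fun _ h => absurd h2 h⟩
    by_cases h3 : a = κ o₃
    · exact ⟨fun _ => 0, fun _ _ h => absurd h3 h⟩
    obtain ⟨h, hh⟩ := hlev a h1 h2 h3
    exact ⟨h, fun _ _ _ => hh⟩
  choose H hH using hH
  obtain ⟨p, hp1, hp2⟩ := REAL T₀ T κ hc o₁ o₂ o₃ ho s1 s2 s3 P hd n hn hgen (fun v => H (κ v) v) (by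
    intro v v1 v2 v3
    obtain ⟨⟨u, hu, hu'⟩, ⟨w, hw, hw'⟩⟩ := (hH (κ v) v1 v2 v3).2 v rfl
    refine ⟨⟨u, hu, ?_⟩, ⟨w, hw, ?_⟩⟩
    · rcases hu' with ⟨e, l⟩ | l
      · left; exact ⟨e, by simp only [e]; exact l⟩
      · right; exact l
    · rcases hw' with ⟨e, l⟩ | l
      · left; exact ⟨e, by simp only [e]; exact l⟩
      · right; exact l)
  refine ⟨p, hp1, ?_⟩
  let S : Finset (V × ℝ) := (Finset.univ.filter
    (fun v : V₀ => κ v ≠ κ o₁ ∧ κ v ≠ κ o₂ ∧ κ v ≠ κ o₃)).image (fun v => (κ v, H (κ v) v))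
  have hS : ∀ s : S, ∃ v : V₀, κ v = s.1.1 ∧ H (κ v) v = s.1.2 := by
    rintro ⟨s, hs⟩
    simp only [S, Finset.mem_image, Finset.mem_filter, Finset.mem_univ, true_and] at hs
    obtain ⟨v, _, rfl⟩ := hs
    exact ⟨v, rfl, rfl⟩
  choose r hr1 hr2 using hS
  have hcard : S.card ≤ ∑ a, m a := by
    rw [Finset.card_eq_sum_card_fiberwise (f := Prod.fst) (t := Finset.univ) (by intro x _; simp)]
    apply Finset.sum_le_sum
    intro a _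
    by_cases hin : a ≠ κ o₁ ∧ a ≠ κ o₂ ∧ a ≠ κ o₃
    · refine le_trans ?_ (hH a hin.1 hin.2.1 hin.2.2).1
      have hinj : Set.InjOn Prod.snd ((S.filter (fun x => x.1 = a) : Finset (V × ℝ)) : Set (V × ℝ)) := by
        intro x hx y hy hxy
        simp only [Finset.coe_filter, Set.mem_setOf_eq] at hx hy
        exact Prod.ext (hx.2.trans hy.2.symm) hxy
      rw [← Finset.card_image_of_injOn hinj, ← Set.ncard_coe_finset]
      apply Set.ncard_le_ncard _ ((Set.toFinite _).image _)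
      intro y hy
      simp only [Finset.coe_image, Set.mem_image, Finset.coe_filter, Set.mem_setOf_eq] at hy
      obtain ⟨x, ⟨hx, hxa⟩, rfl⟩ := hy
      simp only [S, Finset.mem_image, Finset.mem_filter, Finset.mem_univ, true_and] at hx
      obtain ⟨v, _, rfl⟩ := hx
      simp only at hxa
      subst hxa
      exact ⟨v, by simp, rfl⟩
    · have : (S.filter (fun x => x.1 = a)) = ∅ := by
        apply Finset.filter_eq_empty_iff.2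
        intro x hx hxa
        simp only [S, Finset.mem_image, Finset.mem_filter, Finset.mem_univ, true_and] at hx
        obtain ⟨v, hv, rfl⟩ := hx
        simp only at hxa
        subst hxa
        exact hin hv
      rw [this]; simp
  apply finIdx (ι := Fin 3 ⊕ S) p
    (Sum.elim (fun _ => 1) (fun s => (n s.1.1).1))
    (Sum.elim (fun _ => 0) (fun s => (n s.1.1).2))
    (Sum.elim (fun i => (p (![o₁, o₂, o₃] i)).1)
      (fun s => (n s.1.1).1 * (p (r s)).1 + (n s.1.1).2 * (p (r s)).2))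
  · rw [Fintype.card_sum, Fintype.card_fin, Fintype.card_coe]
    omega
  · rintro (i | s)
    · left; simp
    · exact hn _
  · intro v
    by_cases h1 : κ v = κ o₁
    · refine ⟨Sum.inl 0, ?_⟩
      rw [s1 v h1]; simp
    by_cases h2 : κ v = κ o₂
    · refine ⟨Sum.inl 1, ?_⟩
      rw [s2 v h2]; simp
    by_cases h3 : κ v = κ o₃
    · refine ⟨Sum.inl 2, ?_⟩
      rw [s3 v h3]; simp
    have hmem : ((κ v, H (κ v) v) : V × ℝ) ∈ S := by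
      simp only [S, Finset.mem_image, Finset.mem_filter, Finset.mem_univ, true_and]
      exact ⟨v, ⟨h1, h2, h3⟩, rfl⟩
    refine ⟨Sum.inr ⟨_, hmem⟩, ?_⟩
    have e1 := hr1 ⟨_, hmem⟩
    have e2 := hr2 ⟨_, hmem⟩
    have := hp2 v (r ⟨_, hmem⟩) e1.symm e2.symm
    simpa using this


end Pool.Agent.H891WLC
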