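import Pool.Agent.H891WLC.Defs
import Pool.Agent.H891WLC.D_nrm
import Pool.Agent.H891WLC.D_lines
import Pool.Agent.H891WLC.tri_conn3
import Pool.Agent.H891WLC.CLUS_ADJ
import Pool.Agent.H891WLC.CLUS_CONN
import Pool.Agent.H891WLC.CLUS_COMP
import Pool.Agent.H891WLC.COMPOSE
import Pool.Agent.H891WLC.CAPSUM
import Pool.Agent.H891WLC.CAPUP
import Pool.Agent.H891WLC.GENSPLIT
import Pool.Agent.H891WLC.LINES

set_option autoImplicit false

namespace Pool.Agent.H891WLC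

namespace W_FINAL

theorem nrm_self (n a : ℝ × ℝ) : nrm n a a = 0 := by simp [nrm]

/-- translation of validity into the form used by `LINES` -/
theorem lev_of_valid {V₀ X : Type} (G : SimpleGraph V₀) (κ' : V₀ → X) (Q : X → ℝ × ℝ) (nn : ℝ × ℝ) (z : X)
    (h : V₀ → ℝ) (hv : Valid G (κ' ⁻¹' {b | nrm nn (Q z) (Q b) < 0}) (κ' ⁻¹' {b | 0 < nrm nn (Q z) (Q b)})
      (κ' ⁻¹' {z}) h) : ∀ v, κ' v = z →
        (∃ u, G.Adj v u ∧ ((κ' u = z ∧ h u < h v) ∨ (κ' u ≠ z ∧ nrm nn (Q z) (Q (κ' u)) < 0))) ∧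
        (∃ u, G.Adj v u ∧ ((κ' u = z ∧ h v < h u) ∨ (κ' u ≠ z ∧ 0 < nrm nn (Q z) (Q (κ' u))))) := by
  intro v hvz
  obtain ⟨⟨u, hu1, hu2⟩, ⟨w, hw1, hw2⟩⟩ := hv v hvz
  refine ⟨⟨u, hu1, ?_⟩, ⟨w, hw1, ?_⟩⟩
  · rcases hu2 with hu2 | hu2
    · right
      refine ⟨?_, hu2⟩
      intro he
      have h2 : nrm nn (Q z) (Q (κ' u)) < 0 := hu2
      rw [he, nrm_self] at h2
      exact lt_irrefl _ h2
    · left
      exact ⟨hu2.1, hu2.2⟩
  · rcases hw2 with hw2 | hw2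
    · right
      refine ⟨?_, hw2⟩
      intro he
      have h2 : 0 < nrm nn (Q z) (Q (κ' w)) := hw2
      rw [he, nrm_self] at h2
      exact lt_irrefl _ h2
    · left
      exact ⟨hw2.1, hw2.2⟩

theorem adjS_pre {V X : Type} [Finite V] [Finite X] (T : Tri V) (T3 : Tri X) (ρ : V → X) (hr : Clus T T3 ρ)
    (A B : Set X) (h : AdjS T3.G A B) : AdjS T.G (ρ ⁻¹' A) (ρ ⁻¹' B) := by
  obtain ⟨a, ha, b, hb, hab⟩ := h
  obtain ⟨_, a₀, b₀, h1, h2, h3⟩ := (CLUS_ADJ T T3 ρ hr a b).1 hab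
  refine ⟨a₀, ?_, b₀, ?_, h3⟩
  · show ρ a₀ ∈ A
    rw [h1]; exact ha
  · show ρ b₀ ∈ B
    rw [h2]; exact hb

theorem split_pre {V X : Type} [Finite V] [Finite X] (T : Tri V) (T3 : Tri X) (ρ : V → X) (hr : Clus T T3 ρ)
    (K S U : Set X) (h : Split T3.G K S U) : Split T.G (ρ ⁻¹' K) (ρ ⁻¹' S) (ρ ⁻¹' U) := by
  obtain ⟨h1, h2, h3, h4, h5, h6, h7, h8, h9⟩ := h
  exact ⟨fun v => h1 (ρ v), h2.preimage ρ, h3.preimage ρ, h4.preimage ρ, (CLUS_CONN T T3 ρ hr S).1 h5,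
    (CLUS_CONN T T3 ρ hr U).1 h6, adjS_pre T T3 ρ hr _ _ h7, adjS_pre T T3 ρ hr _ _ h8,
    adjS_pre T T3 ρ hr _ _ h9⟩

end W_FINAL

open W_FINAL in
theorem FINAL {V₀ V X : Type} [Fintype V₀] [Fintype V] [Fintype X] [DecidableEq V] [DecidableEq X] (T₀ : Tri V₀) (T : Tri V)
    (T3 : Tri X) (κ : V₀ → V) (ρ : V → X) (hc : Clus T₀ T κ) (hr : Clus T T3 ρ)
    (o₁ o₂ o₃ : V₀) (ho : T₀.F o₁ o₂ o₃) (s1 : ∀ v, ρ (κ v) = ρ (κ o₁) → v = o₁)
    (s2 : ∀ v, ρ (κ v) = ρ (κ o₂) → v = o₂) (s3 : ∀ v, ρ (κ v) = ρ (κ o₃) → v = o₃)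
    (c : V → ℕ) (hcap : ∀ v, CapSet T₀ T κ {v} (c v))
    (Q : X → ℝ × ℝ) (hd : Drawn T3 (ρ (κ o₁)) (ρ (κ o₂)) (ρ (κ o₃)) Q) (n : X → ℝ × ℝ)
    (hn : ∀ z, (n z).1 ≠ 0 ∨ (n z).2 ≠ 0) (hgen : ∀ z z', z ≠ z' → nrm (n z) (Q z) (Q z') ≠ 0)
    (Sp : Finset X) (q : V → ℕ) (B : X → ℕ)
    (hq1 : ∀ v, ρ v ∈ Sp → Conn T.G {u | ρ u = ρ v ∧ q u = q v})
    (hq2 : ∀ u v, ρ u ∈ Sp → ρ u = ρ v → T.G.Adj u v → q u ≤ q v + 1)
    (hq3 : ∀ v, ρ v ∈ Sp → (∃ u u', ρ u = ρ v ∧ q u = q v ∧ T.G.Adj u u' ∧ nrm (n (ρ v)) (Q (ρ v)) (Q (ρ u')) < 0) ∧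
      (∃ u u', ρ u = ρ v ∧ q u = q v ∧ T.G.Adj u u' ∧ 0 < nrm (n (ρ v)) (Q (ρ v)) (Q (ρ u'))))
    (hq4 : ∀ v, ρ v ∈ Sp → ∑ u ∈ Finset.univ.filter (fun u => ρ u = ρ v ∧ q u = q v), c u ≤ B (ρ v)) :
    HasLines T₀ o₁ o₂ o₃ (3 + ∑ z, if z ∈ Sp then 2 * B z else ∑ v ∈ Finset.univ.filter (fun v => ρ v = z), c v) := by
  have hc' : Clus T₀ T3 (ρ ∘ κ) := CLUS_COMP T₀ T T3 κ ρ hc hr
  refine LINES T₀ T3 (ρ ∘ κ) hc' o₁ o₂ o₃ ho s1 s2 s3 Q hd n hn ?_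
    (fun z => if z ∈ Sp then 2 * B z else ∑ v ∈ Finset.univ.filter (fun v => ρ v = z), c v) ?_
  · intro a b _ _ _ hab
    obtain ⟨w, hw⟩ := hab
    exact hgen a b (T3.ne _ _ _ hw)
  · intro z hz1 hz2 hz3
    have hsp := GENSPLIT T3 (ρ (κ o₁)) (ρ (κ o₂)) (ρ (κ o₃)) Q hd z hz1 hz2 hz3 (n z) (hn z)
      (fun b hb => hgen z b hb.symm)
    by_cases hz : z ∈ Sp
    · have hsp2 := split_pre T T3 ρ hr _ _ _ hsp
      have hN : ∀ v, q v < (∑ v, q v) + 1 := fun v =>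
        Nat.lt_succ_of_le (Finset.single_le_sum (f := q) (fun _ _ => Nat.zero_le _) (Finset.mem_univ v))
      obtain ⟨h, hv, hcard⟩ := COMPOSE T₀ T κ hc _ _ _ hsp2
        (fun v => (⟨q v, hN v⟩ : Fin ((∑ v, q v) + 1))) (fun i => (i : ℕ) % 2)
        (fun i => ∑ u ∈ Finset.univ.filter (fun u => ρ u = z ∧ q u = (i : ℕ)), c u) 2 (fun _ => B z)
        (by
          rintro i ⟨v, hv, rfl⟩
          have hv : ρ v = z := hv
          have := hq1 v (by rw [hv]; exact hz)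
          rw [hv] at this
          convert this using 1
          ext u
          simp [Fin.ext_iff])
        (by
          rintro i ⟨v, hv, rfl⟩
          have hv : ρ v = z := hv
          have h1 := hq1 v (by rw [hv]; exact hz)
          rw [hv] at h1
          have h2 := CAPSUM T₀ T κ hc (Finset.univ.filter (fun u => ρ u = z ∧ q u = q v))
            (by
              convert h1 using 1
              ext u
              simp) c (fun w _ => hcap w)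
          convert h2 using 1
          ext u
          simp [Fin.ext_iff])
        (by
          rintro i ⟨v, hv, rfl⟩
          have hv : ρ v = z := hv
          obtain ⟨⟨u, u', h1, h2, h3, h4⟩, _⟩ := hq3 v (by rw [hv]; exact hz)
          rw [hv] at h1 h4
          exact ⟨u, ⟨h1, Fin.ext h2⟩, u', Or.inl h4, h3⟩)
        (by
          rintro i ⟨v, hv, rfl⟩
          have hv : ρ v = z := hv
          obtain ⟨_, ⟨u, u', h1, h2, h3, h4⟩⟩ := hq3 v (by rw [hv]; exact hz)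
          rw [hv] at h1 h4
          exact ⟨u, ⟨h1, Fin.ext h2⟩, u', Or.inl h4, h3⟩)
        (by
          intro u hu v hv huv hne
          have hu : ρ u = z := hu
          have hv : ρ v = z := hv
          have h1 := hq2 u v (by rw [hu]; exact hz) (by rw [hu, hv]) huv
          have h2 := hq2 v u (by rw [hv]; exact hz) (by rw [hu, hv]) (T.G.adj_symm huv)
          have h3 : q u ≠ q v := fun he => hne (Fin.ext he)
          show q u % 2 ≠ q v % 2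
          omega)
        (by
          rintro i ⟨v, hv, rfl⟩
          have hv : ρ v = z := hv
          refine ⟨Nat.mod_lt _ (by norm_num), ?_⟩
          have h1 := hq4 v (by rw [hv]; exact hz)
          rw [hv] at h1
          exact h1)
      refine ⟨h, ?_, lev_of_valid T₀.G (ρ ∘ κ) Q (n z) z h hv⟩
      rw [if_pos hz]
      refine hcard.trans (le_of_eq ?_)
      simp
    · have hA : ((Finset.univ.filter (fun v => ρ v = z) : Finset V) : Set V) = ρ ⁻¹' {z} := by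
        ext v
        simp
      have h1 := CAPSUM T₀ T κ hc (Finset.univ.filter (fun v => ρ v = z))
        (by rw [hA]; exact hr.1 z) c (fun w _ => hcap w)
      rw [hA] at h1
      have h2 := CAPUP T₀ T T3 κ ρ hr {z} _ h1
      obtain ⟨h, hv, hcard⟩ := h2 _ _ hsp
      refine ⟨h, ?_, lev_of_valid T₀.G (ρ ∘ κ) Q (n z) z h hv⟩
      rw [if_neg hz]
      exact hcard


end Pool.Agent.H891WLC
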