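import Pool.Agent.H891WLC.Defs
import Pool.Agent.H891WLC.tri_conn3
import Pool.Agent.H891WLC.TUTTE

set_option autoImplicit false

namespace Pool.Agent.H891WLC

namespace W_HARM

open Classical in
/-- Dirichlet operator -/
noncomputable def Lap {V : Type} [Fintype V] (G : SimpleGraph V) (O : V → Prop) :
    (V → ℝ) →ₗ[ℝ] (V → ℝ) where
  toFun f v := if O v then f v else ∑ u ∈ Finset.univ.filter (fun u => G.Adj v u), (f v - f u)
  map_add' f g := by
    funext v
    by_cases h : O v
    · simp [h]
    · simp only [h, if_false, Pi.add_apply]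
      rw [← Finset.sum_add_distrib]
      exact Finset.sum_congr rfl (fun u _ => by ring)
  map_smul' r f := by
    funext v
    by_cases h : O v
    · simp [h]
    · simp only [h, if_false, Pi.smul_apply, RingHom.id_apply, smul_eq_mul]
      rw [Finset.mul_sum]
      exact Finset.sum_congr rfl (fun u _ => by ring)

open Classical in
theorem Lap_outer {V : Type} [Fintype V] (G : SimpleGraph V) (O : V → Prop) (f : V → ℝ) (v : V)
    (h : O v) : Lap G O f v = f v := by
  show (if O v then f v else _) = _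
  rw [if_pos h]

open Classical in
theorem Lap_inner {V : Type} [Fintype V] (G : SimpleGraph V) (O : V → Prop) (f : V → ℝ) (v : V)
    (h : ¬ O v) : Lap G O f v = ∑ u ∈ Finset.univ.filter (fun u => G.Adj v u), (f v - f u) := by
  show (if O v then f v else _) = _
  rw [if_neg h]

open Classical in
theorem Lap_le {V : Type} [Fintype V] (T : Tri V) (O : V → Prop) (o : V) (ho : O o) (f : V → ℝ)
    (h : Lap T.G O f = 0) (w : V) : f w ≤ 0 := by
  obtain ⟨v, -, hv⟩ := Finset.exists_max_image Finset.univ f ⟨o, Finset.mem_univ o⟩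
  have hmax : ∀ u, f u ≤ f v := fun u => hv u (Finset.mem_univ u)
  have key : ∀ y, Relation.ReflTransGen (fun x y => ∃ z, T.F x y z) v y → (f y = f v ∨ f v = 0) := by
    intro y hy
    induction hy with
    | refl => exact Or.inl rfl
    | @tail x y _ hxy ih =>
      rcases ih with ih | ih
      · by_cases hx : O x
        · right
          have h1 := congrFun h x
          rw [Lap_outer _ _ _ _ hx] at h1
          rw [← ih, h1]; rfl
        · left
          have h1 := congrFun h x
          rw [Lap_inner _ _ _ _ hx] at h1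
          have h2 : ∀ u ∈ Finset.univ.filter (fun u => T.G.Adj x u), 0 ≤ f x - f u := by
            intro u _
            have := hmax u
            rw [ih]; linarith
          have h3 := (Finset.sum_eq_zero_iff_of_nonneg h2).1 h1 y (by
            rw [Finset.mem_filter]; exact ⟨Finset.mem_univ _, hxy⟩)
          linarith
      · exact Or.inr ih
  have hM : f v = 0 := by
    rcases key o (T.conn v o) with h1 | h1
    · rw [← h1]
      have h2 := congrFun h o
      rw [Lap_outer _ _ _ _ ho] at h2
      exact h2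
    · exact h1
  rw [← hM]; exact hmax w

theorem Lap_surj {V : Type} [Fintype V] (T : Tri V) (O : V → Prop) (o : V) (ho : O o) :
    Function.Surjective (Lap T.G O) := by
  rw [← LinearMap.injective_iff_surjective, injective_iff_map_eq_zero]
  intro f hf
  funext w
  apply le_antisymm (Lap_le T O o ho f hf w)
  have h1 : Lap T.G O (-f) = 0 := by rw [map_neg, hf, neg_zero]
  have h2 := Lap_le T O o ho (-f) h1 w
  have h3 : (-f) w = -(f w) := rfl
  rw [h3] at h2
  show 0 ≤ f w
  linarith

end W_HARM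

open W_HARM in
theorem HARM {V : Type} [Finite V] (T : Tri V) (o₁ o₂ o₃ : V) (ho : T.F o₁ o₂ o₃) : ∃ p : V → ℝ × ℝ, Drawn T o₁ o₂ o₃ p := by
  classical
  have := Fintype.ofFinite V
  have h12 : o₁ ≠ o₂ := T.ne _ _ _ ho
  have h23 : o₂ ≠ o₃ := T.ne _ _ _ (T.rot _ _ _ ho)
  have h31 : o₃ ≠ o₁ := T.ne _ _ _ (T.rot _ _ _ (T.rot _ _ _ ho))
  let O : V → Prop := fun v => v = o₁ ∨ v = o₂ ∨ v = o₃
  obtain ⟨f, hf⟩ := Lap_surj T O o₁ (Or.inl rfl) (fun v => if v = o₃ then 1 else 0)
  obtain ⟨g, hg⟩ := Lap_surj T O o₁ (Or.inl rfl) (fun v => if v = o₂ then 1 else 0)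
  have hf1 : f o₁ = 0 := by
    rw [← Lap_outer T.G O f o₁ (Or.inl rfl), hf]; simp [h31.symm]
  have hf2 : f o₂ = 0 := by
    rw [← Lap_outer T.G O f o₂ (Or.inr (Or.inl rfl)), hf]; simp [h23]
  have hf3 : f o₃ = 1 := by
    rw [← Lap_outer T.G O f o₃ (Or.inr (Or.inr rfl)), hf]; simp
  have hg1 : g o₁ = 0 := by
    rw [← Lap_outer T.G O g o₁ (Or.inl rfl), hg]; simp [h12]
  have hg2 : g o₂ = 1 := by
    rw [← Lap_outer T.G O g o₂ (Or.inr (Or.inl rfl)), hg]; simp
  have hg3 : g o₃ = 0 := by
    rw [← Lap_outer T.G O g o₃ (Or.inr (Or.inr rfl)), hg]; simp [h23.symm]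
  refine ⟨fun v => (f v, g v), TUTTE T o₁ o₂ o₃ ho _ ?_ ?_⟩
  · simp only [crs, hf1, hf2, hf3, hg1, hg2, hg3]
    norm_num
  · intro v hv1 hv2 hv3 α β
    have hO : ¬ O v := by
      rintro (h | h | h)
      · exact hv1 h
      · exact hv2 h
      · exact hv3 h
    have s1 : ∑ u ∈ Finset.univ.filter (fun u => T.G.Adj v u), (f v - f u) = 0 := by
      rw [← Lap_inner T.G O f v hO, hf]; simp [hv3]
    have s2 : ∑ u ∈ Finset.univ.filter (fun u => T.G.Adj v u), (g v - g u) = 0 := by
      rw [← Lap_inner T.G O g v hO, hg]; simp [hv2]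
    have s3 : ∑ u ∈ Finset.univ.filter (fun u => T.G.Adj v u),
        (α * (f u - f v) + β * (g u - g v)) = 0 := by
      have e : ∀ u, α * (f u - f v) + β * (g u - g v) = (-α) * (f v - f u) + (-β) * (g v - g u) := by
        intro u; ring
      simp only [e]
      rw [Finset.sum_add_distrib, ← Finset.mul_sum, ← Finset.mul_sum, s1, s2]; ring
    by_cases hall : ∀ u, T.G.Adj v u → α * (f u - f v) + β * (g u - g v) = 0
    · left; exact hall
    · right
      push Not at hall
      obtain ⟨u, hu, hne⟩ := hall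
      constructor
      · obtain ⟨x, hx, hx2⟩ := Finset.exists_pos_of_sum_zero_of_exists_nonzero _ s3
          ⟨u, by rw [Finset.mem_filter]; exact ⟨Finset.mem_univ _, hu⟩, hne⟩
        exact ⟨x, (Finset.mem_filter.1 hx).2, hx2⟩
      · have s4 : ∑ u ∈ Finset.univ.filter (fun u => T.G.Adj v u),
            (-(α * (f u - f v) + β * (g u - g v))) = 0 := by
          rw [Finset.sum_neg_distrib, s3, neg_zero]
        obtain ⟨x, hx, hx2⟩ := Finset.exists_pos_of_sum_zero_of_exists_nonzero _ s4
          ⟨u, by rw [Finset.mem_filter]; exact ⟨Finset.mem_univ _, hu⟩, neg_ne_zero.2 hne⟩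
        exact ⟨x, (Finset.mem_filter.1 hx).2, neg_pos.1 hx2⟩


end Pool.Agent.H891WLC
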