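import Pool.Agent.H891WLC.Defs
import Pool.Agent.H891WLC.tri_conn3
import Pool.Agent.H891WLC.CLUS_ADJ
import Pool.Agent.H891WLC.CLUS_CONN

set_option autoImplicit false

namespace Pool.Agent.H891WLC

namespace W_REFCH

def Rc {V : Type} (G : SimpleGraph V) (C : Set V) (u v : V) : Prop :=
  Relation.ReflTransGen (fun x y => G.Adj x y ∧ y ∈ C) u v

theorem Rc.mem {V : Type} {G : SimpleGraph V} {C : Set V} {u v : V} (hu : u ∈ C)
    (h : Rc G C u v) : v ∈ C := by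
  induction h with
  | refl => exact hu
  | tail _ h _ => exact h.2

theorem Rc.symm {V : Type} {G : SimpleGraph V} {C : Set V} {u v : V} (hu : u ∈ C)
    (h : Rc G C u v) : Rc G C v u := by
  induction h with
  | refl => exact Relation.ReflTransGen.refl
  | tail h1 h2 ih => exact Relation.ReflTransGen.head ⟨h2.1.symm, Rc.mem hu h1⟩ ih

theorem Rc.mono {V : Type} {G : SimpleGraph V} {C C' : Set V} {u v : V} (h : C ⊆ C')
    (h' : Rc G C u v) : Rc G C' u v := by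
  induction h' with
  | refl => exact Relation.ReflTransGen.refl
  | tail _ h2 ih => exact Relation.ReflTransGen.tail ih ⟨h2.1, h h2.2⟩

theorem good_step {V : Type} {G : SimpleGraph V} {C A B M : Set V} (hA : Conn G A) (hAC : A ⊆ C)
    (hBC : B ⊆ C) (hadj : AdjS G A B) (hB : ∀ b ∈ B, ∃ m ∈ M, Rc G C b m) :
    ∀ u ∈ A, ∃ m ∈ M, Rc G C u m := by
  obtain ⟨a, ha, b, hb, hab⟩ := hadj
  intro u hu
  obtain ⟨m, hm, hbm⟩ := hB b hb
  exact ⟨m, hm, Relation.ReflTransGen.trans (Rc.mono hAC (hA.2 u hu a ha))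
    (Relation.ReflTransGen.head ⟨hab, hBC hb⟩ hbm)⟩

end W_REFCH

open W_REFCH in
theorem REFCH {V W X : Type} [Finite V] [Finite W] [Finite X] (T : Tri V) (T' : Tri W) (π : V → W) (hc : Clus T T' π)
    (ρ : V → X) (σ : X → W) (hσ : ∀ v, σ (ρ v) = π v) (idx : X → ℕ)
    (hidx : ∀ x y, σ x = σ y → idx x = idx y → x = y) (hconn : ∀ x, Conn T.G (ρ ⁻¹' {x}))
    (hdown : ∀ x y, σ x = σ y → idx y < idx x →
      ∃ z, σ z = σ x ∧ idx z < idx x ∧ AdjS T.G (ρ ⁻¹' {x}) (ρ ⁻¹' {z}))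
    (hup : ∀ x y, σ x = σ y → idx x < idx y →
      ∃ z, σ z = σ x ∧ idx x < idx z ∧ AdjS T.G (ρ ⁻¹' {x}) (ρ ⁻¹' {z}))
    (hmin : ∀ x y, σ x = σ y → idx x < idx y → (∀ z, σ z = σ x → idx x ≤ idx z) →
      ∃ w₁ w₂, w₁ ≠ w₂ ∧ w₁ ≠ σ x ∧ w₂ ≠ σ x ∧ AdjS T.G (ρ ⁻¹' {x}) (π ⁻¹' {w₁}) ∧ AdjS T.G (ρ ⁻¹' {x}) (π ⁻¹' {w₂}))
    (hmax : ∀ x y, σ x = σ y → idx y < idx x → (∀ z, σ z = σ x → idx z ≤ idx x) →
      ∃ w₁ w₂, w₁ ≠ w₂ ∧ w₁ ≠ σ x ∧ w₂ ≠ σ x ∧ AdjS T.G (ρ ⁻¹' {x}) (π ⁻¹' {w₁}) ∧ AdjS T.G (ρ ⁻¹' {x}) (π ⁻¹' {w₂}))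
    (hmid : ∀ x y, σ x = σ y → x ≠ y → ∃ w₁, w₁ ≠ σ x ∧ AdjS T.G (ρ ⁻¹' {x}) (π ⁻¹' {w₁})) :
    ∀ x y : X, Conn T.G (ρ ⁻¹' ({x, y}ᶜ : Set X)) := by
  have hpc : ∀ x y z : X, z ≠ x → z ≠ y → ρ ⁻¹' {z} ⊆ ρ ⁻¹' ({x, y}ᶜ : Set X) := by
    intro x y z h1 h2 v hv
    simp only [Set.mem_preimage, Set.mem_singleton_iff, Set.mem_compl_iff,
      Set.mem_insert_iff, not_or] at hv ⊢
    rw [hv]; exact ⟨h1, h2⟩
  have hMC : ∀ x y : X, π ⁻¹' ({σ x, σ y}ᶜ : Set W) ⊆ ρ ⁻¹' ({x, y}ᶜ : Set X) := by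
    intro x y v hv
    simp only [Set.mem_preimage, Set.mem_singleton_iff, Set.mem_compl_iff,
      Set.mem_insert_iff, not_or] at hv ⊢
    refine ⟨fun h => hv.1 ?_, fun h => hv.2 ?_⟩
    · rw [← hσ, h]
    · rw [← hσ, h]
  have side : ∀ x y z : X, z ≠ x → z ≠ y → σ z = σ x → ∀ u ∈ ρ ⁻¹' {z},
      ∃ m ∈ π ⁻¹' ({σ x, σ y}ᶜ : Set W), Rc T.G (ρ ⁻¹' ({x, y}ᶜ : Set X)) u m := by
    intro x y z0 hzx hzy hs
    have hwM : ∀ w, w ≠ σ x → w ≠ σ y → π ⁻¹' {w} ⊆ π ⁻¹' ({σ x, σ y}ᶜ : Set W) := by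
      intro w h1 h2 v hv
      simp only [Set.mem_preimage, Set.mem_singleton_iff, Set.mem_compl_iff,
        Set.mem_insert_iff, not_or] at hv ⊢
      rw [hv]; exact ⟨h1, h2⟩
    have hwC : ∀ w, w ≠ σ x → w ≠ σ y → π ⁻¹' {w} ⊆ ρ ⁻¹' ({x, y}ᶜ : Set X) :=
      fun w h1 h2 => (hwM w h1 h2).trans (hMC x y)
    have hbase : ∀ w, w ≠ σ x → w ≠ σ y → ∀ b ∈ π ⁻¹' {w},
        ∃ m ∈ π ⁻¹' ({σ x, σ y}ᶜ : Set W), Rc T.G (ρ ⁻¹' ({x, y}ᶜ : Set X)) b m :=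
      fun w h1 h2 b hb => ⟨b, hwM w h1 h2 hb, Relation.ReflTransGen.refl⟩
    by_cases hxy : σ y = σ x
    · obtain ⟨w₁, hw₁, hadj⟩ := hmid z0 x hs hzx
      rw [hs] at hw₁
      have hw₁' : w₁ ≠ σ y := by rw [hxy]; exact hw₁
      exact good_step (hconn z0) (hpc x y z0 hzx hzy) (hwC w₁ hw₁ hw₁') hadj
        (hbase w₁ hw₁ hw₁')
    · have hlt : idx z0 < idx x ∨ idx x < idx z0 := by
        rcases lt_trichotomy (idx z0) (idx x) with h | h | h
        · exact Or.inl h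
        · exact absurd (hidx z0 x hs h) hzx
        · exact Or.inr h
      have hpick : ∀ z, σ z = σ x → z ≠ x → (∃ w₁ w₂, w₁ ≠ w₂ ∧ w₁ ≠ σ z ∧ w₂ ≠ σ z ∧
          AdjS T.G (ρ ⁻¹' {z}) (π ⁻¹' {w₁}) ∧ AdjS T.G (ρ ⁻¹' {z}) (π ⁻¹' {w₂})) →
          ∀ u ∈ ρ ⁻¹' {z}, ∃ m ∈ π ⁻¹' ({σ x, σ y}ᶜ : Set W),
            Rc T.G (ρ ⁻¹' ({x, y}ᶜ : Set X)) u m := by
        rintro z hz hzx' ⟨w₁, w₂, h12, h1, h2, a1, a2⟩
        have hzy' : z ≠ y := by rintro rfl; exact hxy hz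
        rw [hz] at h1 h2
        by_cases h : w₁ = σ y
        · have h2' : w₂ ≠ σ y := by rw [← h]; exact h12.symm
          exact good_step (hconn z) (hpc x y z hzx' hzy') (hwC w₂ h2 h2') a2 (hbase w₂ h2 h2')
        · exact good_step (hconn z) (hpc x y z hzx' hzy') (hwC w₁ h1 h) a1 (hbase w₁ h1 h)
      rcases hlt with hlt | hlt
      · have key : ∀ n : ℕ, ∀ z, idx z = n → σ z = σ x → idx z < idx x →
            ∀ u ∈ ρ ⁻¹' {z}, ∃ m ∈ π ⁻¹' ({σ x, σ y}ᶜ : Set W),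
            Rc T.G (ρ ⁻¹' ({x, y}ᶜ : Set X)) u m := by
          intro n
          induction n using Nat.strong_induction_on with
          | _ n ih =>
            intro z hn hz hzlt
            have hzx' : z ≠ x := by rintro rfl; exact lt_irrefl _ hzlt
            have hzy' : z ≠ y := by rintro rfl; exact hxy hz
            by_cases hm : ∀ z', σ z' = σ z → idx z ≤ idx z'
            · exact hpick z hz hzx' (hmin z x hz hzlt hm)
            · push Not at hm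
              obtain ⟨z', hz', hlt'⟩ := hm
              obtain ⟨z'', h1, h2, h3⟩ := hdown z z' hz'.symm hlt'
              have hx'' : z'' ≠ x := by rintro rfl; omega
              have hy'' : z'' ≠ y := by rintro rfl; exact hxy (h1.trans hz)
              exact good_step (hconn z) (hpc x y z hzx' hzy') (hpc x y z'' hx'' hy'') h3
                (ih (idx z'') (by omega) z'' rfl (h1.trans hz) (by omega))
        exact key _ z0 rfl hs hlt
      · obtain ⟨N, hN⟩ : ∃ N, ∀ z, idx z ≤ N := by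
          obtain ⟨N, hN⟩ := (Set.finite_range idx).bddAbove
          exact ⟨N, fun z => hN ⟨z, rfl⟩⟩
        have key : ∀ n : ℕ, ∀ z, N - idx z = n → σ z = σ x → idx x < idx z →
            ∀ u ∈ ρ ⁻¹' {z}, ∃ m ∈ π ⁻¹' ({σ x, σ y}ᶜ : Set W),
            Rc T.G (ρ ⁻¹' ({x, y}ᶜ : Set X)) u m := by
          intro n
          induction n using Nat.strong_induction_on with
          | _ n ih =>
            intro z hn hz hzlt
            have hzx' : z ≠ x := by rintro rfl; exact lt_irrefl _ hzlt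
            have hzy' : z ≠ y := by rintro rfl; exact hxy hz
            by_cases hm : ∀ z', σ z' = σ z → idx z' ≤ idx z
            · exact hpick z hz hzx' (hmax z x hz hzlt hm)
            · push Not at hm
              obtain ⟨z', hz', hlt'⟩ := hm
              obtain ⟨z'', h1, h2, h3⟩ := hup z z' hz'.symm hlt'
              have hx'' : z'' ≠ x := by rintro rfl; omega
              have hy'' : z'' ≠ y := by rintro rfl; exact hxy (h1.trans hz)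
              have hb := hN z''
              exact good_step (hconn z) (hpc x y z hzx' hzy') (hpc x y z'' hx'' hy'') h3
                (ih (N - idx z'') (by omega) z'' rfl (h1.trans hz) (by omega))
        exact key _ z0 rfl hs hlt
  intro x y
  have hM : Conn T.G (π ⁻¹' ({σ x, σ y}ᶜ : Set W)) :=
    (CLUS_CONN T T' π hc _).1 (tri_conn3 T' (σ x) (σ y))
  have hall : ∀ u ∈ ρ ⁻¹' ({x, y}ᶜ : Set X), ∃ m ∈ π ⁻¹' ({σ x, σ y}ᶜ : Set W),
      Rc T.G (ρ ⁻¹' ({x, y}ᶜ : Set X)) u m := by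
    intro u hu
    have hu' := hu
    simp only [Set.mem_preimage, Set.mem_singleton_iff, Set.mem_compl_iff,
      Set.mem_insert_iff, not_or] at hu'
    by_cases h1 : σ (ρ u) = σ x
    · exact side x y (ρ u) hu'.1 hu'.2 h1 u rfl
    · by_cases h2 : σ (ρ u) = σ y
      · have := side y x (ρ u) hu'.2 hu'.1 h2 u rfl
        rwa [Set.pair_comm (σ y) (σ x), Set.pair_comm y x] at this
      · refine ⟨u, ?_, Relation.ReflTransGen.refl⟩
        simp only [Set.mem_preimage, Set.mem_singleton_iff, Set.mem_compl_iff,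
          Set.mem_insert_iff, not_or]
        rw [← hσ]
        exact ⟨h1, h2⟩
  obtain ⟨⟨m0, hm0⟩, hM2⟩ := hM
  refine ⟨⟨m0, hMC x y hm0⟩, ?_⟩
  intro u hu v hv
  obtain ⟨mu, hmu, hru⟩ := hall u hu
  obtain ⟨mv, hmv, hrv⟩ := hall v hv
  have h1 : Rc T.G (ρ ⁻¹' ({x, y}ᶜ : Set X)) mu mv := Rc.mono (hMC x y) (hM2 mu hmu mv hmv)
  exact Relation.ReflTransGen.trans hru (Relation.ReflTransGen.trans h1 (Rc.symm hv hrv))



end Pool.Agent.H891WLC
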