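import Pool.Agent.H891WLC.Defs
import Pool.Agent.H891WLC.D_piece
import Pool.Agent.H891WLC.tri_conn3
import Pool.Agent.H891WLC.CLUS_ADJ
import Pool.Agent.H891WLC.CLUS_CONN
import Pool.Agent.H891WLC.QUOT
import Pool.Agent.H891WLC.REFCH
import Pool.Agent.H891WLC.CLUS_FACT

set_option autoImplicit false

namespace Pool.Agent.H891WLC

namespace W_SUBDIV

theorem path_mono {V : Type} {G : SimpleGraph V} {A B : Set V} (h : A ⊆ B) {u v : V}
    (p : Relation.ReflTransGen (fun x y => G.Adj x y ∧ y ∈ A) u v) :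
    Relation.ReflTransGen (fun x y => G.Adj x y ∧ y ∈ B) u v := by
  induction p with
  | refl => exact Relation.ReflTransGen.refl
  | tail _ h2 ih => exact ih.tail ⟨h2.1, h h2.2⟩

theorem path_mem {V : Type} {G : SimpleGraph V} {A : Set V} {u v : V} (hu : u ∈ A)
    (p : Relation.ReflTransGen (fun x y => G.Adj x y ∧ y ∈ A) u v) : v ∈ A := by
  rcases Relation.ReflTransGen.cases_tail p with h | ⟨c, _, h⟩
  · rw [h]; exact hu
  · exact h.2

theorem path_symm {V : Type} {G : SimpleGraph V} {A : Set V} {u v : V} (hu : u ∈ A)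
    (p : Relation.ReflTransGen (fun x y => G.Adj x y ∧ y ∈ A) u v) :
    Relation.ReflTransGen (fun x y => G.Adj x y ∧ y ∈ A) v u := by
  induction p with
  | refl => exact Relation.ReflTransGen.refl
  | tail h1 h2 ih => exact Relation.ReflTransGen.head ⟨h2.1.symm, path_mem hu h1⟩ ih

theorem cross {V : Type} {G : SimpleGraph V} {A : Set V} (p : V → Prop) {u v : V} (hu : u ∈ A)
    (h : Relation.ReflTransGen (fun x y => G.Adj x y ∧ y ∈ A) u v) (hpu : p u) (hpv : ¬ p v) :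
    ∃ x ∈ A, ∃ y ∈ A, p x ∧ ¬ p y ∧ G.Adj x y := by
  induction h with
  | refl => exact absurd hpu hpv
  | @tail b c h1 h2 ih =>
    by_cases hb : p b
    · exact ⟨b, path_mem hu h1, c, h2.2, hb, hpv, h2.1⟩
    · exact ih hb

theorem conn_union {V : Type} {G : SimpleGraph V} {A B : Set V} (hA : Conn G A) (hB : Conn G B)
    (h : AdjS G A B) : Conn G (A ∪ B) := by
  obtain ⟨a, ha, b, hb, hab⟩ := h
  refine ⟨⟨a, Or.inl ha⟩, ?_⟩
  have key : ∀ u ∈ A ∪ B, Relation.ReflTransGen (fun x y => G.Adj x y ∧ y ∈ A ∪ B) a u := by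
    intro u hu
    rcases hu with hu | hu
    · exact path_mono Set.subset_union_left (hA.2 a ha u hu)
    · exact Relation.ReflTransGen.head ⟨hab, Or.inr hb⟩
        (path_mono Set.subset_union_right (hB.2 b hb u hu))
  intro u hu v hv
  exact (path_symm (show a ∈ A ∪ B from Or.inl ha) (key u hu)).trans (key v hv)

theorem card3 {W : Type} [Finite W] (T' : Tri W) : 3 ≤ Nat.card W := by
  have he := T'.euler
  by_contra hc
  have h2 : Nat.card W = 2 := by omega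
  have h0 : Nat.card {t : W × W × W // T'.F t.1 t.2.1 t.2.2} = 0 := by omega
  have hnt : Nontrivial W := by
    rw [← Finite.one_lt_card_iff_nontrivial]; omega
  obtain ⟨u, v, huv⟩ := hnt
  have hp := T'.conn u v
  rcases Relation.ReflTransGen.cases_head hp with h | ⟨c, ⟨z, hz⟩, _⟩
  · exact huv h
  · rw [Nat.card_eq_zero] at h0
    rcases h0 with h0 | h0
    · exact h0.false ⟨(u, c, z), hz⟩
    · exact h0.not_finite inferInstance

end W_SUBDIV

open W_SUBDIV in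
theorem SUBDIV {V W : Type} [Fintype V] [Fintype W] [DecidableEq W] (T : Tri V) (T' : Tri W) (π : V → W) (hp : Clus T T' π)
    (Sp : Finset W) (s : W → ℕ) (q : V → ℕ) (μ : W → ℕ → ℕ) (hμ : ∀ w, Monotone (μ w))
    (hs : ∀ w ∈ Sp, 1 ≤ s w) (hq0 : ∀ v, π v ∈ Sp → q v ≤ s (π v) + 1)
    (hq1 : ∀ w ∈ Sp, ∀ k, k ≤ s w + 1 → Conn T.G {v | π v = w ∧ q v = k})
    (hq2 : ∀ u v, π u ∈ Sp → π u = π v → T.G.Adj u v → q u ≤ q v + 1)
    (hq3 : ∀ w ∈ Sp, ∃ w₁ w₂, w₁ ≠ w₂ ∧ w₁ ≠ w ∧ w₂ ≠ w ∧ AdjS T.G {v | π v = w ∧ q v = 0} (π ⁻¹' {w₁}) ∧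
      AdjS T.G {v | π v = w ∧ q v = 0} (π ⁻¹' {w₂}))
    (hq4 : ∀ w ∈ Sp, ∃ w₁ w₂, w₁ ≠ w₂ ∧ w₁ ≠ w ∧ w₂ ≠ w ∧ AdjS T.G {v | π v = w ∧ q v = s w + 1} (π ⁻¹' {w₁}) ∧
      AdjS T.G {v | π v = w ∧ q v = s w + 1} (π ⁻¹' {w₂}))
    (hq5 : ∀ w ∈ Sp, ∀ k, 1 ≤ k → k ≤ s w → ∃ w₁, w₁ ≠ w ∧ AdjS T.G {v | π v = w ∧ q v = k} (π ⁻¹' {w₁})) :
    ∃ T'' : Tri (Set.range (pc π Sp q μ)), Clus T T'' (Set.rangeFactorization (pc π Sp q μ)) ∧
      Clus T'' T' (fun x => x.1.1) := by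
  have hsurj : Function.Surjective π := by
    intro w
    obtain ⟨v, hv⟩ := (hp.1 w).1
    exact ⟨v, hv⟩
  have hval : ∀ v, π v ∈ Sp → (pc π Sp q μ v) = (π v, μ (π v) (q v)) := by
    intro v hv
    simp [pc, hv]
  have hval0 : ∀ v, π v ∉ Sp → (pc π Sp q μ v) = (π v, 0) := by
    intro v hv
    simp [pc, hv]
  have hfst : ∀ v, (pc π Sp q μ v).1 = π v := fun v => rfl
  -- adjacency of consecutive classes
  have hadj : ∀ w ∈ Sp, ∀ k, k + 1 ≤ s w + 1 →
      AdjS T.G {v | π v = w ∧ q v = k} {v | π v = w ∧ q v = k + 1} := by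
    intro w hw k hk
    obtain ⟨a, ha1, ha2⟩ := (hq1 w hw k (by omega)).1
    obtain ⟨b, hb1, hb2⟩ := (hq1 w hw (k + 1) hk).1
    obtain ⟨x, hx, y, hy, px, py, hxy⟩ := cross (fun v => q v ≤ k) (show a ∈ π ⁻¹' {w} from ha1)
      ((hp.1 w).2 a ha1 b hb1) (by simp [ha2]) (by simp [hb2])
    have hx' : π x = w := hx
    have hy' : π y = w := hy
    have h1 := hq2 y x (by rw [hy']; exact hw) (by rw [hx', hy']) hxy.symm
    exact ⟨x, ⟨hx', by omega⟩, y, ⟨hy', by omega⟩, hxy⟩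
  have hrange : ∀ w ∈ Sp, ∀ k m, k ≤ m → m ≤ s w + 1 →
      Conn T.G {v | π v = w ∧ k ≤ q v ∧ q v ≤ m} := by
    intro w hw k m hkm
    induction m, hkm using Nat.le_induction with
    | base =>
      intro hk
      have : {v | π v = w ∧ k ≤ q v ∧ q v ≤ k} = {v | π v = w ∧ q v = k} := by
        ext v
        simp only [Set.mem_ofPred_eq]
        constructor
        · rintro ⟨h1, h2, h3⟩; exact ⟨h1, by omega⟩
        · rintro ⟨h1, h2⟩; exact ⟨h1, by omega, by omega⟩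
      rw [this]
      exact hq1 w hw k hk
    | succ m hm ih =>
      intro hms
      have hu : {v | π v = w ∧ k ≤ q v ∧ q v ≤ m + 1} =
          {v | π v = w ∧ k ≤ q v ∧ q v ≤ m} ∪ {v | π v = w ∧ q v = m + 1} := by
        ext v
        simp only [Set.mem_ofPred_eq, Set.mem_union]
        constructor
        · rintro ⟨h1, h2, h3⟩
          by_cases h : q v = m + 1
          · exact Or.inr ⟨h1, h⟩
          · exact Or.inl ⟨h1, h2, by omega⟩
        · rintro (⟨h1, h2, h3⟩ | ⟨h1, h2⟩)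
          · exact ⟨h1, h2, by omega⟩
          · exact ⟨h1, by omega, by omega⟩
      rw [hu]
      refine conn_union (ih (by omega)) (hq1 w hw (m + 1) hms) ?_
      obtain ⟨a, ha, b, hb, hab⟩ := hadj w hw m hms
      exact ⟨a, ⟨ha.1, by rw [ha.2]; exact hm, by rw [ha.2]⟩, b, hb, hab⟩
  -- membership in a piece
  have hmemiff : ∀ (v : V) (x : Set.range (pc π Sp q μ)),
      v ∈ Set.rangeFactorization (pc π Sp q μ) ⁻¹' {x} ↔ pc π Sp q μ v = x.1 := by
    intro v x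
    rw [Set.mem_preimage, Set.mem_singleton_iff, Subtype.ext_iff]
    rfl
  have hpm : ∀ (x : Set.range (pc π Sp q μ)), x.1.1 ∈ Sp → ∀ v,
      (pc π Sp q μ v = x.1 ↔ π v = x.1.1 ∧ μ x.1.1 (q v) = x.1.2) := by
    intro x hx v
    constructor
    · intro h
      have h1 : π v = x.1.1 := by rw [← h, hfst]
      have h2 : π v ∈ Sp := by rw [h1]; exact hx
      refine ⟨h1, ?_⟩
      rw [← h, hval v h2]
    · rintro ⟨h1, h2⟩
      have h3 : π v ∈ Sp := by rw [h1]; exact hx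
      rw [hval v h3]
      ext
      · exact h1
      · simp only [h1]; exact h2
  have hidx0 : ∀ (x : Set.range (pc π Sp q μ)), x.1.1 ∉ Sp → x.1.2 = 0 := by
    intro x hx
    obtain ⟨v, hv⟩ := x.2
    rw [← hv] at hx ⊢
    have h2 : π v ∉ Sp := hx
    rw [hval0 v h2]
  have hidx : ∀ x y : Set.range (pc π Sp q μ), x.1.1 = y.1.1 → x.1.2 = y.1.2 → x = y :=
    fun x y h1 h2 => Subtype.ext (Prod.ext h1 h2)
  have hconn : ∀ x : Set.range (pc π Sp q μ),
      Conn T.G (Set.rangeFactorization (pc π Sp q μ) ⁻¹' {x}) := by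
    intro x
    by_cases hx : x.1.1 ∈ Sp
    · have hxs : Set.rangeFactorization (pc π Sp q μ) ⁻¹' {x} =
          {v | π v = x.1.1 ∧ μ x.1.1 (q v) = x.1.2} := by
        ext v
        rw [hmemiff, hpm x hx]
        rfl
      rw [hxs]
      obtain ⟨v0, hv0⟩ := x.2
      refine ⟨⟨v0, (hpm x hx v0).1 hv0⟩, ?_⟩
      have key : ∀ u v, (π u = x.1.1 ∧ μ x.1.1 (q u) = x.1.2) →
          (π v = x.1.1 ∧ μ x.1.1 (q v) = x.1.2) → q u ≤ q v →
          Relation.ReflTransGen (fun a b => T.G.Adj a b ∧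
            b ∈ {v | π v = x.1.1 ∧ μ x.1.1 (q v) = x.1.2}) u v := by
        intro u v hu hv huv
        have hle : q v ≤ s (x.1.1) + 1 := by
          have := hq0 v (by rw [hv.1]; exact hx)
          rwa [hv.1] at this
        have h1 := (hrange x.1.1 hx (q u) (q v) huv hle).2 u ⟨hu.1, le_refl _, huv⟩ v
          ⟨hv.1, huv, le_refl _⟩
        refine path_mono ?_ h1
        rintro b ⟨hb1, hb2, hb3⟩
        refine ⟨hb1, le_antisymm ?_ ?_⟩
        · rw [← hv.2]; exact hμ _ hb3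
        · rw [← hu.2]; exact hμ _ hb2
      intro u hu v hv
      rcases le_total (q u) (q v) with h | h
      · exact key u v hu hv h
      · exact path_symm hv (key v u hv hu h)
    · have hxs : Set.rangeFactorization (pc π Sp q μ) ⁻¹' {x} = π ⁻¹' {x.1.1} := by
        ext v
        rw [hmemiff, Set.mem_preimage, Set.mem_singleton_iff]
        constructor
        · intro h; rw [← h, hfst]
        · intro h
          have h2 : π v ∉ Sp := by rw [h]; exact hx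
          rw [hval0 v h2]
          ext
          · exact h
          · exact (hidx0 x hx).symm
      rw [hxs]
      exact hp.1 _
  have hdown : ∀ x y : Set.range (pc π Sp q μ), x.1.1 = y.1.1 → y.1.2 < x.1.2 →
      ∃ z : Set.range (pc π Sp q μ), z.1.1 = x.1.1 ∧ z.1.2 < x.1.2 ∧
        AdjS T.G (Set.rangeFactorization (pc π Sp q μ) ⁻¹' {x})
          (Set.rangeFactorization (pc π Sp q μ) ⁻¹' {z}) := by
    intro x y hxy hlt
    have hx : x.1.1 ∈ Sp := by
      by_contra h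
      have := hidx0 x h
      omega
    obtain ⟨vx, hvx⟩ := x.2
    obtain ⟨vy, hvy⟩ := y.2
    have hvx' := (hpm x hx vx).1 hvx
    have hvy' := (hpm y (hxy ▸ hx) vy).1 hvy
    rw [← hxy] at hvy'
    obtain ⟨a, ha, b, hb, pa, pb, hab⟩ := cross (fun v => x.1.2 ≤ μ x.1.1 (q v))
      (show vx ∈ π ⁻¹' {x.1.1} from hvx'.1)
      ((hp.1 x.1.1).2 vx hvx'.1 vy hvy'.1) (by rw [hvx'.2]) (by rw [hvy'.2]; omega)
    have ha' : π a = x.1.1 := ha
    have hb' : π b = x.1.1 := hb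
    simp only [not_le] at pa pb
    have h1 := hq2 a b (by rw [ha']; exact hx) (by rw [ha', hb']) hab
    have h2 : q b < q vx := by
      by_contra hc
      push Not at hc
      have := hμ x.1.1 hc
      rw [hvx'.2] at this
      omega
    have h3 : μ x.1.1 (q a) ≤ x.1.2 := by
      rw [← hvx'.2]
      exact hμ _ (by omega)
    refine ⟨Set.rangeFactorization (pc π Sp q μ) b, hb', ?_, a, ?_, b, rfl, hab⟩
    · have : (Set.rangeFactorization (pc π Sp q μ) b).1 = (π b, μ (π b) (q b)) :=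
        hval b (by rw [hb']; exact hx)
      rw [this]
      simp only [hb']
      exact pb
    · rw [hmemiff, hpm x hx]
      exact ⟨ha', le_antisymm h3 pa⟩
  have hup : ∀ x y : Set.range (pc π Sp q μ), x.1.1 = y.1.1 → x.1.2 < y.1.2 →
      ∃ z : Set.range (pc π Sp q μ), z.1.1 = x.1.1 ∧ x.1.2 < z.1.2 ∧
        AdjS T.G (Set.rangeFactorization (pc π Sp q μ) ⁻¹' {x})
          (Set.rangeFactorization (pc π Sp q μ) ⁻¹' {z}) := by
    intro x y hxy hlt
    have hx : x.1.1 ∈ Sp := by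
      by_contra h
      have := hidx0 y (hxy ▸ h)
      omega
    obtain ⟨vx, hvx⟩ := x.2
    obtain ⟨vy, hvy⟩ := y.2
    have hvx' := (hpm x hx vx).1 hvx
    have hvy' := (hpm y (hxy ▸ hx) vy).1 hvy
    rw [← hxy] at hvy'
    obtain ⟨a, ha, b, hb, pa, pb, hab⟩ := cross (fun v => μ x.1.1 (q v) ≤ x.1.2)
      (show vx ∈ π ⁻¹' {x.1.1} from hvx'.1)
      ((hp.1 x.1.1).2 vx hvx'.1 vy hvy'.1) (by rw [hvx'.2]) (by rw [hvy'.2]; omega)
    have ha' : π a = x.1.1 := ha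
    have hb' : π b = x.1.1 := hb
    simp only [not_le] at pa pb
    have h1 := hq2 b a (by rw [hb']; exact hx) (by rw [ha', hb']) hab.symm
    have h2 : q vx < q b := by
      by_contra hc
      push Not at hc
      have := hμ x.1.1 hc
      rw [hvx'.2] at this
      omega
    have h3 : x.1.2 ≤ μ x.1.1 (q a) := by
      rw [← hvx'.2]
      exact hμ _ (by omega)
    refine ⟨Set.rangeFactorization (pc π Sp q μ) b, hb', ?_, a, ?_, b, rfl, hab⟩
    · have : (Set.rangeFactorization (pc π Sp q μ) b).1 = (π b, μ (π b) (q b)) :=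
        hval b (by rw [hb']; exact hx)
      rw [this]
      simp only [hb']
      exact pb
    · rw [hmemiff, hpm x hx]
      exact ⟨ha', le_antisymm pa h3⟩
  have adj_mono : ∀ (A B C : Set V), A ⊆ B → AdjS T.G A C → AdjS T.G B C := by
    rintro A B C h ⟨a, ha, c, hc, hac⟩
    exact ⟨a, h ha, c, hc, hac⟩
  have hmin : ∀ x y : Set.range (pc π Sp q μ), x.1.1 = y.1.1 → x.1.2 < y.1.2 →
      (∀ z : Set.range (pc π Sp q μ), z.1.1 = x.1.1 → x.1.2 ≤ z.1.2) →
      ∃ w₁ w₂, w₁ ≠ w₂ ∧ w₁ ≠ x.1.1 ∧ w₂ ≠ x.1.1 ∧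
        AdjS T.G (Set.rangeFactorization (pc π Sp q μ) ⁻¹' {x}) (π ⁻¹' {w₁}) ∧
        AdjS T.G (Set.rangeFactorization (pc π Sp q μ) ⁻¹' {x}) (π ⁻¹' {w₂}) := by
    intro x y hxy hlt hz
    have hx : x.1.1 ∈ Sp := by
      by_contra h
      have := hidx0 y (hxy ▸ h)
      omega
    obtain ⟨vx, hvx⟩ := x.2
    have hvx' := (hpm x hx vx).1 hvx
    have hsub : {v | π v = x.1.1 ∧ q v = 0} ⊆ Set.rangeFactorization (pc π Sp q μ) ⁻¹' {x} := by
      rintro v ⟨hv1, hv2⟩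
      rw [hmemiff, hpm x hx]
      refine ⟨hv1, le_antisymm ?_ ?_⟩
      · rw [← hvx'.2]; exact hμ _ (by omega)
      · have h1 := hz (Set.rangeFactorization (pc π Sp q μ) v) hv1
        have h2 : (Set.rangeFactorization (pc π Sp q μ) v).1 = (π v, μ (π v) (q v)) :=
          hval v (by rw [hv1]; exact hx)
        rw [h2] at h1
        simp only [hv1] at h1
        exact h1
    obtain ⟨w₁, w₂, e1, e2, e3, e4, e5⟩ := hq3 x.1.1 hx
    exact ⟨w₁, w₂, e1, e2, e3, adj_mono _ _ _ hsub e4, adj_mono _ _ _ hsub e5⟩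
  have hmax : ∀ x y : Set.range (pc π Sp q μ), x.1.1 = y.1.1 → y.1.2 < x.1.2 →
      (∀ z : Set.range (pc π Sp q μ), z.1.1 = x.1.1 → z.1.2 ≤ x.1.2) →
      ∃ w₁ w₂, w₁ ≠ w₂ ∧ w₁ ≠ x.1.1 ∧ w₂ ≠ x.1.1 ∧
        AdjS T.G (Set.rangeFactorization (pc π Sp q μ) ⁻¹' {x}) (π ⁻¹' {w₁}) ∧
        AdjS T.G (Set.rangeFactorization (pc π Sp q μ) ⁻¹' {x}) (π ⁻¹' {w₂}) := by
    intro x y hxy hlt hz
    have hx : x.1.1 ∈ Sp := by
      by_contra h
      have := hidx0 x h
      omega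
    obtain ⟨vx, hvx⟩ := x.2
    have hvx' := (hpm x hx vx).1 hvx
    have hvq : q vx ≤ s x.1.1 + 1 := by
      have := hq0 vx (by rw [hvx'.1]; exact hx)
      rwa [hvx'.1] at this
    have hsub : {v | π v = x.1.1 ∧ q v = s x.1.1 + 1} ⊆
        Set.rangeFactorization (pc π Sp q μ) ⁻¹' {x} := by
      rintro v ⟨hv1, hv2⟩
      rw [hmemiff, hpm x hx]
      refine ⟨hv1, le_antisymm ?_ ?_⟩
      · have h1 := hz (Set.rangeFactorization (pc π Sp q μ) v) hv1
        have h2 : (Set.rangeFactorization (pc π Sp q μ) v).1 = (π v, μ (π v) (q v)) :=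
          hval v (by rw [hv1]; exact hx)
        rw [h2] at h1
        simp only [hv1] at h1
        exact h1
      · rw [← hvx'.2]; exact hμ _ (by omega)
    obtain ⟨w₁, w₂, e1, e2, e3, e4, e5⟩ := hq4 x.1.1 hx
    exact ⟨w₁, w₂, e1, e2, e3, adj_mono _ _ _ hsub e4, adj_mono _ _ _ hsub e5⟩
  have hmid : ∀ x y : Set.range (pc π Sp q μ), x.1.1 = y.1.1 → x ≠ y →
      ∃ w₁, w₁ ≠ x.1.1 ∧
        AdjS T.G (Set.rangeFactorization (pc π Sp q μ) ⁻¹' {x}) (π ⁻¹' {w₁}) := by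
    intro x y hxy hne
    have hx : x.1.1 ∈ Sp := by
      by_contra h
      have h1 := hidx0 x h
      have h2 := hidx0 y (hxy ▸ h)
      exact hne (hidx x y hxy (by omega))
    obtain ⟨vx, hvx⟩ := x.2
    have hvx' := (hpm x hx vx).1 hvx
    have hvq : q vx ≤ s x.1.1 + 1 := by
      have := hq0 vx (by rw [hvx'.1]; exact hx)
      rwa [hvx'.1] at this
    have hsub : {v | π v = x.1.1 ∧ q v = q vx} ⊆
        Set.rangeFactorization (pc π Sp q μ) ⁻¹' {x} := by
      rintro v ⟨hv1, hv2⟩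
      rw [hmemiff, hpm x hx]
      refine ⟨hv1, ?_⟩
      rw [hv2]; exact hvx'.2
    by_cases h0 : q vx = 0
    · obtain ⟨w₁, w₂, e1, e2, e3, e4, e5⟩ := hq3 x.1.1 hx
      rw [h0] at hsub
      exact ⟨w₁, e2, adj_mono _ _ _ hsub e4⟩
    · by_cases h1 : q vx = s x.1.1 + 1
      · obtain ⟨w₁, w₂, e1, e2, e3, e4, e5⟩ := hq4 x.1.1 hx
        rw [h1] at hsub
        exact ⟨w₁, e2, adj_mono _ _ _ hsub e4⟩
      · obtain ⟨w₁, e1, e2⟩ := hq5 x.1.1 hx (q vx) (by omega) (by omega)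
        exact ⟨w₁, e1, adj_mono _ _ _ hsub e2⟩
  have h3 := REFCH T T' π hp (Set.rangeFactorization (pc π Sp q μ)) (fun x => x.1.1) (fun v => rfl)
    (fun x => x.1.2) hidx hconn hdown hup hmin hmax hmid
  have hcard : 3 ≤ Nat.card (Set.range (pc π Sp q μ)) := by
    refine le_trans (card3 T') ?_
    refine Nat.card_le_card_of_surjective (fun x : Set.range (pc π Sp q μ) => x.1.1) ?_
    intro w
    obtain ⟨v, hv⟩ := hsurj w
    exact ⟨⟨pc π Sp q μ v, v, rfl⟩, hv⟩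
  obtain ⟨T'', hT''⟩ := QUOT T (Set.rangeFactorization (pc π Sp q μ)) hconn hcard h3
  exact ⟨T'', hT'', CLUS_FACT T T'' T' (Set.rangeFactorization (pc π Sp q μ)) (fun x => x.1.1) hp hT''⟩


end Pool.Agent.H891WLC
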