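import Pool.Agent.H891WLC.Defs
import Pool.Agent.H891WLC.tri_conn3
import Pool.Agent.H891WLC.DRAWN_BAL
import Pool.Agent.H891WLC.ARC

set_option autoImplicit false

namespace Pool.Agent.H891WLC

namespace W_GEO

open Classical in
/-- successor in the link -/
noncomputable def nx {V : Type} (T : Tri V) (v x : V) : V :=
  if h : ∃ y, T.F v x y then h.choose else x

theorem nx_spec {V : Type} (T : Tri V) (v x : V) (h : ∃ y, T.F v x y) : T.F v x (nx T v x) := by
  unfold nx
  rw [dif_pos h]
  exact h.choose_spec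

theorem nx_eq {V : Type} (T : Tri V) (v x y : V) (h : T.F v x y) : nx T v x = y :=
  T.uniq v x _ _ (nx_spec T v x ⟨y, h⟩) h

theorem nx_mem {V : Type} (T : Tri V) (v x y : V) (h : T.F v x y) : ∃ z, T.F v y z := by
  have h1 : T.F y v x := T.rot _ _ _ (T.rot _ _ _ h)
  exact T.opp y v x h1

theorem cyc_exists {V : Type} (T : Tri V) (v e : V) (he : ∃ y, T.F v e y) :
    ∃ (n : ℕ) (c : ℕ → V), 0 < n ∧ c 0 = e ∧ (∀ i, T.F v (c i) (c (i + 1))) ∧
      (∀ i, c (i + n) = c i) ∧ (∀ j a b, a < n → b < n → c (j + a) = c (j + b) → a = b) ∧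
      (∀ x y, T.F v x y → ∃ k, k < n ∧ c k = x) := by
  have hstep : ∀ i, T.F v ((nx T v)^[i] e) ((nx T v)^[i + 1] e) := by
    intro i
    induction i with
    | zero => exact nx_spec T v e he
    | succ i ih =>
      rw [Function.iterate_succ_apply' (nx T v) (i + 1)]
      exact nx_spec T v _ (nx_mem T v _ _ ih)
  have hreach : ∀ x x', Relation.ReflTransGen (fun x y => T.F v x y) x x' →
      ∃ k, (nx T v)^[k] x = x' := by
    intro x x' h
    induction h with
    | refl => exact ⟨0, rfl⟩
    | tail _ h ih =>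
      obtain ⟨k, hk⟩ := ih
      refine ⟨k + 1, ?_⟩
      rw [Function.iterate_succ_apply', hk]
      exact nx_eq T v _ _ h
  have hper : e ∈ Function.periodicPts (nx T v) := by
    have h1 := hstep 0
    have h2 := hstep 1
    obtain ⟨k, hk⟩ := hreach _ _ (T.link v _ _ _ _ h2 h1)
    refine Function.mk_mem_periodicPts (n := k + 1) (Nat.succ_pos k) ?_
    have h3 : (nx T v)^[k + 1] e = (nx T v)^[k] ((nx T v)^[1] e) := by
      rw [← Function.iterate_add_apply]
    show (nx T v)^[k + 1] e = e
    rw [h3]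
    exact hk
  refine ⟨Function.minimalPeriod (nx T v) e, fun i => (nx T v)^[i] e,
    Function.minimalPeriod_pos_of_mem_periodicPts hper, rfl, hstep, fun i =>
      Function.iterate_add_minimalPeriod_eq, ?_, ?_⟩
  · intro j a b ha hb hab
    have hmp := Function.minimalPeriod_apply_iterate hper j
    have h1 : (nx T v)^[a] ((nx T v)^[j] e) = (nx T v)^[b] ((nx T v)^[j] e) := by
      rw [← Function.iterate_add_apply, ← Function.iterate_add_apply, add_comm a j, add_comm b j]
      exact hab
    rw [← hmp] at ha hb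
    exact (Function.iterate_eq_iterate_iff_of_lt_minimalPeriod ha hb).1 h1
  · intro x y hxy
    obtain ⟨k, hk⟩ := hreach _ _ (T.link v _ _ _ _ (hstep 0) hxy)
    refine ⟨k % Function.minimalPeriod (nx T v) e,
      Nat.mod_lt _ (Function.minimalPeriod_pos_of_mem_periodicPts hper), ?_⟩
    show (nx T v)^[_] e = x
    rw [Function.iterate_mod_minimalPeriod_eq]
    exact hk

theorem walk {V : Type} (T : Tri V) (v : V) (c : ℕ → V) (hc : ∀ i, T.F v (c i) (c (i + 1)))
    (M i : ℕ) (hi : i < M) (a : V)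
    (h : Relation.ReflTransGen (fun x z => T.F v x z ∧ z ≠ c M) (c i) a) :
    ∃ k, i ≤ k ∧ k < M ∧ c k = a := by
  induction h with
  | refl => exact ⟨i, le_rfl, hi, rfl⟩
  | tail _ h ih =>
    obtain ⟨k, h1, h2, h3⟩ := ih
    obtain ⟨h4, h5⟩ := h
    rw [← h3] at h4
    have h6 := T.uniq v (c k) _ _ h4 (hc k)
    refine ⟨k + 1, by omega, ?_, h6.symm⟩
    rcases Nat.lt_or_ge (k + 1) M with h7 | h7
    · exact h7
    · exfalso
      apply h5
      have : k + 1 = M := by omega
      rw [h6, this]

theorem crs_swap (a b c : ℝ × ℝ) : crs a b c = - crs a c b := by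
  unfold crs; ring

theorem S1 {V : Type} [Finite V] (T : Tri V) (o₁ o₂ o₃ : V) (P : V → ℝ × ℝ)
    (hd : Drawn T o₁ o₂ o₃ P) (v : V) (h1 : v ≠ o₁) (h2 : v ≠ o₂) (h3 : v ≠ o₃)
    (n : ℕ) (c : ℕ → V) (hc : ∀ i, T.F v (c i) (c (i + 1)))
    (hper : ∀ i, c (i + n) = c i)
    (hinj : ∀ j a b, a < n → b < n → c (j + a) = c (j + b) → a = b)
    (j t s : ℕ) (ht : 0 < t) (hts : t < s) (hsn : s < n)
    (hle : crs (P v) (P (c j)) (P (c (j + t))) ≤ 0) :
    crs (P v) (P (c j)) (P (c (j + s))) < 0 := by
  have hpos : ∀ i, 0 < crs (P v) (P (c i)) (P (c (i + 1))) := by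
    intro i
    refine hd.2.2 _ _ _ (hc i) ?_
    rintro (⟨h, -, -⟩ | ⟨h, -, -⟩ | ⟨h, -, -⟩)
    · exact h1 h
    · exact h2 h
    · exact h3 h
  have hαβ : -((P (c j)).2 - (P v).2) ≠ 0 ∨ ((P (c j)).1 - (P v).1) ≠ 0 := by
    by_contra h
    push Not at h
    have h4 := hpos j
    unfold crs at h4
    have h5 : (P (c j)).2 - (P v).2 = 0 := by linarith [h.1]
    rw [h.2, h5] at h4
    simp at h4
  obtain ⟨A1, A2, A3, A4⟩ := ARC T o₁ o₂ o₃ P hd v h1 h2 h3 _ _ hαβ
    (fun u => crs (P v) (P (c j)) (P u)) (fun u => by unfold crs; ring)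
  have hf0 : crs (P v) (P (c j)) (P (c j)) = 0 := by unfold crs; ring
  have hA : ∀ s, t ≤ s → s < n → crs (P v) (P (c j)) (P (c (j + s))) ≤ 0 := by
    intro s hs
    induction s, hs using Nat.le_induction with
    | base => intro _; exact hle
    | succ r hr ih =>
      intro hrn
      by_contra hcon
      push Not at hcon
      have h4 := A1 (c j) (c (j + 1)) (c (j + r)) (c (j + (r + 1))) (hc j) (le_of_eq hf0) (hpos j)
        (hc (j + r)) (ih (by omega)) hcon
      have h5 := hinj j 0 r (by omega) (by omega) h4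
      omega
  obtain ⟨r, rfl⟩ : ∃ r, s = r + 1 := ⟨s - 1, by omega⟩
  refine lt_of_le_of_ne (hA (r + 1) (by omega) hsn) ?_
  intro hz
  have hr := hA r (by omega) (by omega)
  rcases hr.lt_or_eq with hr | hr
  · have hlast : crs (P v) (P (c j)) (P (c (j + (n - 1)))) < 0 := by
      have h4 := hpos (j + (n - 1))
      have h5 : j + (n - 1) + 1 = j + n := by omega
      rw [h5, hper j, crs_swap] at h4
      linarith
    have h6 : T.F v (c (j + (n - 1))) (c j) := by
      have h4 := hc (j + (n - 1))
      have h5 : j + (n - 1) + 1 = j + n := by omega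
      rwa [h5, hper j] at h4
    have h7 := A4 (c (j + r)) (c (j + (r + 1))) (c (j + (n - 1))) (c j) (hc (j + r)) hr
      (le_of_eq hz.symm) h6 hlast (le_of_eq hf0.symm)
    have h8 := hinj j r (n - 1) (by omega) (by omega) h7
    omega
  · have h4 := hpos (j + r)
    have h5 := hpos j
    have h6 : crs (P v) (P (c (j + r))) (P (c (j + r + 1))) * crs (P v) (P (c j)) (P (c (j + 1))) = 0 := by
      have hz' : crs (P v) (P (c j)) (P (c (j + r + 1))) = 0 := hz
      have hid : crs (P v) (P (c (j + r))) (P (c (j + r + 1))) * crs (P v) (P (c j)) (P (c (j + 1)))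
          = crs (P v) (P (c j)) (P (c (j + r + 1))) * crs (P v) (P (c (j + r))) (P (c (j + 1)))
          - crs (P v) (P (c j)) (P (c (j + r))) * crs (P v) (P (c (j + r + 1))) (P (c (j + 1))) := by
        unfold crs; ring
      rw [hid, hz', hr]
      ring
    have h7 := mul_pos h4 h5
    linarith


end W_GEO

open W_GEO in
theorem GEO {V : Type} [Finite V] (T : Tri V) (o₁ o₂ o₃ : V) (P : V → ℝ × ℝ) (hd : Drawn T o₁ o₂ o₃ P) (v : V)
    (h1 : v ≠ o₁) (h2 : v ≠ o₂) (h3 : v ≠ o₃) (e e' : V) (he : T.G.Adj v e) (he' : T.G.Adj v e') (hee : e ≠ e') :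
    (∀ a a', a ≠ e → Relation.ReflTransGen (fun x z => T.F v x z ∧ z ≠ e') e a →
      Relation.ReflTransGen (fun x z => T.F v x z ∧ z ≠ e') a a' → crs (P v) (P e) (P a) ≤ 0 →
      crs (P v) (P e') (P a') < 0 ∧
      ∀ b, b ≠ e' → Relation.ReflTransGen (fun x z => T.F v x z ∧ z ≠ e) e' b → 0 < crs (P v) (P e') (P b)) ∧
    (∀ b b', b ≠ e' → Relation.ReflTransGen (fun x z => T.F v x z ∧ z ≠ e) e' b → b' ≠ e' →
      Relation.ReflTransGen (fun x z => T.F v x z ∧ z ≠ e) e' b' →
      Relation.ReflTransGen (fun x z => T.F v x z ∧ z ≠ e) b' b → 0 ≤ crs (P v) (P e) (P b) →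
      0 < crs (P v) (P e') (P b') ∧
      ∀ a, a ≠ e → Relation.ReflTransGen (fun x z => T.F v x z ∧ z ≠ e') e a → crs (P v) (P e') (P a) < 0) := by
  obtain ⟨n, c, hn, h0, hc, hper, hinj, hsurj⟩ := cyc_exists T v e he
  obtain ⟨y', hy'⟩ := he'
  obtain ⟨m, hmn, hm⟩ := hsurj e' y' hy'
  have hm0 : 0 < m := by
    rcases Nat.eq_zero_or_pos m with h | h
    · exfalso
      apply hee
      rw [← h0, ← hm, h]
    · exact h
  have hcn : c n = e := by
    have := hper 0
    rw [Nat.zero_add] at this
    rw [this, h0]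
  have S := S1 T o₁ o₂ o₃ P hd v h1 h2 h3 n c hc hper hinj
  -- contrapositive
  have S' : ∀ j t s : ℕ, 0 < t → t < s → s < n → 0 ≤ crs (P v) (P (c j)) (P (c (j + s))) →
      0 < crs (P v) (P (c j)) (P (c (j + t))) := by
    intro j t s ht hts hsn h
    by_contra hcon
    push Not at hcon
    have := S j t s ht hts hsn hcon
    linarith
  have hA : ∀ a, Relation.ReflTransGen (fun x z => T.F v x z ∧ z ≠ e') e a →
      ∃ k, k < m ∧ c k = a := by
    intro a ha
    rw [← h0, ← hm] at ha
    obtain ⟨k, -, hk1, hk2⟩ := walk T v c hc m 0 hm0 a ha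
    exact ⟨k, hk1, hk2⟩
  have hB : ∀ b, Relation.ReflTransGen (fun x z => T.F v x z ∧ z ≠ e) e' b →
      ∃ k, m ≤ k ∧ k < n ∧ c k = b := by
    intro b hb
    rw [← hcn, ← hm] at hb
    exact walk T v c hc n m hmn b hb
  constructor
  · intro a a' hae ha haa' hcrs
    obtain ⟨i, him, hi⟩ := hA a ha
    have hi0 : 0 < i := by
      rcases Nat.eq_zero_or_pos i with h | h
      · exfalso
        apply hae
        rw [← hi, h, h0]
      · exact h
    rw [← hi, ← hm] at haa'
    obtain ⟨i', hii', hi'm, hi'⟩ := walk T v c hc m i him a' haa'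
    rw [← h0, ← hi] at hcrs
    rw [← hm, ← hi']
    have hS0 : ∀ s, i < s → s < n → crs (P v) (P (c 0)) (P (c s)) < 0 := by
      intro s h4 h5
      have := S 0 i s hi0 h4 h5 (by rw [Nat.zero_add]; exact hcrs)
      rwa [Nat.zero_add] at this
    have h0m := hS0 m him hmn
    have h0i' : crs (P v) (P (c 0)) (P (c i')) ≤ 0 := by
      rcases hii'.eq_or_lt with h | h
      · rw [← h]; exact hcrs
      · exact (hS0 i' h (by omega)).le
    constructor
    · have h4 := S' i' (m - i') (n - i') (by omega) (by omega) (by omega) (by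
        have h5 : i' + (n - i') = 0 + n := by omega
        rw [h5, hper 0, crs_swap]
        linarith)
      have h6 : i' + (m - i') = m := by omega
      rw [h6, crs_swap] at h4
      linarith
    · intro b hbe hb
      rw [hm] at hb hbe
      obtain ⟨k, hmk, hkn, hk⟩ := hB b hb
      have hmk' : m < k := by
        rcases hmk.eq_or_lt with h | h
        · exfalso
          apply hbe
          rw [← hk, ← h, hm]
        · exact h
      have h4 := S' m (k - m) (n - m) (by omega) (by omega) (by omega) (by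
        have h5 : m + (n - m) = 0 + n := by omega
        rw [h5, hper 0, crs_swap]
        linarith)
      have h6 : m + (k - m) = k := by omega
      rw [h6] at h4
      rw [← hk]
      exact h4
  · intro b b' hbe hb hb'e hb' hb'b hcrs
    obtain ⟨k', hmk', hk'n, hk'⟩ := hB b' hb'
    have hmk'' : m < k' := by
      rcases hmk'.eq_or_lt with h | h
      · exfalso
        apply hb'e
        rw [← hk', ← h, hm]
      · exact h
    rw [← hcn, ← hk'] at hb'b
    obtain ⟨k, hk'k, hkn, hk⟩ := walk T v c hc n k' hk'n b hb'b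
    rw [← h0, ← hk] at hcrs
    rw [← hm, ← hk']
    have hS0 : ∀ s, 0 < s → s < k → 0 < crs (P v) (P (c 0)) (P (c s)) := by
      intro s h4 h5
      have := S' 0 s k h4 h5 hkn (by rw [Nat.zero_add]; exact hcrs)
      rwa [Nat.zero_add] at this
    have h0m := hS0 m hm0 (by omega)
    have h0k' : 0 ≤ crs (P v) (P (c 0)) (P (c k')) := by
      rcases hk'k.eq_or_lt with h | h
      · rw [h]; exact hcrs
      · exact (hS0 k' (by omega) h).le
    constructor
    · have h4 := S k' (n - k') (n - k' + m) (by omega) (by omega) (by omega) (by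
        have h5 : k' + (n - k') = 0 + n := by omega
        rw [h5, hper 0, crs_swap]
        linarith)
      have h6 : k' + (n - k' + m) = m + n := by omega
      rw [h6, hper m, crs_swap] at h4
      linarith
    · intro a hae ha
      rw [hm] at ha
      obtain ⟨i, him, hi⟩ := hA a ha
      have hi0 : 0 < i := by
        rcases Nat.eq_zero_or_pos i with h | h
        · exfalso
          apply hae
          rw [← hi, h, h0]
        · exact h
      have h4 := S m (n - m) (n - m + i) (by omega) (by omega) (by omega) (by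
        have h5 : m + (n - m) = 0 + n := by omega
        rw [h5, hper 0, crs_swap]
        linarith)
      have h6 : m + (n - m + i) = i + n := by omega
      rw [h6, hper i] at h4
      rw [← hi]
      exact h4


end Pool.Agent.H891WLC
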