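import Pool.Agent.H891WLC.Defs
import Pool.Agent.H891WLC.D_path
import Pool.Agent.H891WLC.tri_conn3
import Pool.Agent.H891WLC.CLUS_ADJ
import Pool.Agent.H891WLC.CLUS_UNIQ

set_option autoImplicit false

namespace Pool.Agent.H891WLC

namespace W_MONO

theorem rmono {α : Type} {R S : α → α → Prop} (hm : ∀ x z, R x z → S x z) {a b : α}
    (h : Relation.ReflTransGen R a b) : Relation.ReflTransGen S a b := by
  induction h with
  | refl => exact Relation.ReflTransGen.refl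
  | tail _ h2 ih => exact ih.tail (hm _ _ h2)


theorem avoid {V : Type} {R : V → V → Prop} {p q a b : V} (hpq : p ≠ q) (haq : a ≠ q)
    (hp : ∀ z, R p z → z = a) (hq : ∀ x, R x q → x = b)
    (h : Relation.ReflTransGen R p q) :
    Relation.ReflTransGen (fun x z => R x z ∧ z ≠ p ∧ z ≠ q) a b := by
  by_contra hb
  have main : ∀ x, Relation.ReflTransGen R p x →
      x = p ∨ Relation.ReflTransGen (fun x z => R x z ∧ z ≠ p ∧ z ≠ q) a x := by
    intro x hx
    induction hx with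
    | refl => exact Or.inl rfl
    | @tail y z _ hyz ih =>
      rcases ih with ih | ih
      · rw [ih] at hyz
        rw [hp z hyz]
        exact Or.inr Relation.ReflTransGen.refl
      · by_cases hzp : z = p
        · exact Or.inl hzp
        · by_cases hzq : z = q
          · rw [hzq] at hyz
            rw [hq y hyz] at ih
            exact absurd ih hb
          · exact Or.inr (ih.tail ⟨hyz, hzp, hzq⟩)
  rcases main q h with h1 | h1
  · exact hpq h1.symm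
  · rcases Relation.ReflTransGen.cases_tail h1 with h2 | ⟨c, -, hc⟩
    · exact haq h2.symm
    · exact hc.2.2 rfl

section

variable {Xf X0 : Type} {Tf : Tri Xf} {T0 : Tri X0} {σ : Xf → X0} {m : X0} {s : ℕ} {y : ℕ → Xf}

theorem a1 {a b c : Xf} (h : Tf.F a b c) : Tf.G.Adj a b := ⟨c, h⟩
theorem a2 {a b c : Xf} (h : Tf.F a b c) : Tf.G.Adj b c := ⟨a, Tf.rot _ _ _ h⟩
theorem a3 {a b c : Xf} (h : Tf.F a b c) : Tf.G.Adj c a := ⟨b, Tf.rot _ _ _ (Tf.rot _ _ _ h)⟩

theorem fsymm {a b c : Xf} (h : Tf.F a b c) : Tf.F b c a := Tf.rot _ _ _ h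

/-- injectivity of the successor map -/
theorem finj {v x x' q : Xf} (h : Tf.F v x q) (h' : Tf.F v x' q) : x = x' :=
  Tf.uniq q v x x' (fsymm (fsymm h)) (fsymm (fsymm h'))

/-- off the path -/
def Off (y : ℕ → Xf) (s : ℕ) (x : Xf) : Prop := ∀ k, k ≤ s + 1 → x ≠ y k

theorem off_of_adj (hp : PathAt Tf T0 σ m s y) {k : ℕ} (hk : k + 1 ≤ s) {z : Xf}
    (h : Tf.G.Adj (y (k + 1)) z) (h1 : z ≠ y k) (h2 : z ≠ y (k + 2)) : Off y s z := by
  intro j hj hz
  rcases lt_trichotomy j (k + 1) with h3 | h3 | h3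
  · rcases Nat.lt_or_ge j k with h4 | h4
    · apply hp.nadj j (k + 1) hj (by omega) (by omega)
      rw [← hz]
      exact h.symm
    · have : j = k := by omega
      rw [this] at hz
      exact h1 hz
  · rw [h3] at hz
    rw [hz] at h
    exact h.ne rfl
  · rcases Nat.lt_or_ge (k + 2) j with h4 | h4
    · apply hp.nadj (k + 1) j (by omega) hj (by omega)
      rw [← hz]
      exact h
    · have : j = k + 2 := by omega
      rw [this] at hz
      exact h2 hz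

theorem off_common (hp : PathAt Tf T0 σ m s y) {i : ℕ} (hi : i ≤ s) {c : Xf}
    (h : Tf.G.Adj (y i) c) (h' : Tf.G.Adj (y (i + 1)) c) : Off y s c := by
  intro j hj hz
  rcases lt_trichotomy j i with h3 | h3 | h3
  · apply hp.nadj j (i + 1) hj (by omega) (by omega)
    rw [← hz]
    exact h'.symm
  · rw [h3] at hz
    rw [hz] at h
    exact h.ne rfl
  · rcases Nat.lt_or_ge (i + 1) j with h4 | h4
    · apply hp.nadj i j (by omega) hj (by omega)
      rw [← hz]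
      exact h
    · have : j = i + 1 := by omega
      rw [this] at hz
      rw [hz] at h'
      exact h'.ne rfl

theorem off_m (hp : PathAt Tf T0 σ m s y) {x : Xf} (h : Off y s x) : σ x ≠ m := by
  intro hx
  obtain ⟨i, h1, h2, h3⟩ := (hp.fib x).1 hx
  exact h i (by omega) h3

theorem off_0 (hp : PathAt Tf T0 σ m s y) {x : Xf} (h : Off y s x) : σ x ≠ σ (y 0) :=
  fun hx => h 0 (by omega) (hp.e0 x hx)

theorem off_1 (hp : PathAt Tf T0 σ m s y) {x : Xf} (h : Off y s x) : σ x ≠ σ (y (s + 1)) :=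
  fun hx => h (s + 1) (by omega) (hp.e1 x hx)

theorem sig (hp : PathAt Tf T0 σ m s y) {i : ℕ} (h1 : 1 ≤ i) (h2 : i ≤ s) : σ (y i) = m :=
  (hp.fib (y i)).2 ⟨i, h1, h2, rfl⟩

theorem sig0 (hp : PathAt Tf T0 σ m s y) : σ (y 0) ≠ m := by
  intro hx
  obtain ⟨i, h1, h2, h3⟩ := (hp.fib _).1 hx
  have := hp.inj 0 i (by omega) (by omega) h3
  omega

theorem sig1 (hp : PathAt Tf T0 σ m s y) : σ (y (s + 1)) ≠ m := by
  intro hx
  obtain ⟨i, h1, h2, h3⟩ := (hp.fib _).1 hx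
  have := hp.inj (s + 1) i (by omega) (by omega) h3
  omega

/-- steps avoiding both ends -/
def Q (T0 : Tri X0) (σ : Xf → X0) (m : X0) (s : ℕ) (y : ℕ → Xf) (x z : X0) : Prop :=
  T0.F m x z ∧ z ≠ σ (y 0) ∧ z ≠ σ (y (s + 1))

theorem proj (hc : Clus Tf T0 σ) (hp : PathAt Tf T0 σ m s y) {k : ℕ} (hk : k + 1 ≤ s)
    {x0 x1 : Xf} (h0 : Off y s x0)
    (h : Relation.ReflTransGen
      (fun x z => Tf.F (y (k + 1)) x z ∧ z ≠ y k ∧ z ≠ y (k + 2)) x0 x1) :
    Relation.ReflTransGen (Q T0 σ m s y) (σ x0) (σ x1) ∧ Off y s x1 := by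
  induction h with
  | refl => exact ⟨Relation.ReflTransGen.refl, h0⟩
  | @tail x z _ hxz ih =>
    obtain ⟨hf, hz1, hz2⟩ := hxz
    have hz : Off y s z := off_of_adj hp hk (a3 hf).symm hz1 hz2
    refine ⟨?_, hz⟩
    by_cases he : σ x = σ z
    · rw [← he]
      exact ih.1
    · refine ih.1.tail ⟨?_, off_0 hp hz, off_1 hp hz⟩
      rw [hc.2]
      exact ⟨(off_m hp ih.2).symm, he, (off_m hp hz).symm, y (k + 1), x, z,
        sig hp (by omega) hk, rfl, rfl, hf⟩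

theorem exb (hp : PathAt Tf T0 σ m s y) {i : ℕ} (hi : i ≤ s) :
    ∃ c, Tf.F (y i) (y (i + 1)) c := hp.adj i hi

theorem exa (hp : PathAt Tf T0 σ m s y) {i : ℕ} (hi : i ≤ s) :
    ∃ c, Tf.F (y (i + 1)) (y i) c := by
  obtain ⟨c, h⟩ := hp.adj i hi
  exact Tf.opp _ _ _ h

theorem offa (hp : PathAt Tf T0 σ m s y) {i : ℕ} (hi : i ≤ s) {c : Xf}
    (h : Tf.F (y (i + 1)) (y i) c) : Off y s c := off_common hp hi (a2 h) (a3 h).symm

theorem offb (hp : PathAt Tf T0 σ m s y) {i : ℕ} (hi : i ≤ s) {c : Xf}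
    (h : Tf.F (y i) (y (i + 1)) c) : Off y s c := off_common hp hi (a3 h).symm (a2 h)

theorem stepA (hc : Clus Tf T0 σ) (hp : PathAt Tf T0 σ m s y) {k : ℕ} (hk : k + 1 ≤ s)
    {c d : Xf} (h1 : Tf.F (y (k + 1)) (y k) c) (h2 : Tf.F (y (k + 2)) (y (k + 1)) d) :
    Relation.ReflTransGen (Q T0 σ m s y) (σ c) (σ d) := by
  obtain ⟨e, he⟩ := exb hp hk
  have hl := Tf.link _ _ _ _ _ h1 he
  have hoff := offa hp (by omega) h1
  have hne : y k ≠ y (k + 2) := by
    intro h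
    have := hp.inj k (k + 2) (by omega) (by omega) h
    omega
  have := avoid (R := fun x z => Tf.F (y (k + 1)) x z) (a := c) (b := d) hne
    (hoff (k + 2) (by omega)) (fun z hz => Tf.uniq _ _ _ _ hz h1)
    (fun x hx => finj hx (fsymm h2)) hl
  exact (proj hc hp hk hoff this).1

theorem stepB (hc : Clus Tf T0 σ) (hp : PathAt Tf T0 σ m s y) {k : ℕ} (hk : k + 1 ≤ s)
    {c d : Xf} (h1 : Tf.F (y k) (y (k + 1)) c) (h2 : Tf.F (y (k + 1)) (y (k + 2)) d) :
    Relation.ReflTransGen (Q T0 σ m s y) (σ d) (σ c) := by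
  obtain ⟨e, he⟩ := exa hp (i := k) (by omega)
  have hl := Tf.link _ _ _ _ _ h2 he
  have hoff := offb hp (i := k + 1) hk h2
  have hne : y (k + 2) ≠ y k := by
    intro h
    have := hp.inj (k + 2) k (by omega) (by omega) h
    omega
  have := avoid (R := fun x z => Tf.F (y (k + 1)) x z) (a := d) (b := c) hne
    (hoff k (by omega)) (fun z hz => Tf.uniq _ _ _ _ hz h2)
    (fun x hx => finj hx (fsymm h1)) hl
  exact (proj hc hp hk hoff (rmono (fun x z u => ⟨u.1, u.2.2, u.2.1⟩) this)).1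

theorem chainA (hc : Clus Tf T0 σ) (hp : PathAt Tf T0 σ m s y) {i j : ℕ} (hij : i ≤ j)
    (hj : j ≤ s) {c d : Xf} (h1 : Tf.F (y (i + 1)) (y i) c) (h2 : Tf.F (y (j + 1)) (y j) d) :
    Relation.ReflTransGen (Q T0 σ m s y) (σ c) (σ d) := by
  induction j, hij using Nat.le_induction generalizing d with
  | base =>
    rw [Tf.uniq _ _ _ _ h1 h2]
  | succ j hij ih =>
    obtain ⟨e, he⟩ := exa hp (i := j) (by omega)
    exact (ih (by omega) he).trans (stepA hc hp hj he h2)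

theorem chainB (hc : Clus Tf T0 σ) (hp : PathAt Tf T0 σ m s y) {i j : ℕ} (hij : i ≤ j)
    (hj : j ≤ s) {c d : Xf} (h1 : Tf.F (y i) (y (i + 1)) c) (h2 : Tf.F (y j) (y (j + 1)) d) :
    Relation.ReflTransGen (Q T0 σ m s y) (σ d) (σ c) := by
  induction j, hij using Nat.le_induction generalizing d with
  | base =>
    rw [Tf.uniq _ _ _ _ h1 h2]
  | succ j hij ih =>
    obtain ⟨e, he⟩ := exb hp (i := j) (by omega)
    exact (stepB hc hp hj he h2).trans (ih (by omega) he)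

end

end W_MONO

open W_MONO in
theorem MONO {Xf X0 : Type} [Finite Xf] [Finite X0] (Tf : Tri Xf) (T0 : Tri X0) (σ : Xf → X0) (hc : Clus Tf T0 σ)
    (m : X0) (s : ℕ) (y : ℕ → Xf) (hp : PathAt Tf T0 σ m s y) :
    (∀ c, Tf.F (y 1) (y 0) c → T0.F m (σ (y 0)) (σ c)) ∧
    (∀ c, Tf.F (y s) (y (s + 1)) c → T0.F m (σ (y (s + 1))) (σ c)) ∧
    (∀ c, Tf.F (y 0) (y 1) c → T0.F m (σ c) (σ (y 0))) ∧
    (∀ c, Tf.F (y (s + 1)) (y s) c → T0.F m (σ c) (σ (y (s + 1)))) ∧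
    (∀ i c, i ≤ s → Tf.F (y (i + 1)) (y i) c →
      Relation.ReflTransGen (fun x z => T0.F m x z ∧ z ≠ σ (y (s + 1))) (σ (y 0)) (σ c) ∧ σ c ≠ σ (y 0) ∧ σ c ≠ m) ∧
    (∀ i c, i ≤ s → Tf.F (y i) (y (i + 1)) c →
      Relation.ReflTransGen (fun x z => T0.F m x z ∧ z ≠ σ (y 0)) (σ (y (s + 1))) (σ c) ∧ σ c ≠ σ (y (s + 1)) ∧ σ c ≠ m) ∧
    (∀ i j c d, i ≤ j → j ≤ s → Tf.F (y (i + 1)) (y i) c → Tf.F (y (j + 1)) (y j) d →
      Relation.ReflTransGen (fun x z => T0.F m x z ∧ z ≠ σ (y (s + 1))) (σ c) (σ d)) ∧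
    (∀ i j c d, i ≤ j → j ≤ s → Tf.F (y i) (y (i + 1)) c → Tf.F (y j) (y (j + 1)) d →
      Relation.ReflTransGen (fun x z => T0.F m x z ∧ z ≠ σ (y 0)) (σ d) (σ c)) := by
  have s1 := hp.s1
  have c1 : ∀ c, Tf.F (y 1) (y 0) c → T0.F m (σ (y 0)) (σ c) := by
    intro c h
    have ho := offa hp (i := 0) (by omega) h
    rw [hc.2]
    exact ⟨(sig0 hp).symm, (off_0 hp ho).symm, (off_m hp ho).symm, y 1, y 0, c,
      sig hp le_rfl s1, rfl, rfl, h⟩
  have c2 : ∀ c, Tf.F (y s) (y (s + 1)) c → T0.F m (σ (y (s + 1))) (σ c) := by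
    intro c h
    have ho := offb hp (i := s) le_rfl h
    rw [hc.2]
    exact ⟨(sig1 hp).symm, (off_1 hp ho).symm, (off_m hp ho).symm, y s, y (s + 1), c,
      sig hp s1 le_rfl, rfl, rfl, h⟩
  have m1 : ∀ {x z : X0}, Relation.ReflTransGen (Q T0 σ m s y) x z →
      Relation.ReflTransGen (fun x z => T0.F m x z ∧ z ≠ σ (y (s + 1))) x z := fun h =>
    rmono (fun x z h => ⟨h.1, h.2.2⟩) h
  have m0 : ∀ {x z : X0}, Relation.ReflTransGen (Q T0 σ m s y) x z →
      Relation.ReflTransGen (fun x z => T0.F m x z ∧ z ≠ σ (y 0)) x z := fun h =>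
    rmono (fun x z h => ⟨h.1, h.2.1⟩) h
  refine ⟨c1, c2, ?_, ?_, ?_, ?_, ?_, ?_⟩
  · intro c h
    have ho := offb hp (i := 0) (by omega) h
    rw [hc.2]
    exact ⟨(off_m hp ho).symm, off_0 hp ho, (sig0 hp).symm, y 1, c, y 0,
      sig hp le_rfl s1, rfl, rfl, fsymm h⟩
  · intro c h
    have ho := offa hp (i := s) le_rfl h
    rw [hc.2]
    exact ⟨(off_m hp ho).symm, off_1 hp ho, (sig1 hp).symm, y s, c, y (s + 1),
      sig hp s1 le_rfl, rfl, rfl, fsymm h⟩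
  · intro i c hi h
    have ho := offa hp hi h
    refine ⟨?_, off_0 hp ho, off_m hp ho⟩
    obtain ⟨e, he⟩ := exa hp (i := 0) (by omega)
    exact Relation.ReflTransGen.head ⟨c1 e he, off_1 hp (offa hp (i := 0) (by omega) he)⟩
      (m1 (chainA hc hp (Nat.zero_le i) hi he h))
  · intro i c hi h
    have ho := offb hp hi h
    refine ⟨?_, off_1 hp ho, off_m hp ho⟩
    obtain ⟨e, he⟩ := exb hp (i := s) le_rfl
    exact Relation.ReflTransGen.head ⟨c2 e he, off_0 hp (offb hp (i := s) le_rfl he)⟩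
      (m0 (chainB hc hp hi le_rfl h he))
  · intro i j c d hij hj h1 h2
    exact m1 (chainA hc hp hij hj h1 h2)
  · intro i j c d hij hj h1 h2
    exact m0 (chainB hc hp hij hj h1 h2)


end Pool.Agent.H891WLC
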