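import Pool.Agent.H891WLC.Defs
import Pool.Agent.H891WLC.D_path
import Pool.Agent.H891WLC.MONO
import Pool.Agent.H891WLC.GEO

set_option autoImplicit false

namespace Pool.Agent.H891WLC

namespace W_THRESH

theorem crs_anti (a b c : ℝ × ℝ) : crs a b c = - crs a c b := by
  unfold crs; ring

theorem inner_face {V : Type} (T : Tri V) (o₁ o₂ o₃ : V) (p : V → ℝ × ℝ) (hd : Drawn T o₁ o₂ o₃ p)
    (m a b : V) (h1 : m ≠ o₁) (h2 : m ≠ o₂) (h3 : m ≠ o₃) (h : T.F m a b) :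
    0 < crs (p m) (p a) (p b) := by
  refine hd.2.2 m a b h ?_
  rintro (⟨h', -, -⟩ | ⟨h', -, -⟩ | ⟨h', -, -⟩)
  · exact h1 h'
  · exact h2 h'
  · exact h3 h'

end W_THRESH

open W_THRESH in
theorem THRESH {Xf X0 : Type} [Finite Xf] [Finite X0] (Tf : Tri Xf) (T0 : Tri X0) (σ : Xf → X0) (hc : Clus Tf T0 σ)
    (o₁ o₂ o₃ : X0) (P : X0 → ℝ × ℝ) (hd : Drawn T0 o₁ o₂ o₃ P)
    (m : X0) (h1 : m ≠ o₁) (h2 : m ≠ o₂) (h3 : m ≠ o₃) (s : ℕ) (y : ℕ → Xf) (hp : PathAt Tf T0 σ m s y) :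
    ∃ j, 1 ≤ j ∧ j ≤ s ∧
      (∀ i c, i < j → Tf.F (y (i + 1)) (y i) c → 0 < crs (P m) (P (σ (y 0))) (P (σ c))) ∧
      (∀ i c, i < j → Tf.F (y i) (y (i + 1)) c → crs (P m) (P (σ (y 0))) (P (σ c)) < 0) ∧
      (∀ i c, j ≤ i → i ≤ s → Tf.F (y (i + 1)) (y i) c → crs (P m) (P (σ (y (s + 1)))) (P (σ c)) < 0) ∧
      (∀ i c, j ≤ i → i ≤ s → Tf.F (y i) (y (i + 1)) c → 0 < crs (P m) (P (σ (y (s + 1)))) (P (σ c))) := by
  classical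
  obtain ⟨M1, M2, M3, M4, M5, M6, M7, M8⟩ := MONO Tf T0 σ hc m s y hp
  have hs1 := hp.s1
  obtain ⟨C1, hC1⟩ : ∃ C1 : ℕ → Prop, ∀ i, C1 i ↔
      ((∀ c, Tf.F (y (i + 1)) (y i) c → 0 < crs (P m) (P (σ (y 0))) (P (σ c))) ∧
      (∀ c, Tf.F (y i) (y (i + 1)) c → crs (P m) (P (σ (y 0))) (P (σ c)) < 0)) := ⟨_, fun _ => Iff.rfl⟩
  have hC10 : C1 0 := by
    rw [hC1]
    refine ⟨fun c hF => inner_face T0 o₁ o₂ o₃ P hd m _ _ h1 h2 h3 (M1 c hF), fun c hF => ?_⟩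
    rw [crs_anti]
    have := inner_face T0 o₁ o₂ o₃ P hd m _ _ h1 h2 h3 (M3 c hF)
    linarith
  have hex : ∃ j, 1 ≤ j ∧ (j = s ∨ ¬ C1 j) := ⟨s, hs1, Or.inl rfl⟩
  obtain ⟨j, hj1, hjs, hjC, hmin⟩ : ∃ j, 1 ≤ j ∧ j ≤ s ∧ (j = s ∨ ¬ C1 j) ∧
      ∀ i, i < j → C1 i := by
    refine ⟨Nat.find hex, (Nat.find_spec hex).1, Nat.find_min' hex ⟨hs1, Or.inl rfl⟩,
      (Nat.find_spec hex).2, fun i hi => ?_⟩
    rcases Nat.eq_zero_or_pos i with h0 | h0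
    · rw [h0]; exact hC10
    · by_contra hno
      exact Nat.find_min hex hi ⟨h0, Or.inr hno⟩
  refine ⟨j, hj1, hjs, fun i c hi hF => ((hC1 i).1 (hmin i hi)).1 c hF,
    fun i c hi hF => ((hC1 i).1 (hmin i hi)).2 c hF, ?_⟩
  by_cases hCj : C1 j
  · have hjs' : j = s := by
      rcases hjC with h | h
      · exact h
      · exact absurd hCj h
    refine ⟨fun i c h4 h5 hF => ?_, fun i c h4 h5 hF => ?_⟩
    · have hi : i = s := by omega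
      subst hi
      rw [crs_anti]
      have := inner_face T0 o₁ o₂ o₃ P hd m _ _ h1 h2 h3 (M4 c hF)
      linarith
    · have hi : i = s := by omega
      subst hi
      exact inner_face T0 o₁ o₂ o₃ P hd m _ _ h1 h2 h3 (M2 c hF)
  · -- adjacency
    have he : T0.G.Adj m (σ (y 0)) := by
      obtain ⟨c, hc0⟩ := hp.adj 0 (Nat.zero_le _)
      obtain ⟨d, hd0⟩ := Tf.opp _ _ _ hc0
      exact ⟨σ d, M1 d hd0⟩
    have he' : T0.G.Adj m (σ (y (s + 1))) := by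
      obtain ⟨c, hc0⟩ := hp.adj s le_rfl
      exact ⟨σ c, M2 c hc0⟩
    have hee : σ (y 0) ≠ σ (y (s + 1)) := by
      intro h
      have h4 := hp.e0 (y (s + 1)) h.symm
      have h5 := hp.inj (s + 1) 0 le_rfl (Nat.zero_le _) h4
      omega
    obtain ⟨G1, G2⟩ := GEO T0 o₁ o₂ o₃ P hd m h1 h2 h3 (σ (y 0)) (σ (y (s + 1))) he he' hee
    have hor : (∃ c, Tf.F (y (j + 1)) (y j) c ∧ crs (P m) (P (σ (y 0))) (P (σ c)) ≤ 0) ∨
        ∃ c, Tf.F (y j) (y (j + 1)) c ∧ 0 ≤ crs (P m) (P (σ (y 0))) (P (σ c)) := by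
      by_contra hno
      push Not at hno
      exact hCj ((hC1 j).2 ⟨fun c hF => hno.1 c hF, fun c hF => hno.2 c hF⟩)
    rcases hor with ⟨a, haF, hac⟩ | ⟨b, hbF, hbc⟩
    · obtain ⟨ha1, ha2, -⟩ := M5 j a hjs haF
      refine ⟨fun i c h4 h5 hF => ?_, fun i c h4 h5 hF => ?_⟩
      · exact (G1 (σ a) (σ c) ha2 ha1 (M7 j i a c h4 h5 haF hF) hac).1
      · obtain ⟨hb1, hb2, -⟩ := M6 i c h5 hF
        exact (G1 (σ a) (σ a) ha2 ha1 Relation.ReflTransGen.refl hac).2 (σ c) hb2 hb1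
    · obtain ⟨hb1, hb2, -⟩ := M6 j b hjs hbF
      refine ⟨fun i c h4 h5 hF => ?_, fun i c h4 h5 hF => ?_⟩
      · obtain ⟨ha1, ha2, -⟩ := M5 i c h5 hF
        exact (G2 (σ b) (σ b) hb2 hb1 hb2 hb1 Relation.ReflTransGen.refl hbc).2 (σ c) ha2 ha1
      · obtain ⟨hc1, hc2, -⟩ := M6 i c h5 hF
        exact (G2 (σ b) (σ c) hb2 hb1 hc2 hc1 (M8 j i b c h4 h5 hbF hF) hbc).1


end Pool.Agent.H891WLC
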