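import Pool.Agent.H891WLC.Defs
import Pool.Agent.H891WLC.D_piece
import Pool.Agent.H891WLC.D_path
import Pool.Agent.H891WLC.D_nrm
import Pool.Agent.H891WLC.D_lines
import Pool.Agent.H891WLC.tri_conn3
import Pool.Agent.H891WLC.CLUS_ADJ
import Pool.Agent.H891WLC.CLUS_CONN
import Pool.Agent.H891WLC.CLUS_FACT
import Pool.Agent.H891WLC.SUBDIV
import Pool.Agent.H891WLC.HARM
import Pool.Agent.H891WLC.PLANE
import Pool.Agent.H891WLC.THRESH
import Pool.Agent.H891WLC.DRAW3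
import Pool.Agent.H891WLC.FINAL

set_option autoImplicit false

namespace Pool.Agent.H891WLC

namespace W_FINISH

def mu0 (s k : ℕ) : ℕ := if k = 0 then 0 else if k ≤ s then 1 else 2

def mu3 (s j k : ℕ) : ℕ :=
  if k = 0 then 0 else if k < j then 1 else if k = j then 2 else if k ≤ s then 3 else 4

theorem mu0_mono (s : ℕ) : Monotone (mu0 s) := by
  intro a b h; unfold mu0; split_ifs <;> omega

theorem mu3_mono (s j : ℕ) : Monotone (mu3 s j) := by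
  intro a b h; unfold mu3; split_ifs <;> omega

theorem mu0_z (s k : ℕ) (h : mu0 s k = 0) : k = 0 := by
  by_contra hk
  unfold mu0 at h
  rw [if_neg hk] at h
  by_cases h2 : k ≤ s
  · rw [if_pos h2] at h; omega
  · rw [if_neg h2] at h; omega

theorem mu0_zero (s : ℕ) : mu0 s 0 = 0 := by simp [mu0]

theorem mu0_mid (s k : ℕ) (h1 : 1 ≤ k) (h2 : k ≤ s) : mu0 s k = 1 := by
  unfold mu0; rw [if_neg (by omega), if_pos h2]

theorem mu0_top (s k : ℕ) (h2 : s < k) : mu0 s k = 2 := by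
  unfold mu0; rw [if_neg (by omega), if_neg (by omega)]

theorem mu0_one (s k : ℕ) (h : mu0 s k = 1) : 1 ≤ k ∧ k ≤ s := by
  rcases Nat.lt_or_ge 0 k with hk | hk
  · rcases Nat.lt_or_ge s k with h3 | h3
    · rw [mu0_top s k h3] at h; omega
    · exact ⟨hk, h3⟩
  · have : k = 0 := by omega
    rw [this, mu0_zero] at h; omega

theorem mu0_two (s k : ℕ) (h : mu0 s k = 2) : s < k := by
  rcases Nat.lt_or_ge 0 k with hk | hk
  · rcases Nat.lt_or_ge s k with h3 | h3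
    · exact h3
    · rw [mu0_mid s k hk h3] at h; omega
  · have : k = 0 := by omega
    rw [this, mu0_zero] at h; omega

structure D {V W : Type} (T : Tri V) (π : V → W) (Sp : Finset W) (s : W → ℕ) (q : V → ℕ) : Prop where
  hs : ∀ w ∈ Sp, 1 ≤ s w
  hq0 : ∀ v, π v ∈ Sp → q v ≤ s (π v) + 1
  hq1 : ∀ w ∈ Sp, ∀ k, k ≤ s w + 1 → Conn T.G {v | π v = w ∧ q v = k}
  hq2 : ∀ u v, π u ∈ Sp → π u = π v → T.G.Adj u v → q u ≤ q v + 1
  hcon : ∀ w, Conn T.G (π ⁻¹' {w})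

theorem D.ex {V W : Type} {T : Tri V} {π : V → W} {Sp : Finset W} {s : W → ℕ} {q : V → ℕ}
    (d : D T π Sp s q) {w : W} (hw : w ∈ Sp) {k : ℕ} (hk : k ≤ s w + 1) : ∃ v, π v = w ∧ q v = k :=
  (d.hq1 w hw k hk).1

theorem consec {V W : Type} {T : Tri V} {π : V → W} {Sp : Finset W} {s : W → ℕ} {q : V → ℕ}
    (d : D T π Sp s q) {w : W} (hw : w ∈ Sp) {k : ℕ} (hk : k ≤ s w) :
    ∃ u v, π u = w ∧ π v = w ∧ q u = k ∧ q v = k + 1 ∧ T.G.Adj u v := by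
  obtain ⟨a, ha1, ha2⟩ := d.ex hw (show k ≤ s w + 1 by omega)
  obtain ⟨b, hb1, hb2⟩ := d.ex hw (show k + 1 ≤ s w + 1 by omega)
  by_contra hno
  have key : ∀ x, Relation.ReflTransGen (fun x y => T.G.Adj x y ∧ y ∈ π ⁻¹' {w}) a x → q x ≤ k ∧ π x = w := by
    intro x hx
    induction hx with
    | refl => exact ⟨ha2.le, ha1⟩
    | tail hab hbc ih =>
      rename_i b' c'
      obtain ⟨hadj, hmem⟩ := hbc
      have hmem' : π c' = w := hmem
      refine ⟨?_, hmem'⟩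
      by_contra hgt
      have h2 := d.hq2 c' b' (by rw [hmem']; exact hw) (by rw [hmem', ih.2]) hadj.symm
      exact hno ⟨b', c', ih.2, hmem', by omega, by omega, hadj⟩
  have := key b ((d.hcon w).2 a ha1 b hb1)
  omega

structure KK {V W Xf X0 : Type} (π : V → W) (Sp : Finset W) (s : W → ℕ) (q : V → ℕ) (ρf : V → Xf) (ρ0 : V → X0)
    (σ : Xf → X0) (yy : W → ℕ → Xf) : Prop where
  kf : ∀ u v, ρf u = ρf v ↔ π u = π v ∧ (π u ∈ Sp → q u = q v)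
  k0 : ∀ u v, ρ0 u = ρ0 v ↔ π u = π v ∧ (π u ∈ Sp → mu0 (s (π u)) (q u) = mu0 (s (π u)) (q v))
  hσ : ∀ v, σ (ρf v) = ρ0 v
  sf : ∀ x, ∃ v, ρf v = x
  hy : ∀ v, π v ∈ Sp → yy (π v) (q v) = ρf v

theorem path {V W Xf X0 : Type} [Finite V] [Finite Xf] {T : Tri V} {Tf : Tri Xf} {T0 : Tri X0} {π : V → W}
    {Sp : Finset W} {s : W → ℕ} {q : V → ℕ} {ρf : V → Xf} {ρ0 : V → X0}
    {σ : Xf → X0} {yy : W → ℕ → Xf} (d : D T π Sp s q) (k : KK π Sp s q ρf ρ0 σ yy) (hf : Clus T Tf ρf)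
    {w : W} (hw : w ∈ Sp) : PathAt Tf T0 σ (σ (yy w 1)) (s w) (yy w) := by
  have hs := d.hs w hw
  have hy : ∀ v, π v = w → yy w (q v) = ρf v := by
    intro v hv
    have := k.hy v (by rw [hv]; exact hw)
    rw [hv] at this
    exact this
  obtain ⟨v1, hv1, hq1⟩ := d.ex hw (show 1 ≤ s w + 1 by omega)
  have hy1 : yy w 1 = ρf v1 := by rw [← hq1]; exact hy v1 hv1
  have hk0 : ∀ u v, π v = w → ρ0 u = ρ0 v → π u = w ∧ mu0 (s w) (q u) = mu0 (s w) (q v) := by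
    intro u v hv h
    have h1 := (k.k0 u v).1 h
    have hu : π u = w := h1.1.trans hv
    refine ⟨hu, ?_⟩
    have := h1.2 (by rw [hu]; exact hw)
    rw [hu] at this
    exact this
  refine ⟨hs, ?_, ?_, ?_, ?_, ?_, ?_⟩
  · intro i j hi hj hij
    obtain ⟨vi, hvi, hqi⟩ := d.ex hw hi
    obtain ⟨vj, hvj, hqj⟩ := d.ex hw hj
    rw [← hqi, ← hqj, hy vi hvi, hy vj hvj] at hij
    have := ((k.kf vi vj).1 hij).2 (by rw [hvi]; exact hw)
    omega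
  · intro x
    constructor
    · intro hx
      obtain ⟨v, rfl⟩ := k.sf x
      rw [hy1, k.hσ, k.hσ] at hx
      obtain ⟨hv, hm⟩ := hk0 v v1 hv1 hx
      rw [hq1, mu0_mid (s w) 1 le_rfl hs] at hm
      exact ⟨q v, (mu0_one _ _ hm).1, (mu0_one _ _ hm).2, (hy v hv).symm⟩
    · rintro ⟨i, hi1, hi2, rfl⟩
      obtain ⟨vi, hvi, hqi⟩ := d.ex hw (show i ≤ s w + 1 by omega)
      rw [hy1, ← hqi, hy vi hvi, k.hσ, k.hσ, k.k0]
      refine ⟨hvi.trans hv1.symm, fun _ => ?_⟩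
      rw [hvi, hq1, hqi, mu0_mid _ _ hi1 hi2, mu0_mid _ _ le_rfl hs]
  · intro x hx
    obtain ⟨v, rfl⟩ := k.sf x
    obtain ⟨v0, hv0, hq0⟩ := d.ex hw (show 0 ≤ s w + 1 by omega)
    have hy0 : yy w 0 = ρf v0 := by rw [← hq0]; exact hy v0 hv0
    rw [hy0, k.hσ, k.hσ] at hx
    obtain ⟨hv, hm⟩ := hk0 v v0 hv0 hx
    rw [hq0, mu0_zero] at hm
    have : q v = 0 := mu0_z _ _ hm
    rw [← this, hy v hv]
  · intro x hx
    obtain ⟨v, rfl⟩ := k.sf x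
    obtain ⟨v0, hv0, hq0⟩ := d.ex hw (show s w + 1 ≤ s w + 1 by omega)
    have hy0 : yy w (s w + 1) = ρf v0 := by rw [← hq0]; exact hy v0 hv0
    rw [hy0, k.hσ, k.hσ] at hx
    obtain ⟨hv, hm⟩ := hk0 v v0 hv0 hx
    rw [hq0, mu0_top _ _ (Nat.lt_succ_self _)] at hm
    have hle := d.hq0 v (by rw [hv]; exact hw)
    rw [hv] at hle
    have h9 := mu0_two _ _ hm
    have : q v = s w + 1 := by omega
    rw [← this, hy v hv]
  · intro i hi
    obtain ⟨u, v, hu, hv, hqu, hqv, hadj⟩ := consec d hw hi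
    rw [CLUS_ADJ T Tf ρf hf]
    refine ⟨?_, u, v, ?_, ?_, hadj⟩
    · intro h
      rw [← hqv, ← hqu, hy u hu, hy v hv] at h
      have := ((k.kf u v).1 h).2 (by rw [hu]; exact hw)
      omega
    · rw [← hy u hu, hqu]
    · rw [← hy v hv, hqv]
  · intro i j hi hj hij hadj
    rw [CLUS_ADJ T Tf ρf hf] at hadj
    obtain ⟨_, u, v, hu, hv, hadj⟩ := hadj
    obtain ⟨vi, hvi, hqi⟩ := d.ex hw hi
    obtain ⟨vj, hvj, hqj⟩ := d.ex hw hj
    rw [← hqi, hy vi hvi, k.kf] at hu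
    rw [← hqj, hy vj hvj, k.kf] at hv
    have hu1 : π u = w := hu.1.trans hvi
    have hv1 : π v = w := hv.1.trans hvj
    have hu2 := hu.2 (by rw [hu1]; exact hw)
    have hv2 := hv.2 (by rw [hv1]; exact hw)
    have := d.hq2 v u (by rw [hv1]; exact hw) (by rw [hv1, hu1]) hadj.symm
    omega

theorem mu0_cases (s k : ℕ) : (k = 0 ∧ mu0 s k = 0) ∨ (1 ≤ k ∧ k ≤ s ∧ mu0 s k = 1) ∨ (s < k ∧ mu0 s k = 2) := by
  rcases Nat.eq_zero_or_pos k with h | h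
  · left; subst h; exact ⟨rfl, mu0_zero s⟩
  · rcases Nat.lt_or_ge s k with h3 | h3
    · right; right; exact ⟨h3, mu0_top s k h3⟩
    · right; left; exact ⟨h, h3, mu0_mid s k h h3⟩

theorem mu3_cases (s j k : ℕ) (h1 : 1 ≤ j) (_ : j ≤ s) : (k = 0 ∧ mu3 s j k = 0) ∨ (1 ≤ k ∧ k < j ∧ mu3 s j k = 1) ∨
    (k = j ∧ mu3 s j k = 2) ∨ (j < k ∧ k ≤ s ∧ mu3 s j k = 3) ∨ (s < k ∧ mu3 s j k = 4) := by
  rcases Nat.eq_zero_or_pos k with h | h
  · left; subst h; exact ⟨rfl, by simp [mu3]⟩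
  · right
    rcases Nat.lt_or_ge k j with h3 | h3
    · left; exact ⟨h, h3, by unfold mu3; rw [if_neg (by omega), if_pos h3]⟩
    · right
      rcases Nat.eq_or_lt_of_le h3 with h4 | h4
      · left; exact ⟨h4.symm, by unfold mu3; rw [if_neg (by omega), if_neg (by omega), if_pos h4.symm]⟩
      · right
        rcases Nat.lt_or_ge s k with h5 | h5
        · right; exact ⟨h5, by unfold mu3; rw [if_neg (by omega), if_neg (by omega), if_neg (by omega), if_neg (by omega)]⟩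
        · left; exact ⟨h4, h5, by unfold mu3; rw [if_neg (by omega), if_neg (by omega), if_neg (by omega), if_pos h5]⟩

theorem mu3_mu0 (s j k k' : ℕ) (h1 : 1 ≤ j) (h2 : j ≤ s) (h : mu3 s j k = mu3 s j k') : mu0 s k = mu0 s k' := by
  rcases mu3_cases s j k h1 h2 with a | a | a | a | a <;> rcases mu3_cases s j k' h1 h2 with b | b | b | b | b <;>
    rcases mu0_cases s k with x | x | x <;> rcases mu0_cases s k' with y | y | y <;> omega

def CC {Xf X0 : Type} (Tf : Tri Xf) (σ : Xf → X0) (P : X0 → ℝ × ℝ) (m : X0) (s : ℕ) (y : ℕ → Xf) (j : ℕ) : Prop :=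
  1 ≤ j ∧ j ≤ s ∧
      (∀ i c, i < j → Tf.F (y (i + 1)) (y i) c → 0 < crs (P m) (P (σ (y 0))) (P (σ c))) ∧
      (∀ i c, i < j → Tf.F (y i) (y (i + 1)) c → crs (P m) (P (σ (y 0))) (P (σ c)) < 0) ∧
      (∀ i c, j ≤ i → i ≤ s → Tf.F (y (i + 1)) (y i) c → crs (P m) (P (σ (y (s + 1)))) (P (σ c)) < 0) ∧
      (∀ i c, j ≤ i → i ≤ s → Tf.F (y i) (y (i + 1)) c → 0 < crs (P m) (P (σ (y (s + 1)))) (P (σ c)))

theorem thr {V W Xf X0 : Type} [Finite V] [Finite Xf] [Finite X0] {T : Tri V} {Tf : Tri Xf} {T0 : Tri X0} {π : V → W}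
    {Sp : Finset W} {s : W → ℕ} {q : V → ℕ} {ρf : V → Xf} {ρ0 : V → X0}
    {σ : Xf → X0} {yy : W → ℕ → Xf} (d : D T π Sp s q) (k : KK π Sp s q ρf ρ0 σ yy) (hf : Clus T Tf ρf)
    (hσ : Clus Tf T0 σ) (a₁ a₂ a₃ : V) (P : X0 → ℝ × ℝ) (hd : Drawn T0 (ρ0 a₁) (ρ0 a₂) (ρ0 a₃) P)
    (hout : ∀ w ∈ Sp, π a₁ ≠ w ∧ π a₂ ≠ w ∧ π a₃ ≠ w) :
    ∃ jj : W → ℕ, ∀ w ∈ Sp, CC Tf σ P (σ (yy w 1)) (s w) (yy w) (jj w) := by
  have key : ∀ w, ∃ j, w ∈ Sp → CC Tf σ P (σ (yy w 1)) (s w) (yy w) j := by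
    intro w
    by_cases hw : w ∈ Sp
    · have hs := d.hs w hw
      obtain ⟨v1, hv1, hq1⟩ := d.ex hw (show 1 ≤ s w + 1 by omega)
      have hy1 : σ (yy w 1) = ρ0 v1 := by
        have := k.hy v1 (by rw [hv1]; exact hw)
        rw [hv1, hq1] at this
        rw [this, k.hσ]
      have hne : ∀ a, π a ≠ w → σ (yy w 1) ≠ ρ0 a := by
        intro a ha h
        rw [hy1, k.k0] at h
        exact ha (h.1.symm.trans hv1)
      obtain ⟨ho1, ho2, ho3⟩ := hout w hw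
      obtain ⟨j, hj⟩ := THRESH Tf T0 σ hσ (ρ0 a₁) (ρ0 a₂) (ρ0 a₃) P hd (σ (yy w 1)) (hne _ ho1) (hne _ ho2) (hne _ ho3)
        (s w) (yy w) (path d k hf hw)
      exact ⟨j, fun _ => hj⟩
    · exact ⟨0, fun h => absurd h hw⟩
  choose jj hjj using key
  exact ⟨jj, fun w hw => hjj w hw⟩

theorem sumbound {V W X3 : Type} [Fintype V] [Fintype W] [DecidableEq W] [Fintype X3] [DecidableEq X3]
    (π : V → W) (Sp : Finset W) (s jj : W → ℕ) (q : V → ℕ) (B : W → ℕ) (c : V → ℕ) (ρ3 : V → X3)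
    (hs3 : ∀ z, ∃ v, ρ3 v = z)
    (hq0 : ∀ v, π v ∈ Sp → q v ≤ s (π v) + 1)
    (hB : ∀ w ∈ Sp, ∀ k, ∑ v ∈ Finset.univ.filter (fun v => π v = w ∧ q v = k), c v ≤ B w)
    (hjj : ∀ w ∈ Sp, 1 ≤ jj w ∧ jj w ≤ s w)
    (k3 : ∀ u v, ρ3 u = ρ3 v ↔ π u = π v ∧ (π u ∈ Sp → mu3 (s (π u)) (jj (π u)) (q u) = mu3 (s (π u)) (jj (π u)) (q v)))
    (lab : X3 → W × ℕ) (linj : Function.Injective lab)
    (hlab : ∀ v, lab (ρ3 v) = (π v, if π v ∈ Sp then mu3 (s (π v)) (jj (π v)) (q v) else 0))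
    (Sp3 : Finset X3) (B3 : X3 → ℕ) (hSp3 : ∀ v, ρ3 v ∈ Sp3 ↔ π v ∈ Sp ∧ (mu3 (s (π v)) (jj (π v)) (q v) = 1 ∨
      mu3 (s (π v)) (jj (π v)) (q v) = 3))
    (hB3 : ∀ v, B3 (ρ3 v) = B (π v)) :
    (∑ z, if z ∈ Sp3 then 2 * B3 z else ∑ v ∈ Finset.univ.filter (fun v => ρ3 v = z), c v) ≤
      ∑ w, if w ∈ Sp then 7 * B w else ∑ v ∈ Finset.univ.filter (fun v => π v = w), c v := by
  classical
  let g : W × ℕ → ℕ := fun p => if p.1 ∈ Sp then (if p.2 = 1 ∨ p.2 = 3 then 2 * B p.1 else B p.1) else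
    (if p.2 = 0 then ∑ v ∈ Finset.univ.filter (fun v => π v = p.1), c v else 0)
  have h1 : ∀ z, (if z ∈ Sp3 then 2 * B3 z else ∑ v ∈ Finset.univ.filter (fun v => ρ3 v = z), c v) ≤ g (lab z) := by
    intro z
    obtain ⟨v, rfl⟩ := hs3 z
    rw [hlab, hB3]
    by_cases hv : π v ∈ Sp
    · obtain ⟨hj1, hj2⟩ := hjj (π v) hv
      by_cases hm : mu3 (s (π v)) (jj (π v)) (q v) = 1 ∨ mu3 (s (π v)) (jj (π v)) (q v) = 3
      · rw [if_pos ((hSp3 v).2 ⟨hv, hm⟩)]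
        simp only [g, if_pos hv, if_pos hm]
        exact le_rfl
      · rw [if_neg (fun h => hm ((hSp3 v).1 h).2)]
        simp only [g, if_pos hv, if_neg hm]
        refine le_trans ?_ (hB (π v) hv (q v))
        apply Finset.sum_le_sum_of_subset
        intro u hu
        rw [Finset.mem_filter] at hu ⊢
        refine ⟨Finset.mem_univ _, ?_⟩
        have h2 := (k3 u v).1 hu.2
        refine ⟨h2.1, ?_⟩
        have hu' : π u ∈ Sp := by rw [h2.1]; exact hv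
        have h3 := h2.2 hu'
        have h4 := hq0 u hu'
        have h5 := hq0 v hv
        rw [h2.1] at h3 h4
        rcases mu3_cases (s (π v)) (jj (π v)) (q u) hj1 hj2 with a | a | a | a | a <;>
          rcases mu3_cases (s (π v)) (jj (π v)) (q v) hj1 hj2 with b | b | b | b | b <;> omega
    · rw [if_neg (fun h => hv ((hSp3 v).1 h).1)]
      simp only [g, if_neg hv, if_true]
      apply Finset.sum_le_sum_of_subset
      intro u hu
      rw [Finset.mem_filter] at hu ⊢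
      exact ⟨Finset.mem_univ _, ((k3 u v).1 hu.2).1⟩
  calc _ ≤ ∑ z, g (lab z) := Finset.sum_le_sum (fun z _ => h1 z)
    _ = ∑ p ∈ Finset.univ.image lab, g p := by
        rw [Finset.sum_image]
        intro a _ b _ h
        exact linj h
    _ ≤ ∑ p ∈ (Finset.univ : Finset W) ×ˢ Finset.range 5, g p := by
        apply Finset.sum_le_sum_of_subset
        intro p hp
        rw [Finset.mem_image] at hp
        obtain ⟨z, _, rfl⟩ := hp
        obtain ⟨v, rfl⟩ := hs3 z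
        rw [hlab, Finset.mem_product]
        refine ⟨Finset.mem_univ _, ?_⟩
        rw [Finset.mem_range]
        by_cases hv : π v ∈ Sp
        · obtain ⟨hj1, hj2⟩ := hjj (π v) hv
          simp only [if_pos hv]
          rcases mu3_cases (s (π v)) (jj (π v)) (q v) hj1 hj2 with b | b | b | b | b <;> omega
        · simp only [if_neg hv]; omega
    _ = ∑ w, ∑ k ∈ Finset.range 5, g (w, k) := Finset.sum_product _ _ _
    _ ≤ _ := by
        apply Finset.sum_le_sum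
        intro w _
        by_cases hw : w ∈ Sp
        · rw [if_pos hw]
          simp only [g, if_pos hw, Finset.sum_range_succ, Finset.sum_range_zero]
          norm_num
          omega
        · rw [if_neg hw]
          simp only [g, if_neg hw, Finset.sum_range_succ, Finset.sum_range_zero]
          norm_num

theorem core {V₀ V W Xf X3 X0 : Type} [Fintype V₀] [Fintype V] [Fintype W] [DecidableEq V] [DecidableEq W] [Fintype X3]
    [DecidableEq X3] [Finite Xf] [Finite X0] (T₀ : Tri V₀) (T : Tri V)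
    (Tf : Tri Xf) (T3 : Tri X3) (T0 : Tri X0) (κ : V₀ → V) (π : V → W) (hc : Clus T₀ T κ)
    (o₁ o₂ o₃ : V₀) (ho : T₀.F o₁ o₂ o₃) (s1 : ∀ v, π (κ v) = π (κ o₁) → v = o₁)
    (s2 : ∀ v, π (κ v) = π (κ o₂) → v = o₂) (s3 : ∀ v, π (κ v) = π (κ o₃) → v = o₃)
    (c : V → ℕ) (hcap : ∀ v, CapSet T₀ T κ {v} (c v))
    (Sp : Finset W) (s : W → ℕ) (q : V → ℕ) (B : W → ℕ) (d : D T π Sp s q)
    (hB : ∀ w ∈ Sp, ∀ k, ∑ v ∈ Finset.univ.filter (fun v => π v = w ∧ q v = k), c v ≤ B w)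
    (ρf : V → Xf) (ρ3 : V → X3) (ρ0 : V → X0) (α : Xf → X3) (τ : X3 → X0) (yy : W → ℕ → Xf) (wof : X0 → W) (jj : W → ℕ)
    (k : KK π Sp s q ρf ρ0 (τ ∘ α) yy) (hf : Clus T Tf ρf) (h3 : Clus T T3 ρ3)
    (hα' : Clus Tf T3 α) (hτ' : Clus T3 T0 τ) (hσ' : Clus Tf T0 (τ ∘ α))
    (k3 : ∀ u v, ρ3 u = ρ3 v ↔ π u = π v ∧ (π u ∈ Sp → mu3 (s (π u)) (jj (π u)) (q u) = mu3 (s (π u)) (jj (π u)) (q v)))
    (hα : ∀ v, α (ρf v) = ρ3 v) (hτ : ∀ v, τ (ρ3 v) = ρ0 v) (hwof : ∀ v, wof (ρ0 v) = π v)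
    (lab : X3 → W × ℕ) (linj : Function.Injective lab)
    (hlab : ∀ v, lab (ρ3 v) = (π v, if π v ∈ Sp then mu3 (s (π v)) (jj (π v)) (q v) else 0))
    (P : X0 → ℝ × ℝ) (hd : Drawn T0 (ρ0 (κ o₁)) (ρ0 (κ o₂)) (ρ0 (κ o₃)) P) (hPinj : Function.Injective P)
    (hout : ∀ w ∈ Sp, π (κ o₁) ≠ w ∧ π (κ o₂) ≠ w ∧ π (κ o₃) ≠ w)
    (hsurj : ∀ v, ∃ a, κ a = v)
    (hjj : ∀ w ∈ Sp, CC Tf (τ ∘ α) P ((τ ∘ α) (yy w 1)) (s w) (yy w) (jj w)) :
    HasLines T₀ o₁ o₂ o₃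
      (3 + ∑ w, if w ∈ Sp then 7 * B w else ∑ v ∈ Finset.univ.filter (fun v => π v = w), c v) := by
  classical
  have hy : ∀ w ∈ Sp, ∀ v, π v = w → yy w (q v) = ρf v := by
    intro w hw v hv
    have := k.hy v (by rw [hv]; exact hw)
    rw [hv] at this
    exact this
  have hs3 : ∀ z, ∃ v, ρ3 v = z := fun z => (h3.1 z).1
  have hw1 : ∀ w ∈ Sp, ∃ v1, π v1 = w ∧ q v1 = 1 ∧ (τ ∘ α) (yy w 1) = ρ0 v1 := by
    intro w hw
    have hs := d.hs w hw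
    obtain ⟨v1, hv1, hq1⟩ := d.ex hw (show 1 ≤ s w + 1 by omega)
    refine ⟨v1, hv1, hq1, ?_⟩
    rw [← hq1, hy w hw v1 hv1, k.hσ]
  have hwm : ∀ w ∈ Sp, wof ((τ ∘ α) (yy w 1)) = w := by
    intro w hw
    obtain ⟨v1, hv1, hq1, e⟩ := hw1 w hw
    rw [e, hwof, hv1]
  let Md : Set X0 := {m | ∃ w ∈ Sp, m = (τ ∘ α) (yy w 1)}
  have hMd : ∀ v, 1 ≤ q v → π v ∈ Sp → q v ≤ s (π v) → ρ0 v ∈ Md := by
    intro v h1 h2 h4
    obtain ⟨v1, hv1, hq1, e⟩ := hw1 (π v) h2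
    refine ⟨π v, h2, ?_⟩
    rw [e, k.k0]
    refine ⟨hv1.symm, fun _ => ?_⟩
    rw [mu0_mid _ _ h1 h4, hq1, mu0_mid _ _ le_rfl (d.hs _ h2)]
  have hsing : ∀ (o : V₀), (∀ v, π (κ v) = π (κ o) → v = o) → ∀ z, τ z = τ (ρ3 (κ o)) → z = ρ3 (κ o) := by
    intro o hso z hz
    obtain ⟨v, rfl⟩ := hs3 z
    rw [hτ, hτ, k.k0] at hz
    obtain ⟨a, rfl⟩ := hsurj v
    rw [hso a hz.1]
  have hMo' : ∀ (o : V₀), (∀ w ∈ Sp, π (κ o) ≠ w) → ∀ m ∈ Md, m ≠ τ (ρ3 (κ o)) := by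
    rintro o hoo m ⟨w, hw, rfl⟩ h
    obtain ⟨v1, hv1, hq1, e⟩ := hw1 w hw
    rw [e, hτ, k.k0] at h
    exact hoo w hw (h.1.symm.trans hv1)
  have hpath : ∀ m ∈ Md, PathAt Tf T0 (τ ∘ α) m (s (wof m)) (yy (wof m)) := by
    rintro m ⟨w, hw, rfl⟩
    rw [hwm w hw]
    exact path d k hf hw
  have hMw : ∀ m ∈ Md, wof m ∈ Sp ∧ m = (τ ∘ α) (yy (wof m) 1) := by
    rintro m ⟨w, hw, rfl⟩
    rw [hwm w hw]
    exact ⟨hw, rfl⟩
  obtain ⟨Q, n, hQd, hn, hgen, hN1, hN2, hN3, hN4⟩ := DRAW3 Tf T3 T0 α τ hα' hτ' hσ' (ρ3 (κ o₁)) (ρ3 (κ o₂)) (ρ3 (κ o₃))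
    (hsing o₁ s1) (hsing o₂ s2) (hsing o₃ s3) P (by rw [hτ, hτ, hτ]; exact hd) hPinj Md
    (by
      intro z z' hz hnM
      obtain ⟨v, rfl⟩ := hs3 z
      obtain ⟨v', rfl⟩ := hs3 z'
      rw [hτ, hτ, k.k0] at hz
      rw [hτ] at hnM
      rw [k3]
      refine ⟨hz.1, fun hv => ?_⟩
      have h2 := hz.2 hv
      have hv' : π v' ∈ Sp := by rw [← hz.1]; exact hv
      have hq := d.hq0 v hv
      have hq' := d.hq0 v' hv'
      rw [← hz.1] at hq'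
      have hnM' : ¬ (1 ≤ q v ∧ q v ≤ s (π v)) := fun h => hnM (hMd v h.1 hv h.2)
      have : q v = q v' := by
        rcases mu0_cases (s (π v)) (q v) with a | a | a <;> rcases mu0_cases (s (π v)) (q v') with b | b | b <;> omega
      rw [this])
    (fun m hm => ⟨hMo' o₁ (fun w hw => (hout w hw).1) m hm, hMo' o₂ (fun w hw => (hout w hw).2.1) m hm,
      hMo' o₃ (fun w hw => (hout w hw).2.2) m hm⟩)
    (fun m => s (wof m)) (fun m => yy (wof m)) hpath (fun m => jj (wof m))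
    (fun m hm => ⟨(hjj _ (hMw m hm).1).1, (hjj _ (hMw m hm).1).2.1⟩)
    (by
      intro x x' hxx
      obtain ⟨v, rfl⟩ := k.sf x
      obtain ⟨v', rfl⟩ := k.sf x'
      rw [hα, hα, k3] at hxx
      simp only [hα, hτ, hwof]
      by_cases hv : π v ∈ Sp
      · have h2 := hxx.2 hv
        have hv' : π v' ∈ Sp := by rw [← hxx.1]; exact hv
        have hq := d.hq0 v hv
        have hq' := d.hq0 v' hv'
        rw [← hxx.1] at hq'
        obtain ⟨hj1, hj2, _⟩ := hjj (π v) hv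
        by_cases hqq : q v = q v'
        · left
          rw [k.kf]
          exact ⟨hxx.1, fun _ => hqq⟩
        · right
          have hr : ((1 ≤ q v ∧ q v < jj (π v)) ∧ (1 ≤ q v' ∧ q v' < jj (π v))) ∨
              ((jj (π v) < q v ∧ q v ≤ s (π v)) ∧ (jj (π v) < q v' ∧ q v' ≤ s (π v))) := by
            rcases mu3_cases (s (π v)) (jj (π v)) (q v) hj1 hj2 with a | a | a | a | a <;>
              rcases mu3_cases (s (π v)) (jj (π v)) (q v') hj1 hj2 with b | b | b | b | b <;> omega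
          refine ⟨hMd v (by omega) hv (by omega), q v, q v', by omega, by omega, by omega, by omega,
            (hy _ hv v rfl).symm, (hy _ hv v' hxx.1.symm).symm, ?_⟩
          rcases hr with h | h
          · left; exact ⟨h.1.2, h.2.2⟩
          · right; exact ⟨h.1.1, h.2.1⟩
      · left
        rw [k.kf]
        exact ⟨hxx.1, fun h => absurd h hv⟩)
    (by
      intro m hm i i' h1 h2 h1' h2' hcase
      obtain ⟨hw, _⟩ := hMw m hm
      obtain ⟨hj1, hj2, _⟩ := hjj (wof m) hw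
      obtain ⟨vi, hvi, hqi⟩ := d.ex hw (show i ≤ s (wof m) + 1 by omega)
      obtain ⟨vi', hvi', hqi'⟩ := d.ex hw (show i' ≤ s (wof m) + 1 by omega)
      rw [← hqi, ← hqi', hy _ hw vi hvi, hy _ hw vi' hvi', hα, hα, k3]
      refine ⟨hvi.trans hvi'.symm, fun _ => ?_⟩
      rw [hvi, hqi, hqi']
      rcases mu3_cases (s (wof m)) (jj (wof m)) i hj1 hj2 with a | a | a | a | a <;>
        rcases mu3_cases (s (wof m)) (jj (wof m)) i' hj1 hj2 with b | b | b | b | b <;> omega)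
    (by
      intro m hm i c' hi hF
      obtain ⟨hw, e⟩ := hMw m hm
      have := (hjj (wof m) hw).2.2.1 i c' hi hF
      rw [← e] at this
      exact this)
    (by
      intro m hm i c' hi hF
      obtain ⟨hw, e⟩ := hMw m hm
      have := (hjj (wof m) hw).2.2.2.1 i c' hi hF
      rw [← e] at this
      exact this)
    (by
      intro m hm i c' hi hi2 hF
      obtain ⟨hw, e⟩ := hMw m hm
      have := (hjj (wof m) hw).2.2.2.2.1 i c' hi hi2 hF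
      rw [← e] at this
      exact this)
    (by
      intro m hm i c' hi hi2 hF
      obtain ⟨hw, e⟩ := hMw m hm
      have := (hjj (wof m) hw).2.2.2.2.2 i c' hi hi2 hF
      rw [← e] at this
      exact this)
  let Sp3 : Finset X3 := Finset.univ.filter (fun z => ∃ v, ρ3 v = z ∧ π v ∈ Sp ∧
    (mu3 (s (π v)) (jj (π v)) (q v) = 1 ∨ mu3 (s (π v)) (jj (π v)) (q v) = 3))
  have hSp3 : ∀ v, ρ3 v ∈ Sp3 ↔ π v ∈ Sp ∧ (mu3 (s (π v)) (jj (π v)) (q v) = 1 ∨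
      mu3 (s (π v)) (jj (π v)) (q v) = 3) := by
    intro v
    simp only [Sp3, Finset.mem_filter, Finset.mem_univ, true_and]
    constructor
    · rintro ⟨u, hu, hu1, hu2⟩
      rw [k3] at hu
      have h2 := hu.2 hu1
      rw [h2, hu.1] at hu2
      rw [hu.1] at hu1
      exact ⟨hu1, hu2⟩
    · intro h
      exact ⟨v, rfl, h⟩
  have hfin := FINAL T₀ T T3 κ ρ3 hc h3 o₁ o₂ o₃ ho
    (fun v h => s1 v (((k3 _ _).1 h).1)) (fun v h => s2 v (((k3 _ _).1 h).1)) (fun v h => s3 v (((k3 _ _).1 h).1))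
    c hcap Q hQd n hn hgen Sp3 q (fun z => B (wof (τ z)))
    (by
      intro v hv
      rw [hSp3] at hv
      have e : {u | ρ3 u = ρ3 v ∧ q u = q v} = {u | π u = π v ∧ q u = q v} := by
        ext u
        constructor
        · rintro ⟨h1, h2⟩
          exact ⟨((k3 _ _).1 h1).1, h2⟩
        · rintro ⟨h1, h2⟩
          refine ⟨(k3 _ _).2 ⟨h1, fun _ => ?_⟩, h2⟩
          rw [h2]
      rw [e]
      exact d.hq1 (π v) hv.1 (q v) (d.hq0 v hv.1))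
    (by
      intro u v hu huv hadj
      rw [hSp3] at hu
      exact d.hq2 u v hu.1 ((k3 _ _).1 huv).1 hadj)
    (by
      intro v hv
      rw [hSp3] at hv
      obtain ⟨hvS, hvm⟩ := hv
      obtain ⟨hj1, hj2, _⟩ := hjj (π v) hvS
      obtain ⟨v1, hv1, hq1, e1⟩ := hw1 (π v) hvS
      have hm : ρ0 v1 ∈ Md := ⟨π v, hvS, e1.symm⟩
      have hwm1 : wof (ρ0 v1) = π v := by rw [hwof, hv1]
      have hyv : yy (π v) (q v) = ρf v := k.hy v hvS
      -- lifting an edge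
      have lift : ∀ c', Tf.G.Adj c' (ρf v) → ∃ u u', ρ3 u = ρ3 v ∧ q u = q v ∧ T.G.Adj u u' ∧ ρ3 u' = α c' := by
        intro c' hc'
        rw [CLUS_ADJ T Tf ρf hf] at hc'
        obtain ⟨_, u', u, hu', hu, hadj⟩ := hc'
        have hu2 := (k.kf u v).1 hu
        have huS : π u ∈ Sp := by rw [hu2.1]; exact hvS
        refine ⟨u, u', ?_, hu2.2 huS, hadj.symm, ?_⟩
        · rw [← hα, ← hα, hu]
        · rw [← hα, hu']
      have hF1 : ∀ a b c', Tf.F a b c' → Tf.G.Adj c' a := fun a b c' h => ⟨b, Tf.rot _ _ _ (Tf.rot _ _ _ h)⟩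
      have hF2 : ∀ a b c', Tf.F a b c' → Tf.G.Adj c' b := fun a b c' h => (show Tf.G.Adj b c' from ⟨a, Tf.rot _ _ _ h⟩).symm
      rcases mu3_cases (s (π v)) (jj (π v)) (q v) hj1 hj2 with a | a | a | a | a
      · omega
      · -- 1 ≤ q v < j
        obtain ⟨a1, a2, _⟩ := a
        have hadj := (path (T0 := T0) d k hf hvS).adj (q v - 1) (by omega)
        have hi : q v - 1 + 1 = q v := by omega
        rw [hi] at hadj
        obtain ⟨c1, hc1⟩ := hadj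
        obtain ⟨c2, hc2⟩ := (show Tf.G.Adj (yy (π v) (q v - 1)) (yy (π v) (q v)) from ⟨c1, hc1⟩).symm
        have hA1 := hF2 _ _ _ hc1
        have hA2 := hF1 _ _ _ hc2
        rw [hyv] at hA1 hA2
        obtain ⟨u, u', hu, hqu, hadj', hu'⟩ := lift c1 hA1
        obtain ⟨x, x', hx, hqx, hadj'', hx'⟩ := lift c2 hA2
        have r1 := hN2 (ρ0 v1) hm (q v) c1 a1 (by simp only [hwm1]; exact a2) (by simp only [hwm1]; exact hc1)
        have r2 := hN1 (ρ0 v1) hm (q v) c2 a1 (by simp only [hwm1]; exact a2) (by simp only [hwm1]; exact hc2)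
        simp only [hwm1, hyv, hα] at r1 r2
        exact ⟨⟨u, u', hu, hqu, hadj', by rw [hu']; exact r1⟩, ⟨x, x', hx, hqx, hadj'', by rw [hx']; exact r2⟩⟩
      · omega
      · obtain ⟨a1, a2, _⟩ := a
        have hadj := (path (T0 := T0) d k hf hvS).adj (q v) (by omega)
        obtain ⟨c1, hc1⟩ := hadj
        obtain ⟨c2, hc2⟩ := (show Tf.G.Adj (yy (π v) (q v)) (yy (π v) (q v + 1)) from ⟨c1, hc1⟩).symm
        have hA1 := hF1 _ _ _ hc1
        have hA2 := hF2 _ _ _ hc2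
        rw [hyv] at hA1 hA2
        obtain ⟨u, u', hu, hqu, hadj', hu'⟩ := lift c1 hA1
        obtain ⟨x, x', hx, hqx, hadj'', hx'⟩ := lift c2 hA2
        have r1 := hN4 (ρ0 v1) hm (q v) c1 (by simp only [hwm1]; exact a1) (by simp only [hwm1]; exact a2) (by simp only [hwm1]; exact hc1)
        have r2 := hN3 (ρ0 v1) hm (q v) c2 (by simp only [hwm1]; exact a1) (by simp only [hwm1]; exact a2) (by simp only [hwm1]; exact hc2)
        simp only [hwm1, hyv, hα] at r1 r2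
        exact ⟨⟨x, x', hx, hqx, hadj'', by rw [hx']; exact r2⟩, ⟨u, u', hu, hqu, hadj', by rw [hu']; exact r1⟩⟩
      · omega)
    (by
      intro v hv
      rw [hSp3] at hv
      simp only [hτ, hwof]
      refine le_trans ?_ (hB (π v) hv.1 (q v))
      apply Finset.sum_le_sum_of_subset
      intro u hu
      rw [Finset.mem_filter] at hu ⊢
      exact ⟨Finset.mem_univ _, ((k3 u v).1 hu.2.1).1, hu.2.2⟩)
  have hsum := sumbound π Sp s jj q B c ρ3 hs3 d.hq0 hB (fun w hw => ⟨(hjj w hw).1, (hjj w hw).2.1⟩) k3 lab linj hlab Sp3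
    (fun z => B (wof (τ z))) hSp3 (by intro v; simp only [hτ, hwof])
  obtain ⟨p, hp, kk, a, b, c', hk, hab, hcov⟩ := hfin
  refine ⟨p, hp, kk, a, b, c', ?_, hab, hcov⟩
  refine le_trans hk ?_
  refine Nat.add_le_add_left ?_ 3
  convert hsum using 1

end W_FINISH

open W_FINISH in
theorem FINISH {V₀ V W : Type} [Fintype V₀] [Fintype V] [Fintype W] [DecidableEq V] [DecidableEq W] (T₀ : Tri V₀) (T : Tri V)
    (T' : Tri W) (κ : V₀ → V) (π : V → W) (hc : Clus T₀ T κ) (hp : Clus T T' π)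
    (o₁ o₂ o₃ : V₀) (ho : T₀.F o₁ o₂ o₃) (s1 : ∀ v, π (κ v) = π (κ o₁) → v = o₁)
    (s2 : ∀ v, π (κ v) = π (κ o₂) → v = o₂) (s3 : ∀ v, π (κ v) = π (κ o₃) → v = o₃)
    (c : V → ℕ) (hcap : ∀ v, CapSet T₀ T κ {v} (c v))
    (Sp : Finset W) (s : W → ℕ) (q : V → ℕ) (B : W → ℕ)
    (hs : ∀ w ∈ Sp, 1 ≤ s w) (hq0 : ∀ v, π v ∈ Sp → q v ≤ s (π v) + 1)
    (hq1 : ∀ w ∈ Sp, ∀ k, k ≤ s w + 1 → Conn T.G {v | π v = w ∧ q v = k})
    (hq2 : ∀ u v, π u ∈ Sp → π u = π v → T.G.Adj u v → q u ≤ q v + 1)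
    (hq3 : ∀ w ∈ Sp, ∃ w₁ w₂, w₁ ≠ w₂ ∧ w₁ ≠ w ∧ w₂ ≠ w ∧ AdjS T.G {v | π v = w ∧ q v = 0} (π ⁻¹' {w₁}) ∧
      AdjS T.G {v | π v = w ∧ q v = 0} (π ⁻¹' {w₂}))
    (hq4 : ∀ w ∈ Sp, ∃ w₁ w₂, w₁ ≠ w₂ ∧ w₁ ≠ w ∧ w₂ ≠ w ∧ AdjS T.G {v | π v = w ∧ q v = s w + 1} (π ⁻¹' {w₁}) ∧
      AdjS T.G {v | π v = w ∧ q v = s w + 1} (π ⁻¹' {w₂}))
    (hq5 : ∀ w ∈ Sp, ∀ k, 1 ≤ k → k ≤ s w → ∃ w₁, w₁ ≠ w ∧ AdjS T.G {v | π v = w ∧ q v = k} (π ⁻¹' {w₁}))
    (hB : ∀ w ∈ Sp, ∀ k, ∑ v ∈ Finset.univ.filter (fun v => π v = w ∧ q v = k), c v ≤ B w) :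
    HasLines T₀ o₁ o₂ o₃
      (3 + ∑ w, if w ∈ Sp then 7 * B w else ∑ v ∈ Finset.univ.filter (fun v => π v = w), c v) := by
  classical
  have hsurj : ∀ v, ∃ a, κ a = v := fun v => (hc.1 v).1
  have d : D T π Sp s q := ⟨hs, hq0, hq1, hq2, hp.1⟩
  have hout1 : ∀ (o : V₀), (∀ v, π (κ v) = π (κ o) → v = o) → ∀ w ∈ Sp, π (κ o) ≠ w := by
    intro o hso w hw h
    obtain ⟨v0, hv0, hq0'⟩ := d.ex hw (show 0 ≤ s w + 1 by omega)
    obtain ⟨v1, hv1, hq1'⟩ := d.ex hw (show 1 ≤ s w + 1 by omega)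
    obtain ⟨a0, rfl⟩ := hsurj v0
    obtain ⟨a1, rfl⟩ := hsurj v1
    rw [hso a0 (hv0.trans h.symm)] at hq0'
    rw [hso a1 (hv1.trans h.symm)] at hq1'
    omega
  have hout : ∀ w ∈ Sp, π (κ o₁) ≠ w ∧ π (κ o₂) ≠ w ∧ π (κ o₃) ≠ w :=
    fun w hw => ⟨hout1 o₁ s1 w hw, hout1 o₂ s2 w hw, hout1 o₃ s3 w hw⟩
  obtain ⟨Tf, hTf, hTf'⟩ := SUBDIV T T' π hp Sp s q (fun _ k => k) (fun _ => monotone_id) hs hq0 hq1 hq2 hq3 hq4 hq5
  obtain ⟨T0, hT0, hT0'⟩ := SUBDIV T T' π hp Sp s q (fun w k => mu0 (s w) k) (fun w => mu0_mono (s w)) hs hq0 hq1 hq2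
    hq3 hq4 hq5
  have pcE : ∀ (μ : W → ℕ → ℕ) (u v : V), Set.rangeFactorization (pc π Sp q μ) u = Set.rangeFactorization (pc π Sp q μ) v ↔
      π u = π v ∧ (π u ∈ Sp → μ (π u) (q u) = μ (π u) (q v)) := by
    intro μ u v
    rw [Subtype.ext_iff]
    simp only [Set.rangeFactorization_coe, pc, Prod.mk.injEq]
    constructor
    · rintro ⟨h1, h2⟩
      refine ⟨h1, fun h => ?_⟩
      rw [if_pos h, if_pos (by rw [← h1]; exact h), ← h1] at h2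
      exact h2
    · rintro ⟨h1, h2⟩
      refine ⟨h1, ?_⟩
      by_cases h : π u ∈ Sp
      · rw [if_pos h, if_pos (by rw [← h1]; exact h), ← h1]
        exact h2 h
      · rw [if_neg h, if_neg (by rw [← h1]; exact h)]
  let ρf := Set.rangeFactorization (pc π Sp q (fun _ k => k))
  let ρ0 := Set.rangeFactorization (pc π Sp q (fun w k => mu0 (s w) k))
  have surf : ∀ (μ : W → ℕ → ℕ) (x : Set.range (pc π Sp q μ)), Set.rangeFactorization (pc π Sp q μ) x.2.choose = x := by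
    intro μ x
    exact Subtype.ext x.2.choose_spec
  let yy : W → ℕ → Set.range (pc π Sp q (fun _ k => k)) := fun w i =>
    if h : ∃ v, π v = w ∧ q v = i then ρf h.choose else ρf (κ o₁)
  have hyy : ∀ v, π v ∈ Sp → yy (π v) (q v) = ρf v := by
    intro v _
    have h : ∃ v', π v' = π v ∧ q v' = q v := ⟨v, rfl, rfl⟩
    simp only [yy, dif_pos h]
    exact (pcE _ _ _).2 ⟨h.choose_spec.1, fun _ => h.choose_spec.2⟩
  -- the coarse map
  let σ : Set.range (pc π Sp q (fun _ k => k)) → Set.range (pc π Sp q (fun w k => mu0 (s w) k)) := fun x => ρ0 x.2.choose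
  have hσρ : ∀ v, σ (ρf v) = ρ0 v := by
    intro v
    have h := (pcE _ _ _).1 (surf (fun _ k => k) (ρf v))
    refine (pcE _ _ _).2 ⟨h.1, fun h' => ?_⟩
    exact congrArg (mu0 (s _)) (h.2 h')
  have kk : KK π Sp s q ρf ρ0 σ yy := ⟨pcE _, pcE _, hσρ, fun x => ⟨_, surf _ x⟩, hyy⟩
  have hσc : Clus Tf T0 σ := by
    refine CLUS_FACT T Tf T0 ρf σ ?_ hTf
    have : σ ∘ ρf = ρ0 := funext hσρ
    rw [this]
    exact hT0
  -- outer face
  have hFT : T.F (κ o₁) (κ o₂) (κ o₃) := by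
    rw [hc.2]
    refine ⟨?_, ?_, ?_, o₁, o₂, o₃, rfl, rfl, rfl, ho⟩
    · intro h; exact T₀.ne _ _ _ ho (s2 o₁ (by rw [h]))
    · intro h; exact T₀.ne _ _ _ (T₀.rot _ _ _ ho) (s3 o₂ (by rw [h]))
    · intro h; exact T₀.ne _ _ _ (T₀.rot _ _ _ (T₀.rot _ _ _ ho)) (s1 o₃ (by rw [h]))
  have hF0 : T0.F (ρ0 (κ o₁)) (ρ0 (κ o₂)) (ρ0 (κ o₃)) := by
    rw [hT0.2]
    refine ⟨?_, ?_, ?_, κ o₁, κ o₂, κ o₃, rfl, rfl, rfl, hFT⟩
    · intro h; exact T₀.ne _ _ _ ho (s2 o₁ ((pcE _ _ _).1 h).1)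
    · intro h; exact T₀.ne _ _ _ (T₀.rot _ _ _ ho) (s3 o₂ ((pcE _ _ _).1 h).1)
    · intro h; exact T₀.ne _ _ _ (T₀.rot _ _ _ (T₀.rot _ _ _ ho)) (s1 o₃ ((pcE _ _ _).1 h).1.symm)
  obtain ⟨P, hd⟩ := HARM T0 _ _ _ hF0
  have hPinj := (PLANE T0 _ _ _ P hd).1
  obtain ⟨jj, hjj⟩ := thr d kk hTf hσc (κ o₁) (κ o₂) (κ o₃) P hd hout
  obtain ⟨T3, hT3, hT3'⟩ := SUBDIV T T' π hp Sp s q (fun w k => mu3 (s w) (jj w) k) (fun w => mu3_mono (s w) (jj w)) hs hq0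
    hq1 hq2 hq3 hq4 hq5
  let ρ3 := Set.rangeFactorization (pc π Sp q (fun w k => mu3 (s w) (jj w) k))
  let α : Set.range (pc π Sp q (fun _ k => k)) → Set.range (pc π Sp q (fun w k => mu3 (s w) (jj w) k)) :=
    fun x => ρ3 x.2.choose
  let τ : Set.range (pc π Sp q (fun w k => mu3 (s w) (jj w) k)) → Set.range (pc π Sp q (fun w k => mu0 (s w) k)) :=
    fun x => ρ0 x.2.choose
  have hαρ : ∀ v, α (ρf v) = ρ3 v := by
    intro v
    have h := (pcE _ _ _).1 (surf (fun _ k => k) (ρf v))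
    refine (pcE _ _ _).2 ⟨h.1, fun h' => ?_⟩
    exact congrArg (mu3 (s _) (jj _)) (h.2 h')
  have hτρ : ∀ v, τ (ρ3 v) = ρ0 v := by
    intro v
    have h := (pcE _ _ _).1 (surf (fun w k => mu3 (s w) (jj w) k) (ρ3 v))
    refine (pcE _ _ _).2 ⟨h.1, fun h' => ?_⟩
    have := h.2 h'
    obtain ⟨hj1, hj2, _⟩ := hjj _ h'
    exact mu3_mu0 _ _ _ _ hj1 hj2 this
  have hτα : τ ∘ α = σ := by
    funext x
    obtain ⟨v, rfl⟩ := kk.sf x
    simp only [Function.comp]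
    rw [hαρ, hτρ, hσρ]
  have hαc : Clus Tf T3 α := by
    refine CLUS_FACT T Tf T3 ρf α ?_ hTf
    have : α ∘ ρf = ρ3 := funext hαρ
    rw [this]
    exact hT3
  have hτc : Clus T3 T0 τ := by
    refine CLUS_FACT T T3 T0 ρ3 τ ?_ hT3
    have : τ ∘ ρ3 = ρ0 := funext hτρ
    rw [this]
    exact hT0
  refine core T₀ T Tf T3 T0 κ π hc o₁ o₂ o₃ ho s1 s2 s3 c hcap Sp s q B d hB ρf ρ3 ρ0 α τ yy (fun x => x.1.1) jj
    (by rw [hτα]; exact kk) hTf hT3 hαc hτc (by rw [hτα]; exact hσc) (pcE _) hαρ hτρ (fun v => rfl)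
    (fun x => x.1) Subtype.val_injective (fun v => rfl) P hd hPinj hout hsurj (by rw [hτα]; exact hjj)


end Pool.Agent.H891WLC
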