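import Pool.Agent.H891WLC.Defs

set_option autoImplicit false

namespace Pool.Agent.H891WLC

namespace W_FUNC3

theorem col {α : Type} [DecidableEq α] (f : α → α) (S : Finset α) :
    (∀ x ∈ S, f x ≠ x) → ∃ c : α → Fin 3, ∀ x ∈ S, f x ∈ S → c x ≠ c (f x) := by
  classical
  induction S using Finset.strongInduction with
  | H S ih =>
    intro hf
    rcases S.eq_empty_or_nonempty with h | h
    · subst h
      exact ⟨fun _ => 0, fun x hx => absurd hx (Finset.notMem_empty x)⟩
    · obtain ⟨x, hx, hx1⟩ := Finset.exists_card_fiber_le_of_card_le_mul (s := S) (t := S) (f := f)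
        (n := 1) h (by omega)
      obtain ⟨c, hc⟩ := ih (S.erase x) (Finset.erase_ssubset hx)
        (fun y hy => hf y (Finset.mem_of_mem_erase hy))
      have hcard : (insert (c (f x)) (({y ∈ S | f y = x} : Finset α).image c)).card < 3 := by
        have h1 := Finset.card_insert_le (c (f x)) (({y ∈ S | f y = x} : Finset α).image c)
        have h2 : (({y ∈ S | f y = x} : Finset α).image c).card ≤ 1 :=
          Finset.card_image_le.trans hx1
        omega
      obtain ⟨a, ha⟩ : ∃ a, a ∉ insert (c (f x)) (({y ∈ S | f y = x} : Finset α).image c) := by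
        by_contra hcon
        push Not at hcon
        have : (Finset.univ : Finset (Fin 3)) ⊆
            insert (c (f x)) (({y ∈ S | f y = x} : Finset α).image c) := fun a _ => hcon a
        have h3 := Finset.card_le_card this
        rw [Finset.card_univ, Fintype.card_fin] at h3
        omega
      rw [Finset.mem_insert, not_or] at ha
      refine ⟨Function.update c x a, fun z hz hfz => ?_⟩
      by_cases hzx : z = x
      · subst hzx
        rw [Function.update_self, Function.update_of_ne (hf z hz)]
        exact ha.1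
      · rw [Function.update_of_ne hzx]
        by_cases hfx : f z = x
        · rw [hfx, Function.update_self]
          intro hcz
          exact ha.2 (Finset.mem_image.2 ⟨z, Finset.mem_filter.2 ⟨hz, hfx⟩, hcz⟩)
        · rw [Function.update_of_ne hfx]
          exact hc z (Finset.mem_erase.2 ⟨hzx, hz⟩) (Finset.mem_erase.2 ⟨hfx, hfz⟩)

end W_FUNC3

open W_FUNC3 in
theorem FUNC3 {α : Type} [DecidableEq α] (S : Finset α) (f : α → α) (hf : ∀ x ∈ S, f x ≠ x) :
    ∃ I : Finset α, I ⊆ S ∧ S.card ≤ 3 * I.card ∧ ∀ x ∈ I, f x ∉ I := by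
  classical
  obtain ⟨c, hc⟩ := col f S hf
  have h1 := Finset.card_eq_sum_card_fiberwise (f := c) (s := S) (t := Finset.univ)
    (fun x _ => Finset.mem_coe.2 (Finset.mem_univ _))
  rw [Fin.sum_univ_three] at h1
  have h2 : ∃ a : Fin 3, S.card ≤ 3 * ({x ∈ S | c x = a} : Finset α).card := by
    by_contra hcon
    push Not at hcon
    have h3 := hcon 0
    have h4 := hcon 1
    have h5 := hcon 2
    omega
  obtain ⟨a, ha⟩ := h2
  refine ⟨{x ∈ S | c x = a}, Finset.filter_subset _ _, ha, fun x hx hfx => ?_⟩
  rw [Finset.mem_filter] at hx hfx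
  exact hc x hx.1 hfx.1 (hx.2.trans hfx.2.symm)


end Pool.Agent.H891WLC
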