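import Pool.Agent.H891WLC.Defs
import Pool.Agent.H891WLC.D_lines
import Pool.Agent.H891WLC.D_state

set_option autoImplicit false

namespace Pool.Agent.H891WLC

namespace W_INIT

end W_INIT

open W_INIT in
theorem INIT (ε : ℝ) : St ε 1 1 := by
  refine ⟨0, fun V₀ _ _ T₀ o₁ o₂ o₃ _ _ => Or.inr ⟨V₀, inferInstance, inferInstance, T₀, id,
    fun _ => 1, ?_, ?_, ?_, ?_, ?_, ?_, ?_, ?_⟩⟩
  · refine ⟨fun v => ⟨⟨v, rfl⟩, ?_⟩, fun a b c => ⟨fun h => ?_, ?_⟩⟩
    · intro u hu w hw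
      have h1 : u = v := hu
      have h2 : w = v := hw
      rw [h1, h2]
    · refine ⟨T₀.ne _ _ _ h, T₀.ne _ _ _ (T₀.rot _ _ _ h), ?_, a, b, c, rfl, rfl, rfl, h⟩
      exact (T₀.ne _ _ _ (T₀.rot _ _ _ (T₀.rot _ _ _ h))).symm
    · rintro ⟨-, -, -, a₀, b₀, c₀, rfl, rfl, rfl, h⟩
      exact h
  · intro v h; exact h
  · intro v h; exact h
  · intro v h; exact h
  · intro v S U hS
    obtain ⟨-, -, -, -, -, -, -, hS, hU⟩ := hS
    refine ⟨fun _ => 0, ?_, ?_⟩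
    · intro w hw
      have hw' : w = v := hw
      subst hw'
      obtain ⟨a, ha, b, hb, hab⟩ := hS
      obtain ⟨a', ha', b', hb', hab'⟩ := hU
      have h1 : a = w := ha
      have h2 : a' = w := ha'
      subst h1
      subst h2
      exact ⟨⟨b, hab, Or.inl hb⟩, ⟨b', hab', Or.inl hb'⟩⟩
    · have h1 : (id ⁻¹' {v} : Set V₀) = {v} := rfl
      rw [h1, Set.image_singleton, Set.ncard_singleton]
  · intro v; exact le_rfl
  · omega
  · simp


end Pool.Agent.H891WLC
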