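import Pool.Agent.H891WLC.Defs
import Pool.Agent.H891WLC.tri_conn3
import Pool.Agent.H891WLC.CLUS_ADJ
import Pool.Agent.H891WLC.CLUS_CONN
import Pool.Agent.H891WLC.COMPOSE
import Pool.Agent.H891WLC.CAPSUM
import Pool.Agent.H891WLC.THICK

set_option autoImplicit false

namespace Pool.Agent.H891WLC

namespace W_POCK

theorem exit_path {V : Type} {r : V → V → Prop} (P : Set V) {u v : V}
    (h : Relation.ReflTransGen r u v) : u ∈ P → v ∉ P →
    ∃ a b, a ∈ P ∧ b ∉ P ∧ r a b ∧ Relation.ReflTransGen (fun x y => r x y ∧ y ∈ P) u a := by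
  induction h using Relation.ReflTransGen.head_induction_on with
  | refl => intro h1 h2; exact absurd h1 h2
  | @head a b hab _ ih =>
    intro h1 h2
    by_cases hb : b ∈ P
    · obtain ⟨x, y, hx, hy, hxy, hp⟩ := ih hb h2
      exact ⟨x, y, hx, hy, hxy, Relation.ReflTransGen.head ⟨hab, hb⟩ hp⟩
    · exact ⟨a, b, h1, hb, hab, Relation.ReflTransGen.refl⟩

theorem path_rev {V : Type} {G : SimpleGraph V} {A : Set V} {u v : V} (hu : u ∈ A)
    (h : Relation.ReflTransGen (fun x y => G.Adj x y ∧ y ∈ A) u v) :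
    v ∈ A ∧ Relation.ReflTransGen (fun x y => G.Adj x y ∧ y ∈ A) v u := by
  induction h with
  | refl => exact ⟨hu, Relation.ReflTransGen.refl⟩
  | tail _ hbc ih =>
    exact ⟨hbc.2, Relation.ReflTransGen.head ⟨hbc.1.symm, ih.1⟩ ih.2⟩

theorem path_mono {V : Type} {G : SimpleGraph V} {A B : Set V} (hAB : A ⊆ B) {u v : V}
    (h : Relation.ReflTransGen (fun x y => G.Adj x y ∧ y ∈ A) u v) :
    Relation.ReflTransGen (fun x y => G.Adj x y ∧ y ∈ B) u v := by
  induction h with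
  | refl => exact Relation.ReflTransGen.refl
  | tail _ hbc ih => exact ih.tail ⟨hbc.1, hAB hbc.2⟩

theorem rtg_mono {V : Type} {r r' : V → V → Prop} (hr : ∀ a b, r a b → r' a b) {u v : V}
    (h : Relation.ReflTransGen r u v) : Relation.ReflTransGen r' u v := by
  induction h with
  | refl => exact Relation.ReflTransGen.refl
  | tail _ hbc ih => exact ih.tail (hr _ _ hbc)

theorem conn_of_reach {V : Type} {G : SimpleGraph V} {A F : Set V} (hA : Conn G A) (hAF : A ⊆ F)
    (h : ∀ u ∈ F, ∃ a ∈ A, Relation.ReflTransGen (fun x y => G.Adj x y ∧ y ∈ F) u a) :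
    Conn G F := by
  refine ⟨hA.1.mono hAF, fun u hu v hv => ?_⟩
  obtain ⟨a, ha, pa⟩ := h u hu
  obtain ⟨b, hb, pb⟩ := h v hv
  exact (pa.trans (path_mono hAF (hA.2 a ha b hb))).trans (path_rev hv pb).2

theorem pig {α : Type} {a b p q r : α} (hp : p = a ∨ p = b) (hq : q = a ∨ q = b)
    (hr : r = a ∨ r = b) (h : p ≠ q ∧ q ≠ r ∧ p ≠ r) : False := by
  obtain ⟨h1, h2, h3⟩ := h
  rcases hp with hp | hp <;> rcases hq with hq | hq <;> rcases hr with hr | hr
  · exact h1 (hp.trans hq.symm)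
  · exact h1 (hp.trans hq.symm)
  · exact h3 (hp.trans hr.symm)
  · exact h2 (hq.trans hr.symm)
  · exact h2 (hq.trans hr.symm)
  · exact h3 (hp.trans hr.symm)
  · exact h1 (hp.trans hq.symm)
  · exact h1 (hp.trans hq.symm)

/-- the hypotheses on the pockets -/
structure Pk {V W : Type} [Fintype V] [Fintype W] [DecidableEq V] [DecidableEq W] (T : Tri V)
    (T' : Tri W) (π : V → W) (Src : Finset W) (P : W → Finset V) (z : W → V) (y : W → W) :
    Prop where
  hp : Clus T T' π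
  h1 : ∀ w ∈ Src, ∀ v ∈ P w, π v = w
  h2 : ∀ w ∈ Src, π (z w) = w ∧ z w ∉ P w
  h3 : ∀ w ∈ Src, y w ≠ w ∧ y w ∉ Src
  h4 : ∀ w ∈ Src, Conn T.G (P w : Set V)
  h5 : ∀ w ∈ Src, ∀ u ∈ P w, ∀ v, T.G.Adj u v → v ∈ P w ∨ v = z w ∨ π v = y w

/-- the new contraction -/
def pi' {V W : Type} [DecidableEq V] [DecidableEq W] (π : V → W) (Src : Finset W)
    (P : W → Finset V) (y : W → W) (v : V) : W :=
  if π v ∈ Src ∧ v ∈ P (π v) then y (π v) else π v

section pk

variable {V W : Type} [Fintype V] [Fintype W] [DecidableEq V] [DecidableEq W] {T : Tri V}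
    {T' : Tri W} {π : V → W} {Src : Finset W} {P : W → Finset V} {z : W → V} {y : W → W}

theorem pi'_mem (H : Pk T T' π Src P z y) {w : W} {v : V} (hw : w ∈ Src) (hv : v ∈ P w) :
    pi' π Src P y v = y w := by
  have h := H.h1 w hw v hv
  unfold pi'
  rw [h, if_pos ⟨hw, hv⟩]

theorem pi'_not {v : V} (h : ∀ w ∈ Src, v ∉ P w) : pi' π Src P y v = π v :=
  if_neg (fun h' => h _ h'.1 h'.2)

theorem pi'_z (H : Pk T T' π Src P z y) {w : W} (hw : w ∈ Src) : pi' π Src P y (z w) = w := by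
  have h := H.h2 w hw
  unfold pi'
  rw [h.1, if_neg (fun h' => h.2 h'.2)]

theorem pi'_host {v : V} (h : π v ∉ Src) : pi' π Src P y v = π v :=
  if_neg (fun h' => h h'.1)

theorem mem_src (H : Pk T T' π Src P z y) {w : W} (hw : w ∈ Src) (v : V) :
    pi' π Src P y v = w ↔ π v = w ∧ v ∉ P w := by
  constructor
  · intro h
    by_cases hc : π v ∈ Src ∧ v ∈ P (π v)
    · exfalso
      have h1 : pi' π Src P y v = y (π v) := if_pos hc
      rw [h1] at h
      exact (H.h3 _ hc.1).2 (h ▸ hw)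
    · have h1 : pi' π Src P y v = π v := if_neg hc
      rw [h1] at h
      refine ⟨h, fun hv => hc ?_⟩
      rw [h]
      exact ⟨hw, hv⟩
  · rintro ⟨h1, h2⟩
    have h3 : pi' π Src P y v = π v := if_neg (by rw [h1]; exact fun h => h2 h.2)
    rw [h3, h1]

theorem mem_nsrc (H : Pk T T' π Src P z y) {w : W} (hw : w ∉ Src) (v : V) :
    pi' π Src P y v = w ↔ π v = w ∨ ∃ w1 ∈ Src, y w1 = w ∧ v ∈ P w1 := by
  constructor
  · intro h
    by_cases hc : π v ∈ Src ∧ v ∈ P (π v)
    · have h1 : pi' π Src P y v = y (π v) := if_pos hc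
      rw [h1] at h
      exact Or.inr ⟨π v, hc.1, h, hc.2⟩
    · have h1 : pi' π Src P y v = π v := if_neg hc
      rw [h1] at h
      exact Or.inl h
  · rintro (h | ⟨w1, hw1, hy, hv⟩)
    · rw [pi'_host (by rw [h]; exact hw), h]
    · rw [pi'_mem H hw1 hv, hy]

theorem adj_z (H : Pk T T' π Src P z y) {w : W} (hw : w ∈ Src) :
    ∃ a ∈ P w, T.G.Adj a (z w) := by
  obtain ⟨p, hp⟩ := (H.h4 w hw).1
  have hpath := (H.hp.1 w).2 p (H.h1 w hw p hp) (z w) (H.h2 w hw).1
  obtain ⟨a, b, ha, hb, hab, -⟩ := exit_path (P w : Set V) hpath hp (H.h2 w hw).2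
  have ha' : a ∈ P w := ha
  have hbw : π b = w := hab.2
  rcases H.h5 w hw a ha' b hab.1 with h | h | h
  · exact absurd h hb
  · exact ⟨a, ha', h ▸ hab.1⟩
  · exact absurd (h.symm.trans hbw) (H.h3 w hw).1

theorem exit_host (H : Pk T T' π Src P z y) {w : W} (hw : w ∈ Src) {x q : V} (hx : π x ≠ y w)
    (hq : q ∈ P w) (hqx : q ≠ x) :
    ∃ a b, a ∈ P w ∧ π b = y w ∧ T.G.Adj a b ∧
      Relation.ReflTransGen (fun s t => T.G.Adj s t ∧ t ∈ P w ∧ t ≠ x) q a := by
  have hc := tri_conn3 T x (z w)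
  obtain ⟨b0, hb0⟩ := (H.hp.1 (y w)).1
  have hb0' : π b0 = y w := hb0
  have hq1 : q ∈ ({x, z w}ᶜ : Set V) := by
    rintro (h | h)
    · exact hqx h
    · rw [Set.mem_singleton_iff] at h
      exact (H.h2 w hw).2 (h ▸ hq)
  have hb1 : b0 ∈ ({x, z w}ᶜ : Set V) := by
    rintro (h | h)
    · rw [h] at hb0'
      exact hx hb0'
    · rw [Set.mem_singleton_iff] at h
      rw [h, (H.h2 w hw).1] at hb0'
      exact (H.h3 w hw).1 hb0'.symm
  have hb2 : b0 ∉ (P w : Set V) := by
    intro h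
    exact (H.h3 w hw).1 (hb0'.symm.trans (H.h1 w hw b0 h))
  obtain ⟨a, b, ha, hb, hab, hpath⟩ := exit_path (P w : Set V) (hc.2 q hq1 b0 hb1) hq hb2
  have ha' : a ∈ P w := ha
  refine ⟨a, b, ha', ?_, hab.1, ?_⟩
  · rcases H.h5 w hw a ha' b hab.1 with h | h | h
    · exact absurd h hb
    · exact absurd (Or.inr h) hab.2
    · exact h
  · refine rtg_mono ?_ hpath
    intro s t hst
    exact ⟨hst.1.1, hst.2, fun h => hst.1.2 (Or.inl h)⟩

theorem conn_fib_src (H : Pk T T' π Src P z y) {w : W} (hw : w ∈ Src) :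
    Conn T.G (pi' π Src P y ⁻¹' {w}) := by
  have hstep : ∀ a b, Relation.ReflTransGen (fun x y => T.G.Adj x y ∧ y ∈ π ⁻¹' {w}) a b →
      π a = w → π b = w ∧ Relation.ReflTransGen
        (fun s t => T.G.Adj s t ∧ t ∈ pi' π Src P y ⁻¹' {w})
        (if a ∈ P w then z w else a) (if b ∈ P w then z w else b) := by
    intro a b hab ha
    induction hab with
    | refl => exact ⟨ha, Relation.ReflTransGen.refl⟩
    | @tail b c _ hbc ih =>
      obtain ⟨hb, ihp⟩ := ih
      have hc : π c = w := hbc.2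
      refine ⟨hc, ihp.trans ?_⟩
      by_cases hbP : b ∈ P w <;> by_cases hcP : c ∈ P w
      · rw [if_pos hbP, if_pos hcP]
      · rw [if_pos hbP, if_neg hcP]
        rcases H.h5 w hw b hbP c hbc.1 with h | h | h
        · exact absurd h hcP
        · rw [h]
        · exact absurd (h.symm.trans hc) (H.h3 w hw).1
      · rw [if_neg hbP, if_pos hcP]
        rcases H.h5 w hw c hcP b hbc.1.symm with h | h | h
        · exact absurd h hbP
        · rw [h]
        · exact absurd (h.symm.trans hb) (H.h3 w hw).1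
      · rw [if_neg hbP, if_neg hcP]
        exact Relation.ReflTransGen.single ⟨hbc.1, (mem_src H hw c).2 ⟨hc, hcP⟩⟩
  refine ⟨⟨z w, pi'_z H hw⟩, fun u hu v hv => ?_⟩
  have hu' := (mem_src H hw u).1 hu
  have hv' := (mem_src H hw v).1 hv
  have h := (hstep u v ((H.hp.1 w).2 u hu'.1 v hv'.1) hu'.1).2
  rwa [if_neg hu'.2, if_neg hv'.2] at h

theorem conn_fib_nsrc (H : Pk T T' π Src P z y) {w : W} (hw : w ∉ Src) :
    Conn T.G (pi' π Src P y ⁻¹' {w}) := by
  have hAF : π ⁻¹' {w} ⊆ pi' π Src P y ⁻¹' {w} := fun v hv => (mem_nsrc H hw v).2 (Or.inl hv)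
  refine conn_of_reach (H.hp.1 w) hAF (fun u hu => ?_)
  rcases (mem_nsrc H hw u).1 hu with h | ⟨w1, hw1, hy, hv⟩
  · exact ⟨u, h, Relation.ReflTransGen.refl⟩
  · obtain ⟨a, b, ha, hb, hab, hpath⟩ := exit_host H hw1 (x := z w1) (q := u)
      (by rw [(H.h2 w1 hw1).1]; exact (H.h3 w1 hw1).1.symm) hv
      (fun h => (H.h2 w1 hw1).2 (h ▸ hv))
    have hb' : b ∈ π ⁻¹' {w} := hb.trans hy
    refine ⟨b, hb', Relation.ReflTransGen.tail ?_ ⟨hab, hAF hb'⟩⟩
    refine rtg_mono ?_ hpath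
    intro s t hst
    exact ⟨hst.1, (mem_nsrc H hw t).2 (Or.inr ⟨w1, hw1, hy, hst.2.1⟩)⟩

theorem conn_fib (H : Pk T T' π Src P z y) (w : W) : Conn T.G (pi' π Src P y ⁻¹' {w}) := by
  by_cases hw : w ∈ Src
  · exact conn_fib_src H hw
  · exact conn_fib_nsrc H hw

theorem two_col (H : Pk T T' π Src P z y) {w : W} (hw : w ∈ Src) {v u : V} (hv : v ∈ P w)
    (hu : u = v ∨ T.G.Adj v u) :
    (π u = w ∨ π u = y w) ∧ (pi' π Src P y u = w ∨ pi' π Src P y u = y w) := by
  have h : u ∈ P w ∨ u = z w ∨ π u = y w := by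
    rcases hu with h | h
    · rw [h]; exact Or.inl hv
    · exact H.h5 w hw v hv u h
  rcases h with h | h | h
  · exact ⟨Or.inl (H.h1 w hw u h), Or.inr (pi'_mem H hw h)⟩
  · rw [h]
    exact ⟨Or.inl (H.h2 w hw).1, Or.inl (pi'_z H hw)⟩
  · refine ⟨Or.inr h, Or.inr ?_⟩
    rw [pi'_host (by rw [h]; exact (H.h3 w hw).2), h]

theorem tricol (H : Pk T T' π Src P z y) {a b c : V} (hf : T.F a b c)
    (h : (π a ≠ π b ∧ π b ≠ π c ∧ π a ≠ π c) ∨
      (pi' π Src P y a ≠ pi' π Src P y b ∧ pi' π Src P y b ≠ pi' π Src P y c ∧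
        pi' π Src P y a ≠ pi' π Src P y c)) :
    pi' π Src P y a = π a ∧ pi' π Src P y b = π b ∧ pi' π Src P y c = π c := by
  have hab : T.G.Adj a b := ⟨c, hf⟩
  have hbc : T.G.Adj b c := ⟨a, T.rot _ _ _ hf⟩
  have hca : T.G.Adj c a := ⟨b, T.rot _ _ _ (T.rot _ _ _ hf)⟩
  have key : ∀ w ∈ Src, ∀ v ∈ P w, (a = v ∨ T.G.Adj v a) → (b = v ∨ T.G.Adj v b) →
      (c = v ∨ T.G.Adj v c) → False := by
    intro w hw v hv ha hb hc
    have h1 := two_col H hw hv ha
    have h2 := two_col H hw hv hb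
    have h3 := two_col H hw hv hc
    rcases h with h | h
    · exact pig h1.1 h2.1 h3.1 h
    · exact pig h1.2 h2.2 h3.2 h
  refine ⟨pi'_not fun w hw hv => ?_, pi'_not fun w hw hv => ?_, pi'_not fun w hw hv => ?_⟩
  · exact key w hw a hv (Or.inl rfl) (Or.inr hab) (Or.inr hca.symm)
  · exact key w hw b hv (Or.inr hab.symm) (Or.inl rfl) (Or.inr hbc)
  · exact key w hw c hv (Or.inr hca) (Or.inr hbc.symm) (Or.inl rfl)

theorem clus' (H : Pk T T' π Src P z y) : Clus T T' (pi' π Src P y) := by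
  refine ⟨conn_fib H, fun a b c => ?_⟩
  rw [H.hp.2 a b c]
  constructor
  · rintro ⟨h1, h2, h3, a0, b0, c0, rfl, rfl, rfl, hf⟩
    obtain ⟨e1, e2, e3⟩ := tricol H hf (Or.inl ⟨h1, h2, h3⟩)
    exact ⟨h1, h2, h3, a0, b0, c0, e1, e2, e3, hf⟩
  · rintro ⟨h1, h2, h3, a0, b0, c0, rfl, rfl, rfl, hf⟩
    obtain ⟨e1, e2, e3⟩ := tricol H hf (Or.inr ⟨h1, h2, h3⟩)
    exact ⟨h1, h2, h3, a0, b0, c0, e1.symm, e2.symm, e3.symm, hf⟩

theorem singl (H : Pk T T' π Src P z y) (o : V) (ho : ∀ v, π v = π o → v = o) (v : V)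
    (hv : pi' π Src P y v = pi' π Src P y o) : v = o := by
  have hoS : π o ∉ Src := by
    intro hs
    obtain ⟨p, hp⟩ := (H.h4 _ hs).1
    have hp' : p ∈ P (π o) := hp
    have h1 := ho p (H.h1 _ hs p hp')
    have h2 := ho (z (π o)) (H.h2 _ hs).1
    exact (H.h2 _ hs).2 (by rw [h2, ← h1]; rw [h1]; rw [h1] at hp'; exact hp')
  rw [pi'_host hoS] at hv
  rcases (mem_nsrc H hoS v).1 hv with h | ⟨w1, hw1, hy, hvP⟩
  · exact ho v h
  · exfalso
    have hc := tri_conn3 T (z w1) o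
    obtain ⟨w3, hw3⟩ := (tri_conn3 T' w1 (y w1)).1
    obtain ⟨q, hq⟩ := (H.hp.1 w3).1
    have hq' : π q = w3 := hq
    have hw31 : w3 ≠ w1 := fun h => hw3 (Or.inl h)
    have hw32 : w3 ≠ y w1 := fun h => hw3 (Or.inr h)
    have hv1 : v ∈ ({z w1, o}ᶜ : Set V) := by
      rintro (h | h)
      · rw [h] at hvP
        exact (H.h2 w1 hw1).2 hvP
      · rw [Set.mem_singleton_iff] at h
        have h1 := H.h1 w1 hw1 v hvP
        rw [h] at h1
        exact hoS (h1 ▸ hw1)
    have hq1 : q ∈ ({z w1, o}ᶜ : Set V) := by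
      rintro (h | h)
      · rw [h, (H.h2 w1 hw1).1] at hq'
        exact hw31 hq'.symm
      · rw [Set.mem_singleton_iff] at h
        rw [h, ← hy] at hq'
        exact hw32 hq'.symm
    have hq2 : q ∉ (P w1 : Set V) := by
      intro h
      exact hw31 (hq'.symm.trans (H.h1 w1 hw1 q h))
    obtain ⟨a, b, ha, hb, hab, -⟩ := exit_path (P w1 : Set V) (hc.2 v hv1 q hq1) hvP hq2
    rcases H.h5 w1 hw1 a ha b hab.1 with h | h | h
    · exact hb h
    · exact hab.2 (Or.inl h)
    · exact hab.2 (Or.inr (ho b (h.trans hy)))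

theorem block_idx (H : Pk T T' π Src P z y) {w : W} (hw : w ∉ Src) {v : V}
    (hv : v ∈ pi' π Src P y ⁻¹' {w}) :
    π v = w ∨ (π v ∈ Src ∧ y (π v) = w ∧ v ∈ P (π v)) := by
  rcases (mem_nsrc H hw v).1 hv with h | ⟨w1, hw1, hy, hvP⟩
  · exact Or.inl h
  · have h1 := H.h1 w1 hw1 v hvP
    rw [h1]
    exact Or.inr ⟨hw1, hy, hvP⟩

theorem block_w (H : Pk T T' π Src P z y) {w : W} (hw : w ∉ Src) :
    {v | v ∈ pi' π Src P y ⁻¹' {w} ∧ π v = w} = π ⁻¹' {w} := by
  ext v
  exact ⟨fun h => h.2, fun h => ⟨(mem_nsrc H hw v).2 (Or.inl h), h⟩⟩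

theorem block_i (H : Pk T T' π Src P z y) {w : W} (hw : w ∉ Src) {i : W} (hi : i ∈ Src)
    (hy : y i = w) : {v | v ∈ pi' π Src P y ⁻¹' {w} ∧ π v = i} = (P i : Set V) := by
  ext v
  constructor
  · rintro ⟨h1, h2⟩
    rcases block_idx H hw h1 with h | ⟨_, _, h⟩
    · exact absurd hi (by rw [← h2, h]; exact hw)
    · rw [h2] at h
      exact h
  · intro h
    exact ⟨(mem_nsrc H hw v).2 (Or.inr ⟨i, hi, hy, h⟩), H.h1 i hi v h⟩

theorem sup_pair {s : W → ℕ} {A B h : Finset W} (hA : A ⊆ h) (hB : B ⊆ h) (hAB : Disjoint A B)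
    {i j : W} (hmax : ∀ a ∈ h, s a ≤ s i) (hmaxj : ∀ a ∈ h, a ≠ i → s a ≤ s j) :
    A.sup s + B.sup s ≤ s i + s j := by
  by_cases hiA : i ∈ A
  · have h1 : A.sup s ≤ s i := Finset.sup_le fun a ha => hmax a (hA ha)
    have h2 : B.sup s ≤ s j := Finset.sup_le fun a ha => hmaxj a (hB ha) (by
      rintro rfl
      exact Finset.disjoint_left.1 hAB hiA ha)
    omega
  · have h1 : A.sup s ≤ s j := Finset.sup_le fun a ha => hmaxj a (hA ha) (by
      rintro rfl
      exact hiA ha)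
    have h2 : B.sup s ≤ s i := Finset.sup_le fun a ha => hmax a (hB ha)
    omega

theorem host_adj (H : Pk T T' π Src P z y) {w : W} {i : W} (hi : i ∈ Src) (hy : y i = w) :
    ∃ a b, a ∈ P i ∧ π b = w ∧ T.G.Adj a b := by
  obtain ⟨q, hq⟩ := (H.h4 i hi).1
  obtain ⟨a, b, ha, hb, hab, -⟩ := exit_host H hi (x := z i) (q := q)
      (by rw [(H.h2 i hi).1]; exact (H.h3 i hi).1.symm) hq
      (fun h => (H.h2 i hi).2 (h ▸ hq))
  exact ⟨a, b, ha, hb.trans hy, hab⟩

variable {V₀ : Type} [Fintype V₀] {T₀ : Tri V₀} {κ : V₀ → V} {c : V → ℕ}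

theorem cap_big (H : Pk T T' π Src P z y) (hc : Clus T₀ T κ)
    (hcap : ∀ v, CapSet T₀ T κ {v} (c v)) {w : W} (hw : w ∉ Src) (i j : W)
    (hmax : ∀ a ∈ Src.filter (fun a => y a = w), ∑ v ∈ P a, c v ≤ ∑ v ∈ P i, c v)
    (hmaxj : ∀ a ∈ Src.filter (fun a => y a = w), a ≠ i → ∑ v ∈ P a, c v ≤ ∑ v ∈ P j, c v) :
    CapSet T₀ T κ (pi' π Src P y ⁻¹' {w})
      (∑ v ∈ Finset.univ.filter (fun v => π v = w), c v + ∑ v ∈ P i, c v + ∑ v ∈ P j, c v) := by
  classical
  intro S U hs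
  have hs0 := hs
  obtain ⟨hcov, hAS, hAU, hSU, -, -, -, hadjS, hadjU⟩ := hs
  obtain ⟨L, hL⟩ : ∃ L : W → ℕ, L = fun a => if a = w then 1 else if z a ∈ U then 2 else 0 :=
    ⟨_, rfl⟩
  have hLw : L w = 1 := by rw [hL]; exact if_pos rfl
  have hL2 : ∀ a, a ≠ w → z a ∈ U → L a = 2 := by
    intro a ha hz
    rw [hL]
    beta_reduce
    rw [if_neg ha, if_pos hz]
  have hL0 : ∀ a, a ≠ w → z a ∉ U → L a = 0 := by
    intro a ha hz
    rw [hL]
    beta_reduce
    rw [if_neg ha, if_neg hz]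
  have hne : ∀ a ∈ Src, a ≠ w := fun a ha h => hw (h ▸ ha)
  have hzA : ∀ a ∈ Src, z a ∉ pi' π Src P y ⁻¹' {w} := by
    intro a ha h
    have h1 : pi' π Src P y (z a) = w := h
    rw [pi'_z H ha] at h1
    exact hne a ha h1
  have hzSU : ∀ a ∈ Src, (z a ∈ S ∧ L a = 0) ∨ (z a ∈ U ∧ L a = 2) := by
    intro a ha
    rcases hcov (z a) with h | h | h
    · exact absurd h (hzA a ha)
    · exact Or.inl ⟨h, hL0 a (hne a ha) (fun h' => Set.disjoint_left.1 hSU h h')⟩
    · exact Or.inr ⟨h, hL2 a (hne a ha) h⟩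
  have hPA : ∀ a ∈ Src, y a = w → ∀ v ∈ P a, v ∈ pi' π Src P y ⁻¹' {w} := fun a ha hy v hv =>
    (mem_nsrc H hw v).2 (Or.inr ⟨a, ha, hy, hv⟩)
  have hKA : ∀ v, π v = w → v ∈ pi' π Src P y ⁻¹' {w} := fun v hv =>
    (mem_nsrc H hw v).2 (Or.inl hv)
  obtain ⟨cc, hcc⟩ : ∃ cc : W → ℕ, cc = fun a => if a = w then
      ∑ v ∈ Finset.univ.filter (fun v => π v = w), c v else ∑ v ∈ P a, c v := ⟨_, rfl⟩
  have hccw : cc w = ∑ v ∈ Finset.univ.filter (fun v => π v = w), c v := by
    rw [hcc]; exact if_pos rfl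
  have hcci : ∀ a, a ≠ w → cc a = ∑ v ∈ P a, c v := by
    intro a ha
    rw [hcc]; exact if_neg ha
  obtain ⟨m, hm⟩ : ∃ m : ℕ → ℕ, m = fun l => if l = 1 then
      ∑ v ∈ Finset.univ.filter (fun v => π v = w), c v else
      ((Src.filter (fun a => y a = w)).filter (fun a => L a = l)).sup
        (fun a => ∑ v ∈ P a, c v) := ⟨_, rfl⟩
  have hm1 : m 1 = ∑ v ∈ Finset.univ.filter (fun v => π v = w), c v := by
    rw [hm]; exact if_pos rfl
  have hml : ∀ l, l ≠ 1 → m l = ((Src.filter (fun a => y a = w)).filter (fun a => L a = l)).sup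
        (fun a => ∑ v ∈ P a, c v) := by
    intro l hl
    rw [hm]; exact if_neg hl
  have hidx : ∀ a, (∃ v ∈ pi' π Src P y ⁻¹' {w}, π v = a) → a = w ∨ (a ∈ Src ∧ y a = w) := by
    rintro a ⟨v, hv, rfl⟩
    rcases block_idx H hw hv with h | h
    · exact Or.inl h
    · exact Or.inr ⟨h.1, h.2.1⟩
  have hcompose := COMPOSE T₀ T κ hc (pi' π Src P y ⁻¹' {w}) S U hs0 π L cc 3 m
    (by
      intro a ha
      rcases hidx a ha with rfl | ⟨h1, h2⟩
      · rw [block_w H hw]
        exact H.hp.1 a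
      · rw [block_i H hw h1 h2]
        exact H.h4 a h1)
    (by
      intro a ha
      rcases hidx a ha with rfl | ⟨h1, h2⟩
      · rw [block_w H hw, hccw]
        have h3 : (π ⁻¹' {a} : Set V) = ((Finset.univ.filter (fun v => π v = a) : Finset V) :
            Set V) := by ext v; simp
        rw [h3]
        refine CAPSUM T₀ T κ hc _ ?_ c (fun v _ => hcap v)
        rw [← h3]
        exact H.hp.1 a
      · rw [block_i H hw h1 h2, hcci a (hne a h1)]
        exact CAPSUM T₀ T κ hc _ (H.h4 a h1) c (fun v _ => hcap v))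
    (by
      intro a ha
      rcases hidx a ha with rfl | ⟨h1, h2⟩
      · rw [block_w H hw, hLw]
        obtain ⟨p, hp, q, hq, hpq⟩ := hadjS
        rcases block_idx H hw hp with h | ⟨h3, h4, h5⟩
        · exact ⟨p, h, q, Or.inl hq, hpq⟩
        · rcases H.h5 _ h3 p h5 q hpq with h | h | h
          · exact absurd hq (Set.disjoint_left.1 hAS (hPA _ h3 h4 q h))
          · rw [h] at hq
            rcases hzSU _ h3 with h6 | h6
            · obtain ⟨a', b', ha', hb', hab'⟩ := host_adj H h3 h4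
              refine ⟨b', hb', a', Or.inr ⟨hPA _ h3 h4 a' ha', ?_⟩, hab'.symm⟩
              rw [H.h1 _ h3 a' ha', h6.2]
              exact Nat.zero_lt_one
            · exact absurd h6.1 (Set.disjoint_left.1 hSU hq)
          · exact absurd hq (Set.disjoint_left.1 hAS (hKA q (h.trans h4)))
      · rw [block_i H hw h1 h2]
        rcases hzSU _ h1 with h6 | h6
        · obtain ⟨a', ha', hab'⟩ := adj_z H h1
          exact ⟨a', ha', z a, Or.inl h6.1, hab'⟩
        · obtain ⟨a', b', ha', hb', hab'⟩ := host_adj H h1 h2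
          refine ⟨a', ha', b', Or.inr ⟨hKA b' hb', ?_⟩, hab'⟩
          rw [hb', hLw, h6.2]
          exact Nat.one_lt_two)
    (by
      intro a ha
      rcases hidx a ha with rfl | ⟨h1, h2⟩
      · rw [block_w H hw, hLw]
        obtain ⟨p, hp, q, hq, hpq⟩ := hadjU
        rcases block_idx H hw hp with h | ⟨h3, h4, h5⟩
        · exact ⟨p, h, q, Or.inl hq, hpq⟩
        · rcases H.h5 _ h3 p h5 q hpq with h | h | h
          · exact absurd hq (Set.disjoint_left.1 hAU (hPA _ h3 h4 q h))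
          · rw [h] at hq
            rcases hzSU _ h3 with h6 | h6
            · exact absurd hq (Set.disjoint_left.1 hSU h6.1)
            · obtain ⟨a', b', ha', hb', hab'⟩ := host_adj H h3 h4
              refine ⟨b', hb', a', Or.inr ⟨hPA _ h3 h4 a' ha', ?_⟩, hab'.symm⟩
              rw [H.h1 _ h3 a' ha', h6.2]
              exact Nat.one_lt_two
          · exact absurd hq (Set.disjoint_left.1 hAU (hKA q (h.trans h4)))
      · rw [block_i H hw h1 h2]
        rcases hzSU _ h1 with h6 | h6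
        · obtain ⟨a', b', ha', hb', hab'⟩ := host_adj H h1 h2
          refine ⟨a', ha', b', Or.inr ⟨hKA b' hb', ?_⟩, hab'⟩
          rw [hb', hLw, h6.2]
          exact Nat.zero_lt_one
        · obtain ⟨a', ha', hab'⟩ := adj_z H h1
          exact ⟨a', ha', z a, Or.inl h6.1, hab'⟩)
    (by
      intro u hu v hv huv hne'
      have hpk : ∀ a ∈ Src, L a ≠ 1 := by
        intro a ha
        rcases hzSU a ha with h | h
        · rw [h.2]; exact zero_ne_one
        · rw [h.2]; norm_num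
      rcases block_idx H hw hu with h | ⟨h3, h4, h5⟩
      · rcases block_idx H hw hv with h' | ⟨h3', h4', h5'⟩
        · exact absurd (h.trans h'.symm) hne'
        · rw [h, hLw]
          exact (hpk _ h3').symm
      · rcases block_idx H hw hv with h' | ⟨h3', h4', h5'⟩
        · rw [h', hLw]
          exact hpk _ h3
        · exfalso
          rcases H.h5 _ h3 u h5 v huv with h | h | h
          · exact hne' (H.h1 _ h3 v h).symm
          · apply hne'
            rw [h, (H.h2 _ h3).1]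
          · rw [h] at h3'
            exact (H.h3 _ h3).2 h3')
    (by
      intro a ha
      rcases hidx a ha with rfl | ⟨h1, h2⟩
      · rw [hLw, hm1, hccw]
        exact ⟨by norm_num, le_refl _⟩
      · have hLn : L a ≠ 1 ∧ L a < 3 := by
          rcases hzSU a h1 with h | h
          · rw [h.2]; exact ⟨zero_ne_one, by norm_num⟩
          · rw [h.2]; exact ⟨by norm_num, by norm_num⟩
        refine ⟨hLn.2, ?_⟩
        rw [hml _ hLn.1, hcci a (hne a h1)]
        exact Finset.le_sup (f := fun a => ∑ v ∈ P a, c v)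
          (Finset.mem_filter.2 ⟨Finset.mem_filter.2 ⟨h1, h2⟩, rfl⟩))
  obtain ⟨h, hv, hn⟩ := hcompose
  refine ⟨h, hv, hn.trans ?_⟩
  rw [Finset.sum_range_succ, Finset.sum_range_succ, Finset.sum_range_succ, Finset.sum_range_zero,
    hm1, hml 0 (by norm_num), hml 2 (by norm_num)]
  have h1 := sup_pair (s := fun a => ∑ v ∈ P a, c v)
    (A := (Src.filter (fun a => y a = w)).filter (fun a => L a = 0))
    (B := (Src.filter (fun a => y a = w)).filter (fun a => L a = 2))
    (h := Src.filter (fun a => y a = w)) (Finset.filter_subset _ _) (Finset.filter_subset _ _)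
    (by
      rw [Finset.disjoint_left]
      intro a ha hb
      rw [Finset.mem_filter] at ha hb
      have h3 := ha.2.symm.trans hb.2
      exact absurd h3 (by norm_num)) hmax hmaxj
  omega

theorem coe_fib (w : W) : ((Finset.univ.filter (fun v => pi' π Src P y v = w) : Finset V) : Set V)
    = pi' π Src P y ⁻¹' {w} := by
  ext v
  simp

theorem mem_fib_pocket (H : Pk T T' π Src P z y) {w1 : W} (hw1 : w1 ∈ Src) {v : V}
    (hv : v ∈ P w1) : v ∈ Finset.univ.filter (fun v => pi' π Src P y v = y w1) :=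
  Finset.mem_filter.2 ⟨Finset.mem_univ _, pi'_mem H hw1 hv⟩

theorem cap_thick (H : Pk T T' π Src P z y) (hc : Clus T₀ T κ)
    (hcap : ∀ v, CapSet T₀ T κ {v} (c v)) (g : ℕ) {w1 : W} (hw1 : w1 ∈ Src)
    (h6 : 9 ≤ ((P w1).filter (fun v => g ≤ c v)).card) :
    CapSet T₀ T κ (pi' π Src P y ⁻¹' {y w1})
      (∑ v ∈ Finset.univ.filter (fun v => pi' π Src P y v = y w1), c v - g) := by
  have hyS : y w1 ∉ Src := (H.h3 w1 hw1).2
  rw [← coe_fib (π := π) (Src := Src) (P := P) (y := y) (y w1)]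
  refine THICK T₀ T κ hc c _ ?_ (fun v _ => hcap v) ((P w1).filter (fun v => g ≤ c v)) ?_ h6 ?_ g _
    (fun q hq => (Finset.mem_filter.1 hq).2) ?_
  · rw [coe_fib]
    exact conn_fib H _
  · intro v hv
    exact mem_fib_pocket H hw1 (Finset.mem_filter.1 hv).1
  · intro x q hq q' hq' hqx hqx'
    have hq1 := (Finset.mem_filter.1 hq).1
    have hq2 := (Finset.mem_filter.1 hq').1
    by_cases hx : x ∈ P w1
    · have hxw : π x = w1 := H.h1 w1 hw1 x hx
      have hxy : π x ≠ y w1 := by rw [hxw]; exact (H.h3 w1 hw1).1.symm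
      obtain ⟨A, hA⟩ : ∃ A : Set V, A = {t | t ∈ Finset.univ.filter
        (fun v => pi' π Src P y v = y w1) ∧ t ≠ x} := ⟨_, rfl⟩
      have hbA : ∀ b, π b = y w1 → b ∈ A := by
        intro b hb
        rw [hA]
        refine ⟨Finset.mem_filter.2 ⟨Finset.mem_univ _, (mem_nsrc H hyS b).2 (Or.inl hb)⟩, ?_⟩
        rintro rfl
        exact hxy hb
      have hout : ∀ r ∈ P w1, r ≠ x → ∃ b, π b = y w1 ∧
          Relation.ReflTransGen (fun s t => T.G.Adj s t ∧ t ∈ A) r b := by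
        intro r hr hrx
        obtain ⟨a, b, ha, hb, hab, hpath⟩ := exit_host H hw1 hxy hr hrx
        refine ⟨b, hb, Relation.ReflTransGen.tail (rtg_mono ?_ hpath) ⟨hab, hbA b hb⟩⟩
        intro s t hst
        refine ⟨hst.1, ?_⟩
        rw [hA]
        exact ⟨mem_fib_pocket H hw1 hst.2.1, hst.2.2⟩
      obtain ⟨b, hb, pb⟩ := hout q hq1 hqx
      obtain ⟨b', hb', pb'⟩ := hout q' hq2 hqx'
      have hqA' : q' ∈ A := by
        rw [hA]
        exact ⟨mem_fib_pocket H hw1 hq2, hqx'⟩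
      have hbb : Relation.ReflTransGen (fun s t => T.G.Adj s t ∧ t ∈ A) b b' := by
        refine path_mono ?_ ((H.hp.1 (y w1)).2 b hb b' hb')
        intro t ht
        exact hbA t ht
      have hfin := (pb.trans hbb).trans (path_rev hqA' pb').2
      refine rtg_mono ?_ hfin
      intro s t hst
      have h1 := hst.2
      rw [hA] at h1
      exact ⟨hst.1, h1.1, h1.2⟩
    · refine rtg_mono ?_ ((H.h4 w1 hw1).2 q hq1 q' hq2)
      intro s t hst
      refine ⟨hst.1, mem_fib_pocket H hw1 hst.2, ?_⟩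
      rintro rfl
      exact hx hst.2
  · omega

theorem sum_fib (H : Pk T T' π Src P z y) {w : W} (hw : w ∉ Src) :
    ∑ v ∈ Finset.univ.filter (fun v => pi' π Src P y v = w), c v =
      ∑ v ∈ Finset.univ.filter (fun v => π v = w), c v +
        ∑ a ∈ Src.filter (fun a => y a = w), ∑ v ∈ P a, c v := by
  have h1 : Finset.univ.filter (fun v => pi' π Src P y v = w) =
      Finset.univ.filter (fun v => π v = w) ∪ (Src.filter (fun a => y a = w)).biUnion P := by
    ext v
    simp only [Finset.mem_filter, Finset.mem_univ, true_and, Finset.mem_union, Finset.mem_biUnion]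
    rw [mem_nsrc H hw v]
    constructor
    · rintro (h | ⟨a, h1, h2, h3⟩)
      · exact Or.inl h
      · exact Or.inr ⟨a, ⟨h1, h2⟩, h3⟩
    · rintro (h | ⟨a, ⟨h1, h2⟩, h3⟩)
      · exact Or.inl h
      · exact Or.inr ⟨a, h1, h2, h3⟩
  rw [h1, Finset.sum_union, Finset.sum_biUnion]
  · intro a ha b hb hab
    rw [Function.onFun, Finset.disjoint_left]
    intro v hva hvb
    have h2 := H.h1 a (Finset.mem_filter.1 ha).1 v hva
    have h3 := H.h1 b (Finset.mem_filter.1 hb).1 v hvb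
    exact hab (h2.symm.trans h3)
  · rw [Finset.disjoint_left]
    intro v hva hvb
    obtain ⟨a, ha, hv⟩ := Finset.mem_biUnion.1 hvb
    have h2 := H.h1 a (Finset.mem_filter.1 ha).1 v hv
    have h3 := (Finset.mem_filter.1 hva).2
    exact hw (by rw [← h3, h2]; exact (Finset.mem_filter.1 ha).1)

theorem perw (H : Pk T T' π Src P z y) (hc : Clus T₀ T κ)
    (hcap : ∀ v, CapSet T₀ T κ {v} (c v)) (N g : ℕ)
    (hN : ∀ w, ∑ v ∈ Finset.univ.filter (fun v => π v = w), c v ≤ N)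
    (h6 : ∀ w ∈ Src, 9 ≤ ((P w).filter (fun v => g ≤ c v)).card) (w : W) :
    ∃ c' : ℕ, CapSet T₀ T κ (pi' π Src P y ⁻¹' {w}) c' ∧ c' ≤ 3 * N ∧
      3 * c' + (Src.filter (fun a => y a = w)).card * g ≤
        3 * ∑ v ∈ Finset.univ.filter (fun v => pi' π Src P y v = w), c v := by
  by_cases h0 : Src.filter (fun a => y a = w) = ∅
  · refine ⟨∑ v ∈ Finset.univ.filter (fun v => pi' π Src P y v = w), c v, ?_, ?_, ?_⟩
    · rw [← coe_fib (π := π) (Src := Src) (P := P) (y := y) w]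
      refine CAPSUM T₀ T κ hc _ ?_ c (fun v _ => hcap v)
      rw [coe_fib]
      exact conn_fib H _
    · have h1 : ∑ v ∈ Finset.univ.filter (fun v => pi' π Src P y v = w), c v ≤
          ∑ v ∈ Finset.univ.filter (fun v => π v = w), c v := by
        refine Finset.sum_le_sum_of_subset ?_
        intro v hv
        have hv' := (Finset.mem_filter.1 hv).2
        refine Finset.mem_filter.2 ⟨Finset.mem_univ _, ?_⟩
        by_cases hw : w ∈ Src
        · exact ((mem_src H hw v).1 hv').1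
        · rcases (mem_nsrc H hw v).1 hv' with h | ⟨a, ha, hy, -⟩
          · exact h
          · exfalso
            have h2 : a ∈ Src.filter (fun a => y a = w) := Finset.mem_filter.2 ⟨ha, hy⟩
            rw [h0] at h2
            exact absurd h2 (Finset.notMem_empty a)
      have h2 := hN w
      omega
    · rw [h0, Finset.card_empty, zero_mul, add_zero]
  · obtain ⟨w1, hw1⟩ := Finset.nonempty_iff_ne_empty.2 h0
    obtain ⟨hw1S, hyw⟩ := Finset.mem_filter.1 hw1
    have hw : w ∉ Src := by rw [← hyw]; exact (H.h3 w1 hw1S).2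
    have hsum := sum_fib (c := c) H hw
    have hs_le : ∀ a ∈ Src, ∑ v ∈ P a, c v ≤ N := by
      intro a ha
      refine le_trans (Finset.sum_le_sum_of_subset ?_) (hN a)
      intro v hv
      exact Finset.mem_filter.2 ⟨Finset.mem_univ _, H.h1 a ha v hv⟩
    have hs_ge : ∀ a ∈ Src, 9 * g ≤ ∑ v ∈ P a, c v := by
      intro a ha
      calc 9 * g ≤ ((P a).filter (fun v => g ≤ c v)).card * g := Nat.mul_le_mul_right g (h6 a ha)
        _ ≤ ∑ v ∈ (P a).filter (fun v => g ≤ c v), c v := by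
            rw [← smul_eq_mul]
            exact Finset.card_nsmul_le_sum _ _ _ (fun v hv => (Finset.mem_filter.1 hv).2)
        _ ≤ ∑ v ∈ P a, c v := Finset.sum_le_sum_of_subset (Finset.filter_subset _ _)
    by_cases hk : (Src.filter (fun a => y a = w)).card ≤ 2
    · refine ⟨∑ v ∈ Finset.univ.filter (fun v => pi' π Src P y v = w), c v - g, ?_, ?_, ?_⟩
      · have h1 := cap_thick H hc hcap g hw1S (h6 w1 hw1S)
        rw [hyw] at h1
        exact h1
      · have h1 : ∑ a ∈ Src.filter (fun a => y a = w), ∑ v ∈ P a, c v ≤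
            (Src.filter (fun a => y a = w)).card * N := by
          rw [← smul_eq_mul]
          exact Finset.sum_le_card_nsmul _ _ _ (fun a ha => hs_le a (Finset.mem_filter.1 ha).1)
        have h2 : (Src.filter (fun a => y a = w)).card * N ≤ 2 * N := Nat.mul_le_mul_right N hk
        have h3 := hN w
        omega
      · have h1 : 9 * g ≤ ∑ a ∈ Src.filter (fun a => y a = w), ∑ v ∈ P a, c v :=
          (hs_ge w1 hw1S).trans (Finset.single_le_sum (f := fun a => ∑ v ∈ P a, c v)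
            (fun a _ => Nat.zero_le _) hw1)
        have h2 : (Src.filter (fun a => y a = w)).card * g ≤ 2 * g := Nat.mul_le_mul_right g hk
        omega
    · push Not at hk
      obtain ⟨i, hi, hmax⟩ := Finset.exists_max_image (Src.filter (fun a => y a = w))
        (fun a => ∑ v ∈ P a, c v) ⟨w1, hw1⟩
      have hcard1 := Finset.card_erase_of_mem hi
      have hne1 : ((Src.filter (fun a => y a = w)).erase i).Nonempty := by
        rw [← Finset.card_pos]
        omega
      obtain ⟨j, hj, hmaxj⟩ := Finset.exists_max_image ((Src.filter (fun a => y a = w)).erase i)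
        (fun a => ∑ v ∈ P a, c v) hne1
      have hcard2 := Finset.card_erase_of_mem hj
      refine ⟨∑ v ∈ Finset.univ.filter (fun v => π v = w), c v + ∑ v ∈ P i, c v +
        ∑ v ∈ P j, c v, ?_, ?_, ?_⟩
      · exact cap_big H hc hcap hw i j hmax
          (fun a ha hai => hmaxj a (Finset.mem_erase.2 ⟨hai, ha⟩))
      · have h1 := hs_le i (Finset.mem_filter.1 hi).1
        have h2 := hs_le j (Finset.mem_filter.1 (Finset.mem_of_mem_erase hj)).1
        have h3 := hN w
        omega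
      · have h1 := Finset.add_sum_erase (Src.filter (fun a => y a = w))
          (fun a => ∑ v ∈ P a, c v) hi
        have h2 := Finset.add_sum_erase ((Src.filter (fun a => y a = w)).erase i)
          (fun a => ∑ v ∈ P a, c v) hj
        beta_reduce at h1 h2
        have h3 : (((Src.filter (fun a => y a = w)).erase i).erase j).card * (9 * g) ≤
            ∑ a ∈ ((Src.filter (fun a => y a = w)).erase i).erase j, ∑ v ∈ P a, c v := by
          rw [← smul_eq_mul]
          refine Finset.card_nsmul_le_sum _ _ _ (fun a ha => hs_ge a ?_)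
          exact (Finset.mem_filter.1 (Finset.mem_of_mem_erase (Finset.mem_of_mem_erase ha))).1
        obtain ⟨n, hn⟩ : ∃ n, (Src.filter (fun a => y a = w)).card = n + 3 :=
          ⟨(Src.filter (fun a => y a = w)).card - 3, by omega⟩
        have h4 : (((Src.filter (fun a => y a = w)).erase i).erase j).card = n + 1 := by omega
        rw [h4] at h3
        rw [hn, hsum]
        have h5 : (n + 3) * g ≤ 3 * ((n + 1) * (9 * g)) := by nlinarith [Nat.zero_le (n * g)]
        omega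

end pk

end W_POCK

open W_POCK in
theorem POCK {V₀ V W : Type} [Fintype V₀] [Fintype V] [Fintype W] [DecidableEq V] [DecidableEq W] (T₀ : Tri V₀) (T : Tri V)
    (T' : Tri W) (κ : V₀ → V) (π : V → W) (hc : Clus T₀ T κ) (hp : Clus T T' π) (c : V → ℕ)
    (hcap : ∀ v, CapSet T₀ T κ {v} (c v)) (N g : ℕ)
    (hN : ∀ w, ∑ v ∈ Finset.univ.filter (fun v => π v = w), c v ≤ N)
    (Src : Finset W) (P : W → Finset V) (z : W → V) (y : W → W)
    (h1 : ∀ w ∈ Src, ∀ v ∈ P w, π v = w) (h2 : ∀ w ∈ Src, π (z w) = w ∧ z w ∉ P w) (h3 : ∀ w ∈ Src, y w ≠ w ∧ y w ∉ Src)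
    (h4 : ∀ w ∈ Src, Conn T.G (P w : Set V))
    (h5 : ∀ w ∈ Src, ∀ u ∈ P w, ∀ v, T.G.Adj u v → v ∈ P w ∨ v = z w ∨ π v = y w)
    (h6 : ∀ w ∈ Src, 9 ≤ ((P w).filter (fun v => g ≤ c v)).card) :
    ∃ π' : V → W, Clus T T' π' ∧ (∀ v, (∀ w ∈ Src, v ∉ P w) → π' v = π v) ∧
      (∀ o, (∀ v, π v = π o → v = o) → ∀ v, π' v = π' o → v = o) ∧
      ∃ c' : W → ℕ, (∀ w, CapSet T₀ T κ (π' ⁻¹' {w}) (c' w)) ∧ (∀ w, c' w ≤ 3 * N) ∧
        3 * ∑ w, c' w + Src.card * g ≤ 3 * ∑ v, c v := by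
  have H : Pk T T' π Src P z y := ⟨hp, h1, h2, h3, h4, h5⟩
  choose c' hc1 hc2 hc3 using perw H hc hcap N g hN h6
  refine ⟨pi' π Src P y, clus' H, fun v hv => pi'_not hv, fun o ho v hv => singl H o ho v hv,
    c', hc1, hc2, ?_⟩
  have e1 : Src.card = ∑ w, (Src.filter (fun a => y a = w)).card :=
    Finset.card_eq_sum_card_fiberwise (fun a _ => Finset.mem_coe.2 (Finset.mem_univ _))
  have e2 : ∑ w, ∑ v ∈ Finset.univ.filter (fun v => pi' π Src P y v = w), c v = ∑ v, c v :=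
    Finset.sum_fiberwise _ _ _
  rw [e1, ← e2, Finset.mul_sum, Finset.mul_sum, Finset.sum_mul, ← Finset.sum_add_distrib]
  exact Finset.sum_le_sum fun w _ => hc3 w


end Pool.Agent.H891WLC
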