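import Pool.Agent.H891WLC.Defs
import Pool.Agent.H891WLC.D_nrm
import Pool.Agent.H891WLC.D_lines
import Pool.Agent.H891WLC.D_path
import Pool.Agent.H891WLC.D_piece
import Pool.Agent.H891WLC.tri_conn3
import Pool.Agent.H891WLC.CLUS_ADJ
import Pool.Agent.H891WLC.CLUS_CONN
import Pool.Agent.H891WLC.CLUS_COMP
import Pool.Agent.H891WLC.COARSE
import Pool.Agent.H891WLC.CAPSUM
import Pool.Agent.H891WLC.CAPUP
import Pool.Agent.H891WLC.CLASS
import Pool.Agent.H891WLC.CHQ
import Pool.Agent.H891WLC.FUNC3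
import Pool.Agent.H891WLC.POCK
import Pool.Agent.H891WLC.FINISH

set_option autoImplicit false

namespace Pool.Agent.H891WLC

namespace W_STEPN

lemma split_bound {V : Type} [DecidableEq V] (S : Finset V) (c : V → ℕ) (M D g b : ℕ)
    (hg : g = M / D + 1) (hcM : ∀ v, c v ≤ M) (h1 : (S.filter (fun v => g ≤ c v)).card ≤ b)
    (h2 : S.card ≤ D) : ∑ v ∈ S, c v ≤ (b + 1) * M := by
  rw [← Finset.sum_filter_add_sum_filter_not S (fun v => g ≤ c v) c]
  have e1 : ∑ v ∈ S.filter (fun v => g ≤ c v), c v ≤ b * M := by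
    calc ∑ v ∈ S.filter (fun v => g ≤ c v), c v
        ≤ (S.filter (fun v => g ≤ c v)).card • M :=
          Finset.sum_le_card_nsmul _ _ _ (fun v _ => hcM v)
      _ ≤ b * M := by rw [smul_eq_mul]; exact Nat.mul_le_mul_right _ h1
  have e2 : ∑ v ∈ S.filter (fun v => ¬ g ≤ c v), c v ≤ M := by
    calc ∑ v ∈ S.filter (fun v => ¬ g ≤ c v), c v
        ≤ (S.filter (fun v => ¬ g ≤ c v)).card • (M / D) :=
          Finset.sum_le_card_nsmul _ _ _ (fun v hv => by
            have := (Finset.mem_filter.1 hv).2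
            omega)
      _ ≤ D * (M / D) := by
          rw [smul_eq_mul]
          exact Nat.mul_le_mul_right _ ((Finset.card_filter_le _ _).trans h2)
      _ ≤ M := Nat.mul_div_le M D
  calc _ ≤ b * M + M := Nat.add_le_add e1 e2
    _ = (b + 1) * M := by ring

/-- heavy pocket of a cluster -/
def HP {V W : Type} [DecidableEq V] (G : SimpleGraph V) (K Q : Finset V) (π : V → W) (w : W)
    (A : Finset V) (z : V) (y : W) : Prop :=
  A ⊆ K ∧ z ∈ K ∧ z ∉ A ∧ y ≠ w ∧ Conn G (A : Set V) ∧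
    (∀ u ∈ A, ∀ v ∈ K, G.Adj u v → v ∈ A ∨ v = z) ∧
    (∀ u ∈ A, ∀ v, v ∉ K → G.Adj u v → π v = y) ∧ 9 ≤ (A ∩ Q).card

/-- conclusion of `CHQ` -/
def CHd {V W : Type} (G : SimpleGraph V) (π : V → W) (w₀ : W) (K Q : Finset V) (s' : ℕ)
    (q : V → ℕ) : Prop :=
  1 ≤ s' ∧ (∀ v ∈ K, q v ≤ s' + 1) ∧ (∀ k, k ≤ s' + 1 → Conn G {v | v ∈ K ∧ q v = k}) ∧
    (∀ u ∈ K, ∀ v ∈ K, G.Adj u v → q u ≤ q v + 1) ∧
    (∃ w₁ w₂, w₁ ≠ w₂ ∧ w₁ ≠ w₀ ∧ w₂ ≠ w₀ ∧ AdjS G {v | v ∈ K ∧ q v = 0} (π ⁻¹' {w₁}) ∧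
      AdjS G {v | v ∈ K ∧ q v = 0} (π ⁻¹' {w₂})) ∧
    (∃ w₁ w₂, w₁ ≠ w₂ ∧ w₁ ≠ w₀ ∧ w₂ ≠ w₀ ∧ AdjS G {v | v ∈ K ∧ q v = s' + 1} (π ⁻¹' {w₁}) ∧
      AdjS G {v | v ∈ K ∧ q v = s' + 1} (π ⁻¹' {w₂})) ∧
    (∀ k, 1 ≤ k → k ≤ s' → ∃ w₁, w₁ ≠ w₀ ∧ AdjS G {v | v ∈ K ∧ q v = k} (π ⁻¹' {w₁})) ∧
    (∀ k, (Q.filter (fun v => q v = k)).card ≤ 25)

lemma coe_fib {V W : Type} [Fintype V] [DecidableEq W] (π : V → W) (w : W) :
    ((Finset.univ.filter (fun v => π v = w) : Finset V) : Set V) = π ⁻¹' {w} := by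
  ext v; simp

lemma caseA {V₀ V W : Type} [Fintype V₀] [Fintype V] [Fintype W] [DecidableEq V] [DecidableEq W]
    (T₀ : Tri V₀) (T : Tri V) (T' : Tri W) (κ : V₀ → V) (π : V → W) (hc : Clus T₀ T κ)
    (hp : Clus T T' π) (c : V → ℕ) (hcap : ∀ v, CapSet T₀ T κ {v} (c v)) (g N t : ℕ)
    (hN : ∀ w, ∑ v ∈ Finset.univ.filter (fun v => π v = w), c v ≤ N)
    (G : Finset W)
    (hG : ∀ w ∈ G, g ≤ ∑ v ∈ Finset.univ.filter (fun v => π v = w), c v ∧
      ∀ m, ∑ v ∈ Finset.univ.filter (fun v => π v = w), c v ≤ m + g →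
        CapSet T₀ T κ ((Finset.univ.filter (fun v => π v = w) : Finset V) : Set V) m)
    (ht : t ≤ G.card) :
    ∃ c' : W → ℕ, (∀ w, CapSet T₀ T' (π ∘ κ) {w} (c' w)) ∧ (∀ w, c' w ≤ N) ∧
      9 * ∑ w, c' w + t * g ≤ 9 * ∑ v, c v := by
  refine ⟨fun w => if w ∈ G then ∑ v ∈ Finset.univ.filter (fun v => π v = w), c v - g
    else ∑ v ∈ Finset.univ.filter (fun v => π v = w), c v, ?_, ?_, ?_⟩
  · intro w
    apply CAPUP T₀ T T' κ π hp
    rw [← coe_fib]
    by_cases hw : w ∈ G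
    · simp only [hw, if_true]
      exact (hG w hw).2 _ (by have := (hG w hw).1; omega)
    · simp only [hw, if_false]
      refine CAPSUM T₀ T κ hc _ ?_ c (fun v _ => hcap v)
      rw [coe_fib]
      exact hp.1 w
  · intro w
    by_cases hw : w ∈ G
    · simp only [hw, if_true]
      exact (Nat.sub_le _ _).trans (hN w)
    · simp only [hw, if_false]
      exact hN w
  · have h1 : ∑ w, (if w ∈ G then ∑ v ∈ Finset.univ.filter (fun v => π v = w), c v - g
        else ∑ v ∈ Finset.univ.filter (fun v => π v = w), c v) + G.card * g = ∑ v, c v := by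
      rw [← Finset.sum_fiberwise Finset.univ π c]
      have h2 : G.card * g = ∑ w, if w ∈ G then g else 0 := by
        rw [← Finset.sum_filter]
        simp
      rw [h2, ← Finset.sum_add_distrib]
      apply Finset.sum_congr rfl
      intro w _
      by_cases hw : w ∈ G
      · simp only [hw, if_true]
        exact Nat.sub_add_cancel (hG w hw).1
      · simp only [hw, if_false, add_zero]
    have h3 : t * g ≤ G.card * g := Nat.mul_le_mul_right _ ht
    rw [← h1]
    simp only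
    omega

lemma caseB {V₀ V W : Type} [Fintype V₀] [Fintype V] [Fintype W] [DecidableEq V] [DecidableEq W]
    (T₀ : Tri V₀) (T : Tri V) (T' : Tri W) (κ : V₀ → V) (π : V → W) (hc : Clus T₀ T κ)
    (hp : Clus T T' π) (c : V → ℕ) (hcap : ∀ v, CapSet T₀ T κ {v} (c v)) (g N t : ℕ)
    (hN : ∀ w, ∑ v ∈ Finset.univ.filter (fun v => π v = w), c v ≤ N)
    (P : Finset W)
    (hP : ∀ w ∈ P, ∃ A' z y, HP T.G (Finset.univ.filter (fun v => π v = w))
      (Finset.univ.filter (fun v => π v = w ∧ g ≤ c v)) π w A' z y)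
    (ht : t ≤ P.card) :
    ∃ (π' : V → W) (c' : W → ℕ), Clus T T' π' ∧
      (∀ o, (∀ v, π v = π o → v = o) → ∀ v, π' v = π' o → v = o) ∧
      (∀ w, CapSet T₀ T' (π' ∘ κ) {w} (c' w)) ∧ (∀ w, c' w ≤ 3 * N) ∧
      9 * ∑ w, c' w + t * g ≤ 9 * ∑ v, c v := by
  have hP' : ∀ w, ∃ A' z y, w ∈ P → HP T.G (Finset.univ.filter (fun v => π v = w))
      (Finset.univ.filter (fun v => π v = w ∧ g ≤ c v)) π w A' z y := by
    intro w
    by_cases hw : w ∈ P
    · obtain ⟨A', z, y, h⟩ := hP w hw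
      exact ⟨A', z, y, fun _ => h⟩
    · exact ⟨∅, (hp.1 w).1.some, w, fun h => absurd h hw⟩
  choose A' z y hA using hP'
  obtain ⟨I, hIP, hcard, hI⟩ := FUNC3 P y (fun x hx => (hA x hx).2.2.2.1)
  obtain ⟨π', hp', _, hsing, c', hc1, hc2, hc3⟩ := POCK T₀ T T' κ π hc hp c hcap N g hN I A' z y
    (by
      intro w hw v hv
      have := (hA w (hIP hw)).1 hv
      exact (Finset.mem_filter.1 this).2)
    (by
      intro w hw
      obtain ⟨_, h2, h3, _⟩ := hA w (hIP hw)
      exact ⟨(Finset.mem_filter.1 h2).2, h3⟩)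
    (by
      intro w hw
      exact ⟨(hA w (hIP hw)).2.2.2.1, hI w hw⟩)
    (by
      intro w hw
      exact (hA w (hIP hw)).2.2.2.2.1)
    (by
      intro w hw u hu v huv
      obtain ⟨_, _, _, _, _, h6, h7, _⟩ := hA w (hIP hw)
      by_cases hv : v ∈ Finset.univ.filter (fun v => π v = w)
      · rcases h6 u hu v hv huv with h | h
        · exact Or.inl h
        · exact Or.inr (Or.inl h)
      · exact Or.inr (Or.inr (h7 u hu v hv huv)))
    (by
      intro w hw
      obtain ⟨_, _, _, _, _, _, _, h8⟩ := hA w (hIP hw)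
      refine h8.trans (Finset.card_le_card ?_)
      intro v hv
      rw [Finset.mem_inter, Finset.mem_filter] at hv
      rw [Finset.mem_filter]
      exact ⟨hv.1, hv.2.2.2⟩)
  refine ⟨π', c', hp', hsing, ?_, hc2, ?_⟩
  · intro w
    exact CAPUP T₀ T T' κ π' hp' {w} (c' w) (hc1 w)
  · have h3 : t * g ≤ (3 * I.card) * g := Nat.mul_le_mul_right _ (ht.trans hcard)
    have h4 : 3 * (3 * ∑ w, c' w + I.card * g) ≤ 3 * (3 * ∑ v, c v) := Nat.mul_le_mul_left _ hc3
    nlinarith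

lemma chain_exists {V₀ V W : Type} [Fintype V₀] [Fintype V] [Fintype W] [DecidableEq V]
    [DecidableEq W]
    (T₀ : Tri V₀) (T : Tri V) (T' : Tri W) (κ : V₀ → V) (π : V → W) (hc : Clus T₀ T κ)
    (hp : Clus T T' π) (c : V → ℕ) (hcap : ∀ v, CapSet T₀ T κ {v} (c v)) (g : ℕ) (w : W)
    (hQ : 40 < (Finset.univ.filter (fun v => π v = w ∧ g ≤ c v)).card)
    (hFA : ¬ ∀ m, ∑ v ∈ Finset.univ.filter (fun v => π v = w), c v ≤ m + g →
        CapSet T₀ T κ ((Finset.univ.filter (fun v => π v = w) : Finset V) : Set V) m)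
    (hnP : ¬ ∃ A' z y, HP T.G (Finset.univ.filter (fun v => π v = w))
      (Finset.univ.filter (fun v => π v = w ∧ g ≤ c v)) π w A' z y) :
    ∃ (s' : ℕ) (q : V → ℕ), CHd T.G π w (Finset.univ.filter (fun v => π v = w))
      (Finset.univ.filter (fun v => π v = w ∧ g ≤ c v)) s' q := by
  have hK : Conn T.G ((Finset.univ.filter (fun v => π v = w) : Finset V) : Set V) := by
    rw [coe_fib]; exact hp.1 w
  rcases CLASS T₀ T κ hc c (Finset.univ.filter (fun v => π v = w)) hK (fun v _ => hcap v) g with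
    h | ⟨s, w', r, h1, h2, h3, h4, h5, h6, h7, h8⟩
  · exact absurd h hFA
  · have h9 := CHQ T T' π hp w (Finset.univ.filter (fun v => π v = w))
      (Finset.univ.filter (fun v => π v = w ∧ g ≤ c v)) (fun v => by simp)
      (by
        intro v hv
        rw [Finset.mem_filter] at hv ⊢
        exact ⟨hv.1, hv.2.1⟩) s w' r h1 h2 h3 h4 h5 h6 h7
      (by
        intro k
        refine le_trans (le_of_eq ?_) (h8 k)
        congr 1
        ext v
        simp only [Finset.mem_filter]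
        tauto)
      (by
        intro A' z y a1 a2 a3 a4 a5 a6 a7
        by_contra hlt
        exact hnP ⟨A', z, y, a1, a2, a3, a4, a5, a6, a7, by omega⟩)
    rcases h9 with h9 | h9
    · omega
    · exact h9

end W_STEPN

open W_STEPN in
theorem STEPN {V₀ V : Type} [Fintype V₀] [Fintype V] [DecidableEq V] (T₀ : Tri V₀) (T : Tri V) (κ : V₀ → V) (hc : Clus T₀ T κ)
    (o₁ o₂ o₃ : V₀) (ho : T₀.F o₁ o₂ o₃) (s1 : ∀ v, κ v = κ o₁ → v = o₁) (s2 : ∀ v, κ v = κ o₂ → v = o₂)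
    (s3 : ∀ v, κ v = κ o₃ → v = o₃) (c : V → ℕ) (hcap : ∀ v, CapSet T₀ T κ {v} (c v)) (M A L t : ℕ)
    (hM : 1 ≤ M) (hA : 1 ≤ A) (hL : 1 ≤ L) (hcM : ∀ v, c v ≤ M) :
    (∃ m, HasLines T₀ o₁ o₂ o₃ m ∧
      A * L * m ≤ A * L * (3 + 2 * t * L * M + 27300 * M) + L * M * Fintype.card V + 16380 * A * ∑ v, c v) ∨
    (∃ (W : Type) (_ : Fintype W) (_ : DecidableEq W) (T' : Tri W) (κ' : V₀ → W) (c' : W → ℕ), Clus T₀ T' κ' ∧
      (∀ v, κ' v = κ' o₁ → v = o₁) ∧ (∀ v, κ' v = κ' o₂ → v = o₂) ∧ (∀ v, κ' v = κ' o₃ → v = o₃) ∧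
      (∀ w, CapSet T₀ T' κ' {w} (c' w)) ∧ (∀ w, c' w ≤ 3 * (L * M)) ∧
      Fintype.card W * (L * M) ≤ 90 * ∑ v, c v + 150 * (L * M) ∧
      9 * ∑ w, c' w + t * (M / (A * L) + 1) ≤ 9 * ∑ v, c v) := by
  classical
  have hAL : 0 < A * L := Nat.mul_pos hA hL
  obtain ⟨g, hg⟩ : ∃ g, g = M / (A * L) + 1 := ⟨_, rfl⟩
  rw [← hg]
  have ne12 : κ o₁ ≠ κ o₂ := fun h => T₀.ne _ _ _ ho (s2 _ h)
  have ne23 : κ o₂ ≠ κ o₃ := fun h => T₀.ne _ _ _ (T₀.rot _ _ _ ho) (s3 _ h)
  have ne13 : κ o₁ ≠ κ o₃ := fun h =>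
    T₀.ne _ _ _ (T₀.rot _ _ _ (T₀.rot _ _ _ ho)) (s1 _ h.symm)
  have hF : T.F (κ o₁) (κ o₂) (κ o₃) :=
    (hc.2 _ _ _).2 ⟨ne12, ne23, ne13, o₁, o₂, o₃, rfl, rfl, rfl, ho⟩
  obtain ⟨W, fW, dW, T', π, hp, hN, p1, p2, p3, hcard⟩ :=
    COARSE T (κ o₁) (κ o₂) (κ o₃) hF c (L * M) (Nat.mul_pos hL hM)
      (fun v => (hcM v).trans (Nat.le_mul_of_pos_left M hL))
  have q1 : ∀ v, π (κ v) = π (κ o₁) → v = o₁ := fun v h => s1 v (p1 _ h)
  have q2 : ∀ v, π (κ v) = π (κ o₂) → v = o₂ := fun v h => s2 v (p2 _ h)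
  have q3 : ∀ v, π (κ v) = π (κ o₃) → v = o₃ := fun v h => s3 v (p3 _ h)
  let G : Finset W := Finset.univ.filter (fun w =>
    40 < (Finset.univ.filter (fun v => π v = w ∧ g ≤ c v)).card ∧
    ∀ m, ∑ v ∈ Finset.univ.filter (fun v => π v = w), c v ≤ m + g →
        CapSet T₀ T κ ((Finset.univ.filter (fun v => π v = w) : Finset V) : Set V) m)
  let P : Finset W := Finset.univ.filter (fun w =>
    ∃ A' z y, HP T.G (Finset.univ.filter (fun v => π v = w))
      (Finset.univ.filter (fun v => π v = w ∧ g ≤ c v)) π w A' z y)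
  by_cases hGt : t ≤ G.card
  · right
    obtain ⟨c', h1, h2, h3⟩ := caseA T₀ T T' κ π hc hp c hcap g (L * M) t hN G (by
      intro w hw
      obtain ⟨_, ha, hb⟩ := Finset.mem_filter.1 hw
      refine ⟨?_, hb⟩
      have hs : ∑ v ∈ Finset.univ.filter (fun v => π v = w ∧ g ≤ c v), g ≤
          ∑ v ∈ Finset.univ.filter (fun v => π v = w), c v := by
        calc ∑ v ∈ Finset.univ.filter (fun v => π v = w ∧ g ≤ c v), g
            ≤ ∑ v ∈ Finset.univ.filter (fun v => π v = w ∧ g ≤ c v), c v :=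
              Finset.sum_le_sum (fun v hv => (Finset.mem_filter.1 hv).2.2)
          _ ≤ ∑ v ∈ Finset.univ.filter (fun v => π v = w), c v := by
              apply Finset.sum_le_sum_of_subset
              intro v hv
              rw [Finset.mem_filter] at hv ⊢
              exact ⟨hv.1, hv.2.1⟩
      rw [Finset.sum_const, smul_eq_mul] at hs
      nlinarith) hGt
    refine ⟨W, fW, dW, T', π ∘ κ, c', CLUS_COMP T₀ T T' κ π hc hp, q1, q2, q3, h1, ?_, hcard, h3⟩
    intro w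
    have := h2 w
    omega
  by_cases hPt : t ≤ P.card
  · right
    obtain ⟨π', c', hp', hsing, h1, h2, h3⟩ := caseB T₀ T T' κ π hc hp c hcap g (L * M) t hN P
      (fun w hw => (Finset.mem_filter.1 hw).2) hPt
    exact ⟨W, fW, dW, T', π' ∘ κ, c', CLUS_COMP T₀ T T' κ π' hc hp',
      fun v h => s1 v (hsing _ p1 _ h), fun v h => s2 v (hsing _ p2 _ h),
      fun v h => s3 v (hsing _ p3 _ h), h1, h2, hcard, h3⟩
  left
  let Sp : Finset W := Finset.univ.filter (fun w =>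
    40 < (Finset.univ.filter (fun v => π v = w ∧ g ≤ c v)).card ∧ w ∉ G ∧ w ∉ P ∧
    (Finset.univ.filter (fun v => π v = w)).card ≤ A * L)
  have hch : ∀ w, ∃ (s' : ℕ) (q : V → ℕ), w ∈ Sp →
      CHd T.G π w (Finset.univ.filter (fun v => π v = w))
      (Finset.univ.filter (fun v => π v = w ∧ g ≤ c v)) s' q := by
    intro w
    by_cases hw : w ∈ Sp
    · obtain ⟨_, a1, a2, a3, _⟩ := Finset.mem_filter.1 hw
      obtain ⟨s', q, h⟩ := chain_exists T₀ T T' κ π hc hp c hcap g w a1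
        (fun hFA => a2 (Finset.mem_filter.2 ⟨Finset.mem_univ _, a1, hFA⟩))
        (fun hh => a3 (Finset.mem_filter.2 ⟨Finset.mem_univ _, hh⟩))
      exact ⟨s', q, fun _ => h⟩
    · exact ⟨0, fun _ => 0, fun h => absurd h hw⟩
  choose sf qf hsq using hch
  have hset : ∀ w k, {v | π v = w ∧ qf (π v) v = k} =
      {v | v ∈ Finset.univ.filter (fun v => π v = w) ∧ qf w v = k} := by
    intro w k
    ext v
    simp only [Set.mem_setOf_eq, Finset.mem_filter, Finset.mem_univ, true_and]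
    constructor
    · rintro ⟨rfl, h⟩; exact ⟨rfl, h⟩
    · rintro ⟨rfl, h⟩; exact ⟨rfl, h⟩
  have hfin := FINISH T₀ T T' κ π hc hp o₁ o₂ o₃ ho q1 q2 q3 c hcap Sp sf
    (fun v => qf (π v) v) (fun _ => 26 * M)
    (fun w hw => (hsq w hw).1)
    (fun v hv => (hsq _ hv).2.1 v (by simp))
    (by
      intro w hw k hk
      have := (hsq w hw).2.2.1 k hk
      rw [← hset] at this
      exact this)
    (by
      intro u v hu huv hadj
      have := (hsq _ hu).2.2.2.1 u (by simp) v (by simp [huv]) hadj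
      show qf (π u) u ≤ qf (π v) v + 1
      rw [← huv]
      exact this)
    (by
      intro w hw
      obtain ⟨w₁, w₂, b1, b2, b3, b4, b5⟩ := (hsq w hw).2.2.2.2.1
      rw [← hset] at b4 b5
      exact ⟨w₁, w₂, b1, b2, b3, b4, b5⟩)
    (by
      intro w hw
      obtain ⟨w₁, w₂, b1, b2, b3, b4, b5⟩ := (hsq w hw).2.2.2.2.2.1
      rw [← hset] at b4 b5
      exact ⟨w₁, w₂, b1, b2, b3, b4, b5⟩)
    (by
      intro w hw k hk1 hk2
      obtain ⟨w₁, b1, b2⟩ := (hsq w hw).2.2.2.2.2.2.1 k hk1 hk2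
      rw [← hset] at b2
      exact ⟨w₁, b1, b2⟩)
    (by
      intro w hw k
      have h25 := (hsq w hw).2.2.2.2.2.2.2 k
      obtain ⟨_, _, _, _, hKw⟩ := Finset.mem_filter.1 hw
      refine split_bound _ c M (A * L) g 25 hg hcM ?_ ?_
      · refine le_trans (Finset.card_le_card ?_) h25
        intro v hv
        simp only [Finset.mem_filter, Finset.mem_univ, true_and] at hv ⊢
        obtain ⟨⟨rfl, hv2⟩, hv3⟩ := hv
        exact ⟨⟨rfl, hv3⟩, hv2⟩
      · refine le_trans (Finset.card_le_card ?_) hKw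
        intro v hv
        simp only [Finset.mem_filter, Finset.mem_univ, true_and] at hv ⊢
        exact hv.1)
  refine ⟨_, hfin, ?_⟩
  -- the bound
  have hterm : ∀ w, A * L * (if w ∈ Sp then 7 * (26 * M) else
      ∑ v ∈ Finset.univ.filter (fun v => π v = w), c v) ≤
      A * L * (182 * M) + (if w ∈ G ∪ P then A * L * (L * M) else 0) +
        (Finset.univ.filter (fun v => π v = w)).card * (L * M) := by
    intro w
    by_cases hw : w ∈ Sp
    · simp only [hw, if_true]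
      have : 7 * (26 * M) = 182 * M := by ring
      rw [this]
      exact (Nat.le_add_right _ _).trans (Nat.le_add_right _ _)
    · simp only [hw, if_false]
      by_cases hGP : w ∈ G ∪ P
      · simp only [hGP, if_true]
        have := Nat.mul_le_mul_left (A * L) (hN w)
        omega
      · simp only [hGP, if_false, add_zero]
        by_cases hbig : (Finset.univ.filter (fun v => π v = w)).card ≤ A * L
        · have hQ : (Finset.univ.filter (fun v => π v = w ∧ g ≤ c v)).card ≤ 40 := by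
            by_contra hQ
            push Not at hQ
            rw [Finset.mem_union, not_or] at hGP
            exact hw (Finset.mem_filter.2 ⟨Finset.mem_univ _, hQ, hGP.1, hGP.2, hbig⟩)
          have h1 := split_bound (Finset.univ.filter (fun v => π v = w)) c M (A * L) g 40 hg hcM
            (by rw [Finset.filter_filter]; exact hQ) hbig
          have h2 : ∑ v ∈ Finset.univ.filter (fun v => π v = w), c v ≤ 182 * M :=
            h1.trans (Nat.mul_le_mul_right _ (by norm_num))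
          exact (Nat.mul_le_mul_left _ h2).trans (Nat.le_add_right _ _)
        · push Not at hbig
          have h1 : A * L * ∑ v ∈ Finset.univ.filter (fun v => π v = w), c v ≤
              (Finset.univ.filter (fun v => π v = w)).card * (L * M) :=
            Nat.mul_le_mul hbig.le (hN w)
          exact h1.trans (Nat.le_add_left _ _)
  have hsum := Finset.sum_le_sum (fun w (_ : w ∈ (Finset.univ : Finset W)) => hterm w)
  rw [← Finset.mul_sum, Finset.sum_add_distrib, Finset.sum_add_distrib, Finset.sum_const,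
    ← Finset.sum_mul] at hsum
  have hKV : ∑ w, (Finset.univ.filter (fun v => π v = w)).card = Fintype.card V := by
    have := Finset.sum_fiberwise (Finset.univ : Finset V) π (fun _ => (1:ℕ))
    simpa using this
  have hGPs : ∑ w, (if w ∈ G ∪ P then A * L * (L * M) else 0) ≤ (2 * t) * (A * L * (L * M)) := by
    rw [← Finset.sum_filter, Finset.sum_const, smul_eq_mul]
    apply Nat.mul_le_mul_right
    have h1 : (Finset.univ.filter (fun w => w ∈ G ∪ P)) = G ∪ P := by ext; simp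
    rw [h1]
    have h2 := Finset.card_union_le G P
    omega
  rw [hKV, smul_eq_mul, Finset.card_univ] at hsum
  have e1 : Fintype.card W * (A * L * (182 * M)) ≤ 182 * A * (90 * ∑ v, c v + 150 * (L * M)) := by
    calc Fintype.card W * (A * L * (182 * M)) = 182 * A * (Fintype.card W * (L * M)) := by ring
      _ ≤ _ := Nat.mul_le_mul_left _ hcard
  rw [mul_add]
  calc A * L * 3 + A * L * ∑ w, (if w ∈ Sp then 7 * (26 * M) else
      ∑ v ∈ Finset.univ.filter (fun v => π v = w), c v)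
      ≤ A * L * 3 + (182 * A * (90 * ∑ v, c v + 150 * (L * M)) + (2 * t) * (A * L * (L * M)) +
        Fintype.card V * (L * M)) := by
        apply Nat.add_le_add_left
        refine hsum.trans ?_
        exact Nat.add_le_add_right (Nat.add_le_add e1 hGPs) _
    _ = _ := by ring


end Pool.Agent.H891WLC
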