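import Pool.Agent.H891WLC.Defs
import Pool.Agent.H891WLC.D_lines
import Pool.Agent.H891WLC.D_state
import Pool.Agent.H891WLC.STEPN

set_option autoImplicit false

namespace Pool.Agent.H891WLC

namespace W_STEP

theorem W1 (ε N A L m M t cV S : ℝ) (hN : 0 ≤ N) (hA0 : 0 < A) (hL0 : 0 < L)
    (h : A * L * m ≤ A * L * (3 + 2 * t * L * M + 27300 * M) + L * M * cV + 16380 * A * S)
    (ht : t * (L * M) ≤ ε / 8 * N) (hc : cV * M ≤ 300 * N) (hS : S ≤ N)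
    (hA : 2400 ≤ A * ε) (hL : 131040 ≤ L * ε) (hNb : 2 * (3 + 27300 * M) ≤ ε * N) :
    m ≤ ε * N := by
  have hAL : 0 < A * L := mul_pos hA0 hL0
  have h1 : A * L * (t * (L * M)) ≤ A * L * (ε / 8 * N) := mul_le_mul_of_nonneg_left ht hAL.le
  have h2 : L * (cV * M) ≤ L * (300 * N) := mul_le_mul_of_nonneg_left hc hL0.le
  have h3 : A * S ≤ A * N := mul_le_mul_of_nonneg_left hS hA0.le
  have h4 : A * L * (2 * (3 + 27300 * M)) ≤ A * L * (ε * N) := mul_le_mul_of_nonneg_left hNb hAL.le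
  have h5 : (L * N) * 2400 ≤ (L * N) * (A * ε) :=
    mul_le_mul_of_nonneg_left hA (mul_nonneg hL0.le hN)
  have h6 : (A * N) * 131040 ≤ (A * N) * (L * ε) :=
    mul_le_mul_of_nonneg_left hL (mul_nonneg hA0.le hN)
  have h7 : A * L * m ≤ A * L * (ε * N) := by nlinarith
  exact le_of_mul_le_mul_left h7 hAL

theorem W2 (ε N A L M t α S S' g : ℝ) (hA0 : 0 < A) (hL0 : 0 < L) (hM0 : 0 < M)
    (hε : 0 < ε)
    (h : 9 * S' + t * g ≤ 9 * S) (hS : S ≤ α * N)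
    (hg : M / (A * L) ≤ g)
    (ht : ε / 8 * N / (L * M) - 1 ≤ t)
    (hN : 2 * (L * M) / (ε / 8) ≤ N) :
    S' ≤ (α - ε / 8 / (18 * A * L ^ 2)) * N := by
  have hLM : 0 < L * M := mul_pos hL0 hM0
  have hε8 : 0 < ε / 8 := by positivity
  have hN' : 2 * (L * M) ≤ N * (ε / 8) := (div_le_iff₀ hε8).1 hN
  have h1 : 2 ≤ ε / 8 * N / (L * M) := by
    rw [le_div_iff₀ hLM]; linarith
  have h2 : ε / 8 * N / (L * M) / 2 ≤ t := by linarith
  have hg0 : 0 < M / (A * L) := by positivity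
  have h3 : ε / 8 * N / (L * M) / 2 * (M / (A * L)) ≤ t * g :=
    mul_le_mul h2 hg hg0.le (by linarith)
  have h4 : ε / 8 * N / (L * M) / 2 * (M / (A * L)) = 9 * (ε / 8 / (18 * A * L ^ 2) * N) := by
    field_simp
    ring
  rw [h4] at h3
  have : (α - ε / 8 / (18 * A * L ^ 2)) * N = α * N - ε / 8 / (18 * A * L ^ 2) * N := by ring
  rw [this]
  linarith

end W_STEP

open W_STEP in
theorem STEP (ε : ℝ) (hε : 0 < ε) (hε1 : ε ≤ 1) :
    ∃ η : ℝ, 0 < η ∧ ∀ (α : ℝ) (M : ℕ), α ≤ 1 → 1 ≤ M → St ε α M → ∃ M', 1 ≤ M' ∧ St ε (α - η) M' := by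
  obtain ⟨A, hAdef⟩ : ∃ A : ℕ, A = ⌈2400 / ε⌉₊ := ⟨_, rfl⟩
  obtain ⟨L, hLdef⟩ : ∃ L : ℕ, L = ⌈131040 / ε⌉₊ := ⟨_, rfl⟩
  have hAr : 2400 ≤ (A : ℝ) * ε := by
    have := Nat.le_ceil (2400 / ε)
    rw [← hAdef, div_le_iff₀ hε] at this
    exact this
  have hLr : 131040 ≤ (L : ℝ) * ε := by
    have := Nat.le_ceil (131040 / ε)
    rw [← hLdef, div_le_iff₀ hε] at this
    exact this
  have hA0 : (0 : ℝ) < A := by
    by_contra hc
    have : (A : ℝ) * ε ≤ 0 := mul_nonpos_of_nonpos_of_nonneg (not_lt.1 hc) hε.le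
    linarith
  have hL0 : (0 : ℝ) < L := by
    by_contra hc
    have : (L : ℝ) * ε ≤ 0 := mul_nonpos_of_nonpos_of_nonneg (not_lt.1 hc) hε.le
    linarith
  have hA1 : 1 ≤ A := by exact_mod_cast hA0
  have hL1 : 1 ≤ L := by exact_mod_cast hL0
  refine ⟨ε / 8 / (18 * A * L ^ 2), by positivity, ?_⟩
  intro α M hα hM ⟨n₀, hst⟩
  have hM0 : (0 : ℝ) < M := by exact_mod_cast hM
  refine ⟨3 * (L * M), by nlinarith [Nat.mul_le_mul hL1 hM], ?_⟩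
  refine ⟨n₀ + ⌈2 * (3 + 27300 * (M : ℝ)) / ε⌉₊ + 15 * (L * M) + ⌈2 * ((L : ℝ) * M) / (ε / 8)⌉₊, ?_⟩
  intro V₀ _ _ T₀ o₁ o₂ o₃ ho hn
  have hn0 : n₀ ≤ Fintype.card V₀ := by omega
  have hn1 : ⌈2 * (3 + 27300 * (M : ℝ)) / ε⌉₊ ≤ Fintype.card V₀ := by omega
  have hn2 : 15 * (L * M) ≤ Fintype.card V₀ := by omega
  have hn3 : ⌈2 * ((L : ℝ) * M) / (ε / 8)⌉₊ ≤ Fintype.card V₀ := by omega
  have hN1 : 2 * (3 + 27300 * (M : ℝ)) ≤ ε * Fintype.card V₀ := by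
    have h1 := (Nat.le_ceil (2 * (3 + 27300 * (M : ℝ)) / ε)).trans (Nat.cast_le.2 hn1)
    rw [div_le_iff₀ hε] at h1
    linarith
  have hN3 : 2 * ((L : ℝ) * M) / (ε / 8) ≤ Fintype.card V₀ :=
    (Nat.le_ceil _).trans (Nat.cast_le.2 hn3)
  rcases hst V₀ T₀ o₁ o₂ o₃ ho hn0 with h | h
  · exact Or.inl h
  obtain ⟨V, iV, dV, T, κ, c, hc, s1, s2, s3, hcap, hcM, hcard, hsum⟩ := h
  have hsumN : ((∑ v, c v : ℕ) : ℝ) ≤ Fintype.card V₀ := by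
    refine hsum.trans ?_
    have := mul_le_mul_of_nonneg_right hα (Nat.cast_nonneg (α := ℝ) (Fintype.card V₀))
    linarith
  have hcard' : (Fintype.card V : ℝ) * M ≤ 300 * Fintype.card V₀ := by exact_mod_cast hcard
  have hLM : (0 : ℝ) < L * M := mul_pos hL0 hM0
  obtain ⟨t, htdef⟩ : ∃ t : ℕ, t = ⌊ε / 8 * (Fintype.card V₀ : ℝ) / (L * M)⌋₊ := ⟨_, rfl⟩
  have ht1 : (t : ℝ) * (L * M) ≤ ε / 8 * Fintype.card V₀ := by
    have : (t : ℝ) ≤ ε / 8 * (Fintype.card V₀ : ℝ) / (L * M) := by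
      rw [htdef]; exact Nat.floor_le (by positivity)
    rwa [le_div_iff₀ hLM] at this
  have ht2 : ε / 8 * (Fintype.card V₀ : ℝ) / (L * M) - 1 ≤ t := by
    rw [htdef]
    have := Nat.lt_floor_add_one (ε / 8 * (Fintype.card V₀ : ℝ) / (L * M))
    linarith
  rcases STEPN T₀ T κ hc o₁ o₂ o₃ ho s1 s2 s3 c hcap M A L t hM hA1 hL1 hcM with h | h
  · obtain ⟨m, hm, hle⟩ := h
    left
    refine ⟨m, ?_, hm⟩
    have hle' : (A : ℝ) * L * m ≤ A * L * (3 + 2 * t * L * M + 27300 * M)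
        + L * M * Fintype.card V + 16380 * A * ((∑ v, c v : ℕ) : ℝ) := by
      exact_mod_cast hle
    exact W1 ε _ A L m M t _ _ (Nat.cast_nonneg _) hA0 hL0 hle' ht1 hcard' hsumN hAr hLr hN1
  · obtain ⟨W, iW, dW, T', κ', c', h1, h2, h3, h4, h5, h6, h7, h8⟩ := h
    right
    refine ⟨W, iW, dW, T', κ', c', h1, h2, h3, h4, h5, h6, ?_, ?_⟩
    · have hs : ∑ v, c v ≤ Fintype.card V₀ := by exact_mod_cast hsumN
      have : Fintype.card W * (3 * (L * M)) = 3 * (Fintype.card W * (L * M)) := by ring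
      rw [this]
      omega
    · have h8' : 9 * ((∑ w, c' w : ℕ) : ℝ) + t * ((M / (A * L) + 1 : ℕ) : ℝ)
          ≤ 9 * ((∑ v, c v : ℕ) : ℝ) := by
        exact_mod_cast h8
      have hg : (M : ℝ) / (A * L) ≤ ((M / (A * L) + 1 : ℕ) : ℝ) := by
        have hAL : 0 < A * L := Nat.mul_pos hA1 hL1
        have hALr : (0 : ℝ) < (A : ℝ) * L := mul_pos hA0 hL0
        rw [div_le_iff₀ hALr]
        have := Nat.lt_mul_div_succ M hAL
        have h' : M ≤ (M / (A * L) + 1) * (A * L) := by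
          rw [mul_comm]; exact this.le
        exact_mod_cast h'
      exact W2 ε _ A L M t α _ _ _ hA0 hL0 hM0 hε h8' hsum hg ht2 hN3


end Pool.Agent.H891WLC
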