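import Pool.Agent.H891WLC.Defs
import Pool.Agent.H891WLC.D_lines
import Pool.Agent.H891WLC.D_state
import Pool.Agent.H891WLC.INIT
import Pool.Agent.H891WLC.STEP

set_option autoImplicit false

namespace Pool.Agent.H891WLC

namespace W_MAINL

end W_MAINL

open W_MAINL in
theorem MAINL (ε : ℝ) (hε : 0 < ε) : ∃ n₀ : ℕ, ∀ (V₀ : Type) [Fintype V₀] [DecidableEq V₀] (T₀ : Tri V₀) (o₁ o₂ o₃ : V₀),
    T₀.F o₁ o₂ o₃ → n₀ ≤ Fintype.card V₀ → ∃ m : ℕ, (m : ℝ) ≤ ε * Fintype.card V₀ ∧ HasLines T₀ o₁ o₂ o₃ m := by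
  obtain ⟨η, hη, hstep⟩ := STEP (min ε 1) (lt_min hε one_pos) (min_le_right _ _)
  have hiter : ∀ k : ℕ, ∃ M, 1 ≤ M ∧ St (min ε 1) (1 - k * η) M := by
    intro k
    induction k with
    | zero =>
      refine ⟨1, le_rfl, ?_⟩
      have := INIT (min ε 1)
      simpa using this
    | succ k ih =>
      obtain ⟨M, hM, hSt⟩ := ih
      have h1 : (1 : ℝ) - k * η ≤ 1 := by
        have : (0 : ℝ) ≤ k * η := by positivity
        linarith
      obtain ⟨M', hM', hSt'⟩ := hstep (1 - k * η) M h1 hM hSt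
      refine ⟨M', hM', ?_⟩
      have h2 : (1 : ℝ) - ((k + 1 : ℕ) : ℝ) * η = 1 - k * η - η := by
        push_cast
        ring
      rw [h2]
      exact hSt'
  obtain ⟨k, hk⟩ := exists_nat_gt (1 / η)
  have hk' : (1 : ℝ) - k * η < 0 := by
    rw [div_lt_iff₀ hη] at hk
    linarith
  obtain ⟨M, _, n₀, hn₀⟩ := hiter k
  refine ⟨n₀, ?_⟩
  intro V₀ _ _ T₀ o₁ o₂ o₃ hF hcard
  have hpos : (0 : ℝ) < Fintype.card V₀ := by
    have : 0 < Fintype.card V₀ := Fintype.card_pos_iff.2 ⟨o₁⟩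
    exact_mod_cast this
  rcases hn₀ V₀ T₀ o₁ o₂ o₃ hF hcard with ⟨m, hm, hL⟩ | ⟨V, _, _, T, κ, c, _, _, _, _, _, _, _, hsum⟩
  · refine ⟨m, hm.trans ?_, hL⟩
    exact mul_le_mul_of_nonneg_right (min_le_left _ _) hpos.le
  · exfalso
    have h3 : (0 : ℝ) ≤ ((∑ v, c v : ℕ) : ℝ) := Nat.cast_nonneg _
    have h4 : (1 - k * η) * Fintype.card V₀ < 0 := mul_neg_of_neg_of_pos hk' hpos
    linarith


end Pool.Agent.H891WLC
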