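import Pool.Agent.H891WLC.Defs
import Pool.Agent.H891WLC.D_lines
import Pool.Agent.H891WLC.D_state
import Pool.Agent.H891WLC.PLANE
import Pool.Agent.H891WLC.TRIANG
import Pool.Agent.H891WLC.MAINL

set_option autoImplicit false

namespace Pool.Agent.H891WLC

namespace W_RESULT

end W_RESULT

open W_RESULT in
theorem RESULT : ∀ ε : ℝ, 0 < ε → ∃ N : ℕ, ∀ n : ℕ, N ≤ n → ∀ G : SimpleGraph (Fin n),
    (∃ p : Fin n → ℝ × ℝ, Function.Injective p ∧
      (∀ u v w : Fin n, G.Adj u v → w ≠ u → w ≠ v → p w ∉ segment ℝ (p u) (p v)) ∧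
      (∀ u v x y : Fin n, G.Adj u v → G.Adj x y → s(u, v) ≠ s(x, y) →
        ∀ z ∈ segment ℝ (p u) (p v), z ∈ segment ℝ (p x) (p y) →
          ∃ w : Fin n, (w = u ∨ w = v) ∧ (w = x ∨ w = y) ∧ z = p w)) →
    ∃ p : Fin n → ℝ × ℝ, (Function.Injective p ∧
      (∀ u v w : Fin n, G.Adj u v → w ≠ u → w ≠ v → p w ∉ segment ℝ (p u) (p v)) ∧
      (∀ u v x y : Fin n, G.Adj u v → G.Adj x y → s(u, v) ≠ s(x, y) →
        ∀ z ∈ segment ℝ (p u) (p v), z ∈ segment ℝ (p x) (p y) →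
          ∃ w : Fin n, (w = u ∨ w = v) ∧ (w = x ∨ w = y) ∧ z = p w)) ∧
      ∃ k : ℕ, (k : ℝ) ≤ ε * n ∧ ∃ a b c : Fin k → ℝ, (∀ i, a i ≠ 0 ∨ b i ≠ 0) ∧
        ∀ v : Fin n, ∃ i : Fin k, a i * (p v).1 + b i * (p v).2 = c i := by
  intro ε hε
  obtain ⟨n₀, hn₀⟩ := MAINL (ε / 2) (half_pos hε)
  refine ⟨max n₀ 3, ?_⟩
  intro n hn G hG
  have hn0 : n₀ ≤ n := (le_max_left _ _).trans hn
  have hn3 : 3 ≤ n := (le_max_right _ _).trans hn
  obtain ⟨p, hp⟩ := hG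
  obtain ⟨T, hT1, hT2⟩ := TRIANG n G p hp
  have hcard : Fintype.card (Fin n ⊕ Fin 3) = n + 3 := by
    rw [Fintype.card_sum, Fintype.card_fin, Fintype.card_fin]
  obtain ⟨m, hm, p', hd, k, a, b, c, hkm, hab, hcov⟩ :=
    hn₀ (Fin n ⊕ Fin 3) T (Sum.inr 0) (Sum.inr 1) (Sum.inr 2) hT1 (by rw [hcard]; omega)
  obtain ⟨hinj, hseg, hcross⟩ := PLANE T _ _ _ p' hd
  refine ⟨fun v => p' (Sum.inl v), ⟨?_, ?_, ?_⟩, k, ?_, a, b, c, hab, fun v => hcov (Sum.inl v)⟩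
  · intro u v huv
    exact Sum.inl_injective (hinj huv)
  · intro u v w huv hwu hwv
    exact hseg (Sum.inl u) (Sum.inl v) (Sum.inl w) (hT2 u v huv)
      (fun h => hwu (Sum.inl_injective h)) (fun h => hwv (Sum.inl_injective h))
  · intro u v x y huv hxy hne z hz1 hz2
    have hne' : s((Sum.inl u : Fin n ⊕ Fin 3), Sum.inl v) ≠ s(Sum.inl x, Sum.inl y) := by
      intro h
      apply hne
      rw [Sym2.eq_iff] at h ⊢
      rcases h with ⟨h1, h2⟩ | ⟨h1, h2⟩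
      · exact Or.inl ⟨Sum.inl_injective h1, Sum.inl_injective h2⟩
      · exact Or.inr ⟨Sum.inl_injective h1, Sum.inl_injective h2⟩
    obtain ⟨w, hw1, hw2, hw3⟩ := hcross (Sum.inl u) (Sum.inl v) (Sum.inl x) (Sum.inl y)
      (hT2 u v huv) (hT2 x y hxy) hne' z hz1 hz2
    have hw : ∃ w', w = Sum.inl w' := by
      rcases hw1 with h | h
      · exact ⟨u, h⟩
      · exact ⟨v, h⟩
    obtain ⟨w', rfl⟩ := hw
    refine ⟨w', ?_, ?_, hw3⟩
    · rcases hw1 with h | h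
      · exact Or.inl (Sum.inl_injective h)
      · exact Or.inr (Sum.inl_injective h)
    · rcases hw2 with h | h
      · exact Or.inl (Sum.inl_injective h)
      · exact Or.inr (Sum.inl_injective h)
  · have h1 : (k : ℝ) ≤ m := by exact_mod_cast hkm
    rw [hcard] at hm
    push_cast at hm
    have h2 : (3 : ℝ) ≤ n := by exact_mod_cast hn3
    nlinarith

end Pool.Agent.H891WLC
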